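import Pool.Agent.FOL.BStmts
import Pool.Agent.FO2.ST

/-!
# Module AFX: the translation parts of the extension to `Γ` (II.12)
-/

namespace FOI.L

open Lib_helper64.FO FO2 FOK
open scoped RealInnerProductSpace Nat

noncomputable section

namespace AFX

variable {d k : ℕ} {Γ : Type} [Group Γ] {X : Type} [MulAction Γ X] {G : AGeo d k Γ X} {l : ℕ}
  {RI : Γ → (E d ≃ₗᵢ[ℝ] E d)}

theorem pI_add (v w : E d) : pI G l (v + w) = pI G l v + pI G l w := by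
  rw [pI, pI, pI, map_add]

theorem pI_sub (v w : E d) : pI G l (v - w) = pI G l v - pI G l w := by
  rw [pI, pI, pI, map_sub]

theorem pI_mem (v : E d) : pI G l v ∈ Sp G 0 l := Submodule.starProjection_apply_mem _ _

theorem pI_inner {s : E d} (hs : s ∈ Sp G 0 l) (v : E d) : ⟪s, pI G l v⟫ = ⟪s, v⟫ := by
  have h := Submodule.starProjection_inner_eq_zero (K := Sp G 0 l) v s hs
  rw [inner_sub_left, sub_eq_zero] at h
  rw [real_inner_comm, real_inner_comm v s]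
  exact h.symm

theorem pI_eq {u v : E d} (hu : u ∈ Sp G 0 l) (h : ∀ s ∈ Sp G 0 l, ⟪s, u⟫ = ⟪s, v⟫) :
    pI G l v = u := by
  apply (Submodule.eq_starProjection_of_mem_of_inner_eq_zero hu _)
  intro w hw
  rw [inner_sub_left, sub_eq_zero, real_inner_comm, ← h w hw, real_inner_comm]

theorem RI_one (hE : IsExt G l RI) : RI 1 = 1 := by
  have h := hE.mul 1 1
  rw [one_mul] at h
  exact mul_eq_left.1 h.symm

theorem RI_inv (hE : IsExt G l RI) (γ : Γ) (v : E d) : RI γ (RI γ⁻¹ v) = v := by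
  have h := hE.mul γ γ⁻¹
  rw [mul_inv_cancel, RI_one hE] at h
  exact (congrArg (fun e : E d ≃ₗᵢ[ℝ] E d => e v) h).symm

/-- `T h` commutes with the projection -/
theorem pI_T (hE : IsExt G l RI) {h : Γ} (hh : h ∈ G.H) (v : E d) :
    pI G l (G.T h v) = RI h (pI G l v) := by
  apply pI_eq (hE.pres h _ (pI_mem v))
  intro s hs
  have hs' : RI h⁻¹ s ∈ Sp G 0 l := hE.pres _ _ hs
  have e1 : G.T h (RI h⁻¹ s) = s := by
    rw [← hE.H h hh _ hs', RI_inv hE]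
  calc ⟪s, RI h (pI G l v)⟫ = ⟪RI h (RI h⁻¹ s), RI h (pI G l v)⟫ := by rw [RI_inv hE]
    _ = ⟪RI h⁻¹ s, pI G l v⟫ := LinearIsometryEquiv.inner_map_map _ _ _
    _ = ⟪RI h⁻¹ s, v⟫ := pI_inner hs' v
    _ = ⟪G.T h (RI h⁻¹ s), G.T h v⟫ := (LinearIsometryEquiv.inner_map_map _ _ _).symm
    _ = ⟪s, G.T h v⟫ := by rw [e1]

theorem conj_TT {x : Γ} (hx : x ∈ TT G 0 l) (γ : Γ) : γ * x * γ⁻¹ ∈ TT G 0 l := by
  obtain ⟨δ, -, rfl⟩ := hx
  exact ⟨γ * δ, G.mem_up_zero _, by group⟩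

/-- the translation part of `γ n γ⁻¹` -/
theorem tau_conj (hM : (∀ x ∈ TT G 0 l, x ∈ G.N ∧ ∃ n ∈ G.N, x = n * G.ρ l * n⁻¹))
    (hM' : ∀ x ∈ TT G 0 l, ∃ a ∈ Ph G 1 0 l, ∀ v, G.R 1 x v = sref a v)
    (hL : Lat G) (hC : ∀ x ∈ TT G 0 l, ∀ a, (∀ v, G.R 1 x v = sref a v) → ∀ n ∈ Lt G,
      x * n * x⁻¹ * n⁻¹ ∈ L0 G l ∧ tau G (x * n * x⁻¹ * n⁻¹) = -(2 * ⟪a, tau G n⟫) • a)
    (hE : IsExt G l RI) (γ : Γ) {n : Γ} (hn : n ∈ Lt G) :
    pI G l (tau G (γ * n * γ⁻¹)) = RI γ (pI G l (tau G n)) := by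
  apply pI_eq (hE.pres γ _ (pI_mem _))
  -- the roots
  have hroot : ∀ a ∈ Ph G 1 0 l, ⟪RI γ a, tau G (γ * n * γ⁻¹)⟫ = ⟪a, tau G n⟫ := by
    rintro a ⟨ha, x, hx, hr⟩
    have haS : a ∈ Sp G 0 l := Submodule.subset_span ⟨ha, x, hx, hr⟩
    have hxN : x ∈ G.N := (hM x hx).1
    have hn1 : ‖RI γ a‖ = 1 := by rw [LinearIsometryEquiv.norm_map, ha]
    obtain ⟨c, hc, hrc⟩ := hM' _ (conj_TT hx γ)
    -- `c = ± RI γ a`
    have h1 : sref c (RI γ a) = -RI γ a := by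
      rw [← hrc, ← hE.conj γ x hxN a haS, hr, sref_self ha, map_neg]
    have h2 : RI γ a = c ∨ RI γ a = -c := by
      have h3 : (2 : ℝ) • RI γ a = (2 : ℝ) • (⟪c, RI γ a⟫ • c) := by
        rw [sref] at h1
        have h4 : RI γ a - (2 * ⟪c, RI γ a⟫) • c = -RI γ a := h1
        have h5 : RI γ a + RI γ a = (2 * ⟪c, RI γ a⟫) • c := by
          calc RI γ a + RI γ a = RI γ a - -RI γ a := by abel
            _ = RI γ a - (RI γ a - (2 * ⟪c, RI γ a⟫) • c) := by rw [h4]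
            _ = (2 * ⟪c, RI γ a⟫) • c := by abel
        rw [two_smul, h5, smul_smul]
      have h6 : RI γ a = ⟪c, RI γ a⟫ • c := smul_right_injective (E d) (two_ne_zero' ℝ) h3
      have h7 : |⟪c, RI γ a⟫| = 1 := by
        have := congrArg norm h6
        rw [norm_smul, hn1, hc.1, mul_one, Real.norm_eq_abs] at this
        exact this.symm
      rcases (abs_eq zero_le_one).1 h7 with h8 | h8
      · left; rw [h8, one_smul] at h6; exact h6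
      · right; rw [h8, neg_one_smul] at h6; exact h6
    have h3 : ∀ v, G.R 1 (γ * x * γ⁻¹) v = sref (RI γ a) v := by
      intro v
      rw [hrc]
      rcases h2 with h | h
      · rw [h]
      · rw [h, sref_neg]
    obtain ⟨h4, h5⟩ := hC x hx a hr n hn
    obtain ⟨-, h6⟩ := hC _ (conj_TT hx γ) _ h3 _ (hL.nrm γ n hn)
    have h7 := hE.tau γ _ h4
    have e1 : γ * (x * n * x⁻¹ * n⁻¹) * γ⁻¹ =
        γ * x * γ⁻¹ * (γ * n * γ⁻¹) * (γ * x * γ⁻¹)⁻¹ * (γ * n * γ⁻¹)⁻¹ := by group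
    rw [e1, h5, h6, map_smul] at h7
    have h8 : RI γ a ≠ 0 := by
      intro h0
      rw [h0, norm_zero] at hn1
      exact zero_ne_one hn1
    have h9 := smul_left_injective ℝ h8 h7
    have h10 : -(2 * ⟪a, tau G n⟫) = -(2 * ⟪RI γ a, tau G (γ * n * γ⁻¹)⟫) := h9
    linarith
  -- all of `I`
  have hall : ∀ s ∈ Sp G 0 l, ⟪RI γ s, tau G (γ * n * γ⁻¹)⟫ = ⟪s, tau G n⟫ := by
    intro s hs
    refine Submodule.span_induction (p := fun s _ => ⟪RI γ s, tau G (γ * n * γ⁻¹)⟫ =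
      (⟪s, tau G n⟫ : ℝ)) ?_ ?_ ?_ ?_ hs
    · exact hroot
    · simp
    · intro v w _ _ hv hw
      rw [map_add, inner_add_left, inner_add_left, hv, hw]
    · intro c v _ hv
      rw [map_smul, inner_smul_left, inner_smul_left, hv]
  intro s hs
  have hs' : RI γ⁻¹ s ∈ Sp G 0 l := hE.pres _ _ hs
  have e := hall _ hs'
  rw [RI_inv hE] at e
  rw [e]
  calc ⟪s, RI γ (pI G l (tau G n))⟫ = ⟪RI γ (RI γ⁻¹ s), RI γ (pI G l (tau G n))⟫ := by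
        rw [RI_inv hE]
    _ = ⟪RI γ⁻¹ s, pI G l (tau G n)⟫ := LinearIsometryEquiv.inner_map_map _ _ _
    _ = ⟪RI γ⁻¹ s, tau G n⟫ := pI_inner hs' _

/-- the difference -/
def DD (G : AGeo d k Γ X) (l : ℕ) (RI : Γ → (E d ≃ₗᵢ[ℝ] E d)) (γ : Γ) (y : X) : E d :=
  pI G l (G.f (γ • y)) - RI γ (pI G l (G.f y))

theorem DD_mem (hE : IsExt G l RI) (γ : Γ) (y : X) : DD G l RI γ y ∈ Sp G 0 l :=
  Submodule.sub_mem _ (pI_mem _) (hE.pres _ _ (pI_mem _))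

theorem DD_inv (hL : Lat G) (hT : ∀ (γ : Γ) (n : Γ), n ∈ Lt G →
    pI G l (tau G (γ * n * γ⁻¹)) = RI γ (pI G l (tau G n))) (γ : Γ) {n : Γ} (hn : n ∈ Lt G)
    (y : X) : DD G l RI γ (n • y) = DD G l RI γ y := by
  have e : γ • n • y = (γ * n * γ⁻¹) • γ • y := by
    rw [← mul_smul, ← mul_smul]
    congr 1
    group
  rw [DD, DD, e, hL.act _ (hL.nrm γ n hn), hL.act n hn, pI_add, pI_add, map_add, hT γ n hn]
  abel

theorem DD_mul (hE : IsExt G l RI) (γ δ : Γ) (y : X) :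
    DD G l RI (γ * δ) y = DD G l RI γ (δ • y) + RI γ (DD G l RI δ y) := by
  have e : RI (γ * δ) (pI G l (G.f y)) = RI γ (RI δ (pI G l (G.f y))) := by
    rw [hE.mul]; rfl
  rw [DD, DD, DD, e, map_sub, mul_smul]
  abel

theorem DD_H (hE : IsExt G l RI) {h : Γ} (hh : h ∈ G.H) (y z : X) :
    DD G l RI h y = DD G l RI h z := by
  have e := pI_T hE hh (G.f y - G.f z)
  rw [G.equiv h hh, pI_sub, pI_sub, map_sub] at e
  rw [DD, DD, sub_eq_sub_iff_sub_eq_sub]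
  exact e

end AFX

open AFX in
theorem t_AFX : M_AFX := by
  intro hMIR hDIR hLAT hCMM d k Γ _ X _ _ G l hTop RI hE
  obtain ⟨-, hM, -, -, -, -⟩ := hMIR d k Γ X G l hTop
  have hMM := hMIR d k Γ X G l hTop
  have hL := hLAT d k Γ X G l hTop
  obtain ⟨-, -, -, -, hC⟩ := hCMM d k Γ X G l hTop
  have hM' : ∀ x ∈ TT G 0 l, ∃ a ∈ Ph G 1 0 l, ∀ v, G.R 1 x v = sref a v := by
    intro x hx
    obtain ⟨a, h, ha⟩ := hMM.2.2.1 x hx
    exact ⟨a, ⟨ha.norm, x, hx, ha.lin⟩, ha.lin⟩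
  have hT : ∀ (γ : Γ) (n : Γ), n ∈ Lt G →
      pI G l (tau G (γ * n * γ⁻¹)) = RI γ (pI G l (tau G n)) :=
    fun γ n hn => tau_conj hM hM' hL hC hE γ hn
  have : (Lt G).FiniteIndex := ⟨hL.idx⟩
  have : Finite (Γ ⧸ Lt G) := Subgroup.finite_quotient_of_finiteIndex
  let _ : Fintype (Γ ⧸ Lt G) := Fintype.ofFinite _
  have : Nonempty (Γ ⧸ Lt G) := ⟨((1 : Γ) : Γ ⧸ Lt G)⟩
  have hcard : (Fintype.card (Γ ⧸ Lt G) : ℝ) ≠ 0 := by
    have := Fintype.card_pos (α := Γ ⧸ Lt G)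
    exact_mod_cast this.ne'
  -- the values on the cosets
  have hout : ∀ (γ g : Γ), DD G l RI γ (((g : Γ ⧸ Lt G)).out • G.x0) = DD G l RI γ (g • G.x0) := by
    intro γ g
    obtain ⟨n, hn⟩ := QuotientGroup.mk_out_eq_mul (Lt G) g
    have e : ((g : Γ ⧸ Lt G)).out • G.x0 = (g * n.1 * g⁻¹) • g • G.x0 := by
      rw [hn, ← mul_smul]
      congr 1
      group
    rw [e, DD_inv hL hT γ (hL.nrm g n.1 n.2)]
  let b : Γ → E d := fun γ =>
    (Fintype.card (Γ ⧸ Lt G) : ℝ)⁻¹ • ∑ c : Γ ⧸ Lt G, DD G l RI γ (c.out • G.x0)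
  refine ⟨b, ?_, ?_, ?_⟩
  · intro γ
    exact Submodule.smul_mem _ _ (Submodule.sum_mem _ fun c _ => DD_mem hE γ _)
  · intro γ δ
    have h1 : ∑ c : Γ ⧸ Lt G, DD G l RI γ (δ • c.out • G.x0) =
        ∑ c : Γ ⧸ Lt G, DD G l RI γ (c.out • G.x0) := by
      rw [← Equiv.sum_comp (MulAction.toPerm δ : Equiv.Perm (Γ ⧸ Lt G))
        (fun c => DD G l RI γ (c.out • G.x0))]
      refine Finset.sum_congr rfl fun c _ => ?_
      have e : (MulAction.toPerm δ : Equiv.Perm (Γ ⧸ Lt G)) c = ((δ * c.out : Γ) : Γ ⧸ Lt G) := by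
        conv_lhs => rw [← QuotientGroup.out_eq' c]
        rfl
      rw [e, hout, mul_smul]
    change (Fintype.card (Γ ⧸ Lt G) : ℝ)⁻¹ • ∑ c : Γ ⧸ Lt G, DD G l RI (γ * δ) (c.out • G.x0) =
      (Fintype.card (Γ ⧸ Lt G) : ℝ)⁻¹ • ∑ c : Γ ⧸ Lt G, DD G l RI γ (c.out • G.x0) +
      RI γ ((Fintype.card (Γ ⧸ Lt G) : ℝ)⁻¹ • ∑ c : Γ ⧸ Lt G, DD G l RI δ (c.out • G.x0))
    rw [map_smul, map_sum, ← smul_add, ← h1, ← Finset.sum_add_distrib]
    congr 1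
    exact Finset.sum_congr rfl fun c _ => DD_mul hE γ δ _
  · intro h hh y
    have h1 : b h = DD G l RI h y := by
      change (Fintype.card (Γ ⧸ Lt G) : ℝ)⁻¹ • ∑ c : Γ ⧸ Lt G, DD G l RI h (c.out • G.x0) = _
      have h2 : ∑ c : Γ ⧸ Lt G, DD G l RI h (c.out • G.x0) =
          ∑ _c : Γ ⧸ Lt G, DD G l RI h y := Finset.sum_congr rfl fun c _ => DD_H hE hh _ _
      rw [h2, Finset.sum_const, Finset.card_univ, ← Nat.cast_smul_eq_nsmul ℝ, smul_smul,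
        inv_mul_cancel₀ hcard, one_smul]
    rw [h1, DD]
    abel

end

end FOI.L
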