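import Pool.Agent.FOL.MStmts

/-!
# Module C2: the sizes of the orbits in a plateau
-/

namespace FOL

open Lib_helper64.FO FO2 FOI
open scoped RealInnerProductSpace

noncomputable section

namespace C2

open MulAction

/-- a set that is a union of orbits of size `s` -/
theorem count {α K : Type} [Finite α] [Group K] [MulAction K α] (T : Set α)
    (hT : ∀ x ∈ T, orbit K x ⊆ T) (s : ℕ) (hs : ∀ x ∈ T, (orbit K x).ncard = s) :
    T.ncard = ((fun x => (Quotient.mk'' x : orbitRel.Quotient K α)) '' T).ncard * s := by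
  classical
  have : Fintype α := Fintype.ofFinite α
  have : Fintype (orbitRel.Quotient K α) := Fintype.ofFinite _
  set f : α → orbitRel.Quotient K α := fun x => Quotient.mk'' x with hf
  have h1 := Finset.card_eq_sum_card_fiberwise (f := f) (s := T.toFinset)
    (t := (f '' T).toFinset) (fun x hx => by
      simp only [Finset.mem_coe, Set.mem_toFinset] at hx ⊢
      exact ⟨x, hx, rfl⟩)
  have h2 : ∀ b ∈ (f '' T).toFinset, (T.toFinset.filter fun a => f a = b).card = s := by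
    intro b hb
    rw [Set.mem_toFinset] at hb
    obtain ⟨x, hx, rfl⟩ := hb
    rw [← hs x hx, ← Set.ncard_coe_finset]
    congr 1
    ext a
    simp only [Finset.coe_filter, Set.mem_toFinset, Set.mem_ofPred_eq]
    rw [show (f a = f x ↔ a ∈ orbit K x) from by
      rw [hf]
      exact Quotient.eq''.trans orbitRel_apply]
    exact ⟨fun h => h.2, fun h => ⟨hT x hx h, h⟩⟩
  rw [Finset.sum_congr rfl h2, Finset.sum_const, smul_eq_mul] at h1
  rw [Set.ncard_eq_toFinset_card', Set.ncard_eq_toFinset_card', h1]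

variable {d k : ℕ} {Γ : Type} [Group Γ] {X : Type} [MulAction Γ X] (G : AGeo d k Γ X)

theorem fin : Finite (Γ ⧸ G.H) := by
  have : G.H.FiniteIndex := ⟨G.idx0⟩
  infer_instance

/-- the size of an orbit -/
theorem ncard_orbit (g : Γ) (j : ℕ) :
    (orbit (G.up j) (QuotientGroup.mk g⁻¹ : Γ ⧸ G.H)).ncard = G.sM g j := by
  rw [← index_stabilizer, AGeo.sM, Subgroup.relIndex]
  congr 1
  ext m
  rw [mem_stabilizer_iff, Subgroup.mem_subgroupOf, AGeo.mem_Hc]
  have e : m • (QuotientGroup.mk g⁻¹ : Γ ⧸ G.H) = QuotientGroup.mk ((m : Γ) * g⁻¹) := rfl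
  rw [e, eq_comm, QuotientGroup.eq, inv_inv, ← mul_assoc]

theorem orbit_eq (hC : S_C) {j : ℕ} (h : G.cM j = G.cM (j + 1)) (x : Γ ⧸ G.H) :
    orbit (G.up j) x = orbit (G.up (j + 1)) x := by
  refine Set.Subset.antisymm ?_ ?_
  · rintro _ ⟨γ, rfl⟩
    obtain ⟨y, rfl⟩ := QuotientGroup.mk_surjective x
    obtain ⟨m, hm, a, ha, e⟩ := (hC d k Γ X G).2.2 j (j + 1) (Nat.le_succ j) h y⁻¹ (γ : Γ)⁻¹
      (inv_mem γ.2)
    refine ⟨⟨a⁻¹, inv_mem ha⟩, ?_⟩
    have e1 : (γ : Γ) = a⁻¹ * m⁻¹ := by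
      rw [← mul_inv_rev, ← e, inv_inv]
    change (QuotientGroup.mk (a⁻¹ * y) : Γ ⧸ G.H) = QuotientGroup.mk ((γ : Γ) * y)
    rw [QuotientGroup.eq, e1]
    have h1 := (AGeo.mem_M G).1 hm
    have h2 := inv_mem h1.1
    have e2 : (a⁻¹ * y)⁻¹ * (a⁻¹ * m⁻¹ * y) = (y⁻¹ * m * y⁻¹⁻¹)⁻¹ := by group
    rw [e2]
    exact h2
  · rintro _ ⟨γ, rfl⟩
    exact ⟨⟨γ, G.up_anti (Nat.le_succ j) γ.2⟩, rfl⟩

theorem ncard_ρ (hC : S_C) {j : ℕ} (h : G.cM j = G.cM (j + 1)) (i : ℕ) (x : Γ ⧸ G.H) :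
    (orbit (G.up j) (G.ρ i • x)).ncard = (orbit (G.up j) x).ncard := by
  rcases Nat.lt_or_ge i j with h1 | h1
  · rw [orbit_eq G hC h, orbit_eq G hC h]
    have e : orbit (G.up (j + 1)) (G.ρ i • x) = (fun y => G.ρ i • y) '' orbit (G.up (j + 1)) x := by
      ext y
      constructor
      · rintro ⟨γ, rfl⟩
        refine ⟨γ • x, ⟨γ, rfl⟩, ?_⟩
        change G.ρ i • (γ : Γ) • x = (γ : Γ) • G.ρ i • x
        rw [← mul_smul, ← mul_smul, G.comm_up (by omega) γ.2]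
      · rintro ⟨_, ⟨γ, rfl⟩, rfl⟩
        refine ⟨γ, ?_⟩
        change (γ : Γ) • G.ρ i • x = G.ρ i • (γ : Γ) • x
        rw [← mul_smul, ← mul_smul, G.comm_up (by omega) γ.2]
    rw [e, Set.ncard_image_of_injective _ (MulAction.injective _)]
  · congr 1
    rw [orbit_eq_iff]
    exact ⟨⟨G.ρ i, G.ρ_mem_up h1⟩, rfl⟩

theorem ncard_smul (hC : S_C) {j : ℕ} (h : G.cM j = G.cM (j + 1)) (γ : Γ) (x : Γ ⧸ G.H) :
    (orbit (G.up j) (γ • x)).ncard = (orbit (G.up j) x).ncard := by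
  have hγ : γ ∈ Subgroup.closure (G.ρ '' Set.univ) := by
    have := G.gen
    rw [gpar] at this
    rw [this]
    trivial
  induction hγ using Subgroup.closure_induction generalizing x with
  | mem y hy =>
    obtain ⟨i, -, rfl⟩ := hy
    exact ncard_ρ G hC h i x
  | one => rw [one_smul]
  | mul a b _ _ ha hb => rw [mul_smul, ha, hb]
  | inv a _ ha =>
    have := ha (a⁻¹ • x)
    rw [smul_inv_smul] at this
    exact this.symm

theorem ncard_all (hC : S_C) {j : ℕ} (h : G.cM j = G.cM (j + 1)) (g : Γ) (x : Γ ⧸ G.H) :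
    (orbit (G.up j) x).ncard = G.sM g j := by
  rw [← ncard_orbit]
  obtain ⟨γ, rfl⟩ := exists_smul_eq Γ (QuotientGroup.mk g⁻¹ : Γ ⧸ G.H) x
  exact ncard_smul G hC h γ _

theorem first (hC : S_C) {j : ℕ} (h : G.cM j = G.cM (j + 1)) (g : Γ) :
    G.sM g j * G.cM j = G.H.index := by
  have := fin G
  have h1 := count (K := G.up j) (Set.univ : Set (Γ ⧸ G.H)) (fun _ _ => Set.subset_univ _)
    (G.sM g j) (fun x _ => ncard_all G hC h g x)
  have h2 : Function.Surjective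
      (fun x : Γ ⧸ G.H => (Quotient.mk'' x : orbitRel.Quotient (G.up j) (Γ ⧸ G.H))) :=
    Quotient.mk''_surjective
  rw [Set.image_univ, h2.range_eq, Set.ncard_univ, Set.ncard_univ] at h1
  rw [Subgroup.index, h1, AGeo.cM, mul_comm]

theorem second (hC : S_C) {j j' : ℕ} (hjj : j < j') (h' : G.cM j' = G.cM (j' + 1)) :
    ∃ n, G.sM 1 j = n * G.sM 1 j' := by
  have := fin G
  have h1 := count (K := G.up j') (orbit (G.up j) (QuotientGroup.mk (1 : Γ)⁻¹ : Γ ⧸ G.H)) (by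
    rintro _ ⟨γ, rfl⟩ _ ⟨δ, rfl⟩
    refine ⟨⟨δ, G.up_anti hjj.le δ.2⟩ * γ, ?_⟩
    exact mul_smul (δ : Γ) (γ : Γ) (QuotientGroup.mk (1 : Γ)⁻¹ : Γ ⧸ G.H)) (G.sM 1 j') (fun x _ => ncard_all G hC h' 1 x)
  rw [ncard_orbit] at h1
  exact ⟨_, h1⟩

end C2

theorem t_C2 : M_C2 := by
  intro hC d k Γ _ X _ G
  refine ⟨fun j h g => C2.first G hC h g, fun j j' hjj h h' hlt => ?_⟩
  have h1 := C2.first G hC h 1
  have h2 := C2.first G hC h' 1
  obtain ⟨n, hn⟩ := C2.second G hC hjj h'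
  have h0 : G.H.index ≠ 0 := G.idx0
  have hs : 0 < G.sM 1 j' := by
    rcases Nat.eq_zero_or_pos (G.sM 1 j') with e | e
    · rw [e, zero_mul] at h2
      exact absurd h2.symm h0
    · exact e
  have h3 : n * G.cM j = G.cM j' := by
    have e : G.sM 1 j' * (n * G.cM j) = G.sM 1 j' * G.cM j' := by
      rw [h2, ← h1, hn]
      ring
    exact Nat.eq_of_mul_eq_mul_left hs e
  have h4 : 2 ≤ n := by
    by_contra hc
    have h5 : n ≤ 1 := by omega
    have h6 : n * G.cM j ≤ 1 * G.cM j := Nat.mul_le_mul_right _ h5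
    omega
  rw [hn]
  exact Nat.mul_le_mul_right _ h4

end

end FOL
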