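import Pool.Agent.FOL.MStmts

/-!
# Dimensions: section 1.7 of `Pool/Agent/FOL/PAPER.md`
-/

namespace FOL

open Lib_helper64.FO FO2 FOI
open scoped RealInnerProductSpace

noncomputable section

namespace DM

open Classical in
lemma count (a : ℕ → ℕ) (Z : ℕ → Prop) (m n : ℕ) (hmn : m ≤ n)
    (h : ∀ i, m ≤ i → i < n → a i ≤ a (i + 1) ∧ (¬ Z i → a i + 1 ≤ a (i + 1))) :
    (∑ i ∈ Finset.Ico m n, (a (i + 1) - a i - 1)) + a m + (n - m) ≤
      a n + ((Finset.Ico m n).filter Z).card := by
  induction n, hmn using Nat.le_induction with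
  | base => simp
  | succ n hmn ih =>
    have ih := ih fun i h1 h2 => h i h1 (by omega)
    obtain ⟨h1, h2⟩ := h n hmn (by omega)
    rw [Finset.sum_Ico_succ_top hmn, ← Finset.insert_Ico_right_eq_Ico_add_one hmn, Finset.filter_insert]
    by_cases hz : Z n
    · rw [if_pos hz, Finset.card_insert_of_notMem (by simp)]
      omega
    · rw [if_neg hz]
      have := h2 hz
      omega

end DM

open Classical in
theorem t_DM : M_DM := by
  intro hZ hST d k Γ _ X _ G g
  obtain ⟨-, -, -, hz⟩ := hZ d k Γ X G g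
  obtain ⟨hw, hv, -⟩ := hST d k Γ X G g
  have hcard : ∀ m n, n ≤ d → ((Finset.Ico m n).filter (G.Z g)).card ≤ LG G := by
    intro m n hn
    apply hz
    intro i hi
    rw [Finset.mem_filter, Finset.mem_Ico] at hi
    exact ⟨by omega, hi.2⟩
  have hstep : ∀ i, 1 ≤ i → Module.finrank ℝ (G.VV g i) ≤ Module.finrank ℝ (G.VV g (i + 1)) ∧
      (¬ G.Z g i → Module.finrank ℝ (G.VV g i) + 1 ≤ Module.finrank ℝ (G.VV g (i + 1))) := by
    intro i hi
    exact ⟨Submodule.finrank_mono (G.VV_mono g (Nat.le_succ i)),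
      fun h => Submodule.finrank_lt_finrank_of_lt (hv i hi h)⟩
  have htop : Module.finrank ℝ (G.VV g d) = d := by
    rw [G.VV_top (le_refl d), finrank_top]
    simp [E]
  have hW : ∀ i, G.W g i ≤ G.W g (i + 1) := by
    intro i
    rw [AGeo.W, AGeo.W]
    apply Submodule.span_mono
    rintro _ ⟨a, ha, rfl⟩
    exact ⟨a, G.dn_mono (Nat.le_succ i) ha, rfl⟩
  have hWstep : ∀ i, 1 ≤ i → Module.finrank ℝ (G.W g (i - 1)) ≤ Module.finrank ℝ (G.W g i) ∧
      (¬ G.Z g i → Module.finrank ℝ (G.W g (i - 1)) + 1 ≤ Module.finrank ℝ (G.W g i)) := by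
    intro i hi
    obtain ⟨j, rfl⟩ : ∃ j, i = j + 1 := ⟨i - 1, by omega⟩
    rw [Nat.add_sub_cancel]
    refine ⟨Submodule.finrank_mono (hW j), fun h => Submodule.finrank_lt_finrank_of_lt ?_⟩
    refine lt_of_le_of_ne (hW j) fun he => hw (j + 1) hi h ?_
    rw [← he]
    exact G.W_le_VV g j
  refine ⟨?_, ?_, ?_⟩
  · intro i hi hid
    have h1 := DM.count (fun i => Module.finrank ℝ (G.VV g i)) (G.Z g) i d hid
      (fun j hj _ => hstep j (by omega))
    have h2 := DM.count (fun i => Module.finrank ℝ (G.VV g i)) (G.Z g) 1 i hi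
      (fun j hj _ => hstep j hj)
    have h3 := hcard i d le_rfl
    have h4 := hcard 1 i hid
    simp only [htop] at h1
    constructor <;> omega
  · intro i hi
    have h1 := DM.count (fun i => Module.finrank ℝ (G.W g (i - 1))) (G.Z g) 1 (i + 1) (by omega)
      (fun j hj _ => hWstep j hj)
    have h2 := hcard 1 (i + 1) hi
    have h3 : Module.finrank ℝ (G.W g (i + 1 - 1)) = Module.finrank ℝ (G.W g i) := rfl
    omega
  · rcases Nat.eq_zero_or_pos d with hd | hd
    · rw [Finset.Ico_eq_empty (by omega)]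
      simp
    · have h1 := DM.count (fun i => Module.finrank ℝ (G.VV g i)) (G.Z g) 1 d hd
        (fun j hj _ => hstep j hj)
      have h2 := hcard 1 d le_rfl
      simp only [htop] at h1
      omega

end

end FOL
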