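import Pool.Agent.FOL.NStmts

/-!
# 7.1: the root system in `Y_{j1}`
-/

namespace FOL

open Lib_helper64.FO FO2 FOK FOI
open scoped RealInnerProductSpace Nat

noncomputable section

namespace E0

variable {d k : ℕ} {Γ : Type} [Group Γ] {X : Type} [MulAction Γ X] (G : AGeo d k Γ X)

theorem inv_of_mul {h h' : E d ≃ₗᵢ[ℝ] E d} (e : ∀ v, h (h' v) = v) : h⁻¹ = h' := by
  rw [inv_eq_iff_mul_eq_one]
  ext1 v
  exact e v

theorem closure_pres {A : Set (E d ≃ₗᵢ[ℝ] E d)} {M : Set (E d)}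
    (h1 : ∀ h ∈ A, ∀ x ∈ M, h x ∈ M) (h2 : ∀ h ∈ A, ∀ x ∈ M, h⁻¹ x ∈ M) :
    ∀ h ∈ Subgroup.closure A, ∀ x ∈ M, h x ∈ M := by
  intro h hh
  have key : (∀ x ∈ M, h x ∈ M) ∧ (∀ x ∈ M, h⁻¹ x ∈ M) := by
    refine Subgroup.closure_induction
      (p := fun h _ => (∀ x ∈ M, h x ∈ M) ∧ (∀ x ∈ M, h⁻¹ x ∈ M)) ?_ ?_ ?_ ?_ hh
    · intro h hh
      exact ⟨h1 h hh, h2 h hh⟩
    · refine ⟨fun x hx => hx, fun x hx => ?_⟩
      rw [inv_one]
      exact hx
    · rintro a b - - ⟨ha, ha'⟩ ⟨hb, hb'⟩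
      refine ⟨fun x hx => ha _ (hb x hx), fun x hx => ?_⟩
      rw [mul_inv_rev]
      exact hb' _ (ha' x hx)
    · rintro a - ⟨ha, ha'⟩
      refine ⟨ha', ?_⟩
      rw [inv_inv]
      exact ha
  exact key.1

theorem GG_pres {j1 : ℕ} {g : Γ} {M : Set (E d)}
    (h1 : ∀ n ∈ G.Ni j1, ∀ x ∈ M, G.R g n x ∈ M)
    (h3 : ∀ x ∈ M, -x ∈ M) : ∀ h ∈ GG G j1 g, ∀ x ∈ M, h x ∈ M := by
  apply closure_pres
  · rintro h (⟨n, hn, rfl⟩ | hh) x hx
    · exact h1 n hn x hx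
    · rw [Set.mem_singleton_iff] at hh
      subst hh
      exact h3 x hx
  · rintro h (⟨n, hn, rfl⟩ | hh) x hx
    · rw [← G.R_inv g hn.1]
      exact h1 _ (inv_mem hn) x hx
    · rw [Set.mem_singleton_iff] at hh
      subst hh
      have e : (LinearIsometryEquiv.neg ℝ : E d ≃ₗᵢ[ℝ] E d)⁻¹ = LinearIsometryEquiv.neg ℝ :=
        inv_of_mul (fun v => by simp)
      rw [e]
      exact h3 x hx

theorem R_mem_GG {j1 : ℕ} {g n : Γ} (hn : n ∈ G.Ni j1) : G.R g n ∈ GG G j1 g :=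
  Subgroup.subset_closure (Or.inl ⟨n, hn, rfl⟩)

theorem neg_mem_GG {j1 : ℕ} {g : Γ} :
    (LinearIsometryEquiv.neg ℝ : E d ≃ₗᵢ[ℝ] E d) ∈ GG G j1 g :=
  Subgroup.subset_closure (Or.inr rfl)

/-- an isometry which is `1` on `V_i` preserves `U_i` -/
theorem mem_U_of_fix {g : Γ} {i : ℕ} {κ : E d ≃ₗᵢ[ℝ] E d} (h : ∀ v ∈ G.V g i, κ v = v) {w : E d}
    (hw : w ∈ G.U g i) : κ w ∈ G.U g i := by
  rw [AGeo.U, Submodule.mem_orthogonal] at hw ⊢
  intro v hv
  have h1 := h v hv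
  rw [← h1, LinearIsometryEquiv.inner_map_map]
  exact hw v hv

/-- the group preserves `Y_{j1}` -/
theorem pres (j1 : ℕ) (g : Γ) :
    ∀ h ∈ GG G j1 g, ∀ w ∈ G.Y g j1, h w ∈ G.Y g j1 := by
  apply GG_pres G (M := (G.Y g j1 : Set (E d)))
  · intro n hn x hx
    exact G.R_mem_Y hn hx
  · intro x hx
    exact neg_mem hx

/-- the finite orbits -/
theorem fin_orbit {j1 : ℕ} (hj1 : 1 ≤ j1) (g : Γ) (a : E d) :
    {b : E d | ∃ h ∈ GG G j1 g, h a = b}.Finite := by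
  have hX : Finite (G.up j1) := G.finite_up hj1
  have hM : {w : E d | ∃ n ∈ G.Ni j1, G.R g n a = w ∨ -G.R g n a = w}.Finite := by
    have h1 : (Set.range (fun γ : G.up j1 => G.R g γ.1 a)).Finite := Set.finite_range _
    have h2 : (Set.range (fun γ : G.up j1 => -G.R g γ.1 a)).Finite := Set.finite_range _
    apply (h1.union h2).subset
    rintro w ⟨γ, hγ, (h | h)⟩
    · exact Or.inl ⟨⟨γ, hγ.2⟩, h⟩
    · exact Or.inr ⟨⟨γ, hγ.2⟩, h⟩
  have hp : ∀ h ∈ GG G j1 g,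
      ∀ x ∈ {w : E d | ∃ n ∈ G.Ni j1, G.R g n a = w ∨ -G.R g n a = w},
      h x ∈ {w : E d | ∃ n ∈ G.Ni j1, G.R g n a = w ∨ -G.R g n a = w} := by
    apply GG_pres G
    · rintro n hn x ⟨γ, hγ, (rfl | rfl)⟩
      · exact ⟨n * γ, mul_mem hn hγ, Or.inl (G.R_mul_apply g hn.1 hγ.1 a)⟩
      · refine ⟨n * γ, mul_mem hn hγ, Or.inr ?_⟩
        rw [map_neg, G.R_mul_apply g hn.1 hγ.1 a]
    · rintro x ⟨γ, hγ, (rfl | rfl)⟩
      · exact ⟨γ, hγ, Or.inr rfl⟩
      · exact ⟨γ, hγ, Or.inl (neg_neg _).symm⟩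
  apply hM.subset
  rintro b ⟨h, hh, rfl⟩
  refine hp h hh a ⟨1, one_mem _, Or.inl ?_⟩
  rw [G.R_one]
  rfl

/-- the plane -/
theorem plane {u q : ℕ} (hPL : S_PL) (hw : Win G u q) (g : Γ) {i : ℕ} (h1 : u ≤ i)
    (h2 : i < q) {w : E d} (hV : w ∈ G.V g (i + 2)) (hU : w ∈ G.U g i) :
    w ∈ G.D g i ⊔ G.D g (i + 1) := by
  have h3 := (hPL d k Γ X G u q hw g).2.2 i (i + 2) h1 (by omega) (by omega)
  have h4 : (⨆ m ∈ Finset.Ico i (i + 2), G.D g m) ≤ G.D g i ⊔ G.D g (i + 1) := by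
    apply iSup₂_le
    intro m hm
    rw [Finset.mem_Ico] at hm
    have : m = i ∨ m = i + 1 := by omega
    rcases this with rfl | rfl
    · exact le_sup_left
    · exact le_sup_right
  rw [h3, Submodule.mem_sup] at hV
  obtain ⟨v, hv, p, hp, rfl⟩ := hV
  have hp' := h4 hp
  have hpU : p ∈ G.U g i := by
    have h5 : G.D g i ⊔ G.D g (i + 1) ≤ G.U g i :=
      sup_le (G.D_le_U g i) ((G.D_le_U g (i + 1)).trans (G.U_anti g (by omega)))
    exact h5 hp'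
  have hvU : v ∈ G.U g i := by
    have := sub_mem hU hpU
    rwa [add_sub_cancel_right] at this
  have hv0 : v = 0 := by
    rw [AGeo.U, Submodule.mem_orthogonal] at hvU
    have := hvU v hv
    exact inner_self_eq_zero.1 this
  rw [hv0, zero_add]
  exact hp'

/-- the reflection: `κ` is a linear isometric involution with `κ e ≠ ± e` -/
theorem refl_span {κ : E d ≃ₗᵢ[ℝ] E d} {ε : ℝ} (hε : ε = 1 ∨ ε = -1) (hκ : ∀ v, κ (κ v) = v)
    {e : E d} (he : ‖e‖ = 1) (h1 : κ e ≠ ε • e) :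
    ∃ c : ℝ, ‖c • (e - ε • κ e)‖ = 1 ∧ c ≠ 0 ∧ ⟪e, c • (e - ε • κ e)⟫ ≠ (0 : ℝ) ∧
      (sref (c • (e - ε • κ e)) e = ε • κ e) ∧
      sref (c • (e - ε • κ e)) (κ e) = ε • κ (κ e) := by
  have hεε : ε * ε = 1 := by rcases hε with rfl | rfl <;> norm_num
  have hne : e - ε • κ e ≠ 0 := by
    intro h
    apply h1
    have h2 : e = ε • κ e := sub_eq_zero.1 h
    have h3 : ε • e = ε • ε • κ e := by rw [← h2]
    rw [smul_smul, hεε, one_smul] at h3
    exact h3.symm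
  have hn : ‖e - ε • κ e‖ ≠ 0 := norm_ne_zero_iff.2 hne
  set t : ℝ := ⟪e, κ e⟫ with ht
  have hee : ⟪e, e⟫ = (1 : ℝ) := by rw [real_inner_self_eq_norm_sq, he]; norm_num
  have hkk : ⟪κ e, κ e⟫ = (1 : ℝ) := by rw [LinearIsometryEquiv.inner_map_map]; exact hee
  have hke : ⟪κ e, e⟫ = t := by rw [real_inner_comm]
  have hn2 : ‖e - ε • κ e‖ ^ 2 = 2 * (1 - ε * t) := by
    rw [← real_inner_self_eq_norm_sq]
    simp only [inner_sub_left, inner_sub_right, inner_smul_left, inner_smul_right, hee, hkk, hke,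
      ← ht]
    simp only [conj_trivial]
    linear_combination hεε
  set N : ℝ := ‖e - ε • κ e‖ with hN
  have hN2 : N ^ 2 ≠ 0 := pow_ne_zero 2 hn
  have hNpos : 0 < N := lt_of_le_of_ne (norm_nonneg _) (Ne.symm hn)
  have hinv : N⁻¹ * N⁻¹ * (2 * (1 - ε * t)) = 1 := by
    rw [← hn2]
    field_simp
  have i1 : ⟪e - ε • κ e, e⟫ = 1 - ε * t := by
    simp only [inner_sub_left, inner_smul_left, hee, hke, conj_trivial]
  have i2 : ⟪e - ε • κ e, κ e⟫ = t - ε := by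
    simp only [inner_sub_left, inner_smul_left, hkk, ← ht, conj_trivial, mul_one]
  refine ⟨N⁻¹, ?_, inv_ne_zero hn, ?_, ?_, ?_⟩
  · rw [norm_smul, norm_inv, Real.norm_of_nonneg hNpos.le, ← hN, inv_mul_cancel₀ hn]
  · rw [inner_smul_right, real_inner_comm, i1]
    intro h
    have : (1 : ℝ) = 0 := by
      rw [← hinv]
      linear_combination (2 * N⁻¹) * h
    exact one_ne_zero this
  · rw [sref, inner_smul_left, conj_trivial, i1, smul_smul]
    have e1 : 2 * (N⁻¹ * (1 - ε * t)) * N⁻¹ = 1 := by linear_combination hinv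
    rw [e1, one_smul]
    abel
  · rw [sref, inner_smul_left, conj_trivial, i2, smul_smul, hκ]
    have e1 : 2 * (N⁻¹ * (t - ε)) * N⁻¹ = -ε := by
      linear_combination (-ε) * hinv + (2 * N⁻¹ * N⁻¹ * t) * (-hεε)
    rw [e1, smul_sub, smul_smul]
    have e2 : -ε * ε = -1 := by linear_combination -hεε
    rw [e2, neg_smul, neg_smul, one_smul]
    abel

end E0

open E0

theorem t_E0 : M_E0 := by
  intro hSY hPL _ d k Γ _ X _ G u q j1 j2 hS g
  have hj := hS.hj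
  have hjq := hS.hjq
  have huj := hS.huj
  have hj1 : 1 ≤ j1 := hS.win.hu.trans hS.huj
  obtain ⟨ε, hK⟩ := hS.kap g j1 le_rfl (by omega)
  have hρ : G.ρ j1 ∈ G.Ni j1 := ⟨hS.rho j1 le_rfl (by omega), G.ρ_mem_up le_rfl⟩
  set κ : E d ≃ₗᵢ[ℝ] E d := G.R g (G.ρ j1) with hκdef
  have hκG : κ ∈ GG G j1 g := R_mem_GG G hρ
  have hεε : ε * ε = 1 := by rcases hK.sgn with h | h <;> rw [h] <;> norm_num
  -- a unit vector of `D_{j1}`
  have hl1 := hS.win.line g j1 huj (by omega)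
  have hl2 := hS.win.line g (j1 + 1) (by omega) (by omega)
  obtain ⟨e, heD, hen⟩ : ∃ e ∈ G.D g j1, ‖e‖ = 1 := by
    have : G.D g j1 ≠ ⊥ := by
      intro h
      rw [h, finrank_bot] at hl1
      exact zero_ne_one hl1
    obtain ⟨e0, h1, h2⟩ := Submodule.exists_mem_ne_zero_of_ne_bot this
    refine ⟨‖e0‖⁻¹ • e0, Submodule.smul_mem _ _ h1, ?_⟩
    rw [norm_smul, norm_inv, norm_norm, inv_mul_cancel₀ (norm_ne_zero_iff.2 h2)]
  have hene : e ≠ 0 := by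
    intro h
    rw [h, norm_zero] at hen
    exact zero_ne_one hen
  have hmoves : κ e ∉ G.D g j1 := hK.moves e heD hene
  have hne : κ e ≠ ε • e := by
    intro h
    apply hmoves
    rw [h]
    exact Submodule.smul_mem _ _ heD
  obtain ⟨c, hc1, hc0, hcne, hr1, hr2⟩ := refl_span hK.sgn hK.inv hen hne
  set a : E d := c • (e - ε • κ e) with ha
  -- membership in the plane
  have hP : ∀ w, w ∈ G.V g (j1 + 2) → w ∈ G.U g j1 → w ∈ G.D g j1 ⊔ G.D g (j1 + 1) :=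
    fun w h1 h2 => plane G hPL hS.win g huj (by omega) h1 h2
  have heU : e ∈ G.U g j1 := G.D_le_U g j1 heD
  have heV : e ∈ G.V g (j1 + 2) := G.V_mono g (by omega) (G.D_le_V g j1 heD)
  have hκeU : κ e ∈ G.U g j1 := mem_U_of_fix G hK.fix heU
  have hκeV : κ e ∈ G.V g (j1 + 2) := hK.pres e heV
  have haV : a ∈ G.V g (j1 + 2) :=
    Submodule.smul_mem _ _ (sub_mem heV (Submodule.smul_mem _ _ hκeV))
  have haU : a ∈ G.U g j1 :=
    Submodule.smul_mem _ _ (sub_mem heU (Submodule.smul_mem _ _ hκeU))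
  have haP := hP a haV haU
  have hPle : G.D g j1 ⊔ G.D g (j1 + 1) ≤ G.Y g j1 :=
    sup_le (hS.D g j1 le_rfl (by omega) j1 le_rfl (by omega))
      (hS.D g j1 le_rfl (by omega) (j1 + 1) (by omega) (by omega))
  have haY : a ∈ G.Y g j1 := hPle haP
  have han1 : a ∉ G.D g j1 := by
    intro h
    apply hmoves
    have h1 : c⁻¹ • a ∈ G.D g j1 := Submodule.smul_mem _ _ h
    rw [ha, smul_smul, inv_mul_cancel₀ hc0, one_smul] at h1
    have h2 : ε • (e - (e - ε • κ e)) ∈ G.D g j1 := Submodule.smul_mem _ _ (sub_mem heD h1)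
    rw [sub_sub_cancel, smul_smul, hεε, one_smul] at h2
    exact h2
  have hperp := ((hPL d k Γ X G u q hS.win g).2.1 j1 (j1 + 1) huj (by omega) (by omega)).1
  have han2 : a ∉ G.D g (j1 + 1) := by
    intro h
    apply hcne
    have h1 := hperp heD
    rw [Submodule.mem_orthogonal] at h1
    have h2 := h1 a h
    rw [real_inner_comm]
    exact h2
  -- the vectors `e` and `κ e` span the plane
  have hspan : ∀ w ∈ G.D g j1 ⊔ G.D g (j1 + 1), ∃ x y : ℝ, w = x • e + y • κ e := by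
    obtain ⟨e', he'⟩ := finrank_eq_one_iff'.1 hl2
    have hD2 : ∀ w ∈ G.D g (j1 + 1), ∃ y : ℝ, w = y • (e' : E d) := by
      intro w hw
      obtain ⟨y, hy⟩ := he'.2 ⟨w, hw⟩
      exact ⟨y, (congrArg Subtype.val hy).symm⟩
    obtain ⟨e1, he1⟩ := finrank_eq_one_iff'.1 hl1
    have hD1 : ∀ w ∈ G.D g j1, ∃ x : ℝ, w = x • e := by
      intro w hw
      obtain ⟨y, hy⟩ := he1.2 ⟨w, hw⟩
      obtain ⟨z, hz⟩ := he1.2 ⟨e, heD⟩
      have hy' : y • (e1 : E d) = w := congrArg Subtype.val hy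
      have hz' : z • (e1 : E d) = e := congrArg Subtype.val hz
      have hz0 : z ≠ 0 := by
        intro h
        rw [h, zero_smul] at hz'
        exact hene hz'.symm
      refine ⟨y * z⁻¹, ?_⟩
      rw [← hz', smul_smul, mul_assoc, inv_mul_cancel₀ hz0, mul_one, hy']
    have hκP := hP (κ e) hκeV hκeU
    rw [Submodule.mem_sup] at hκP
    obtain ⟨p1, hp1, p2, hp2, hp⟩ := hκP
    obtain ⟨α, rfl⟩ := hD1 p1 hp1
    obtain ⟨β, rfl⟩ := hD2 p2 hp2
    have hβ : β ≠ 0 := by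
      intro h
      apply hmoves
      rw [← hp, h, zero_smul, add_zero]
      exact hp1
    intro w hw
    rw [Submodule.mem_sup] at hw
    obtain ⟨w1, hw1, w2, hw2, rfl⟩ := hw
    obtain ⟨x, rfl⟩ := hD1 w1 hw1
    obtain ⟨y, rfl⟩ := hD2 w2 hw2
    refine ⟨x - y * β⁻¹ * α, y * β⁻¹, ?_⟩
    rw [← hp]
    have e3 : y * β⁻¹ * β = y := by field_simp
    rw [smul_add, smul_smul (y * β⁻¹) α, smul_smul (y * β⁻¹) β, e3, sub_smul]
    abel
  -- `ε κ` is the reflection on `Y`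
  have hrefl : ∀ w ∈ G.Y g j1, sref a w = ε • κ w := by
    intro w hw
    have hwU : w ∈ G.U g j1 := G.Y_le_U g j1 hw
    obtain ⟨v, hv, r, hr, rfl⟩ : ∃ v ∈ G.V g (j1 + 2), ∃ r ∈ G.U g (j1 + 2), v + r = w := by
      have h1 : G.V g (j1 + 2) ⊔ (G.V g (j1 + 2))ᗮ = ⊤ := Submodule.sup_orthogonal_of_hasOrthogonalProjection
      have h2 : w ∈ G.V g (j1 + 2) ⊔ (G.V g (j1 + 2))ᗮ := by rw [h1]; trivial
      rw [Submodule.mem_sup] at h2
      exact h2
    have hvU : v ∈ G.U g j1 := by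
      have := sub_mem hwU (G.U_anti g (show j1 ≤ j1 + 2 by omega) hr)
      rwa [add_sub_cancel_right] at this
    obtain ⟨x, y, hxy⟩ := hspan v (hP v hv hvU)
    have har : ⟪a, r⟫ = (0 : ℝ) := by
      have hr' := hr
      rw [AGeo.U, Submodule.mem_orthogonal] at hr'
      exact hr' a haV
    have h3 : sref a r = r := by
      rw [sref, har, mul_zero, zero_smul, sub_zero]
    rw [sref_add, h3, hxy, sref_add, sref_smul a e x, sref_smul a (κ e) y, hr1, hr2, map_add, map_add,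
      map_smul κ x, map_smul κ y, hK.scal r hr, smul_add, smul_add, smul_smul ε ε, hεε, one_smul,
      smul_comm ε x, smul_comm ε y]
  -- the root system
  have hpr := pres G j1 g
  refine ⟨a, {b | ∃ h ∈ GG G j1 g, h a = b}, hc1, ⟨1, one_mem _, rfl⟩, haP, han1, han2, ?_, ?_⟩
  · apply Subgroup.closure_mono
    rintro h ⟨n, hn, rfl⟩
    exact Or.inl ⟨n, G.Ni_anti (by omega) hn, rfl⟩
  · refine ⟨hpr, ?_, ?_, ?_, ?_, ?_⟩
    · intro B hB hinv
      exact (hSY d k Γ X G u q hS.win g j1 huj (by omega)).1 B hB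
        fun n hn w hw => hinv _ (R_mem_GG G hn) w hw
    · refine ⟨fin_orbit G hj1 g a, ⟨a, 1, one_mem _, rfl⟩, ?_, ?_⟩
      · rintro b ⟨h, hh, rfl⟩
        rw [LinearIsometryEquiv.norm_map]
        exact hc1
      · rintro b ⟨h, hh, rfl⟩ c' ⟨h', hh', rfl⟩
        have e1 : h' a = h (h⁻¹ (h' a)) := by
          change h' a = (h * h⁻¹) (h' a)
          rw [mul_inv_cancel]
          rfl
        have hmem : h⁻¹ (h' a) ∈ G.Y g j1 := hpr _ (inv_mem hh) _ (hpr _ hh' _ haY)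
        rw [e1, ← map_sref, hrefl _ hmem]
        rcases hK.sgn with h1 | h1
        · rw [h1, one_smul]
          exact ⟨h * κ * h⁻¹ * h', mul_mem (mul_mem (mul_mem hh hκG) (inv_mem hh)) hh', rfl⟩
        · rw [h1, neg_one_smul]
          refine ⟨LinearIsometryEquiv.neg ℝ * (h * κ * h⁻¹ * h'),
            mul_mem (neg_mem_GG G) (mul_mem (mul_mem (mul_mem hh hκG) (inv_mem hh)) hh'), ?_⟩
          rw [map_neg]
          rfl
    · rintro b ⟨h, hh, rfl⟩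
      exact hpr h hh a haY
    · rintro h hh b ⟨h', hh', rfl⟩
      exact ⟨h * h', mul_mem hh hh', rfl⟩
    · rintro b ⟨h, hh, rfl⟩ c' ⟨h', hh', rfl⟩
      refine ⟨h' * h⁻¹, mul_mem hh' (inv_mem hh), Or.inl ?_⟩
      change h' ((h⁻¹ * h) a) = h' a
      rw [inv_mul_cancel]
      rfl

end

end FOL
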