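import Pool.Agent.FOL.MStmts

/-!
# Module E1: if `E_(j+1) = E_j` then `E_j` is trivial (section 5.3)
-/

namespace FOL

open Lib_helper64.FO FO2 FOI
open scoped RealInnerProductSpace

noncomputable section

namespace E1

/-- families of vectors (finite or infinite) with the same inner products are related by an
isometry -/
theorem exists_iso {d : ℕ} {ι : Type*} (u w : ι → E d) (h : ∀ i j, ⟪u i, u j⟫ = ⟪w i, w j⟫) :
    ∃ T : E d ≃ₗᵢ[ℝ] E d, ∀ i, T (u i) = w i := by
  classical
  let U : (ι →₀ ℝ) →ₗ[ℝ] E d := Finsupp.linearCombination ℝ u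
  let W : (ι →₀ ℝ) →ₗ[ℝ] E d := Finsupp.linearCombination ℝ w
  have hin : ∀ c, ⟪U c, U c⟫ = ⟪W c, W c⟫ := by
    intro c
    change ⟪Finsupp.linearCombination ℝ u c, Finsupp.linearCombination ℝ u c⟫ =
      ⟪Finsupp.linearCombination ℝ w c, Finsupp.linearCombination ℝ w c⟫
    simp only [Finsupp.linearCombination_apply, Finsupp.sum, sum_inner, inner_sum,
      inner_smul_left, inner_smul_right, h]
  have hnorm : ∀ c, ‖U c‖ = ‖W c‖ := by
    intro c
    have := hin c
    rw [real_inner_self_eq_norm_sq, real_inner_self_eq_norm_sq] at this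
    exact (pow_left_inj₀ (norm_nonneg _) (norm_nonneg _) two_ne_zero).1 this
  have hker : LinearMap.ker U ≤ LinearMap.ker W := by
    intro c hc
    rw [LinearMap.mem_ker] at hc ⊢
    rw [← norm_eq_zero, ← hnorm, hc, norm_zero]
  let L : LinearMap.range U →ₗ[ℝ] E d :=
    ((LinearMap.ker U).liftQ W hker) ∘ₗ (U.quotKerEquivRange.symm : LinearMap.range U →ₗ[ℝ] _)
  have hL : ∀ c, L ⟨U c, LinearMap.mem_range_self U c⟩ = W c := by
    intro c
    change ((LinearMap.ker U).liftQ W hker) (U.quotKerEquivRange.symm ⟨U c, _⟩) = W c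
    have : U.quotKerEquivRange.symm ⟨U c, LinearMap.mem_range_self U c⟩ =
        Submodule.Quotient.mk c := by
      rw [LinearEquiv.symm_apply_eq]
      rfl
    rw [this]
    rfl
  let LI : LinearMap.range U →ₗᵢ[ℝ] E d :=
    { toLinearMap := L
      norm_map' := by
        rintro ⟨_, ⟨c, rfl⟩⟩
        rw [hL c]
        exact (hnorm c).symm }
  let T := LI.extend.toLinearIsometryEquiv rfl
  refine ⟨T, fun i => ?_⟩
  have e1 : U (Finsupp.single i 1) = u i := by
    change Finsupp.linearCombination ℝ u (Finsupp.single i 1) = u i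
    rw [Finsupp.linearCombination_single, one_smul]
  have e2 : W (Finsupp.single i 1) = w i := by
    change Finsupp.linearCombination ℝ w (Finsupp.single i 1) = w i
    rw [Finsupp.linearCombination_single, one_smul]
  have e3 : T (U (Finsupp.single i 1)) =
      LI ⟨U (Finsupp.single i 1), LinearMap.mem_range_self U _⟩ := by
    change LI.extend _ = _
    exact LinearIsometry.extend_apply LI ⟨U (Finsupp.single i 1), LinearMap.mem_range_self U _⟩
  rw [← e1, e3]
  change L _ = w i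
  rw [hL, e2]

variable {d k : ℕ} {Γ : Type} [Group Γ] {X : Type} [MulAction Γ X] (G : AGeo d k Γ X)

/-- the isometry from `E_j(g, g')` -/
theorem iso_of_EqJ {q j : ℕ} {g g' : Γ} (h : EqJ G q j g g') :
    ∃ κ : E d ≃ₗᵢ[ℝ] E d, ∀ y ∈ G.XX q j, κ (G.F g y) = G.F g' y := by
  obtain ⟨κ, hκ⟩ := exists_iso (fun y : G.XX q j => G.F g y.1) (fun y => G.F g' y.1)
    (fun y z => h y.1 y.2 z.1 z.2)
  exact ⟨κ, fun y hy => hκ ⟨y, hy⟩⟩

/-- induction on the elements of `Γ`, with generators on the right -/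
theorem gen_induction {p : Γ → Prop} (h1 : p 1) (h2 : ∀ γ i, p γ → p (γ * G.ρ i)) (γ : Γ) :
    p γ := by
  have hγ : γ ∈ Subgroup.closure (G.ρ '' Set.univ) := by
    have h := G.gen
    rw [gpar] at h
    rw [h]
    trivial
  refine Subgroup.closure_induction_right (p := fun x _ => p x) h1 ?_ ?_ hγ
  · rintro x _ _ ⟨i, -, rfl⟩ hx
    exact h2 x i hx
  · rintro x _ _ ⟨i, -, rfl⟩ hx
    rw [G.inv_ρ]
    exact h2 x i hx

end E1

theorem t_E1 : M_E1 := by
  intro hSW d k Γ _ X _ G u q hW j hj1 hj2 hE g g' hgg'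
  have hq1 : 1 ≤ q := by omega
  have hS : ∀ a, G.S q a (j + 1) = G.WW := fun a =>
    (hSW d k Γ X G u q hW a (j + 1) (by omega) (by omega)).1
  obtain ⟨κ, hκ⟩ := E1.iso_of_EqJ G hgg'
  -- one step
  have step : ∀ (a a' : Γ) (i : ℕ), (∀ y ∈ G.XX q j, κ (G.F a y) = G.F a' y) →
      ∀ y ∈ G.XX q j, κ (G.F (a * G.ρ i) y) = G.F (a' * G.ρ i) y := by
    intro a a' i h
    by_cases hi : i + 1 = j
    · have h1 : ∀ y ∈ G.XX q (j + 1), κ (G.F (a * G.ρ i) y) = G.F (a' * G.ρ i) y := by
        intro y hy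
        rw [G.F_mul0, G.F_mul0, map_sub,
          h _ (G.XX_anti q (Nat.le_succ j) (G.ρ_smul_mem_XX (by omega) (by omega) hy)),
          h _ (G.ρ_x0_mem_XX i hq1)]
      have h2 : EqJ G q (j + 1) (a * G.ρ i) (a' * G.ρ i) := by
        intro y hy z hz
        rw [← h1 y hy, ← h1 z hz, LinearIsometryEquiv.inner_map_map]
      obtain ⟨κ', hκ'⟩ := E1.iso_of_EqJ G (hE _ _ h2)
      have h4 : ∀ w ∈ G.WW, κ w = κ' w := by
        intro w hw
        rw [← hS (a * G.ρ i), AGeo.S] at hw
        induction hw using Submodule.span_induction with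
        | mem x hx =>
          obtain ⟨y, hy, rfl⟩ := hx
          rw [h1 y hy, hκ' y (G.XX_anti q (Nat.le_succ j) hy)]
        | zero => rw [map_zero, map_zero]
        | add x y _ _ hx hy => rw [map_add, map_add, hx, hy]
        | smul c x _ hx => rw [map_smul, map_smul, hx]
      intro y hy
      rw [h4 _ (G.F_mem_WW _ y)]
      exact hκ' y hy
    · intro y hy
      rw [G.F_mul0, G.F_mul0, map_sub, h _ (G.ρ_smul_mem_XX hi (by omega) hy),
        h _ (G.ρ_x0_mem_XX i hq1)]
  have key : ∀ γ : Γ, ∀ y ∈ G.XX q j, κ (G.F (g * γ) y) = G.F (g' * γ) y := by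
    intro γ
    refine E1.gen_induction G (p := fun γ => ∀ y ∈ G.XX q j, κ (G.F (g * γ) y) =
      G.F (g' * γ) y) ?_ ?_ γ
    · rw [mul_one, mul_one]
      exact hκ
    · intro γ i h
      rw [← mul_assoc, ← mul_assoc]
      exact step _ _ i h
  have all : ∀ γ : Γ, κ (G.F g (γ • G.x0)) = G.F g' (γ • G.x0) := by
    intro γ
    refine E1.gen_induction G (p := fun γ => κ (G.F g (γ • G.x0)) = G.F g' (γ • G.x0)) ?_ ?_ γ
    · rw [one_smul, G.F_x0, G.F_x0, map_zero]
    · intro γ i h
      have h1 := key γ _ (G.ρ_x0_mem_XX (j := j) i hq1)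
      rw [G.F_mul0, G.F_mul0, map_sub, h] at h1
      rw [mul_smul]
      exact sub_left_injective h1
  have all' : ∀ x : X, κ (G.F g x) = G.F g' x := by
    intro x
    obtain ⟨γ, rfl⟩ := G.trans x
    exact all γ
  by_contra hcon
  apply G.noiso _ hcon
  refine ⟨κ, fun x y => ?_⟩
  have hx := all' (g⁻¹ • x)
  have hy := all' (g⁻¹ • y)
  rw [AGeo.F, AGeo.F, smul_inv_smul, ← mul_smul] at hx hy
  have e : G.f x - G.f y = (G.f x - G.f (g • G.x0)) - (G.f y - G.f (g • G.x0)) := by abel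
  rw [e, map_sub, hx, hy]
  abel

end

end FOL
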