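import Pool.Agent.FOL.MStmts

/-!
# Module E2: the relation `E_j` is trivial (sections 5.1, 5.2, 5.4 of `Pool/Agent/FOL/PAPER.md`)
-/

set_option autoImplicit false

namespace FOL

open Lib_helper64.FO FO2 FOI
open scoped RealInnerProductSpace

noncomputable section

namespace E2

variable {d k : ℕ} {Γ : Type} [Group Γ] {X : Type} [MulAction Γ X] (G : AGeo d k Γ X)

theorem eqJ_refl (q j : ℕ) (g : Γ) : EqJ G q j g g := fun _ _ _ _ => rfl

variable {G}

theorem eqJ_symm {q j : ℕ} {g g' : Γ} (h : EqJ G q j g g') : EqJ G q j g' g :=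
  fun y hy z hz => (h y hy z hz).symm

theorem eqJ_trans {q j : ℕ} {g g' g'' : Γ} (h : EqJ G q j g g') (h' : EqJ G q j g' g'') :
    EqJ G q j g g'' := fun y hy z hz => (h y hy z hz).trans (h' y hy z hz)

theorem eqJ_left {q j : ℕ} {h : Γ} (hh : h ∈ G.H) (g : Γ) : EqJ G q j g (h * g) := by
  intro y _ z _
  rw [G.F_left hh, G.F_left hh, LinearIsometryEquiv.inner_map_map]

/-- `E_j ⊂ E_i` for `j ≤ i` -/
theorem eqJ_mono {q j i : ℕ} (hji : j ≤ i) {g g' : Γ} (h : EqJ G q j g g') : EqJ G q i g g' :=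
  fun y hy z hz => h y (G.XX_anti q hji hy) z (G.XX_anti q hji hz)

theorem eqJ_ρ {q j i : ℕ} (hi : i + 1 ≠ j) (hj : j ≤ q) (hq : 1 ≤ q) {g g' : Γ}
    (h : EqJ G q j g g') : EqJ G q j (g * G.ρ i) (g' * G.ρ i) := by
  intro y hy z hz
  have hx := G.ρ_x0_mem_XX (q := q) (j := j) i hq
  have hy' := G.ρ_smul_mem_XX hi hj hy
  have hz' := G.ρ_smul_mem_XX hi hj hz
  rw [G.F_mul0, G.F_mul0, G.F_mul0, G.F_mul0]
  simp only [inner_sub_left, inner_sub_right]
  rw [h _ hy' _ hz', h _ hy' _ hx, h _ hx _ hz', h _ hx _ hx]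

/-- a coset is in the class of the frame `g` -/
def P (G : AGeo d k Γ X) (q j : ℕ) (g : Γ) (x : Γ ⧸ G.H) : Prop := EqJ G q j g x.out⁻¹

theorem P_iff {q j : ℕ} {g t : Γ} : P G q j g (t : Γ ⧸ G.H) ↔ EqJ G q j g t⁻¹ := by
  have h1 : ((t : Γ ⧸ G.H).out : Γ ⧸ G.H) = (t : Γ ⧸ G.H) := Quotient.out_eq' _
  rw [QuotientGroup.eq] at h1
  have h2 : (t : Γ ⧸ G.H).out⁻¹ = ((t : Γ ⧸ G.H).out⁻¹ * t) * t⁻¹ := by group
  have h3 : EqJ G q j t⁻¹ ((t : Γ ⧸ G.H).out⁻¹) := by
    rw [h2]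
    exact eqJ_left h1 _
  exact ⟨fun h => eqJ_trans h (eqJ_symm h3), fun h => eqJ_trans h h3⟩

/-- the number of cosets in the class of the frame `g` -/
def ej (G : AGeo d k Γ X) (q j : ℕ) (g : Γ) : ℕ := Nat.card {x : Γ ⧸ G.H // P G q j g x}

theorem ej_congr {q j : ℕ} {g g' : Γ} (h : EqJ G q j g g') : ej G q j g = ej G q j g' := by
  have e : ∀ x : Γ ⧸ G.H, P G q j g x ↔ P G q j g' x := fun x =>
    ⟨fun h1 => eqJ_trans (eqJ_symm h) h1, fun h1 => eqJ_trans h h1⟩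
  exact Nat.card_congr (Equiv.subtypeEquivRight e)

theorem P_ρ {q j i : ℕ} (hi : i + 1 ≠ j) (hj : j ≤ q) (hq : 1 ≤ q) {g : Γ} (x : Γ ⧸ G.H) :
    P G q j (g * G.ρ i) x ↔ P G q j g (G.ρ i • x) := by
  induction x using QuotientGroup.induction_on with
  | H t =>
    have e1 : G.ρ i • (t : Γ ⧸ G.H) = ((G.ρ i * t : Γ) : Γ ⧸ G.H) := rfl
    rw [e1, P_iff, P_iff, mul_inv_rev, G.inv_ρ]
    constructor
    · intro h
      have := eqJ_ρ hi hj hq h
      rwa [mul_assoc, G.sq, mul_one] at this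
    · intro h
      have := eqJ_ρ hi hj hq h
      rwa [mul_assoc t⁻¹, G.sq, mul_one] at this

theorem ej_ρ {q j i : ℕ} (hi : i + 1 ≠ j) (hj : j ≤ q) (hq : 1 ≤ q) (g : Γ) :
    ej G q j (g * G.ρ i) = ej G q j g := by
  refine Nat.card_congr (Equiv.subtypeEquiv (MulAction.toPerm (G.ρ i)) fun x => ?_)
  rw [MulAction.toPerm_apply]
  exact P_ρ hi hj hq x

theorem ej_up {q j : ℕ} (hj : j ≤ q) (hq : 1 ≤ q) {a : Γ} (ha : a ∈ G.up (q + 1)) :
    ∀ g : Γ, ej G q j (g * a) = ej G q j g := by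
  refine Subgroup.closure_induction (p := fun a _ => ∀ g : Γ, ej G q j (g * a) = ej G q j g)
    ?_ ?_ ?_ ?_ ha
  · rintro _ ⟨i, hi, rfl⟩ g
    have hi' : q + 1 ≤ i := hi
    exact ej_ρ (by omega) hj hq g
  · intro g
    rw [mul_one]
  · intro a b _ _ iha ihb g
    rw [← mul_assoc, ihb, iha]
  · intro a _ iha g
    have := iha (g * a⁻¹)
    rw [inv_mul_cancel_right] at this
    exact this.symm

/-- 5.1 -/
theorem ej_const (hP1 : S_P1) {u q : ℕ} (hw : MWin G u q) {j : ℕ} (hj1 : u + 1 ≤ j) (hj : j ≤ q)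
    (g γ : Γ) : ej G q j (g * γ) = ej G q j g := by
  have hq : 1 ≤ q := by omega
  have hγ : γ ∈ gpar G.ρ Set.univ := by rw [G.gen]; trivial
  revert g
  refine Subgroup.closure_induction (p := fun γ _ => ∀ g : Γ, ej G q j (g * γ) = ej G q j g)
    ?_ ?_ ?_ ?_ hγ
  · rintro _ ⟨i, -, rfl⟩ g
    by_cases hi : i + 1 = j
    · obtain ⟨m, hm, a, ha, hma⟩ := (hP1 d k Γ X G u q hw g).1 i (by omega) (by omega) (G.ρ i)
        (G.ρ_mem_up le_rfl)
      rw [hma, AGeo.mul_eq_conj_mul g m a]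
      have h1 : ej G q j (g * a) = ej G q j (g * m * g⁻¹ * (g * a)) :=
        ej_congr (eqJ_left (G.mem_Hc.1 hm.1) (g * a))
      rw [← h1, ej_up hj hq ha]
    · exact ej_ρ hi hj hq g
  · intro g
    rw [mul_one]
  · intro a b _ _ iha ihb g
    rw [← mul_assoc, ihb, iha]
  · intro a _ iha g
    have := iha (g * a⁻¹)
    rw [inv_mul_cancel_right] at this
    exact this.symm

theorem ej_const' (hP1 : S_P1) {u q : ℕ} (hw : MWin G u q) {j : ℕ} (hj1 : u + 1 ≤ j) (hj : j ≤ q)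
    (g g' : Γ) : ej G q j g = ej G q j g' := by
  have h := ej_const hP1 hw hj1 hj g (g⁻¹ * g')
  rw [mul_inv_cancel_left] at h
  exact h.symm

theorem finite_quot (G : AGeo d k Γ X) : Finite (Γ ⧸ G.H) :=
  Nat.finite_of_card_ne_zero G.idx0

/-- the union of two different classes in a larger class -/
theorem ej_add {q j j' : ℕ} (hjj : j ≤ j') {g g' : Γ} (h : EqJ G q j' g g')
    (hn : ¬ EqJ G q j g g') : ej G q j g + ej G q j g' ≤ ej G q j' g := by
  classical
  have := finite_quot G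
  have : Fintype (Γ ⧸ G.H) := Fintype.ofFinite _
  rw [ej, ej, ej, Nat.card_eq_fintype_card, Nat.card_eq_fintype_card, Nat.card_eq_fintype_card,
    Fintype.card_subtype, Fintype.card_subtype, Fintype.card_subtype, ← Finset.card_union_of_disjoint]
  · apply Finset.card_le_card
    intro x hx
    rw [Finset.mem_union, Finset.mem_filter, Finset.mem_filter] at hx
    rw [Finset.mem_filter]
    refine ⟨Finset.mem_univ _, ?_⟩
    rcases hx with hx | hx
    · exact eqJ_mono hjj hx.2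
    · exact eqJ_trans h (eqJ_mono hjj hx.2)
  · rw [Finset.disjoint_left]
    intro x hx hx'
    rw [Finset.mem_filter] at hx hx'
    exact hn (eqJ_trans hx.2 (eqJ_symm hx'.2))

theorem ej_le (q j : ℕ) (g : Γ) : ej G q j g ≤ G.H.index := by
  have := finite_quot G
  exact Finite.card_subtype_le _

theorem ej_two {q j : ℕ} {g g' : Γ} (h : EqJ G q j g g') (hn : g' * g⁻¹ ∉ G.H) :
    2 ≤ ej G q j g := by
  have := finite_quot G
  have h1 : P G q j g ((g⁻¹ : Γ) : Γ ⧸ G.H) := by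
    rw [P_iff, inv_inv]
    exact eqJ_refl G q j g
  have h2 : P G q j g ((g'⁻¹ : Γ) : Γ ⧸ G.H) := by
    rw [P_iff, inv_inv]
    exact h
  have hne : ((g⁻¹ : Γ) : Γ ⧸ G.H) ≠ ((g'⁻¹ : Γ) : Γ ⧸ G.H) := by
    intro e
    rw [QuotientGroup.eq, inv_inv] at e
    apply hn
    have h3 := inv_mem e
    rwa [mul_inv_rev, inv_inv] at h3
  have : Nontrivial {x : Γ ⧸ G.H // P G q j g x} :=
    ⟨⟨⟨_, h1⟩, ⟨_, h2⟩, fun e => hne (congrArg Subtype.val e)⟩⟩
  exact Finite.one_lt_card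

end E2

/-- Module E2. -/
theorem t_E2 : M_E2 := by
  intro hP1 hE1 d k Γ _ X _ G u q hw j hj1 hj2 g g' hgg
  by_contra hn
  -- the classes double
  have key : ∀ t : ℕ, j + t + (LG G + 1) ≤ q → 2 ^ (t + 1) ≤ E2.ej G q (j + t) g := by
    intro t
    induction t with
    | zero =>
      intro _
      exact E2.ej_two hgg hn
    | succ t ih =>
      intro ht
      have h1 := ih (by omega)
      have h2 : ¬ ∀ a b, EqJ G q (j + t + 1) a b → EqJ G q (j + t) a b := by
        intro hall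
        exact hn (hE1 d k Γ X G u q hw (j + t) (by omega) (by omega) hall g g'
          (E2.eqJ_mono (by omega) hgg))
      push Not at h2
      obtain ⟨a, b, hab, hab'⟩ := h2
      have h3 := E2.ej_add (Nat.le_succ (j + t)) hab hab'
      rw [E2.ej_const' hP1 hw (j := j + t) (by omega) (by omega) a g,
        E2.ej_const' hP1 hw (j := j + t) (by omega) (by omega) b g] at h3
      have h4 := E2.ej_const' hP1 hw (j := j + t + 1) (by omega) (by omega) a g
      have h5 : E2.ej G q (j + t).succ a = E2.ej G q (j + t + 1) a := rfl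
      rw [h5, h4] at h3
      rw [← Nat.add_assoc j t 1, pow_succ]
      omega
  have h1 := key (LG G) (by omega)
  have h2 := E2.ej_le (G := G) q (j + LG G) g
  have h3 : G.H.index < 2 ^ (LG G + 1) := Nat.lt_pow_succ_log_self (by norm_num) _
  omega

end

end FOL
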