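import Pool.Agent.FOL.NStmts

/-!
# Module EA: 7.1, case (I), type `A`

A changed copy of `FOI/EA.lean`.
-/

namespace FOL

open Lib_helper64.FO FO2 FOK FOI
open scoped RealInnerProductSpace

namespace EA

namespace PL

variable {d k : ℕ} {Γ : Type} [Group Γ] {X : Type} [MulAction Γ X] (G : AGeo d k Γ X)

/-- `V_{i+1} = V_i + D_i` -/
theorem V_succ (g : Γ) (i : ℕ) : G.V g i ⊔ G.D g i = G.V g (i + 1) := by
  have h := Submodule.sup_orthogonal_inf_of_hasOrthogonalProjection (G.V_mono g (Nat.le_succ i))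
  rw [AGeo.D, AGeo.U, inf_comm]
  exact h

/-- `U_{i+1} = U_i ∩ D_i^⊥` -/
theorem U_succ (g : Γ) (i : ℕ) : G.U g (i + 1) = G.U g i ⊓ (G.D g i)ᗮ := by
  rw [AGeo.U, AGeo.U, Submodule.inf_orthogonal, V_succ]

/-- `D_{i+1}` in the plane -/
theorem D_succ (g : Γ) (i : ℕ) : G.D g (i + 1) = (G.V g (i + 2) ⊓ G.U g i) ⊓ (G.D g i)ᗮ := by
  rw [inf_assoc, ← U_succ]
  rfl

theorem D_perp (g : Γ) {i j : ℕ} (h : i < j) : G.D g i ≤ (G.D g j)ᗮ := by
  have h1 : G.D g i ≤ G.V g j := (G.D_le_V g i).trans (G.V_mono g h)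
  have h2 : G.D g j ≤ (G.V g j)ᗮ := G.D_le_U g j
  exact h1.trans ((Submodule.le_orthogonal_orthogonal _).trans (Submodule.orthogonal_le h2))

theorem D_perp' (g : Γ) {i j : ℕ} (h : i < j) : G.D g j ≤ (G.D g i)ᗮ := by
  have h1 : G.D g i ≤ G.V g j := (G.D_le_V g i).trans (G.V_mono g h)
  exact (G.D_le_U g j).trans (Submodule.orthogonal_le h1)

/-- `D_i` in the plane -/
theorem D_eq (g : Γ) (i : ℕ) : G.D g i = (G.V g (i + 2) ⊓ G.U g i) ⊓ (G.D g (i + 1))ᗮ := by
  apply le_antisymm
  · refine le_inf (le_inf ((G.D_le_V g i).trans (G.V_mono g (Nat.le_succ _))) (G.D_le_U g i))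
      (D_perp G g (Nat.lt_succ_self i))
  · rintro x ⟨⟨h1, h2⟩, h3⟩
    refine ⟨?_, h2⟩
    rw [SetLike.mem_coe, ← V_succ G g (i + 1), Submodule.mem_sup] at h1
    obtain ⟨a, ha, b, hb, rfl⟩ := h1
    have h4 : (⟪b, a + b⟫ : ℝ) = 0 := (Submodule.mem_orthogonal _ _).1 h3 b hb
    have h5 : (⟪b, a⟫ : ℝ) = 0 := by
      have h6 := (Submodule.mem_orthogonal _ _).1 (G.D_le_U g (i + 1) hb) a ha
      rwa [real_inner_comm] at h6
    rw [inner_add_right, h5, zero_add, inner_self_eq_zero] at h4
    rw [h4, add_zero]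
    exact ha

/-- the plane -/
theorem plane (g : Γ) (i : ℕ) : G.D g i ⊔ G.D g (i + 1) = G.V g (i + 2) ⊓ G.U g i := by
  have h1 : G.D g i ≤ G.V g (i + 2) ⊓ G.U g i :=
    le_inf ((G.D_le_V g i).trans (G.V_mono g (Nat.le_succ _))) (G.D_le_U g i)
  have h := Submodule.sup_orthogonal_inf_of_hasOrthogonalProjection h1
  rw [D_succ G g i, inf_comm _ (G.D g i)ᗮ]
  exact h

/-- the plane does not change -/
theorem plane_frame (g : Γ) (i : ℕ) :
    G.V (g * G.ρ i) (i + 2) ⊓ G.U (g * G.ρ i) i = G.V g (i + 2) ⊓ G.U g i := by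
  rw [G.V_frame_ρ (by omega), G.U_frame_ρ (by omega)]

theorem V_sum (g : Γ) (i j : ℕ) (h : i ≤ j) :
    G.V g j = G.V g i ⊔ ⨆ m ∈ Finset.Ico i j, G.D g m := by
  induction j, h using Nat.le_induction with
  | base => simp
  | succ j h ih =>
    have e : Finset.Ico i (j + 1) = insert j (Finset.Ico i j) := by
      ext x
      simp only [Finset.mem_Ico, Finset.mem_insert]
      omega
    rw [e, Finset.iSup_insert, sup_left_comm, ← ih, sup_comm, V_succ]

end PL


section lin

variable {d : ℕ}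

theorem li_dual {ι : Type} [Fintype ι] {x y : ι → E d} (h : ∀ i j, i ≠ j → (⟪x i, y j⟫ : ℝ) = 0)
    (h' : ∀ i, (⟪x i, y i⟫ : ℝ) ≠ 0) : LinearIndependent ℝ x := by
  classical
  rw [Fintype.linearIndependent_iff]
  intro c hc j
  have h1 : (⟪∑ i, c i • x i, y j⟫ : ℝ) = 0 := by rw [hc, inner_zero_left]
  rw [sum_inner, Finset.sum_eq_single j] at h1
  · rw [real_inner_smul_left] at h1
    exact (mul_eq_zero.1 h1).resolve_right (h' j)
  · intro i _ hi
    rw [real_inner_smul_left, h i j hi, mul_zero]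
  · intro h
    exact absurd (Finset.mem_univ j) h

variable {n : ℕ} {v : Fin (n + 1) → E d}

theorem in2 (hg : ∀ i j, ⟪v i, v j⟫ = if i = j then (1 : ℝ) else -1 / n) (i j l : Fin (n + 1)) :
    (⟪v i, v j - v l⟫ : ℝ) =
      (1 + 1 / n) * ((if i = j then 1 else 0) - (if i = l then 1 else 0)) := by
  rw [inner_sub_right, hg, hg]
  split_ifs <;> ring

theorem c_pos (n : ℕ) : (0 : ℝ) < 1 + 1 / n := by positivity

theorem inj (hg : ∀ i j, ⟪v i, v j⟫ = if i = j then (1 : ℝ) else -1 / n) {i j : Fin (n + 1)}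
    (h : v i = v j) : i = j := by
  by_contra hij
  have h1 := in2 hg i i j
  rw [h, sub_self, inner_zero_right, if_pos rfl, if_neg hij] at h1
  have := c_pos n
  linarith

theorem span_v (hg : ∀ i j, ⟪v i, v j⟫ = if i = j then (1 : ℝ) else -1 / n)
    {I : Submodule ℝ (E d)} (hI : Module.finrank ℝ I = n) (hv : ∀ i, v i ∈ I) :
    Submodule.span ℝ (Set.range v) = I := by
  have h1 : LinearIndependent ℝ (fun i : Fin n => v i.succ) := by
    apply li_dual (y := fun j => v j.succ - v 0)
    · intro i j hij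
      have e : i.succ ≠ j.succ := fun h => hij (Fin.succ_injective _ h)
      rw [in2 hg, if_neg e, if_neg (Fin.succ_ne_zero i)]
      ring
    · intro i
      rw [in2 hg, if_pos rfl, if_neg (Fin.succ_ne_zero i)]
      have := c_pos n
      nlinarith
  have h2 := finrank_span_eq_card h1
  rw [Fintype.card_fin] at h2
  apply Submodule.eq_of_le_of_finrank_le
  · rw [Submodule.span_le]
    rintro _ ⟨i, rfl⟩
    exact hv i
  · refine hI.le.trans (h2.ge.trans (Submodule.finrank_mono (Submodule.span_mono ?_)))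
    rintro _ ⟨i, rfl⟩
    exact ⟨i.succ, rfl⟩

theorem perp_v (hg : ∀ i j, ⟪v i, v j⟫ = if i = j then (1 : ℝ) else -1 / n)
    {I : Submodule ℝ (E d)} (hI : Module.finrank ℝ I = n) (hv : ∀ i, v i ∈ I) {w : E d}
    (hw : w ∈ I) (h : ∀ i, (⟪w, v i⟫ : ℝ) = 0) : w = 0 := by
  rw [← span_v hg hI hv] at hw
  have h1 : ∀ y ∈ Submodule.span ℝ (Set.range v), (⟪w, y⟫ : ℝ) = 0 := by
    intro y hy
    induction hy using Submodule.span_induction with
    | mem x hx =>
      obtain ⟨i, rfl⟩ := hx
      exact h i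
    | zero => exact inner_zero_right _
    | add x y _ _ hx hy => rw [inner_add_right, hx, hy, add_zero]
    | smul c x _ hx => rw [inner_smul_right, hx, mul_zero]
  exact inner_self_eq_zero.1 (h1 w hw)

/-- the number of cycles of an involution -/
theorem card_T (π : Equiv.Perm (Fin (n + 1))) (hπ : ∀ i, π (π i) = i) :
    n ≤ 2 * (Finset.univ.filter (fun i => i ≤ π i ∧ i ≠ 0)).card + 1 := by
  classical
  set P : Finset (Fin (n + 1)) := Finset.univ.filter (fun i => i ≤ π i) with hP
  have h1 : (Finset.univ : Finset (Fin (n + 1))) ⊆ P ∪ P.image π := by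
    intro i _
    rw [Finset.mem_union]
    rcases le_total i (π i) with h | h
    · left
      rw [hP, Finset.mem_filter]
      exact ⟨Finset.mem_univ _, h⟩
    · right
      rw [Finset.mem_image]
      refine ⟨π i, ?_, hπ i⟩
      rw [hP, Finset.mem_filter]
      exact ⟨Finset.mem_univ _, by rw [hπ]; exact h⟩
  have h2 := Finset.card_le_card h1
  have h3 := Finset.card_union_le P (P.image π)
  have h4 : (P.image π).card ≤ P.card := Finset.card_image_le
  rw [Finset.card_univ, Fintype.card_fin] at h2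
  have h5 : P ⊆ insert 0 (Finset.univ.filter (fun i => i ≤ π i ∧ i ≠ 0)) := by
    intro i hi
    rw [hP, Finset.mem_filter] at hi
    rw [Finset.mem_insert, Finset.mem_filter]
    by_cases h : i = 0
    · exact Or.inl h
    · exact Or.inr ⟨Finset.mem_univ _, hi.2, h⟩
  have h6 := Finset.card_le_card h5
  have h7 := Finset.card_insert_le (0 : Fin (n + 1))
    (Finset.univ.filter (fun i => i ≤ π i ∧ i ≠ 0))
  omega

/-- the fixed space of an involution is large -/
theorem big_fix (hg : ∀ i j, ⟪v i, v j⟫ = if i = j then (1 : ℝ) else -1 / n)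
    (π : Equiv.Perm (Fin (n + 1))) (hπ : ∀ i, π (π i) = i) {Z : Submodule ℝ (E d)}
    (hZ : ∀ i, v i + v (π i) ∈ Z) : n ≤ 2 * Module.finrank ℝ Z + 1 := by
  classical
  set T : Finset (Fin (n + 1)) := Finset.univ.filter (fun i => i ≤ π i ∧ i ≠ 0) with hT
  have hT' : ∀ i : T, (i : Fin (n + 1)) ≤ π i ∧ (i : Fin (n + 1)) ≠ 0 := by
    intro i
    exact (Finset.mem_filter.1 i.2).2
  have h1 : LinearIndependent ℝ (fun i : T => v i + v (π i)) := by
    apply li_dual (y := fun j : T => v j - v 0)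
    · intro i j hij
      obtain ⟨hi, hi0⟩ := hT' i
      obtain ⟨hj, hj0⟩ := hT' j
      have e1 : (i : Fin (n + 1)) ≠ j := fun h => hij (Subtype.ext h)
      have e2 : π i ≠ 0 := by
        intro h
        rw [h] at hi
        exact hi0 (le_antisymm hi (Fin.zero_le _))
      have e3 : π i ≠ j := by
        intro h
        rw [h] at hi
        rw [← h, hπ, h] at hj
        exact e1 (le_antisymm hi hj)
      rw [inner_add_left, in2 hg, in2 hg, if_neg e1, if_neg hi0, if_neg e2, if_neg e3]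
      ring
    · intro i
      obtain ⟨hi, hi0⟩ := hT' i
      have e2 : π i ≠ 0 := by
        intro h
        rw [h] at hi
        exact hi0 (le_antisymm hi (Fin.zero_le _))
      have := c_pos n
      rw [inner_add_left, in2 hg, in2 hg, if_pos rfl, if_neg hi0, if_neg e2]
      split_ifs <;> nlinarith
  have h2 := finrank_span_eq_card h1
  rw [Fintype.card_coe] at h2
  have h3 : Submodule.span ℝ (Set.range (fun i : T => v i + v (π i))) ≤ Z := by
    rw [Submodule.span_le]
    rintro _ ⟨i, rfl⟩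
    exact hZ i
  have h4 := Submodule.finrank_mono h3
  rw [h2] at h4
  have h5 := card_T π hπ
  rw [← hT] at h5
  omega

theorem sref_eq_self {a v : E d} (h : ⟪a, v⟫ = (0 : ℝ)) : sref a v = v := by simp [sref, h]

end lin

variable {d k : ℕ} {Γ : Type} [Group Γ] {X : Type} [MulAction Γ X] {G : AGeo d k Γ X}

theorem exists_ne {D : Submodule ℝ (E d)} (h : Module.finrank ℝ D = 1) : ∃ e ∈ D, e ≠ 0 := by
  have h1 : D ≠ ⊥ := by
    rintro rfl
    rw [finrank_bot] at h
    omega
  obtain ⟨e, he, hne⟩ := Submodule.exists_mem_ne_zero_of_ne_bot h1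
  exact ⟨e, he, hne⟩

theorem line_eq {D : Submodule ℝ (E d)} (h : Module.finrank ℝ D = 1) {e w : E d} (he : e ∈ D)
    (hne : e ≠ 0) (hw : w ∈ D) : ∃ c : ℝ, w = c • e := by
  have h1 : (⟨e, he⟩ : D) ≠ 0 := fun h => hne (congrArg Subtype.val h)
  obtain ⟨c, hc⟩ := exists_smul_eq_of_finrank_eq_one h h1 ⟨w, hw⟩
  exact ⟨c, (congrArg Subtype.val hc).symm⟩

theorem kap_U {g : Γ} {l : ℕ} {κ : E d ≃ₗᵢ[ℝ] E d} {ε : ℝ} (hk : IsK G g l κ ε) {w : E d}
    (hw : w ∈ G.U g l) : κ w ∈ G.U g l := by
  rw [AGeo.U, Submodule.mem_orthogonal] at hw ⊢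
  intro v hv
  rw [← hk.fix v hv, LinearIsometryEquiv.inner_map_map]
  exact hw v hv

/-- the dimension of the plane -/
theorem plane_dim {g : Γ} {l : ℕ} (h1 : Module.finrank ℝ (G.D g l) = 1)
    (h2 : Module.finrank ℝ (G.D g (l + 1)) = 1) :
    Module.finrank ℝ (G.V g (l + 2) ⊓ G.U g l : Submodule ℝ (E d)) = 2 := by
  have h3 : G.D g l ⊓ G.D g (l + 1) = ⊥ := by
    rw [eq_bot_iff]
    intro x hx
    have h4 := (Submodule.mem_orthogonal _ _).1 (PL.D_perp G g (Nat.lt_succ_self l) hx.1) x hx.2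
    exact inner_self_eq_zero.1 h4
  have h4 := Submodule.finrank_sup_add_finrank_inf_eq (G.D g l) (G.D g (l + 1))
  rw [h3, finrank_bot, PL.plane, h1, h2] at h4
  omega

theorem V_dim {u q : ℕ} (hw : Win G u q) (g : Γ) {j : ℕ} (hj : u ≤ j) (m : ℕ)
    (hm : j + m ≤ q + 1) :
    Module.finrank ℝ (G.V g (j + m) ⊓ G.U g j : Submodule ℝ (E d)) = m := by
  have h1 : ∀ m, j + m ≤ q + 1 →
      Module.finrank ℝ (G.V g (j + m)) = Module.finrank ℝ (G.V g j) + m := by
    intro m
    induction m with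
    | zero => intro _; rfl
    | succ m ih =>
      intro hm
      have h2 := ih (by omega)
      have h3 := Submodule.finrank_add_inf_finrank_orthogonal (G.V_mono g (Nat.le_succ (j + m)))
      have h4 := hw.line g (j + m) (by omega) (by omega)
      rw [AGeo.D, AGeo.U, inf_comm] at h4
      rw [h2] at h3
      have e : j + (m + 1) = j + m + 1 := by omega
      rw [e]
      simp only [Nat.succ_eq_add_one] at h3
      omega
  have h3 := Submodule.finrank_add_inf_finrank_orthogonal (G.V_mono g (Nat.le_add_right j m))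
  have h4 := h1 m hm
  rw [AGeo.U, inf_comm]
  omega

/-- `κ` with sign `1` is a reflection -/
theorem kap_root {g : Γ} {l : ℕ} {κ : E d ≃ₗᵢ[ℝ] E d} (hk : IsK G g l κ 1)
    (h1 : Module.finrank ℝ (G.D g l) = 1) (h2 : Module.finrank ℝ (G.D g (l + 1)) = 1) :
    ∃ a, ‖a‖ = 1 ∧ a ∈ G.D g l ⊔ G.D g (l + 1) ∧ a ∉ G.D g l ∧ a ∉ G.D g (l + 1) ∧
      ∀ w, κ w = sref a w := by
  obtain ⟨e, he, hne⟩ := exists_ne h1
  have heP : e ∈ G.V g (l + 2) ⊓ G.U g l := by
    rw [← PL.plane]
    exact Submodule.mem_sup_left he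
  have hkP : κ e ∈ G.V g (l + 2) ⊓ G.U g l := ⟨hk.pres _ heP.1, kap_U hk heP.2⟩
  set b := e - κ e with hb
  set c := e + κ e with hc
  have hbP : b ∈ G.V g (l + 2) ⊓ G.U g l := Submodule.sub_mem _ heP hkP
  have hcP : c ∈ G.V g (l + 2) ⊓ G.U g l := Submodule.add_mem _ heP hkP
  have hkb : κ b = -b := by rw [hb, map_sub, hk.inv, neg_sub]
  have hkc : κ c = c := by rw [hc, map_add, hk.inv, add_comm]
  have hb0 : b ≠ 0 := by
    intro h
    rw [hb, sub_eq_zero] at h
    exact hk.moves e he hne (by rw [← h]; exact he)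
  have hc0 : c ≠ 0 := by
    intro h
    rw [hc, add_comm, add_eq_zero_iff_eq_neg] at h
    exact hk.moves e he hne (by rw [h]; exact neg_mem he)
  have hbc : (⟪b, c⟫ : ℝ) = 0 := by
    have h3 := LinearIsometryEquiv.inner_map_map κ b c
    rw [hkb, hkc, inner_neg_left] at h3
    linarith
  have hspan : Submodule.span ℝ (Set.range ![b, c]) = G.V g (l + 2) ⊓ G.U g l := by
    have hli : LinearIndependent ℝ ![b, c] := by
      apply li_dual (y := ![b, c])
      · intro i j hij
        fin_cases i <;> fin_cases j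
        · exact absurd rfl hij
        · exact hbc
        · change (⟪c, b⟫ : ℝ) = 0
          rw [real_inner_comm]
          exact hbc
        · exact absurd rfl hij
      · intro i
        fin_cases i
        · change (⟪b, b⟫ : ℝ) ≠ 0
          rw [Ne, inner_self_eq_zero]
          exact hb0
        · change (⟪c, c⟫ : ℝ) ≠ 0
          rw [Ne, inner_self_eq_zero]
          exact hc0
    have h3 := finrank_span_eq_card hli
    rw [Fintype.card_fin] at h3
    apply Submodule.eq_of_le_of_finrank_le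
    · rw [Submodule.span_le]
      rintro _ ⟨i, rfl⟩
      fin_cases i
      · exact hbP
      · exact hcP
    · rw [plane_dim h1 h2, h3]
  have hbn : (‖b‖ : ℝ) ≠ 0 := norm_ne_zero_iff.2 hb0
  set a := (‖b‖⁻¹ : ℝ) • b with ha
  have haP : a ∈ G.V g (l + 2) ⊓ G.U g l := Submodule.smul_mem _ _ hbP
  have hna : ‖a‖ = 1 := by
    rw [ha, norm_smul, norm_inv, norm_norm, inv_mul_cancel₀ hbn]
  have hab : b = (‖b‖ : ℝ) • a := by
    rw [ha, smul_smul, mul_inv_cancel₀ hbn, one_smul]
  have hka : κ a = -a := by rw [ha, map_smul, hkb, smul_neg]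
  have hac : (⟪a, c⟫ : ℝ) = 0 := by rw [ha, real_inner_smul_left, hbc, mul_zero]
  have hsb : sref a b = -b := by
    conv_lhs => rw [hab]
    rw [sref_smul, sref_self hna, smul_neg, ← hab]
  have hsc : sref a c = c := sref_eq_self hac
  have hall : ∀ w, κ w = sref a w := by
    intro w
    have hw : w ∈ G.V g (l + 2) ⊔ G.U g (l + 2) := by
      rw [AGeo.U, Submodule.sup_orthogonal_of_hasOrthogonalProjection]
      trivial
    obtain ⟨y, hy, r, hr, rfl⟩ := Submodule.mem_sup.1 hw
    have hy2 : y ∈ G.V g l ⊔ (G.V g (l + 2) ⊓ G.U g l) := by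
      have h3 := Submodule.sup_orthogonal_inf_of_hasOrthogonalProjection
        (G.V_mono g (Nat.le_add_right l 2))
      rw [inf_comm, AGeo.U, h3]
      exact hy
    obtain ⟨x, hx, p, hp, rfl⟩ := Submodule.mem_sup.1 hy2
    rw [← hspan] at hp
    have hp2 : ∃ s t : ℝ, p = s • b + t • c := by
      rw [Submodule.mem_span_range_iff_exists_fun] at hp
      obtain ⟨z, hz⟩ := hp
      rw [Fin.sum_univ_two] at hz
      exact ⟨z 0, z 1, hz.symm⟩
    obtain ⟨s, t, rfl⟩ := hp2
    have hxa : (⟪a, x⟫ : ℝ) = 0 := by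
      rw [real_inner_comm]
      exact (Submodule.mem_orthogonal _ _).1 haP.2 x hx
    have hra : (⟪a, r⟫ : ℝ) = 0 := (Submodule.mem_orthogonal _ _).1 hr a haP.1
    rw [map_add, map_add, map_add, map_smul, map_smul, hk.fix x hx, hk.scal r hr, hkb, hkc,
      sref_add, sref_add, sref_add, sref_smul, sref_smul, hsb, hsc, sref_eq_self hxa,
      sref_eq_self hra, one_smul]
  refine ⟨a, hna, by rw [PL.plane]; exact haP, ?_, ?_, hall⟩
  · intro h
    have hane : a ≠ 0 := by
      intro h'
      rw [h', norm_zero] at hna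
      exact zero_ne_one hna
    apply hk.moves a h hane
    rw [hka]
    exact neg_mem h
  · intro h
    apply hk.moves e he hne
    have h3 : (⟪a, e⟫ : ℝ) = 0 :=
      (Submodule.mem_orthogonal _ _).1 (PL.D_perp G g (Nat.lt_succ_self l) he) a h
    rw [hall, sref_eq_self h3]
    exact he

/-- consecutive roots are neither orthogonal nor parallel -/
theorem cons {g : Γ} {l : ℕ} (h2 : Module.finrank ℝ (G.D g (l + 1)) = 1) {a a' : E d}
    (ha : a ∈ G.D g l ⊔ G.D g (l + 1)) (ha1 : a ∉ G.D g l) (ha2 : a ∉ G.D g (l + 1))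
    (ha' : a' ∈ G.D g (l + 1) ⊔ G.D g (l + 2)) (ha3 : a' ∉ G.D g (l + 2)) :
    (⟪a, a'⟫ : ℝ) ≠ 0 ∧ a ≠ a' ∧ a ≠ -a' := by
  obtain ⟨x, hx, y, hy, rfl⟩ := Submodule.mem_sup.1 ha
  obtain ⟨y', hy', z, hz, rfl⟩ := Submodule.mem_sup.1 ha'
  have hy0 : y ≠ 0 := by
    rintro rfl
    rw [add_zero] at ha1
    exact ha1 hx
  have hx0 : x ≠ 0 := by
    rintro rfl
    rw [zero_add] at ha2
    exact ha2 hy
  have hy'0 : y' ≠ 0 := by
    rintro rfl
    rw [zero_add] at ha3
    exact ha3 hz
  obtain ⟨c, rfl⟩ := line_eq h2 hy hy0 hy'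
  have hc0 : c ≠ 0 := by
    rintro rfl
    rw [zero_smul] at hy'0
    exact hy'0 rfl
  have p1 : ∀ i j, i < j → ∀ s ∈ G.D g i, ∀ t ∈ G.D g j, (⟪s, t⟫ : ℝ) = 0 := by
    intro i j hij s hs t ht
    rw [real_inner_comm]
    exact (Submodule.mem_orthogonal _ _).1 (PL.D_perp G g hij hs) t ht
  have q1 : (⟪x, y⟫ : ℝ) = 0 := p1 l (l + 1) (by omega) x hx y hy
  have q2 : (⟪x, z⟫ : ℝ) = 0 := p1 l (l + 2) (by omega) x hx z hz
  have q3 : (⟪y, z⟫ : ℝ) = 0 := p1 (l + 1) (l + 2) (by omega) y hy z hz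
  have r1 : (⟪y, y⟫ : ℝ) ≠ 0 := by rwa [Ne, inner_self_eq_zero]
  have r2 : (⟪x, x⟫ : ℝ) ≠ 0 := by rwa [Ne, inner_self_eq_zero]
  refine ⟨?_, ?_, ?_⟩
  · rw [inner_add_left, inner_add_right, inner_add_right, real_inner_smul_right,
      real_inner_smul_right, q1, q2, q3, mul_zero, zero_add, zero_add, add_zero]
    exact mul_ne_zero hc0 r1
  · intro h
    have h3 : (⟪x, x + y⟫ : ℝ) = ⟪x, c • y + z⟫ := by rw [h]
    rw [inner_add_right, inner_add_right, real_inner_smul_right, q1, q2, mul_zero, add_zero,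
      add_zero] at h3
    exact r2 h3
  · intro h
    have h3 : (⟪x, x + y⟫ : ℝ) = ⟪x, -(c • y + z)⟫ := by rw [h]
    rw [inner_neg_right, inner_add_right, inner_add_right, real_inner_smul_right, q1, q2,
      mul_zero, add_zero, add_zero, neg_zero] at h3
    exact r2 h3

end EA

open EA in
theorem t_EA : M_EA := by
  intro _ d k Γ _ X _ G u q j1 j2 hs g e n v hn hv hg hperm he hev
  have hj := hs.hj
  have hn20 : 30 ≤ n := by
    rw [← hn]
    exact hs.dimY g j1 le_rfl (by omega)
  have huj := hs.huj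
  have hjq := hs.hjq
  have line : ∀ i, j1 ≤ i → i ≤ j2 → Module.finrank ℝ (G.D g i) = 1 := fun i h1 h2 =>
    hs.win.line g i (by omega) (by omega)
  -- `κ_l` is a permutation of the vertices
  have key : ∀ l, j1 + 1 ≤ l → l + 2 ≤ j2 → ∃ κ, IsKap G g l κ 1 ∧
      ∃ π : Equiv.Perm (Fin (n + 1)), ∀ i, κ (v i) = v (π i) := by
    intro l h1 h2
    obtain ⟨ε, hκ⟩ := hs.kap g l (by omega) h2
    set κ := G.R g (G.ρ l) with hκdef
    have hmem : κ ∈ GG G j1 g :=
      Subgroup.subset_closure (Or.inl ⟨G.ρ l, ⟨hs.rho l (by omega) (by omega),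
        G.ρ_mem_up (by omega)⟩, rfl⟩)
    obtain ⟨π, hπ⟩ := hperm κ hmem
    have hke : κ e = e := hκ.fix e (G.V_mono g h1 (G.D_le_V g j1 he))
    obtain ⟨i0, hi0⟩ := hev
    have hki : κ (v i0) = v i0 := by
      rcases hi0 with h | h
      · rw [← h]; exact hke
      · rw [h, map_neg, neg_inj] at hke
        exact hke
    have hπ' : ∀ i, κ (v i) = v (π i) := by
      rcases hπ with h | h
      · exact h
      · exfalso
        have h3 := h i0
        rw [hki] at h3
        have h4 := hg i0 i0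
        rw [if_pos rfl] at h4
        have h5 := hg (π i0) i0
        have h6 : (⟪v (π i0), v i0⟫ : ℝ) = -1 := by
          rw [← neg_eq_iff_eq_neg, ← inner_neg_left, ← h3]
          exact h4
        rw [h6] at h5
        have hnn : (2 : ℝ) ≤ n := by
          have : 2 ≤ n := by omega
          exact_mod_cast this
        split_ifs at h5 with h7
        · norm_num at h5
        · rw [eq_div_iff (by linarith)] at h5
          linarith
    have hinv : ∀ i, π (π i) = i := by
      intro i
      apply inj hg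
      rw [← hπ', ← hπ', hκ.inv]
    have hε : ε = 1 := by
      rcases hκ.sgn with h | h
      · exact h
      · exfalso
        subst h
        have h3 : ∀ i, v i + v (π i) ∈ G.V g (l + 2) ⊓ G.U g j1 := by
          intro i
          have hm : v i + v (π i) ∈ G.Y g j1 := add_mem (hv _) (hv _)
          refine ⟨?_, G.Y_le_U g j1 hm⟩
          have hfix : κ (v i + v (π i)) = v i + v (π i) := by
            rw [map_add, hπ', hπ', hinv, add_comm]
          have hw : v i + v (π i) ∈ G.V g (l + 2) ⊔ G.U g (l + 2) := by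
            rw [AGeo.U, Submodule.sup_orthogonal_of_hasOrthogonalProjection]
            trivial
          obtain ⟨y, hy, r, hr, hyr⟩ := Submodule.mem_sup.1 hw
          rw [← hyr] at hfix ⊢
          rw [map_add, hκ.scal r hr] at hfix
          have h4 : r = (1 / 2 : ℝ) • (κ y - y) := by
            have h5 : κ y - y = (2 : ℝ) • r := by
              rw [two_smul, sub_eq_iff_eq_add]
              have h6 : κ y = (y + r) - (-1 : ℝ) • r := by rw [← hfix]; abel
              rw [h6, neg_smul, one_smul]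
              abel
            rw [h5, smul_smul]
            norm_num
          have h5 : r ∈ G.V g (l + 2) := by
            rw [h4]
            exact Submodule.smul_mem _ _ (sub_mem (hκ.pres y hy) hy)
          exact add_mem hy h5
        have h4 := big_fix hg π hinv h3
        have e1 : l + 2 = j1 + (l + 2 - j1) := by omega
        rw [e1, V_dim hs.win g huj (l + 2 - j1) (by omega)] at h4
        omega
    subst hε
    exact ⟨κ, ⟨hκdef, hκ⟩, π, hπ'⟩
  -- the form of a root
  have form : ∀ l a, j1 + 1 ≤ l → l + 2 ≤ j2 → RootAt G g l a →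
      ∃ p r, p ≠ r ∧ ∃ t : ℝ, a = t • (v p - v r) := by
    intro l a h1 h2 ha
    obtain ⟨κ, hκ, π, hπ⟩ := key l h1 h2
    have h3 : ∀ i, v (π i) = v i - (2 * ⟪a, v i⟫) • a := by
      intro i
      rw [← hπ i]
      rw [hκ.1]
      exact ha.act (v i)
    have h4 : ∃ p, π p ≠ p := by
      by_contra hcon
      push Not at hcon
      have ha0 : a = 0 := by
        apply perp_v hg hn hv
        · have h5 : G.D g l ⊔ G.D g (l + 1) ≤ G.Y g j1 :=
            sup_le (hs.D g j1 le_rfl (by omega) l (by omega) (by omega))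
              (hs.D g j1 le_rfl (by omega) (l + 1) (by omega) (by omega))
          exact h5 ha.mem
        · intro i
          have h5 := h3 i
          rw [hcon i, eq_comm, sub_eq_self, smul_eq_zero] at h5
          rcases h5 with h5 | h5
          · linarith
          · rw [h5, inner_zero_left]
      have h6 := ha.norm
      rw [ha0, norm_zero] at h6
      exact zero_ne_one h6
    obtain ⟨p, hp⟩ := h4
    have h5 : v p - v (π p) = (2 * ⟪a, v p⟫ : ℝ) • a := by rw [h3 p]; abel
    have h6 : (2 * ⟪a, v p⟫ : ℝ) ≠ 0 := by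
      intro h
      rw [h, zero_smul, sub_eq_zero] at h5
      exact hp (inj hg h5).symm
    refine ⟨p, π p, fun h => hp h.symm, (2 * ⟪a, v p⟫ : ℝ)⁻¹, ?_⟩
    rw [h5, smul_smul, inv_mul_cancel₀ h6, one_smul]
  refine ⟨?_, ?_⟩
  · intro l h1 h2
    obtain ⟨κ, hκ, π, hπ⟩ := key l h1 h2
    obtain ⟨a, ha1, ha2, ha3, ha4, ha5⟩ :=
      kap_root hκ.2 (line l (by omega) (by omega)) (line (l + 1) (by omega) (by omega))
    exact ⟨a, ha1, ha2, ha3, ha4, fun y => by rw [← hκ.1, ha5]⟩
  · intro l a a' h1 h2 ha ha'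
    obtain ⟨p, r, hpr, t, hat⟩ := form l a h1 (by omega) ha
    obtain ⟨p', r', hpr', t', hat'⟩ := form (l + 1) a' (by omega) (by omega) ha'
    obtain ⟨c1, c2, c3⟩ := cons (line (l + 1) (by omega) (by omega)) ha.mem ha.n1 ha.n2 ha'.mem
      ha'.n2
    have hcp := c_pos n
    set C : ℝ := 1 + 1 / n with hC
    have hnorm : ∀ (s : ℝ) (x y : Fin (n + 1)), x ≠ y → ‖s • (v x - v y)‖ = 1 →
        s ^ 2 * C = 1 / 2 := by
      intro s x y hxy h
      have h3 : (⟪s • (v x - v y), s • (v x - v y)⟫ : ℝ) = 1 := by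
        rw [real_inner_self_eq_norm_sq, h]
        norm_num
      rw [real_inner_smul_left, real_inner_smul_right, inner_sub_left, in2 hg, in2 hg, if_pos rfl,
        if_neg hxy, if_neg hxy.symm, if_pos rfl, ← hC] at h3
      linarith
    have m1 := ha.norm
    have m2 := ha'.norm
    rw [hat] at m1
    rw [hat'] at m2
    have m3 := hnorm t p r hpr m1
    have m4 := hnorm t' p' r' hpr' m2
    have h3 : (⟪a, a'⟫ : ℝ) = t * t' * C * (((if p = p' then 1 else 0) - (if p = r' then 1 else 0)) -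
        ((if r = p' then 1 else 0) - (if r = r' then 1 else 0))) := by
      rw [hat, hat', real_inner_smul_left, real_inner_smul_right, inner_sub_left, in2 hg, in2 hg,
        ← hC]
      ring
    have h4 : (t * t' * C) ^ 2 = 1 / 4 := by
      have : (t * t' * C) ^ 2 = (t ^ 2 * C) * (t' ^ 2 * C) := by ring
      rw [this, m3, m4]
      norm_num
    have h5 : ∀ z : ℝ, (⟪a, a'⟫ : ℝ) = t * t' * C * z → z ^ 2 = 1 → (⟪a, a'⟫ : ℝ) ^ 2 = 1 / 4 := by
      intro z hz hz2
      rw [hz, mul_pow, h4, hz2, mul_one]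
    have h6 : t ^ 2 = t' ^ 2 := mul_right_cancel₀ hcp.ne' (m3.trans m4.symm)
    have h7 : t = t' ∨ t = -t' := sq_eq_sq_iff_eq_or_eq_neg.1 h6
    by_cases e1 : p = p'
    · by_cases e2 : r = r'
      · exfalso
        subst e1 e2
        rcases h7 with h7 | h7
        · exact c2 (by rw [hat, hat', h7])
        · exact c3 (by rw [hat, hat', h7, neg_smul])
      · have e3 : p ≠ r' := by rw [e1]; exact hpr'
        have e4 : r ≠ p' := by rw [← e1]; exact hpr.symm
        rw [if_pos e1, if_neg e2, if_neg e3, if_neg e4] at h3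
        exact h5 _ h3 (by norm_num)
    · by_cases e2 : r = r'
      · have e3 : p ≠ r' := by rw [← e2]; exact hpr
        have e4 : r ≠ p' := by rw [e2]; exact hpr'.symm
        rw [if_neg e1, if_pos e2, if_neg e3, if_neg e4] at h3
        exact h5 _ h3 (by norm_num)
      · by_cases e3 : p = r'
        · by_cases e4 : r = p'
          · exfalso
            subst e3 e4
            rcases h7 with h7 | h7
            · apply c3
              rw [hat, hat', h7, ← smul_neg, neg_sub]
            · apply c2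
              rw [hat, hat', h7, neg_smul, ← smul_neg, neg_sub]
          · rw [if_neg e1, if_neg e2, if_pos e3, if_neg e4] at h3
            exact h5 _ h3 (by norm_num)
        · by_cases e4 : r = p'
          · rw [if_neg e1, if_neg e2, if_neg e3, if_pos e4] at h3
            exact h5 _ h3 (by norm_num)
          · rw [if_neg e1, if_neg e2, if_neg e3, if_neg e4] at h3
            exfalso
            apply c1
            rw [h3]
            norm_num

end FOL
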