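import Pool.Agent.FOL.NStmts
import Pool.Agent.FOI.ED

/-!
# Module ED (7.1): type `D` or frame, the vector `e` is diagonal

A changed copy of `Pool/Agent/FOI/ED.lean`.
-/

namespace FOL

open Lib_helper64.FO FO2 FOK FOI
open scoped RealInnerProductSpace Nat

namespace ED

open FOI.ED (line_span exists_ne srefL sref_sub)

variable {d k : ℕ} {Γ : Type} [Group Γ] {X : Type} [MulAction Γ X] (G : AGeo d k Γ X)

/-! ### dimensions -/

theorem finrank_VU {u q : ℕ} (hW : Win G u q) (g : Γ) {i : ℕ} (hu : u ≤ i) :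
    ∀ m, i + m ≤ q + 1 → Module.finrank ℝ ↥(G.V g (i + m) ⊓ G.U g i) ≤ m := by
  intro m
  induction m with
  | zero =>
    intro _
    have e : G.V g (i + 0) ⊓ G.U g i = ⊥ := by
      rw [add_zero, AGeo.U, Submodule.inf_orthogonal_eq_bot]
    rw [e]
    simp
  | succ m ih =>
    intro h
    have h1 : G.V g (i + (m + 1)) ⊓ G.U g i ≤ (G.V g (i + m) ⊓ G.U g i) ⊔ G.D g (i + m) := by
      rintro x ⟨hx1, hx2⟩
      have hx3 : x ∈ G.V g (i + m) ⊔ G.D g (i + m) := by
        rw [FOI.PL.V_succ]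
        exact hx1
      obtain ⟨a, ha, b, hb, rfl⟩ := Submodule.mem_sup.1 hx3
      refine Submodule.add_mem_sup ⟨ha, ?_⟩ hb
      have hb' : b ∈ G.U g i := G.U_anti g (by omega) (G.D_le_U g _ hb)
      have := (G.U g i).sub_mem hx2 hb'
      rwa [add_sub_cancel_right] at this
    have h2 := Submodule.finrank_mono h1
    have h3 := Submodule.finrank_add_le_finrank_add_finrank (G.V g (i + m) ⊓ G.U g i)
      (G.D g (i + m))
    have h4 := hW.line g (i + m) (by omega) (by omega)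
    have h5 := ih (by omega)
    omega

/-- for `ε = 1` the isometry is a reflection -/
theorem root_of_IsK {u q l : ℕ} (hW : Win G u q) {g : Γ} (hu : u ≤ l) (hq : l + 1 ≤ q)
    {κ : E d ≃ₗᵢ[ℝ] E d} (h : IsK G g l κ 1) :
    ∃ a : E d, ‖a‖ = 1 ∧ a ∈ G.D g l ⊔ G.D g (l + 1) ∧ a ∉ G.D g l ∧ a ∉ G.D g (l + 1) ∧
      ∀ v, κ v = sref a v := by
  have l0 := hW.line g l hu (by omega)
  have l1 := hW.line g (l + 1) (by omega) hq
  obtain ⟨e, he, h0⟩ := exists_ne l0
  have hm := h.moves e he h0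
  set c := ‖e - κ e‖ with hc
  have hne : e - κ e ≠ 0 := by
    intro h1
    rw [sub_eq_zero] at h1
    exact hm (h1 ▸ he)
  have hc0 : c ≠ 0 := by rw [hc]; simpa using hne
  set a := c⁻¹ • (e - κ e) with ha
  have hea : e - κ e = c • a := by rw [ha, smul_smul, mul_inv_cancel₀ hc0, one_smul]
  have hna : ‖a‖ = 1 := by
    rw [ha, norm_smul, norm_inv, Real.norm_eq_abs, ← hc, abs_of_nonneg (by rw [hc]; exact norm_nonneg _),
      inv_mul_cancel₀ hc0]
  have heV : e ∈ G.V g (l + 2) := G.V_mono g (by omega) (G.D_le_V g l he)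
  have heU : e ∈ G.U g l := G.D_le_U g l he
  have hκU : κ e ∈ G.U g l := by
    rw [AGeo.U, Submodule.mem_orthogonal]
    intro v hv
    rw [← h.fix v hv, LinearIsometryEquiv.inner_map_map]
    exact (Submodule.mem_orthogonal _ _).1 heU v hv
  have hκP : κ e ∈ G.D g l ⊔ G.D g (l + 1) := by
    rw [FOI.PL.plane]
    exact ⟨h.pres e heV, hκU⟩
  have haP : a ∈ G.D g l ⊔ G.D g (l + 1) := by
    rw [ha]
    exact Submodule.smul_mem _ _ (Submodule.sub_mem _ (Submodule.mem_sup_left he) hκP)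
  -- the two maps agree
  have hse : sref a e = κ e := sref_sub (by rw [LinearIsometryEquiv.norm_map]) hc0 hna hea
  have hsκ : sref a (κ e) = e := by rw [← hse, sref_sref hna]
  let M : Submodule ℝ (E d) := LinearMap.eqLocus (κ.toLinearEquiv : E d →ₗ[ℝ] E d) (srefL a)
  have hM : ∀ v, v ∈ M ↔ κ v = sref a v := fun v => Iff.rfl
  have m1 : e ∈ M := (hM e).2 hse.symm
  have m2 : κ e ∈ M := (hM _).2 (by rw [h.inv, hsκ])
  have mD0 : G.D g l ≤ M := by
    intro x hx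
    obtain ⟨t, rfl⟩ := line_span l0 he h0 hx
    exact M.smul_mem t m1
  have haV : a ∈ G.V g (l + 2) ∧ a ∈ G.U g l := by
    rw [FOI.PL.plane] at haP
    exact haP
  have mD1 : G.D g (l + 1) ≤ M := by
    obtain ⟨q1, hq1, q2, hq2, hq12⟩ := Submodule.mem_sup.1 hκP
    have hq0 : q2 ≠ 0 := by
      rintro rfl
      rw [add_zero] at hq12
      exact hm (hq12 ▸ hq1)
    have m3 : q2 ∈ M := by
      have := M.sub_mem m2 (mD0 hq1)
      rwa [← hq12, add_sub_cancel_left] at this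
    intro x hx
    obtain ⟨t, rfl⟩ := line_span l1 hq2 hq0 hx
    exact M.smul_mem t m3
  have mV : G.V g l ≤ M := by
    intro v hv
    rw [hM, h.fix v hv, sref]
    have h5 : ⟪a, v⟫ = (0 : ℝ) := by
      rw [real_inner_comm]
      exact (Submodule.mem_orthogonal _ _).1 haV.2 v hv
    rw [h5]
    simp
  have mU : G.U g (l + 2) ≤ M := by
    intro v hv
    rw [hM, h.scal v hv, sref, one_smul]
    have h5 : ⟪a, v⟫ = (0 : ℝ) := (Submodule.mem_orthogonal _ _).1 hv a haV.1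
    rw [h5]
    simp
  have mV2 : G.V g (l + 2) ≤ M := by
    rw [← FOI.PL.V_succ G g (l + 1), ← FOI.PL.V_succ G g l]
    exact sup_le (sup_le mV mD0) mD1
  have mT : ∀ v, v ∈ M := by
    intro v
    have h6 : v ∈ G.V g (l + 2) ⊔ (G.V g (l + 2))ᗮ := by
      rw [Submodule.sup_orthogonal_of_hasOrthogonalProjection]
      trivial
    exact (sup_le mV2 mU) h6
  have hκa : κ a = -a := by rw [(hM a).1 (mT a), sref_self hna]
  refine ⟨a, hna, haP, ?_, ?_, fun v => (hM v).1 (mT v)⟩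
  · intro hD
    have h7 : a ≠ 0 := by
      rintro h7
      rw [h7] at hna
      simp at hna
    apply h.moves a hD h7
    rw [hκa]
    exact (G.D g l).neg_mem hD
  · intro hD
    have h5 : ⟪a, e⟫ = (0 : ℝ) := by
      rw [real_inner_comm]
      exact (Submodule.mem_orthogonal _ _).1 (G.D_le_U g (l + 1) hD) e (G.D_le_V g l he)
    apply hm
    rw [← hse, sref, h5]
    simpa using he

/-- two roots of consecutive indices -/
theorem consec {u q l : ℕ} (hW : Win G u q) {g : Γ} (hu : u ≤ l) (hq : l + 2 ≤ q) {n : ℕ}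
    {w : Fin n → E d} (hw : Orthonormal ℝ w) {a a' : E d} (ha1 : ‖a‖ = 1) (ha1' : ‖a'‖ = 1)
    (ha : ∃ i j, i ≠ j ∧ ∃ t : ℝ, t ^ 2 = 1 / 2 ∧ a = t • (w i - w j))
    (ha' : ∃ i j, i ≠ j ∧ ∃ t : ℝ, t ^ 2 = 1 / 2 ∧ a' = t • (w i - w j))
    (m : a ∈ G.D g l ⊔ G.D g (l + 1)) (n1 : a ∉ G.D g l)
    (m' : a' ∈ G.D g (l + 1) ⊔ G.D g (l + 2)) (n1' : a' ∉ G.D g (l + 1))
    (n2' : a' ∉ G.D g (l + 2)) : ⟪a, a'⟫ ^ 2 = (1 / 4 : ℝ) := by
  have l1 := hW.line g (l + 1) (by omega) (by omega)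
  have p01 := FOI.PL.D_perp G g (i := l) (j := l + 1) (by omega)
  have p02 := FOI.PL.D_perp G g (i := l) (j := l + 2) (by omega)
  have p12 := FOI.PL.D_perp G g (i := l + 1) (j := l + 2) (by omega)
  obtain ⟨x, hx, y, hy, hxy⟩ := Submodule.mem_sup.1 m
  obtain ⟨x', hx', y', hy', hxy'⟩ := Submodule.mem_sup.1 m'
  have hy0 : y ≠ 0 := by
    rintro rfl
    rw [add_zero] at hxy
    exact n1 (hxy ▸ hx)
  have hx0 : x' ≠ 0 := by
    rintro rfl
    rw [zero_add] at hxy'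
    exact n2' (hxy' ▸ hy')
  have z1 : ⟪x, x'⟫ = (0 : ℝ) := by
    rw [real_inner_comm]
    exact (Submodule.mem_orthogonal _ _).1 (p01 hx) x' hx'
  have z2 : ⟪x, y'⟫ = (0 : ℝ) := by
    rw [real_inner_comm]
    exact (Submodule.mem_orthogonal _ _).1 (p02 hx) y' hy'
  have z3 : ⟪y, y'⟫ = (0 : ℝ) := by
    rw [real_inner_comm]
    exact (Submodule.mem_orthogonal _ _).1 (p12 hy) y' hy'
  -- not orthogonal
  have hne : ⟪a, a'⟫ ≠ (0 : ℝ) := by
    obtain ⟨c, hc⟩ := line_span l1 hy hy0 hx'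
    have hc0 : c ≠ 0 := by
      rintro rfl
      rw [zero_smul] at hc
      exact hx0 hc
    rw [← hxy, ← hxy', inner_add_left, inner_add_right, inner_add_right, z1, z2, z3, hc,
      inner_smul_right, real_inner_self_eq_norm_sq]
    have : ‖y‖ ^ 2 ≠ 0 := pow_ne_zero 2 (norm_ne_zero_iff.2 hy0)
    simp only [zero_add, add_zero]
    exact mul_ne_zero hc0 this
  -- not parallel
  have hnp : ⟪a, a'⟫ ^ 2 ≠ (1 : ℝ) := by
    intro h1
    have h2 : a' = ⟪a, a'⟫ • a := by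
      have h3 : ‖a' - ⟪a, a'⟫ • a‖ ^ 2 = 0 := by
        rw [norm_sub_sq_real, norm_smul, ha1, ha1', inner_smul_right, real_inner_comm a a',
          Real.norm_eq_abs, mul_one, sq_abs]
        linarith [sq ⟪a, a'⟫]
      have h4 : a' - ⟪a, a'⟫ • a = 0 := by simpa using h3
      exact sub_eq_zero.1 h4
    have h3 : a' ∈ G.D g l ⊔ G.D g (l + 1) := by
      rw [h2]
      exact Submodule.smul_mem _ _ m
    have h4 : y' ∈ G.D g l ⊔ G.D g (l + 1) := by
      have h5 : y' = a' - x' := by rw [← hxy']; abel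
      rw [h5]
      exact Submodule.sub_mem _ h3 (Submodule.mem_sup_right hx')
    have h5 : y' = 0 := by
      have h6 := (sup_le p02 p12) h4
      exact inner_self_eq_zero.1 ((Submodule.mem_orthogonal _ _).1 h6 y' hy')
    apply n1'
    rw [← hxy', h5, add_zero]
    exact hx'
  -- the values
  obtain ⟨i, j, hij, t, ht, rfl⟩ := ha
  obtain ⟨i', j', hij', t', ht', rfl⟩ := ha'
  have hite : ∀ i j, ⟪w i, w j⟫ = if i = j then (1 : ℝ) else 0 := orthonormal_iff_ite.1 hw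
  have e1 : ⟪t • (w i - w j), t' • (w i' - w j')⟫ = t * t' * ((if i = i' then (1 : ℝ) else 0) -
      (if i = j' then (1 : ℝ) else 0) - ((if j = i' then (1 : ℝ) else 0) -
      (if j = j' then (1 : ℝ) else 0))) := by
    rw [inner_smul_left, inner_smul_right, inner_sub_left, inner_sub_right, inner_sub_right, hite,
      hite, hite, hite, RCLike.conj_to_real]
    ring
  rw [e1] at hne hnp ⊢
  have e2 : (t * t') ^ 2 = 1 / 4 := by
    rw [mul_pow, ht, ht']
    norm_num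
  have e3 : ∀ x : ℝ, (t * t' * x) ^ 2 = 1 / 4 * x ^ 2 := by
    intro x
    rw [mul_pow, e2]
  rw [e3] at hnp ⊢
  split_ifs at hne hnp ⊢ with q1 q2 q3 q4 <;> first
    | (exfalso; subst_vars; simp_all; done)
    | (norm_num; done)
    | (exfalso; apply hne; norm_num; done)
    | (exfalso; apply hnp; norm_num; done)

end ED

theorem t_ED : M_ED := by
  intro _ d k Γ _ X _ G u q j1 j2 hS g e n w hn hwY hwo hP heD hen hew
  have hW := hS.win
  have huj := hS.huj
  have hj := hS.hj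
  have hjq := hS.hjq
  have hdim : 30 ≤ n := by
    rw [← hn]
    exact hS.dimY g j1 le_rfl (by omega)
  obtain ⟨w', hwo', hwY', hsg⟩ := FOI.ED.signs hwo hwY hP hew
  -- the isometries `κ_l`
  have key : ∀ l κ ε, j1 + 1 ≤ l → l + 2 ≤ j2 → IsKap G g l κ ε →
      ε = 1 ∧ ∃ π : Equiv.Perm (Fin n), ∀ i, κ (w' i) = w' (π i) := by
    intro l κ ε hl1 hl2 hκ
    have hκG : κ ∈ GG G j1 g := by
      refine Subgroup.subset_closure (Or.inl ⟨G.ρ l, ?_, hκ.1.symm⟩)
      exact ⟨hS.rho l (by omega) (by omega), G.ρ_mem_up (by omega)⟩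
    have hκe : κ e = e := hκ.2.fix e (G.V_mono g hl1 (G.D_le_V g j1 heD))
    obtain ⟨π, hπ⟩ := hsg κ hκG hκe
    refine ⟨?_, π, hπ⟩
    rcases hκ.2.sgn with h1 | h1
    · exact h1
    · exfalso
      have hK : IsK G g l κ (-1) := h1 ▸ hκ.2
      have hmem : ∀ i, w' i + w' (π i) ∈ G.V g (j1 + (l + 2 - j1)) ⊓ G.U g j1 := by
        intro i
        have e1 : j1 + (l + 2 - j1) = l + 2 := by omega
        rw [e1]
        refine ⟨FOI.ED.mem_V_of_fix G hK ?_, ?_⟩
        · rw [← hπ, map_add, hK.inv, add_comm]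
        · exact G.Y_le_U g j1 (Submodule.add_mem _ (hwY' i) (hwY' (π i)))
      have h2 := FOI.ED.count hwo' π _ hmem
      have h3 := ED.finrank_VU G hW g huj (l + 2 - j1) (by omega)
      have h4 : (n : ℝ) ≤ 2 * ((l + 2 - j1 : ℕ) : ℝ) := by
        refine h2.trans ?_
        have : (Module.finrank ℝ ↥(G.V g (j1 + (l + 2 - j1)) ⊓ G.U g j1) : ℝ) ≤
          ((l + 2 - j1 : ℕ) : ℝ) := by exact_mod_cast h3
        linarith
      have h5 : n ≤ 2 * (l + 2 - j1) := by exact_mod_cast h4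
      omega
  refine ⟨?_, ?_⟩
  · intro l hl1 hl2
    obtain ⟨ε, hκ⟩ := hS.kap g l (by omega) hl2
    obtain ⟨rfl, -⟩ := key l _ ε hl1 hl2 ⟨rfl, hκ⟩
    obtain ⟨a, h1, h2, h3, h4, h5⟩ := ED.root_of_IsK G hW (by omega) (by omega) hκ
    exact ⟨a, h1, h2, h3, h4, h5⟩
  · intro l a a' hl1 hl2 ha ha'
    have form : ∀ l a, j1 + 1 ≤ l → l + 2 ≤ j2 → RootAt G g l a →
        ∃ i j, i ≠ j ∧ ∃ t : ℝ, t ^ 2 = 1 / 2 ∧ a = t • (w' i - w' j) := by
      intro l a hl1 hl2 ha
      obtain ⟨ε, hκ⟩ := hS.kap g l (by omega) hl2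
      obtain ⟨-, π, hπ⟩ := key l _ ε hl1 hl2 ⟨rfl, hκ⟩
      have haY : a ∈ G.Y g j1 := by
        have h1 := hS.D g j1 le_rfl (by omega) l (by omega) (by omega)
        have h2 := hS.D g j1 le_rfl (by omega) (l + 1) (by omega) (by omega)
        exact (sup_le h1 h2) ha.mem
      apply FOI.ED.root_form hwo' hwY' hn ha.norm haY
      intro i
      exact ⟨π i, by rw [← ha.act, hπ]⟩
    exact ED.consec G hW (by omega) (by omega) hwo' ha.norm ha'.norm (form l a hl1 (by omega) ha)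
      (form (l + 1) a' (by omega) (by omega) ha') ha.mem ha.n1 ha'.mem ha'.n1 ha'.n2

end FOL
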