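import Pool.Agent.FOL.NStmts

/-!
# 7.1: case (II), the signs are `1` from the third index on

A changed copy of `FOI/EP.lean`. In the frame `g` there are unit vectors `e l ∈ D_l`, and
`κ_l = R g (ρ l)` exchanges `e l` and `e (l + 1)`. It fixes `V_l` and acts as `ε_l = ± 1` on
`U_{l+2}`.

* `(ρ_l ρ_{l+1})^3` shows that `ε_{l+1} = 1` if `ε_l = 1` (`step`);
* an element of `⟨ρ_l, ρ_{l+1}, ρ_{l+2}⟩` that changes only the sign of `e (l + 3)` shows that three
  consecutive signs are not all `-1` (`three`).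
-/

namespace FOL

open Lib_helper64.FO FO2 FOK FOI
open scoped RealInnerProductSpace Nat

set_option linter.unusedSimpArgs false

noncomputable section

namespace EP

variable {d k : ℕ} {Γ : Type} [Group Γ] {X : Type} [MulAction Γ X] {G : AGeo d k Γ X}

/-- `w` is in `N`, and it acts as the isometry `A` in the frame `g` -/
def Rep (G : AGeo d k Γ X) (j1 : ℕ) (g w : Γ) (A : E d ≃ₗᵢ[ℝ] E d) : Prop :=
  w ∈ G.Ni j1 ∧ G.R g w = A

theorem Rep.mul {j1 : ℕ} {g w w' : Γ} {A A' : E d ≃ₗᵢ[ℝ] E d} (h : Rep G j1 g w A)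
    (h' : Rep G j1 g w' A') : Rep G j1 g (w * w') (A * A') := by
  refine ⟨mul_mem h.1 h'.1, ?_⟩
  rw [G.R_mul g (G.Ni_le_N _ h.1) (G.Ni_le_N _ h'.1), h.2, h'.2]

theorem Rep.pow {j1 : ℕ} {g w : Γ} {A : E d ≃ₗᵢ[ℝ] E d} (h : Rep G j1 g w A) (n : ℕ) :
    Rep G j1 g (w ^ (n + 1)) (A ^ (n + 1)) := by
  induction n with
  | zero => simpa using h
  | succ n ih => rw [pow_succ w, pow_succ A]; exact ih.mul h

/-- an element of a middle group that fixes enough of the base face acts trivially -/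
theorem fix_S {j1 l b c : ℕ} {g w : Γ} {A : E d ≃ₗᵢ[ℝ] E d} (h : Rep G j1 g w A) (h1 : 1 ≤ j1)
    (hw : w ∈ G.mid l b) (hb : b ≤ c + 1) (hl : l ≤ c + 1)
    (hA : ∀ v ∈ G.V g (c + 1), A v = v) (v : E d) : A v = v := by
  have h1 : w ∈ G.up (c + 1) := by
    refine G.mem_up_of_R' (g := g) (G.Ni_le_N _ h.1) (G.Ni_fix h1 h.1) fun v hv => ?_
    rw [h.2]
    exact hA v hv
  have h2 : w = 1 := G.mid_eq_bot hb (G.mid_inf_up hw h1 hl)
  subst h2
  rw [← h.2, G.R_one]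
  rfl

/-- a line is spanned by any of its nonzero vectors -/
theorem mul_of_line {P : Submodule ℝ (E d)} (hP : Module.finrank ℝ P = 1) {e : E d} (he : e ∈ P)
    (he0 : e ≠ 0) {v : E d} (hv : v ∈ P) : ∃ c : ℝ, v = c • e := by
  have h1 : (⟨e, he⟩ : P) ≠ 0 := fun h => he0 (congrArg Subtype.val h)
  obtain ⟨c, hc⟩ := (finrank_eq_one_iff_of_nonzero' (⟨e, he⟩ : P) h1).1 hP ⟨v, hv⟩
  exact ⟨c, (congrArg Subtype.val hc).symm⟩

theorem eq_zero_of_neg {w : E d} (h : -w = w) : w = 0 := by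
  have h2 : (2 : ℝ) • w = 0 := by
    rw [two_smul]
    nth_rewrite 1 [← h]
    exact neg_add_cancel w
  exact (smul_eq_zero.1 h2).resolve_left two_ne_zero

theorem ne_zero_of_norm {e : E d} (h : ‖e‖ = 1) : e ≠ 0 := by
  rintro rfl
  simp at h

/-- the data of case (II) -/
structure Dat (G : AGeo d k Γ X) (u q j1 j2 : ℕ) (g : Γ) (e : ℕ → E d)
    (κ : ℕ → (E d ≃ₗᵢ[ℝ] E d)) (ε : ℕ → ℝ) : Prop where
  sub : Sub G u q j1 j2
  orth : ∀ i j, u ≤ i → i < j → j ≤ q → G.D g i ≤ (G.D g j)ᗮ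
  sum : ∀ i j, u ≤ i → i ≤ j → j ≤ q + 1 → G.V g j = G.V g i ⊔ ⨆ m ∈ Finset.Ico i j, G.D g m
  mem : ∀ l, j1 ≤ l → l + 1 ≤ j2 → e l ∈ G.D g l
  norm : ∀ l, j1 ≤ l → l + 1 ≤ j2 → ‖e l‖ = 1
  kap : ∀ l, j1 ≤ l → l + 2 ≤ j2 → IsKap G g l (κ l) (ε l)
  up : ∀ l, j1 ≤ l → l + 2 ≤ j2 → κ l (e l) = e (l + 1)
  dn : ∀ l, j1 ≤ l → l + 2 ≤ j2 → κ l (e (l + 1)) = e l

namespace Dat

variable {u q j1 j2 : ℕ} {g : Γ} {e : ℕ → E d} {κ : ℕ → (E d ≃ₗᵢ[ℝ] E d)} {ε : ℕ → ℝ}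
  (D : Dat G u q j1 j2 g e κ ε)

include D

theorem q_le : j2 ≤ q := by
  have := D.sub.hjq
  omega

theorem u_le {l : ℕ} (h : j1 ≤ l) : u ≤ l := D.sub.huj.trans h

theorem rep {l : ℕ} (h1 : j1 ≤ l) (h2 : l + 2 ≤ j2) : Rep G j1 g (G.ρ l) (κ l) :=
  ⟨⟨D.sub.rho l h1 (by omega), G.ρ_mem_up h1⟩, (D.kap l h1 h2).1.symm⟩

theorem j1_pos : 1 ≤ j1 := D.sub.win.hu.trans D.sub.huj

theorem mem_V {l : ℕ} (h1 : j1 ≤ l) (h2 : l + 1 ≤ j2) {i : ℕ} (hi : l < i) : e l ∈ G.V g i :=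
  G.V_mono g hi (G.D_le_V g l (D.mem l h1 h2))

theorem mem_U {l : ℕ} (h1 : j1 ≤ l) (h2 : l + 1 ≤ j2) {i : ℕ} (hi : i ≤ l) : e l ∈ G.U g i :=
  G.U_anti g hi (G.D_le_U g l (D.mem l h1 h2))

theorem κ_V {l : ℕ} (h1 : j1 ≤ l) (h2 : l + 2 ≤ j2) {i : ℕ} (hi : i ≤ l) {v : E d}
    (hv : v ∈ G.V g i) : κ l v = v :=
  (D.kap l h1 h2).2.fix v (G.V_mono g hi hv)

theorem κ_U {l : ℕ} (h1 : j1 ≤ l) (h2 : l + 2 ≤ j2) {i : ℕ} (hi : l + 2 ≤ i) {v : E d}
    (hv : v ∈ G.U g i) : κ l v = ε l • v :=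
  (D.kap l h1 h2).2.scal v (G.U_anti g hi hv)

/-- an isometry that fixes `V_l` and the vectors `e l, …, e (j - 1)` fixes `V_j` -/
theorem fix_V {l j : ℕ} (h1 : j1 ≤ l) (hlj : l ≤ j) (hj : j ≤ j2) {A : E d ≃ₗᵢ[ℝ] E d}
    (hA : ∀ v ∈ G.V g l, A v = v) (hA' : ∀ m, l ≤ m → m < j → A (e m) = e m) :
    ∀ v ∈ G.V g j, A v = v := by
  have h2 : G.V g j ≤ LinearMap.eqLocus (A.toLinearEquiv : E d →ₗ[ℝ] E d) LinearMap.id := by
    rw [D.sum l j (D.u_le h1) hlj (by have := D.q_le; omega)]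
    refine sup_le (fun v hv => hA v hv) (iSup_le fun m => iSup_le fun hm => ?_)
    rw [Finset.mem_Ico] at hm
    intro v hv
    have h3 : Module.finrank ℝ (G.D g m) = 1 :=
      D.sub.win.line g m (D.u_le (h1.trans hm.1)) (by have := D.q_le; omega)
    obtain ⟨c, rfl⟩ := mul_of_line h3 (D.mem m (h1.trans hm.1) (by omega))
      (ne_zero_of_norm (D.norm m (h1.trans hm.1) (by omega))) hv
    show A (c • e m) = c • e m
    rw [map_smul, hA' m hm.1 hm.2]
  exact fun v hv => h2 hv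

/-- if `ε_l = 1` then `ε_{l+1} = 1` -/
theorem step {l : ℕ} (h1 : j1 ≤ l) (h2 : l + 3 ≤ j2) (h : ε l = 1) : ε (l + 1) = 1 := by
  rcases (D.kap (l + 1) (by omega) (by omega)).2.sgn with h3 | h3
  · exact h3
  exfalso
  have ha0 : κ l (e l) = e (l + 1) := D.up l h1 (by omega)
  have ha1 : κ l (e (l + 1)) = e l := D.dn l h1 (by omega)
  have ha2 : κ l (e (l + 2)) = e (l + 2) := by
    have := D.κ_U h1 (by omega) (le_refl (l + 2))
      (D.mem_U (l := l + 2) (by omega) (by omega) le_rfl)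
    rw [this, h, one_smul]
  have hb0 : κ (l + 1) (e l) = e l :=
    D.κ_V (by omega) (by omega) (i := l + 1) le_rfl (D.mem_V h1 (by omega) (Nat.lt_succ_self l))
  have hb1 : κ (l + 1) (e (l + 1)) = e (l + 2) := D.up (l + 1) (by omega) (by omega)
  have hb2 : κ (l + 1) (e (l + 2)) = e (l + 1) := D.dn (l + 1) (by omega) (by omega)
  have hR : Rep G j1 g ((G.ρ l * G.ρ (l + 1)) ^ 3) ((κ l * κ (l + 1)) ^ 3) :=
    ((D.rep h1 (by omega)).mul (D.rep (l := l + 1) (by omega) (by omega))).pow 2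
  have happ : ∀ v, ((κ l * κ (l + 1)) ^ 3) v =
      κ l (κ (l + 1) (κ l (κ (l + 1) (κ l (κ (l + 1) v))))) := fun v => rfl
  have hVl : ∀ v ∈ G.V g l, ((κ l * κ (l + 1)) ^ 3) v = v := by
    intro v hv
    have e1 : κ l v = v := D.κ_V h1 (by omega) le_rfl hv
    have e2 : κ (l + 1) v = v := D.κ_V (by omega) (by omega) (Nat.le_succ l) hv
    rw [happ]
    simp only [e1, e2]
  have hV : ∀ v ∈ G.V g (l + 2 + 1), ((κ l * κ (l + 1)) ^ 3) v = v := by
    apply D.fix_V h1 (by omega) (by omega) hVl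
    intro m hm1 hm2
    have hm : m = l ∨ m = l + 1 ∨ m = l + 2 := by omega
    rw [happ]
    rcases hm with rfl | rfl | rfl <;> simp only [ha0, ha1, ha2, hb0, hb1, hb2]
  have hmid : (G.ρ l * G.ρ (l + 1)) ^ 3 ∈ G.mid l (l + 2) :=
    pow_mem (mul_mem (G.ρ_mem_mid le_rfl (by omega)) (G.ρ_mem_mid (by omega) (by omega))) 3
  have hline : Module.finrank ℝ (G.D g (l + 3)) = 1 :=
    D.sub.win.line g (l + 3) (D.u_le (by omega)) (by have := D.q_le; omega)
  have hne : G.D g (l + 3) ≠ ⊥ := by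
    intro h0
    rw [h0, finrank_bot] at hline
    exact zero_ne_one hline
  obtain ⟨w, hw, hw0⟩ := Submodule.exists_mem_ne_zero_of_ne_bot hne
  have h5 : ((κ l * κ (l + 1)) ^ 3) w = w :=
    fix_S (c := l + 2) hR D.j1_pos hmid (by omega) (by omega) hV w
  have hwU : w ∈ G.U g (l + 3) := G.D_le_U g _ hw
  have e1 : κ l w = w := by
    rw [D.κ_U h1 (by omega) (by omega) hwU, h, one_smul]
  have e2 : κ (l + 1) w = -w := by
    rw [D.κ_U (by omega) (by omega) (le_refl _) hwU, h3, neg_one_smul]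
  rw [happ] at h5
  simp only [e1, e2, map_neg, neg_neg] at h5
  exact hw0 (eq_zero_of_neg h5)

/-- three consecutive signs are not all `-1` -/
theorem three {l : ℕ} (h1 : j1 ≤ l) (h2 : l + 4 ≤ j2) (h3 : ε l = -1) (h4 : ε (l + 1) = -1)
    (h5 : ε (l + 2) = -1) : False := by
  have ha0 : κ l (e l) = e (l + 1) := D.up l h1 (by omega)
  have ha1 : κ l (e (l + 1)) = e l := D.dn l h1 (by omega)
  have ha2 : κ l (e (l + 2)) = -e (l + 2) := by
    rw [D.κ_U h1 (by omega) (le_refl (l + 2)) (D.mem_U (l := l + 2) (by omega) (by omega) le_rfl),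
      h3, neg_one_smul]
  have ha3 : κ l (e (l + 3)) = -e (l + 3) := by
    rw [D.κ_U h1 (by omega) (i := l + 3) (by omega)
      (D.mem_U (l := l + 3) (by omega) (by omega) le_rfl), h3, neg_one_smul]
  have hb0 : κ (l + 1) (e l) = e l :=
    D.κ_V (by omega) (by omega) (i := l + 1) le_rfl (D.mem_V h1 (by omega) (Nat.lt_succ_self l))
  have hb1 : κ (l + 1) (e (l + 1)) = e (l + 2) := D.up (l + 1) (by omega) (by omega)
  have hb2 : κ (l + 1) (e (l + 2)) = e (l + 1) := D.dn (l + 1) (by omega) (by omega)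
  have hb3 : κ (l + 1) (e (l + 3)) = -e (l + 3) := by
    rw [D.κ_U (l := l + 1) (by omega) (by omega) (i := l + 3) (by omega)
      (D.mem_U (l := l + 3) (by omega) (by omega) le_rfl), h4, neg_one_smul]
  have hc0 : κ (l + 2) (e l) = e l :=
    D.κ_V (l := l + 2) (by omega) (by omega) (i := l + 1) (by omega)
      (D.mem_V h1 (by omega) (Nat.lt_succ_self l))
  have hc1 : κ (l + 2) (e (l + 1)) = e (l + 1) :=
    D.κ_V (l := l + 2) (by omega) (by omega) (i := l + 2) le_rfl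
      (D.mem_V (l := l + 1) (by omega) (by omega) (Nat.lt_succ_self _))
  have hc2 : κ (l + 2) (e (l + 2)) = e (l + 3) := D.up (l + 2) (by omega) (by omega)
  have hc3 : κ (l + 2) (e (l + 3)) = e (l + 2) := D.dn (l + 2) (by omega) (by omega)
  have Ra : Rep G j1 g (G.ρ l) (κ l) := D.rep h1 (by omega)
  have Rb : Rep G j1 g (G.ρ (l + 1)) (κ (l + 1)) := D.rep (by omega) (by omega)
  have Rc : Rep G j1 g (G.ρ (l + 2)) (κ (l + 2)) := D.rep (by omega) (by omega)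
  have Ma : G.ρ l ∈ G.mid l (l + 3) := G.ρ_mem_mid le_rfl (by omega)
  have Mb : G.ρ (l + 1) ∈ G.mid l (l + 3) := G.ρ_mem_mid (by omega) (by omega)
  have Mc : G.ρ (l + 2) ∈ G.mid l (l + 3) := G.ρ_mem_mid (by omega) (by omega)
  generalize hr0 : G.ρ l = r0 at Ra Ma
  generalize hr1 : G.ρ (l + 1) = r1 at Rb Mb
  generalize hr2 : G.ρ (l + 2) = r2 at Rc Mc
  have VA : ∀ v ∈ G.V g l, κ l v = v := fun v hv => D.κ_V h1 (by omega) le_rfl hv
  have VB : ∀ v ∈ G.V g l, κ (l + 1) v = v :=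
    fun v hv => D.κ_V (l := l + 1) (by omega) (by omega) (by omega) hv
  have VC : ∀ v ∈ G.V g l, κ (l + 2) v = v :=
    fun v hv => D.κ_V (l := l + 2) (by omega) (by omega) (by omega) hv
  generalize ha : κ l = a at *
  generalize hb : κ (l + 1) = b at *
  generalize hc : κ (l + 2) = c at *
  -- the first four elements
  obtain ⟨w1, hw1⟩ : ∃ w1, w1 = (r0 * r1) ^ 3 := ⟨_, rfl⟩
  obtain ⟨A1, hA1⟩ : ∃ A1, A1 = (a * b) ^ 3 := ⟨_, rfl⟩
  have R1 : Rep G j1 g w1 A1 := by rw [hw1, hA1]; exact (Ra.mul Rb).pow 2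
  have M1 : w1 ∈ G.mid l (l + 3) := by rw [hw1]; exact pow_mem (mul_mem Ma Mb) 3
  have happ1 : ∀ v, A1 v = a (b (a (b (a (b v))))) := fun v => by rw [hA1]; rfl
  obtain ⟨w2, hw2⟩ : ∃ w2, w2 = (r1 * r2) ^ 3 := ⟨_, rfl⟩
  obtain ⟨A2, hA2⟩ : ∃ A2, A2 = (b * c) ^ 3 := ⟨_, rfl⟩
  have R2 : Rep G j1 g w2 A2 := by rw [hw2, hA2]; exact (Rb.mul Rc).pow 2
  have M2 : w2 ∈ G.mid l (l + 3) := by rw [hw2]; exact pow_mem (mul_mem Mb Mc) 3
  have happ2 : ∀ v, A2 v = b (c (b (c (b (c v))))) := fun v => by rw [hA2]; rfl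
  have s10 : A1 (e l) = -e l := by
    rw [happ1]; simp only [ha0, ha1, ha2, ha3, hb0, hb1, hb2, hb3, map_neg, neg_neg]
  have s11 : A1 (e (l + 1)) = -e (l + 1) := by
    rw [happ1]; simp only [ha0, ha1, ha2, ha3, hb0, hb1, hb2, hb3, map_neg, neg_neg]
  have s12 : A1 (e (l + 2)) = -e (l + 2) := by
    rw [happ1]; simp only [ha0, ha1, ha2, ha3, hb0, hb1, hb2, hb3, map_neg, neg_neg]
  have s13 : A1 (e (l + 3)) = e (l + 3) := by
    rw [happ1]; simp only [ha0, ha1, ha2, ha3, hb0, hb1, hb2, hb3, map_neg, neg_neg]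
  have s20 : A2 (e l) = e l := by
    rw [happ2]; simp only [hc0, hc1, hc2, hc3, hb0, hb1, hb2, hb3, map_neg, neg_neg]
  have s21 : A2 (e (l + 1)) = -e (l + 1) := by
    rw [happ2]; simp only [hc0, hc1, hc2, hc3, hb0, hb1, hb2, hb3, map_neg, neg_neg]
  have s22 : A2 (e (l + 2)) = -e (l + 2) := by
    rw [happ2]; simp only [hc0, hc1, hc2, hc3, hb0, hb1, hb2, hb3, map_neg, neg_neg]
  have s23 : A2 (e (l + 3)) = -e (l + 3) := by
    rw [happ2]; simp only [hc0, hc1, hc2, hc3, hb0, hb1, hb2, hb3, map_neg, neg_neg]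
  have sv1 : ∀ v ∈ G.V g l, A1 v = v := fun v hv => by
    rw [happ1]; simp only [VA v hv, VB v hv]
  have sv2 : ∀ v ∈ G.V g l, A2 v = v := fun v hv => by
    rw [happ2]; simp only [VB v hv, VC v hv]
  -- the element `w3 = w1 w2`
  obtain ⟨w3, hw3⟩ : ∃ w3, w3 = w1 * w2 := ⟨_, rfl⟩
  obtain ⟨A3, hA3⟩ : ∃ A3, A3 = A1 * A2 := ⟨_, rfl⟩
  have R3 : Rep G j1 g w3 A3 := by rw [hw3, hA3]; exact R1.mul R2
  have M3 : w3 ∈ G.mid l (l + 3) := by rw [hw3]; exact mul_mem M1 M2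
  have happ3 : ∀ v, A3 v = A1 (A2 v) := fun v => by rw [hA3]; rfl
  have s30 : A3 (e l) = -e l := by rw [happ3, s20, s10]
  have s31 : A3 (e (l + 1)) = e (l + 1) := by rw [happ3, s21, map_neg, s11, neg_neg]
  have s32 : A3 (e (l + 2)) = e (l + 2) := by rw [happ3, s22, map_neg, s12, neg_neg]
  have s33 : A3 (e (l + 3)) = -e (l + 3) := by rw [happ3, s23, map_neg, s13]
  have sv3 : ∀ v ∈ G.V g l, A3 v = v := fun v hv => by rw [happ3, sv2 v hv, sv1 v hv]
  -- the element `w4 = r0 w3 r0`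
  obtain ⟨w4, hw4⟩ : ∃ w4, w4 = r0 * (w3 * r0) := ⟨_, rfl⟩
  obtain ⟨A4, hA4⟩ : ∃ A4, A4 = a * (A3 * a) := ⟨_, rfl⟩
  have R4 : Rep G j1 g w4 A4 := by rw [hw4, hA4]; exact Ra.mul (R3.mul Ra)
  have M4 : w4 ∈ G.mid l (l + 3) := by rw [hw4]; exact mul_mem Ma (mul_mem M3 Ma)
  have happ4 : ∀ v, A4 v = a (A3 (a v)) := fun v => by rw [hA4]; rfl
  have s40 : A4 (e l) = e l := by rw [happ4, ha0, s31, ha1]
  have s41 : A4 (e (l + 1)) = -e (l + 1) := by rw [happ4, ha1, s30, map_neg, ha0]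
  have s42 : A4 (e (l + 2)) = e (l + 2) := by rw [happ4, ha2, map_neg, s32, map_neg, ha2, neg_neg]
  have s43 : A4 (e (l + 3)) = -e (l + 3) := by
    rw [happ4, ha3, map_neg, s33, neg_neg, ha3]
  have sv4 : ∀ v ∈ G.V g l, A4 v = v := fun v hv => by rw [happ4, VA v hv, sv3 v hv, VA v hv]
  -- the element `w5 = r1 w4 r1`
  obtain ⟨w5, hw5⟩ : ∃ w5, w5 = r1 * (w4 * r1) := ⟨_, rfl⟩
  obtain ⟨A5, hA5⟩ : ∃ A5, A5 = b * (A4 * b) := ⟨_, rfl⟩
  have R5 : Rep G j1 g w5 A5 := by rw [hw5, hA5]; exact Rb.mul (R4.mul Rb)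
  have M5 : w5 ∈ G.mid l (l + 3) := by rw [hw5]; exact mul_mem Mb (mul_mem M4 Mb)
  have happ5 : ∀ v, A5 v = b (A4 (b v)) := fun v => by rw [hA5]; rfl
  have s50 : A5 (e l) = e l := by rw [happ5, hb0, s40, hb0]
  have s51 : A5 (e (l + 1)) = e (l + 1) := by rw [happ5, hb1, s42, hb2]
  have s52 : A5 (e (l + 2)) = -e (l + 2) := by rw [happ5, hb2, s41, map_neg, hb1]
  have s53 : A5 (e (l + 3)) = -e (l + 3) := by
    rw [happ5, hb3, map_neg, s43, neg_neg, hb3]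
  have sv5 : ∀ v ∈ G.V g l, A5 v = v := fun v hv => by rw [happ5, VB v hv, sv4 v hv, VB v hv]
  -- the product
  have R6 : Rep G j1 g (w1 * (w3 * (w4 * w5))) (A1 * (A3 * (A4 * A5))) :=
    R1.mul (R3.mul (R4.mul R5))
  have M6 : w1 * (w3 * (w4 * w5)) ∈ G.mid l (l + 3) := mul_mem M1 (mul_mem M3 (mul_mem M4 M5))
  have happ6 : ∀ v, (A1 * (A3 * (A4 * A5))) v = A1 (A3 (A4 (A5 v))) := fun v => rfl
  have hV : ∀ v ∈ G.V g (l + 2 + 1), (A1 * (A3 * (A4 * A5))) v = v := by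
    apply D.fix_V h1 (by omega) (by omega)
    · intro v hv
      rw [happ6, sv5 v hv, sv4 v hv, sv3 v hv, sv1 v hv]
    intro m hm1 hm2
    have hm : m = l ∨ m = l + 1 ∨ m = l + 2 := by omega
    rw [happ6]
    rcases hm with rfl | rfl | rfl
    · rw [s50, s40, s30, map_neg, s10, neg_neg]
    · rw [s51, s41, map_neg, s31, map_neg, s11, neg_neg]
    · rw [s52, map_neg, s42, map_neg, s32, map_neg, s12, neg_neg]
  have h6 : (A1 * (A3 * (A4 * A5))) (e (l + 3)) = e (l + 3) :=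
    fix_S (c := l + 2) R6 D.j1_pos M6 (by omega) (by omega) hV _
  rw [happ6, s53, map_neg, s43, neg_neg, s33, map_neg, s13] at h6
  exact ne_zero_of_norm (D.norm (l + 3) (by omega) (by omega)) (eq_zero_of_neg h6)

/-- all signs are `1` from `j1 + 2` on -/
theorem sign {l : ℕ} (h1 : j1 + 2 ≤ l) (h2 : l + 2 ≤ j2) : ε l = 1 := by
  have h3 : ε (j1 + 2) = 1 := by
    have hk := D.sub.hj
    rcases (D.kap j1 le_rfl (by omega)).2.sgn with h3 | h3
    · exact D.step (l := j1 + 1) (by omega) (by omega) (D.step le_rfl (by omega) h3)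
    rcases (D.kap (j1 + 1) (by omega) (by omega)).2.sgn with h4 | h4
    · exact D.step (l := j1 + 1) (by omega) (by omega) h4
    rcases (D.kap (j1 + 2) (by omega) (by omega)).2.sgn with h5 | h5
    · exact h5
    exact (D.three le_rfl (by omega) h3 h4 h5).elim
  induction l, h1 using Nat.le_induction with
  | base => exact h3
  | succ n hn ih => exact D.step (by omega) (by omega) (ih (by omega))

theorem inner_succ {l : ℕ} (h1 : j1 ≤ l) (h2 : l + 2 ≤ j2) : ⟪e l, e (l + 1)⟫ = (0 : ℝ) := by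
  have h3 := D.orth l (l + 1) (D.u_le h1) (Nat.lt_succ_self l) (by have := D.q_le; omega)
    (D.mem l h1 (by omega))
  rw [Submodule.mem_orthogonal] at h3
  have h4 := h3 _ (D.mem (l + 1) (by omega) (by omega))
  rwa [real_inner_comm] at h4

theorem inner_succ_succ {l : ℕ} (h1 : j1 ≤ l) (h2 : l + 3 ≤ j2) :
    ⟪e l, e (l + 2)⟫ = (0 : ℝ) := by
  have h3 := D.orth l (l + 2) (D.u_le h1) (by omega) (by have := D.q_le; omega)
    (D.mem l h1 (by omega))
  rw [Submodule.mem_orthogonal] at h3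
  have h4 := h3 _ (D.mem (l + 2) (by omega) (by omega))
  rwa [real_inner_comm] at h4

theorem inner_self {l : ℕ} (h1 : j1 ≤ l) (h2 : l + 1 ≤ j2) : ⟪e l, e l⟫ = (1 : ℝ) := by
  rw [real_inner_self_eq_norm_sq, D.norm l h1 h2, one_pow]

/-- the root -/
theorem root {l : ℕ} (h1 : j1 + 2 ≤ l) (h2 : l + 2 ≤ j2) : ∃ a, RootAt G g l a := by
  have hs : ε l = 1 := D.sign h1 h2
  have h00 : ⟪e l, e l⟫ = (1 : ℝ) := D.inner_self (by omega) (by omega)
  have h11 : ⟪e (l + 1), e (l + 1)⟫ = (1 : ℝ) := D.inner_self (by omega) (by omega)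
  have h01 : ⟪e l, e (l + 1)⟫ = (0 : ℝ) := D.inner_succ (by omega) h2
  have h10 : ⟪e (l + 1), e l⟫ = (0 : ℝ) := by rw [real_inner_comm, h01]
  have m0 : e l ∈ G.D g l := D.mem l (by omega) (by omega)
  have m1 : e (l + 1) ∈ G.D g (l + 1) := D.mem (l + 1) (by omega) (by omega)
  have hsq : (1 / √2 : ℝ) * (1 / √2) = 1 / 2 := by
    rw [div_mul_div_comm, Real.mul_self_sqrt (by norm_num)]
    norm_num
  have hpos : (0 : ℝ) < 1 / √2 := by positivity
  obtain ⟨t, ht⟩ : ∃ t : ℝ, t = 1 / √2 := ⟨_, rfl⟩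
  rw [← ht] at hsq hpos
  have horth : G.D g l ≤ (G.D g (l + 1))ᗮ :=
    D.orth l (l + 1) (D.u_le (by omega)) (Nat.lt_succ_self l) (by have := D.q_le; omega)
  refine ⟨t • (e l - e (l + 1)), ?_, ?_, ?_, ?_, ?_⟩
  · have h3 : ‖t • (e l - e (l + 1))‖ ^ 2 = 1 := by
      rw [← real_inner_self_eq_norm_sq, real_inner_smul_left, real_inner_smul_right,
        inner_sub_left, inner_sub_right, inner_sub_right, h00, h01, h10, h11, ← mul_assoc, hsq]
      norm_num
    have h4 : (0 : ℝ) ≤ ‖t • (e l - e (l + 1))‖ := norm_nonneg _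
    nlinarith
  · exact Submodule.smul_mem _ _ (sub_mem (Submodule.mem_sup_left m0) (Submodule.mem_sup_right m1))
  · intro h3
    have h4 : ⟪e (l + 1), t • (e l - e (l + 1))⟫ = (0 : ℝ) :=
      (Submodule.mem_orthogonal _ _).1 (horth h3) _ m1
    rw [real_inner_smul_right, inner_sub_right, h10, h11] at h4
    linarith
  · intro h3
    have h4 : ⟪t • (e l - e (l + 1)), e l⟫ = (0 : ℝ) :=
      (Submodule.mem_orthogonal _ _).1 (horth m0) _ h3
    rw [real_inner_smul_left, inner_sub_left, h00, h10] at h4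
    linarith
  · rw [← (D.kap l (by omega) h2).1]
    -- `κ l` is the reflection on the whole space
    have key : ∀ v : E d, κ l v = sref (t • (e l - e (l + 1))) v := by
      have hVl : ∀ v ∈ G.V g l, κ l v = sref (t • (e l - e (l + 1))) v := by
        intro v hv
        have a0 : ⟪e l, v⟫ = (0 : ℝ) := by
          have := (Submodule.mem_orthogonal _ _).1 (D.mem_U (l := l) (by omega) (by omega)
            (le_refl l)) v hv
          rwa [real_inner_comm] at this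
        have a1 : ⟪e (l + 1), v⟫ = (0 : ℝ) := by
          have := (Submodule.mem_orthogonal _ _).1 (D.mem_U (l := l + 1) (by omega) (by omega)
            (i := l) (by omega)) v hv
          rwa [real_inner_comm] at this
        rw [D.κ_V (by omega) h2 le_rfl hv, sref, real_inner_smul_left, inner_sub_left, a0, a1]
        simp
      have hU : ∀ v ∈ G.U g (l + 2), κ l v = sref (t • (e l - e (l + 1))) v := by
        intro v hv
        have a0 : ⟪e l, v⟫ = (0 : ℝ) :=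
          (Submodule.mem_orthogonal _ _).1 hv _ (D.mem_V (l := l) (by omega) (by omega) (by omega))
        have a1 : ⟪e (l + 1), v⟫ = (0 : ℝ) :=
          (Submodule.mem_orthogonal _ _).1 hv _
            (D.mem_V (l := l + 1) (by omega) (by omega) (by omega))
        rw [D.κ_U (by omega) h2 le_rfl hv, hs, sref, real_inner_smul_left, inner_sub_left, a0, a1]
        simp
      have h0 : κ l (e l) = sref (t • (e l - e (l + 1))) (e l) := by
        rw [D.up l (by omega) h2, sref, real_inner_smul_left, inner_sub_left, h00, h10, smul_smul]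
        have : 2 * (t * (1 - 0)) * t = 1 := by nlinarith
        rw [this, one_smul]
        abel
      have h1' : κ l (e (l + 1)) = sref (t • (e l - e (l + 1))) (e (l + 1)) := by
        rw [D.dn l (by omega) h2, sref, real_inner_smul_left, inner_sub_left, h01, h11, smul_smul]
        have : 2 * (t * (0 - 1)) * t = -1 := by nlinarith
        rw [this, neg_one_smul]
        abel
      have hD : ∀ m, m = l ∨ m = l + 1 → ∀ v ∈ G.D g m,
          κ l v = sref (t • (e l - e (l + 1))) v := by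
        intro m hm v hv
        have h3 : Module.finrank ℝ (G.D g m) = 1 :=
          D.sub.win.line g m (D.u_le (by omega)) (by have := D.q_le; omega)
        obtain ⟨c, rfl⟩ := mul_of_line h3 (D.mem m (by omega) (by omega))
          (ne_zero_of_norm (D.norm m (by omega) (by omega))) hv
        rcases hm with rfl | rfl
        · rw [map_smul, sref_smul, h0]
        · rw [map_smul, sref_smul, h1']
      have hV : ∀ v ∈ G.V g (l + 2), κ l v = sref (t • (e l - e (l + 1))) v := by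
        intro v hv
        rw [D.sum l (l + 2) (D.u_le (by omega)) (by omega) (by have := D.q_le; omega)] at hv
        have hle : G.V g l ⊔ ⨆ m ∈ Finset.Ico l (l + 2), G.D g m ≤
            G.V g l ⊔ (G.D g l ⊔ G.D g (l + 1)) := by
          refine sup_le_sup le_rfl (iSup_le fun m => iSup_le fun hm => ?_)
          rw [Finset.mem_Ico] at hm
          have : m = l ∨ m = l + 1 := by omega
          rcases this with rfl | rfl
          · exact le_sup_left
          · exact le_sup_right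
        obtain ⟨x, hx, y', hy', rfl⟩ := Submodule.mem_sup.1 (hle hv)
        obtain ⟨z, hz, z', hz', rfl⟩ := Submodule.mem_sup.1 hy'
        rw [map_add, map_add, sref_add, sref_add, hVl x hx, hD l (Or.inl rfl) z hz,
          hD (l + 1) (Or.inr rfl) z' hz']
      intro v
      have htop : v ∈ G.V g (l + 2) ⊔ G.U g (l + 2) := by
        rw [AGeo.U, Submodule.sup_orthogonal_of_hasOrthogonalProjection]
        trivial
      obtain ⟨x, hx, y', hy', rfl⟩ := Submodule.mem_sup.1 htop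
      rw [map_add, sref_add, hV x hx, hU y' hy']
    exact key

/-- the root is unique up to the sign -/
theorem uniq {l : ℕ} (h1 : j1 ≤ l) (h2 : l + 2 ≤ j2) {a : E d} (ha : RootAt G g l a) :
    ∃ s : ℝ, s ^ 2 = 2 ∧ s • a = e l - e (l + 1) := by
  have h3 : ∀ v, κ l v = sref a v := by
    intro v
    rw [(D.kap l h1 h2).1]
    exact ha.act v
  have h4 := h3 (e l)
  rw [D.up l h1 h2, sref] at h4
  refine ⟨2 * ⟪a, e l⟫, ?_, ?_⟩
  · have h5 : (2 * ⟪a, e l⟫ : ℝ) • a = e l - e (l + 1) := by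
      rw [h4]; abel
    have h6 : ⟪(2 * ⟪a, e l⟫ : ℝ) • a, (2 * ⟪a, e l⟫ : ℝ) • a⟫ =
        ⟪e l - e (l + 1), e l - e (l + 1)⟫ := by rw [h5]
    have h00 : ⟪e l, e l⟫ = (1 : ℝ) := D.inner_self (by omega) (by omega)
    have h11 : ⟪e (l + 1), e (l + 1)⟫ = (1 : ℝ) := D.inner_self (by omega) (by omega)
    have h01 : ⟪e l, e (l + 1)⟫ = (0 : ℝ) := D.inner_succ (by omega) h2
    have h10 : ⟪e (l + 1), e l⟫ = (0 : ℝ) := by rw [real_inner_comm, h01]
    have haa : ⟪a, a⟫ = (1 : ℝ) := by rw [real_inner_self_eq_norm_sq, ha.norm, one_pow]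
    rw [real_inner_smul_left, real_inner_smul_right, haa, inner_sub_left, inner_sub_right,
      inner_sub_right, h00, h01, h10, h11] at h6
    nlinarith
  · rw [h4]; abel

theorem adj {l : ℕ} (h1 : j1 ≤ l) (h2 : l + 3 ≤ j2) {a a' : E d} (ha : RootAt G g l a)
    (ha' : RootAt G g (l + 1) a') : ⟪a, a'⟫ ^ 2 = (1 / 4 : ℝ) := by
  obtain ⟨s, hs, hsa⟩ := D.uniq h1 (by omega) ha
  obtain ⟨s', hs', hsa'⟩ := D.uniq (l := l + 1) (by omega) (by omega) ha'
  have h11 : ⟪e (l + 1), e (l + 1)⟫ = (1 : ℝ) := D.inner_self (by omega) (by omega)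
  have h01 : ⟪e l, e (l + 1)⟫ = (0 : ℝ) := D.inner_succ h1 (by omega)
  have h12 : ⟪e (l + 1), e (l + 2)⟫ = (0 : ℝ) := D.inner_succ (l := l + 1) (by omega) (by omega)
  have h02 : ⟪e l, e (l + 2)⟫ = (0 : ℝ) := D.inner_succ_succ h1 h2
  have h3 : ⟪s • a, s' • a'⟫ = ⟪e l - e (l + 1), e (l + 1) - e (l + 1 + 1)⟫ := by
    rw [hsa, hsa']
  rw [real_inner_smul_left, real_inner_smul_right, inner_sub_left, inner_sub_right,
    inner_sub_right, h01, h11] at h3
  have h12' : ⟪e (l + 1), e (l + 1 + 1)⟫ = (0 : ℝ) := h12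
  have h02' : ⟪e l, e (l + 1 + 1)⟫ = (0 : ℝ) := h02
  rw [h12', h02'] at h3
  have h4 : (s * (s' * ⟪a, a'⟫)) ^ 2 = 1 := by rw [h3]; norm_num
  have h5 : (s * (s' * ⟪a, a'⟫)) ^ 2 = s ^ 2 * (s' ^ 2 * ⟪a, a'⟫ ^ 2) := by ring
  rw [h5, hs, hs'] at h4
  linarith

end Dat

end EP

theorem t_EP : M_EP := by
  intro hPL d k Γ _ X _ G u q j1 j2 hS g hC
  obtain ⟨e, he, hκ⟩ := hC
  have h1 : ∀ l, ∃ κ : E d ≃ₗᵢ[ℝ] E d, ∃ ε : ℝ, j1 ≤ l → l + 2 ≤ j2 →
      IsKap G g l κ ε ∧ κ (e l) = e (l + 1) ∧ κ (e (l + 1)) = e l := by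
    intro l
    by_cases h : j1 ≤ l ∧ l + 2 ≤ j2
    · obtain ⟨κ, ε, h2⟩ := hκ l h.1 h.2
      exact ⟨κ, ε, fun _ _ => h2⟩
    · exact ⟨1, 1, fun h2 h3 => (h ⟨h2, h3⟩).elim⟩
  choose κ ε hκε using h1
  obtain ⟨_, hO, hV⟩ := hPL d k Γ X G u q hS.win g
  have D : EP.Dat G u q j1 j2 g e κ ε :=
    { sub := hS
      orth := fun i j h1 h2 h3 => (hO i j h1 h2 h3).1
      sum := hV
      mem := fun l h1 h2 => (he l h1 h2).1
      norm := fun l h1 h2 => (he l h1 h2).2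
      kap := fun l h1 h2 => (hκε l h1 h2).1
      up := fun l h1 h2 => (hκε l h1 h2).2.1
      dn := fun l h1 h2 => (hκε l h1 h2).2.2 }
  exact ⟨fun l h1 h2 => D.root h1 h2, fun l a a' h1 h2 ha ha' => D.adj (by omega) h2 ha ha'⟩

end

end FOL
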