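import Pool.Agent.FOL.MStmts

/-!
# Module EP1: the sign (section 6.2)
-/

namespace FOL

open Lib_helper64.FO FO2 FOI
open scoped RealInnerProductSpace

noncomputable section

namespace EP1

theorem line {d : ℕ} {D : Submodule ℝ (E d)} (h : Module.finrank ℝ D = 1) {e : E d} (he : e ∈ D)
    (h0 : e ≠ 0) {w : E d} (hw : w ∈ D) : ∃ c : ℝ, w = c • e := by
  have h1 : (⟨e, he⟩ : D) ≠ 0 := by
    intro hh
    exact h0 (congrArg Subtype.val hh)
  obtain ⟨c, hc⟩ := (finrank_eq_one_iff_of_nonzero' (⟨e, he⟩ : D) h1).1 h ⟨w, hw⟩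
  exact ⟨c, (congrArg Subtype.val hc).symm⟩

theorem exists_ne {d : ℕ} {D : Submodule ℝ (E d)} (h : Module.finrank ℝ D = 1) :
    ∃ e ∈ D, e ≠ 0 := by
  have h1 : D ≠ ⊥ := by
    intro hb
    rw [hb, finrank_bot] at h
    omega
  exact (Submodule.ne_bot_iff D).1 h1

theorem sign {d : ℕ} {D : Submodule ℝ (E d)} (h : Module.finrank ℝ D = 1)
    (A : E d ≃ₗᵢ[ℝ] E d) (hA : ∀ e ∈ D, A e ∈ D) :
    ∃ ε : ℝ, (ε = 1 ∨ ε = -1) ∧ ∀ e ∈ D, A e = ε • e := by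
  obtain ⟨e0, he0, hne⟩ := exists_ne h
  obtain ⟨c, hc⟩ := line h he0 hne (hA e0 he0)
  refine ⟨c, ?_, ?_⟩
  · have h1 : ‖A e0‖ = ‖e0‖ := A.norm_map e0
    rw [hc, norm_smul] at h1
    have h2 : ‖e0‖ ≠ 0 := norm_ne_zero_iff.2 hne
    have h3 : ‖c‖ = 1 := by
      field_simp at h1
      exact h1
    rw [Real.norm_eq_abs] at h3
    exact (abs_eq zero_le_one).1 h3
  · intro e he
    obtain ⟨b, rfl⟩ := line h he0 hne he
    rw [map_smul, hc, smul_comm]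

variable {d k : ℕ} {Γ : Type} [Group Γ] {X : Type} [MulAction Γ X] (G : AGeo d k Γ X)

theorem comm_eq {l i q : ℕ} {m a m' a' : Γ} (hli : l + 2 ≤ i) (hiq : i + 2 ≤ q + 1)
    (ha : a ∈ G.up (q + 1)) (ha' : a' ∈ G.up (q + 1)) (he : G.ρ l = m * a) (he' : G.ρ i = m' * a') :
    m * m' = m' * m * (a * a' * a⁻¹ * a'⁻¹) := by
  have h1 : m = G.ρ l * a⁻¹ := by rw [he]; group
  have h2 : m' = G.ρ i * a'⁻¹ := by rw [he']; group
  have c1 : G.ρ i * a⁻¹ = a⁻¹ * G.ρ i := G.comm_up hiq (inv_mem ha)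
  have c2 : G.ρ l * a'⁻¹ = a'⁻¹ * G.ρ l := G.comm_up (by omega) (inv_mem ha')
  have c3 := G.comm l i hli
  calc m * m' = G.ρ l * (a⁻¹ * G.ρ i) * a'⁻¹ := by rw [h1, h2]; group
    _ = G.ρ l * G.ρ i * a⁻¹ * a'⁻¹ := by rw [← c1]; group
    _ = G.ρ i * G.ρ l * a⁻¹ * a'⁻¹ := by rw [c3]
    _ = G.ρ i * (G.ρ l * a'⁻¹) * a⁻¹ * (a * a' * a⁻¹ * a'⁻¹) := by group
    _ = G.ρ i * (a'⁻¹ * G.ρ l) * a⁻¹ * (a * a' * a⁻¹ * a'⁻¹) := by rw [c2]
    _ = m' * m * (a * a' * a⁻¹ * a'⁻¹) := by rw [h1, h2]; group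

theorem comm_apply {l i q : ℕ} {g m a m' a' : Γ} (hli : l + 2 ≤ i) (hiq : i + 2 ≤ q + 1)
    (ha : a ∈ G.up (q + 1)) (ha' : a' ∈ G.up (q + 1)) (he : G.ρ l = m * a) (he' : G.ρ i = m' * a')
    (hm : m ∈ G.M g l) (hm' : m' ∈ G.M g i) {v : E d} (hv : v ∈ G.VV g (q + 1)) :
    G.R g m (G.R g m' v) = G.R g m' (G.R g m v) := by
  have h0 := comm_eq G hli hiq ha ha' he he'
  have hcu : a * a' * a⁻¹ * a'⁻¹ ∈ G.up (q + 1) :=
    mul_mem (mul_mem (mul_mem ha ha') (inv_mem ha)) (inv_mem ha')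
  have hce : a * a' * a⁻¹ * a'⁻¹ = (m' * m)⁻¹ * (m * m') := by
    rw [h0]
    group
  have hch : a * a' * a⁻¹ * a'⁻¹ ∈ G.Hc g := by
    rw [hce]
    exact mul_mem (inv_mem (mul_mem hm'.1 hm.1)) (mul_mem hm.1 hm'.1)
  rw [← G.RM_mul_apply g hm.1 hm'.1, ← G.RM_mul_apply g hm'.1 hm.1, h0,
    G.RM_mul_apply g (mul_mem hm'.1 hm.1) hch, hv _ ⟨hch, hcu⟩]

end EP1

open EP1

theorem t_EP1 : M_EP1 := by
  intro hP1 hP2 d k Γ _ X _ G u q hwin g m a l hul hlq hm ha he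
  obtain ⟨-, h2, -, -, -⟩ := hP2 d k Γ X G u q hwin g m a l hul hlq hm ha he
  have key : ∀ i, l + 2 ≤ i → i ≤ q →
      ∃ ε : ℝ, (ε = 1 ∨ ε = -1) ∧ ∀ e ∈ G.DD g i, G.R g m e = ε • e := by
    intro i hi hq
    exact sign (hwin.line g i (by omega) hq) _ (h2 i hi hq)
  by_cases hlq2 : l + 2 ≤ q
  · obtain ⟨ε, hε, h0⟩ := key (l + 2) le_rfl hlq2
    refine ⟨ε, hε, ?_⟩
    intro i hi
    induction i, hi using Nat.le_induction with
    | base => intro _; exact h0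
    | succ i hi ih =>
      intro hq
      have hih := ih (by omega)
      obtain ⟨ε', _, h'⟩ := key (i + 1) (by omega) hq
      obtain ⟨m', hm', a', ha', he'⟩ := (hP1 d k Γ X G u q hwin g).1 i (by omega) (by omega)
        (G.ρ i) (G.ρ_mem_up le_rfl)
      obtain ⟨-, -, k3, k4, -⟩ := hP2 d k Γ X G u q hwin g m' a' i (by omega) (by omega) hm' ha'
        he'
      obtain ⟨e0, he0, hne⟩ := exists_ne (hwin.line g i (by omega) (by omega))
      have hB := k3 e0 (Submodule.mem_sup_left he0)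
      obtain ⟨x, hx, y, hy, hxy⟩ := Submodule.mem_sup.1 hB
      have hy0 : y ≠ 0 := by
        intro h
        apply k4 e0 he0 hne
        rw [← hxy, h, add_zero]
        exact hx
      have hv : e0 ∈ G.VV g (q + 1) := G.VV_mono g (by omega) (G.DD_le_VV g i he0)
      have hc := comm_apply G (by omega) (by omega) ha ha' he he' hm hm' hv
      rw [← hxy, map_add, hih x hx, h' y hy, hih e0 he0, map_smul, ← hxy, smul_add] at hc
      have h5 : ε' • y = ε • y := add_left_cancel hc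
      have h6 : (ε' - ε) • y = 0 := by rw [sub_smul, h5, sub_self]
      rcases smul_eq_zero.1 h6 with h7 | h7
      · intro e he
        rw [h' e he]
        have : ε' = ε := by linarith
        rw [this]
      · exact absurd h7 hy0
  · refine ⟨1, Or.inl rfl, ?_⟩
    intro i h3 h4
    omega

end

end FOL
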