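import Pool.Agent.FOL.MStmts

/-!
# Module MS: section 4.1, the dimension of `S_q`
-/

namespace FOL

open Lib_helper64.FO FO2 FOI
open scoped RealInnerProductSpace

noncomputable section

namespace MS

variable {d k : ℕ} {Γ : Type} [Group Γ] {X : Type} [MulAction Γ X] (G : AGeo d k Γ X)

/-- the product `ρ (i - 1) * ρ (i - 2) * … * ρ (i - s)` -/
def gam (i : ℕ) : ℕ → Γ
  | 0 => 1
  | s + 1 => gam i s * G.ρ (i - (s + 1))

theorem gam_mem_up (i : ℕ) : ∀ s, gam G i s ∈ G.up (i - s) := by
  intro s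
  induction s with
  | zero => exact one_mem _
  | succ s ih =>
    exact mul_mem (G.up_anti (by omega) ih) (G.ρ_mem_up le_rfl)

theorem gam_mem_dn (i : ℕ) : ∀ s, s ≤ i → gam G i s ∈ G.dn i := by
  intro s
  induction s with
  | zero => intro _; exact one_mem _
  | succ s ih =>
    intro hs
    exact mul_mem (ih (by omega)) (G.ρ_mem_dn (by omega))

/-- going up with (L2) -/
theorem climb {i : ℕ} {n : Γ} (hn : n ∈ G.up i) : ∀ s, s ≤ i →
    (gam G i s)⁻¹ * n * gam G i s ∈ G.up (i - s + 1) → n ∈ G.up (i + 1) := by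
  intro s
  induction s with
  | zero =>
    intro _ h
    have e : (gam G i 0)⁻¹ * n * gam G i 0 = n := by
      rw [gam]; group
    rw [e] at h
    exact h
  | succ s ih =>
    intro hs h
    apply ih (by omega)
    have e1 : i - s + 1 = i - (s + 1) + 2 := by omega
    rw [e1]
    apply G.L2
    · have h1 : gam G i s ∈ G.up (i - (s + 1) + 1) := by
        have e2 : i - (s + 1) + 1 = i - s := by omega
        rw [e2]
        exact gam_mem_up G i s
      exact mul_mem (mul_mem (inv_mem h1) (G.up_anti (by omega) hn)) h1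
    · have e3 : (gam G i (s + 1))⁻¹ * n * gam G i (s + 1)
          = G.ρ (i - (s + 1)) * ((gam G i s)⁻¹ * n * gam G i s) * G.ρ (i - (s + 1)) := by
        rw [gam, mul_inv_rev, G.inv_ρ]
        group
      rw [e3] at h
      exact h

/-- the chain `S ⊓ V_i` is strictly increasing at `i ≥ q + 1` without zero -/
theorem not_le {q : ℕ} {g : Γ} {i : ℕ} (hqi : q + 1 ≤ i) (hNZ : ¬ G.Z g i) :
    ¬ G.S q g q ⊓ G.VV g (i + 1) ≤ G.VV g i := by
  intro hle
  apply hNZ
  intro n hn
  apply climb G hn.2 (i - q) (by omega)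
  have e : i - (i - q) = q := by omega
  rw [e]
  apply G.mem_up_of_fix
  intro a ha
  have hup : gam G i (i - q) ∈ G.up q := by
    have := gam_mem_up G i (i - q)
    rwa [e] at this
  have hdn : gam G i (i - q) ∈ G.dn i := gam_mem_dn G i _ (by omega)
  have h1 : G.F g (gam G i (i - q) • a • G.x0) ∈ G.S q g q :=
    G.F_mem_S g ⟨_, hup, a, ha, rfl⟩
  have h2 : G.F g (gam G i (i - q) • a • G.x0) ∈ G.VV g (i + 1) := by
    rw [← mul_smul]
    exact G.F_mem_VV g (mul_mem hdn (G.dn_mono (by omega) ha))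
  have h3 := (hle ⟨h1, h2⟩) n hn
  rw [G.RM_Fi g (by omega) hn] at h3
  have h4 := G.F_inj g h3
  rw [mul_smul, mul_smul, h4, inv_smul_smul]

theorem W_mono (g : Γ) {i j : ℕ} (h : i ≤ j) : G.W g i ≤ G.W g j := by
  rw [AGeo.W, Submodule.span_le]
  rintro _ ⟨a, ha, rfl⟩
  exact Submodule.subset_span ⟨a, G.dn_mono h ha, rfl⟩

open Classical in
/-- the number of zeros in `[1, i)` -/
def nz (g : Γ) (i : ℕ) : ℕ := ((Finset.Ico 1 i).filter fun t => G.Z g t).card

theorem nz_le (g : Γ) (i : ℕ) : nz G g i ≤ nz G g (i + 1) := by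
  classical
  rw [nz, nz]
  apply Finset.card_le_card
  intro t ht
  rw [Finset.mem_filter, Finset.mem_Ico] at ht ⊢
  exact ⟨⟨ht.1.1, by omega⟩, ht.2⟩

theorem nz_lt (g : Γ) {i : ℕ} (hi : 1 ≤ i) (h : G.Z g i) : nz G g i + 1 ≤ nz G g (i + 1) := by
  classical
  rw [nz, nz, Nat.succ_le_iff]
  apply Finset.card_lt_card
  rw [Finset.ssubset_iff_of_subset]
  · refine ⟨i, ?_, ?_⟩
    · rw [Finset.mem_filter, Finset.mem_Ico]
      exact ⟨⟨hi, by omega⟩, h⟩
    · rw [Finset.mem_filter, Finset.mem_Ico]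
      rintro ⟨⟨_, h2⟩, _⟩
      omega
  · intro t ht
    rw [Finset.mem_filter, Finset.mem_Ico] at ht ⊢
    exact ⟨⟨ht.1.1, by omega⟩, ht.2⟩

end MS

theorem t_MS : M_MS := by
  intro hZ hST _ d k Γ _ X _ G q hq hqd g
  classical
  have hW : ∀ i, i ≤ Module.finrank ℝ (G.W g i) + MS.nz G g (i + 1) := by
    intro i
    induction i with
    | zero => omega
    | succ i ih =>
      by_cases hz : G.Z g (i + 1)
      · have h1 := MS.nz_lt G g (i := i + 1) (by omega) hz
        have h2 : Module.finrank ℝ (G.W g i) ≤ Module.finrank ℝ (G.W g (i + 1)) :=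
          Submodule.finrank_mono (MS.W_mono G g (Nat.le_succ i))
        omega
      · have h1 := MS.nz_le G g (i + 1)
        have h2 : G.W g i < G.W g (i + 1) := by
          refine lt_of_le_not_ge (MS.W_mono G g (Nat.le_succ i)) fun hle => ?_
          exact (hST d k Γ X G g).1 (i + 1) (by omega) hz (hle.trans (G.W_le_VV g i))
        have h3 := Submodule.finrank_lt_finrank_of_lt h2
        omega
  have dims : ∀ i, q + 1 ≤ i →
      i ≤ Module.finrank ℝ (G.S q g q ⊓ G.VV g i : Submodule ℝ (E d)) + 1 + MS.nz G g i := by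
    intro i hi
    induction i, hi using Nat.le_induction with
    | base =>
      have h1 := hW q
      have h2 : Module.finrank ℝ (G.W g q) ≤
          Module.finrank ℝ (G.S q g q ⊓ G.VV g (q + 1) : Submodule ℝ (E d)) :=
        Submodule.finrank_mono (le_inf (G.W_le_S q g q) (G.W_le_VV g q))
      omega
    | succ i hi ih =>
      have h0 : G.S q g q ⊓ G.VV g i ≤ G.S q g q ⊓ G.VV g (i + 1) :=
        inf_le_inf_left _ (G.VV_mono g (Nat.le_succ i))
      by_cases hz : G.Z g i
      · have h1 := MS.nz_lt G g (i := i) (by omega) hz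
        have h2 := Submodule.finrank_mono h0
        omega
      · have h1 := MS.nz_le G g i
        have h2 : (G.S q g q ⊓ G.VV g i : Submodule ℝ (E d)) < G.S q g q ⊓ G.VV g (i + 1) :=
          lt_of_le_not_ge h0 fun hle => MS.not_le G hi hz (hle.trans inf_le_right)
        have h3 := Submodule.finrank_lt_finrank_of_lt h2
        omega
  have h1 := dims d (by omega)
  have h2 : Module.finrank ℝ (G.S q g q ⊓ G.VV g d : Submodule ℝ (E d)) ≤
      Module.finrank ℝ (G.S q g q) := Submodule.finrank_mono inf_le_left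
  have h3 : MS.nz G g d ≤ LG G := by
    apply (hZ d k Γ X G g).2.2.2
    intro i hi
    rw [Finset.mem_filter, Finset.mem_Ico] at hi
    exact ⟨hi.1.2, hi.2⟩
  omega

end

end FOL
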