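import Pool.Agent.FOL.MStmts

/-!
# FOL, section 3: irreducibility of `Y_p`
-/

namespace FOL

open Lib_helper64.FO FO2 FOI
open scoped RealInnerProductSpace

noncomputable section

namespace MY

variable {d k : ℕ} {Γ : Type} [Group Γ] {X : Type} [MulAction Γ X] (G : AGeo d k Γ X)

/-- the orthogonal projection on an invariant subspace commutes with the group -/
theorem proj_comm {g : Γ} {p : ℕ} {B : Submodule ℝ (E d)}
    (hB : ∀ n ∈ G.M g p, ∀ w ∈ B, G.R g n w ∈ B) {n : Γ} (hn : n ∈ G.M g p) (v : E d) :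
    G.R g n (B.starProjection v) = B.starProjection (G.R g n v) := by
  refine (Submodule.eq_starProjection_of_mem_of_inner_eq_zero
    (hB n hn _ (Submodule.starProjection_apply_mem B v)) ?_).symm
  intro w hw
  rw [← map_sub]
  have h1 : G.R g n (G.R g n⁻¹ w) = w := G.RM_inv_apply g hn.1 w
  rw [← h1, LinearIsometryEquiv.inner_map_map]
  exact Submodule.starProjection_inner_eq_zero v _ (hB _ (inv_mem hn) w hw)

/-- the projection on an invariant subspace preserves `V_i` -/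
theorem proj_mem_VV {g : Γ} {p i : ℕ} (hpi : p ≤ i) {B : Submodule ℝ (E d)}
    (hB : ∀ n ∈ G.M g p, ∀ w ∈ B, G.R g n w ∈ B) {v : E d} (hv : v ∈ G.VV g i) :
    B.starProjection v ∈ G.VV g i := by
  intro n hn
  rw [proj_comm G hB (G.M_anti g hpi hn), hv n hn]

theorem orth_inv {g : Γ} {p : ℕ} {B : Submodule ℝ (E d)}
    (hB : ∀ n ∈ G.M g p, ∀ w ∈ B, G.R g n w ∈ B) : ∀ n ∈ G.M g p, ∀ w ∈ Bᗮ, G.R g n w ∈ Bᗮ := by
  intro n hn w hw
  rw [Submodule.mem_orthogonal] at hw ⊢
  intro b hb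
  have h1 : G.R g n (G.R g n⁻¹ b) = b := G.RM_inv_apply g hn.1 b
  rw [← h1, LinearIsometryEquiv.inner_map_map]
  exact hw _ (hB _ (inv_mem hn) b hb)

theorem exists_gen {D : Submodule ℝ (E d)} (h : Module.finrank ℝ D = 1) :
    ∃ e ∈ D, e ≠ 0 ∧ ∀ w ∈ D, ∃ c : ℝ, w = c • e := by
  obtain ⟨v, hv, hw⟩ := finrank_eq_one_iff'.1 h
  refine ⟨v, v.2, fun h0 => hv (Subtype.ext h0), fun w hw' => ?_⟩
  obtain ⟨c, hc⟩ := hw ⟨w, hw'⟩
  exact ⟨c, (congrArg Subtype.val hc).symm⟩

/-- a line is contained in every subspace that contains a nonzero vector of the line -/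
theorem le_of_mem {D B : Submodule ℝ (E d)} (h : Module.finrank ℝ D = 1) {e : E d} (he : e ∈ D)
    (he0 : e ≠ 0) (heB : e ∈ B) : D ≤ B := by
  obtain ⟨e', he', he0', hgen⟩ := exists_gen h
  obtain ⟨c, hc⟩ := hgen e he
  have hc0 : c ≠ 0 := by
    rintro rfl
    exact he0 (by rw [hc, zero_smul])
  have h1 : e' = c⁻¹ • e := by rw [hc, smul_smul, inv_mul_cancel₀ hc0, one_smul]
  intro w hw
  obtain ⟨a, rfl⟩ := hgen w hw
  rw [h1]
  exact B.smul_mem _ (B.smul_mem _ heB)

theorem dich {g : Γ} {p : ℕ} (h1 : Module.finrank ℝ (G.DD g p) = 1)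
    {B : Submodule ℝ (E d)} (hB : ∀ n ∈ G.M g p, ∀ w ∈ B, G.R g n w ∈ B) :
    G.DD g p ≤ B ∨ G.DD g p ≤ Bᗮ := by
  obtain ⟨e, he, he0, hgen⟩ := exists_gen h1
  have hPV : B.starProjection e ∈ G.VV g (p + 1) :=
    proj_mem_VV G (by omega) hB (G.DD_le_VV g p he)
  have hPU : B.starProjection e ∈ G.UU g p := by
    rw [AGeo.UU, Submodule.mem_orthogonal]
    intro v hv
    rw [← Submodule.inner_starProjection_left_eq_right]
    exact (Submodule.mem_orthogonal _ _).1 (G.DD_le_UU g p he) _ (proj_mem_VV G le_rfl hB hv)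
  obtain ⟨c, hc⟩ := hgen _ ⟨hPV, hPU⟩
  have hPP : B.starProjection (B.starProjection e) = B.starProjection e :=
    Submodule.starProjection_eq_self_iff.2 (Submodule.starProjection_apply_mem B e)
  rw [hc, map_smul, hc, smul_smul] at hPP
  have h2 : (c * c - c) • e = 0 := by rw [sub_smul, hPP, sub_self]
  have h3 : c * (c - 1) = 0 := by
    have := (smul_eq_zero.1 h2).resolve_right he0
    linarith
  rcases mul_eq_zero.1 h3 with h4 | h4
  · right
    intro w hw
    obtain ⟨a, rfl⟩ := hgen w hw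
    refine Submodule.smul_mem _ a ?_
    have h5 := Submodule.sub_starProjection_mem_orthogonal (K := B) e
    rwa [hc, h4, zero_smul, sub_zero] at h5
  · left
    intro w hw
    obtain ⟨a, rfl⟩ := hgen w hw
    refine Submodule.smul_mem _ a ?_
    have h5 := Submodule.starProjection_apply_mem B e
    have h6 : c = 1 := by linarith
    rwa [hc, h6, one_smul] at h5

theorem YY_le_of {g : Γ} {p : ℕ} {B : Submodule ℝ (E d)}
    (hB : ∀ n ∈ G.M g p, ∀ w ∈ B, G.R g n w ∈ B) (h : G.DD g p ≤ B) : G.YY g p ≤ B := by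
  rw [AGeo.YY, Submodule.span_le]
  rintro _ ⟨n, hn, e, he, rfl⟩
  exact hB n hn e (h he)

theorem RM_mem_sup {g n : Γ} {p : ℕ} (hn : n ∈ G.M g p) {w : E d}
    (hw : w ∈ G.VV g p ⊔ G.YY g p) : G.R g n w ∈ G.VV g p ⊔ G.YY g p := by
  obtain ⟨a, ha, b, hb, rfl⟩ := Submodule.mem_sup.1 hw
  rw [map_add, ha n hn]
  exact Submodule.add_mem_sup ha (G.RM_mem_YY hn hb)

end MY

theorem t_MY : M_MY := by
  intro hP1 hP2 d k Γ _ X _ G u q hW g p hup hpq
  obtain ⟨h1, -, h3⟩ := hP1 d k Γ X G u q hW g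
  have hD : ∀ i, p ≤ i → i ≤ q → G.DD g i ≤ G.YY g p := by
    intro i hpi
    induction i, hpi using Nat.le_induction with
    | base => intro _; exact G.DD_le_YY g p
    | succ i hpi ih =>
      intro hiq
      obtain ⟨m, hm, a, ha, e⟩ := h1 i (by omega) (by omega) (G.ρ i) (G.ρ_mem_up le_rfl)
      obtain ⟨-, -, h4, h5, -⟩ := hP2 d k Γ X G u q hW g m a i (by omega) (by omega) hm ha e
      obtain ⟨v, hv, hv0, -⟩ := MY.exists_gen (hW.line g i (by omega) (by omega))
      have h6 := h4 v (Submodule.mem_sup_left hv)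
      obtain ⟨x, hx, y, hy, hxy⟩ := Submodule.mem_sup.1 h6
      have hy0 : y ≠ 0 := by
        rintro rfl
        rw [add_zero] at hxy
        exact h5 v hv hv0 (hxy ▸ hx)
      have hYi := ih (by omega)
      have h7 : G.R g m v ∈ G.YY g p := G.RM_mem_YY (G.M_anti g hpi hm) (hYi hv)
      have h8 : y ∈ G.YY g p := by
        have : y = G.R g m v - x := by rw [← hxy, add_sub_cancel_left]
        rw [this]
        exact sub_mem h7 (hYi hx)
      exact MY.le_of_mem (hW.line g (i + 1) (by omega) hiq) hy hy0 h8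
  refine ⟨?_, hD, ?_⟩
  · intro B hBY hB
    rcases MY.dich G (hW.line g p hup hpq) hB with h | h
    · right
      exact le_antisymm hBY (MY.YY_le_of G hB h)
    · left
      have h1 : G.YY g p ≤ Bᗮ := MY.YY_le_of G (MY.orth_inv G hB) h
      rw [eq_bot_iff]
      intro w hw
      have h2 := (Submodule.mem_orthogonal _ _).1 (h1 (hBY hw)) w hw
      rw [Submodule.mem_bot]
      exact inner_self_eq_zero.1 h2
  · have hV : G.VV g (q + 1) ≤ G.VV g p ⊔ G.YY g p := by
      rw [h3 p (q + 1) hup (by omega) le_rfl]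
      refine sup_le_sup le_rfl ?_
      refine iSup₂_le fun i hi => ?_
      rw [Finset.mem_Ico] at hi
      exact hD i hi.1 (by omega)
    rw [AGeo.S, Submodule.span_le]
    rintro _ ⟨y, ⟨γ, hγ, b, hb, rfl⟩, rfl⟩
    obtain ⟨m, hm, a, ha, e⟩ := h1 p (by omega) (by omega) γ hγ
    have e2 : γ • b • G.x0 = m • b • G.x0 := by
      rw [e, mul_smul, G.up_fix ha hb]
    have hm' : m ∈ G.M g p := hm
    change G.F g (γ • b • G.x0) ∈ _
    rw [e2, ← G.RM_Fi g (by omega) hm']
    exact MY.RM_mem_sup G hm' (hV (G.F_mem_VV g hb))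

end

end FOL
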