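import Pool.Agent.FOL.NStmts

/-!
# Section 7.1: the order of the product of two consecutive generators
-/

namespace FOL

open Lib_helper64.FO FO2 FOK FOI
open scoped RealInnerProductSpace Nat

noncomputable section

namespace N1

theorem conj_sref {d : ℕ} {a b : E d} (ha : ‖a‖ = 1) (v : E d) :
    sref a (sref b (sref a v)) = sref (sref a b) v := by
  have h1 : ⟪b, sref a v⟫ = ⟪sref a b, v⟫ := by
    have := inner_sref ha b (sref a v)
    rw [sref_sref ha] at this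
    exact this.symm
  have h2 : sref b (sref a v) = sref a v + (-(2 * ⟪b, sref a v⟫)) • b := by
    rw [neg_smul, ← sub_eq_add_neg]
    rfl
  rw [h2, sref_add, sref_smul, sref_sref ha, h1, neg_smul, ← sub_eq_add_neg]
  rfl

theorem braid {d : ℕ} {a b : E d} (ha : ‖a‖ = 1) (hb : ‖b‖ = 1) (h : ⟪a, b⟫ ^ 2 = (1 / 4 : ℝ))
    (v : E d) : sref a (sref b (sref a v)) = sref b (sref a (sref b v)) := by
  rw [conj_sref ha, conj_sref hb]
  have h0 : ⟪b, a⟫ = (⟪a, b⟫ : ℝ) := real_inner_comm _ _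
  have h1 : sref a b = b - (2 * ⟪a, b⟫) • a := rfl
  have h2 : sref b a = a - (2 * ⟪b, a⟫) • b := rfl
  rw [h0] at h2
  have h3 : (2 * ⟪a, b⟫ - 1) * (2 * ⟪a, b⟫ + 1) = (0 : ℝ) := by linear_combination 4 * h
  rcases mul_eq_zero.1 h3 with h4 | h4
  · have h5 : (2 * ⟪a, b⟫ : ℝ) = 1 := by linarith
    rw [h1, h2, h5, one_smul, one_smul, ← neg_sub a b, sref_neg]
  · have h5 : (2 * ⟪a, b⟫ : ℝ) = -1 := by linarith
    rw [h1, h2, h5, neg_smul, neg_smul, one_smul, one_smul, sub_neg_eq_add, sub_neg_eq_add,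
      add_comm]

theorem cube {d : ℕ} {a b : E d} (ha : ‖a‖ = 1) (hb : ‖b‖ = 1) (h : ⟪a, b⟫ ^ 2 = (1 / 4 : ℝ))
    (v : E d) : sref a (sref b (sref a (sref b (sref a (sref b v))))) = v := by
  rw [braid ha hb h (sref b (sref a (sref b v))), sref_sref hb, sref_sref ha, sref_sref hb]

end N1

theorem t_N1 : S_N1 := by
  intro d k Γ _ X _ G u q j1 j2 hS hR l h1 h2
  have hu := hS.win.hu
  have huj := hS.huj
  have hj := hS.hj
  obtain ⟨a, ha⟩ := (hR 1).1 l h1 (by omega)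
  obtain ⟨b, hb⟩ := (hR 1).1 (l + 1) (by omega) (by omega)
  have hab := (hR 1).2 l a b h1 h2 ha hb
  have n1 : G.ρ l ∈ G.N := hS.rho l (by omega) (by omega)
  have n2 : G.ρ (l + 1) ∈ G.N := hS.rho (l + 1) (by omega) (by omega)
  have n3 : G.ρ l * G.ρ (l + 1) ∈ G.N := mul_mem n1 n2
  have m1 : G.ρ l ∈ G.up 1 := G.ρ_mem_up (by omega)
  have m2 : G.ρ (l + 1) ∈ G.up 1 := G.ρ_mem_up (by omega)
  have key : ∀ v : E d, G.R 1 (G.ρ l * G.ρ (l + 1)) v = sref a (sref b v) := by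
    intro v
    rw [G.R_mul_apply 1 n1 n2, hb.act, ha.act]
  refine G.eq_one_of_R (g := 1) (pow_mem n3 3) (G.up_fix_x0 (pow_mem (mul_mem m1 m2) 3)) ?_
  intro y
  have e : (G.ρ l * G.ρ (l + 1)) ^ 3 = G.ρ l * G.ρ (l + 1) * (G.ρ l * G.ρ (l + 1)) *
      (G.ρ l * G.ρ (l + 1)) := by
    rw [pow_succ, pow_two]
  rw [e, G.R_mul_apply 1 (mul_mem n3 n3) n3, G.R_mul_apply 1 n3 n3, key, key, key]
  exact N1.cube ha.norm hb.norm hab _

end

end FOL
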