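import Pool.Agent.FOL.MStmts

/-!
# Module P1: the plateau, orthogonality of the lines, decomposition of `V_j`
-/

namespace FOL

open Lib_helper64.FO FO2 FOI
open scoped RealInnerProductSpace

namespace P1

variable {d k : ℕ} {Γ : Type} [Group Γ] {X : Type} [MulAction Γ X] (G : AGeo d k Γ X)

theorem VV_succ (g : Γ) (i : ℕ) : G.VV g i ⊔ G.DD g i = G.VV g (i + 1) := by
  have h := Submodule.sup_orthogonal_inf_of_hasOrthogonalProjection (G.VV_mono g (Nat.le_succ i))
  rw [AGeo.DD, AGeo.UU, inf_comm]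
  exact h

theorem DD_perp (g : Γ) {i j : ℕ} (h : i < j) : G.DD g i ≤ (G.DD g j)ᗮ := by
  have h1 : G.DD g i ≤ G.VV g j := (G.DD_le_VV g i).trans (G.VV_mono g h)
  have h2 : G.DD g j ≤ (G.VV g j)ᗮ := G.DD_le_UU g j
  exact h1.trans ((Submodule.le_orthogonal_orthogonal _).trans (Submodule.orthogonal_le h2))

theorem DD_perp' (g : Γ) {i j : ℕ} (h : i < j) : G.DD g j ≤ (G.DD g i)ᗮ := by
  have h1 : G.DD g i ≤ G.VV g j := (G.DD_le_VV g i).trans (G.VV_mono g h)
  exact (G.DD_le_UU g j).trans (Submodule.orthogonal_le h1)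

theorem VV_sum (g : Γ) (i j : ℕ) (h : i ≤ j) :
    G.VV g j = G.VV g i ⊔ ⨆ m ∈ Finset.Ico i j, G.DD g m := by
  induction j, h using Nat.le_induction with
  | base => simp
  | succ j h ih =>
    have e : Finset.Ico i (j + 1) = insert j (Finset.Ico i j) := by
      ext x
      simp only [Finset.mem_Ico, Finset.mem_insert]
      omega
    rw [e, Finset.iSup_insert, sup_left_comm, ← ih, sup_comm, VV_succ]

end P1

open P1 in
theorem t_P1 : S_P1 := by
  intro d k Γ _ X _ G u q hw g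
  refine ⟨?_, fun i j _ hij _ => ⟨DD_perp G g hij, DD_perp' G g hij⟩,
    fun i j _ hij _ => VV_sum G g i j hij⟩
  intro i hi hiq γ hγ
  obtain ⟨m, hm, a, ha, rfl⟩ := hw.plat g γ (G.up_anti hi hγ)
  refine ⟨m, ⟨hm.1, ?_⟩, a, ha, rfl⟩
  have h1 : m = m * a * a⁻¹ := by group
  rw [h1]
  exact (G.up i).mul_mem hγ ((G.up i).inv_mem (G.up_anti hiq ha))

end FOL
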