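import Pool.Agent.FOL.MStmts

/-!
# Module P2: the isometry `R g m` for `ρ l = m * a` (sections 3.2 and 6.1)
-/

namespace FOL

open Lib_helper64.FO FO2 FOI
open scoped RealInnerProductSpace

noncomputable section

namespace P2

theorem line {d : ℕ} {D : Submodule ℝ (E d)} (h : Module.finrank ℝ D = 1) {e : E d} (he : e ∈ D)
    (h0 : e ≠ 0) {w : E d} (hw : w ∈ D) : ∃ c : ℝ, w = c • e := by
  have h1 : (⟨e, he⟩ : D) ≠ 0 := by
    intro hh
    exact h0 (congrArg Subtype.val hh)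
  obtain ⟨c, hc⟩ := (finrank_eq_one_iff_of_nonzero' (⟨e, he⟩ : D) h1).1 h ⟨w, hw⟩
  exact ⟨c, (congrArg Subtype.val hc).symm⟩

variable {d k : ℕ} {Γ : Type} [Group Γ] {X : Type} [MulAction Γ X] (G : AGeo d k Γ X)

theorem VV_succ (g : Γ) (i : ℕ) : G.VV g (i + 1) = G.VV g i ⊔ G.DD g i := by
  have h := Submodule.sup_orthogonal_inf_of_hasOrthogonalProjection (G.VV_mono g (Nat.le_succ i))
  rw [inf_comm] at h
  exact h.symm

/-- `R g m` preserves `V_i` for `i ≠ l + 1` -/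
theorem pres {q l : ℕ} {g m a : Γ} (hm : m ∈ G.M g l) (ha : a ∈ G.up (q + 1))
    (he : G.ρ l = m * a) {i : ℕ} (h1 : i ≤ q + 1) (h2 : i ≠ l + 1) (v : E d) :
    G.R g m v ∈ G.VV g i ↔ v ∈ G.VV g i := by
  have h := G.VV_frame_M (g := g) (v := v) hm.1 (G.up_anti h1 ha)
  rwa [← he, G.VV_frame_ρ h2] at h

/-- `R g m` preserves `D_i` for `l + 2 ≤ i` -/
theorem presD {q l : ℕ} {g m a : Γ} (hm : m ∈ G.M g l) (ha : a ∈ G.up (q + 1))
    (he : G.ρ l = m * a) {i : ℕ} (h1 : l + 2 ≤ i) (h2 : i ≤ q) {e : E d} (hv : e ∈ G.DD g i) :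
    G.R g m e ∈ G.DD g i := by
  refine Submodule.mem_inf.2
    ⟨(pres G hm ha he (by omega) (by omega) e).2 (G.DD_le_VV g i hv), ?_⟩
  rw [AGeo.UU, Submodule.mem_orthogonal]
  intro v hv'
  have h5 : G.R g m ((G.R g m).symm v) = v := (G.R g m).apply_symm_apply v
  rw [← h5] at hv' ⊢
  rw [LinearIsometryEquiv.inner_map_map]
  have h6 := (pres G hm ha he (by omega) (by omega) _).1 hv'
  have h7 := G.DD_le_UU g i hv
  rw [AGeo.UU, Submodule.mem_orthogonal] at h7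
  exact h7 _ h6

/-- `V_(l+2)` intersected with the complement of `V_l` -/
theorem mem_sup {g : Γ} {l : ℕ} {v : E d} (h1 : v ∈ G.VV g (l + 2)) (h2 : v ∈ G.UU g l) :
    v ∈ G.DD g l ⊔ G.DD g (l + 1) := by
  have h3 : v ∈ G.VV g l ⊔ (G.DD g l ⊔ G.DD g (l + 1)) := by
    rw [← sup_assoc, ← VV_succ, ← VV_succ]
    exact h1
  have h4 : G.DD g l ⊔ G.DD g (l + 1) ≤ G.UU g l :=
    sup_le (G.DD_le_UU g l) ((G.DD_le_UU g (l + 1)).trans (G.UU_anti g (Nat.le_succ l)))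
  obtain ⟨a, ha, b, hb, hab⟩ := Submodule.mem_sup.1 h3
  have h5 : a ∈ G.UU g l := by
    have h6 : a = v - b := by rw [← hab]; abel
    rw [h6]
    exact Submodule.sub_mem _ h2 (h4 hb)
  have h7 : a = 0 := by
    rw [AGeo.UU, Submodule.mem_orthogonal] at h5
    exact inner_self_eq_zero.1 (h5 a ha)
  rw [h7, zero_add] at hab
  rw [← hab]
  exact hb

end P2

open P2

theorem t_P2 : M_P2 := by
  intro hst _ d k Γ _ X _ G u q hwin g m a l hul hlq hm ha he
  have h1l : 1 ≤ l := by omega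
  refine ⟨fun i v h1 h2 => pres G hm ha he h1 h2 v, fun i h1 h2 v hv => presD G hm ha he h1 h2 hv,
    ?_, ?_, ?_⟩
  · intro v hv
    have h3 : G.DD g l ⊔ G.DD g (l + 1) ≤ G.UU g l :=
      sup_le (G.DD_le_UU g l) ((G.DD_le_UU g (l + 1)).trans (G.UU_anti g (Nat.le_succ l)))
    have h4 : G.DD g l ⊔ G.DD g (l + 1) ≤ G.VV g (l + 2) :=
      sup_le ((G.DD_le_VV g l).trans (G.VV_mono g (Nat.le_succ (l + 1)))) (G.DD_le_VV g (l + 1))
    exact mem_sup G ((pres G hm ha he (by omega) (by omega) v).2 (h4 hv))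
      (G.RM_mem_UU hm (h3 hv))
  · intro e hee he0 hcon
    have h3 : ∀ v ∈ G.VV g (l + 1), G.R g m v ∈ G.VV g (l + 1) := by
      intro v hv
      rw [VV_succ] at hv
      obtain ⟨b, hb, w, hw, rfl⟩ := Submodule.mem_sup.1 hv
      obtain ⟨c, rfl⟩ := line (hwin.line g l hul (by omega)) hee he0 hw
      rw [map_add, map_smul, hb m hm]
      exact Submodule.add_mem _ (G.VV_mono g (Nat.le_succ l) hb)
        (Submodule.smul_mem _ c (G.DD_le_VV g l hcon))
    have ha' : a ∈ G.up (l + 1) := G.up_anti (by omega) ha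
    have h6 := G.VV_frame_M_map (g := g) hm.1 ha'
    rw [← he] at h6
    have h4 : G.VV (g * G.ρ l) (l + 1) ≤ G.VV g (l + 1) := by
      rw [h6, Submodule.map_le_iff_le_comap]
      intro w hw
      exact h3 w hw
    have h7 : Module.finrank ℝ (G.VV (g * G.ρ l) (l + 1)) = Module.finrank ℝ (G.VV g (l + 1)) := by
      rw [h6]
      exact LinearEquiv.finrank_map_eq (G.R g m).toLinearEquiv (G.VV g (l + 1))
    exact (hst d k Γ X G g).2.2 l h1l (hwin.nz g (l + 1) (by omega) (by omega))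
      (Submodule.eq_of_le_of_finrank_eq h4 h7)
  · intro b hb
    rw [G.RM_Fi g h1l hm, he, mul_smul, G.up_fix ha hb]

end

end FOL
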