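import Pool.Agent.FOL.MStmts

set_option autoImplicit false

namespace FOL

namespace PIG

theorem mono (f : ℕ → ℕ) (J : ℕ) (h : ∀ j, 1 ≤ j → j < J → f j ≤ f (j + 1)) :
    ∀ i j, 1 ≤ i → i ≤ j → j ≤ J → f i ≤ f j := by
  intro i j hi hij
  induction j, hij using Nat.le_induction with
  | base => intro _; exact le_rfl
  | succ n hn ih =>
    intro h'
    exact (ih (by omega)).trans (h n (by omega) (by omega))

end PIG

theorem t_PIG : S_PIG := by
  intro c ψ κ m Λ J hc hk hψ hm hp hJ
  have mc := PIG.mono c J hc
  have mψ := PIG.mono ψ J hψ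
  have hκ : 1 ≤ κ := ((hk 1 le_rfl (by omega)).1).trans (hk 1 le_rfl (by omega)).2
  classical
  set S := (Finset.Ico 1 J).filter (fun j => c j = c (j + 1)) with hS
  set N := (Finset.Ico 1 J).filter (fun j => ¬ c j = c (j + 1)) with hN
  have hcard : S.card + N.card = J - 1 := by
    rw [hS, hN, Finset.card_filter_add_card_filter_not]
    simp
  have hNc : N.card ≤ κ - 1 := by
    have h1 : N.card ≤ (Finset.Ico 1 κ).card := by
      apply Finset.card_le_card_of_injOn c
      · intro j hj
        have hj' := Finset.mem_filter.1 (Finset.mem_coe.1 hj)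
        have hj1 := Finset.mem_Ico.1 hj'.1
        have h2 := hc j hj1.1 hj1.2
        have h3 := hk j hj1.1 hj1.2.le
        have h4 := hk (j + 1) (by omega) (by omega)
        have h5 := hj'.2
        exact Finset.mem_coe.2 (Finset.mem_Ico.2 ⟨h3.1, by omega⟩)
      · intro i hi j hj hij
        have hi' := Finset.mem_filter.1 (Finset.mem_coe.1 hi)
        have hi1 := Finset.mem_Ico.1 hi'.1
        have hj' := Finset.mem_filter.1 (Finset.mem_coe.1 hj)
        have hj1 := Finset.mem_Ico.1 hj'.1
        have h5 := hi'.2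
        have h6 := hj'.2
        have hij' : c i = c j := hij
        rcases lt_trichotomy i j with h | h | h
        · have h7 := hc i hi1.1 hi1.2
          have h8 := mc (i + 1) j (by omega) (by omega) (by omega)
          omega
        · exact h
        · have h7 := hc j hj1.1 hj1.2
          have h8 := mc (j + 1) i (by omega) (by omega) (by omega)
          omega
    simpa using h1
  have hSc : (Finset.range (m + 1)).card * Λ < S.card := by
    rw [Finset.card_range]
    omega
  obtain ⟨t, ht, hA⟩ := Finset.exists_lt_card_fiber_of_mul_lt_card_of_maps_to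
    (f := ψ) (s := S) (t := Finset.range (m + 1)) (fun j hj => by
      have hj1 := Finset.mem_Ico.1 (Finset.mem_filter.1 hj).1
      have := hm j hj1.1 hj1.2.le
      exact Finset.mem_range.2 (by omega)) hSc
  set A := S.filter (fun j => ψ j = t) with hAdef
  have hne : A.Nonempty := by
    rw [← Finset.card_pos]
    omega
  have hu := A.min'_mem hne
  have hv := A.max'_mem hne
  have hsub : A ⊆ Finset.Icc (A.min' hne) (A.max' hne) := by
    intro j hj
    exact Finset.mem_Icc.2 ⟨A.min'_le j hj, A.le_max' j hj⟩
  have hcc := Finset.card_le_card hsub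
  rw [Nat.card_Icc] at hcc
  set u := A.min' hne with hudef
  set v := A.max' hne with hvdef
  have hu1 := Finset.mem_filter.1 hu
  have hv1 := Finset.mem_filter.1 hv
  have hu2 := Finset.mem_filter.1 hu1.1
  have hv2 := Finset.mem_filter.1 hv1.1
  have hu3 := Finset.mem_Ico.1 hu2.1
  have hv3 := Finset.mem_Ico.1 hv2.1
  have huv : u + Λ ≤ v := by omega
  have hcuv : c u = c v := by
    rcases Nat.eq_or_lt_of_le (show u ≤ v by omega) with h | h
    · rw [h]
    · exact hp u v hu3.1 h hv3.2 hu2.2 hv2.2 (hu1.2.trans hv1.2.symm)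
  have hψuv : ψ u = ψ v := hu1.2.trans hv1.2.symm
  refine ⟨u, hu3.1, by omega, ?_, ?_⟩
  · have h1 := mc u (u + Λ) hu3.1 (by omega) (by omega)
    have h2 := mc (u + Λ) v (by omega) huv hv3.2.le
    omega
  · have h1 := mψ u (u + Λ) hu3.1 (by omega) (by omega)
    have h2 := mψ (u + Λ) v (by omega) huv hv3.2.le
    omega

end FOL
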