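import Pool.Agent.FOL.NStmts
import Pool.Agent.FOI.PL

/-!
# Module PL: the plane `D_i + D_{i+1}` and the decomposition of `V_j`
-/

namespace FOL

open Lib_helper64.FO FO2 FOK FOI
open scoped RealInnerProductSpace

open FOI.PL in
theorem t_PL : M_PL := by
  intro hS d k Γ _ X _ G u q hw g
  refine ⟨fun i hi hiq => ⟨?_, ?_, ?_⟩, fun i j _ hij _ => ⟨D_perp G g hij, D_perp' G g hij⟩,
    fun i j _ hij _ => V_sum G g i j hij⟩
  · rw [plane, plane, plane_frame]
  · intro h
    have hu := hw.hu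
    have hq := hw.hq
    have hnz : G.NZ (i + 1) := hw.nz (i + 1) (by omega) (by omega)
    apply (hS d k Γ X G g).2.2.1 i (by omega) hnz
    rw [← V_succ, ← V_succ, h, G.V_frame_ρ (by omega)]
  · intro h
    rw [D_succ G (g * G.ρ i) i, h, plane_frame, ← D_eq]

end FOL
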