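import Pool.Agent.FOL.MStmts

/-!
# Module RN: section 6.3 of `Pool/Agent/FOL/PAPER.md`
-/

set_option autoImplicit false

namespace FOL

open Lib_helper64.FO FO2 FOI
open scoped RealInnerProductSpace

noncomputable section

namespace RN

/-- an isometry preserving a subspace, with a scalar `±1` on the orthogonal complement -/
theorem glue {d : ℕ} (V : Submodule ℝ (E d)) (A : E d ≃ₗᵢ[ℝ] E d) (ε : ℝ) (hε : ε = 1 ∨ ε = -1)
    (hV : ∀ v ∈ V, A v ∈ V) :
    ∃ κ : E d ≃ₗᵢ[ℝ] E d, (∀ v ∈ V, κ v = A v) ∧ (∀ w ∈ Vᗮ, κ w = ε • w) := by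
  obtain ⟨L, hL⟩ : ∃ L : E d →ₗ[ℝ] E d, ∀ v, L v =
      A (V.starProjection v) + ε • (v - V.starProjection v) := by
    refine ⟨A.toLinearEquiv.toLinearMap ∘ₗ V.starProjection.toLinearMap +
      ε • (LinearMap.id - V.starProjection.toLinearMap), fun v => ?_⟩
    rfl
  have h1 : ∀ v ∈ V, L v = A v := by
    intro v hv
    rw [hL, Submodule.starProjection_eq_self_iff.2 hv, sub_self, smul_zero, add_zero]
  have h2 : ∀ w ∈ Vᗮ, L w = ε • w := by
    intro w hw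
    have h3 : V.starProjection w = 0 := (Submodule.starProjection_apply_eq_zero_iff V).2 hw
    rw [hL, h3, map_zero, sub_zero, zero_add]
  have hdec : ∀ v : E d, ∃ a ∈ V, ∃ b ∈ Vᗮ, v = a + b := fun v =>
    ⟨V.starProjection v, Submodule.starProjection_apply_mem V v, v - V.starProjection v,
      Submodule.sub_starProjection_mem_orthogonal v, by abel⟩
  have hn : ∀ v, ‖L v‖ = ‖v‖ := by
    intro v
    obtain ⟨a, ha, b, hb, rfl⟩ := hdec v
    have e1 : ⟪a, b⟫ = 0 := Submodule.inner_right_of_mem_orthogonal ha hb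
    have e2 : ⟪A a, ε • b⟫ = 0 :=
      Submodule.inner_right_of_mem_orthogonal (hV a ha) (Submodule.smul_mem _ ε hb)
    have e3 : ‖ε • b‖ = ‖b‖ := by
      rw [norm_smul]
      rcases hε with rfl | rfl <;> simp
    have e4 : ‖L (a + b)‖ * ‖L (a + b)‖ = ‖a + b‖ * ‖a + b‖ := by
      rw [map_add, h1 a ha, h2 b hb,
        norm_add_sq_eq_norm_sq_add_norm_sq_of_inner_eq_zero _ _ e2,
        norm_add_sq_eq_norm_sq_add_norm_sq_of_inner_eq_zero _ _ e1, e3, A.norm_map]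
    exact (mul_self_inj (norm_nonneg _) (norm_nonneg _)).1 e4
  have hLI : Function.Injective L := by
    rw [← LinearMap.ker_eq_bot, LinearMap.ker_eq_bot']
    intro v hv
    have := hn v
    rw [hv, norm_zero] at this
    exact norm_eq_zero.1 this.symm
  exact ⟨{ toLinearEquiv := LinearEquiv.ofInjectiveEndo L hLI, norm_map' := hn }, h1, h2⟩

/-- the main step: an isometry `κ` with `F_g (ρ_l y) = κ (F_g y)` on `XX q (l + 2)` -/
theorem step (hP1 : S_P1) (hP2 : S_P2) (hEP : S_EP1)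
    (d k : ℕ) (Γ : Type) [Group Γ] (X : Type) [MulAction Γ X] (G : AGeo d k Γ X)
    (u q : ℕ) (hW : MWin G u q) (l : ℕ) (hl : u + 1 ≤ l) (hlq : l + 2 ≤ q) (g : Γ) :
    ∃ (κ : E d ≃ₗᵢ[ℝ] E d) (ε : ℝ), (ε = 1 ∨ ε = -1) ∧ (∀ w ∈ G.UU g (l + 2), κ w = ε • w) ∧
      ∀ y ∈ G.XX q (l + 2), G.F g (G.ρ l • y) = κ (G.F g y) := by
  obtain ⟨hp1, -, hp3⟩ := hP1 d k Γ X G u q hW g
  obtain ⟨m, hm, a, ha, hma⟩ := hp1 l (by omega) (by omega) (G.ρ l) (G.ρ_mem_up le_rfl)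
  obtain ⟨hA1, -, -, -, hA5⟩ := hP2 d k Γ X G u q hW g m a l hl (by omega) hm ha hma
  obtain ⟨ε, hε, hAε⟩ := hEP d k Γ X G u q hW g m a l hl (by omega) hm ha hma
  obtain ⟨κ, hκV, hκU⟩ := glue (G.VV g (l + 2)) (G.R g m) ε hε
    (fun v hv => (hA1 (l + 2) v (by omega) (by omega)).2 hv)
  refine ⟨κ, ε, hε, hκU, ?_⟩
  have hVq : ∀ v ∈ G.VV g (q + 1), κ v = G.R g m v := by
    have h3 := hp3 (l + 2) (q + 1) (by omega) (by omega) le_rfl
    have h4 : G.VV g (l + 2) ⊔ ⨆ m ∈ Finset.Ico (l + 2) (q + 1), G.DD g m ≤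
        LinearMap.eqLocus κ.toLinearEquiv.toLinearMap (G.R g m).toLinearEquiv.toLinearMap := by
      refine sup_le (fun v hv => hκV v hv) (iSup₂_le fun i hi e he => ?_)
      rw [Finset.mem_Ico] at hi
      have h5 : κ e = G.R g m e := by
        rw [hκU e (G.UU_anti g hi.1 (G.DD_le_UU g i he)), hAε i hi.1 (by omega) e he]
      exact h5
    intro v hv
    rw [h3] at hv
    exact h4 hv
  have hcomm : ∀ n ∈ G.M g (l + 2), ∀ v, κ (G.R g n v) = G.R g n (κ v) := by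
    intro n hn v
    obtain ⟨a, ha, b, hb, rfl⟩ : ∃ a ∈ G.VV g (l + 2), ∃ b ∈ (G.VV g (l + 2))ᗮ, v = a + b :=
      ⟨(G.VV g (l + 2)).starProjection v, Submodule.starProjection_apply_mem _ v,
        v - (G.VV g (l + 2)).starProjection v,
        Submodule.sub_starProjection_mem_orthogonal v, by abel⟩
    have hb' : b ∈ G.UU g (l + 2) := hb
    have hAa : G.R g m a ∈ G.VV g (l + 2) := (hA1 (l + 2) a (by omega) (by omega)).2 ha
    have h6 : G.R g n b ∈ (G.VV g (l + 2))ᗮ := G.RM_mem_UU hn hb'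
    rw [map_add, map_add, map_add, map_add, ha n hn, hκV a ha, hκU b hb, hAa n hn,
      hκU _ h6, map_smul]
  rintro _ ⟨γ, hγ, b, hb, rfl⟩
  obtain ⟨n, hn, c, hc, hγe⟩ := hp1 (l + 2) (by omega) (by omega) γ hγ
  have hy : γ • b • G.x0 = n • b • G.x0 := by
    rw [hγe, mul_smul, G.up_fix hc hb]
  rw [hy, ← mul_smul, G.comm_up le_rfl hn.2, mul_smul,
    ← G.RM_Fi g (by omega) hn (G.ρ l • b • G.x0), ← hA5 b hb, ← G.RM_Fi g (by omega) hn,
    ← hVq _ (G.F_mem_VV g hb), hcomm n hn]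

end RN

open RN in
/-- 6.3 -/
theorem t_RN : M_RN := by
  intro hP1 hP2 hSW hE2 hEP d k Γ _ X _ G u q hW l hl hlq
  have hu := hW.hu
  have hρ0 : G.ρ l • G.x0 = G.x0 := G.stab l (by omega)
  have hN : G.ρ l ∈ G.N := by
    apply G.mem_N
    intro g
    obtain ⟨κ, ε, hε, hκU, hκ⟩ := step hP1 hP2 hEP d k Γ X G u q hW l hl (by omega) g
    refine hE2 d k Γ X G u q hW (l + 2) (by omega) (by omega) g (g * G.ρ l) ?_
    intro y hy z hz
    rw [G.F_mul g hρ0, G.F_mul g hρ0, hκ y hy, hκ z hz, LinearIsometryEquiv.inner_map_map]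
  refine ⟨hN, fun g => ?_⟩
  obtain ⟨κ, ε, hε, hκU, hκ⟩ := step hP1 hP2 hEP d k Γ X G u q hW l hl (by omega) g
  refine ⟨ε, hε, fun w hw => ?_⟩
  rw [← hκU w hw]
  have hS : G.S q g (l + 2) ≤
      LinearMap.eqLocus (G.R g (G.ρ l)).toLinearEquiv.toLinearMap κ.toLinearEquiv.toLinearMap := by
    rw [AGeo.S, Submodule.span_le]
    rintro _ ⟨y, hy, rfl⟩
    have h5 : G.R g (G.ρ l) (G.F g y) = κ (G.F g y) := by
      rw [G.R_F g hN hρ0, hκ y hy]
    exact h5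
  have hw2 : w ∈ G.S q g (l + 2) := by
    rw [(hSW d k Γ X G u q hW g (l + 2) (by omega) (by omega)).1]
    exact G.UU_le_WW g (l + 2) hw
  exact hS hw2

end

end FOL
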