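import Pool.Agent.FOL.MStmts

/-!
# 4.2: `S_j = S_(j+1)` implies `S_j = WW`
-/

namespace FOL

open Lib_helper64.FO FO2 FOI
open scoped RealInnerProductSpace

noncomputable section

namespace SE

variable {d k : ℕ} {Γ : Type} [Group Γ] {X : Type} [MulAction Γ X] (G : AGeo d k Γ X)

theorem right_ind {I : Set ℕ} {P : Γ → Prop} (h1 : P 1)
    (h2 : ∀ γ, ∀ i ∈ I, P γ → P (γ * G.ρ i)) {γ : Γ} (hγ : γ ∈ gpar G.ρ I) : P γ := by
  induction hγ using Subgroup.closure_induction_right with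
  | one => exact h1
  | mul_right x _ y hy ih =>
    obtain ⟨i, hi, rfl⟩ := hy
    exact h2 x i hi ih
  | mul_inv_cancel x _ y hy ih =>
    obtain ⟨i, hi, rfl⟩ := hy
    rw [G.inv_ρ]
    exact h2 x i hi ih

theorem left_ind {P : Γ → Prop} (h1 : P 1) (h2 : ∀ γ i, P γ → P (G.ρ i * γ)) (γ : Γ) : P γ := by
  have hγ : γ ∈ gpar G.ρ Set.univ := by rw [G.gen]; trivial
  induction hγ using Subgroup.closure_induction_left with
  | one => exact h1
  | mul_left x hx y _ ih =>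
    obtain ⟨i, _, rfl⟩ := hx
    exact h2 y i ih
  | inv_mul_cancel x hx y _ ih =>
    obtain ⟨i, _, rfl⟩ := hx
    rw [G.inv_ρ]
    exact h2 y i ih

/-- `S_j` does not change under elements of `up (q + 1)`, `j ≤ q` -/
theorem S_frame_up {q j : ℕ} (hj : j ≤ q) (hq : 1 ≤ q) (g : Γ) {a : Γ} (ha : a ∈ G.up (q + 1)) :
    G.S q (g * a) j = G.S q g j := by
  refine right_ind G (P := fun a => G.S q (g * a) j = G.S q g j) (by rw [mul_one]) ?_ ha
  intro γ i hi ih
  have hi' : q + 1 ≤ i := hi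
  rw [← mul_assoc, G.S_frame_ρ (by omega) hj hq, ih]

theorem S_frame_M {q j : ℕ} (g m a : Γ) (hm : m ∈ G.Hc g) :
    G.S q (g * (m * a)) j = (G.S q (g * a) j).map (G.R g m).toLinearEquiv.toLinearMap := by
  rw [AGeo.S, AGeo.S, Submodule.map_span]
  congr 1
  ext w
  constructor
  · rintro ⟨y, hy, rfl⟩
    exact ⟨G.F (g * a) y, ⟨y, hy, rfl⟩, (G.F_frame_M hm y).symm⟩
  · rintro ⟨_, ⟨y, hy, rfl⟩, rfl⟩
    exact ⟨y, hy, G.F_frame_M hm y⟩

theorem finrank_S {q j : ℕ} (hj : j ≤ q) (hq : 1 ≤ q) (g m a : Γ) (hm : m ∈ G.Hc g)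
    (ha : a ∈ G.up (q + 1)) :
    Module.finrank ℝ (G.S q (g * (m * a)) j) = Module.finrank ℝ (G.S q g j) := by
  rw [S_frame_M G g m a hm, S_frame_up G hj hq g ha]
  exact LinearEquiv.finrank_map_eq (G.R g m).toLinearEquiv (G.S q g j)

/-- one step -/
theorem step {u q : ℕ} (hP : ∀ g, ∀ i, u ≤ i → i ≤ q + 1 → ∀ γ ∈ G.up i,
      ∃ m ∈ G.M g i, ∃ a ∈ G.up (q + 1), γ = m * a) {j : ℕ} (h1 : u + 1 ≤ j) (h2 : j < q) (g : Γ)
    (hS : G.S q g j = G.S q g (j + 1)) (i : ℕ) :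
    G.S q (g * G.ρ i) j = G.S q g j ∧ G.S q (g * G.ρ i) (j + 1) = G.S q g j := by
  have hq : 1 ≤ q := by omega
  have hle : G.S q (g * G.ρ i) (j + 1) ≤ G.S q (g * G.ρ i) j := G.S_anti q _ (Nat.le_succ j)
  by_cases e1 : i + 1 = j
  · have h3 : G.S q (g * G.ρ i) (j + 1) = G.S q g (j + 1) :=
      G.S_frame_ρ (by omega) (by omega) hq g
    obtain ⟨m, hm, a, ha, hma⟩ := hP g i (by omega) (by omega) (G.ρ i) (G.ρ_mem_up le_rfl)
    have h4 : Module.finrank ℝ (G.S q (g * G.ρ i) j) = Module.finrank ℝ (G.S q g j) := by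
      rw [hma]
      exact finrank_S G (by omega) hq g m a hm.1 ha
    have h5 : G.S q (g * G.ρ i) (j + 1) = G.S q (g * G.ρ i) j := by
      apply Submodule.eq_of_le_of_finrank_eq hle
      rw [h4, h3, hS]
    rw [← h5, h3, hS]
    exact ⟨rfl, rfl⟩
  · have h3 : G.S q (g * G.ρ i) j = G.S q g j := G.S_frame_ρ e1 (by omega) hq g
    refine ⟨h3, ?_⟩
    by_cases e2 : i = j
    · subst e2
      obtain ⟨m, hm, a, ha, hma⟩ := hP g i (by omega) (by omega) (G.ρ i) (G.ρ_mem_up le_rfl)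
      have h4 : Module.finrank ℝ (G.S q (g * G.ρ i) (i + 1)) =
          Module.finrank ℝ (G.S q g (i + 1)) := by
        have := finrank_S G (q := q) (j := i + 1) (by omega) hq g m a hm.1 ha
        rwa [← hma] at this
      rw [← h3]
      apply Submodule.eq_of_le_of_finrank_eq hle
      rw [h4, h3, hS]
    · rw [G.S_frame_ρ (by omega) (by omega) hq g, hS]

end SE

open SE in
theorem t_SE : M_SE := by
  intro hP1 d k Γ _ X _ G u q hW j h1 h2 g hS
  have hq : 1 ≤ q := by omega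
  have hP : ∀ g, ∀ i, u ≤ i → i ≤ q + 1 → ∀ γ ∈ G.up i,
      ∃ m ∈ G.M g i, ∃ a ∈ G.up (q + 1), γ = m * a := fun g => (hP1 d k Γ X G u q hW g).1
  -- all frames
  have key : ∀ γ : Γ, G.S q (g * γ) j = G.S q g j ∧ G.S q (g * γ) (j + 1) = G.S q g j := by
    intro γ
    refine right_ind G (I := Set.univ) (P := fun γ => G.S q (g * γ) j = G.S q g j ∧
      G.S q (g * γ) (j + 1) = G.S q g j) ?_ ?_ (by rw [G.gen]; trivial)
    · rw [mul_one]
      exact ⟨rfl, hS.symm⟩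
    · rintro γ i - ⟨ih1, ih2⟩
      have h := step G hP h1 h2 (g * γ) (ih1.trans ih2.symm) i
      rw [mul_assoc, ih1] at h
      exact h
  have key' : ∀ g' : Γ, G.S q g' j = G.S q g j := by
    intro g'
    have := (key (g⁻¹ * g')).1
    rwa [mul_inv_cancel_left] at this
  -- all vertices
  have hF : ∀ w : Γ, ∀ g' : Γ, G.F g' (w • G.x0) ∈ G.S q g j := by
    intro w
    refine left_ind G (P := fun w => ∀ g' : Γ, G.F g' (w • G.x0) ∈ G.S q g j) ?_ ?_ w
    · intro g'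
      rw [one_smul, G.F_x0]
      exact zero_mem _
    · intro γ i ih g'
      have e : G.F g' ((G.ρ i * γ) • G.x0) =
          G.F (g' * G.ρ i) (γ • G.x0) + G.F g' (G.ρ i • G.x0) := by
        rw [G.F_mul0, mul_smul]
        abel
      rw [e]
      apply add_mem (ih _)
      rw [← key' g']
      exact G.F_mem_S g' (G.ρ_x0_mem_XX i hq)
  have hW' : G.WW ≤ G.S q g j := by
    rw [AGeo.WW, Submodule.span_le]
    rintro _ ⟨x, y, rfl⟩
    obtain ⟨v, rfl⟩ := G.trans x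
    obtain ⟨w, rfl⟩ := G.trans y
    have e : G.f (v • G.x0) - G.f (w • G.x0) = G.F 1 (v • G.x0) - G.F 1 (w • G.x0) := by
      rw [AGeo.F, AGeo.F, one_smul, one_smul, one_smul]
      abel
    rw [e]
    exact sub_mem (hF v 1) (hF w 1)
  intro g'
  rw [key' g']
  exact le_antisymm (G.S_le_WW q g j) hW'

end

end FOL
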