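import Pool.Agent.FOL.MStmts

/-!
# Module ST: one step of the chain of the spaces `V_i` (section 1.6)
-/

namespace FOL

open Lib_helper64.FO FO2 FOI
open scoped RealInnerProductSpace

noncomputable section

namespace ST

variable {d k : ℕ} {Γ : Type} [Group Γ] {X : Type} [MulAction Γ X] (G : AGeo d k Γ X)

theorem W_not_le (g : Γ) {i : ℕ} (hi : 1 ≤ i) (h : ¬ G.Z g i) : ¬ G.W g i ≤ G.VV g i := by
  intro hle
  apply h
  intro n hn
  refine G.mem_up_of_RM (g := g) hn.1 (G.M_fix hi hn) fun a ha => ?_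
  exact hle (Submodule.subset_span ⟨a, ha, rfl⟩) n hn

theorem VV_lt (g : Γ) {i : ℕ} (hi : 1 ≤ i) (h : ¬ G.Z g i) : G.VV g i < G.VV g (i + 1) := by
  refine lt_of_le_of_ne (G.VV_mono g (Nat.le_succ i)) fun e => ?_
  apply W_not_le G g hi h
  rw [e]
  exact G.W_le_VV g i

theorem VV_ne (g : Γ) {i : ℕ} (hi : 1 ≤ i) (h : ¬ G.Z g (i + 1)) :
    G.VV (g * G.ρ i) (i + 1) ≠ G.VV g (i + 1) := by
  intro e
  apply h
  intro n hn
  refine G.L2 hn.2 (G.mem_up_of_fix fun a ha => ?_)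
  have h1 : G.F g (G.ρ i • a • G.x0) ∈ G.VV g (i + 1) := by
    rw [← e, ← G.F_mul g (G.stab i hi)]
    exact G.F_mem_VV (g * G.ρ i) ha
  have h2 := h1 n hn
  rw [G.RM_Fi g (by omega) hn] at h2
  have h3 : n • G.ρ i • a • G.x0 = G.ρ i • a • G.x0 := G.F_inj g h2
  rw [mul_smul, mul_smul, h3, ← mul_smul, G.sq, one_smul]

end ST

theorem t_ST : S_ST := by
  intro d k Γ _ X _ G g
  exact ⟨fun i hi h => ST.W_not_le G g hi h, fun i hi h => ST.VV_lt G g hi h,
    fun i hi h => ST.VV_ne G g hi h⟩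

end

end FOL
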