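import Pool.Agent.FOL.NStmts

/-!
# Module SUB: the interval `[j1, j1 + 8]` (section 6.5)
-/

namespace FOL

open Lib_helper64.FO FO2 FOK FOI
open scoped RealInnerProductSpace

noncomputable section

namespace SUB

variable {d k : ℕ} {Γ : Type} [Group Γ] {X : Type} [MulAction Γ X] (G : AGeo d k Γ X)

theorem bd_mono {a b : ℕ} (h : a ≤ b) : bd a ≤ bd b := by
  unfold bd
  have h1 : Nat.log 2 a ≤ Nat.log 2 b := Nat.log_mono_right h
  have h2 : (Nat.log 2 a + 4) ^ 2 ≤ (Nat.log 2 b + 4) ^ 2 := Nat.pow_le_pow_left (by omega) 2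
  omega

/-- `ρ i` is not in `up (i + 1)` for `i < d`. -/
theorem ρ_notMem_up {i : ℕ} (hi : i < d) : G.ρ i ∉ G.up (i + 1) := by
  intro h
  have h1 : G.ρ i ∈ gpar G.ρ {i} ⊓ gpar G.ρ {j | i + 1 ≤ j} :=
    ⟨Subgroup.subset_closure ⟨i, rfl, rfl⟩, h⟩
  rw [G.inter] at h1
  have e : (({i} : Set ℕ) ∩ {j | i + 1 ≤ j}) = ∅ := by
    ext j
    simp only [Set.mem_inter_iff, Set.mem_singleton_iff, Set.mem_ofPred_eq, Set.mem_empty_iff_false,
      iff_false]
    omega
  rw [e, gpar, Set.image_empty, Subgroup.closure_empty, Subgroup.mem_bot] at h1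
  exact G.ne_one i hi h1

/-- the plateau in terms of `N` -/
theorem plat {j1 j2 : ℕ} (h : ∀ i, j1 ≤ i → i ≤ j2 → G.ρ i ∈ G.N) :
    ∀ γ ∈ G.up j1, ∃ a ∈ G.up (j2 + 1), ∃ n ∈ G.N, γ = a * n := by
  have hle : G.up j1 ≤ G.up (j2 + 1) ⊔ G.N := by
    rw [AGeo.up, gpar, Subgroup.closure_le]
    rintro _ ⟨i, hi, rfl⟩
    have hi' : j1 ≤ i := hi
    rcases Nat.lt_or_ge j2 i with h1 | h1
    · exact Subgroup.mem_sup_left (G.ρ_mem_up h1)
    · exact Subgroup.mem_sup_right (h i hi' h1)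
  intro γ hγ
  have hN : G.N.Normal := G.N_normal
  have h1 := hle hγ
  rw [Subgroup.mem_sup_of_normal_right] at h1
  obtain ⟨a, ha, n, hn, rfl⟩ := h1
  exact ⟨a, ha, n, hn, rfl⟩

end SUB

theorem t_SUB : M_SUB := by
  intro _ hDM hWIN _ hP2 hRN hVN d k Γ _ X _ G hd
  have hidx : G.H.index ≤ k - 1 := by
    have := G.idx
    omega
  have hbd : bd G.H.index ≤ bd (k - 1) := SUB.bd_mono hidx
  obtain ⟨u, q, hW⟩ := hWIN d k Γ X G (hbd.trans hd)
  have hu := hW.hu
  have hq := hW.hq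
  have hb := hW.hb
  have hd' := hW.hd
  have hρ : ∀ i, u + 1 ≤ i → i ≤ u + 9 → G.ρ i ∈ G.N := fun i h1 h2 =>
    (hRN d k Γ X G u q hW i h1 (by omega)).1
  have hV : ∀ g p, u + 1 ≤ p → p ≤ u + 10 → G.V g p = G.VV g p := fun g p h1 h2 =>
    (hVN d k Γ X G u q hW g).1 p h1 (by omega)
  have hU : ∀ g p, u + 1 ≤ p → p ≤ u + 10 → G.U g p = G.UU g p := fun g p h1 h2 => by
    rw [AGeo.U, AGeo.UU, hV g p h1 h2]
  have hD : ∀ g p, u + 1 ≤ p → p ≤ u + 9 → G.D g p = G.DD g p := fun g p h1 h2 => by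
    rw [AGeo.D, AGeo.DD, hV g (p + 1) (by omega) (by omega), hU g p h1 (by omega)]
  have hY : ∀ g p, u + 1 ≤ p → p ≤ u + 9 → G.Y g p = G.U g p := fun g p h1 h2 =>
    (hVN d k Γ X G u q hW g).2 p h1 (by omega)
  have hρi : ∀ i, u + 1 ≤ i → i ≤ u + 9 → G.ρ i ∈ G.Ni i := fun i h1 h2 =>
    ⟨hρ i h1 h2, G.ρ_mem_up le_rfl⟩
  refine ⟨u + 1, u + 1 + 8, u + 1, u + 1 + 8, ?_⟩
  refine
    { win := ?_
      huj := le_rfl
      hj := rfl
      hjq := le_rfl
      hb := by omega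
      hd := hd
      rho := fun l h1 h2 => hρ l h1 (by omega)
      dimY := ?_
      D := ?_
      Y := fun g p h1 h2 => (hY g p h1 (by omega)).symm
      kap := ?_ }
  · refine
      { hu := by omega
        huq := by omega
        hq := by omega
        nz := ?_
        line := ?_
        plat := SUB.plat G fun i h1 h2 => hρ i h1 (by omega) }
    · intro i h1 h2 h3
      exact SUB.ρ_notMem_up G (by omega) (h3 (hρi i h1 (by omega)))
    · intro g i h1 h2
      rw [hD g i h1 (by omega)]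
      exact hW.line g i h1 (by omega)
  · intro g p h1 h2
    rw [hY g p h1 (by omega), hU g p h1 (by omega), AGeo.UU]
    have h3 := Submodule.finrank_add_finrank_orthogonal (G.VV g p)
    rw [finrank_euclideanSpace_fin] at h3
    have h4 := ((hDM d k Γ X G g).1 p (by omega) (by omega)).2
    omega
  · intro g p h1 h2 i h3 h4
    rw [hY g p h1 (by omega)]
    exact (G.D_le_U g i).trans (G.U_anti g h3)
  · intro g l h1 h2
    obtain ⟨ε, hε, hs⟩ := (hRN d k Γ X G u q hW l h1 (by omega)).2 g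
    have hN := hρ l h1 (by omega)
    have hNi := hρi l h1 (by omega)
    refine ⟨ε, ?_⟩
    refine
      { sgn := hε
        fix := fun v hv => hv _ hNi
        scal := ?_
        inv := ?_
        pres := ?_
        moves := ?_ }
    · intro w hw
      rw [hU g (l + 2) (by omega) (by omega)] at hw
      exact hs w hw
    · intro v
      rw [← G.R_mul_apply g hN hN, G.sq, G.R_one]
      rfl
    · intro v hv
      refine G.R_mem_V hN (fun m hm => ?_) hv
      rw [G.inv_ρ, G.comm_up le_rfl hm.2, mul_assoc, G.sq, mul_one]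
      exact hm
    · intro e he hne
      rw [hD g l h1 (by omega)] at he ⊢
      exact (hP2 d k Γ X G u q hW g (G.ρ l) 1 l h1 (by omega) (G.Ni_le_M g l hNi) (one_mem _)
        (mul_one _).symm).2.2.2.1 e he hne

end

end FOL
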