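import Pool.Agent.FOL.MStmts

/-!
# Module SW: `S_j` is the span of all differences (sections 4.3, 4.4)
-/

namespace FOL

open Lib_helper64.FO FO2 FOI
open scoped RealInnerProductSpace

noncomputable section

namespace SW

variable {d k : ℕ} {Γ : Type} [Group Γ] {X : Type} [MulAction Γ X] (G : AGeo d k Γ X)

/-- 4.3 -/
theorem S_eq (hMS : S_MS) (hSE : S_SE) {u q : ℕ} (hW : MWin G u q) (g : Γ) (p : ℕ)
    (h1 : u + 1 ≤ p) (h2 : p + (LG G + 1) ≤ q) : G.S q g p = G.WW := by
  by_contra hne
  -- `S_i` is strictly larger than `S_{i+1}` for `i` between `p` and `q`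
  have hlt : ∀ i, p ≤ i → i < q → G.S q g (i + 1) < G.S q g i := by
    intro i hi hi'
    refine lt_of_le_of_ne (G.S_anti q g (Nat.le_succ i)) fun e => ?_
    have h3 := hSE d k Γ X G u q hW i (by omega) hi' g e.symm g
    apply hne
    refine le_antisymm (G.S_le_WW q g p) ?_
    rw [← h3]
    exact G.S_anti q g hi
  have hdim : ∀ n, p + n ≤ q → Module.finrank ℝ (G.S q g (p + n)) + n ≤
      Module.finrank ℝ (G.S q g p) := by
    intro n
    induction n with
    | zero => intro _; exact le_refl _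
    | succ n ih =>
      intro hn
      have h3 := ih (by omega)
      have h4 := Submodule.finrank_lt_finrank_of_lt (hlt (p + n) (by omega) (by omega))
      have e : p + (n + 1) = p + n + 1 := by omega
      rw [e]
      omega
  have hd := hdim (q - p) (by omega)
  rw [Nat.add_sub_cancel' (by omega : p ≤ q)] at hd
  have h5 : G.S q g p < G.WW := lt_of_le_of_ne (G.S_le_WW q g p) hne
  have h6 := Submodule.finrank_lt_finrank_of_lt h5
  have h7 : Module.finrank ℝ G.WW ≤ Module.finrank ℝ (E d) := Submodule.finrank_le _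
  have h8 : Module.finrank ℝ (E d) = d := by simp [E]
  have h9 := hMS d k Γ X G q (by omega) (by have := hW.hb; have := hW.hd; omega) g
  omega

/-- 4.4 -/
theorem YY_eq (hMY : S_MY) {u q : ℕ} (hW : MWin G u q) (g : Γ) (p : ℕ)
    (h1 : u + 1 ≤ p) (h2 : p ≤ q) (hS : G.S q g p = G.WW) : G.YY g p = G.UU g p := by
  refine le_antisymm (G.YY_le_UU g p) ?_
  intro w hw
  have h3 := (hMY d k Γ X G u q hW g p h1 h2).2.2
  have h4 : w ∈ G.VV g p ⊔ G.YY g p := h3 (by rw [hS]; exact G.UU_le_WW g p hw)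
  obtain ⟨v, hv, y, hy, rfl⟩ := Submodule.mem_sup.1 h4
  have hy' := G.YY_le_UU g p hy
  have hv' : v ∈ G.UU g p := by
    have := Submodule.sub_mem _ hw hy'
    rwa [add_sub_cancel_right] at this
  have hv0 : v = 0 := by
    have h5 := (Submodule.mem_orthogonal _ _).1 hv' v hv
    exact inner_self_eq_zero.1 h5
  rw [hv0, zero_add]
  exact hy

end SW

theorem t_SW : M_SW := by
  intro hMY hMS hSE d k Γ _ X _ G u q hW g p h1 h2
  have h3 := SW.S_eq G hMS hSE hW g p h1 h2
  exact ⟨h3, SW.YY_eq G hMY hW g p h1 (by omega) h3⟩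

end

end FOL
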