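import Pool.Agent.FOL.NStmts

/-!
# Module TOP: what is known after section 9
-/

namespace FOL

open Lib_helper64.FO FO2 FOK FOI
open scoped RealInnerProductSpace Nat

namespace TOP

variable {d k : ℕ} {Γ : Type} [Group Γ] {X : Type} [MulAction Γ X]

theorem fin_E : Module.finrank ℝ (E d) = d := finrank_euclideanSpace_fin

/-- a chain of subspaces that is strictly increasing from `a` to `b` -/
theorem chain (V : ℕ → Submodule ℝ (E d)) (a : ℕ) :
    ∀ m, (∀ i, a ≤ i → i < a + m → V i < V (i + 1)) →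
      Module.finrank ℝ (V a) + m ≤ Module.finrank ℝ (V (a + m)) := by
  intro m
  induction m with
  | zero => intro _; exact le_rfl
  | succ m ih =>
    intro h
    have h1 := ih fun i hi hi' => h i hi (by omega)
    have h2 : Module.finrank ℝ (V (a + m)) < Module.finrank ℝ (V (a + m + 1)) :=
      Submodule.finrank_lt_finrank_of_lt (h (a + m) (by omega) (by omega))
    have e : a + (m + 1) = a + m + 1 := by omega
    rw [e]
    omega

end TOP

open TOP in
theorem t_TOP : M_TOP := by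
  intro hNZ hSTEP hRUN hN1 hNINE hFS d k Γ _ X _ G u q j1 j2 hS
  have e0 := hS.win.hu
  have e1 := hS.hj
  have e2 := hS.hjq
  have e3 := hS.hd
  have e4 := hS.huj
  have e5 := hS.hb
  have hroots : ∀ g, RootsFrom G j2 (j1 + 2) g := fun g => hRUN d k Γ X G u q j1 j2 hS g
  have h3 := hN1 d k Γ X G u q j1 j2 hS hroots
  have hnine : ∀ m, j1 + 3 ≤ m → m ≤ j1 + 5 → FOI.Nine G m :=
    hNINE d k Γ X G u q j1 j2 hS hroots h3
  have hup4 : G.up (j1 + 4) ≤ G.N := hFS d k Γ X G (j1 + 3) (hnine _ (by omega) (by omega))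
  have hup2 : G.up (j1 + 2) ≤ G.N := by
    rw [AGeo.up, gpar, Subgroup.closure_le]
    rintro _ ⟨j, hj, rfl⟩
    have hj' : j1 + 2 ≤ j := hj
    rcases Nat.lt_or_ge j (j1 + 4) with h | h
    · exact hS.rho j (by omega) (by omega)
    · exact hup4 (G.ρ_mem_up h)
  have hnz : ∀ i, 1 ≤ i → i < d → G.NZ i := (hNZ d k Γ X G).2 (j1 + 2) (by omega) hup2
  have hlt : ∀ g i, 1 ≤ i → i < d → G.V g i < G.V g (i + 1) := fun g i h1 h2 =>
    (hSTEP d k Γ X G g).2.1 i h1 (hnz i h1 h2)
  have hdimV : ∀ g i, 1 ≤ i → i ≤ d →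
      i ≤ Module.finrank ℝ (G.V g i) + 1 ∧ Module.finrank ℝ (G.V g i) ≤ i := by
    intro g i h1 h2
    have h5 := chain (fun i => G.V g i) 1 (i - 1) fun m hm hm' => hlt g m hm (by omega)
    have h6 := chain (fun i => G.V g i) i (d - i) fun m hm hm' => hlt g m (by omega) (by omega)
    have e5 : 1 + (i - 1) = i := by omega
    have e6 : i + (d - i) = d := by omega
    rw [e5] at h5
    rw [e6] at h6
    have h7 := Submodule.finrank_le (G.V g d)
    rw [fin_E] at h7
    omega
  have hdim : ∀ g, d ≤ Module.finrank ℝ (G.Y g (j1 + 5)) + (j1 + 5) := by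
    intro g
    rw [← hS.Y g (j1 + 5) (by omega) (by omega)]
    have h5 := (hdimV g (j1 + 5) (by omega) (by omega)).2
    have h6 := Submodule.finrank_add_finrank_orthogonal (G.V g (j1 + 5))
    rw [fin_E] at h6
    have h7 : Module.finrank ℝ (G.U g (j1 + 5)) = Module.finrank ℝ (G.V g (j1 + 5))ᗮ := rfl
    omega
  refine ⟨by omega, by omega, by omega, ?_, hnz, ?_, ?_, ?_, hdimV⟩
  · have e5 : j1 + 5 - 3 = j1 + 2 := by omega
    rw [e5]
    exact hup2
  · intro g
    obtain ⟨a, ha⟩ := (hroots g).1 (j1 + 5) (by omega) (by omega)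
    exact ⟨a, ha.norm, ha.act⟩
  · exact fun g => (hnine (j1 + 5) (by omega) le_rfl).irr g
  · intro g
    rw [(hnine (j1 + 5) (by omega) le_rfl).span g]
    exact hdim g

end FOL
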