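import Pool.Agent.FOL.MStmts

/-!
# Module VN: the spaces `V_p`, `Y_p` in terms of `N` (6.4)
-/

namespace FOL

open Lib_helper64.FO FO2 FOI
open scoped RealInnerProductSpace

noncomputable section

namespace VN

variable {d k : ℕ} {Γ : Type} [Group Γ] {X : Type} [MulAction Γ X] (G : AGeo d k Γ X)

theorem conj_Ni {i : ℕ} {γ n : Γ} (hγ : γ ∈ G.up i) (hn : n ∈ G.Ni i) :
    γ * n * γ⁻¹ ∈ G.Ni i :=
  G.conj_up hγ hn

theorem conj_Ni' {i : ℕ} {γ n : Γ} (hγ : γ ∈ G.up i) (hn : n ∈ G.Ni i) :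
    γ⁻¹ * n * γ ∈ G.Ni i :=
  ⟨G.conj_mem_N' γ hn.1, (G.up i).mul_mem ((G.up i).mul_mem ((G.up i).inv_mem hγ) hn.2) hγ⟩

/-- `M_p` preserves `V^N_p` -/
theorem RM_mem_V {g m : Γ} {p : ℕ} (hm : m ∈ G.M g p) {v : E d} (hv : v ∈ G.V g p) :
    G.R g m v ∈ G.V g p := by
  intro n hn
  have h1 := hv _ (conj_Ni' G hm.2 hn)
  have e : n * m = m * (m⁻¹ * n * m) := by group
  rw [← G.RM_mul_apply g (G.N_le_Hc g hn.1) hm.1, e,
    G.RM_mul_apply g hm.1 (G.N_le_Hc g (G.conj_mem_N' m hn.1)), h1]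

/-- `up p = N_p up (w + 1)` -/
theorem up_decomp {p w : ℕ} (hpw : p ≤ w + 1) (h : ∀ l, p ≤ l → l ≤ w → G.ρ l ∈ G.N) {γ : Γ}
    (hγ : γ ∈ G.up p) : ∃ n ∈ G.Ni p, ∃ b ∈ G.up (w + 1), γ = n * b := by
  refine Subgroup.closure_induction
    (p := fun γ _ => ∃ n ∈ G.Ni p, ∃ b ∈ G.up (w + 1), γ = n * b) ?_ ?_ ?_ ?_ hγ
  · rintro _ ⟨l, hl, rfl⟩
    have hl' : p ≤ l := hl
    rcases Nat.lt_or_ge w l with h1 | h1
    · exact ⟨1, one_mem _, G.ρ l, G.ρ_mem_up (by omega), (one_mul _).symm⟩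
    · exact ⟨G.ρ l, ⟨h l hl' h1, G.ρ_mem_up hl'⟩, 1, one_mem _, (mul_one _).symm⟩
  · exact ⟨1, one_mem _, 1, one_mem _, (one_mul _).symm⟩
  · rintro _ _ _ _ ⟨n, hn, b, hb, rfl⟩ ⟨n', hn', b', hb', rfl⟩
    refine ⟨n * (b * n' * b⁻¹), mul_mem hn (conj_Ni G (G.up_anti hpw hb) hn'), b * b',
      mul_mem hb hb', by group⟩
  · rintro _ _ ⟨n, hn, b, hb, rfl⟩
    refine ⟨b⁻¹ * n⁻¹ * b, conj_Ni' G (G.up_anti hpw hb) (inv_mem hn), b⁻¹, inv_mem hb, by group⟩

end VN

open VN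

theorem t_VN : M_VN := by
  intro hMY hSW hRN d k Γ _ X _ G u q hw g
  have part1 : ∀ p, u + 1 ≤ p → p + (2 * LG G + 3) ≤ q → G.V g p = G.VV g p := by
    intro p hp1 hp2
    have hYU : G.YY g p = G.UU g p := (hSW d k Γ X G u q hw g p hp1 (by omega)).2
    have hinv := (hMY d k Γ X G u q hw g p hp1 (by omega)).1
    have hle := G.VV_le_V g p
    have hB := hinv (G.V g p ⊓ G.UU g p) (by rw [hYU]; exact inf_le_right) (by
      intro n hn w hw'
      exact ⟨RM_mem_V G hn hw'.1, G.RM_mem_UU hn hw'.2⟩)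
    rcases hB with hB | hB
    · have h1 := Submodule.sup_orthogonal_inf_of_hasOrthogonalProjection hle
      have h2 : (G.VV g p)ᗮ ⊓ G.V g p = ⊥ := by
        rw [inf_comm]
        exact hB
      rw [h2, sup_bot_eq] at h1
      exact h1.symm
    · exfalso
      have h1 : G.UU g p ≤ G.V g p := by
        rw [← hYU, ← hB]
        exact inf_le_left
      have h2 : G.V g p = ⊤ := by
        rw [eq_top_iff, ← Submodule.sup_orthogonal_of_hasOrthogonalProjection (K := G.VV g p)]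
        exact sup_le hle h1
      have h3 : G.ρ p ∈ G.N := (hRN d k Γ X G u q hw p hp1 hp2).1
      have h4 : G.ρ p ∈ G.up (d + 1) := by
        apply G.mem_up_of_R' (g := g) h3 (G.stab p (by omega))
        intro v _
        have : v ∈ G.V g p := by rw [h2]; trivial
        exact this _ ⟨h3, G.ρ_mem_up le_rfl⟩
      have hd : p < d := by
        have e1 := hw.hb
        have e2 := hw.hd
        omega
      exact G.ne_one p hd (G.one_mem_up_d (G.up_anti (by omega) h4))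
  refine ⟨part1, ?_⟩
  intro p hp1 hp2
  have hV : G.V g p = G.VV g p := part1 p hp1 (by omega)
  have hV' : G.V g (p + 1) = G.VV g (p + 1) := part1 (p + 1) (by omega) (by omega)
  have hU : G.U g p = G.UU g p := by rw [AGeo.U, AGeo.UU, hV]
  have hD : G.D g p = G.DD g p := by rw [AGeo.D, AGeo.DD, hV', hU]
  have hYU : G.YY g p = G.UU g p := (hSW d k Γ X G u q hw g p hp1 (by omega)).2
  have hinv := (hMY d k Γ X G u q hw g p hp1 (by omega)).1
  obtain ⟨w, hwq⟩ : ∃ w, w + (2 * LG G + 3) = q := ⟨q - (2 * LG G + 3), by omega⟩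
  have hdec : ∀ m ∈ G.M g p, ∀ e ∈ G.D g p, ∃ n ∈ G.Ni p, G.R g m e = G.R g n e := by
    intro m hm e he
    obtain ⟨n, hn, b, hb, rfl⟩ := up_decomp G (p := p) (w := w) (by omega)
      (fun l h1 h2 => (hRN d k Γ X G u q hw l (by omega) (by omega)).1) hm.2
    have hnH : n ∈ G.Hc g := G.N_le_Hc g hn.1
    have hbH : b ∈ G.Hc g := by
      have : n⁻¹ * (n * b) ∈ G.Hc g := mul_mem (inv_mem hnH) hm.1
      rwa [inv_mul_cancel_left] at this
    refine ⟨n, hn, ?_⟩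
    rw [G.RM_mul_apply g hnH hbH]
    congr 1
    have h1 : e ∈ G.VV g (w + 1) := by
      apply G.VV_mono g (show p + 1 ≤ w + 1 by omega)
      rw [← hV']
      exact he.1
    exact h1 b ⟨hbH, hb⟩
  have hYle : G.Y g p ≤ G.YY g p := by
    rw [hYU, ← hU]
    exact G.Y_le_U g p
  have hB := hinv (G.Y g p) hYle (by
    intro m hm w' hw'
    rw [AGeo.Y] at hw'
    induction hw' using Submodule.span_induction with
    | mem x hx =>
      obtain ⟨n0, hn0, e, he, rfl⟩ := hx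
      obtain ⟨n, hn, hne⟩ := hdec m hm e he
      have e1 : m * n0 = (m * n0 * m⁻¹) * m := by group
      rw [← G.RM_mul_apply g hm.1 (G.N_le_Hc g hn0.1), e1,
        G.RM_mul_apply g (G.N_le_Hc g (G.conj_mem_N m hn0.1)) hm.1, hne,
        ← G.RM_mul_apply g (G.N_le_Hc g (G.conj_mem_N m hn0.1)) (G.N_le_Hc g hn.1)]
      exact Submodule.subset_span ⟨_, mul_mem (conj_Ni G hm.2 hn0) hn, e, he, rfl⟩
    | zero => rw [map_zero]; exact zero_mem _
    | add x y _ _ hx hy => rw [map_add]; exact add_mem hx hy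
    | smul c x _ hx => rw [map_smul]; exact Submodule.smul_mem _ c hx)
  rcases hB with hB | hB
  · exfalso
    have h1 : G.DD g p = ⊥ := by
      rw [eq_bot_iff, ← hB, ← hD]
      exact G.D_le_Y g p
    have h2 := hw.line g p hp1 (by omega)
    rw [h1, finrank_bot] at h2
    exact absurd h2 (by norm_num)
  · rw [hB, hYU, hU]

end

end FOL
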