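import Pool.Agent.FOL.MStmts

/-!
# Module WIN: the window, sections 2.4 and 2.5 of `Pool/Agent/FOL/PAPER.md`
-/

namespace FOL

open Lib_helper64.FO FO2 FOI
open scoped RealInnerProductSpace

noncomputable section

namespace WIN

variable {d k : ℕ} {Γ : Type} [Group Γ] {X : Type} [MulAction Γ X] (G : AGeo d k Γ X)

/-- `ρ i` is not in `up (i + 1)` for `i < d`. -/
theorem ρ_notMem_up {i : ℕ} (hi : i < d) : G.ρ i ∉ G.up (i + 1) := by
  intro h
  have h1 : G.ρ i ∈ gpar G.ρ {i} ⊓ gpar G.ρ {j | i + 1 ≤ j} :=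
    ⟨Subgroup.subset_closure ⟨i, rfl, rfl⟩, h⟩
  rw [G.inter] at h1
  have e : (({i} : Set ℕ) ∩ {j | i + 1 ≤ j}) = ∅ := by
    ext j
    simp only [Set.mem_inter_iff, Set.mem_singleton_iff, Set.mem_ofPred_eq, Set.mem_empty_iff_false,
      iff_false]
    omega
  rw [e, gpar, Set.image_empty, Subgroup.closure_empty, Subgroup.mem_bot] at h1
  exact G.ne_one i hi h1

/-- induction on the elements of `Γ`, with generators on the right -/
theorem gen_induction {p : Γ → Prop} (h1 : p 1) (h2 : ∀ γ i, p γ → p (γ * G.ρ i)) (γ : Γ) :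
    p γ := by
  have hγ : γ ∈ Subgroup.closure (G.ρ '' Set.univ) := by
    have h := G.gen
    rw [gpar] at h
    rw [h]
    trivial
  refine Subgroup.closure_induction_right (p := fun x _ => p x) h1 ?_ ?_ hγ
  · rintro x _ _ ⟨i, -, rfl⟩ hx
    exact h2 x i hx
  · rintro x _ _ ⟨i, -, rfl⟩ hx
    rw [G.inv_ρ]
    exact h2 x i hx

/-- the excess of the dimension at `i` -/
def exc (i : ℕ) : ℕ :=
  Module.finrank ℝ (G.VV 1 (i + 1)) - Module.finrank ℝ (G.VV 1 i) - 1

/-- the numbers `ψ_j` -/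
def psi (j : ℕ) : ℕ := (LG G - Nat.log 2 (G.sM 1 j)) + ∑ i ∈ Finset.Ico 1 j, exc G i

/-- the dimensions of the `V_i` do not depend on the frame -/
theorem dim_const {u q : ℕ}
    (hp : ∀ g, ∀ γ ∈ G.up u, ∃ m ∈ G.M g u, ∃ a ∈ G.up (q + 1), γ = m * a) {i : ℕ}
    (h1 : u + 1 ≤ i) (h2 : i ≤ q + 1) (g : Γ) :
    Module.finrank ℝ (G.VV g i) = Module.finrank ℝ (G.VV 1 i) := by
  refine gen_induction G (p := fun γ => Module.finrank ℝ (G.VV γ i) =
    Module.finrank ℝ (G.VV 1 i)) rfl ?_ g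
  intro γ j hγ
  rcases eq_or_ne i (j + 1) with rfl | hij
  · obtain ⟨m, hm, a, ha, he⟩ := hp γ (G.ρ j) (G.ρ_mem_up (by omega))
    rw [he, G.VV_frame_M_map hm.1 (G.up_anti h2 ha), LinearEquiv.finrank_map_eq]
    exact hγ
  · rw [G.VV_frame_ρ hij]
    exact hγ

theorem finrank_DD (g : Γ) (i : ℕ) :
    Module.finrank ℝ (G.VV g i) + Module.finrank ℝ (G.DD g i) =
      Module.finrank ℝ (G.VV g (i + 1)) := by
  have h := Submodule.finrank_add_inf_finrank_orthogonal (G.VV_mono g (Nat.le_succ i))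
  rw [AGeo.DD, AGeo.UU, inf_comm]
  exact h

end WIN

open WIN in
theorem t_WIN : M_WIN := by
  intro hZ hST hDM hC hC2 hPIG d k Γ _ X _ G hbd
  obtain ⟨hc1, hc2, hc3⟩ := hC d k Γ X G
  obtain ⟨-, hc5⟩ := hC2 d k Γ X G
  obtain ⟨hz1, hz2, -, -⟩ := hZ d k Γ X G 1
  obtain ⟨-, -, hd3⟩ := hDM d k Γ X G 1
  have hbd0 : bd G.H.index = G.H.index + (2 * LG G + 2) * (2 * LG G + 14) + 36 := by
    rw [bd, show Nat.log 2 G.H.index = LG G from rfl]
    ring
  have hlog : ∀ i, Nat.log 2 (G.sM 1 i) ≤ LG G := fun i => Nat.log_mono_right (hz2 i).2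
  have hlog2 : ∀ i j, i ≤ j → Nat.log 2 (G.sM 1 j) ≤ Nat.log 2 (G.sM 1 i) :=
    fun i j h => Nat.log_mono_right (hz1 i j h)
  have hsum : ∀ i j, 1 ≤ i → i ≤ j → ∑ m ∈ Finset.Ico 1 i, exc G m + ∑ m ∈ Finset.Ico i j, exc G m
      = ∑ m ∈ Finset.Ico 1 j, exc G m :=
    fun i j hi hj => Finset.sum_Ico_consecutive _ hi hj
  obtain ⟨u, hu1, hu2, hu3, hu4⟩ := hPIG (fun j => G.cM j) (fun j => psi G j) G.H.index
    (2 * LG G + 1) (2 * LG G + 14) (G.H.index + (2 * LG G + 2) * (2 * LG G + 14) + 1)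
    (fun j _ _ => hc1 j (j + 1) (Nat.le_succ j))
    (fun j _ _ => hc2 j)
    (by
      intro j hj _
      have h1 := hlog2 j (j + 1) (Nat.le_succ j)
      have h2 := hsum j (j + 1) hj (Nat.le_succ j)
      simp only [psi]
      omega)
    (by
      intro j hj hjJ
      have h2 := hsum j d hj (by omega)
      have h3 : ∑ m ∈ Finset.Ico 1 d, exc G m ≤ LG G + 1 := hd3
      simp only [psi]
      omega)
    (by
      intro i j hi hij hjJ hci hcj hψ
      by_contra hne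
      have h1 := hc1 i j hij.le
      have h2 := hc5 i j hij hci hcj (by omega)
      have h3 : Nat.log 2 (G.sM 1 j) + 1 ≤ Nat.log 2 (G.sM 1 i) := by
        have h4 : Nat.log 2 (2 * G.sM 1 j) = Nat.log 2 (G.sM 1 j) + 1 := by
          rw [mul_comm]
          exact Nat.log_mul_base (by norm_num) (by have := (hz2 j).1; omega)
        rw [← h4]
        exact Nat.log_mono_right h2
      have h5 := hlog i
      have h6 := hsum i j hi hij.le
      simp only [psi] at hψ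
      omega)
    (by
      have : (2 * LG G + 1 + 1) = 2 * LG G + 2 := by ring
      rw [this])
  obtain ⟨q, hq⟩ : ∃ q, q = u + (2 * LG G + 13) := ⟨_, rfl⟩
  have hq1 : u + (2 * LG G + 14) = q + 1 := by omega
  rw [hq1] at hu3 hu4
  have hqd : q + 36 ≤ bd G.H.index := by omega
  have hplat : ∀ i, u ≤ i → i ≤ q + 1 → ∀ g, ∀ γ ∈ G.up i, ∃ m ∈ G.M g i, ∃ a ∈ G.up (q + 1),
      γ = m * a := by
    intro i hi hiq
    apply hc3 i (q + 1) hiq
    have h1 := hc1 u i hi
    have h2 := hc1 i (q + 1) hiq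
    omega
  have hnz : ∀ g i, u ≤ i → i ≤ q → ¬ G.Z g i := by
    intro g i hi hiq hzi
    apply ρ_notMem_up G (show i < d by omega)
    obtain ⟨m, hm, a, ha, he⟩ := hplat i hi (by omega) g (G.ρ i) (G.ρ_mem_up le_rfl)
    rw [he]
    exact mul_mem (hzi hm) (G.up_anti (by omega) ha)
  refine ⟨u, q, hu1, hq, hqd, hbd, hplat u le_rfl (by omega), hnz, ?_⟩
  intro g i hi hiq
  have hsz : ∑ m ∈ Finset.Ico u (q + 1), exc G m = 0 := by
    have h1 := hsum u (q + 1) hu1 (by omega)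
    have h2 := hlog2 u (q + 1) (by omega)
    have h3 := hlog u
    simp only [psi] at hu4
    omega
  have hexc : exc G i = 0 :=
    (Finset.sum_eq_zero_iff.1 hsz) i (Finset.mem_Ico.2 ⟨by omega, by omega⟩)
  have h1 := dim_const G (hplat u le_rfl (by omega)) hi (by omega : i ≤ q + 1) g
  have h2 := dim_const G (hplat u le_rfl (by omega)) (by omega : u + 1 ≤ i + 1)
    (by omega : i + 1 ≤ q + 1) g
  have h3 := finrank_DD G g i
  have h4 := Submodule.finrank_lt_finrank_of_lt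
    ((hST d k Γ X G 1).2.1 i (by omega) (hnz 1 i (by omega) hiq))
  rw [exc] at hexc
  omega

end

end FOL
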