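import Pool.Agent.FOL.MStmts

/-!
# Module Z: the zeros (1.5 of `Pool/Agent/FOL/PAPER.md`)
-/

namespace FOL

open Lib_helper64.FO FO2 FOI
open scoped RealInnerProductSpace

noncomputable section

namespace Z

variable {d k : ℕ} {Γ : Type} [Group Γ] {X : Type} [MulAction Γ X] (G : AGeo d k Γ X)

theorem index_Hc (g : Γ) : (G.Hc g).index = G.H.index :=
  Subgroup.index_comap_of_surjective _ (MulAut.conj g).surjective

theorem sM_le_index (g : Γ) (i : ℕ) : G.sM g i ≤ G.H.index := by
  have h : (G.Hc g).relIndex ⊤ ≠ 0 := by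
    rw [Subgroup.relIndex_top_right, index_Hc]
    exact G.idx0
  have h1 := Subgroup.relIndex_le_of_le_right (le_top : G.up i ≤ ⊤) h
  rw [Subgroup.relIndex_top_right, index_Hc] at h1
  exact h1

theorem sM_ne_zero (g : Γ) (i : ℕ) : G.sM g i ≠ 0 := by
  intro h0
  have h1 := Subgroup.relIndex_eq_zero_of_le_right (le_top : G.up i ≤ ⊤) h0
  rw [Subgroup.relIndex_top_right, index_Hc] at h1
  exact G.idx0 h1

theorem sM_anti (g : Γ) {i j : ℕ} (h : i ≤ j) : G.sM g j ≤ G.sM g i :=
  Subgroup.relIndex_le_of_le_right (G.up_anti h) (sM_ne_zero G g i)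

theorem sM_zero {g : Γ} {i : ℕ} (hi : i < d) (hz : G.Z g i) :
    2 * G.sM g (i + 1) ≤ G.sM g i := by
  have hle : G.up (i + 1) ≤ G.up i := G.up_anti (Nat.le_succ i)
  have e : G.Hc g ⊓ G.up i = G.Hc g ⊓ G.up (i + 1) :=
    le_antisymm (le_inf inf_le_left hz) (inf_le_inf le_rfl hle)
  have h1 : G.sM g i = G.sM g (i + 1) * (G.up (i + 1)).relIndex (G.up i) := by
    rw [AGeo.sM, AGeo.sM, ← Subgroup.inf_relIndex_right (G.Hc g) (G.up i), e,
      ← Subgroup.relIndex_mul_relIndex _ _ _ inf_le_right hle, Subgroup.inf_relIndex_right]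
  have h2 : (G.up (i + 1)).relIndex (G.up i) ≠ 0 := by
    intro h0
    rw [h0, mul_zero] at h1
    exact sM_ne_zero G g i h1
  have h3 : (G.up (i + 1)).relIndex (G.up i) ≠ 1 := by
    intro h0
    rw [Subgroup.relIndex_eq_one] at h0
    have h4 : G.ρ i ∈ G.up (i + 1) := h0 (G.ρ_mem_up le_rfl)
    have h5 : G.ρ i ∈ gpar G.ρ {i} ⊓ gpar G.ρ {j | i + 1 ≤ j} :=
      ⟨Subgroup.subset_closure ⟨i, rfl, rfl⟩, h4⟩
    rw [G.inter] at h5
    have e2 : ({i} : Set ℕ) ∩ {j | i + 1 ≤ j} = ∅ := by
      ext j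
      simp only [Set.mem_inter_iff, Set.mem_singleton_iff, Set.mem_ofPred_eq,
        Set.mem_empty_iff_false, iff_false]
      omega
    rw [e2, gpar, Set.image_empty, Subgroup.closure_empty, Subgroup.mem_bot] at h5
    exact G.ne_one i hi h5
  rw [h1, mul_comm]
  exact Nat.mul_le_mul_left _ (by omega)

theorem pow_le (g : Γ) (s : Finset ℕ) (hs : ∀ i ∈ s, i < d ∧ G.Z g i) (n : ℕ) :
    2 ^ (s.filter fun i => i < n).card * G.sM g n ≤ G.H.index := by
  induction n with
  | zero =>
    have e : (s.filter fun i => i < 0) = ∅ := by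
      apply Finset.filter_eq_empty_iff.2
      intro i _
      omega
    rw [e, Finset.card_empty, pow_zero, one_mul]
    exact sM_le_index G g 0
  | succ n ih =>
    by_cases hn : n ∈ s
    · have e : (s.filter fun i => i < n + 1) = insert n (s.filter fun i => i < n) := by
        ext i
        simp only [Finset.mem_filter, Finset.mem_insert]
        constructor
        · rintro ⟨h1, h2⟩
          rcases Nat.lt_succ_iff_lt_or_eq.1 h2 with h3 | h3
          · exact Or.inr ⟨h1, h3⟩
          · exact Or.inl h3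
        · rintro (rfl | ⟨h1, h2⟩)
          · exact ⟨hn, Nat.lt_succ_self _⟩
          · exact ⟨h1, by omega⟩
      have hni : n ∉ s.filter fun i => i < n := by
        intro h
        exact lt_irrefl _ (Finset.mem_filter.1 h).2
      rw [e, Finset.card_insert_of_notMem hni, pow_succ, mul_assoc]
      refine le_trans (Nat.mul_le_mul_left _ ?_) ih
      exact sM_zero G (hs n hn).1 (hs n hn).2
    · have e : (s.filter fun i => i < n + 1) = s.filter fun i => i < n := by
        ext i
        simp only [Finset.mem_filter]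
        constructor
        · rintro ⟨h1, h2⟩
          rcases Nat.lt_succ_iff_lt_or_eq.1 h2 with h3 | h3
          · exact ⟨h1, h3⟩
          · exact absurd (h3 ▸ h1) hn
        · rintro ⟨h1, h2⟩
          exact ⟨h1, by omega⟩
      rw [e]
      exact le_trans (Nat.mul_le_mul_left _ (sM_anti G g (Nat.le_succ n))) ih

theorem card_le (g : Γ) (s : Finset ℕ) (hs : ∀ i ∈ s, i < d ∧ G.Z g i) : s.card ≤ LG G := by
  have h := pow_le G g s hs d
  have e : (s.filter fun i => i < d) = s := Finset.filter_true_of_mem fun i hi => (hs i hi).1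
  rw [e] at h
  have h1 : 1 ≤ G.sM g d := Nat.one_le_iff_ne_zero.2 (sM_ne_zero G g d)
  have h2 : 2 ^ s.card ≤ G.H.index :=
    le_trans (le_mul_of_one_le_right (Nat.zero_le _) h1) h
  exact Nat.le_log_of_pow_le (by norm_num) h2

end Z

theorem t_Z : S_Z := by
  intro d k Γ _ X _ G g
  exact ⟨fun i j h => Z.sM_anti G g h,
    fun i => ⟨Nat.one_le_iff_ne_zero.2 (Z.sM_ne_zero G g i), Z.sM_le_index G g i⟩,
    fun i hi hz => Z.sM_zero G hi hz, fun s hs => Z.card_le G g s hs⟩

end

end FOL
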