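import Pool.Agent.FOK.COMP
import Pool.Agent.FOK.SL
import Pool.Agent.FOK.AD
import Pool.Agent.FOK.AUT
import Pool.Agent.FOK.FR
import Pool.Agent.FOK.VECA
import Pool.Agent.FOK.VECD
import Pool.Agent.FOI.ORD
import Pool.Agent.FOI.IDX
import Pool.Agent.FOI.NZ
import Pool.Agent.FOI.STEP
import Pool.Agent.FOI.BET
import Pool.Agent.FOI.FS
import Pool.Agent.FOL.Z
import Pool.Agent.FOL.ST
import Pool.Agent.FOL.DM
import Pool.Agent.FOL.C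
import Pool.Agent.FOL.C2
import Pool.Agent.FOL.PIG
import Pool.Agent.FOL.WIN
import Pool.Agent.FOL.P1
import Pool.Agent.FOL.P2
import Pool.Agent.FOL.MY
import Pool.Agent.FOL.MS
import Pool.Agent.FOL.SE
import Pool.Agent.FOL.SW
import Pool.Agent.FOL.E1
import Pool.Agent.FOL.E2
import Pool.Agent.FOL.EP1
import Pool.Agent.FOL.RN
import Pool.Agent.FOL.VN
import Pool.Agent.FOL.SUB
import Pool.Agent.FOL.Y
import Pool.Agent.FOL.PL
import Pool.Agent.FOL.KK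
import Pool.Agent.FOL.E0
import Pool.Agent.FOL.EA0
import Pool.Agent.FOL.EA
import Pool.Agent.FOL.ED
import Pool.Agent.FOL.EX
import Pool.Agent.FOL.EP
import Pool.Agent.FOL.RUN
import Pool.Agent.FOL.N1
import Pool.Agent.FOL.NINE
import Pool.Agent.FOL.TOP

/-!
# `S_ATOP` from the modules
-/

namespace FOL

theorem f_DM : S_DM := t_DM t_Z t_ST
theorem f_C2 : S_C2 := t_C2 t_C
theorem f_WIN : S_WIN := t_WIN t_Z t_ST f_DM t_C f_C2 t_PIG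
theorem f_P2 : S_P2 := t_P2 t_ST t_P1
theorem f_MY : S_MY := t_MY t_P1 f_P2
theorem f_MS : S_MS := t_MS t_Z t_ST f_DM
theorem f_SE : S_SE := t_SE t_P1
theorem f_SW : S_SW := t_SW f_MY f_MS f_SE
theorem f_E1 : S_E1 := t_E1 f_SW
theorem f_E2 : S_E2 := t_E2 t_P1 f_E1
theorem f_EP1 : S_EP1 := t_EP1 t_P1 f_P2
theorem f_RN : S_RN := t_RN t_P1 f_P2 f_SW f_E2 f_EP1
theorem f_VN : S_VN := t_VN f_MY f_SW f_RN
theorem f_SUB : S_SUB := t_SUB t_ST f_DM f_WIN t_P1 f_P2 f_RN f_VN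
theorem f_PL : S_PL := t_PL FOI.t_STEP
theorem f_KK : S_KK := t_KK t_Y
theorem f_RUN : S_RUN := t_RUN FOK.t_COMP FOK.t_SL FOK.t_AD FOK.t_AUT FOK.t_FR FOK.t_VECA
  FOK.t_VECD f_KK (t_E0 t_Y f_PL f_KK) (t_EA0 f_PL f_KK) (t_EA f_PL) (t_ED f_PL) (t_EX f_PL)
  (t_EP f_PL)
theorem f_NINE : S_NINE := t_NINE FOK.t_COMP FOK.t_SL f_KK f_PL
theorem f_TOP : S_TOP := t_TOP (FOI.t_NZ FOI.t_ORD FOI.t_IDX) FOI.t_STEP f_RUN t_N1 f_NINE
  (FOI.t_FS FOI.t_BET)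

theorem f_ATOP : S_ATOP := by
  intro d k Γ _ X _ G hd
  obtain ⟨u, q, j1, j2, h⟩ := f_SUB d k Γ X G hd
  exact ⟨j1 + 5, f_TOP d k Γ X G u q j1 j2 h⟩

end FOL
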