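import Pool.Agent.FOL.BStmts
import Pool.Agent.FO2.ST

/-!
# Module ASV (section II.6): the products of a direction with the elements of `Ph 1 1 l`
-/

namespace FOI.L

open Lib_helper64.FO FO2 FOK
open scoped RealInnerProductSpace Nat

namespace ASV

variable {d k : ℕ} {Γ : Type} [Group Γ] {X : Type} [MulAction Γ X] (G : AGeo d k Γ X)

/-- the roots of the reflections through the point `z` -/
def Pz (l : ℕ) (z : E d) : Set (E d) := {b | ∃ y ∈ TT G 0 l, ∃ h, Mir G y b h ∧ ⟪b, z⟫ = h}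

theorem TT_mono {l : ℕ} {x : Γ} (hx : x ∈ TT G 1 l) : x ∈ TT G 0 l := by
  obtain ⟨γ, _, e⟩ := hx
  exact ⟨γ, G.mem_up_zero γ, e⟩

theorem TT_conj {l : ℕ} {x : Γ} (hx : x ∈ TT G 0 l) (y : Γ) : y * x * y⁻¹ ∈ TT G 0 l := by
  obtain ⟨γ, _, rfl⟩ := hx
  refine ⟨y * γ, G.mem_up_zero _, ?_⟩
  group

/-- a mirror contains its fixed points -/
theorem aff_eq {y : Γ} {b z : E d} {h : ℝ} (hm : Mir G y b h) (hz : ⟪b, z⟫ = h) :
    aff G y z = z := by
  rw [hm.aff, hz, sub_self, mul_zero, zero_smul, sub_zero]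

theorem eq_of_aff {y : Γ} {b z : E d} {h : ℝ} (hm : Mir G y b h) (hz : aff G y z = z) :
    ⟪b, z⟫ = h := by
  rw [hm.aff, sub_eq_self] at hz
  rcases smul_eq_zero.1 hz with h1 | h1
  · linarith
  · exfalso
    have h2 := hm.norm
    rw [h1, norm_zero] at h2
    exact zero_ne_one h2

theorem isRS {l : ℕ} (hAFF : S_AFF) (hT : ATop G l) (hMIR : S_MIR) (hPROP : S_PROP) (z : E d)
    (hne : (Pz G l z).Nonempty) : IsRS (Pz G l z) := by
  obtain ⟨-, aMul, -, aOne, -⟩ := hAFF d k Γ X G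
  obtain ⟨-, mN, -, mR, -, -⟩ := hMIR d k Γ X G l hT
  refine ⟨?_, hne, ?_, ?_⟩
  · have h1 := hPROP d k Γ X G z 0
    have h2 : Pz G l z ⊆ ⋃ n ∈ {n : Γ | n ∈ G.N ∧ ‖aff G n z - z‖ ≤ 0},
        {b : E d | ‖b‖ = 1 ∧ ∀ v, G.R 1 n v = sref b v} := by
      rintro b ⟨y, hy, h, hm, hz⟩
      rw [Set.mem_iUnion₂]
      refine ⟨y, ⟨(mN y hy).1, ?_⟩, hm.norm, hm.lin⟩
      rw [aff_eq G hm hz, sub_self, norm_zero]
    refine (h1.biUnion ?_).subset h2
    intro n _
    by_cases hn : ∃ b : E d, ‖b‖ = 1 ∧ ∀ v, G.R 1 n v = sref b v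
    · obtain ⟨b, hb, hb'⟩ := hn
      refine (Set.toFinite ({b, -b} : Set (E d))).subset ?_
      rintro b' ⟨hb1, hb2⟩
      rcases ST.eq_of_sref hb1 hb (fun v => by rw [← hb2, hb']) with h | h
      · exact Or.inl h
      · exact Or.inr h
    · have : {b : E d | ‖b‖ = 1 ∧ ∀ v, G.R 1 n v = sref b v} = ∅ := by
        ext b
        constructor
        · intro hb
          exact hn ⟨b, hb⟩
        · intro hb
          exact hb.elim
      rw [this]
      exact Set.finite_empty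
  · rintro b ⟨y, _, h, hm, _⟩
    exact hm.norm
  · rintro b1 ⟨y1, hy1, h1, hm1, hz1⟩ b2 ⟨y2, hy2, h2, hm2, hz2⟩
    have hN1 := (mN y1 hy1).1
    have hN2 := (mN y2 hy2).1
    have hc : y1 * y2 * y1⁻¹ ∈ TT G 0 l := TT_conj G hy2 y1
    have hlin : ∀ v, G.R 1 (y1 * y2 * y1⁻¹) v = sref (sref b1 b2) v := by
      intro v
      rw [G.R_mul_apply 1 (mul_mem hN1 hN2) (inv_mem hN1), G.R_mul_apply 1 hN1 hN2, hm2.lin,
        map_sref, G.R_inv_apply 1 hN1, hm1.lin]
    have hnorm : ‖sref b1 b2‖ = 1 := by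
      rw [← hm1.lin, LinearIsometryEquiv.norm_map]
      exact hm2.norm
    obtain ⟨h3, hm3⟩ := mR _ hc _ hnorm hlin
    refine ⟨_, hc, h3, hm3, ?_⟩
    apply eq_of_aff G hm3
    have e1 := aff_eq G hm1 hz1
    have e2 := aff_eq G hm2 hz2
    have e3 : aff G y1⁻¹ z = z := by
      have h5 := aMul y1⁻¹ (inv_mem hN1) y1 hN1 z
      rw [inv_mul_cancel, aOne, e1] at h5
      exact h5.symm
    rw [aMul _ (mul_mem hN1 hN2) _ (inv_mem hN1), e3, aMul _ hN1 _ hN2, e2, e1]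

theorem key {l : ℕ} (hAFF : S_AFF) (hT : ATop G l) (hMIR : S_MIR) (hPROP : S_PROP)
    (hCMP : S_CMP) {x : Γ} (hx : x ∈ TT G 0 l) {a : E d} {h : ℝ} (hm : Mir G x a h)
    {c c2 c3 : E d} (hc : c ∈ Ph G 1 1 l) (hc2 : c2 ∈ Ph G 1 1 l) (hc3 : c3 ∈ Ph G 1 1 l)
    (hli : LinearIndependent ℝ ![c, c2, c3]) (h12 : ⟪c, c2⟫ ≠ (0 : ℝ)) (h23 : ⟪c2, c3⟫ ≠ (0 : ℝ))
    (ha : a ∉ Submodule.span ℝ ({c, c2, c3} : Set (E d))) : AS ⟪a, c⟫ := by
  obtain ⟨-, -, -, mR, m1, -⟩ := hMIR d k Γ X G l hT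
  set M := Submodule.span ℝ ({c, c2, c3} : Set (E d)) with hM
  set w := a - M.starProjection a with hw
  have hwM : w ∈ Mᗮ := Submodule.sub_starProjection_mem_orthogonal a
  have hpM : M.starProjection a ∈ M := Submodule.starProjection_apply_mem M a
  have hw0 : w ≠ 0 := by
    intro h0
    apply ha
    have : a = M.starProjection a := sub_eq_zero.1 h0
    rw [this]
    exact hpM
  have hwa : ⟪a, w⟫ ≠ (0 : ℝ) := by
    have e : a = M.starProjection a + w := by rw [hw]; abel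
    have h1 : ⟪M.starProjection a, w⟫ = (0 : ℝ) := (Submodule.mem_orthogonal M w).1 hwM _ hpM
    rw [e, inner_add_left, h1, zero_add]
    exact inner_self_ne_zero.2 hw0
  set z := G.f G.x0 + ((h - ⟪a, G.f G.x0⟫) / ⟪a, w⟫) • w with hz
  have haz : ⟪a, z⟫ = h := by
    rw [hz, inner_add_right, real_inner_smul_right, div_mul_cancel₀ _ hwa]
    ring
  have haP : a ∈ Pz G l z := ⟨x, hx, h, hm, haz⟩
  have hcP : ∀ b ∈ Ph G 1 1 l, b ∈ M → b ∈ Pz G l z := by
    rintro b ⟨hb, y, hy, hl⟩ hbM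
    obtain ⟨h', hm'⟩ := mR y (TT_mono G hy) b hb hl
    refine ⟨y, TT_mono G hy, h', hm', ?_⟩
    rw [m1 y hy b h' hm', hz, inner_add_right, real_inner_smul_right,
      (Submodule.mem_orthogonal M w).1 hwM b hbM, mul_zero, add_zero]
  have hRS := isRS G hAFF hT hMIR hPROP z ⟨a, haP⟩
  exact hCMP d (Pz G l z) hRS c (hcP c hc (Submodule.subset_span (by simp)))
    c2 (hcP c2 hc2 (Submodule.subset_span (by simp)))
    c3 (hcP c3 hc3 (Submodule.subset_span (by simp))) hli h12 h23 a haP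

end ASV

theorem t_ASV : M_ASV := by
  intro _ hAFF hMIR hPROP hCH hCMP d k Γ _ X _ G l hT a ha c hc
  obtain ⟨c2, hc2, c3, hc3, c4, hc4, c5, hc5, h1, h2, h3, h4, hli⟩ := hCH d k Γ X G l hT c hc
  obtain ⟨x, hx, h, hm⟩ := ((hMIR d k Γ X G l hT).2.2.2.2.2 a).1 ha
  by_cases k1 : a ∈ Submodule.span ℝ ({c, c2, c3} : Set (E d))
  · by_cases k2 : a ∈ Submodule.span ℝ ({c, c4, c5} : Set (E d))
    · rw [Submodule.mem_span_triple] at k1 k2
      obtain ⟨p, q, r, e1⟩ := k1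
      obtain ⟨p', q', r', e2⟩ := k2
      rw [Fintype.linearIndependent_iff] at hli
      have h5 := hli ![p - p', q, r, -q', -r'] (by
        simp only [Fin.sum_univ_five]
        simp only [Matrix.cons_val]
        have e3 : p • c + q • c2 + r • c3 - (p' • c + q' • c4 + r' • c5) = 0 := by
          rw [e1, e2, sub_self]
        rw [← e3]
        module)
      have hq : q = 0 := h5 1
      have hr : r = 0 := h5 2
      have e4 : a = p • c := by rw [← e1, hq, hr, zero_smul, zero_smul, add_zero, add_zero]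
      have hcn : ‖c‖ = 1 := hc.1
      have hp : |p| = 1 := by
        have := hm.norm
        rw [e4, norm_smul, hcn, mul_one, Real.norm_eq_abs] at this
        exact this
      refine ⟨1, by simp, ?_⟩
      rw [e4, real_inner_smul_left, real_inner_self_eq_norm_sq, hcn, one_pow, mul_one]
      exact eq_or_eq_neg_of_abs_eq hp
    · have hli' : LinearIndependent ℝ ![c, c4, c5] := by
        have h6 := hli.comp ![0, 3, 4] (by decide)
        have e : ![c, c2, c3, c4, c5] ∘ ![0, 3, 4] = ![c, c4, c5] := by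
          funext i
          fin_cases i <;> rfl
        rwa [e] at h6
      exact ASV.key G hAFF hT hMIR hPROP hCMP hx hm hc hc4 hc5 hli' h3 h4 k2
  · have hli' : LinearIndependent ℝ ![c, c2, c3] := by
      have h6 := hli.comp ![0, 1, 2] (by decide)
      have e : ![c, c2, c3, c4, c5] ∘ ![0, 1, 2] = ![c, c2, c3] := by
        funext i
        fin_cases i <;> rfl
      rwa [e] at h6
    exact ASV.key G hAFF hT hMIR hPROP hCMP hx hm hc hc2 hc3 hli' h1 h2 k1

end FOI.L
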