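import Pool.Agent.FOL.NStmts
import Pool.Agent.FOI.BStmts

/-!
# Statements of the modules, block II, for `FOL.ATop` (`l + 20 ≤ d`)

Changed copy of `Pool/Agent/FOI/BStmts.lean`; the definitions of `FOI` are used. Namespace `FOI.L`, so that
the definitions of `FOI` are visible and the new ones have priority.
-/

namespace FOI.L

open Lib_helper64.FO FO2 FOK
open FOL (bd)
open scoped RealInnerProductSpace Nat

noncomputable section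

/-- `FOL.ATop` -/
abbrev ATop {d k : ℕ} {Γ : Type} [Group Γ] {X : Type} [MulAction Γ X] (G : AGeo d k Γ X)
    (l : ℕ) : Prop := FOL.ATop G l

/-- `FOL.S_ATOP` -/
abbrev S_ATOP : Prop := FOL.S_ATOP

variable {d k : ℕ} {Γ : Type} [Group Γ] {X : Type} [MulAction Γ X]

/-! ## II.1 -/

/-- II.1, for `i ≥ 1`. Compare `FOK.t_TI` (`Pool/Agent/FOK/TI.lean`). -/
def S_TI : Prop :=
  ∀ (d k : ℕ) (Γ : Type) [Group Γ] (X : Type) [MulAction Γ X] (G : AGeo d k Γ X)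
    (l : ℕ), ATop G l → ∀ g i, 1 ≤ i → i ≤ l → TopI G l g i

/-- II.1, the argument for the strict inclusions: the conjugates of `ρ l` under `up i` do not all
fix the points `F g (a x0)`, `a ∈ dn i`; and they do not after conjugation by `ρ (i - 1)`. (L1; for the
second part first `AGeo.L2`.) -/
def S_TW : Prop :=
  ∀ (d k : ℕ) (Γ : Type) [Group Γ] (X : Type) [MulAction Γ X] (G : AGeo d k Γ X)
    (l : ℕ), ATop G l → ∀ i, 1 ≤ i → i ≤ l →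
    (¬ ∀ x ∈ TT G i l, ∀ a ∈ G.dn i, G.R 1 x (G.F 1 (a • G.x0)) = G.F 1 (a • G.x0)) ∧
    (2 ≤ i → ¬ ∀ x ∈ TT G i l, ∀ a ∈ G.dn (i - 1),
      G.R 1 (G.ρ (i - 1) * x * G.ρ (i - 1)) (G.F 1 (a • G.x0)) = G.F 1 (a • G.x0))

def M_TW : Prop := S_TI → S_TW

/-! ## II.2 -/

/-- II.2, second part. `Γ = N ⟨ρ 0, …, ρ (l - 4)⟩`. -/
def S_MIR : Prop :=
  ∀ (d k : ℕ) (Γ : Type) [Group Γ] (X : Type) [MulAction Γ X] (G : AGeo d k Γ X)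
    (l : ℕ), ATop G l →
    (∀ γ : Γ, ∃ n ∈ G.N, ∃ w ∈ G.dn (l - 3), γ = n * w) ∧
    (∀ x ∈ TT G 0 l, x ∈ G.N ∧ ∃ n ∈ G.N, x = n * G.ρ l * n⁻¹) ∧
    (∀ x ∈ TT G 0 l, ∃ a h, Mir G x a h) ∧
    (∀ x ∈ TT G 0 l, ∀ a, ‖a‖ = 1 → (∀ v, G.R 1 x v = sref a v) → ∃ h, Mir G x a h) ∧
    (∀ x ∈ TT G 1 l, ∀ a h, Mir G x a h → h = ⟪a, G.f G.x0⟫) ∧
    ∀ a, a ∈ Ph G 1 0 l ↔ ∃ x ∈ TT G 0 l, ∃ h, Mir G x a h

def M_MIR : Prop := S_AFF → S_MIR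

/-! ## II.4 - II.8 -/

/-- II.4. `FOK.Hom` for `span (Ph G 1 1 l)` and the group of the `R 1 n`, `n ∈ N_1`. -/
def S_CH : Prop :=
  ∀ (d k : ℕ) (Γ : Type) [Group Γ] (X : Type) [MulAction Γ X] (G : AGeo d k Γ X)
    (l : ℕ), ATop G l → ∀ c ∈ Ph G 1 1 l, ∃ c2 ∈ Ph G 1 1 l, ∃ c3 ∈ Ph G 1 1 l,
    ∃ c4 ∈ Ph G 1 1 l, ∃ c5 ∈ Ph G 1 1 l, ⟪c, c2⟫ ≠ 0 ∧ ⟪c2, c3⟫ ≠ 0 ∧ ⟪c, c4⟫ ≠ 0 ∧ ⟪c4, c5⟫ ≠ 0 ∧
      LinearIndependent ℝ ![c, c2, c3, c4, c5]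

def M_CH : Prop := S_TI → S_CH

/-- II.6 -/
def S_ASV : Prop :=
  ∀ (d k : ℕ) (Γ : Type) [Group Γ] (X : Type) [MulAction Γ X] (G : AGeo d k Γ X)
    (l : ℕ), ATop G l → ∀ a ∈ Ph G 1 0 l, ∀ c ∈ Ph G 1 1 l, AS ⟪a, c⟫

def M_ASV : Prop := S_TI → S_AFF → S_MIR → S_PROP → S_CH → S_CMP → S_ASV

/-- II.7 -/
def S_FIN : Prop :=
  ∀ (d k : ℕ) (Γ : Type) [Group Γ] (X : Type) [MulAction Γ X] (G : AGeo d k Γ X)
    (l : ℕ), ATop G l → (Ph G 1 0 l).Finite ∧ {h | ∃ n ∈ G.N, G.R 1 n = h}.Finite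

def M_FIN : Prop := S_TI → S_MIR → S_ASV → S_FIN

/-- II.8 -/
def S_DIR : Prop :=
  ∀ (d k : ℕ) (Γ : Type) [Group Γ] (X : Type) [MulAction Γ X] (G : AGeo d k Γ X)
    (l : ℕ), ATop G l → DirS G l

def M_DIR : Prop := S_TI → S_MIR → S_FIN → S_DIR

/-! ## II.9, II.10: the lattice -/

def S_LAT : Prop :=
  ∀ (d k : ℕ) (Γ : Type) [Group Γ] (X : Type) [MulAction Γ X] (G : AGeo d k Γ X)
    (l : ℕ), ATop G l → Lat G

def M_LAT : Prop := S_FIN → S_LAT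

/-- II.10, first part: the elements of the group generated by the reflections move points by vectors
of `I`; commutators. -/
def S_CMM : Prop :=
  ∀ (d k : ℕ) (Γ : Type) [Group Γ] (X : Type) [MulAction Γ X] (G : AGeo d k Γ X)
    (l : ℕ), ATop G l →
    (∀ γ : Γ, ∀ n ∈ Subgroup.closure (TT G 0 l), γ * n * γ⁻¹ ∈ Subgroup.closure (TT G 0 l)) ∧
    (∀ n ∈ Subgroup.closure (TT G 0 l), n ∈ G.N ∧ ∀ z, aff G n z - z ∈ Sp G 0 l) ∧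
    (∀ γ : Γ, ∀ n ∈ L0 G l, γ * n * γ⁻¹ ∈ L0 G l) ∧
    (∀ n ∈ L0 G l, tau G n ∈ Sp G 0 l) ∧
    ∀ x ∈ TT G 0 l, ∀ a, (∀ v, G.R 1 x v = sref a v) → ∀ n ∈ Lt G,
      x * n * x⁻¹ * n⁻¹ ∈ L0 G l ∧ tau G (x * n * x⁻¹ * n⁻¹) = -(2 * ⟪a, tau G n⟫) • a

def M_CMM : Prop := S_AFF → S_MIR → S_LAT → S_CMM

/-- II.10, second part: `R0` is infinite -/
def S_INF : Prop :=
  ∀ (d k : ℕ) (Γ : Type) [Group Γ] (X : Type) [MulAction Γ X] [Infinite X] (G : AGeo d k Γ X)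
    (l : ℕ), ATop G l → Sp G 0 l ≤ Submodule.span ℝ {v | ∃ n ∈ Lt G, tau G n = v}

def M_INF : Prop := S_TI → S_AFF → S_MIR → S_DIR → S_LAT → S_CMM → S_INF

/-- II.10 -/
def S_SPAN : Prop :=
  ∀ (d k : ℕ) (Γ : Type) [Group Γ] (X : Type) [MulAction Γ X] [Infinite X] (G : AGeo d k Γ X)
    (l : ℕ), ATop G l → Submodule.span ℝ {v | ∃ n ∈ L0 G l, tau G n = v} = Sp G 0 l

def M_SPAN : Prop := S_MIR → S_DIR → S_LAT → S_CMM → S_INF → S_SPAN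

/-! ## II.11: the extension of the linear parts to `Γ` -/

def S_EXT : Prop :=
  ∀ (d k : ℕ) (Γ : Type) [Group Γ] (X : Type) [MulAction Γ X] [Infinite X] (G : AGeo d k Γ X)
    (l : ℕ), ATop G l → ∃ RI, IsExt G l RI

def M_EXT : Prop := S_MIR → S_DIR → S_LAT → S_CMM → S_SPAN → S_LEX → S_ORT → S_EXT

/-! ## II.12, II.13 -/

/-- II.12. The average over the finite set of orbits of `L` on `X` (`Quotient` of
`MulAction.orbitRel (Lt G) X`), on which `Γ` acts as `L` is normal. -/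
def S_AFX : Prop :=
  ∀ (d k : ℕ) (Γ : Type) [Group Γ] (X : Type) [MulAction Γ X] [Infinite X] (G : AGeo d k Γ X)
    (l : ℕ), ATop G l → ∀ RI, IsExt G l RI → ∃ b, IsB G l RI b

def M_AFX : Prop := S_MIR → S_DIR → S_LAT → S_CMM → S_AFX

/-- II.13, in the form: `P f(γ x0) = β_γ (P f(x0) + ψ)`, and the spaces `V_i` in other frames. -/
def S_PSI : Prop :=
  ∀ (d k : ℕ) (Γ : Type) [Group Γ] (X : Type) [MulAction Γ X] [Infinite X] (G : AGeo d k Γ X)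
    (l : ℕ), ATop G l → ∀ RI, IsExt G l RI → ∀ b, IsB G l RI b →
    (∀ γ : Γ, ∃ ψ ∈ G.V 1 1, ψ ∈ Sp G 0 l ∧
      pI G l (G.f (γ • G.x0)) = RI γ (pI G l (G.f G.x0) + ψ) + b γ) ∧
    ∀ γ i, ∀ v ∈ Sp G 0 l, RI γ v ∈ G.V γ i ↔ v ∈ G.V 1 i

def M_PSI : Prop := S_DIR → S_PSI

end

end FOI.L
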