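import Mathlib.Data.Nat.Log

/-!
# The bound for the dimension
-/

namespace FOL

/-- the bound for the dimension -/
def bd (k : ℕ) : ℕ := k + 4 * (Nat.log 2 k + 4) ^ 2

theorem bd_mono {a b : ℕ} (h : a ≤ b) : bd a ≤ bd b :=
  Nat.add_le_add h (Nat.mul_le_mul_left 4 (Nat.pow_le_pow_left
    (Nat.add_le_add_right (Nat.log_mono_right h) 4) 2))

end FOL
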