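import Pool.Agent.FOL.MStmts

/-!
# Section 2 and 2.1: the numbers `c_j`, the plateau
-/

namespace FOL

open Lib_helper64.FO FO2 FOI
open scoped RealInnerProductSpace

noncomputable section

namespace C

variable {Γ : Type} [Group Γ] {Y : Type} [MulAction Γ Y]

/-- the map of the orbits of a smaller subgroup to those of a larger one -/
def om {A B : Subgroup Γ} (h : A ≤ B) :
    MulAction.orbitRel.Quotient A Y → MulAction.orbitRel.Quotient B Y :=
  Quotient.map' id (by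
    intro x y hxy
    change x ∈ MulAction.orbit A y at hxy
    change x ∈ MulAction.orbit B y
    obtain ⟨a, ha⟩ := hxy
    exact ⟨⟨a.1, h a.2⟩, ha⟩)

theorem om_surj {A B : Subgroup Γ} (h : A ≤ B) : Function.Surjective (om (Y := Y) h) := by
  intro z
  induction z using Quotient.inductionOn' with
  | h y => exact ⟨Quotient.mk'' y, rfl⟩

theorem card_le [Finite Y] {A B : Subgroup Γ} (h : A ≤ B) :
    Nat.card (MulAction.orbitRel.Quotient B Y) ≤ Nat.card (MulAction.orbitRel.Quotient A Y) :=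
  Nat.card_le_card_of_surjective (om (Y := Y) h) (om_surj h)

theorem same_orbit [Finite Y] {A B : Subgroup Γ} (h : A ≤ B)
    (hc : Nat.card (MulAction.orbitRel.Quotient B Y) =
      Nat.card (MulAction.orbitRel.Quotient A Y)) (y : Y) {b : Γ} (hb : b ∈ B) :
    ∃ a ∈ A, b • y = a • y := by
  have hbij := (om_surj (Y := Y) h).bijective_of_nat_card_le hc.ge
  have h1 : om (Y := Y) h (Quotient.mk'' (b • y)) = om (Y := Y) h (Quotient.mk'' y) := by
    refine Quotient.sound' ?_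
    change b • y ∈ MulAction.orbit B y
    exact ⟨⟨b, hb⟩, rfl⟩
  have h2 := hbij.1 h1
  have h3 : b • y ∈ MulAction.orbit A y := Quotient.exact' h2
  obtain ⟨a, ha⟩ := h3
  exact ⟨a.1, a.2, ha.symm⟩

end C

/-- Section 2, beginning, and 2.1. -/
theorem t_C : S_C := by
  intro d k Γ _ X _ G
  have hfin : Finite (Γ ⧸ G.H) := by
    apply Nat.finite_of_card_ne_zero
    exact G.idx0
  refine ⟨fun i j hij => C.card_le (G.up_anti hij), fun j => ⟨?_, ?_⟩, ?_⟩
  · have hne : Nonempty (MulAction.orbitRel.Quotient (G.up j) (Γ ⧸ G.H)) :=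
      ⟨Quotient.mk'' ((1 : Γ) : Γ ⧸ G.H)⟩
    exact Nat.card_pos
  · exact Nat.card_le_card_of_surjective (fun y : Γ ⧸ G.H =>
      (Quotient.mk'' y : MulAction.orbitRel.Quotient (G.up j) (Γ ⧸ G.H)))
      Quotient.mk''_surjective
  · intro u v huv hc g γ hγ
    obtain ⟨a, ha, h⟩ := C.same_orbit (Y := Γ ⧸ G.H) (G.up_anti huv) hc
      ((g⁻¹ : Γ) : Γ ⧸ G.H) (inv_mem hγ)
    have h1 : ((γ⁻¹ * g⁻¹ : Γ) : Γ ⧸ G.H) = ((a * g⁻¹ : Γ) : Γ ⧸ G.H) := h
    rw [QuotientGroup.eq] at h1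
    refine ⟨γ * a, ⟨?_, mul_mem hγ (G.up_anti huv ha)⟩, a⁻¹, inv_mem ha, by group⟩
    change γ * a ∈ G.Hc g
    rw [AGeo.mem_Hc]
    have e : (γ⁻¹ * g⁻¹)⁻¹ * (a * g⁻¹) = g * (γ * a) * g⁻¹ := by group
    rwa [e] at h1

end

end FOL
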