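import Pool.Agent.FOL.BStmts

/-!
# FOI, II.10, first part: the group generated by the reflections, commutators
-/

namespace FOI.L

open Lib_helper64.FO FO2 FOK
open scoped RealInnerProductSpace Nat

noncomputable section

namespace CMM

variable {d k : ℕ} {Γ : Type} [Group Γ] {X : Type} [MulAction Γ X]

theorem conj_TT (G : AGeo d k Γ X) (l : ℕ) (γ : Γ) {x : Γ} (hx : x ∈ TT G 0 l) :
    γ * x * γ⁻¹ ∈ TT G 0 l := by
  obtain ⟨δ, _, rfl⟩ := hx
  exact ⟨γ * δ, G.mem_up_zero _, by group⟩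

theorem conj_cl (G : AGeo d k Γ X) (l : ℕ) (γ : Γ) {n : Γ}
    (hn : n ∈ Subgroup.closure (TT G 0 l)) : γ * n * γ⁻¹ ∈ Subgroup.closure (TT G 0 l) := by
  induction hn using Subgroup.closure_induction with
  | mem x hx => exact Subgroup.subset_closure (conj_TT G l γ hx)
  | one => rw [mul_one, mul_inv_cancel]; exact one_mem _
  | mul x y _ _ hx hy =>
    have e : γ * (x * y) * γ⁻¹ = (γ * x * γ⁻¹) * (γ * y * γ⁻¹) := by group
    rw [e]
    exact mul_mem hx hy
  | inv x _ hx =>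
    have e : γ * x⁻¹ * γ⁻¹ = (γ * x * γ⁻¹)⁻¹ := by group
    rw [e]
    exact inv_mem hx

theorem mir_mem {G : AGeo d k Γ X} {l : ℕ} {x : Γ} (hx : x ∈ TT G 0 l) {a : E d} {h : ℝ}
    (hm : Mir G x a h) (z : E d) : aff G x z - z ∈ Sp G 0 l := by
  have ha : a ∈ Ph G 1 0 l := ⟨hm.norm, x, hx, hm.lin⟩
  have e : aff G x z - z = -(2 * (⟪a, z⟫ - h)) • a := by
    rw [hm.aff, neg_smul]
    abel
  rw [e]
  exact Submodule.smul_mem _ _ (Submodule.subset_span ha)

end CMM

open CMM in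
theorem t_CMM : M_CMM := by
  intro hAFF hMIR hLAT d k Γ _ X _ G l hT
  obtain ⟨a1, a2, a3, a4, a5⟩ := hAFF d k Γ X G
  obtain ⟨m1, m2, m3, m4, m5, m6⟩ := hMIR d k Γ X G l hT
  have L := hLAT d k Γ X G l hT
  have p2 : ∀ n ∈ Subgroup.closure (TT G 0 l), n ∈ G.N ∧ ∀ z, aff G n z - z ∈ Sp G 0 l := by
    intro n hn
    induction hn using Subgroup.closure_induction with
    | mem x hx =>
      obtain ⟨a, h, hm⟩ := m3 x hx
      exact ⟨(m2 x hx).1, fun z => mir_mem hx hm z⟩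
    | one => exact ⟨one_mem _, fun z => by rw [a4, sub_self]; exact zero_mem _⟩
    | mul x y _ _ hx hy =>
      refine ⟨mul_mem hx.1 hy.1, fun z => ?_⟩
      rw [a2 x hx.1 y hy.1]
      have e : aff G x (aff G y z) - z = (aff G x (aff G y z) - aff G y z) + (aff G y z - z) := by
        abel
      rw [e]
      exact add_mem (hx.2 _) (hy.2 _)
    | inv x _ hx =>
      refine ⟨inv_mem hx.1, fun z => ?_⟩
      have e : aff G x (aff G x⁻¹ z) = z := by
        rw [← a2 x hx.1 x⁻¹ (inv_mem hx.1), mul_inv_cancel, a4]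
      have h1 := hx.2 (aff G x⁻¹ z)
      rw [e] at h1
      have h2 := neg_mem h1
      rwa [neg_sub] at h2
  have p3 : ∀ γ : Γ, ∀ n ∈ L0 G l, γ * n * γ⁻¹ ∈ L0 G l := by
    intro γ n hn
    exact ⟨L.nrm γ n hn.1, conj_cl G l γ hn.2⟩
  refine ⟨fun γ n hn => conj_cl G l γ hn, p2, p3, ?_, ?_⟩
  · intro n hn
    have h1 := (p2 n hn.2).2 (G.f G.x0)
    rw [a1 n (p2 n hn.2).1] at h1
    exact h1
  · intro x hx a ha n hn
    have hxN := (m2 x hx).1
    have hxn : x * n * x⁻¹ ∈ Lt G := L.nrm x n hn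
    have hni : n⁻¹ ∈ Lt G := inv_mem hn
    refine ⟨⟨mul_mem hxn hni, ?_⟩, ?_⟩
    · have e : x * n * x⁻¹ * n⁻¹ = x * (n * x⁻¹ * n⁻¹) := by group
      rw [e]
      exact mul_mem (Subgroup.subset_closure hx)
        (conj_cl G l n (inv_mem (Subgroup.subset_closure hx)))
    · have t1 : tau G (1 : Γ) = 0 := by rw [tau, one_smul, sub_self]
      have t2 : tau G n⁻¹ = -tau G n := by
        have := L.add n hn n⁻¹ hni
        rw [mul_inv_cancel, t1] at this
        exact (neg_eq_of_add_eq_zero_right this.symm).symm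
      have t3 : G.R 1 x = G.T x := by
        rw [AGeo.R]
        congr 1
        group
      rw [L.add _ hxn _ hni, L.H x (G.N_le hxN) n hn, t2, ← t3, ha, sref]
      module

end

end FOI.L
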