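import Pool.Agent.FOL.BStmts
import Pool.Agent.FOI.CStmts

/-!
# Statements of the modules, block III, for `FOL.ATop`

Changed copy of `Pool/Agent/FOI/CStmts.lean`; `LinB.ln : l + 18 ≤ n`.
-/

namespace FOI.L

open Lib_helper64.FO FO2 FOK
open FOL (bd)
open scoped RealInnerProductSpace Nat

noncomputable section

variable {d k : ℕ} {Γ : Type} [Group Γ] {X : Type} [MulAction Γ X]

/-! ## III.5, III.6: the linear classification in `E n` -/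

/-- The linear parts, first half. `j0 = 1` in the case (red), `j0 = 2` in the case (irr). -/
structure LinB (n l j0 : ℕ) (Φ : Set (E n)) (V : ℕ → Submodule ℝ (E n))
    (gg : ℕ → (E n ≃ₗᵢ[ℝ] E n)) : Prop where
  l4 : 4 ≤ l
  ln : l + 18 ≤ n
  j01 : j0 = 1 ∨ j0 = 2
  rs : IsRS Φ
  irr : IrrRS Φ
  span : Submodule.span ℝ Φ = ⊤
  typ : (∃ v, IsA Φ v) ∨ ∃ u, IsD Φ u
  mono : ∀ i, i < n → V i ≤ V (i + 1)
  dimV : ∀ i, i ≤ n → Module.finrank ℝ (V i) = i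
  pres : ∀ j i v, j < n → i ≤ n → i ≠ j + 1 → v ∈ V i → gg j v ∈ V i
  moves : ∀ j, j + 1 < n → ∀ e ∈ V (j + 1) ⊓ (V j)ᗮ, e ≠ 0 → gg j e ∉ V (j + 1)
  sq : ∀ j, j < n → ∀ v, gg j (gg j v) = v
  comm : ∀ i j, i + 2 ≤ j → j < n → ∀ v, gg i (gg j v) = gg j (gg i v)
  fix : ∀ j, 1 ≤ j → j < n → ∀ v ∈ V j, gg j v = v
  root : ∀ j, j < n → ∀ a, gg j a ∈ Φ ↔ a ∈ Φ
  scal0 : ∃ ε : ℝ, (ε = 1 ∨ ε = -1) ∧ ∀ v ∈ (V 2)ᗮ, gg 0 v = ε • v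
  /-- irreducible subsets of `Φ` in the complements of `V 1` and `V 2` -/
  sub : ∀ i, 1 ≤ i → i ≤ 2 → ∃ Ψ ⊆ Φ, IrrRS Ψ ∧ Submodule.span ℝ Ψ = (V i)ᗮ
  /-- `g_l` is a reflection -/
  refl : ∃ a ∈ Φ, ∀ v, gg l v = sref a v

/-- the linear parts -/
structure Lin (n l j0 : ℕ) (Φ : Set (E n)) (V : ℕ → Submodule ℝ (E n))
    (gg : ℕ → (E n ≃ₗᵢ[ℝ] E n)) : Prop extends LinB n l j0 Φ V gg, LinX n l j0 V gg

/-- the sign of `g_0` can be changed (`FOK/GN2.lean`) -/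
def S_LSG : Prop :=
  ∀ (n l j0 : ℕ) (Φ : Set (E n)) (V : ℕ → Submodule ℝ (E n)) (gg gm : ℕ → (E n ≃ₗᵢ[ℝ] E n)),
    Lin n l j0 Φ V gg → SgEq gg gm → Lin n l j0 Φ V gm

/-- 10.5 (`FOK/POS.lean`). Import `FOK/VECA.lean`, `FOK/VECD.lean`. -/
def S_LPOS : Prop :=
  ∀ (n l j0 : ℕ) (Φ : Set (E n)) (V : ℕ → Submodule ℝ (E n)) (gg : ℕ → (E n ≃ₗᵢ[ℝ] E n)),
    Lin n l j0 Φ V gg → ∀ y0 ∈ V 1, ‖y0‖ = 1 →
    (∀ v, IsA Φ v → ∃ i, y0 = v i ∨ y0 = -v i) ∧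
    ∀ u, IsD Φ u → (∃ i, y0 = u i ∨ y0 = -u i) ∨ ∀ i, ⟪y0, u i⟫ ^ 2 = (1 / n : ℝ)

/-- 10.6, first part (`FOK/MA1.lean`) -/
def S_LMA1 : Prop :=
  ∀ (n l j0 : ℕ) (Φ : Set (E n)) (V : ℕ → Submodule ℝ (E n)) (gg : ℕ → (E n ≃ₗᵢ[ℝ] E n)),
    Lin n l j0 Φ V gg → ∀ v, IsA Φ v → (∃ i, v i ∈ V 1) →
    ∃ (gm : ℕ → (E n ≃ₗᵢ[ℝ] E n)) (τ : ℕ → Equiv.Perm (Fin (n + 1))) (B : ℕ → Finset (Fin (n + 1))),
      SgEq gg gm ∧ (∀ j, j < n → ∀ i, gm j (v i) = v (τ j i)) ∧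
      (∀ i, i + 1 ≤ n → ∀ p, p ∈ B i ↔ v p ∈ V i) ∧ PrmH (n + 1) τ B

def M_LMA1 : Prop := S_LSG → S_LMA1

/-- 10.6 (`FOK/MA.lean`) -/
def S_LMA : Prop :=
  ∀ (n l j0 : ℕ) (Φ : Set (E n)) (V : ℕ → Submodule ℝ (E n)) (gg : ℕ → (E n ≃ₗᵢ[ℝ] E n)),
    Lin n l j0 Φ V gg → ∀ v, IsA Φ v → (∃ i, v i ∈ V 1) →
    ∃ v' gm, SgEq gg gm ∧ IsA Φ v' ∧ v' 0 ∈ V 1 ∧
      ∀ (j : Fin n) (i : Fin (n + 1)), gm j (v' i) = v' (Equiv.swap j.castSucc j.succ i)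

def M_LMA : Prop := S_LMA1 → S_LMA

/-- 10.7, first part (`FOK/MD1.lean`) -/
def S_LMD1 : Prop :=
  ∀ (n l j0 : ℕ) (Φ : Set (E n)) (V : ℕ → Submodule ℝ (E n)) (gg : ℕ → (E n ≃ₗᵢ[ℝ] E n)),
    Lin n l j0 Φ V gg → ∀ u, IsD Φ u → ∀ y0 ∈ V 1, (∀ i, ⟪y0, u i⟫ ^ 2 = (1 / n : ℝ)) →
    ∃ (u' : OrthonormalBasis (Fin n) ℝ (E n)) (gm : ℕ → (E n ≃ₗᵢ[ℝ] E n)), SgEq gg gm ∧
      IsD Φ u' ∧ ∑ i, u' i ∈ V 1 ∧
      (∀ j, 1 ≤ j → j < n → ∃ τ : Equiv.Perm (Fin n), ∀ i, gm j (u' i) = u' (τ i)) ∧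
      ∃ p, ∀ v, gm 0 v = sref (u' p) v

def M_LMD1 : Prop := S_LSG → S_LMD1

/-- 10.7 (`FOK/MD.lean`) -/
def S_LMD : Prop :=
  ∀ (n l j0 : ℕ) (Φ : Set (E n)) (V : ℕ → Submodule ℝ (E n)) (gg : ℕ → (E n ≃ₗᵢ[ℝ] E n)),
    Lin n l j0 Φ V gg → ∀ u, IsD Φ u → ∀ y0 ∈ V 1, (∀ i, ⟪y0, u i⟫ ^ 2 = (1 / n : ℝ)) →
    ∃ (u' : OrthonormalBasis (Fin n) ℝ (E n)) (gm : ℕ → (E n ≃ₗᵢ[ℝ] E n)), SgEq gg gm ∧
      IsD Φ u' ∧ ∑ i, u' i ∈ V 1 ∧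
      ∀ j i : Fin n, gm j (u' i) =
        if j.val = 0 then (if i = j then - u' i else u' i) else u' (Equiv.swap (prd j) j i)

def M_LMD : Prop := S_LSG → S_LMD1 → S_LMD

/-- 10.8, first part (`FOK/MC1.lean`) -/
def S_LMC1 : Prop :=
  ∀ (n l j0 : ℕ) (Φ : Set (E n)) (V : ℕ → Submodule ℝ (E n)) (gg : ℕ → (E n ≃ₗᵢ[ℝ] E n)),
    Lin n l j0 Φ V gg → ∀ u, IsD Φ u → (∃ i, u i ∈ V 1) →
    ∃ (u' : OrthonormalBasis (Fin n) ℝ (E n)) (ε : ℕ → ℝ), IsD Φ u' ∧ LAxes V gg u' ε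

/-- 10.8: `ε_l = 1` as `g_l` is a reflection. For `j0 ≤ j < l` and `ε_j = -1`:
`Q = P⁻¹ g_j P` fixes `u_l`, maps `u_(l+1)` to `-u_(l+1)`, and `g_l` commutes with `Q ^ 2 = 1` on the
other axes (`Q` exchanges `u_(j-1)`, `u_j` up to sign and multiplies the other axes by signs; `g_l` fixes
`u_i` for `i < l` and for `i ≥ l + 2`). So `(g_l Q)^2` is `-1` on `u_l`, `u_(l+1)` and `1` on the other axes, in
particular on `V l`; contradiction to (X2). -/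
def S_LMC2 : Prop :=
  ∀ (n l j0 : ℕ) (Φ : Set (E n)) (V : ℕ → Submodule ℝ (E n)) (gg : ℕ → (E n ≃ₗᵢ[ℝ] E n)),
    Lin n l j0 Φ V gg → ∀ u ε, LAxes V gg u ε → ∀ j, j0 ≤ j → j ≤ l → ε j = 1

/-- 10.8: for the smallest `j > l` with `ε_j = -1`: `(g_(j-1) g_j)^3` is `1` on `V (j + 2)` and `-1` on
`u_(j+2)`; contradiction to (X3). -/
def S_LMC3 : Prop :=
  ∀ (n l j0 : ℕ) (Φ : Set (E n)) (V : ℕ → Submodule ℝ (E n)) (gg : ℕ → (E n ≃ₗᵢ[ℝ] E n)),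
    Lin n l j0 Φ V gg → ∀ u ε, LAxes V gg u ε →
    (∀ j, j0 ≤ j → j ≤ l → ε j = 1) → ∀ j, j0 ≤ j → j + 2 < n → ε j = 1

/-- 10.8 (`FOK/MC.lean`): if `ε_0 = -1` change the sign of `g_0` and of all `u i` with `i ≥ 1`; the sign
`ε_1` remains if `j0 = 2`. -/
def S_LMC : Prop :=
  ∀ (n l j0 : ℕ) (Φ : Set (E n)) (V : ℕ → Submodule ℝ (E n)) (gg : ℕ → (E n ≃ₗᵢ[ℝ] E n)),
    Lin n l j0 Φ V gg → ∀ u, IsD Φ u → (∃ i, u i ∈ V 1) →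
    ∃ (u' : OrthonormalBasis (Fin n) ℝ (E n)) (gm : ℕ → (E n ≃ₗᵢ[ℝ] E n)) (ε : ℝ), SgEq gg gm ∧
      IsD Φ u' ∧ (∀ h : 0 < n, u' ⟨0, h⟩ ∈ V 1) ∧ (ε = 1 ∨ ε = -1) ∧ (j0 = 1 → ε = 1) ∧ CroF ε u' gm

def M_LMC : Prop := S_LSG → S_LMC1 → S_LMC2 → S_LMC3 → S_LMC

/-- III.6. Assembly. -/
def S_LCLS : Prop :=
  ∀ (n l j0 : ℕ) (Φ : Set (E n)) (V : ℕ → Submodule ℝ (E n)) (gg : ℕ → (E n ≃ₗᵢ[ℝ] E n)),
    Lin n l j0 Φ V gg → Cls j0 Φ V gg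

def M_LCLS : Prop := S_LPOS → S_LMA → S_LMD → S_LMC → S_LCLS

/-! ## III.1, III.2: the case (red) -/

/-- III.1. For `up`: `f` does not have a constant `e0`-component, `T h` is `1` on the orthogonal
complement of the differences (`AGeo.perp`). -/
def S_RED1 : Prop :=
  ∀ (d k : ℕ) (Γ : Type) [Group Γ] (X : Type) [MulAction Γ X] (G : AGeo d k Γ X)
    (l : ℕ), ATop G l → Sp G 0 l ≠ ⊤ → ∃ e0, RedE G l e0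

def M_RED1 : Prop := S_MIR → S_DIR → S_RED1

/-- III.1 -/
def S_RED2 : Prop :=
  ∀ (d k : ℕ) (Γ : Type) [Group Γ] (X : Type) [MulAction Γ X] (G : AGeo d k Γ X)
    (l : ℕ), ATop G l → ∀ e0, RedE G l e0 → RedV G l

def M_RED2 : Prop := S_STEP → S_TI → S_TW → S_MIR → S_DIR → S_RED2

/-- III.1 (end), III.2 (beginning). `V'_1 = 0`, so `ψ = 0` in S_PSI; `b' γ = P f(γ x0) - P f(x0)`. -/
def S_RED3 : Prop :=
  ∀ (d k : ℕ) (Γ : Type) [Group Γ] (X : Type) [MulAction Γ X] [Infinite X] (G : AGeo d k Γ X)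
    (l : ℕ), ATop G l → ∀ e0, RedE G l e0 → RedV G l → ∀ RI, IsExt G l RI → ∀ b0, IsB G l RI b0 →
    ∃ b, RedB G l RI b

def M_RED3 : Prop := S_MIR → S_DIR → S_PSI → S_RED3

/-- III.2. `RI (ρ j)`, `j = 0, 1`, commutes with the reflections `R 1 x`, `x ∈ TT (j + 2)`, whose roots
form an irreducible set that spans the complement of `V'_{j+2}` (`RedV.Sp`); `V'_2` is the line of
`t`. -/
def S_RED4 : Prop :=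
  ∀ (d k : ℕ) (Γ : Type) [Group Γ] (X : Type) [MulAction Γ X] [Infinite X] (G : AGeo d k Γ X)
    (l : ℕ), ATop G l → ∀ e0, RedE G l e0 → RedV G l → ∀ RI, IsExt G l RI → ∀ b0, IsB G l RI b0 →
    ∀ b, RedB G l RI b → RedG G l RI (b (G.ρ 0))

def M_RED4 : Prop := S_STEP → S_TI → S_TW → S_MIR → S_DIR → S_PSI → S_RED4

/-- III.2, III.3: `RI (ρ j) = 1` on `V'_j` for `j ≥ 2`: S_EIG for `W i = V'_{i+1}`, `b = j - 1`,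
`A = RI (ρ j)`, `B i = RI (ρ (i + 1))`; the eigenvalue is `1` as `t ∈ V'_2`. -/
def S_RED5 : Prop :=
  ∀ (d k : ℕ) (Γ : Type) [Group Γ] (X : Type) [MulAction Γ X] (G : AGeo d k Γ X)
    (l : ℕ), ATop G l → ∀ e0, RedE G l e0 → RedV G l → ∀ RI, IsExt G l RI →
    ∀ b, RedB G l RI b → RedG G l RI (b (G.ρ 0)) →
    ∀ j, 2 ≤ j → j < d → ∀ v ∈ Sp G 0 l, v ∈ G.V 1 j → RI (G.ρ j) v = v

def M_RED5 : Prop := S_EIG → S_RED5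

/-- III.5 (red), first half. `typ`: `DirS.typ` transported by `ι`. -/
def S_LR1 : Prop :=
  ∀ (d k : ℕ) (Γ : Type) [Group Γ] (X : Type) [MulAction Γ X] [Infinite X] (G : AGeo d k Γ X)
    (l : ℕ), ATop G l → ∀ e0, RedE G l e0 → RedV G l → ∀ RI, IsExt G l RI →
    ∀ b, RedB G l RI b → RedG G l RI (b (G.ρ 0)) →
    (∀ j, 2 ≤ j → j < d → ∀ v ∈ Sp G 0 l, v ∈ G.V 1 j → RI (G.ρ j) v = v) →
    ∀ (n : ℕ), n + 1 = d → ∀ (ι : E n →ₗᵢ[ℝ] E d), (∀ v, v ∈ Sp G 0 l ↔ ∃ z, ι z = v) →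
    ∀ (gg : ℕ → (E n ≃ₗᵢ[ℝ] E n)), (∀ j z, ι (gg j z) = RI (G.ρ (j + 1)) (ι z)) →
    LinB n (l - 1) 1 {z | ι z ∈ Ph G 1 0 l} (fun i => (G.V 1 (i + 1)).comap ι.toLinearMap) gg

def M_LR1 : Prop := S_TI → S_MIR → S_DIR → S_LR1

/-- III.5 (red), second half. `RI n = R 1 n` on `I` and `R 1 n e0 = e0` for `n` in the group generated by
`TT G 0 l` and for `n ∈ up (l - 2)`; then `AGeo.mem_up_of_R'`, `AGeo.eq_one_of_R` and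
`AGeo.mid_inf_up`. For (X2): `n = (ρ_l q)^2`, `q = w⁻¹ ρ_(j+1) w`, `w = ρ_j ... ρ_(l-1)`. -/
def S_LR2 : Prop :=
  ∀ (d k : ℕ) (Γ : Type) [Group Γ] (X : Type) [MulAction Γ X] [Infinite X] (G : AGeo d k Γ X)
    (l : ℕ), ATop G l → ∀ e0, RedE G l e0 → RedV G l → ∀ RI, IsExt G l RI →
    ∀ (n : ℕ), n + 1 = d → ∀ (ι : E n →ₗᵢ[ℝ] E d), (∀ v, v ∈ Sp G 0 l ↔ ∃ z, ι z = v) →
    ∀ (gg : ℕ → (E n ≃ₗᵢ[ℝ] E n)), (∀ j z, ι (gg j z) = RI (G.ρ (j + 1)) (ι z)) →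
    LinX n (l - 1) 1 (fun i => (G.V 1 (i + 1)).comap ι.toLinearMap) gg

def M_LR2 : Prop := S_MIR → S_DIR → S_LR2

/-! ## III.3, III.4: the case (irr) -/

/-- III.3. If `V 1 1 = 0` then `f(γ y) = RI γ f(y) + b γ` for all `γ` and `y` by S_PSI, so `H = ⊤` by
`AGeo.noiso`. Dimensions: `ATop.dimV` and S_STEP (`V 1 i < V 1 (i + 1)`). `z0` is the average of
`RI u (f x0) + b0 u`, `u ∈ up 1`; `b γ = RI γ z0 + b0 γ - z0`. -/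
def S_IRR1 : Prop :=
  ∀ (d k : ℕ) (Γ : Type) [Group Γ] (X : Type) [MulAction Γ X] [Infinite X] (G : AGeo d k Γ X)
    (l : ℕ), ATop G l → Sp G 0 l = ⊤ → G.H ≠ ⊤ → ∀ RI, IsExt G l RI → ∀ b0, IsB G l RI b0 →
    ∃ b s z0 e0, IrrD G l RI b s z0 e0

def M_IRR1 : Prop := S_STEP → S_TI → S_DIR → S_PSI → S_IRR1

/-- III.4. `Sp`: `TopI.perp` and dimensions. `moves` for `j ≥ 1`: S_STEP (third part) and S_PSI (second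
part), `V_(j+1)` in the frame `ρ j`; for `j = 0`: otherwise the line `V_1` is invariant under all `RI γ`,
in particular under the reflections with roots in the irreducible spanning set `Ph G 1 0 l`. `scal0`:
`RI (ρ 0)` commutes with the reflections `R 1 x`, `x ∈ TT G 2 l`. -/
def S_IRR2 : Prop :=
  ∀ (d k : ℕ) (Γ : Type) [Group Γ] (X : Type) [MulAction Γ X] [Infinite X] (G : AGeo d k Γ X)
    (l : ℕ), ATop G l → Sp G 0 l = ⊤ → ∀ RI, IsExt G l RI → ∀ b0, IsB G l RI b0 →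
    ∀ b s z0 e0, IrrD G l RI b s z0 e0 → IrrG G l RI

def M_IRR2 : Prop := S_STEP → S_TI → S_DIR → S_PSI → S_IRR2

/-- III.4. If `t = 0` then `b = 0` and `‖f(γ x0) - z0‖` is constant on the `N`-orbits (`IrrD.H`), so
`f` is bounded and `X` is finite by `AGeo.locfin`. -/
def S_IRR3 : Prop :=
  ∀ (d k : ℕ) (Γ : Type) [Group Γ] (X : Type) [MulAction Γ X] [Infinite X] (G : AGeo d k Γ X)
    (l : ℕ), ATop G l → Sp G 0 l = ⊤ → ∀ RI, IsExt G l RI →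
    ∀ b s z0 e0, IrrD G l RI b s z0 e0 → IrrG G l RI → IrrT G RI (b (G.ρ 0))

/-- III.4: the signs. S_EIG for `W i = V_i`, `b = j`, `A = RI (ρ j)`, `B i = RI (ρ i)`. The sign of
`RI (ρ 1)` on `e0` is `-1`: otherwise `z0 + s e0`, for a suitable `s`, is a fixed point of all
`v ↦ z0 + b γ + RI γ (v - z0)`, and `f` is bounded. -/
def S_IRR4 : Prop :=
  ∀ (d k : ℕ) (Γ : Type) [Group Γ] (X : Type) [MulAction Γ X] [Infinite X] (G : AGeo d k Γ X)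
    (l : ℕ), ATop G l → Sp G 0 l = ⊤ → ∀ RI, IsExt G l RI →
    ∀ b s z0 e0, IrrD G l RI b s z0 e0 → IrrG G l RI → IrrT G RI (b (G.ρ 0)) →
    (∀ j, 2 ≤ j → j < d → ∀ v ∈ G.V 1 j, RI (G.ρ j) v = v) ∧ RI (G.ρ 1) e0 = -e0

def M_IRR4 : Prop := S_EIG → S_IRR4

/-- III.5 (irr), first half -/
def S_LI1 : Prop :=
  ∀ (d k : ℕ) (Γ : Type) [Group Γ] (X : Type) [MulAction Γ X] [Infinite X] (G : AGeo d k Γ X)
    (l : ℕ), ATop G l → Sp G 0 l = ⊤ → ∀ RI, IsExt G l RI →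
    ∀ b s z0 e0, IrrD G l RI b s z0 e0 → IrrG G l RI →
    (∀ j, 2 ≤ j → j < d → ∀ v ∈ G.V 1 j, RI (G.ρ j) v = v) → RI (G.ρ 1) e0 = -e0 →
    LinB d l 2 (Ph G 1 0 l) (fun i => G.V 1 i) (ggI G RI)

def M_LI1 : Prop := S_TI → S_MIR → S_DIR → S_LI1

/-- III.5 (irr), second half. `RI n = R 1 n` for `n ∈ N`; `AGeo.mem_up_of_R'`, `AGeo.eq_one_of_R` and
`AGeo.mid_inf_up`. For (X2): `n = (ρ_l q)^2`, `q = w⁻¹ ρ_j w`, `w = ρ_(j-1) ... ρ_(l-1)`. -/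
def S_LI2 : Prop :=
  ∀ (d k : ℕ) (Γ : Type) [Group Γ] (X : Type) [MulAction Γ X] [Infinite X] (G : AGeo d k Γ X)
    (l : ℕ), ATop G l → Sp G 0 l = ⊤ → ∀ RI, IsExt G l RI →
    LinX d l 2 (fun i => G.V 1 i) (ggI G RI)

def M_LI2 : Prop := S_MIR → S_LI2

/-! ## III.8: the formula for the vertices -/

/-- III.8 (irr). `g j` is `gm j` of `Cls` for `ggI`; `RI (ρ j) = s_j g_j`; `y0` is `v 0`, `∑ u i`,
`u 0`; `e0 = κ y0`, `q γ = κ s γ`. `t ∈ V_2`, which is spanned by `y0` and `RI (ρ 0) y0`. -/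
def S_WRI : Prop :=
  ∀ (d k : ℕ) (Γ : Type) [Group Γ] (X : Type) [MulAction Γ X] [Infinite X] (G : AGeo d k Γ X)
    (l : ℕ), ATop G l → Sp G 0 l = ⊤ → ∀ RI, IsExt G l RI →
    ∀ b s z0 e0, IrrD G l RI b s z0 e0 → IrrG G l RI → IrrT G RI (b (G.ρ 0)) →
    (∀ j, 2 ≤ j → j < d → ∀ v ∈ G.V 1 j, RI (G.ρ j) v = v) → RI (G.ρ 1) e0 = -e0 →
    Cls 2 (Ph G 1 0 l) (fun i => G.V 1 i) (ggI G RI) →
    ∃ c y0 t s0 ε g q, WI G c y0 t s0 ε g q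

/-- III.7, III.8 (red). `c = P f(x0)`, `q γ = ⟪f(γ x0), e0⟫`; `g j = RI (ρ (j + 1))` for `j ≥ 1`,
`g 0 = ± RI (ρ 1)`; `RI (ρ 0) = -1` on `I` (`b = false`) or the reflection in `t` (`b = true`); the latter
only for the cross-polytope, by S_NOS and `IsExt.root`. For `ql`: `γ ρ_j γ⁻¹ = m ρ_j m⁻¹` with
`m ∈ N` (S_MIR, first part), it acts trivially on `e0` and fixes `γ x0`. -/
def S_WRR : Prop :=
  ∀ (d k : ℕ) (Γ : Type) [Group Γ] (X : Type) [MulAction Γ X] [Infinite X] (G : AGeo d k Γ X)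
    (l : ℕ), ATop G l → ∀ e0, RedE G l e0 → RedV G l → ∀ RI, IsExt G l RI →
    ∀ b, RedB G l RI b → RedG G l RI (b (G.ρ 0)) →
    ∀ (n : ℕ), n + 1 = d → ∀ (ι : E n →ₗᵢ[ℝ] E d), (∀ v, v ∈ Sp G 0 l ↔ ∃ z, ι z = v) →
    ∀ (gg : ℕ → (E n ≃ₗᵢ[ℝ] E n)), (∀ j z, ι (gg j z) = RI (G.ρ (j + 1)) (ι z)) →
    Cls 1 {z | ι z ∈ Ph G 1 0 l} (fun i => (G.V 1 (i + 1)).comap ι.toLinearMap) gg →
    ∃ c y0 t b' s1 g q, WR G l c e0 y0 t b' s1 g q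

def M_WRR : Prop := S_MIR → S_DIR → S_NOS → S_WRR

end

end FOI.L
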