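import Pool.Agent.FOL.BStmts
import Pool.Agent.FOK.SL
import Pool.Agent.FOK.AD
import Pool.Agent.FO2.ST
import Pool.Agent.FO2.FR2

/-!
# The directions of the affine reflections (II.8)
-/

namespace FOI.L

open Lib_helper64.FO FO2 FOK
open scoped RealInnerProductSpace Nat

noncomputable section

namespace DIR

variable {d k : ℕ} {Γ : Type} [Group Γ] {X : Type} [MulAction Γ X] {G : AGeo d k Γ X} {l : ℕ}

theorem fin_E : Module.finrank ℝ (E d) = d := finrank_euclideanSpace_fin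

theorem rho_mem_N (hT : ATop G l) : G.ρ l ∈ G.N := hT.up (G.ρ_mem_up (by omega))

/-- what we use about the conjugates of `ρ l` -/
def TTN (G : AGeo d k Γ X) (l : ℕ) : Prop :=
  ∀ x ∈ TT G 0 l, x ∈ G.N ∧ ∃ n ∈ G.N, x = n * G.ρ l * n⁻¹

theorem TT_conj {γ : Γ} {x : Γ} (hx : x ∈ TT G 0 l) : γ * x * γ⁻¹ ∈ TT G 0 l := by
  obtain ⟨δ, hδ, rfl⟩ := hx
  exact ⟨γ * δ, G.mem_up_zero _, by group⟩

theorem TT_mono {i j : ℕ} (h : i ≤ j) : TT G j l ⊆ TT G i l := by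
  rintro x ⟨γ, hγ, rfl⟩
  exact ⟨γ, G.up_anti h hγ, rfl⟩

theorem Ph_mono {i j : ℕ} (h : i ≤ j) (g : Γ) : Ph G g j l ⊆ Ph G g i l := by
  rintro a ⟨h1, x, hx, h2⟩
  exact ⟨h1, x, TT_mono h hx, h2⟩

/-- conjugation of roots -/
theorem conj_root (g : Γ) {n x : Γ} (hn : n ∈ G.N) (hx : x ∈ G.N) {a : E d}
    (h : ∀ v, G.R g x v = sref a v) (v : E d) :
    G.R g (n * x * n⁻¹) v = sref (G.R g n a) v := by
  rw [G.R_mul_apply g (mul_mem hn hx) (inv_mem hn), G.R_mul_apply g hn hx, h, map_sref,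
    G.R_inv_apply g hn]

theorem inv (hM : TTN G l) {n : Γ} (hn : n ∈ G.N) {a : E d}
    (ha : a ∈ Ph G 1 0 l) : G.R 1 n a ∈ Ph G 1 0 l := by
  obtain ⟨h1, x, hx, h2⟩ := ha
  refine ⟨by rw [LinearIsometryEquiv.norm_map, h1], n * x * n⁻¹, TT_conj hx, ?_⟩
  exact conj_root 1 hn (hM x hx).1 h2

theorem root0 (hT : ATop G l) : ∃ a0 : E d, ‖a0‖ = 1 ∧ (∀ v, G.R 1 (G.ρ l) v = sref a0 v) ∧
    a0 ∈ Ph G 1 l l := by
  obtain ⟨a0, ha0, h0⟩ := hT.refl 1
  exact ⟨a0, ha0, h0, ha0, G.ρ l, ⟨1, one_mem _, by group⟩, h0⟩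

theorem rs (hT : ATop G l) (hM : TTN G l) (hfin : (Ph G 1 0 l).Finite) : IsRS (Ph G 1 0 l) := by
  refine ⟨hfin, ?_, fun a ha => ha.1, ?_⟩
  · obtain ⟨a0, -, -, h⟩ := root0 hT
    exact ⟨a0, Ph_mono (Nat.zero_le _) 1 h⟩
  · intro a ha b hb
    obtain ⟨-, x, hx, h2⟩ := ha
    rw [← h2]
    exact inv hM (hM x hx).1 hb

theorem trans0 (hM : TTN G l) (hN : G.ρ l ∈ G.N) {a0 : E d} (ha0 : ‖a0‖ = 1)
    (h0 : ∀ v, G.R 1 (G.ρ l) v = sref a0 v) {b : E d} (hb : b ∈ Ph G 1 0 l) :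
    ∃ n ∈ G.N, G.R 1 n a0 = b ∨ G.R 1 n a0 = -b := by
  obtain ⟨h1, x, hx, h2⟩ := hb
  obtain ⟨n, hn, rfl⟩ := (hM x hx).2
  have h3 := conj_root 1 hn hN h0
  exact ⟨n, hn, ST.eq_of_sref (by rw [LinearIsometryEquiv.norm_map, ha0]) h1
    (fun v => by rw [← h3, h2])⟩

theorem trans (hT : ATop G l) (hM : TTN G l) {a b : E d} (ha : a ∈ Ph G 1 0 l)
    (hb : b ∈ Ph G 1 0 l) : ∃ n ∈ G.N, G.R 1 n a = b ∨ G.R 1 n a = -b := by
  obtain ⟨a0, ha0, h0, -⟩ := root0 hT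
  obtain ⟨n, hn, h1⟩ := trans0 hM (rho_mem_N hT) ha0 h0 ha
  obtain ⟨m, hm, h2⟩ := trans0 hM (rho_mem_N hT) ha0 h0 hb
  have h3 : G.R 1 (m * n⁻¹) a = G.R 1 m a0 ∨ G.R 1 (m * n⁻¹) a = -G.R 1 m a0 := by
    rw [G.R_mul_apply 1 hm (inv_mem hn)]
    rcases h1 with h1 | h1
    · left
      rw [← h1, G.R_inv_apply' 1 hn]
    · right
      have : a = -G.R 1 n a0 := by rw [h1, neg_neg]
      rw [this, map_neg, G.R_inv_apply' 1 hn, map_neg]
  refine ⟨m * n⁻¹, mul_mem hm (inv_mem hn), ?_⟩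
  rcases h2 with h2 | h2 <;> rcases h3 with h3 | h3
  · left; rw [h3, h2]
  · right; rw [h3, h2]
  · right; rw [h3, h2]
  · left; rw [h3, h2, neg_neg]

/-- if the roots of `TT 1` are in `L` then all are in `L` -/
theorem irr_aux (hT : ATop G l) (hM : TTN G l) (hI : TopI G l 1 1) (L : Submodule ℝ (E d))
    (hL : ∀ a ∈ Ph G 1 0 l, a ∈ L ∨ a ∈ Lᗮ) (hl : ∀ a ∈ Ph G 1 1 l, a ∈ L) :
    ∀ a ∈ Ph G 1 0 l, a ∈ L := by
  intro c hc
  by_contra hcL
  have hc' : c ∈ Lᗮ := (hL c hc).resolve_left hcL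
  obtain ⟨a0, ha0, h0, ha0P⟩ := root0 hT
  have h1l : 1 ≤ l := by have := hT.l5; omega
  replace ha0P : a0 ∈ Ph G 1 1 l := Ph_mono h1l 1 ha0P
  obtain ⟨n, hn, h1⟩ := trans0 hM (rho_mem_N hT) ha0 h0 hc
  have hnc : G.R 1 n a0 ∈ Lᗮ := by
    rcases h1 with h1 | h1
    · rw [h1]; exact hc'
    · rw [h1]; exact neg_mem hc'
  -- the image of the roots is in one part
  have h2 := hI.irr (L.comap (G.R 1 n).toLinearEquiv.toLinearMap)
  have hmem : ∀ b, b ∈ L.comap (G.R 1 n).toLinearEquiv.toLinearMap ↔ G.R 1 n b ∈ L := fun b =>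
    Iff.rfl
  have hperp : ∀ b, G.R 1 n b ∈ Lᗮ → b ∈ (L.comap (G.R 1 n).toLinearEquiv.toLinearMap)ᗮ := by
    intro b hb
    rw [Submodule.mem_orthogonal]
    intro u hu
    rw [← LinearIsometryEquiv.inner_map_map (G.R 1 n)]
    exact (Submodule.mem_orthogonal _ _).1 hb _ ((hmem u).1 hu)
  have hperp' : ∀ b, b ∈ (L.comap (G.R 1 n).toLinearEquiv.toLinearMap)ᗮ → G.R 1 n b ∈ Lᗮ := by
    intro b hb
    rw [Submodule.mem_orthogonal]
    intro u hu
    have h3 : G.R 1 n (G.R 1 n⁻¹ u) = u := G.R_inv_apply 1 hn u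
    have h4 : G.R 1 n⁻¹ u ∈ L.comap (G.R 1 n).toLinearEquiv.toLinearMap := by
      rw [hmem, h3]; exact hu
    have h5 := (Submodule.mem_orthogonal _ _).1 hb _ h4
    rw [← h3, LinearIsometryEquiv.inner_map_map]
    exact h5
  have h3 := h2 fun b hb => by
    rcases hL _ (inv hM hn (Ph_mono (Nat.zero_le _) 1 hb)) with h | h
    · exact Or.inl ((hmem b).2 h)
    · exact Or.inr (hperp b h)
  have hall : ∀ b ∈ Ph G 1 1 l, G.R 1 n b ∈ Lᗮ := by
    rcases h3 with h3 | h3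
    · exfalso
      have h4 : G.R 1 n a0 ∈ L := (hmem a0).1 (h3 a0 ha0P)
      have h5 : ⟪G.R 1 n a0, G.R 1 n a0⟫ = 0 := (Submodule.mem_orthogonal _ _).1 hnc _ h4
      rw [LinearIsometryEquiv.inner_map_map, real_inner_self_eq_norm_sq, ha0] at h5
      norm_num at h5
    · exact fun b hb => hperp' b (h3 b hb)
  -- dimensions
  have hU1 : Submodule.span ℝ (Ph G 1 1 l) ≤ L := by
    rw [Submodule.span_le]
    exact hl
  have hU2 : (Submodule.span ℝ (Ph G 1 1 l)).map (G.R 1 n).toLinearEquiv.toLinearMap ≤ Lᗮ := by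
    rw [Submodule.map_span, Submodule.span_le]
    rintro _ ⟨b, hb, rfl⟩
    exact hall b hb
  have hd1 := Submodule.finrank_mono hU1
  have hd2 := Submodule.finrank_mono hU2
  have hd3 : Module.finrank ℝ ((Submodule.span ℝ (Ph G 1 1 l)).map
      (G.R 1 n).toLinearEquiv.toLinearMap)
      = Module.finrank ℝ (Submodule.span ℝ (Ph G 1 1 l)) :=
    LinearEquiv.finrank_map_eq (G.R 1 n).toLinearEquiv (Submodule.span ℝ (Ph G 1 1 l))
  have hd4 := Submodule.finrank_add_finrank_orthogonal L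
  rw [fin_E] at hd4
  have hd5 := hI.dim
  have hd6 := hT.ld
  omega

theorem irr (hT : ATop G l) (hM : TTN G l) (hI : TopI G l 1 1) : IrrRS (Ph G 1 0 l) := by
  intro L hL
  rcases hI.irr L (fun a ha => hL a (Ph_mono (Nat.zero_le _) 1 ha)) with h | h
  · exact Or.inl (irr_aux hT hM hI L hL h)
  · refine Or.inr (irr_aux hT hM hI Lᗮ (fun a ha => ?_) h)
    rcases hL a ha with h1 | h1
    · right
      rw [Submodule.orthogonal_orthogonal]
      exact h1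
    · exact Or.inl h1

/-- the group of the isometries of `N` -/
def GN (G : AGeo d k Γ X) : Subgroup (E d ≃ₗᵢ[ℝ] E d) where
  carrier := {h | ∃ n ∈ G.N, G.R 1 n = h}
  mul_mem' := by
    rintro _ _ ⟨m, hm, rfl⟩ ⟨n, hn, rfl⟩
    exact ⟨m * n, mul_mem hm hn, G.R_mul 1 hm hn⟩
  one_mem' := ⟨1, one_mem _, G.R_one 1⟩
  inv_mem' := by
    rintro _ ⟨m, hm, rfl⟩
    exact ⟨m⁻¹, inv_mem hm, G.R_inv 1 hm⟩

theorem R_mem_GN {n : Γ} (hn : n ∈ G.N) : G.R 1 n ∈ GN G := ⟨n, hn, rfl⟩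

theorem GN_inv (hM : TTN G l) {h : E d ≃ₗᵢ[ℝ] E d} (hh : h ∈ GN G) :
    ∀ b ∈ Ph G 1 0 l, h b ∈ Ph G 1 0 l := by
  obtain ⟨n, hn, e⟩ := hh
  intro b hb
  rw [← e]
  exact inv hM hn hb

theorem hom (hT : ATop G l) (hM : TTN G l) (hI : TopI G l 1 1) (hfin : (Ph G 1 0 l).Finite) :
    Hom d (Sp G 0 l) (GN G) (Ph G 1 0 l) := by
  have hirr := irr hT hM hI
  refine ⟨?_, ?_, rs hT hM hfin, Submodule.subset_span, fun h hh b hb => GN_inv hM hh b hb, ?_⟩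
  · intro h hh w hw
    rw [Sp] at hw ⊢
    induction hw using Submodule.span_induction with
    | mem x hx => exact Submodule.subset_span (GN_inv hM hh x hx)
    | zero => rw [map_zero]; exact zero_mem _
    | add x y _ _ hx hy => rw [map_add]; exact add_mem hx hy
    | smul c x _ hx => rw [map_smul]; exact Submodule.smul_mem _ c hx
  · intro B hB hinv
    have h1 : ∀ a ∈ Ph G 1 0 l, a ∈ B ∨ a ∈ Bᗮ := by
      intro a ha
      by_cases hc : ∀ w ∈ B, ⟪w, a⟫ = 0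
      · exact Or.inr ((Submodule.mem_orthogonal _ _).2 hc)
      · left
        push Not at hc
        obtain ⟨w, hw, hwa⟩ := hc
        obtain ⟨-, x, hx, h2⟩ := ha
        have h3 : sref a w ∈ B := by
          rw [← h2]
          exact hinv _ (R_mem_GN (hM x hx).1) w hw
        have h4 : (2 * ⟪a, w⟫) • a ∈ B := by
          have e : (2 * ⟪a, w⟫) • a = w - sref a w := by rw [sref]; abel
          rw [e]
          exact sub_mem hw h3
        have h5 : (2 * ⟪a, w⟫) ≠ 0 := by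
          rw [real_inner_comm]
          exact mul_ne_zero two_ne_zero hwa
        exact (Submodule.smul_mem_iff _ h5).1 h4
    rcases hirr B h1 with h | h
    · right
      refine le_antisymm hB ?_
      rw [Sp, Submodule.span_le]
      exact h
    · left
      have h2 : Sp G 0 l ≤ Bᗮ := by
        rw [Sp, Submodule.span_le]
        exact h
      rw [eq_bot_iff]
      intro b hb
      have h3 : ⟪b, b⟫ = 0 := (Submodule.mem_orthogonal _ _).1 (h2 (hB hb)) _ hb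
      exact inner_self_eq_zero.1 h3
  · intro b hb c hc
    obtain ⟨n, hn, h⟩ := trans hT hM hb hc
    exact ⟨G.R 1 n, R_mem_GN hn, h⟩

end DIR

/-- II.8 -/
theorem t_DIR : M_DIR := by
  intro hTI hMIR hFIN d k Γ _ X _ G l hT
  have h5 := hT.l5
  have hld := hT.ld
  have hM : DIR.TTN G l := (hMIR d k Γ X G l hT).2.1
  have hI := hTI d k Γ X G l hT 1 1 le_rfl (by omega)
  have hfin := (hFIN d k Γ X G l hT).1
  have hle : Sp G 1 l ≤ Sp G 0 l := Submodule.span_mono (DIR.Ph_mono (Nat.zero_le _) 1)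
  have hdim1 : d ≤ Module.finrank ℝ (Sp G 1 l) + 1 := hI.dim
  have hdim : d ≤ Module.finrank ℝ (Sp G 0 l) + 1 := by
    have := Submodule.finrank_mono hle
    omega
  have hhom := DIR.hom hT hM hI hfin
  have hirr := DIR.irr hT hM hI
  have hsl : SL (Ph G 1 0 l) := t_SL d _ (Sp G 0 l) (DIR.GN G) (Ph G 1 0 l) hhom rfl
    (by omega) hirr
  refine ⟨hhom.rs, hirr, DIR.Ph_mono (Nat.zero_le _) 1, fun n hn a ha => DIR.inv hM hn ha,
    fun a ha b hb => DIR.trans hT hM ha hb, hdim, ?_, hsl,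
    t_AD d _ (Sp G 0 l) (DIR.GN G) (Ph G 1 0 l) hhom rfl (by omega) hirr hsl⟩
  have h1 : Module.finrank ℝ (Sp G 0 l) ≤ d := by
    have := Submodule.finrank_le (Sp G 0 l)
    rwa [DIR.fin_E] at this
  rcases Nat.lt_or_ge (Module.finrank ℝ (Sp G 0 l)) d with h2 | h2
  · right
    exact (Submodule.eq_of_le_of_finrank_le hle (by omega)).symm
  · left
    exact Submodule.eq_top_of_finrank_eq (by rw [DIR.fin_E]; omega)

end

end FOI.L
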