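import Pool.Agent.FOL.CStmts
import Pool.Agent.FOI.DStmts

/-!
# Statements of the modules, block IV, for `FOL.ATop`

Changed copy of `Pool/Agent/FOI/DStmts.lean`.
-/

namespace FOI.L

open Lib_helper64.FO FO2 FOK
open FOL (bd)
open scoped RealInnerProductSpace Nat

noncomputable section

variable {d k : ℕ} {Γ : Type} [Group Γ] {X : Type} [MulAction Γ X]

/-! ## IV.1: data -/

/-- the algebraic form of `MixedI` without the count -/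
def ConclI (G : AGeo d k Γ X) : Prop :=
  ∃ (c y0 t : E d) (s0 : ℤˣ) (ε : ℝ) (g : ℕ → (E d ≃ₗᵢ[ℝ] E d)) (A : Type) (M : Datum d A),
    Finite A ∧ (∀ j : Fin d, bd (k - 1) ≤ j.val + 20 → M.π j = 1) ∧
    (ε = 1 ∨ ε = -1) ∧ LinModel d ε ⊤ y0 g ∧
    t ≠ 0 ∧ t ∈ Submodule.span ℝ {y0, g 0 y0} ∧ sg s0 • g 0 t = -t ∧
    ∀ w : List (Fin d), G.f ((w.map fun j : Fin d => G.ρ j).prod • G.x0) =
      c + wI s0 g t w + M.r ((w.map M.π).prod M.a0) • ((w.map fun j : Fin d => g j).prod y0)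

/-- the algebraic form of `MixedR` without the count -/
def ConclR (G : AGeo d k Γ X) : Prop :=
  ∃ (c e0 y0 t : E d) (b : Bool) (s1 : ℤˣ) (g : ℕ → (E d ≃ₗᵢ[ℝ] E d)) (A : Type) (M : Datum d A),
    (∀ j : Fin d, bd (k - 1) ≤ j.val + 20 → M.π j = 1) ∧
    ‖e0‖ = 1 ∧ LinModel (d - 1) 1 (ℝ ∙ e0)ᗮ y0 g ∧
    (b = true → CroM (d - 1) 1 (ℝ ∙ e0)ᗮ y0 g) ∧
    t ≠ 0 ∧ t ∈ Submodule.span ℝ {y0} ∧
    ∀ w : List (Fin d), G.f ((w.map fun j : Fin d => G.ρ j).prod • G.x0) =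
      c + wR b s1 g y0 t w + M.r ((w.map M.π).prod M.a0) • e0

/-- (irr). S_NER for `r w = s_w q(ρ_w)`; finiteness with the classes `(s_w, ρ_w N)`; `π j = 1` for
`j ≥ l`, as `ρ j ∈ N`. -/
def S_ACI : Prop :=
  ∀ (d k : ℕ) (Γ : Type) [Group Γ] (X : Type) [MulAction Γ X] (G : AGeo d k Γ X)
    (l : ℕ), ATop G l → ∀ c y0 t s0 ε g q, WI G c y0 t s0 ε g q → ConclI G

def M_ACI : Prop := S_NER → S_ACI

/-- (red). S_NER for `r w = q(ρ_w)`. -/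
def S_ACR : Prop :=
  ∀ (d k : ℕ) (Γ : Type) [Group Γ] (X : Type) [MulAction Γ X] (G : AGeo d k Γ X)
    (l : ℕ), ATop G l → ∀ c e0 y0 t b s1 g q, WR G l c e0 y0 t b s1 g q → ConclR G

def M_ACR : Prop := S_NER → S_ACR

/-- the algebraic part of the theorem -/
def S_ACON : Prop :=
  ∀ (d k : ℕ) (Γ : Type) [Group Γ] (X : Type) [MulAction Γ X] [Infinite X] (G : AGeo d k Γ X),
    bd (k - 1) ≤ d → G.H ≠ ⊤ → ConclI G ∨ ConclR G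

/-- Assembly: S_ATOP, S_EXT, S_AFX; if `Sp G 0 l = ⊤` S_IRR1 - S_IRR4, S_LI1, S_LI2, S_LCLS, S_WRI, S_ACI;
otherwise S_RED1 - S_RED5, an isometry `ι : E (d - 1) →ₗᵢ E d` with range `Sp G 0 l` and the
isometries `gg j`, S_LR1, S_LR2, S_LCLS, S_WRR, S_ACR. -/
def M_ACON : Prop := S_ATOP → S_EXT → S_AFX → S_IRR1 → S_IRR2 → S_IRR3 → S_IRR4 → S_LI1 → S_LI2 →
  S_LCLS → S_WRI → S_ACI → S_RED1 → S_RED2 → S_RED3 → S_RED4 → S_RED5 → S_LR1 → S_LR2 →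
  S_WRR → S_ACR → S_ACON

/-! ## IV.2: the count -/

end

end FOI.L
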