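import Pool.Agent.FOL.FStmts
import Pool.Agent.FO2.RG2
import Pool.Agent.FO2.ST

/-!
# Module BE1: the isometries of 10.3 (existence, uniqueness, products)
-/

namespace FOK.L

open Lib_helper64.FO FO2
open scoped RealInnerProductSpace

noncomputable section

namespace BE1

variable {d k : ℕ} {Γ : Type} [Group Γ] {X : Type} [MulAction Γ X] {G : KGeo d k Γ X} {l : ℕ}

theorem conj_TT {x : Γ} (hx : x ∈ TT G 0 l) (γ : Γ) : γ * x * γ⁻¹ ∈ TT G 0 l := by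
  obtain ⟨δ, -, rfl⟩ := hx
  exact ⟨γ * δ, G.mem_up_zero _, by group⟩

/-- the representation of `N` is faithful -/
theorem R_inj {m n : Γ} (hm : m ∈ G.N) (hn : n ∈ G.N) (h : ∀ v, G.R 1 m v = G.R 1 n v) :
    m = n := by
  have h1 : n⁻¹ * m = 1 := by
    refine G.eq_one_of_R (g := 1) (mul_mem (inv_mem hn) hm) fun y => ?_
    rw [G.R_mul_apply 1 (inv_mem hn) hm, h, G.R_inv_apply' 1 hn]
  exact (inv_mul_eq_one.1 h1).symm

theorem isB_mul {γ γ' : Γ} {β β' : E d ≃ₗᵢ[ℝ] E d} (h : IsB G l γ β) (h' : IsB G l γ' β') :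
    IsB G l (γ * γ') (β * β') := by
  intro x hx v
  have e : γ * γ' * x * (γ * γ')⁻¹ = γ * (γ' * x * γ'⁻¹) * γ⁻¹ := by group
  have e1 : (β * β') (G.R 1 x v) = β (β' (G.R 1 x v)) := rfl
  have e2 : (β * β') v = β (β' v) := rfl
  rw [e, e1, e2, h' x hx v, h _ (conj_TT hx γ') (β' v)]

theorem isB_N (hTN : TT G 0 l ⊆ G.Ni 0) {n : Γ} (hn : n ∈ G.N) : IsB G l n (G.R 1 n) := by
  intro x hx v
  have hxN : x ∈ G.N := (hTN hx).1
  rw [← G.R_mul_apply 1 hn hxN, ← G.R_mul_apply 1 (G.conj_mem_N n hxN) hn]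
  congr 2
  group

/-- the root of `γ x γ⁻¹` -/
theorem isB_root {γ : Γ} {β : E d ≃ₗᵢ[ℝ] E d} (h : IsB G l γ β) {x : Γ}
    (hx : x ∈ TT G 0 l) {a : E d} (hr : ∀ v, G.R 1 x v = sref a v) (w : E d) :
    G.R 1 (γ * x * γ⁻¹) w = sref (β a) w := by
  have h1 := h x hx (β.symm w)
  rw [hr, map_sref, LinearIsometryEquiv.apply_symm_apply] at h1
  exact h1.symm

theorem uniq (hT : TopI G l 1 0) (hs : Submodule.span ℝ (Ph G 1 0 l) = ⊤) {γ : Γ}
    {β β' : E d ≃ₗᵢ[ℝ] E d} (h : IsB G l γ β) (h' : IsB G l γ β') :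
    (∀ v, β' v = β v) ∨ ∀ v, β' v = -β v := by
  have hpm : ∀ a ∈ Ph G 1 0 l, β' a = β a ∨ β' a = -β a := by
    rintro a ⟨ha, x, hx, hr⟩
    apply ST.eq_of_sref
    · rw [LinearIsometryEquiv.norm_map, ha]
    · rw [LinearIsometryEquiv.norm_map, ha]
    · intro v
      rw [← isB_root h' hx hr v, ← isB_root h hx hr v]
  have hspan : ∀ f g : E d →ₗ[ℝ] E d, (∀ a ∈ Ph G 1 0 l, f a = g a) → ∀ v, f v = g v := by
    intro f g hfg v
    have hv : v ∈ Submodule.span ℝ (Ph G 1 0 l) := by rw [hs]; trivial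
    exact LinearMap.eqOn_span hfg hv
  let L : Submodule ℝ (E d) :=
    { carrier := {v | β' v = β v}
      add_mem' := by
        intro a b ha hb
        simp only [Set.mem_ofPred_eq] at ha hb ⊢
        rw [map_add, map_add, ha, hb]
      zero_mem' := by
        simp only [Set.mem_ofPred_eq]
        rw [map_zero, map_zero]
      smul_mem' := by
        intro c a ha
        simp only [Set.mem_ofPred_eq] at ha ⊢
        rw [map_smul, map_smul, ha] }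
  have hL : ∀ v, v ∈ L ↔ β' v = β v := fun v => Iff.rfl
  have h1 : ∀ a ∈ Ph G 1 0 l, a ∈ L ∨ a ∈ Lᗮ := by
    intro a ha
    rcases hpm a ha with h2 | h2
    · left; exact h2
    · right
      rw [Submodule.mem_orthogonal]
      intro v hv
      have h3 : ⟪β' v, β' a⟫ = ⟪v, a⟫ := LinearIsometryEquiv.inner_map_map _ _ _
      have h4 : ⟪β v, β a⟫ = ⟪v, a⟫ := LinearIsometryEquiv.inner_map_map _ _ _
      rw [(hL v).1 hv, h2, inner_neg_right, h4] at h3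
      linarith
  rcases hT.irr L h1 with h2 | h2
  · left
    exact hspan β'.toLinearEquiv.toLinearMap β.toLinearEquiv.toLinearMap fun a ha => h2 a ha
  · right
    have h3 : ∀ a ∈ Ph G 1 0 l, β' a = -β a := by
      intro a ha
      rcases hpm a ha with h4 | h4
      · exfalso
        have h5 : ⟪a, a⟫ = (0 : ℝ) := (Submodule.mem_orthogonal _ _).1 (h2 a ha) a h4
        rw [hT.rs.inner_self ha] at h5
        exact one_ne_zero h5
      · exact h4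
    exact hspan β'.toLinearEquiv.toLinearMap (-β.toLinearEquiv.toLinearMap) fun a ha => by
      simpa using h3 a ha

theorem exist (hT : TopI G l 1 0) (hs : Submodule.span ℝ (Ph G 1 0 l) = ⊤)
    (hSL : SL (Ph G 1 0 l)) (γ : Γ) : ∃ β, IsB G l γ β := by
  have hN : ∀ x ∈ TT G 0 l, x ∈ G.N := fun x hx => (hT.TN hx).1
  -- the involution of a root
  have hx1 : ∀ a ∈ Ph G 1 0 l, ∃ x ∈ TT G 0 l, ∀ v, G.R 1 x v = sref a v := fun a ha => ha.2
  choose! χ hχT hχr using hx1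
  have hχ : ∀ x ∈ TT G 0 l, ∀ a ∈ Ph G 1 0 l, (∀ v, G.R 1 x v = sref a v) → χ a = x := by
    intro x hx a ha h
    exact R_inj (hN _ (hχT a ha)) (hN x hx) fun v => by rw [hχr a ha, h]
  -- the root of the conjugate involution
  have h2 : ∀ a ∈ Ph G 1 0 l, ∃ b ∈ Ph G 1 0 l, ∀ v, G.R 1 (γ * χ a * γ⁻¹) v = sref b v :=
    fun a ha => hT.root _ (conj_TT (hχT a ha) γ)
  choose! ψ hψΦ hψr using h2
  have hn : ∀ a ∈ Ph G 1 0 l, ‖a‖ = 1 := fun a ha => ha.1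
  -- equal roots up to sign
  have hconj : ∀ a b : Γ, γ * a * γ⁻¹ = γ * b * γ⁻¹ ↔ a = b := by
    intro a b
    constructor
    · intro h
      exact mul_left_cancel (mul_right_cancel h)
    · rintro rfl
      rfl
  have hχeq : ∀ b ∈ Ph G 1 0 l, ∀ c ∈ Ph G 1 0 l, χ b = χ c ↔ ST.Eqs b c := by
    intro b hb c hc
    constructor
    · intro h
      apply ST.eq_of_sref (hn b hb) (hn c hc)
      intro v
      rw [← hχr b hb, ← hχr c hc, h]
    · intro h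
      exact hχ _ (hχT c hc) b hb fun v => by rw [hχr c hc, h.sref_eq]
  have hψeq : ∀ b ∈ Ph G 1 0 l, ∀ c ∈ Ph G 1 0 l, ST.Eqs (ψ b) (ψ c) ↔ ST.Eqs b c := by
    intro b hb c hc
    rw [← hχeq b hb c hc, ← hconj]
    constructor
    · intro h
      exact R_inj (G.conj_mem_N γ (hN _ (hχT b hb))) (G.conj_mem_N γ (hN _ (hχT c hc))) fun v => by
        rw [hψr b hb, hψr c hc, h.sref_eq]
    · intro h
      apply ST.eq_of_sref (hn _ (hψΦ b hb)) (hn _ (hψΦ c hc))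
      intro v
      rw [← hψr b hb, ← hψr c hc, h]
  -- commuting involutions
  have hcomm : ∀ x ∈ TT G 0 l, ∀ y ∈ TT G 0 l, ∀ a b : E d, ‖a‖ = 1 → ‖b‖ = 1 →
      (∀ v, G.R 1 x v = sref a v) → (∀ v, G.R 1 y v = sref b v) →
      (x * y = y * x ↔ (⟪a, b⟫ = (0 : ℝ) ∨ a = b ∨ a = -b)) := by
    intro x hx y hy a b ha hb hxa hyb
    constructor
    · intro e
      apply ST.inner_of_comm ha hb
      intro v
      have e1 := G.R_mul_apply 1 (hN x hx) (hN y hy) v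
      have e2 := G.R_mul_apply 1 (hN y hy) (hN x hx) v
      rw [e, e2, hxa, hyb, hyb, hxa] at e1
      exact e1.symm
    · intro e
      apply R_inj (mul_mem (hN x hx) (hN y hy)) (mul_mem (hN y hy) (hN x hx))
      intro v
      rw [G.R_mul_apply 1 (hN x hx) (hN y hy), G.R_mul_apply 1 (hN y hy) (hN x hx), hxa, hyb, hyb,
        hxa, ST.comm_of_inner e]
  have hψcomm : ∀ b ∈ Ph G 1 0 l, ∀ c ∈ Ph G 1 0 l,
      ((⟪ψ b, ψ c⟫ = (0 : ℝ) ∨ ST.Eqs (ψ b) (ψ c)) ↔ (⟪b, c⟫ = (0 : ℝ) ∨ ST.Eqs b c)) := by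
    intro b hb c hc
    have e1 := hcomm _ (hχT b hb) _ (hχT c hc) b c (hn b hb) (hn c hc) (hχr b hb) (hχr c hc)
    have e2 := hcomm _ (conj_TT (hχT b hb) γ) _ (conj_TT (hχT c hc) γ) _ _ (hn _ (hψΦ b hb))
      (hn _ (hψΦ c hc)) (hψr b hb) (hψr c hc)
    have e3 : γ * χ b * γ⁻¹ * (γ * χ c * γ⁻¹) = γ * χ c * γ⁻¹ * (γ * χ b * γ⁻¹) ↔
        χ b * χ c = χ c * χ b := by
      rw [← hconj (χ b * χ c) (χ c * χ b)]
      have e4 : γ * χ b * γ⁻¹ * (γ * χ c * γ⁻¹) = γ * (χ b * χ c) * γ⁻¹ := by group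
      have e5 : γ * χ c * γ⁻¹ * (γ * χ b * γ⁻¹) = γ * (χ c * χ b) * γ⁻¹ := by group
      rw [e4, e5]
    exact e2.symm.trans (e3.trans e1)
  -- the three cases
  have hcase : ∀ b ∈ Ph G 1 0 l, ∀ c ∈ Ph G 1 0 l,
      (|(⟪b, c⟫ : ℝ)| = 1 ∧ ST.Eqs b c) ∨ (|(⟪b, c⟫ : ℝ)| = 0 ∧ ⟪b, c⟫ = (0 : ℝ) ∧ ¬ ST.Eqs b c) ∨
        (|(⟪b, c⟫ : ℝ)| = 1 / 2 ∧ ⟪b, c⟫ ≠ (0 : ℝ) ∧ ¬ ST.Eqs b c) := by
    intro b hb c hc
    have hE : ST.Eqs b c → |(⟪b, c⟫ : ℝ)| = 1 := by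
      rintro (h | h)
      · rw [h, hT.rs.inner_self hc, abs_one]
      · rw [h, inner_neg_left, abs_neg, hT.rs.inner_self hc, abs_one]
    rcases hSL b hb c hc with h | h | h | h | h
    · refine Or.inr (Or.inl ⟨by rw [h, abs_zero], h, fun h' => ?_⟩)
      have := hE h'
      rw [h, abs_zero] at this
      exact zero_ne_one this
    · refine Or.inr (Or.inr ⟨by rw [h]; norm_num, by rw [h]; norm_num, fun h' => ?_⟩)
      have := hE h'
      rw [h] at this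
      norm_num at this
    · refine Or.inr (Or.inr ⟨by rw [h]; norm_num [abs_div], by rw [h]; norm_num, fun h' => ?_⟩)
      have := hE h'
      rw [h] at this
      norm_num [abs_div] at this
    · exact Or.inl ⟨hE (Or.inl h), Or.inl h⟩
    · exact Or.inl ⟨hE (Or.inr h), Or.inr h⟩
  have hinner : ∀ b ∈ Ph G 1 0 l, ∀ c ∈ Ph G 1 0 l, |(⟪ψ b, ψ c⟫ : ℝ)| = |(⟪b, c⟫ : ℝ)| := by
    intro b hb c hc
    have e1 := hψeq b hb c hc
    have e2 := hψcomm b hb c hc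
    rcases hcase b hb c hc with ⟨h1, h2⟩ | ⟨h1, h2, h3⟩ | ⟨h1, h2, h3⟩ <;>
      rcases hcase _ (hψΦ b hb) _ (hψΦ c hc) with ⟨h4, h5⟩ | ⟨h4, h5, h6⟩ | ⟨h4, h5, h6⟩ <;>
      first
        | (rw [h1, h4]; done)
        | (exfalso; tauto)
  have hsref : ∀ b ∈ Ph G 1 0 l, ∀ c ∈ Ph G 1 0 l,
      ψ (sref b c) = sref (ψ b) (ψ c) ∨ ψ (sref b c) = -sref (ψ b) (ψ c) := by
    intro b hb c hc
    have hbc := hT.rs.refl b hb c hc
    have hss : ∀ p q v : E d, ‖p‖ = 1 → sref p (sref q (sref p v)) = sref (sref p q) v := by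
      intro p q v hp
      have hpp : ⟪p, p⟫ = (1 : ℝ) := by rw [real_inner_self_eq_norm_sq, hp]; norm_num
      have hqp : ⟪q, p⟫ = ⟪p, q⟫ := real_inner_comm _ _
      simp only [sref, inner_sub_left, inner_sub_right, inner_smul_left, inner_smul_right, hpp, hqp,
        conj_trivial]
      module
    -- the involution of the reflected root
    have hN1 : χ b * χ c * (χ b)⁻¹ ∈ G.N :=
      mul_mem (mul_mem (hN _ (hχT b hb)) (hN _ (hχT c hc))) (inv_mem (hN _ (hχT b hb)))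
    have hRi : ∀ x ∈ TT G 0 l, ∀ a : E d, ‖a‖ = 1 → (∀ v, G.R 1 x v = sref a v) →
        ∀ v, G.R 1 x⁻¹ v = sref a v := by
      intro x hx a ha h v
      have e := G.R_inv_apply' 1 (hN x hx) (sref a v)
      rw [h, sref_sref ha] at e
      exact e
    have hRc : ∀ x ∈ TT G 0 l, ∀ y ∈ TT G 0 l, ∀ a b : E d, ‖a‖ = 1 →
        (∀ v, G.R 1 x v = sref a v) → (∀ v, G.R 1 y v = sref b v) →
        ∀ v, G.R 1 (x * y * x⁻¹) v = sref (sref a b) v := by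
      intro x hx y hy a b ha hxa hyb v
      rw [G.R_mul_apply 1 (mul_mem (hN x hx) (hN y hy)) (inv_mem (hN x hx)),
        G.R_mul_apply 1 (hN x hx) (hN y hy), hRi x hx a ha hxa, hyb, hxa, hss a b v ha]
    have e1 : χ (sref b c) = χ b * χ c * (χ b)⁻¹ := by
      apply R_inj (hN _ (hχT _ hbc)) hN1
      intro v
      rw [hχr _ hbc, hRc _ (hχT b hb) _ (hχT c hc) b c (hn b hb) (hχr b hb) (hχr c hc)]
    have e2 : γ * χ (sref b c) * γ⁻¹ =
        (γ * χ b * γ⁻¹) * (γ * χ c * γ⁻¹) * (γ * χ b * γ⁻¹)⁻¹ := by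
      rw [e1]; group
    apply ST.eq_of_sref (hn _ (hψΦ _ hbc)) (hn _ (hT.rs.refl _ (hψΦ b hb) _ (hψΦ c hc)))
    intro v
    rw [← hψr _ hbc, e2, hRc _ (conj_TT (hχT b hb) γ) _ (conj_TT (hχT c hc) γ) _ _
      (hn _ (hψΦ b hb)) (hψr b hb) (hψr c hc)]
  obtain ⟨g, hg⟩ := rg2 d (Ph G 1 0 l) hT.rs hT.irr hs hSL ψ hψΦ hinner hsref
  refine ⟨g, fun x hx v => ?_⟩
  obtain ⟨a, ha, hr⟩ := hT.root x hx
  have e : ST.Eqs (g a) (ψ a) := hg a ha
  rw [hr, map_sref, e.sref_eq, ← hψr a ha, hχ x hx a ha hr]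

end BE1

open BE1 in
theorem t_BE1 : M_BE1 := by
  intro hTI hTAD d k Γ _ _ X _ G l hTop
  have hT := hTI d k Γ X G l hTop 1 0 (Nat.zero_le _)
  obtain ⟨hSL, -⟩ := hTAD d k Γ X G l hTop
  have hs : Submodule.span ℝ (Ph G 1 0 l) = ⊤ := by
    rw [hT.span, KGeo.U]
    have h1 := hTop.dimV 1 0 (Nat.zero_le _)
    rw [Submodule.finrank_eq_zero] at h1
    rw [h1, Submodule.bot_orthogonal_eq_top]
  exact ⟨fun γ => exist hT hs hSL γ, fun γ β β' h h' => uniq hT hs h h',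
    fun γ γ' β β' h h' => isB_mul h h', fun n hn => isB_N hT.TN hn⟩

end

end FOK.L
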