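import Pool.Agent.FOL.FStmts

/-!
# 10.4: the isometries `g j`
-/

namespace FOK.L

open Lib_helper64.FO FO2
open scoped RealInnerProductSpace

noncomputable section

namespace GN1

variable {d k : ℕ} {Γ : Type} [Group Γ] {X : Type} [MulAction Γ X] {G : KGeo d k Γ X} {l : ℕ}

/-- `e` is a unit vector of the line `D 1 i` -/
structure Ln (G : KGeo d k Γ X) (i : ℕ) (e : E d) : Prop where
  mem : e ∈ G.D 1 i
  nrm : ‖e‖ = 1
  low : ∀ v ∈ G.V 1 (i + 1), v - ⟪e, v⟫ • e ∈ G.V 1 i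

theorem eq_zero_of_neg {v : E d} (h : v = -v) : v = 0 := by
  have h1 : v + v = 0 := by
    nth_rewrite 1 [h]
    exact neg_add_cancel v
  rw [← two_smul ℝ] at h1
  exact (smul_eq_zero.1 h1).resolve_left two_ne_zero

theorem prod_cons {M : Type} [Monoid M] (f : ℕ → M) (j : Fin d) (w : List (Fin d)) :
    (List.map f (do let a ← j :: w; pure (a : ℕ))).prod =
      f j * (List.map f (do let a ← w; pure (a : ℕ))).prod := by
  have : (List.map f (do let a ← j :: w; pure (a : ℕ))) =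
      f j :: (List.map f (do let a ← w; pure (a : ℕ))) := rfl
  rw [this, List.prod_cons]

theorem ex_line (hT : Top G l) {i : ℕ} (hi : i < d) : ∃ e : E d, Ln G i e := by
  have hle : G.V 1 i ≤ G.V 1 (i + 1) := G.V_mono 1 (Nat.le_succ i)
  have hdim : Module.finrank ℝ ((G.V 1 i)ᗮ ⊓ G.V 1 (i + 1) : Submodule ℝ (E d)) = 1 := by
    apply Submodule.finrank_add_inf_finrank_orthogonal' hle
    rw [hT.dimV 1 i hi.le, hT.dimV 1 (i + 1) hi]
  have hD : G.D 1 i = (G.V 1 i)ᗮ ⊓ G.V 1 (i + 1) := by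
    rw [KGeo.D, KGeo.U, inf_comm]
  rw [← hD] at hdim
  obtain ⟨e0, he0, he1⟩ := finrank_eq_one_iff'.1 hdim
  have hn : ‖(e0 : E d)‖ ≠ 0 := by
    rw [norm_ne_zero_iff]
    intro h
    exact he0 (Subtype.ext h)
  refine ⟨(‖(e0 : E d)‖⁻¹) • (e0 : E d), (G.D 1 i).smul_mem _ e0.2, ?_, ?_⟩
  · rw [norm_smul, norm_inv, norm_norm, inv_mul_cancel₀ hn]
  · intro v hv
    obtain ⟨y, hy, z, hz, rfl⟩ := (G.V 1 i).exists_add_mem_mem_orthogonal v
    have hzV : z ∈ G.V 1 (i + 1) := by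
      have := (G.V 1 (i + 1)).sub_mem hv (hle hy)
      rwa [add_sub_cancel_left] at this
    obtain ⟨c, hc⟩ := he1 ⟨z, hzV, hz⟩
    have hc' : c • (e0 : E d) = z := congrArg Subtype.val hc
    have hy0 : ⟪(e0 : E d), y⟫ = 0 := by
      have h := e0.2.2
      rw [SetLike.mem_coe, KGeo.U, Submodule.mem_orthogonal] at h
      rw [real_inner_comm]
      exact h y hy
    have : y + z - ⟪(‖(e0 : E d)‖⁻¹) • (e0 : E d), y + z⟫ • (‖(e0 : E d)‖⁻¹) • (e0 : E d) = y := by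
      rw [← hc', real_inner_smul_left, inner_add_right, hy0, real_inner_smul_right,
        real_inner_self_eq_norm_sq, smul_smul]
      have e1 : ‖(e0 : E d)‖⁻¹ * (0 + c * ‖(e0 : E d)‖ ^ 2) * ‖(e0 : E d)‖⁻¹ = c := by
        field_simp
        ring
      rw [e1, add_sub_cancel_right]
    rw [this]
    exact hy

theorem Ln.ne {i : ℕ} {e : E d} (h : Ln G i e) : e ≠ 0 := by
  intro h0
  have := h.nrm
  rw [h0, norm_zero] at this
  exact zero_ne_one this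

theorem Ln.memV {i : ℕ} {e : E d} (h : Ln G i e) : e ∈ G.V 1 (i + 1) := G.D_le_V 1 i h.mem

theorem Ln.memU {i : ℕ} {e : E d} (h : Ln G i e) : e ∈ G.U 1 i := G.D_le_U 1 i h.mem

/-- two orthogonal subspaces -/
theorem inner_UV {i : ℕ} {v w : E d} (hv : v ∈ G.V 1 i) (hw : w ∈ G.U 1 i) : ⟪v, w⟫ = 0 := by
  rw [KGeo.U, Submodule.mem_orthogonal] at hw
  exact hw v hv

theorem eq_zero {i : ℕ} {v : E d} (hv : v ∈ G.V 1 i) (hw : v ∈ G.U 1 i) : v = 0 := by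
  have := inner_UV hv hw
  rwa [inner_self_eq_zero] at this

/-- a vector of `D 1 i` is a multiple of `e` -/
theorem Ln.eq_smul {i : ℕ} {e : E d} (h : Ln G i e) {v : E d} (hv : v ∈ G.V 1 (i + 1))
    (hv' : v ∈ G.U 1 i) : v = ⟪e, v⟫ • e := by
  have h1 : v - ⟪e, v⟫ • e = 0 :=
    eq_zero (h.low v hv) ((G.U 1 i).sub_mem hv' ((G.U 1 i).smul_mem _ h.memU))
  exact sub_eq_zero.1 h1

/-! ### the isometries `β` -/

/-- what we use about an isometry `β` for `ρ j` -/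
structure Bj (G : KGeo d k Γ X) (l j : ℕ) (β : E d ≃ₗᵢ[ℝ] E d) : Prop where
  isB : IsB G l (G.ρ j) β
  V : ∀ i v, β v ∈ G.V (G.ρ j) i ↔ v ∈ G.V 1 i
  root : ∀ a, β a ∈ Ph G 1 0 l ↔ a ∈ Ph G 1 0 l

theorem Bj.iff {j : ℕ} {β : E d ≃ₗᵢ[ℝ] E d} (h : Bj G l j β) {i : ℕ} (hi : i ≠ j + 1) (v : E d) :
    β v ∈ G.V 1 i ↔ v ∈ G.V 1 i := by
  rw [← h.V i v]
  have := G.V_frame_ρ (g := 1) hi
  rw [one_mul] at this
  rw [this]

theorem Bj.memU {j : ℕ} {β : E d ≃ₗᵢ[ℝ] E d} (h : Bj G l j β) {i : ℕ} (hi : i ≠ j + 1) {w : E d}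
    (hw : w ∈ G.U 1 i) : β w ∈ G.U 1 i := by
  rw [KGeo.U, Submodule.mem_orthogonal]
  intro v hv
  have h1 : β.symm v ∈ G.V 1 i := by
    rw [← h.iff hi, LinearIsometryEquiv.apply_symm_apply]
    exact hv
  have h2 := inner_UV h1 hw
  rw [← LinearIsometryEquiv.inner_map_map β, LinearIsometryEquiv.apply_symm_apply] at h2
  exact h2

/-- `β` maps `D 1 i` to itself for `i ≠ j, j + 1` -/
theorem Bj.eig {j : ℕ} {β : E d ≃ₗᵢ[ℝ] E d} (h : Bj G l j β) {i : ℕ} (hi : i ≠ j) (hi' : i ≠ j + 1)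
    {e : E d} (he : Ln G i e) : ∃ c : ℝ, (c = 1 ∨ c = -1) ∧ β e = c • e := by
  have h1 : β e ∈ G.V 1 (i + 1) := (h.iff (by omega) e).2 he.memV
  have h2 : β e ∈ G.U 1 i := h.memU hi' he.memU
  have h3 := he.eq_smul h1 h2
  refine ⟨_, ?_, h3⟩
  have h4 : ‖β e‖ = 1 := by rw [LinearIsometryEquiv.norm_map, he.nrm]
  rw [h3, norm_smul, he.nrm, mul_one, Real.norm_eq_abs] at h4
  exact (abs_eq zero_le_one).1 h4

/-- `β` moves `D 1 j` out of `V 1 (j + 1)` -/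
theorem Bj.moves (hT : Top G l) (hS : ∀ g i, G.NZ (i + 1) → G.V (g * G.ρ i) (i + 1) ≠ G.V g (i + 1))
    {j : ℕ} {β : E d ≃ₗᵢ[ℝ] E d} (h : Bj G l j β) (hj : j + 1 < d) {e : E d} (he : e ∈ G.D 1 j)
    (he0 : e ≠ 0) : β e ∉ G.V 1 (j + 1) := by
  intro hcon
  obtain ⟨e', hl⟩ := ex_line hT (i := j) (by omega)
  have h1 := hl.eq_smul he.1 he.2
  have hc : ⟪e', e⟫ ≠ 0 := by
    intro h0
    rw [h0, zero_smul] at h1
    exact he0 h1
  have h2 : β e' ∈ G.V 1 (j + 1) := by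
    rw [h1, map_smul] at hcon
    have := (G.V 1 (j + 1)).smul_mem (⟪e', e⟫⁻¹) hcon
    rwa [smul_smul, inv_mul_cancel₀ hc, one_smul] at this
  have h3 : ∀ v ∈ G.V 1 (j + 1), β v ∈ G.V 1 (j + 1) := by
    intro v hv
    have e1 : v = (v - ⟪e', v⟫ • e') + ⟪e', v⟫ • e' := by abel
    rw [e1, map_add, map_smul]
    exact (G.V 1 (j + 1)).add_mem (G.V_mono 1 (Nat.le_succ j)
      ((h.iff (by omega) _).2 (hl.low v hv))) ((G.V 1 (j + 1)).smul_mem _ h2)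
  have h4 : G.V (G.ρ j) (j + 1) ≤ G.V 1 (j + 1) := by
    intro w hw
    have e1 : β (β.symm w) = w := LinearIsometryEquiv.apply_symm_apply _ _
    rw [← e1] at hw ⊢
    exact h3 _ ((h.V (j + 1) _).1 hw)
  have h5 : G.V (G.ρ j) (j + 1) = G.V 1 (j + 1) := by
    apply Submodule.eq_of_le_of_finrank_eq h4
    rw [hT.dimV _ _ (by omega), hT.dimV _ _ (by omega)]
  have h6 := hS 1 j (hT.nz (j + 1) hj)
  rw [one_mul] at h6
  exact h6 h5

/-- the image of `e j` -/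
theorem Bj.step (hT : Top G l) (hS : ∀ g i, G.NZ (i + 1) → G.V (g * G.ρ i) (i + 1) ≠ G.V g (i + 1))
    {j : ℕ} {β : E d ≃ₗᵢ[ℝ] E d} (h : Bj G l j β) (hj : j + 1 < d) {e e' : E d} (he : Ln G j e)
    (he' : Ln G (j + 1) e') : ∃ α δ : ℝ, δ ≠ 0 ∧ β e = α • e + δ • e' := by
  have h1 : β e ∈ G.V 1 (j + 1 + 1) := (h.iff (by omega) e).2 (G.V_mono 1 (by omega) he.memV)
  have h2 : β e ∈ G.U 1 j := h.memU (by omega) he.memU
  have h3 := he'.low _ h1
  have h4 : β e - ⟪e', β e⟫ • e' ∈ G.U 1 j :=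
    (G.U 1 j).sub_mem h2 ((G.U 1 j).smul_mem _ (G.U_anti 1 (by omega) he'.memU))
  have h5 := he.eq_smul h3 h4
  refine ⟨_, ⟪e', β e⟫, ?_, by rw [← h5]; abel⟩
  intro h0
  rw [h0, zero_smul, sub_zero] at h3
  exact h.moves hT hS hj he.mem he.ne h3

/-- a common eigenvalue -/
theorem const (hT : Top G l) (hS : ∀ g i, G.NZ (i + 1) → G.V (g * G.ρ i) (i + 1) ≠ G.V g (i + 1))
    {e : ℕ → E d} (he : ∀ i, i < d → Ln G i (e i)) {h : E d ≃ₗᵢ[ℝ] E d} {a b : ℕ} (hb : b ≤ d)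
    {c : ℝ} (hc : h (e a) = c • e a)
    (hg : ∀ i, a ≤ i → i + 1 < b → ∃ β, Bj G l i β ∧ ∀ v, h (β v) = β (h v)) :
    ∀ i, a ≤ i → i < b → h (e i) = c • e i := by
  intro i hi
  induction i, hi using Nat.le_induction with
  | base => intro _; exact hc
  | succ i hi ih =>
    intro hib
    obtain ⟨β, hβ, hcomm⟩ := hg i hi hib
    obtain ⟨α, δ, hδ, h1⟩ := hβ.step hT hS (by omega) (he i (by omega)) (he (i + 1) (by omega))
    have h2 := hcomm (e i)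
    rw [ih (by omega), map_smul, h1, map_add, map_smul, map_smul, ih (by omega), smul_add,
      smul_comm c α, add_right_inj, smul_comm c δ] at h2
    exact smul_right_injective (E d) hδ h2

/-- a common eigenvalue on a subspace -/
theorem scal {e : ℕ → E d} (he : ∀ i, i < d → Ln G i (e i))
    {h : E d ≃ₗᵢ[ℝ] E d} {a b : ℕ} (hb : b ≤ d) (hab : a ≤ b) {c : ℝ}
    (hc : ∀ i, a ≤ i → i < b → h (e i) = c • e i) :
    ∀ v ∈ G.V 1 b, v ∈ G.U 1 a → h v = c • v := by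
  have key : ∀ i, a ≤ i → i ≤ b → ∀ v ∈ G.V 1 i, v ∈ G.U 1 a → h v = c • v := by
    intro i hi
    induction i, hi using Nat.le_induction with
    | base =>
      intro _ v hv hv'
      rw [eq_zero hv hv', map_zero, smul_zero]
    | succ i hi ih =>
      intro hib v hv hv'
      have hl := he i (by omega)
      have h1 := ih (by omega) _ (hl.low v hv) ((G.U 1 a).sub_mem hv'
        ((G.U 1 a).smul_mem _ (G.U_anti 1 hi hl.memU)))
      have e1 : v = (v - ⟪e i, v⟫ • e i) + ⟪e i, v⟫ • e i := by abel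
      have h2 : h v = h (v - ⟪e i, v⟫ • e i) + ⟪e i, v⟫ • h (e i) := by
        rw [← map_smul, ← map_add, ← e1]
      rw [h2, h1, hc i hi (by omega), smul_comm, ← smul_add, ← e1]
  exact key b hab le_rfl

/-- the family of all lines -/
theorem ex_fam (hT : Top G l) : ∃ e : ℕ → E d, ∀ i, i < d → Ln G i (e i) := by
  have h : ∀ i, ∃ e : E d, i < d → Ln G i e := by
    intro i
    by_cases hi : i < d
    · obtain ⟨e, he⟩ := ex_line hT hi
      exact ⟨e, fun _ => he⟩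
    · exact ⟨0, fun h => absurd h hi⟩
  choose e he using h
  exact ⟨e, he⟩

theorem mem_U_zero (hT : Top G l) (v : E d) : v ∈ G.U 1 0 := by
  have h0 : G.V 1 0 = ⊥ := Submodule.finrank_eq_zero.1 (hT.dimV 1 0 (Nat.zero_le _))
  rw [KGeo.U, h0, Submodule.bot_orthogonal_eq_top]
  trivial

theorem mem_V_top (hT : Top G l) (v : E d) : v ∈ G.V 1 d := by
  have h0 : G.V 1 d = ⊤ := by
    apply Submodule.eq_top_of_finrank_eq
    rw [hT.dimV 1 d le_rfl, finrank_euclideanSpace_fin]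
  rw [h0]
  trivial

variable [Finite Γ]

theorem mk_Bj (h2 : S_BE2) (hT : Top G l) {j : ℕ} {β : E d ≃ₗᵢ[ℝ] E d}
    (h : IsB G l (G.ρ j) β) : Bj G l j β :=
  ⟨h, (h2 d k Γ X G l hT _ β h).2.2.2.1, (h2 d k Γ X G l hT _ β h).2.2.2.2⟩

theorem isB_one (h1 : S_BE1) (hT : Top G l) : IsB G l 1 1 := by
  have := (h1 d k Γ X G l hT).2.2.2 1 (one_mem _)
  rwa [G.R_one] at this

theorem Bj.sq (h1 : S_BE1) (hT : Top G l) {j : ℕ} {β : E d ≃ₗᵢ[ℝ] E d}
    (h : Bj G l j β) (v : E d) : β (β v) = v := by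
  obtain ⟨-, huniq, hprod, -⟩ := h1 d k Γ X G l hT
  have a1 := hprod _ _ _ _ h.isB h.isB
  rw [G.sq] at a1
  rcases huniq _ _ _ (isB_one h1 hT) a1 with a3 | a3
  · exact a3 v
  · exfalso
    obtain ⟨i, hi, hi1, hi2⟩ : ∃ i, i < d ∧ i ≠ j ∧ i ≠ j + 1 := by
      have := hT.ld
      rcases Nat.lt_or_ge j 2 with h | h
      · exact ⟨3, by omega, by omega, by omega⟩
      · exact ⟨0, by omega, by omega, by omega⟩
    obtain ⟨e, he⟩ := ex_line hT hi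
    obtain ⟨c, hc, hce⟩ := h.eig hi1 hi2 he
    have a4 : β (β e) = -e := a3 e
    have hcc : c * c = 1 := by rcases hc with rfl | rfl <;> norm_num
    rw [hce, map_smul, hce, smul_smul, hcc, one_smul] at a4
    exact he.ne (eq_zero_of_neg a4)

theorem Bj.comm (h1 : S_BE1) (hT : Top G l) {i j : ℕ} (hij : i + 2 ≤ j)
    {β γ : E d ≃ₗᵢ[ℝ] E d} (hi : Bj G l i β) (hj : Bj G l j γ) (v : E d) :
    β (γ v) = γ (β v) := by
  obtain ⟨-, huniq, hprod, -⟩ := h1 d k Γ X G l hT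
  have a1 := hprod _ _ _ _ hi.isB hj.isB
  have a2 := hprod _ _ _ _ hj.isB hi.isB
  rw [← G.comm i j hij] at a2
  rcases huniq _ _ _ a2 a1 with a3 | a3
  · exact a3 v
  · exfalso
    obtain ⟨m, hm, m1, m2, m3, m4⟩ : ∃ m, m < d ∧ m ≠ i ∧ m ≠ i + 1 ∧ m ≠ j ∧ m ≠ j + 1 := by
      have := hT.ld
      by_contra hcon
      have q : ∀ m, m < 5 → m = i ∨ m = i + 1 ∨ m = j ∨ m = j + 1 := by
        intro m hm
        by_contra hc
        exact hcon ⟨m, by omega, by omega, by omega, by omega, by omega⟩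
      have q0 := q 0 (by omega)
      have q1 := q 1 (by omega)
      have q2 := q 2 (by omega)
      have q3 := q 3 (by omega)
      have q4 := q 4 (by omega)
      omega
    obtain ⟨e, he⟩ := ex_line hT hm
    obtain ⟨c, -, hce⟩ := hi.eig m1 m2 he
    obtain ⟨c', -, hce'⟩ := hj.eig m3 m4 he
    have a4 : β (γ e) = -γ (β e) := a3 e
    have a5 : β (γ e) = γ (β e) := by
      rw [hce, hce', map_smul, map_smul, hce, hce', smul_comm]
    rw [a5] at a4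
    have a6 := eq_zero_of_neg a4
    rw [LinearIsometryEquiv.map_eq_zero_iff, LinearIsometryEquiv.map_eq_zero_iff] at a6
    exact he.ne a6

/-- `β` is `1` or `-1` on `V 1 j` -/
theorem Bj.low (h1 : S_BE1) (h2 : S_BE2) (hT : Top G l)
    (hS : ∀ g i, G.NZ (i + 1) → G.V (g * G.ρ i) (i + 1) ≠ G.V g (i + 1))
    {j : ℕ} (hj1 : 1 ≤ j) (hj : j < d) {β : E d ≃ₗᵢ[ℝ] E d} (h : Bj G l j β) :
    ∃ c : ℝ, (c = 1 ∨ c = -1) ∧ ∀ v ∈ G.V 1 j, β v = c • v := by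
  obtain ⟨e, he⟩ := ex_fam hT
  obtain ⟨c, hc, hce⟩ := h.eig (i := 0) (by omega) (by omega) (he 0 (by omega))
  refine ⟨c, hc, fun v hv => ?_⟩
  refine scal he hj.le (Nat.zero_le j) ?_ v hv (mem_U_zero hT v)
  refine const hT hS he hj.le hce ?_
  intro i _ hi
  obtain ⟨γ, hγ⟩ := (h1 d k Γ X G l hT).1 (G.ρ i)
  exact ⟨γ, mk_Bj h2 hT hγ, fun v => ((mk_Bj h2 hT hγ).comm h1 hT (by omega) h v).symm⟩

/-- `β` for `ρ 0` is a scalar on `U 1 2` -/
theorem Bj.scal0 (h1 : S_BE1) (h2 : S_BE2) (hT : Top G l)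
    (hS : ∀ g i, G.NZ (i + 1) → G.V (g * G.ρ i) (i + 1) ≠ G.V g (i + 1))
    {β : E d ≃ₗᵢ[ℝ] E d} (h : Bj G l 0 β) :
    ∃ c : ℝ, (c = 1 ∨ c = -1) ∧ ∀ v ∈ G.U 1 2, β v = c • v := by
  have hld := hT.ld
  obtain ⟨e, he⟩ := ex_fam hT
  obtain ⟨c, hc, hce⟩ := h.eig (i := 2) (by omega) (by omega) (he 2 (by omega))
  refine ⟨c, hc, fun v hv => ?_⟩
  refine scal he le_rfl (by omega : 2 ≤ d) ?_ v (mem_V_top hT v) hv
  refine const hT hS he le_rfl hce ?_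
  intro i hi _
  obtain ⟨γ, hγ⟩ := (h1 d k Γ X G l hT).1 (G.ρ i)
  exact ⟨γ, mk_Bj h2 hT hγ, fun v => h.comm h1 hT (by omega) (mk_Bj h2 hT hγ) v⟩

omit [Finite Γ] in
theorem neg_isB {γ : Γ} {β : E d ≃ₗᵢ[ℝ] E d} (h : IsB G l γ β) :
    IsB G l γ (β.trans (LinearIsometryEquiv.neg ℝ)) := by
  intro x hx v
  show -(β (G.R 1 x v)) = G.R 1 (γ * x * γ⁻¹) (-(β v))
  rw [h x hx v, map_neg]

/-- the choice of the signs -/
theorem ex_gg (h1 : S_BE1) (h2 : S_BE2) (hT : Top G l)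
    (hS : ∀ g i, G.NZ (i + 1) → G.V (g * G.ρ i) (i + 1) ≠ G.V g (i + 1)) (j : ℕ) :
    ∃ g, Bj G l j g ∧ (1 ≤ j → j < d → ∀ v ∈ G.V 1 j, g v = v) := by
  obtain ⟨β, hβ⟩ := (h1 d k Γ X G l hT).1 (G.ρ j)
  have hB := mk_Bj h2 hT hβ
  by_cases hj : 1 ≤ j ∧ j < d
  · obtain ⟨c, hc, hv⟩ := hB.low h1 h2 hT hS hj.1 hj.2
    rcases hc with rfl | rfl
    · exact ⟨β, hB, fun _ _ v hv' => by rw [hv v hv', one_smul]⟩
    · refine ⟨β.trans (LinearIsometryEquiv.neg ℝ), mk_Bj h2 hT (neg_isB hβ), fun _ _ v hv' => ?_⟩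
      show -(β v) = v
      rw [hv v hv', neg_one_smul, neg_neg]
  · exact ⟨β, hB, fun a b => absurd ⟨a, b⟩ hj⟩

omit [Finite Γ] in
theorem F_ne_zero (hT : Top G l) (γ : Γ) : G.f (γ • G.x0) ≠ 0 := by
  intro h0
  have hld := hT.ld
  apply hT.nz 0 (by omega)
  intro n hn
  apply G.mem_up_of_R (g := γ) hn.1
  intro a ha
  have e : {j : ℕ | j < 0} = ∅ := by
    ext j
    simp
  rw [KGeo.dn, e, gpar, Set.image_empty, Subgroup.closure_empty, Subgroup.mem_bot] at ha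
  rw [ha, one_smul, KGeo.F, h0, map_zero]

theorem isB_word (h1 : S_BE1) (hT : Top G l) {gg : ℕ → (E d ≃ₗᵢ[ℝ] E d)}
    (hgg : ∀ j, Bj G l j (gg j)) (w : List (Fin d)) :
    IsB G l (w.map (fun j => G.ρ j)).prod (w.map (fun j => gg j)).prod := by
  induction w with
  | nil =>
    exact isB_one h1 hT
  | cons j w ih =>
    rw [prod_cons, prod_cons]
    exact (h1 d k Γ X G l hT).2.2.1 _ _ _ _ (hgg j).isB ih

theorem word (h1 : S_BE1) (h2 : S_BE2) (hT : Top G l) {gg : ℕ → (E d ≃ₗᵢ[ℝ] E d)}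
    (hgg : ∀ j, Bj G l j (gg j)) {y0 : E d} (hy : y0 ∈ G.V 1 1) (hy0 : y0 ≠ 0)
    (w : List (Fin d)) : ∃ r : ℝ, r ≠ 0 ∧
    G.f ((w.map (fun j => G.ρ j)).prod • G.x0) = r • ((w.map (fun j => gg j)).prod y0) := by
  have hB := isB_word h1 hT hgg w
  generalize (w.map (fun j => G.ρ j)).prod = γ at hB ⊢
  generalize (w.map (fun j => gg j)).prod = β at hB ⊢
  have h4 := (h2 d k Γ X G l hT _ β hB).2.2.2.1
  have hld := hT.ld
  have hf : G.f (γ • G.x0) ∈ G.V γ (0 + 1) := by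
    have := G.F_mem_V γ (i := 0) (one_mem (G.dn 0))
    rwa [one_smul, KGeo.F] at this
  have e1 : β (β.symm (G.f (γ • G.x0))) = G.f (γ • G.x0) :=
    LinearIsometryEquiv.apply_symm_apply _ _
  rw [← e1] at hf
  have h5 := (h4 _ _).1 hf
  obtain ⟨e, he⟩ := ex_line hT (i := 0) (by omega)
  have h6 := he.eq_smul h5 (mem_U_zero hT _)
  have h7 := he.eq_smul hy (mem_U_zero hT _)
  set v := β.symm (G.f (γ • G.x0)) with hv
  have hy1 : ⟪e, y0⟫ ≠ 0 := by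
    intro h0
    rw [h0, zero_smul] at h7
    exact hy0 h7
  have h8 : v = (⟪e, v⟫ * ⟪e, y0⟫⁻¹) • y0 := by
    conv_rhs => rw [h7]
    rw [smul_smul, real_inner_smul_right, real_inner_self_eq_norm_sq, he.nrm]
    have : ⟪e, v⟫ * (⟪e, y0⟫ * 1 ^ 2)⁻¹ * ⟪e, y0⟫ = ⟪e, v⟫ := by
      field_simp
    rw [this]
    exact h6
  refine ⟨⟪e, v⟫ * ⟪e, y0⟫⁻¹, ?_, ?_⟩
  · intro h0
    rw [h0, zero_smul] at h8
    rw [h8, map_zero] at e1
    exact F_ne_zero hT γ e1.symm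
  · rw [← map_smul, ← h8, e1]

end GN1

theorem t_GN1 : M_GN1 := by
  intro hSTEP _ h1 h2 d k Γ _ _ X _ G l hT
  have hS : ∀ g i, G.NZ (i + 1) → G.V (g * G.ρ i) (i + 1) ≠ G.V g (i + 1) :=
    fun g => (hSTEP d k Γ X G g).2.2.1
  have key := GN1.ex_gg h1 h2 hT hS
  choose gg hgg hfix using key
  refine ⟨gg, ?_⟩
  exact
    { isB := fun j _ => (hgg j).isB
      pres := fun j i v _ hij hv => ((hgg j).iff hij v).2 hv
      moves := fun j hj e he he0 => (hgg j).moves hT hS hj he he0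
      sq := fun j _ v => (hgg j).sq h1 hT v
      comm := fun i j hij _ v => (hgg i).comm h1 hT hij (hgg j) v
      fix := hfix
      inN := by
        intro j hj1 hj hN
        have hI := (h1 d k Γ X G l hT).2.2.2 _ hN
        rcases (h1 d k Γ X G l hT).2.1 _ _ _ hI (hgg j).isB with h | h
        · exact LinearIsometryEquiv.ext h
        · exfalso
          obtain ⟨e, he⟩ := GN1.ex_line hT (i := 0) (by omega)
          have hV : e ∈ G.V 1 j := G.V_mono 1 (by omega) he.memV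
          have h3 := h e
          rw [hfix j hj1 hj e hV, hV (G.ρ j) ⟨hN, G.ρ_mem_up le_rfl⟩] at h3
          exact he.ne (GN1.eq_zero_of_neg h3)
      root := fun j _ a => (hgg j).root a
      scal0 := (hgg 0).scal0 h1 h2 hT hS
      word := fun y0 hy hy0 w => GN1.word h1 h2 hT hgg hy hy0 w }

end

end FOK.L
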