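import Pool.Agent.FOL.BStmts

/-!
# II.7: the set of directions and the point group are finite
-/

namespace FOI.L

open Lib_helper64.FO FO2 FOK
open scoped RealInnerProductSpace Nat

noncomputable section

namespace FIN

theorem finite_AS : {t : ℝ | AS t}.Finite := by
  have hF : ({0, 1 / 2, √2 / 2, (√5 + 1) / 4, (√5 - 1) / 4, 1} : Set ℝ).Finite := Set.toFinite _
  refine (hF.union (hF.image Neg.neg)).subset ?_
  rintro t ⟨s, hs, (rfl | rfl)⟩
  · left
    simpa using hs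
  · right
    exact ⟨s, by simpa using hs, rfl⟩

/-- a subspace of codimension at most one -/
theorem exists_line {d : ℕ} (S : Submodule ℝ (E d)) (h : d ≤ Module.finrank ℝ S + 1) :
    ∃ e ∈ Sᗮ, ∀ w ∈ Sᗮ, ∃ c : ℝ, w = c • e := by
  have h1 := Submodule.finrank_add_finrank_orthogonal S
  have h2 : Module.finrank ℝ (E d) = d := by simp [E]
  have h3 : Module.finrank ℝ Sᗮ ≤ 1 := by omega
  obtain ⟨e, he⟩ := finrank_le_one_iff.1 h3
  refine ⟨e.1, e.2, fun w hw => ?_⟩
  obtain ⟨c, hc⟩ := he ⟨w, hw⟩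
  exact ⟨c, (congrArg Subtype.val hc).symm⟩

/-- unit vectors with finitely many values of the inner products with a set of vectors whose span has
codimension at most one -/
theorem finite_dir {d : ℕ} (Φ D : Set (E d)) (hΦ : Φ.Finite)
    (h : d ≤ Module.finrank ℝ (Submodule.span ℝ Φ) + 1) (hD : ∀ a ∈ D, ‖a‖ = 1)
    (hA : ∀ a ∈ D, ∀ c ∈ Φ, AS ⟪a, c⟫) : D.Finite := by
  have hfin : Finite Φ := hΦ
  obtain ⟨e, he, hline⟩ := exists_line _ h
  apply Set.Finite.of_finite_fibers (fun a : E d => fun c : Φ => (⟪a, c.1⟫ : ℝ))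
  · apply (Set.Finite.pi' (t := fun _ : Φ => {t : ℝ | AS t}) fun _ => finite_AS).subset
    rintro _ ⟨a, ha, rfl⟩ c
    exact hA a ha c.1 c.2
  · rintro _ ⟨b, hb, rfl⟩
    apply (Set.toFinite ({b, b + (-2 * ⟪b, e⟫ / ‖e‖ ^ 2 : ℝ) • e} : Set (E d))).subset
    rintro a ⟨ha, hab⟩
    have hab' : ∀ c ∈ Φ, (⟪a, c⟫ : ℝ) = ⟪b, c⟫ := fun c hc => congrFun hab ⟨c, hc⟩
    have hmem : a - b ∈ (Submodule.span ℝ Φ)ᗮ := by
      rw [Submodule.mem_orthogonal]
      intro u hu
      induction hu using Submodule.span_induction with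
      | mem x hx => rw [inner_sub_right, real_inner_comm, hab' x hx, real_inner_comm, sub_self]
      | zero => exact inner_zero_left _
      | add x y _ _ hx hy => rw [inner_add_left, hx, hy, add_zero]
      | smul c x _ hx => rw [inner_smul_left, hx, mul_zero]
    obtain ⟨c, hc⟩ := hline _ hmem
    have hac : a = b + c • e := by rw [← hc]; abel
    have h1 : ‖b + c • e‖ ^ 2 = ‖b‖ ^ 2 := by rw [← hac, hD a ha, hD b hb]
    rw [norm_add_sq_real, inner_smul_right, norm_smul, mul_pow, Real.norm_eq_abs, sq_abs] at h1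
    have h2 : c * (2 * ⟪b, e⟫ + c * ‖e‖ ^ 2) = 0 := by linear_combination h1
    rcases mul_eq_zero.1 h2 with h3 | h3
    · left
      rw [hac, h3, zero_smul, add_zero]
    · by_cases h4 : ‖e‖ ^ 2 = 0
      · left
        have h5 : e = 0 := by
          have := pow_eq_zero_iff (two_ne_zero) |>.1 h4
          exact norm_eq_zero.1 this
        rw [hac, h5, smul_zero, add_zero]
      · right
        rw [Set.mem_singleton_iff, hac]
        have h6 : c = -2 * ⟪b, e⟫ / ‖e‖ ^ 2 := by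
          rw [eq_div_iff h4]
          linear_combination h3
        rw [← h6]

/-- isometries that map a finite set whose span has codimension at most one to a finite set -/
theorem finite_iso {d : ℕ} (Φ D : Set (E d)) (hΦ : Φ.Finite) (hD : D.Finite)
    (h : d ≤ Module.finrank ℝ (Submodule.span ℝ Φ) + 1) (A : Set (E d ≃ₗᵢ[ℝ] E d))
    (hA : ∀ g ∈ A, ∀ c ∈ Φ, g c ∈ D) : A.Finite := by
  have hfin : Finite Φ := hΦ
  obtain ⟨e, he, hline⟩ := exists_line _ h
  apply Set.Finite.of_finite_fibers (fun g : E d ≃ₗᵢ[ℝ] E d => fun c : Φ => g c.1)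
  · apply (Set.Finite.pi' (t := fun _ : Φ => D) fun _ => hD).subset
    rintro _ ⟨g, hg, rfl⟩ c
    exact hA g hg c.1 c.2
  · rintro _ ⟨b, hb, rfl⟩
    have heq : ∀ g ∈ A ∩ (fun g : E d ≃ₗᵢ[ℝ] E d => fun c : Φ => g c.1) ⁻¹' {fun c : Φ => b c.1},
        ∀ v ∈ Submodule.span ℝ Φ, g v = b v := by
      rintro g ⟨-, hgb⟩ v hv
      induction hv using Submodule.span_induction with
      | mem x hx => exact congrFun hgb ⟨x, hx⟩
      | zero => rw [map_zero, map_zero]
      | add x y _ _ hx hy => rw [map_add, map_add, hx, hy]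
      | smul c x _ hx => rw [map_smul, map_smul, hx]
    apply Set.Finite.of_finite_image (f := fun g : E d ≃ₗᵢ[ℝ] E d => g e)
    · apply (Set.toFinite ({b e, -b e} : Set (E d))).subset
      rintro _ ⟨g, hg, rfl⟩
      have h1 := heq g hg
      have hmem : b.symm (g e) ∈ (Submodule.span ℝ Φ)ᗮ := by
        rw [Submodule.mem_orthogonal]
        intro u hu
        have e1 : (⟪u, b.symm (g e)⟫ : ℝ) = ⟪b u, b (b.symm (g e))⟫ := (b.inner_map_map _ _).symm
        rw [e1, b.apply_symm_apply, ← h1 u hu, g.inner_map_map]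
        rw [Submodule.mem_orthogonal] at he
        exact he u hu
      obtain ⟨c, hc⟩ := hline _ hmem
      have h2 : g e = c • b e := by
        rw [← b.apply_symm_apply (g e), hc, map_smul]
      have h3 : ‖e‖ = |c| * ‖e‖ := by
        calc ‖e‖ = ‖g e‖ := (g.norm_map e).symm
          _ = |c| * ‖e‖ := by rw [h2, norm_smul, b.norm_map, Real.norm_eq_abs]
      change g e ∈ ({b e, -b e} : Set (E d))
      by_cases h4 : ‖e‖ = 0
      · left
        rw [norm_eq_zero.1 h4, map_zero, map_zero]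
      · have h5 : |c| = 1 := by
          have h6 : (|c| - 1) * ‖e‖ = 0 := by linear_combination -h3
          rcases mul_eq_zero.1 h6 with h7 | h7
          · linarith
          · exact absurd h7 h4
        rcases eq_or_eq_neg_of_abs_eq h5 with h6 | h6
        · left
          rw [h2, h6, one_smul]
        · right
          rw [Set.mem_singleton_iff, h2, h6, neg_one_smul]
    · intro g hg g' hg' hgg
      ext1 v
      have h1 : Submodule.span ℝ Φ ⊔ (Submodule.span ℝ Φ)ᗮ = ⊤ :=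
        Submodule.sup_orthogonal_of_hasOrthogonalProjection
      have h2 : v ∈ Submodule.span ℝ Φ ⊔ (Submodule.span ℝ Φ)ᗮ := by rw [h1]; trivial
      obtain ⟨p, hp, r, hr, rfl⟩ := Submodule.mem_sup.1 h2
      obtain ⟨c, rfl⟩ := hline r hr
      have hgg' : g e = g' e := hgg
      rw [map_add, map_add, map_smul, map_smul, hgg', heq g hg p hp, heq g' hg' p hp]

theorem Ph_mono {d k : ℕ} {Γ : Type} [Group Γ] {X : Type} [MulAction Γ X] (G : AGeo d k Γ X)
    (g : Γ) {i j : ℕ} (h : i ≤ j) (l : ℕ) : Ph G g j l ⊆ Ph G g i l := by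
  rintro a ⟨ha, x, ⟨γ, hγ, rfl⟩, hx⟩
  exact ⟨ha, _, ⟨γ, G.up_anti h hγ, rfl⟩, hx⟩

end FIN

open FIN

theorem t_FIN : M_FIN := by
  intro hTI hMIR hASV d k Γ _ X _ G l hl
  have hl5 := hl.l5
  have hT := hTI d k Γ X G l hl 1 1 le_rfl (by omega)
  have hM := hMIR d k Γ X G l hl
  have hfin : (Ph G 1 0 l).Finite :=
    finite_dir (Ph G 1 1 l) (Ph G 1 0 l) hT.rs.fin hT.dim (fun a ha => ha.1)
      (hASV d k Γ X G l hl)
  refine ⟨hfin, ?_⟩
  apply finite_iso (Ph G 1 1 l) (Ph G 1 0 l) hT.rs.fin hfin hT.dim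
  rintro _ ⟨n, hn, rfl⟩ c hc
  obtain ⟨hc1, x, ⟨γ, hγ, rfl⟩, hx⟩ := Ph_mono G 1 (Nat.zero_le 1) l hc
  have hxN : γ * G.ρ l * γ⁻¹ ∈ G.N := (hM.2.1 _ ⟨γ, hγ, rfl⟩).1
  refine ⟨by rw [LinearIsometryEquiv.norm_map]; exact hc1, n * γ * G.ρ l * (n * γ)⁻¹,
    ⟨n * γ, G.mem_up_zero _, rfl⟩, fun v => ?_⟩
  have e1 : n * γ * G.ρ l * (n * γ)⁻¹ = n * ((γ * G.ρ l * γ⁻¹) * n⁻¹) := by group
  rw [e1, G.R_mul_apply 1 hn (mul_mem hxN (inv_mem hn)), G.R_mul_apply 1 hxN (inv_mem hn), hx,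
    map_sref, G.R_inv_apply 1 hn]

end

end FOI.L
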