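import Pool.Agent.FOL.FStmts
import Pool.Agent.FO2.FLG

/-!
# From the `KGeo` of a realization of a finite polytope to an `AGeo` with the same data
-/

namespace FOK.L

open Lib_helper64.FO FO2
open FOL (bd)
open scoped RealInnerProductSpace Nat

noncomputable section

namespace FKA

variable {d k : ℕ} {Γ : Type} [Group Γ] {X : Type} [MulAction Γ X] (G : KGeo d k Γ X)

/-- the span of the differences -/
def Df : Submodule ℝ (E d) := Submodule.span ℝ {w | ∃ x y, G.f x - G.f y = w}

theorem sub_mem (x y : X) : G.f x - G.f y ∈ Df G := Submodule.subset_span ⟨x, y, rfl⟩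

theorem mem_orth {v : E d} (h : ∀ x y, ⟪G.f x - G.f y, v⟫ = 0) : v ∈ (Df G)ᗮ := by
  rw [Submodule.mem_orthogonal]
  intro u hu
  induction hu using Submodule.span_induction with
  | mem u hu =>
    obtain ⟨x, y, rfl⟩ := hu
    exact h x y
  | zero => exact inner_zero_left _
  | add a b _ _ ha hb => rw [inner_add_left, ha, hb, add_zero]
  | smul c a _ ha => rw [inner_smul_left, ha, mul_zero]

theorem T_mem {h : Γ} (hh : h ∈ G.H) {v : E d} (hv : v ∈ Df G) : G.T h v ∈ Df G := by
  induction hv using Submodule.span_induction with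
  | mem u hu =>
    obtain ⟨x, y, rfl⟩ := hu
    rw [map_sub, G.equiv h hh, G.equiv h hh]
    exact sub_mem G _ _
  | zero =>
    rw [map_zero]
    exact Submodule.zero_mem _
  | add a b _ _ ha hb =>
    rw [map_add]
    exact Submodule.add_mem _ ha hb
  | smul c a _ ha =>
    rw [map_smul]
    exact Submodule.smul_mem _ _ ha

theorem T_one : G.T 1 = 1 := by
  have h := G.T_mul 1 (one_mem _) 1 (one_mem _)
  rw [mul_one] at h
  exact left_eq_mul.1 h

theorem T_orth {h : Γ} (hh : h ∈ G.H) {v : E d} (hv : v ∈ (Df G)ᗮ) : G.T h v ∈ (Df G)ᗮ := by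
  rw [Submodule.mem_orthogonal] at hv ⊢
  intro u hu
  have h1 : G.T h (G.T h⁻¹ u) = u := by
    have h2 := G.T_mul h hh h⁻¹ (inv_mem hh)
    rw [mul_inv_cancel, T_one] at h2
    have h3 : (1 : E d ≃ₗᵢ[ℝ] E d) u = (G.T h * G.T h⁻¹) u := by rw [h2]
    exact h3.symm
  rw [← h1, LinearIsometryEquiv.inner_map_map]
  exact hv _ (T_mem G (inv_mem hh) hu)

/-- an element of `H` fixes the vectors orthogonal to the differences -/
theorem perp {h : Γ} (hh : h ∈ G.H) {v : E d} (hv : ∀ x y, ⟪G.f x - G.f y, v⟫ = 0) :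
    G.T h v = v := by
  have hv' := mem_orth G hv
  obtain ⟨w, hw⟩ : ∃ w, w = (Df G)ᗮ.starProjection (G.f G.x0) := ⟨_, rfl⟩
  have w1 : w ∈ (Df G)ᗮ := by
    rw [hw]
    exact Submodule.starProjection_apply_mem _ _
  have w2 : G.f G.x0 - w ∈ Df G := by
    have h1 := Submodule.sub_starProjection_mem_orthogonal (K := (Df G)ᗮ) (G.f G.x0)
    rw [← hw, Submodule.orthogonal_orthogonal] at h1
    exact h1
  have w3 : ∀ x, G.f x - w ∈ Df G := by
    intro x
    have h1 := Submodule.add_mem _ (sub_mem G x G.x0) w2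
    rwa [sub_add_sub_cancel] at h1
  have w4 : G.T h w = w := by
    have h1 : G.T h w - w ∈ (Df G)ᗮ := Submodule.sub_mem _ (T_orth G hh w1) w1
    have h2 : G.T h w - w ∈ Df G := by
      have h3 := T_mem G hh w2
      rw [map_sub, G.equiv h hh] at h3
      have h4 := Submodule.sub_mem _ (w3 (h • G.x0)) h3
      have h5 : G.f (h • G.x0) - w - (G.f (h • G.x0) - G.T h w) = G.T h w - w := by abel
      rwa [h5] at h4
    have h3 : ⟪G.T h w - w, G.T h w - w⟫ = 0 := (Submodule.mem_orthogonal _ _).1 h1 _ h2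
    exact sub_eq_zero.1 (inner_self_eq_zero.1 h3)
  obtain ⟨t, ht⟩ : ∃ t : ℝ, ⟪w, v - t • w⟫ = 0 := by
    by_cases h0 : w = 0
    · exact ⟨0, by rw [h0, inner_zero_left]⟩
    · refine ⟨⟪w, v⟫ / ⟪w, w⟫, ?_⟩
      rw [inner_sub_right, inner_smul_right]
      have h1 : ⟪w, w⟫ ≠ 0 := inner_self_ne_zero.2 h0
      rw [div_mul_cancel₀ _ h1, sub_self]
  have h1 : G.T h (v - t • w) = v - t • w := by
    apply G.perp h hh
    intro x
    have h2 : v - t • w ∈ (Df G)ᗮ := Submodule.sub_mem _ hv' (Submodule.smul_mem _ _ w1)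
    have h3 : ⟪G.f x - w, v - t • w⟫ = 0 := (Submodule.mem_orthogonal _ _).1 h2 _ (w3 x)
    rw [inner_sub_left, ht, sub_zero] at h3
    exact h3
  rw [map_sub, map_smul, w4] at h1
  exact sub_left_injective h1

end FKA

open FKA in
theorem t_KA : S_KA := by
  intro d k hd hk P _ _ rk hP f hf C ρ X _ _ G ι c hG
  have hfl := (flg d P rk hP).2.2.1
  have hfin : Finite (P ≃o P) :=
    Finite.of_injective (fun γ : P ≃o P => (γ : P → P)) DFunLike.coe_injective
  let A : FOI.AGeo d (k + 1) (P ≃o P) X :=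
    { ρ := G.ρ
      x0 := G.x0
      H := G.H
      f := G.f
      T := G.T
      one_of_ge := G.one_of_ge
      ne_one := G.ne_one
      sq := G.sq
      comm := G.comm
      gen := G.gen
      inter := G.inter
      trans := G.trans
      stab := G.stab
      fix := G.fix
      inj := G.inj
      idx := by rw [G.idx]; omega
      idx0 := by rw [G.idx]; omega
      T_mul := G.T_mul
      equiv := by
        intro h hh x y
        rw [map_sub, G.equiv h hh, G.equiv h hh]
      perp := fun h hh v hv => FKA.perp G hh hv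
      noiso := by
        rintro γ hγ ⟨g, hg⟩
        apply hγ
        rw [hG.sym]
        refine ⟨hfl γ, (IsometryEquiv.subRight (f (ι G.x0))).trans
          (g.toIsometryEquiv.trans (IsometryEquiv.addRight (f (ι (γ • G.x0))))), fun v hv => ?_⟩
        obtain ⟨x, rfl⟩ := hG.surj v hv
        have h1 := hg x G.x0
        rw [hG.fval, hG.fval, hG.fval, hG.fval, sub_sub_sub_cancel_right,
          sub_sub_sub_cancel_right] at h1
        change g (f (ι x) - f (ι G.x0)) + f (ι (γ • G.x0)) = f (γ (ι x))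
        rw [h1, sub_add_cancel, hG.equiv]
      locfin := fun r => Set.toFinite _
      fin1 := inferInstance }
  exact ⟨A, ⟨rfl, rfl, rfl, rfl, rfl⟩⟩

end

end FOK.L
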