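import Pool.Agent.FOL.FStmts
import Pool.Agent.FO2.AUA

/-!
# FOK, module MA1: 10.6, first part
-/

set_option autoImplicit false

namespace FOK.L

open Lib_helper64.FO FO2
open scoped RealInnerProductSpace

namespace MA1

variable {d k : ℕ}

lemma inner_v {v : Fin (d + 1) → E d}
    (hv : ∀ i j, ⟪v i, v j⟫ = if i = j then (1 : ℝ) else -1 / d) (i j : Fin (d + 1)) :
    ⟪v i, v j⟫ = (1 + 1 / (d : ℝ)) * (if i = j then (1 : ℝ) else 0) - 1 / d := by
  rw [hv]
  split_ifs <;> ring

/-- any `d` of the vectors are independent -/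
lemma indep {v : Fin (d + 1) → E d} (hd : 0 < d)
    (hv : ∀ i j, ⟪v i, v j⟫ = if i = j then (1 : ℝ) else -1 / d) (s : Finset (Fin (d + 1)))
    (hs : s.card ≤ d) : LinearIndepOn ℝ v (s : Set (Fin (d + 1))) := by
  rw [linearIndepOn_finset_iff]
  intro c hc
  have hd' : (0 : ℝ) < d := by exact_mod_cast hd
  have h1 : ∀ q, (1 + 1 / (d : ℝ)) * (if q ∈ s then c q else 0) - (∑ i ∈ s, c i) / d = 0 := by
    intro q
    have h2 : ⟪∑ i ∈ s, c i • v i, v q⟫ = (0 : ℝ) := by rw [hc, inner_zero_left]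
    rw [sum_inner] at h2
    have h3 : ∀ i ∈ s, ⟪c i • v i, v q⟫ =
        (1 + 1 / (d : ℝ)) * (if i = q then c i else 0) - c i / d := by
      intro i _
      rw [real_inner_smul_left, inner_v hv]
      split_ifs <;> ring
    rw [Finset.sum_congr rfl h3, Finset.sum_sub_distrib, ← Finset.mul_sum, Finset.sum_ite_eq',
      ← Finset.sum_div] at h2
    exact h2
  obtain ⟨q, hq⟩ : ∃ q, q ∉ s := by
    by_contra hcon
    push Not at hcon
    have : s = Finset.univ := Finset.eq_univ_iff_forall.2 hcon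
    rw [this, Finset.card_univ, Fintype.card_fin] at hs
    omega
  have h4 := h1 q
  rw [if_neg hq, mul_zero, zero_sub, neg_eq_zero, div_eq_zero_iff] at h4
  have h5 : ∑ i ∈ s, c i = 0 := h4.resolve_right hd'.ne'
  intro i hi
  have h6 := h1 i
  rw [if_pos hi, h5, zero_div, sub_zero, mul_eq_zero] at h6
  rcases h6 with h6 | h6
  · have : (0 : ℝ) < 1 + 1 / (d : ℝ) := by positivity
    exact absurd h6 this.ne'
  · exact h6

lemma finrank_span {v : Fin (d + 1) → E d} (hd : 0 < d)
    (hv : ∀ i j, ⟪v i, v j⟫ = if i = j then (1 : ℝ) else -1 / d) (s : Finset (Fin (d + 1)))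
    (hs : s.card ≤ d) : Module.finrank ℝ (Submodule.span ℝ (v '' (s : Set (Fin (d + 1))))) =
      s.card := by
  have h1 := indep hd hv s hs
  have h2 : Set.range (fun p : (s : Set (Fin (d + 1))) => v p) = v '' (s : Set (Fin (d + 1))) :=
    (Set.image_eq_range v _).symm
  have h3 := finrank_span_eq_card (show LinearIndependent ℝ
    (fun p : (s : Set (Fin (d + 1))) => v p) from h1)
  rw [h2] at h3
  rw [h3]
  simp

lemma span_top {v : Fin (d + 1) → E d} (hd : 0 < d)
    (hv : ∀ i j, ⟪v i, v j⟫ = if i = j then (1 : ℝ) else -1 / d) :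
    Submodule.span ℝ (Set.range v) = ⊤ := by
  obtain ⟨s, _, hs⟩ := Finset.exists_subset_card_eq (s := (Finset.univ : Finset (Fin (d + 1))))
    (n := d) (by simp)
  have h1 := finrank_span hd hv s hs.le
  have h2 : Submodule.span ℝ (v '' (s : Set (Fin (d + 1)))) = ⊤ := by
    apply Submodule.eq_top_of_finrank_eq
    rw [h1, hs]
    simp
  rw [eq_top_iff, ← h2]
  exact Submodule.span_mono (Set.image_subset_range _ _)

/-- isometries that agree on the vectors are equal -/
lemma ext_v {v : Fin (d + 1) → E d} (hd : 0 < d)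
    (hv : ∀ i j, ⟪v i, v j⟫ = if i = j then (1 : ℝ) else -1 / d) {g h : E d ≃ₗᵢ[ℝ] E d}
    (e : ∀ i, g (v i) = h (v i)) (w : E d) : g w = h w := by
  have hw : w ∈ Submodule.span ℝ (Set.range v) := by rw [span_top hd hv]; trivial
  induction hw using Submodule.span_induction with
  | mem x hx =>
    obtain ⟨i, rfl⟩ := hx
    exact e i
  | zero => rw [map_zero, map_zero]
  | add x y _ _ hx hy => rw [map_add, map_add, hx, hy]
  | smul a x _ hx => rw [map_smul, map_smul, hx]

lemma inj_v {v : Fin (d + 1) → E d} (hd : 0 < d)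
    (hv : ∀ i j, ⟪v i, v j⟫ = if i = j then (1 : ℝ) else -1 / d) {i j : Fin (d + 1)}
    (h : v i = v j) : i = j := by
  by_contra hne
  have h1 := hv i j
  rw [if_neg hne, h, hv j j, if_pos rfl] at h1
  have hd' : (0 : ℝ) < d := by exact_mod_cast hd
  have h2 : (-1 : ℝ) / d < 0 := div_neg_of_neg_of_pos (by norm_num) hd'
  linarith

lemma ne_neg_v {v : Fin (d + 1) → E d} (hd : 1 < d)
    (hv : ∀ i j, ⟪v i, v j⟫ = if i = j then (1 : ℝ) else -1 / d) {i j : Fin (d + 1)}
    (h : v i = -v j) : False := by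
  have h1 := hv i j
  rw [h, inner_neg_left, hv j j, if_pos rfl] at h1
  have hd' : (1 : ℝ) < d := by exact_mod_cast hd
  split_ifs at h1
  · norm_num at h1
  · have h3 : (1 : ℝ) / d < 1 := by
      rw [div_lt_one (by linarith)]
      exact hd'
    have h4 : (-1 : ℝ) / d = -(1 / d) := by ring
    rw [h4] at h1
    linarith

section

variable {Γ : Type} [Group Γ] {X : Type} [MulAction Γ X] {G : KGeo d k Γ X} {l : ℕ}
  {gg : ℕ → (E d ≃ₗᵢ[ℝ] E d)}

lemma d_ge (hT : Top G l) : 25 ≤ d := by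
  have := hT.ld
  have := hT.l5
  omega

/-- at most `m` of the vectors are in `V m` -/
lemma card_le (hT : Top G l) {v : Fin (d + 1) → E d}
    (hv : ∀ i j, ⟪v i, v j⟫ = if i = j then (1 : ℝ) else -1 / d) {m : ℕ} (hm : m + 1 ≤ d)
    (s : Finset (Fin (d + 1))) (hs : ∀ p ∈ s, v p ∈ G.V 1 m) : s.card ≤ m := by
  by_contra hcon
  push Not at hcon
  obtain ⟨t, hts, ht⟩ := Finset.exists_subset_card_eq (s := s) (n := m + 1) (by omega)
  have h1 := finrank_span (by omega) hv t (by omega)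
  have h2 : Submodule.span ℝ (v '' (t : Set (Fin (d + 1)))) ≤ G.V 1 m := by
    rw [Submodule.span_le]
    rintro _ ⟨p, hp, rfl⟩
    exact hs p (hts hp)
  have h3 := Submodule.finrank_mono h2
  rw [h1, hT.dimV 1 m (by omega), ht] at h3
  omega

/-- `V m` is spanned by `m` of the vectors -/
lemma span_V (hT : Top G l) {v : Fin (d + 1) → E d}
    (hv : ∀ i j, ⟪v i, v j⟫ = if i = j then (1 : ℝ) else -1 / d) {m : ℕ} (hm : m + 1 ≤ d)
    (s : Finset (Fin (d + 1))) (hs : ∀ p ∈ s, v p ∈ G.V 1 m) (hc : s.card = m) :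
    Submodule.span ℝ (v '' (s : Set (Fin (d + 1)))) = G.V 1 m := by
  have h1 := finrank_span (by omega) hv s (by omega)
  apply Submodule.eq_of_le_of_finrank_le
  · rw [Submodule.span_le]
    rintro _ ⟨p, hp, rfl⟩
    exact hs p hp
  · rw [h1, hT.dimV 1 m (by omega), hc]

/-- `D j` is not zero -/
lemma exists_D (hT : Top G l) {j : ℕ} (hj : j < d) : ∃ e ∈ G.D 1 j, e ≠ 0 := by
  by_contra hcon
  push Not at hcon
  have h1 : G.V 1 (j + 1) ≤ G.V 1 j := by
    intro w hw
    have h2 := Submodule.starProjection_add_starProjection_orthogonal (K := G.V 1 j) w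
    have h3 : (G.V 1 j)ᗮ.starProjection w = w - (G.V 1 j).starProjection w := by
      rw [eq_sub_iff_add_eq, add_comm]
      exact h2
    have h4 : (G.V 1 j)ᗮ.starProjection w = 0 := by
      apply hcon
      refine ⟨?_, ?_⟩
      · rw [h3]
        exact sub_mem hw (G.V_mono 1 (Nat.le_succ j)
          (Submodule.starProjection_apply_mem _ _))
      · exact Submodule.starProjection_apply_mem _ _
    rw [h4, add_zero] at h2
    rw [← h2]
    exact Submodule.starProjection_apply_mem _ _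
  have h5 := Submodule.finrank_mono h1
  rw [hT.dimV 1 _ (by omega), hT.dimV 1 _ (by omega)] at h5
  omega

end

end MA1

open MA1 in
theorem t_MA1 : M_MA1 := by
  intro hGN2 d k Γ _ _ X _ G l hT gg hG v hA hi0
  classical
  obtain ⟨i0, h0⟩ := hi0
  have hd := d_ge hT
  have hv := hA.1
  have hd0 : 0 < d := by omega
  -- `±` permutations
  have hpm : ∀ (gm : ℕ → (E d ≃ₗᵢ[ℝ] E d)), Gens G l gm → ∀ j, j < d →
      ∃ π : Equiv.Perm (Fin (d + 1)), (∀ i, gm j (v i) = v (π i)) ∨
        (∀ i, gm j (v i) = -v (π i)) := by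
    intro gm hgm j hj
    exact autA d (Ph G 1 0 l) v (by omega) hA (gm j) (fun a ha => (hgm.root j hj a).2 ha)
  have hpure : ∀ (gm : ℕ → (E d ≃ₗᵢ[ℝ] E d)), Gens G l gm → ∀ j, 1 ≤ j → j < d →
      ∃ π : Equiv.Perm (Fin (d + 1)), ∀ i, gm j (v i) = v (π i) := by
    intro gm hgm j hj1 hj
    obtain ⟨π, h | h⟩ := hpm gm hgm j hj
    · exact ⟨π, h⟩
    · exfalso
      have h1 := hgm.fix j hj1 hj (v i0) (G.V_mono 1 hj1 h0)
      rw [h i0] at h1
      exact ne_neg_v (by omega) hv h1.symm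
  have hex : ∃ gm : ℕ → (E d ≃ₗᵢ[ℝ] E d), Gens G l gm ∧ ∀ j, j < d →
      ∃ π : Equiv.Perm (Fin (d + 1)), ∀ i, gm j (v i) = v (π i) := by
    obtain ⟨π, h | h⟩ := hpm gg hG 0 hd0
    · refine ⟨gg, hG, ?_⟩
      intro j hj
      rcases Nat.eq_zero_or_pos j with rfl | hj1
      · exact ⟨π, h⟩
      · exact hpure gg hG j hj1 hj
    · have hG' := hGN2 d k Γ X G l hT gg hG
      refine ⟨_, hG', ?_⟩
      intro j hj
      rcases Nat.eq_zero_or_pos j with rfl | hj1
      · refine ⟨π, fun i => ?_⟩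
        simp only [if_true, LinearIsometryEquiv.trans_apply]
        rw [h i]
        simp
      · exact hpure _ hG' j hj1 hj
  obtain ⟨gm, hgm, hπ⟩ := hex
  have hπ' : ∀ j, ∃ π : Equiv.Perm (Fin (d + 1)), j < d → ∀ i, gm j (v i) = v (π i) := by
    intro j
    by_cases hj : j < d
    · obtain ⟨π, h⟩ := hπ j hj
      exact ⟨π, fun _ => h⟩
    · exact ⟨1, fun h => absurd h hj⟩
  choose τ hτ using hπ'
  have hBm : ∀ i p, p ∈ Finset.univ.filter (fun p => v p ∈ G.V 1 i) ↔ v p ∈ G.V 1 i := by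
    intro i p
    simp
  obtain ⟨B, hB⟩ : ∃ B : ℕ → Finset (Fin (d + 1)), ∀ i p, p ∈ B i ↔ v p ∈ G.V 1 i :=
    ⟨_, hBm⟩
  have hinj : ∀ {i j : Fin (d + 1)}, v i = v j → i = j := fun h => inj_v hd0 hv h
  have hsubB : ∀ i j, i ≤ j → B i ⊆ B j := by
    intro i j hij p hp
    rw [hB] at hp ⊢
    exact G.V_mono 1 hij hp
  have hpres : ∀ j i, j < d → i ≠ j + 1 → ∀ p ∈ B i, τ j p ∈ B i := by
    intro j i hj hne p hp
    rw [hB] at hp ⊢
    rw [← hτ j hj]
    exact hgm.pres j i _ hj hne hp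
  -- the crucial point
  have hmoves : ∀ j, j + 2 ≤ d → (B (j + 1)).card = j + 1 →
      ∃ p ∈ B (j + 1), τ j p ∉ B (j + 1) := by
    intro j hj hc
    by_contra hcon
    push Not at hcon
    have h1 := span_V hT hv (m := j + 1) (by omega) (B (j + 1)) (fun p hp => (hB _ p).1 hp) hc
    obtain ⟨e, he, he0⟩ := exists_D hT (j := j) (by omega)
    apply hgm.moves j (by omega) e he he0
    have h2 : e ∈ Submodule.span ℝ (v '' (B (j + 1) : Set (Fin (d + 1)))) := by
      rw [h1]
      exact G.D_le_V 1 j he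
    clear he he0
    induction h2 using Submodule.span_induction with
    | mem x hx =>
      obtain ⟨p, hp, rfl⟩ := hx
      rw [hτ j (by omega)]
      exact (hB _ _).1 (hcon p hp)
    | zero => rw [map_zero]; exact zero_mem _
    | add x y _ _ hx hy => rw [map_add]; exact add_mem hx hy
    | smul a x _ hx => rw [map_smul]; exact Submodule.smul_mem _ a hx
  have hcle : ∀ i, i + 1 ≤ d → (B i).card ≤ i := fun i hi =>
    card_le hT hv hi (B i) (fun p hp => (hB _ p).1 hp)
  have hcard : ∀ i, i + 1 ≤ d → (B i).card = i := by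
    intro i
    induction i with
    | zero =>
      intro h
      have := hcle 0 h
      omega
    | succ i ih =>
      intro h
      apply le_antisymm (hcle _ h)
      rcases i with _ | i
      · exact Finset.card_pos.2 ⟨i0, (hB _ _).2 h0⟩
      · have h1 := ih (by omega)
        obtain ⟨p, hp, hp'⟩ := hmoves i (by omega) h1
        have h2 : τ i p ∈ B (i + 1 + 1) :=
          hpres i (i + 1 + 1) (by omega) (by omega) p (hsubB _ _ (Nat.le_succ _) hp)
        have h3 : insert (τ i p) (B (i + 1)) ⊆ B (i + 1 + 1) := by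
          intro q hq
          rw [Finset.mem_insert] at hq
          rcases hq with rfl | hq
          · exact h2
          · exact hsubB _ _ (Nat.le_succ _) hq
        have h4 := Finset.card_le_card h3
        rw [Finset.card_insert_of_notMem hp', h1] at h4
        exact h4
  have hl := hT.ld
  have hNj : ∀ j, l - 3 ≤ j → G.ρ j ∈ G.N := fun j hj => hT.up (G.ρ_mem_up hj)
  have hR : ∀ j, l - 3 ≤ j → 1 ≤ j → j < d → ∀ i, G.R 1 (G.ρ j) (v i) = v (τ j i) := by
    intro j h1 h2 h3 i
    rw [← hgm.inN j h2 h3 (hNj j h1)]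
    exact hτ j h3 i
  have hone : ∀ n ∈ G.N, (∀ i, G.R 1 n (v i) = v i) → n = 1 := by
    intro n hn h
    apply G.eq_one_of_R (g := 1) hn
    intro y
    have h1 := ext_v hd0 hv (g := G.R 1 n) (h := 1) (fun i => h i) (G.F 1 y)
    exact h1
  refine ⟨gm, τ, B, hgm, hτ, fun i _ p => hB i p, ?_⟩
  refine ⟨?_, ?_, ?_, ?_, ?_, ?_, ?_, ?_, ?_⟩
  · intro i hi
    exact hcard i (by omega)
  · intro i _
    exact hsubB _ _ (Nat.le_succ i)
  · intro j i hj hi hne p hp
    exact hpres j i (by omega) hne p hp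
  · intro j hj p hp
    apply hinj
    rw [← hτ j (by omega)]
    rcases Nat.eq_zero_or_pos j with rfl | hj1
    · exfalso
      have h1 := hcard 0 (by omega)
      rw [Finset.card_eq_zero] at h1
      rw [h1] at hp
      exact absurd hp (Finset.notMem_empty p)
    · exact hgm.fix j hj1 (by omega) _ ((hB _ _).1 hp)
  · intro j hj
    exact hmoves j (by omega) (hcard _ (by omega))
  · intro j hj
    ext1 i
    apply hinj
    rw [Equiv.Perm.mul_apply, ← hτ j (by omega), ← hτ j (by omega), hgm.sq j (by omega)]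
    rfl
  · intro i j hij hj
    ext1 p
    apply hinj
    rw [Equiv.Perm.mul_apply, Equiv.Perm.mul_apply, ← hτ i (by omega), ← hτ j (by omega),
      ← hτ j (by omega), ← hτ i (by omega), hgm.comm i j hij (by omega)]
  · intro h
    have e : d + 1 - 2 = d - 1 := by omega
    rw [e] at h
    apply G.ne_one (d - 1) (by omega)
    apply hone _ (hNj _ (by omega))
    intro i
    rw [hR (d - 1) (by omega) (by omega) (by omega), h]
    rfl
  · intro h
    have e1 : d + 1 - 2 = d - 1 := by omega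
    have e2 : d + 1 - 5 = d - 4 := by omega
    have e3 : d + 1 - 4 = d - 3 := by omega
    rw [e1, e2, e3] at h
    have hN1 := hNj (d - 1) (by omega)
    have hN4 := hNj (d - 4) (by omega)
    have hN3 := hNj (d - 3) (by omega)
    have hx : (G.ρ (d - 4) * G.ρ (d - 3)) ∈ G.N := mul_mem hN4 hN3
    have hxx : ∀ i, G.R 1 (G.ρ (d - 4) * G.ρ (d - 3)) (v i) =
        v ((τ (d - 4) * τ (d - 3)) i) := by
      intro i
      rw [G.R_mul_apply 1 hN4 hN3, hR (d - 3) (by omega) (by omega) (by omega),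
        hR (d - 4) (by omega) (by omega) (by omega), Equiv.Perm.mul_apply]
    have hx3 : ∀ i, G.R 1 ((G.ρ (d - 4) * G.ρ (d - 3)) ^ 3) (v i) =
        v (((τ (d - 4) * τ (d - 3)) ^ 3) i) := by
      intro i
      rw [pow_succ, pow_two, G.R_mul_apply 1 (mul_mem hx hx) hx, G.R_mul_apply 1 hx hx,
        hxx, hxx, hxx, pow_succ, pow_two]
      rfl
    have h1 : (G.ρ (d - 4) * G.ρ (d - 3)) ^ 3 * G.ρ (d - 1) = 1 := by
      apply hone _ (mul_mem (pow_mem hx 3) hN1)
      intro i
      rw [G.R_mul_apply 1 (pow_mem hx 3) hN1, hR (d - 1) (by omega) (by omega) (by omega), hx3, h,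
        ← hτ (d - 1) (by omega), ← hτ (d - 1) (by omega), hgm.sq (d - 1) (by omega)]
    have h2 : G.ρ (d - 1) = ((G.ρ (d - 4) * G.ρ (d - 3)) ^ 3)⁻¹ := (inv_eq_of_mul_eq_one_right h1).symm
    have h3 : G.ρ (d - 1) ∈ G.mid (d - 4) (d - 2) := by
      rw [h2]
      exact inv_mem (pow_mem (mul_mem (G.ρ_mem_mid (by omega) (by omega))
        (G.ρ_mem_mid (by omega) (by omega))) 3)
    have h4 := G.mid_inf_up h3 (G.ρ_mem_up (le_refl (d - 1))) (by omega)
    exact G.ne_one (d - 1) (by omega) (G.mid_eq_bot (by omega) h4)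

end FOK.L
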