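import Pool.Agent.FOL.FStmtsb

/-!
# FOK, module MD: 10.7, the model of the cube
-/

namespace FOK.L

open Lib_helper64.FO FO2
open scoped RealInnerProductSpace Nat

noncomputable section

namespace MD

variable {d : ℕ}

theorem inner_u (u : OrthonormalBasis (Fin d) ℝ (E d)) (i j : Fin d) :
    ⟪u i, u j⟫ = if i = j then (1 : ℝ) else 0 :=
  orthonormal_iff_ite.1 u.orthonormal i j

theorem inner_u_sum (u : OrthonormalBasis (Fin d) ℝ (E d)) (i : Fin d) :
    ⟪u i, ∑ j, u j⟫ = (1 : ℝ) := by
  rw [_root_.inner_sum]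
  simp [inner_u]

theorem u_inj (u : OrthonormalBasis (Fin d) ℝ (E d)) {i j : Fin d} (h : u i = u j) : i = j :=
  u.orthonormal.linearIndependent.injective h

theorem ext_u (u : OrthonormalBasis (Fin d) ℝ (E d)) {g h : E d ≃ₗᵢ[ℝ] E d}
    (H : ∀ i, g (u i) = h (u i)) (v : E d) : g v = h v := by
  have h1 : g.toLinearEquiv.toLinearMap = h.toLinearEquiv.toLinearMap := by
    apply u.toBasis.ext
    intro i
    rw [OrthonormalBasis.coe_toBasis]
    exact H i
  exact congrArg (fun f : E d →ₗ[ℝ] E d => f v) h1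

theorem finrank_E : Module.finrank ℝ (E d) = d := finrank_euclideanSpace_fin

/-- the dimension of the span of `∑ u i` and the `u p` for `p ∈ B` -/
theorem finrank_span (u : OrthonormalBasis (Fin d) ℝ (E d)) (B : Finset (Fin d)) {q : Fin d}
    (hq : q ∉ B) :
    Module.finrank ℝ (Submodule.span ℝ (insert (∑ i, u i) (u '' (B : Set (Fin d))))) =
      B.card + 1 := by
  have hli : LinearIndependent ℝ (fun p : B => u p) :=
    u.orthonormal.linearIndependent.comp _ Subtype.val_injective
  have hno : (∑ i, u i) ∉ Submodule.span ℝ (Set.range (fun p : B => u p)) := by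
    intro h
    have h1 : Submodule.span ℝ (Set.range (fun p : B => u p)) ≤ (Submodule.span ℝ {u q})ᗮ := by
      rw [Submodule.span_le]
      rintro _ ⟨p, rfl⟩
      rw [SetLike.mem_coe, Submodule.mem_orthogonal_singleton_iff_inner_right, inner_u,
        if_neg]
      intro e
      exact hq (e ▸ p.2)
    have h2 := h1 h
    rw [Submodule.mem_orthogonal_singleton_iff_inner_right, inner_u_sum] at h2
    exact one_ne_zero h2
  have h3 := linearIndependent_option'.2 ⟨hli, hno⟩
  have h4 := finrank_span_eq_card h3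
  have h5 : Set.range (fun o : Option B => Option.casesOn' o (∑ i, u i) (fun p : B => u p)) =
      insert (∑ i, u i) (u '' (B : Set (Fin d))) := by
    ext w
    constructor
    · rintro ⟨o, rfl⟩
      rcases o with _ | p
      · exact Or.inl rfl
      · exact Or.inr ⟨p, p.2, rfl⟩
    · rintro (rfl | ⟨p, hp, rfl⟩)
      · exact ⟨none, rfl⟩
      · exact ⟨some ⟨p, hp⟩, rfl⟩
  rw [h5] at h4
  rw [h4]
  simp

variable {k : ℕ} {Γ : Type} [Group Γ] {X : Type} [MulAction Γ X] (G : KGeo d k Γ X) {l : ℕ}

theorem exists_D (hT : Top G l) {i : ℕ} (hi : i < d) : ∃ e ∈ G.D 1 i, e ≠ 0 := by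
  by_contra hcon
  push Not at hcon
  have h1 : G.D 1 i = ⊥ := by
    rw [eq_bot_iff]
    intro e he
    exact hcon e he
  have h2 := Submodule.sup_orthogonal_inf_of_hasOrthogonalProjection
    (G.V_mono 1 (Nat.le_succ i))
  have h3 : (G.V 1 i)ᗮ ⊓ G.V 1 (i + 1) = ⊥ := by
    rw [inf_comm]
    exact h1
  have h4 : G.V 1 i = G.V 1 (i + 1) := by
    rw [Nat.succ_eq_add_one, h3, sup_bot_eq] at h2
    exact h2
  have h5 := hT.dimV 1 i (by omega)
  have h6 := hT.dimV 1 (i + 1) (by omega)
  rw [h4, h6] at h5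
  omega

/-- the span of `y` and of the basis vectors in `V_{i+1}` -/
def SS (u : OrthonormalBasis (Fin d) ℝ (E d)) (i : ℕ) : Submodule ℝ (E d) :=
  Submodule.span ℝ (insert (∑ i, u i) {w | ∃ p, u p ∈ G.V 1 (i + 1) ∧ u p = w})

theorem SS_le {u : OrthonormalBasis (Fin d) ℝ (E d)} (hy : ∑ i, u i ∈ G.V 1 1) (i : ℕ) :
    SS G u i ≤ G.V 1 (i + 1) := by
  rw [SS, Submodule.span_le]
  rintro w (rfl | ⟨p, hp, rfl⟩)
  · exact G.V_mono 1 (by omega) hy
  · exact hp

theorem sum_ne {u : OrthonormalBasis (Fin d) ℝ (E d)} (i : Fin d) : ∑ i, u i ≠ 0 := by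
  intro h
  have := inner_u_sum u i
  rw [h, inner_zero_right] at this
  exact zero_ne_one this

theorem V_one (hT : Top G l) {u : OrthonormalBasis (Fin d) ℝ (E d)}
    (hy : ∑ i, u i ∈ G.V 1 1) : Submodule.span ℝ {∑ i, u i} = G.V 1 1 := by
  have hd := hT.ld
  apply Submodule.eq_of_le_of_finrank_eq
  · rw [Submodule.span_le]
    rintro w hw
    rw [Set.mem_singleton_iff] at hw
    rw [hw]
    exact hy
  · rw [hT.dimV 1 1 (by omega), finrank_span_singleton]
    exact sum_ne ⟨0, by omega⟩

theorem root_mem (hT : Top G l) {gm : ℕ → (E d ≃ₗᵢ[ℝ] E d)} (hG : Gens G l gm)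
    {u : OrthonormalBasis (Fin d) ℝ (E d)} {p : Fin d} (hp : ∀ v, gm 0 v = sref (u p) v) :
    u p ∈ G.V 1 2 := by
  have hd := hT.ld
  have hl := hT.l5
  obtain ⟨ε, hε, hs⟩ := hG.scal0
  have hdim : Module.finrank ℝ (G.V 1 2) + Module.finrank ℝ (G.V 1 2)ᗮ = d := by
    rw [Submodule.finrank_add_finrank_orthogonal, finrank_E]
  rw [hT.dimV 1 2 (by omega)] at hdim
  rcases hε with rfl | rfl
  · have h1 : u p ∈ (G.V 1 2)ᗮᗮ := by
      rw [Submodule.mem_orthogonal]
      intro v hv
      have h2 := hs v hv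
      rw [hp, sref, one_smul, sub_eq_self, smul_eq_zero] at h2
      rcases h2 with h2 | h2
      · rw [real_inner_comm]
        linarith
      · exact absurd h2 (u.orthonormal.ne_zero p)
    rw [Submodule.orthogonal_orthogonal] at h1
    exact h1
  · exfalso
    have h1 : (G.V 1 2)ᗮ ≤ Submodule.span ℝ {u p} := by
      intro v hv
      have h2 := hs v hv
      rw [hp, sref] at h2
      rw [Submodule.mem_span_singleton]
      refine ⟨⟪u p, v⟫, ?_⟩
      have h3 : (2 : ℝ) • v = (2 : ℝ) • (⟪u p, v⟫ • u p) := by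
        rw [smul_smul, ← sub_eq_zero, ← sub_eq_zero.2 h2]
        module
      exact ((smul_right_injective (E d) (two_ne_zero' ℝ)) h3).symm
    have h2 := Submodule.finrank_mono h1
    have h3 := finrank_span_le_card (R := ℝ) ({u p} : Set (E d))
    rw [Set.toFinset_singleton, Finset.card_singleton] at h3
    omega

theorem SS_eq (hT : Top G l) {gm : ℕ → (E d ≃ₗᵢ[ℝ] E d)} (hG : Gens G l gm)
    {u : OrthonormalBasis (Fin d) ℝ (E d)} (hy : ∑ i, u i ∈ G.V 1 1)
    (hperm : ∀ j, 1 ≤ j → j < d → ∃ τ : Equiv.Perm (Fin d), ∀ i, gm j (u i) = u (τ i))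
    {p : Fin d} (hp : ∀ v, gm 0 v = sref (u p) v) :
    ∀ i, i + 1 ≤ d → SS G u i = G.V 1 (i + 1) := by
  have hd := hT.ld
  have hl := hT.l5
  have hp2 := root_mem G hT hG hp
  intro i
  induction i with
  | zero =>
    intro _
    refine le_antisymm (SS_le G hy 0) ?_
    rw [zero_add, ← V_one G hT hy, SS]
    exact Submodule.span_mono (Set.singleton_subset_iff.2 (Set.mem_insert _ _))
  | succ i ih =>
    intro hi
    have ih' := ih (by omega)
    -- a new basis vector
    have key : ∃ q, u q ∈ G.V 1 (i + 2) ∧ u q ∉ G.V 1 (i + 1) := by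
      rcases Nat.eq_zero_or_pos i with h0 | h0
      · subst h0
        refine ⟨p, hp2, ?_⟩
        rw [zero_add, ← V_one G hT hy, Submodule.mem_span_singleton]
        rintro ⟨c, hc⟩
        obtain ⟨q, hq⟩ : ∃ q : Fin d, q ≠ p := by
          by_cases h : p.val = 0
          · exact ⟨⟨1, by omega⟩, fun e => by rw [← e] at h; exact one_ne_zero h⟩
          · exact ⟨⟨0, by omega⟩, fun e => h (by rw [← e])⟩
        have h1 := inner_u u q p
        rw [if_neg hq, ← hc, inner_smul_right, inner_u_sum, mul_one] at h1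
        rw [h1, zero_smul] at hc
        exact u.orthonormal.ne_zero p hc.symm
      · obtain ⟨τ, hτ⟩ := hperm i h0 (by omega)
        by_contra hcon
        push Not at hcon
        obtain ⟨e, he, he0⟩ := exists_D G hT (i := i) (by omega)
        apply hG.moves i (by omega) e he he0
        have h1 : SS G u i ≤ (G.V 1 (i + 1)).comap (gm i).toLinearEquiv.toLinearMap := by
          rw [SS, Submodule.span_le]
          rintro w (rfl | ⟨q, hq, rfl⟩)
          · rw [SetLike.mem_coe, Submodule.mem_comap]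
            have h2 : (gm i).toLinearEquiv.toLinearMap (∑ i, u i) = ∑ i, u i := by
              rw [map_sum]
              rw [← Equiv.sum_comp τ (fun j => u j)]
              exact Finset.sum_congr rfl fun j _ => hτ j
            rw [h2]
            exact G.V_mono 1 (by omega) hy
          · rw [SetLike.mem_coe, Submodule.mem_comap]
            have h2 : (gm i).toLinearEquiv.toLinearMap (u q) = u (τ q) := hτ q
            rw [h2]
            apply hcon
            rw [← hτ]
            exact hG.pres i (i + 2) _ (by omega) (by omega)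
              (G.V_mono 1 (by omega) hq)
        exact h1 (ih' ▸ G.D_le_V 1 i he)
    obtain ⟨q, hq1, hq2⟩ := key
    apply Submodule.eq_of_le_of_finrank_le (SS_le G hy (i + 1))
    rw [hT.dimV 1 (i + 1 + 1) (by omega)]
    have h1 : SS G u i < SS G u (i + 1) := by
      refine lt_of_le_of_ne ?_ ?_
      · rw [SS, SS]
        apply Submodule.span_mono
        apply Set.insert_subset_insert
        rintro w ⟨r, hr, rfl⟩
        exact ⟨r, G.V_mono 1 (by omega) hr, rfl⟩
      · intro e
        apply hq2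
        rw [← ih', e, SS]
        exact Submodule.subset_span (Or.inr ⟨q, hq1, rfl⟩)
    have h2 := Submodule.finrank_lt_finrank_of_lt h1
    rw [ih', hT.dimV 1 (i + 1) (by omega)] at h2
    omega

end MD

theorem t_MD : M_MD' := by
  intro hPRM hMD1 d k Γ _ _ X _ G l hT gg hgg u hu y0 hy0 hy
  obtain ⟨u', gm, hG, hIsD, hsum, hperm, p, hp⟩ := hMD1 d k Γ X G l hT gg hgg u hu y0 hy0 hy
  have hd := hT.ld
  have hl := hT.l5
  have hSS := MD.SS_eq G hT hG hsum hperm hp
  have hex : ∀ j, ∃ τ : Equiv.Perm (Fin d), j + 2 ≤ d → ∀ i, gm (j + 1) (u' i) = u' (τ i) := by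
    intro j
    by_cases h : j + 2 ≤ d
    · obtain ⟨τ, hτ⟩ := hperm (j + 1) (by omega) (by omega)
      exact ⟨τ, fun _ => hτ⟩
    · exact ⟨1, fun h' => absurd h' h⟩
  choose τ hτ using hex
  classical
  let B : ℕ → Finset (Fin d) := fun i => Finset.univ.filter (fun p => u' p ∈ G.V 1 (i + 1))
  have memB : ∀ i q, q ∈ B i ↔ u' q ∈ G.V 1 (i + 1) := by
    intro i q
    simp [B]
  have hρN : ∀ j, d - 4 ≤ j → G.ρ j ∈ G.N := fun j hj => hT.up (G.ρ_mem_up (by omega))
  have hP : PrmH d τ B := by
    refine ⟨?_, ?_, ?_, ?_, ?_, ?_, ?_, ?_, ?_⟩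
    · -- card
      intro i hi
      have h1 := hSS i (by omega)
      have h2 : MD.SS G u' i =
          Submodule.span ℝ (insert (∑ i, u' i) (u' '' (B i : Set (Fin d)))) := by
        rw [MD.SS]
        congr 2
        ext w
        constructor
        · rintro ⟨q, hq, rfl⟩
          exact ⟨q, (memB i q).2 hq, rfl⟩
        · rintro ⟨q, hq, rfl⟩
          exact ⟨q, (memB i q).1 hq, rfl⟩
      have h3 := hT.dimV 1 (i + 1) (by omega)
      have h4 : ∃ q, q ∉ B i := by
        by_contra hcon
        push Not at hcon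
        have h5 : G.V 1 (i + 1) = ⊤ := by
          rw [eq_top_iff, ← u'.toBasis.span_eq, Submodule.span_le]
          rintro _ ⟨q, rfl⟩
          rw [OrthonormalBasis.coe_toBasis]
          exact (memB i q).1 (hcon q)
        rw [h5, finrank_top, MD.finrank_E] at h3
        omega
      obtain ⟨q, hq⟩ := h4
      rw [← h1, h2, MD.finrank_span u' (B i) hq] at h3
      omega
    · intro i _ q hq
      rw [memB] at hq ⊢
      exact G.V_mono 1 (by omega) hq
    · intro j i hj hi hij q hq
      rw [memB] at hq ⊢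
      rw [← hτ j hj]
      exact hG.pres (j + 1) (i + 1) _ (by omega) (by omega) hq
    · intro j hj q hq
      rw [memB] at hq
      apply MD.u_inj u'
      rw [← hτ j hj]
      exact hG.fix (j + 1) (by omega) (by omega) _ hq
    · intro j hj
      by_contra hcon
      push Not at hcon
      obtain ⟨e, he, he0⟩ := MD.exists_D G hT (i := j + 1) (by omega)
      apply hG.moves (j + 1) (by omega) e he he0
      have h1 : MD.SS G u' (j + 1) ≤
          (G.V 1 (j + 1 + 1)).comap (gm (j + 1)).toLinearEquiv.toLinearMap := by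
        rw [MD.SS, Submodule.span_le]
        rintro w (rfl | ⟨q, hq, rfl⟩)
        · rw [SetLike.mem_coe, Submodule.mem_comap]
          have h2 : (gm (j + 1)).toLinearEquiv.toLinearMap (∑ i, u' i) = ∑ i, u' i := by
            rw [map_sum]
            rw [← Equiv.sum_comp (τ j) (fun j => u' j)]
            exact Finset.sum_congr rfl fun i _ => hτ j (by omega) i
          rw [h2]
          exact G.V_mono 1 (by omega) hsum
        · rw [SetLike.mem_coe, Submodule.mem_comap]
          have h2 : (gm (j + 1)).toLinearEquiv.toLinearMap (u' q) = u' (τ j q) :=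
            hτ j (by omega) q
          rw [h2]
          exact (memB (j + 1) _).1 (hcon q ((memB (j + 1) q).2 hq))
      exact h1 (hSS (j + 1) (by omega) ▸ G.D_le_V 1 (j + 1) he)
    · intro j hj
      ext i : 1
      apply MD.u_inj u'
      rw [Equiv.Perm.mul_apply, ← hτ j hj, ← hτ j hj]
      exact hG.sq (j + 1) (by omega) _
    · intro i j hij hj
      ext q : 1
      apply MD.u_inj u'
      rw [Equiv.Perm.mul_apply, Equiv.Perm.mul_apply, ← hτ i (by omega), ← hτ j hj,
        ← hτ j hj, ← hτ i (by omega)]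
      exact hG.comm (i + 1) (j + 1) (by omega) (by omega) _
    · intro h
      have h1 : G.ρ (d - 1) ∈ G.N := hρN _ (by omega)
      have h2 := hG.inN (d - 1) (by omega) (by omega) h1
      apply G.ne_one (d - 1) (by omega)
      apply G.eq_one_of_R (g := 1) h1
      intro y
      rw [← h2]
      have h3 : ∀ i, gm (d - 1) (u' i) = (LinearIsometryEquiv.refl ℝ (E d)) (u' i) := by
        intro i
        have h4 := hτ (d - 2) (by omega) i
        have e : d - 2 + 1 = d - 1 := by omega
        rw [e, h] at h4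
        exact h4
      exact MD.ext_u u' h3 _
    · intro h
      have ha : G.ρ (d - 4) ∈ G.N := hρN _ (by omega)
      have hb : G.ρ (d - 3) ∈ G.N := hρN _ (by omega)
      have hc : G.ρ (d - 1) ∈ G.N := hρN _ (by omega)
      have h2a := hG.inN (d - 4) (by omega) (by omega) ha
      have h2b := hG.inN (d - 3) (by omega) (by omega) hb
      have h2c := hG.inN (d - 1) (by omega) (by omega) hc
      have hm : G.ρ (d - 4) * G.ρ (d - 3) ∈ G.N := mul_mem ha hb
      have h3 : ∀ i, G.R 1 (G.ρ (d - 4) * G.ρ (d - 3)) (u' i) =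
          u' ((τ (d - 5) * τ (d - 4)) i) := by
        intro i
        rw [G.R_mul_apply 1 ha hb, ← h2a, ← h2b, Equiv.Perm.mul_apply]
        have h4 := hτ (d - 4) (by omega) i
        have e : d - 4 + 1 = d - 3 := by omega
        rw [e] at h4
        rw [h4]
        have h5 := hτ (d - 5) (by omega) (τ (d - 4) i)
        have e' : d - 5 + 1 = d - 4 := by omega
        rw [e'] at h5
        exact h5
      have h6 : ∀ i, G.R 1 ((G.ρ (d - 4) * G.ρ (d - 3)) ^ 3) (u' i) =
          G.R 1 (G.ρ (d - 1)) (u' i) := by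
        intro i
        rw [pow_succ, pow_two, G.R_mul_apply 1 (mul_mem hm hm) hm, G.R_mul_apply 1 hm hm, h3,
          h3, h3, ← h2c]
        have h4 := hτ (d - 2) (by omega) i
        have e : d - 2 + 1 = d - 1 := by omega
        rw [e, ← h, pow_succ, pow_two] at h4
        rw [h4]
        rfl
      have h7 : (G.ρ (d - 1))⁻¹ * (G.ρ (d - 4) * G.ρ (d - 3)) ^ 3 = 1 := by
        apply G.eq_one_of_R (g := 1) (mul_mem (inv_mem hc) (pow_mem hm 3))
        intro y
        rw [G.R_mul_apply 1 (inv_mem hc) (pow_mem hm 3), MD.ext_u u' h6,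
          G.R_inv_apply' 1 hc]
      have h8 : (G.ρ (d - 4) * G.ρ (d - 3)) ^ 3 = G.ρ (d - 1) := (inv_mul_eq_one.1 h7).symm
      have h9 : G.ρ (d - 1) ∈ G.mid (d - 4) (d - 2) := by
        rw [← h8]
        exact pow_mem (mul_mem (G.ρ_mem_mid le_rfl (by omega))
          (G.ρ_mem_mid (by omega) (by omega))) 3
      have h10 := G.mid_inf_up h9 (G.ρ_mem_up (i := d - 1) le_rfl) (by omega)
      exact G.ne_one (d - 1) (by omega) (G.mid_eq_bot (by omega) h10)
  obtain ⟨e, einj, eB, eτ⟩ := hPRM d τ B (by omega) hP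
  have hinj : Function.Injective (fun i : Fin d => e i.val) := fun i j h =>
    Fin.ext (einj i.val j.val i.isLt j.isLt h)
  let π : Equiv.Perm (Fin d) :=
    Equiv.ofBijective (fun i : Fin d => e i.val) (Finite.injective_iff_bijective.1 hinj)
  have hu'' : ∀ i, u'.reindex π.symm i = u' (e i.val) := by
    intro i
    rw [OrthonormalBasis.reindex_apply, Equiv.symm_symm]
    rfl
  have hpe : p = e 0 := by
    have h1 : p ∈ B 1 := by
      rw [memB]
      exact MD.root_mem G hT hG hp
    obtain ⟨m, hm, hm'⟩ := (eB 1 (by omega) p).1 h1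
    obtain rfl : m = 0 := by omega
    exact hm'.symm
  refine ⟨u'.reindex π.symm, gm, hG, ?_, ?_, ?_⟩
  · intro a
    rw [hIsD a]
    constructor
    · rintro ⟨i, j, hij, s, t, rfl⟩
      exact ⟨π.symm i, π.symm j, fun e => hij (π.symm.injective e), s, t, by simp⟩
    · rintro ⟨i, j, hij, s, t, rfl⟩
      exact ⟨π i, π j, fun e => hij (π.injective e), s, t, by simp⟩
  · have h1 : ∑ i, u'.reindex π.symm i = ∑ i, u' i := by
      rw [← Equiv.sum_comp π (fun j => u' j)]
      exact Finset.sum_congr rfl fun i _ => hu'' i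
    rw [h1]
    exact hsum
  · intro j i
    split_ifs with h1 h2
    · subst h2
      rw [h1, hp, hu'', h1, hpe]
      exact sref_self (u'.orthonormal.norm_eq_one _)
    · rw [h1, hp, hu'', hpe, sref, MD.inner_u, if_neg]
      · simp
      · intro h3
        apply h2
        apply Fin.ext
        rw [h1]
        exact (einj 0 i.val (by omega) i.isLt h3).symm
    · have h2 : j.val - 1 + 1 = j.val := by omega
      have h3 := hτ (j.val - 1) (by omega) (e i.val)
      rw [h2, eτ (j.val - 1) (by omega), h2] at h3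
      have h4 : Equiv.swap (e (j.val - 1)) (e j.val) (e i.val) =
          e (Equiv.swap (prd j) j i).val :=
        hinj.swap_apply (prd j) j i
      rw [h4] at h3
      rw [hu'', hu'']
      exact h3

end

end FOK.L
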