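import Pool.Agent.FOL.FStmts

/-!
# Module MIXG: the mixing datum (10.9)
-/

namespace FOK.L

open Lib_helper64.FO FO2
open scoped RealInnerProductSpace Nat

noncomputable section

namespace MIXG

variable {d k : ℕ} {Γ : Type} [Group Γ] {X : Type} [MulAction Γ X]

/-- the lifted words -/
theorem lift_eq {α : Type} {d : ℕ} (f : ℕ → α) (w : List (Fin d)) :
    (List.map f (do let a ← w; pure (a : ℕ))) = w.map (fun j : Fin d => f j) := by
  have h : (do let a ← w; pure (a : ℕ) : List ℕ) = w.map (fun j : Fin d => (j : ℕ)) := by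
    induction w with
    | nil => rfl
    | cons a w ih =>
      change [(a : ℕ)] ++ (do let a ← w; pure (a : ℕ) : List ℕ) = _
      rw [ih, List.map_cons, List.singleton_append]
  rw [h, List.map_map]
  rfl

/-- the element `ρ_w` -/
def rw' (G : KGeo d k Γ X) (w : List (Fin d)) : Γ := (w.map (fun j : Fin d => G.ρ j)).prod

/-- the isometry `g_w` -/
def gw (gm : ℕ → (E d ≃ₗᵢ[ℝ] E d)) (w : List (Fin d)) : E d ≃ₗᵢ[ℝ] E d :=
  (w.map (fun j : Fin d => gm j)).prod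

theorem rw_eq (G : KGeo d k Γ X) (w : List (Fin d)) : (w.map (fun j => G.ρ j)).prod = rw' G w :=
  congrArg List.prod (lift_eq G.ρ w)

theorem gw_eq (gm : ℕ → (E d ≃ₗᵢ[ℝ] E d)) (w : List (Fin d)) :
    (w.map (fun j => gm j)).prod = gw gm w :=
  congrArg List.prod (lift_eq gm w)

theorem rw_cons (G : KGeo d k Γ X) (j : Fin d) (w : List (Fin d)) :
    rw' G (j :: w) = G.ρ j * rw' G w := by
  rw [rw', rw', List.map_cons, List.prod_cons]

theorem gw_cons (gm : ℕ → (E d ≃ₗᵢ[ℝ] E d)) (j : Fin d) (w : List (Fin d)) (v : E d) :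
    gw gm (j :: w) v = gm j (gw gm w v) := by
  rw [gw, gw, List.map_cons, List.prod_cons]
  rfl

theorem gw_nil (gm : ℕ → (E d ≃ₗᵢ[ℝ] E d)) (v : E d) : gw gm [] v = v := rfl

theorem rw_nil (G : KGeo d k Γ X) : rw' G [] = 1 := rfl

/-- the data -/
structure Dt (G : KGeo d k Γ X) (l : ℕ) (gm : ℕ → (E d ≃ₗᵢ[ℝ] E d)) (y0 : E d)
    (s : Fin d → ℤˣ) (r : List (Fin d) → ℝ) : Prop where
  top : Top G l
  gens : Gens G l gm
  mem : y0 ∈ G.V 1 1
  ne : y0 ≠ 0
  s1 : ∀ j, 1 ≤ j.val → s j = 1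
  tr : ∀ w w' : List (Fin d), (w.map s).prod = (w'.map s).prod →
      ∃ x ∈ Subgroup.closure (TT G 0 l), G.R 1 x (gw gm w y0) = gw gm w' y0
  be : S_BE2
  r0 : ∀ w, r w ≠ 0
  rf : ∀ w, G.f (rw' G w • G.x0) = r w • gw gm w y0

variable {G : KGeo d k Γ X} {l : ℕ} {gm : ℕ → (E d ≃ₗᵢ[ℝ] E d)} {y0 : E d} {s : Fin d → ℤˣ}
  {r : List (Fin d) → ℝ}

theorem R1 {n : Γ} (hn : n ∈ G.N) (y : X) : G.R 1 n (G.f y) = G.f (n • y) := by
  have := G.R_F 1 hn y
  rwa [KGeo.F, KGeo.F, one_smul, one_smul] at this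

theorem Dt.gne (h : Dt G l gm y0 s r) (w : List (Fin d)) : gw gm w y0 ≠ 0 := by
  intro h1
  exact h.ne ((gw gm w).map_eq_zero_iff.1 h1)

theorem Dt.inj (h : Dt G l gm y0 s r) {w : List (Fin d)} {a b : ℝ}
    (hab : a • gw gm w y0 = b • gw gm w y0) : a = b := by
  have h1 : (a - b) • gw gm w y0 = 0 := by rw [sub_smul, hab, sub_self]
  rcases smul_eq_zero.1 h1 with h2 | h2
  · exact sub_eq_zero.1 h2
  · exact absurd h2 (h.gne w)

/-- equal points have equal radii -/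
theorem Dt.uniq (h : Dt G l gm y0 s r) {w w' : List (Fin d)}
    (h1 : rw' G w • G.x0 = rw' G w' • G.x0) (h2 : gw gm w y0 = gw gm w' y0) : r w = r w' := by
  have h3 := h.rf w
  rw [h1, h.rf w', h2] at h3
  exact (h.inj h3).symm

theorem Dt.TT_le (h : Dt G l gm y0 s r) : Subgroup.closure (TT G 0 l) ≤ G.N := by
  rw [Subgroup.closure_le]
  rintro _ ⟨γ, _, rfl⟩
  exact G.conj_mem_N γ (h.top.up (G.ρ_mem_up (by omega)))

/-- the key step -/
theorem Dt.key [Finite Γ] (h : Dt G l gm y0 s r) {w w' : List (Fin d)}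
    (h1 : (w.map s).prod = (w'.map s).prod) (h2 : r w = r w') (j : Fin d) :
    r (j :: w) = r (j :: w') := by
  obtain ⟨x, hx, hx'⟩ := h.tr w w' h1
  have hxN : x ∈ G.N := h.TT_le hx
  -- `x ρ_w x0 = ρ_w' x0`
  have h3 : x • rw' G w • G.x0 = rw' G w' • G.x0 := by
    apply G.inj
    rw [← R1 hxN, h.rf, h.rf, map_smul, hx', h2]
  have hcN : G.ρ j * x * (G.ρ j)⁻¹ ∈ G.N := G.conj_mem_N _ hxN
  have h4 : G.f (rw' G (j :: w') • G.x0) = r (j :: w) • gw gm (j :: w') y0 := by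
    have e1 : rw' G (j :: w') • G.x0 = (G.ρ j * x * (G.ρ j)⁻¹) • rw' G (j :: w) • G.x0 := by
      rw [rw_cons, rw_cons, mul_smul, ← h3, ← mul_smul, ← mul_smul, ← mul_smul]
      congr 1
      group
    rw [e1, ← R1 hcN, h.rf, map_smul, gw_cons, gw_cons]
    have h5 := (h.be d k Γ X G l h.top (G.ρ j) (gm j) (h.gens.isB j j.2)).1 x hx (gw gm w y0)
    rw [← h5, hx']
  rw [h.rf] at h4
  exact (h.inj h4).symm

/-- the set of the pairs -/
def AA (s : Fin d → ℤˣ) (r : List (Fin d) → ℝ) : Type :=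
  {a : ℤˣ × ℝ // ∃ w : List (Fin d), a = ((w.map s).prod, r w)}

/-- the pair of a word -/
def mkA (s : Fin d → ℤˣ) (r : List (Fin d) → ℝ) (w : List (Fin d)) : AA s r :=
  ⟨((w.map s).prod, r w), w, rfl⟩

theorem mkA_surj (a : AA s r) : ∃ w, a = mkA s r w := by
  obtain ⟨w, hw⟩ := a.2
  exact ⟨w, Subtype.ext hw⟩

theorem mkA_eq {w w' : List (Fin d)} : mkA s r w = mkA s r w' ↔
    (w.map s).prod = (w'.map s).prod ∧ r w = r w' := by
  constructor
  · intro h
    have := congrArg Subtype.val h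
    exact ⟨congrArg Prod.fst this, congrArg Prod.snd this⟩
  · rintro ⟨h1, h2⟩
    exact Subtype.ext (Prod.ext h1 h2)

/-- the map of a letter -/
def pf (s : Fin d → ℤˣ) (r : List (Fin d) → ℝ) (j : Fin d) (a : AA s r) : AA s r :=
  mkA s r (j :: (mkA_surj a).choose)

theorem Dt.pf_mk [Finite Γ] (h : Dt G l gm y0 s r) (j : Fin d) (w : List (Fin d)) :
    pf s r j (mkA s r w) = mkA s r (j :: w) := by
  have h1 := (mkA_surj (mkA s r w)).choose_spec
  rw [pf, mkA_eq]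
  obtain ⟨h2, h3⟩ := mkA_eq.1 h1
  refine ⟨?_, (h.key h2 h3 j).symm⟩
  rw [List.map_cons, List.prod_cons, List.map_cons, List.prod_cons, h2]

theorem Dt.mk_sq (h : Dt G l gm y0 s r) (j : Fin d) (w : List (Fin d)) :
    mkA s r (j :: j :: w) = mkA s r w := by
  rw [mkA_eq]
  constructor
  · rw [List.map_cons, List.prod_cons, List.map_cons, List.prod_cons, ← mul_assoc,
      Int.units_mul_self, one_mul]
  · apply h.uniq
    · rw [rw_cons, rw_cons, ← mul_assoc, G.sq, one_mul]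
    · rw [gw_cons, gw_cons, h.gens.sq j j.2]

theorem Dt.mk_comm (h : Dt G l gm y0 s r) (i j : Fin d) (hij : i.val + 2 ≤ j.val)
    (w : List (Fin d)) : mkA s r (i :: j :: w) = mkA s r (j :: i :: w) := by
  rw [mkA_eq]
  constructor
  · rw [List.map_cons, List.prod_cons, List.map_cons, List.prod_cons, List.map_cons,
      List.prod_cons, List.map_cons, List.prod_cons]
    exact mul_left_comm _ _ _
  · apply h.uniq
    · rw [rw_cons, rw_cons, rw_cons, rw_cons, ← mul_assoc, ← mul_assoc, G.comm i j hij]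
    · rw [gw_cons, gw_cons, gw_cons, gw_cons, h.gens.comm i j hij j.2]

/-- the permutation of a letter -/
def Dt.pm [Finite Γ] (h : Dt G l gm y0 s r) (j : Fin d) : Equiv.Perm (AA s r) where
  toFun := pf s r j
  invFun := pf s r j
  left_inv a := by
    obtain ⟨w, rfl⟩ := mkA_surj a
    rw [h.pf_mk, h.pf_mk, h.mk_sq]
  right_inv a := by
    obtain ⟨w, rfl⟩ := mkA_surj a
    rw [h.pf_mk, h.pf_mk, h.mk_sq]

theorem Dt.pm_mk [Finite Γ] (h : Dt G l gm y0 s r) (j : Fin d) (w : List (Fin d)) :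
    h.pm j (mkA s r w) = mkA s r (j :: w) := h.pf_mk j w

theorem Dt.prod_mk [Finite Γ] (h : Dt G l gm y0 s r) (w : List (Fin d)) :
    (w.map h.pm).prod (mkA s r []) = mkA s r w := by
  induction w with
  | nil => rfl
  | cons j w ih =>
    rw [List.map_cons, List.prod_cons, Equiv.Perm.mul_apply, ih, h.pm_mk]

/-- the mixing datum -/
def Dt.mix [Finite Γ] (h : Dt G l gm y0 s r) : Mix d (AA s r) where
  π := h.pm
  a0 := mkA s r []
  r a := a.1.2
  sq j := by
    ext a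
    obtain ⟨w, rfl⟩ := mkA_surj a
    rw [Equiv.Perm.mul_apply, h.pm_mk, h.pm_mk, h.mk_sq]
    rfl
  comm i j hij := by
    ext a
    obtain ⟨w, rfl⟩ := mkA_surj a
    rw [Equiv.Perm.mul_apply, Equiv.Perm.mul_apply, h.pm_mk, h.pm_mk, h.pm_mk, h.pm_mk,
      h.mk_comm i j hij]
  fix j hj := by
    rw [h.pm_mk, mkA_eq]
    constructor
    · rw [List.map_cons, List.prod_cons, h.s1 j hj, one_mul]
    · apply h.uniq
      · rw [rw_cons, rw_nil, mul_one, one_smul, G.stab j hj]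
      · rw [gw_cons, gw_nil, h.gens.fix j hj j.2 y0 (G.V_mono 1 hj h.mem)]
  trans a := by
    obtain ⟨w, rfl⟩ := mkA_surj a
    refine ⟨(w.map h.pm).prod, ?_, h.prod_mk w⟩
    apply Subgroup.list_prod_mem
    intro x hx
    obtain ⟨j, _, rfl⟩ := List.mem_map.1 hx
    exact Subgroup.subset_closure ⟨j, rfl⟩
  ne a := by
    obtain ⟨w, rfl⟩ := mkA_surj a
    exact h.r0 w

theorem Dt.fin [Finite Γ] (h : Dt G l gm y0 s r) : Finite (AA s r) := by
  have hfin : (Set.range fun γ : Γ => ‖G.f (γ • G.x0)‖ / ‖y0‖).Finite := Set.finite_range _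
  have hfin2 : (Set.range fun γ : Γ => -(‖G.f (γ • G.x0)‖ / ‖y0‖)).Finite := Set.finite_range _
  have h1 : {a : ℤˣ × ℝ | ∃ w : List (Fin d), a = ((w.map s).prod, r w)}.Finite := by
    refine ((Set.finite_univ (α := ℤˣ)).prod (hfin.union hfin2)).subset ?_
    rintro _ ⟨w, rfl⟩
    refine ⟨Set.mem_univ _, ?_⟩
    have hy : 0 < ‖y0‖ := norm_pos_iff.2 h.ne
    have h2 : ‖G.f (rw' G w • G.x0)‖ = |r w| * ‖y0‖ := by
      rw [h.rf, norm_smul, LinearIsometryEquiv.norm_map, Real.norm_eq_abs]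
    have h3 : ‖G.f (rw' G w • G.x0)‖ / ‖y0‖ = |r w| := by
      rw [h2, mul_div_assoc, div_self hy.ne', mul_one]
    rcases le_total 0 (r w) with h4 | h4
    · left
      refine ⟨rw' G w, ?_⟩
      simp only
      rw [h3, abs_of_nonneg h4]
    · right
      refine ⟨rw' G w, ?_⟩
      simp only
      rw [h3, abs_of_nonpos h4, neg_neg]
  exact h1.to_subtype

theorem Dt.pm_one [Finite Γ] (h : Dt G l gm y0 s r) (j : Fin d) (hj : FOL.bd k ≤ j.val + 20) :
    h.pm j = 1 := by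
  have hl := h.top.lk
  have hl5 := h.top.l5
  have hj1 : 1 ≤ j.val := by omega
  have hN : G.ρ j ∈ G.N := h.top.up (G.ρ_mem_up (by omega))
  have hg : gm j = G.R 1 (G.ρ j) := h.gens.inN j hj1 j.2 hN
  ext a
  obtain ⟨w, rfl⟩ := mkA_surj a
  have h2 : mkA s r (j :: w) = mkA s r w := by
    rw [mkA_eq]
    constructor
    · rw [List.map_cons, List.prod_cons, h.s1 j hj1, one_mul]
    · have h3 := h.rf (j :: w)
      rw [rw_cons, mul_smul, ← R1 hN, h.rf w, map_smul, ← hg, ← gw_cons] at h3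
      exact (h.inj h3).symm
  rw [h.pm_mk, h2]
  rfl

end MIXG

open MIXG in
theorem t_MIXG : M_MIXG := by
  intro hbe d k Γ _ _ X _ G l hT gm hG y0 hy hy0 s hs htr
  have hex : ∀ w : List (Fin d), ∃ r : ℝ, r ≠ 0 ∧
      G.f (rw' G w • G.x0) = r • gw gm w y0 := by
    intro w
    obtain ⟨r, h1, h2⟩ := hG.word y0 hy hy0 w
    rw [rw_eq, gw_eq] at h2
    exact ⟨r, h1, h2⟩
  choose r hr0 hrf using hex
  have htr : ∀ w w' : List (Fin d), (w.map s).prod = (w'.map s).prod →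
      ∃ x ∈ Subgroup.closure (TT G 0 l), G.R 1 x (gw gm w y0) = gw gm w' y0 := by
    intro w w' hw
    obtain ⟨x, hx, hx'⟩ := htr w w' hw
    rw [gw_eq, gw_eq] at hx'
    exact ⟨x, hx, hx'⟩
  have h : Dt G l gm y0 s r := ⟨hT, hG, hy, hy0, hs, htr, hbe, hr0, hrf⟩
  refine ⟨AA s r, h.mix, fun a => a.1.1, h.fin, fun j hj => h.pm_one j hj, ?_, ?_, ?_⟩
  · intro j a
    obtain ⟨w, rfl⟩ := mkA_surj a
    change (h.pm j (mkA s r w)).1.1 = s j * (mkA s r w).1.1
    rw [h.pm_mk]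
    change ((j :: w).map s).prod = s j * (w.map s).prod
    rw [List.map_cons, List.prod_cons]
  · intro a b h1 h2
    exact Subtype.ext (Prod.ext h1 h2)
  · intro w
    rw [rw_eq, gw_eq]
    change G.f (rw' G w • G.x0) = ((w.map h.pm).prod (mkA s r [])).1.2 • gw gm w y0
    rw [h.prod_mk, h.rf]
    rfl

end

end FOK.L
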