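import Pool.Agent.FOL.FStmts
import Pool.Agent.FO2.AUA
import Pool.Agent.FO2.AUD

/-!
# Position of the base vertex (10.5)
-/

namespace FOK.L

open Lib_helper64.FO FO2
open scoped RealInnerProductSpace

namespace POS

/-- a subspace invariant under the reflection in `a` contains `a` or is orthogonal to it -/
theorem mem_or_perp {d : ℕ} {a : E d} {L : Submodule ℝ (E d)}
    (h : ∀ w ∈ L, sref a w ∈ L) : a ∈ L ∨ a ∈ Lᗮ := by
  by_cases h1 : ∃ w ∈ L, ⟪a, w⟫ ≠ 0
  · left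
    obtain ⟨w, hw, hne⟩ := h1
    have h2 : (2 * ⟪a, w⟫) • a ∈ L := by
      have h3 := L.sub_mem hw (h w hw)
      have h4 : w - sref a w = (2 * ⟪a, w⟫) • a := by
        rw [sref]; abel
      rwa [h4] at h3
    exact (L.smul_mem_iff (mul_ne_zero two_ne_zero hne)).1 h2
  · right
    push Not at h1
    rw [Submodule.mem_orthogonal]
    intro w hw
    rw [real_inner_comm]
    exact h1 w hw

/-- the elements of `K` preserve the roots -/
theorem pres_of_gen {d : ℕ} {S : Set (E d ≃ₗᵢ[ℝ] E d)} {Φ : Set (E d)}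
    (h : ∀ g ∈ S, (∀ a ∈ Φ, g a ∈ Φ) ∧ ∀ a ∈ Φ, g⁻¹ a ∈ Φ) :
    ∀ g ∈ Subgroup.closure S, (∀ a ∈ Φ, g a ∈ Φ) ∧ ∀ a ∈ Φ, g⁻¹ a ∈ Φ := by
  intro g hg
  refine Subgroup.closure_induction (p := fun g _ => (∀ a ∈ Φ, g a ∈ Φ) ∧ ∀ a ∈ Φ, g⁻¹ a ∈ Φ)
    ?_ ?_ ?_ ?_ hg
  · intro x hx
    exact h x hx
  · constructor
    · intro a ha
      exact ha
    · intro a ha
      rw [inv_one]
      exact ha
  · intro x y _ _ hx hy
    constructor
    · intro a ha
      exact hx.1 _ (hy.1 a ha)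
    · intro a ha
      rw [mul_inv_rev]
      exact hy.2 _ (hx.2 a ha)
  · intro x _ hx
    constructor
    · exact hx.2
    · intro a ha
      rw [inv_inv]
      exact hx.1 a ha

/-- the elements of `K` fix `y` -/
theorem fix_of_gen {d : ℕ} {S : Set (E d ≃ₗᵢ[ℝ] E d)} {y : E d} (h : ∀ g ∈ S, g y = y) :
    ∀ g ∈ Subgroup.closure S, g y = y := by
  intro g hg
  refine Subgroup.closure_induction (p := fun g _ => g y = y) ?_ ?_ ?_ ?_ hg
  · exact h
  · rfl
  · intro x z _ _ hx hz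
    change x (z y) = y
    rw [hz, hx]
  · intro x _ hx
    have h1 : x⁻¹ (x y) = y := by
      change (x⁻¹ * x) y = y
      rw [inv_mul_cancel]
      rfl
    rwa [hx] at h1

section simplex

variable {d : ℕ} {v : Fin (d + 1) → E d}

/-- the inner products of differences of vertices with a sum of vertices -/
theorem inner_sum (hv : ∀ i j, ⟪v i, v j⟫ = if i = j then (1 : ℝ) else -1 / d)
    (B : Finset (Fin (d + 1))) (i : Fin (d + 1)) :
    ⟪v i, ∑ p ∈ B, v p⟫ = (if i ∈ B then (1 + 1 / d : ℝ) else 0) - B.card / d := by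
  classical
  rw [_root_.inner_sum]
  have h1 : ∀ p, ⟪v i, v p⟫ = (if i = p then (1 + 1 / d : ℝ) else 0) - 1 / d := by
    intro p
    rw [hv]
    split_ifs
    · ring
    · ring
  simp_rw [h1]
  rw [Finset.sum_sub_distrib, Finset.sum_ite_eq, Finset.sum_const, nsmul_eq_mul]
  ring

theorem inner_diff (hv : ∀ i j, ⟪v i, v j⟫ = if i = j then (1 : ℝ) else -1 / d)
    {i j p q : Fin (d + 1)} (h1 : i ≠ p) (h2 : i ≠ q) (h3 : j ≠ p) (h4 : j ≠ q) :
    ⟪v i - v j, v p - v q⟫ = 0 := by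
  rw [inner_sub_left, inner_sub_right, inner_sub_right, hv, hv, hv, hv, if_neg h1, if_neg h2,
    if_neg h3, if_neg h4]
  ring

theorem diff_ne (hv : ∀ i j, ⟪v i, v j⟫ = if i = j then (1 : ℝ) else -1 / d) (hd : 0 < d)
    {i j : Fin (d + 1)} (h : i ≠ j) : v i - v j ≠ 0 := by
  intro h0
  have h1 : ⟪v i, v i - v j⟫ = (0 : ℝ) := by rw [h0, inner_zero_right]
  rw [inner_sub_right, hv, hv, if_pos rfl, if_neg h] at h1
  have h2 : (0 : ℝ) < d := by exact_mod_cast hd
  have h3 : (0 : ℝ) < 1 / d := by positivity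
  have h4 : (1 : ℝ) - -1 / d = 1 + 1 / d := by ring
  rw [h4] at h1
  linarith

end simplex

/-- type `A`: the second case of 7.3 is impossible -/
theorem no_half {d : ℕ} (hd : 5 ≤ d) {v : Fin (d + 1) → E d} {Φ : Set (E d)} {y : E d}
    (hv : ∀ i j, ⟪v i, v j⟫ = if i = j then (1 : ℝ) else -1 / d)
    (hΦ : ∀ a ∈ Φ, ∃ i j, i ≠ j ∧ ∃ t : ℝ, 0 < t ∧ a = t • (v i - v j))
    (hy : ‖y‖ = 1) (hirr : IrrRS Φ) (hspan : Submodule.span ℝ Φ = (ℝ ∙ y)ᗮ)
    (B : Finset (Fin (d + 1))) (c : ℝ) (hB : 2 * B.card = d + 1) (hc : y = c • ∑ i ∈ B, v i) :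
    False := by
  classical
  have hd0 : (0 : ℝ) < d := by exact_mod_cast (show 0 < d by omega)
  have hc0 : c ≠ 0 := by
    rintro rfl
    rw [zero_smul] at hc
    rw [hc, norm_zero] at hy
    exact zero_ne_one hy
  -- differences orthogonal to `y`
  have horth : ∀ i j, ⟪v i - v j, y⟫ = 0 ↔ (i ∈ B ↔ j ∈ B) := by
    intro i j
    rw [hc, inner_smul_right, inner_sub_left, inner_sum hv, inner_sum hv]
    have h1 : (1 + 1 / d : ℝ) ≠ 0 := by positivity
    by_cases hi : i ∈ B <;> by_cases hj : j ∈ B <;> simp [hi, hj, hc0]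
    · rw [show (1 + (d : ℝ)⁻¹) = 1 + 1 / d by ring]
      exact h1
    · intro h2
      apply h1
      rw [show (1 + 1 / (d : ℝ)) = 1 + (d : ℝ)⁻¹ by ring]
      linarith
  have hmem : ∀ w, w ∈ (ℝ ∙ y)ᗮ ↔ ⟪w, y⟫ = 0 := by
    intro w
    rw [Submodule.mem_orthogonal_singleton_iff_inner_left]
  let L : Submodule ℝ (E d) := Submodule.span ℝ {w | ∃ i ∈ B, ∃ j ∈ B, w = v i - v j}
  have hL : ∀ p q, p ∉ B → q ∉ B → v p - v q ∈ Lᗮ := by
    intro p q hp hq
    rw [Submodule.mem_orthogonal]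
    intro u hu
    refine Submodule.span_induction (p := fun u _ => ⟪u, v p - v q⟫ = (0 : ℝ)) ?_ ?_ ?_ ?_ hu
    · rintro _ ⟨i, hi, j, hj, rfl⟩
      exact inner_diff hv (fun h => hp (h ▸ hi)) (fun h => hq (h ▸ hi)) (fun h => hp (h ▸ hj))
        (fun h => hq (h ▸ hj))
    · exact inner_zero_left _
    · intro x z _ _ hx hz
      rw [inner_add_left, hx, hz, add_zero]
    · intro r x _ hx
      rw [inner_smul_left, hx, mul_zero]
  have hcases : ∀ a ∈ Φ, a ∈ L ∨ a ∈ Lᗮ := by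
    intro a ha
    obtain ⟨i, j, hij, t, ht, rfl⟩ := hΦ a ha
    have h1 : t • (v i - v j) ∈ (ℝ ∙ y)ᗮ := by
      rw [← hspan]
      exact Submodule.subset_span ha
    rw [hmem, inner_smul_left] at h1
    have h2 : ⟪v i - v j, y⟫ = 0 := by
      rcases mul_eq_zero.1 h1 with h | h
      · exact absurd h (by simpa using ht.ne')
      · exact h
    rw [horth] at h2
    by_cases hi : i ∈ B
    · left
      exact L.smul_mem _ (Submodule.subset_span ⟨i, hi, j, h2.1 hi, rfl⟩)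
    · right
      exact Lᗮ.smul_mem _ (hL i j hi fun h => hi (h2.2 h))
  rcases hirr L hcases with h | h
  · -- two elements outside `B`
    have h1 : 1 < Bᶜ.card := by
      rw [Finset.card_compl, Fintype.card_fin]
      omega
    obtain ⟨p, hp, q, hq, hpq⟩ := Finset.one_lt_card.1 h1
    rw [Finset.mem_compl] at hp hq
    have h2 : v p - v q ∈ L := by
      have h3 : v p - v q ∈ (ℝ ∙ y)ᗮ := by
        rw [hmem, horth]
        exact ⟨fun h => absurd h hp, fun h => absurd h hq⟩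
      rw [← hspan] at h3
      exact (Submodule.span_le.2 h) h3
    have h3 := hL p q hp hq
    have h4 : ⟪v p - v q, v p - v q⟫ = 0 := (Submodule.mem_orthogonal _ _).1 h3 _ h2
    exact diff_ne hv (by omega) hpq (inner_self_eq_zero.1 h4)
  · have h1 : 1 < B.card := by omega
    obtain ⟨p, hp, q, hq, hpq⟩ := Finset.one_lt_card.1 h1
    have h2 : v p - v q ∈ Lᗮ := by
      have h3 : v p - v q ∈ (ℝ ∙ y)ᗮ := by
        rw [hmem, horth]
        exact ⟨fun _ => hq, fun _ => hp⟩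
      rw [← hspan] at h3
      exact (Submodule.span_le.2 h) h3
    have h3 : v p - v q ∈ L := Submodule.subset_span ⟨p, hp, q, hq, rfl⟩
    have h4 : ⟪v p - v q, v p - v q⟫ = 0 := (Submodule.mem_orthogonal _ _).1 h2 _ h3
    exact diff_ne hv (by omega) hpq (inner_self_eq_zero.1 h4)

end POS

open POS in
theorem t_POS : M_POS := by
  intro hTI hVA hVD d k Γ _ _ X _ G l hT y0 hy hn
  have hd5 : 5 ≤ d := by have := hT.ld; omega
  have hT1 := hTI d k Γ X G l hT 1 1 (by have := hT.l5; omega)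
  have hT0 := hTI d k Γ X G l hT 1 0 (by omega)
  have hy0 : y0 ≠ 0 := by
    rintro rfl
    rw [norm_zero] at hn
    exact zero_ne_one hn
  have hV : G.V 1 1 = ℝ ∙ y0 := by
    symm
    apply Submodule.eq_of_le_of_finrank_eq
    · rw [Submodule.span_singleton_le_iff_mem]
      exact hy
    · rw [hT.dimV 1 1 (by omega), finrank_span_singleton hy0]
  have hU : G.U 1 1 = (ℝ ∙ y0)ᗮ := by
    rw [KGeo.U, hV]
  have hspan : Submodule.span ℝ (Ph G 1 1 l) = (ℝ ∙ y0)ᗮ := by rw [hT1.span, hU]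
  have hsub : ∀ a ∈ Ph G 1 1 l, a ∈ Ph G 1 0 l := by
    rintro a ⟨ha, x, ⟨γ, hγ, hx⟩, hr⟩
    exact ⟨ha, x, ⟨γ, G.mem_up_zero γ, hx⟩, hr⟩
  let K := KK G 1 1
  have hfix : ∀ h ∈ K, h y0 = y0 := by
    refine fix_of_gen ?_
    rintro _ ⟨n, hn, rfl⟩
    exact hy n hn
  have hpres : ∀ h ∈ K, ∀ a ∈ Ph G 1 0 l, h a ∈ Ph G 1 0 l := by
    intro h hh
    refine (pres_of_gen (S := {h | ∃ n ∈ G.Ni 1, G.R 1 n = h}) ?_ h hh).1
    rintro _ ⟨n, hn, rfl⟩
    have hn0 : n ∈ G.Ni 0 := G.Ni_anti (by omega) hn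
    refine ⟨fun a ha => hT0.inv n hn0 a ha, fun a ha => ?_⟩
    rw [← G.R_inv 1 hn0.1]
    exact hT0.inv _ (inv_mem hn0) a ha
  have hstb : Stb d ⊤ K y0 := by
    refine ⟨trivial, hn, hfix, fun _ _ _ _ => trivial, ?_⟩
    intro L hL hinv
    rw [top_inf_eq] at hL ⊢
    have h1 : ∀ a ∈ Ph G 1 1 l, a ∈ L ∨ a ∈ Lᗮ := by
      intro a ha
      obtain ⟨hna, x, hx, hr⟩ := ha
      apply mem_or_perp
      intro w hw
      rw [← hr w]
      exact hinv _ (Subgroup.subset_closure ⟨x, hT1.TN hx, rfl⟩) w hw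
    rcases hT1.irr L h1 with h | h
    · right
      apply le_antisymm hL
      rw [← hspan]
      exact Submodule.span_le.2 h
    · left
      rw [Submodule.eq_bot_iff]
      intro w hw
      have h2 : w ∈ Lᗮ := by
        have h3 : w ∈ (ℝ ∙ y0)ᗮ := hL hw
        rw [← hspan] at h3
        exact (Submodule.span_le.2 h) h3
      exact inner_self_eq_zero.1 ((Submodule.mem_orthogonal _ _).1 h2 w hw)
  have hfr : Module.finrank ℝ (⊤ : Submodule ℝ (E d)) = d := by
    rw [finrank_top, finrank_euclideanSpace_fin]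
  constructor
  · intro v hv
    have hP : PermA K v := fun h hh => autA d _ v hd5 hv h (hpres h hh)
    rcases hVA d d ⊤ K v y0 (by omega) hfr (fun _ => trivial) hv.1 hP hstb with h | ⟨B, c, hB, hc⟩
    · exact h
    · exfalso
      refine no_half hd5 hv.1 (fun a ha => ?_) hn hT1.irr hspan B c hB hc
      obtain ⟨i, j, hij, t, ht, -, h⟩ := (hv.2 a).1 (hsub a ha)
      exact ⟨i, j, hij, t, ht, h⟩
  · intro u hu
    have hP : PermD K (fun i => u i) := fun h hh => autD d _ u hd5 hu h (hpres h hh)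
    exact hVD d d ⊤ K (fun i => u i) y0 (by omega) hfr (fun _ => trivial) u.orthonormal hP hstb

end FOK.L
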