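import Pool.Agent.FOL.MStmts
import Pool.Agent.FOI.AStmts2

/-!
# Statements of the modules, part 2: sections 6.5 - 7.3 of `Pool/Agent/FOL/PAPER.md`

Everything is in terms of the core `N` again (`G.N`, `G.Ni`, `G.V`, `G.D`, `G.Y`), as in
`Pool/Agent/FOI/AStmts2.lean`. The modules are changed copies of `Pool/Agent/FOI/X.lean`:
* the space `G.S q g j1` is replaced by the whole space, and `G.XX q j1` by all of `X`;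
* `ρ l ∈ N` for `j1 ≤ l ≤ j1 + 8`, and the isometry `κ_l` is `G.R g (G.ρ l)`;
* `j2 = j1 + 8` instead of `j1 + (6 * k + 3)`, `30 ≤ dim Y_p` instead of `12 * k + 20 ≤ dim Y_p`,
  `Y_p = U_p`, and `j2 ≤ q` instead of `j2 + (2 * k + 3) ≤ q`.
The definitions `FOI.IsK`, `FOI.KK`, `FOI.TT`, `FOI.Ph`, `FOI.Nine` are used.
-/

namespace FOL

open Lib_helper64.FO FO2 FOK FOI
open scoped RealInnerProductSpace

noncomputable section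

/-- The window `[u, q + 1]` in terms of `N`. -/
structure Win {d k : ℕ} {Γ : Type} [Group Γ] {X : Type} [MulAction Γ X] (G : AGeo d k Γ X)
    (u q : ℕ) : Prop where
  hu : 1 ≤ u
  huq : u ≤ q
  hq : q + 1 ≤ d
  nz : ∀ i, u ≤ i → i ≤ q → G.NZ i
  line : ∀ g i, u ≤ i → i ≤ q → Module.finrank ℝ (G.D g i) = 1
  plat : ∀ γ ∈ G.up u, ∃ a ∈ G.up (q + 1), ∃ n ∈ G.N, γ = a * n

/-- 6.5: the interval `[j1, j2]`, `j2 = j1 + 8` -/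
structure Sub {d k : ℕ} {Γ : Type} [Group Γ] {X : Type} [MulAction Γ X] (G : AGeo d k Γ X)
    (u q j1 j2 : ℕ) : Prop where
  win : Win G u q
  huj : u ≤ j1
  hj : j2 = j1 + 8
  hjq : j2 ≤ q
  hb : j1 + 40 ≤ bd (k - 1)
  hd : bd (k - 1) ≤ d
  rho : ∀ l, j1 ≤ l → l ≤ j2 → G.ρ l ∈ G.N
  dimY : ∀ g p, j1 ≤ p → p ≤ j2 → 30 ≤ Module.finrank ℝ (G.Y g p)
  D : ∀ g p, j1 ≤ p → p ≤ j2 → ∀ i, p ≤ i → i ≤ q → G.D g i ≤ G.Y g p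
  Y : ∀ g p, j1 ≤ p → p ≤ j2 → G.U g p = G.Y g p
  kap : ∀ g l, j1 ≤ l → l + 2 ≤ j2 → ∃ ε, IsK G g l (G.R g (G.ρ l)) ε

/-- 6.5. Let `j1 = u + 1`, `q' = j2 = j1 + 8` for the window `[u, q + 1]` of S_WIN; use `Sub G j1 q' j1 j2`.
`G.H.index ≤ k - 1` and `bd` is monotone; if `bd (k - 1) ≤ d` then `bd G.H.index ≤ d`. `NZ i` since
`ρ i ∈ N` is not in `up (i + 1)`; `plat` since `ρ i ∈ N` for `u ≤ i ≤ q'`, and `N` is normal. -/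
def S_SUB : Prop :=
  ∀ (d k : ℕ) (Γ : Type) [Group Γ] (X : Type) [MulAction Γ X] (G : AGeo d k Γ X),
    bd (k - 1) ≤ d → ∃ u q j1 j2, Sub G u q j1 j2

def M_SUB : Prop := S_ST → S_DM → S_WIN → S_P1 → S_P2 → S_RN → S_VN → S_SUB

/-- 3.1, 3.2, 3.4 of FOK/PAPER.md, as `FOI.S_Y` -/
def S_Y : Prop :=
  ∀ (d k : ℕ) (Γ : Type) [Group Γ] (X : Type) [MulAction Γ X] (G : AGeo d k Γ X)
    (u q : ℕ), Win G u q → ∀ (g : Γ) (p : ℕ), u ≤ p → p ≤ q →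
    (∀ B ≤ G.Y g p, (∀ n ∈ G.Ni p, ∀ w ∈ B, G.R g n w ∈ B) → B = ⊥ ∨ B = G.Y g p) ∧
    (∀ B : Submodule ℝ (E d), (∀ n ∈ G.Ni p, ∀ w ∈ B, G.R g n w ∈ B) →
      ∀ i, p ≤ i → i ≤ q → G.D g i ≤ B ∨ G.D g i ≤ Bᗮ) ∧
    ∀ A : E d →ₗ[ℝ] E d, (∀ w ∈ G.Y g p, A w ∈ G.Y g p) →
      (∀ n ∈ G.Ni p, ∀ w ∈ G.Y g p, A (G.R g n w) = G.R g n (A w)) →
      ∃ c : ℝ, ∀ w ∈ G.Y g p, A w = c • w

/-- The plane `D_i + D_{i+1}` in the frames `g` and `g ρ_i`, and the decomposition of `V_j`. -/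
def S_PL : Prop :=
  ∀ (d k : ℕ) (Γ : Type) [Group Γ] (X : Type) [MulAction Γ X] (G : AGeo d k Γ X)
    (u q : ℕ), Win G u q → ∀ (g : Γ),
    (∀ i, u ≤ i → i < q →
      G.D (g * G.ρ i) i ⊔ G.D (g * G.ρ i) (i + 1) = G.D g i ⊔ G.D g (i + 1) ∧
      G.D (g * G.ρ i) i ≠ G.D g i ∧
      (G.D (g * G.ρ i) i = G.D g (i + 1) → G.D (g * G.ρ i) (i + 1) = G.D g i)) ∧
    (∀ i j, u ≤ i → i < j → j ≤ q → G.D g i ≤ (G.D g j)ᗮ ∧ G.D g j ≤ (G.D g i)ᗮ) ∧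
    ∀ i j, u ≤ i → i ≤ j → j ≤ q + 1 → G.V g j = G.V g i ⊔ ⨆ m ∈ Finset.Ico i j, G.D g m

def M_PL : Prop := FOI.S_STEP → S_PL

/-! ### 7.1: the roots -/

/-- `κ` is the isometry `R g (ρ l)` -/
def IsKap {d k : ℕ} {Γ : Type} [Group Γ] {X : Type} [MulAction Γ X] (G : AGeo d k Γ X)
    (g : Γ) (l : ℕ) (κ : E d ≃ₗᵢ[ℝ] E d) (ε : ℝ) : Prop :=
  κ = G.R g (G.ρ l) ∧ IsK G g l κ ε

/-- the group of 7.4 of FOK/PAPER.md -/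
def GG {d k : ℕ} {Γ : Type} [Group Γ] {X : Type} [MulAction Γ X] (G : AGeo d k Γ X)
    (j1 : ℕ) (g : Γ) : Subgroup (E d ≃ₗᵢ[ℝ] E d) :=
  Subgroup.closure ({h | ∃ n ∈ G.Ni j1, G.R g n = h} ∪ {LinearIsometryEquiv.neg ℝ})

/-- `KK` is irreducible on `Y`, and satisfies `Stb` for a unit vector of `D_p` -/
def S_KK : Prop :=
  ∀ (d k : ℕ) (Γ : Type) [Group Γ] (X : Type) [MulAction Γ X] (G : AGeo d k Γ X)
    (u q j1 j2 : ℕ), Sub G u q j1 j2 → ∀ g p, j1 ≤ p → p ≤ j2 →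
    (∀ h, h ∈ KK G g p ↔ ∃ n ∈ G.Ni p, G.R g n = h) ∧
    (∀ h ∈ KK G g p, ∀ w ∈ G.Y g p, h w ∈ G.Y g p) ∧ Irred (KK G g p) (G.Y g p) ∧
    (p < j2 → ∀ e ∈ G.D g p, ‖e‖ = 1 → Stb d (G.Y g p) (KK G g (p + 1)) e ∧
      G.Y g p ⊓ (ℝ ∙ e)ᗮ = G.Y g (p + 1))

def M_KK : Prop := S_Y → S_KK

/-- the root system `Φ` in `Y_{j1}` -/
def S_E0 : Prop :=
  ∀ (d k : ℕ) (Γ : Type) [Group Γ] (X : Type) [MulAction Γ X] (G : AGeo d k Γ X)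
    (u q j1 j2 : ℕ), Sub G u q j1 j2 → ∀ g, ∃ (a : E d) (Φ : Set (E d)),
    ‖a‖ = 1 ∧ a ∈ Φ ∧ a ∈ G.D g j1 ⊔ G.D g (j1 + 1) ∧ a ∉ G.D g j1 ∧ a ∉ G.D g (j1 + 1) ∧
    KK G g (j1 + 1) ≤ GG G j1 g ∧ Hom d (G.Y g j1) (GG G j1 g) Φ

def M_E0 : Prop := S_Y → S_PL → S_KK → S_E0

/-- what we want to know about `κ_l` -/
structure RootAt {d k : ℕ} {Γ : Type} [Group Γ] {X : Type} [MulAction Γ X] (G : AGeo d k Γ X)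
    (g : Γ) (l : ℕ) (a : E d) : Prop where
  norm : ‖a‖ = 1
  mem : a ∈ G.D g l ⊔ G.D g (l + 1)
  n1 : a ∉ G.D g l
  n2 : a ∉ G.D g (l + 1)
  act : ∀ v, G.R g (G.ρ l) v = sref a v

/-- all `l` in `[b, j2 - 2]` have a root in the frame `g` -/
def RootsFrom {d k : ℕ} {Γ : Type} [Group Γ] {X : Type} [MulAction Γ X] (G : AGeo d k Γ X)
    (j2 b : ℕ) (g : Γ) : Prop :=
  (∀ l, b ≤ l → l + 2 ≤ j2 → ∃ a, RootAt G g l a) ∧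
    ∀ l a a', b ≤ l → l + 3 ≤ j2 → RootAt G g l a → RootAt G g (l + 1) a' →
      ⟪a, a'⟫ ^ 2 = (1 / 4 : ℝ)

/-- case (II) -/
def CaseII {d k : ℕ} {Γ : Type} [Group Γ] {X : Type} [MulAction Γ X] (G : AGeo d k Γ X)
    (j1 j2 : ℕ) (g : Γ) : Prop :=
  ∃ e : ℕ → E d, (∀ l, j1 ≤ l → l + 1 ≤ j2 → e l ∈ G.D g l ∧ ‖e l‖ = 1) ∧
    ∀ l, j1 ≤ l → l + 2 ≤ j2 → ∃ κ ε, IsKap G g l κ ε ∧ κ (e l) = e (l + 1) ∧
      κ (e (l + 1)) = e l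

/-- type `A`, the vector `e ∈ D_{j1}` is not of the form `(1^m, -1^m)` -/
def S_EA0 : Prop :=
  ∀ (d k : ℕ) (Γ : Type) [Group Γ] (X : Type) [MulAction Γ X] (G : AGeo d k Γ X)
    (u q j1 j2 : ℕ), Sub G u q j1 j2 → ∀ g (a e : E d) (Φ : Set (E d)) (n : ℕ)
    (v : Fin (n + 1) → E d), Module.finrank ℝ (G.Y g j1) = n → a ∈ Φ →
    a ∈ G.D g j1 ⊔ G.D g (j1 + 1) → a ∉ G.D g j1 → a ∉ G.D g (j1 + 1) →
    ModA d n (G.Y g j1) Φ v → PermA (GG G j1 g) v → e ∈ G.D g j1 → ‖e‖ = 1 →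
    ∀ (B : Finset (Fin (n + 1))) (c : ℝ), 2 * B.card = n + 1 → e ≠ c • ∑ i ∈ B, v i

def M_EA0 : Prop := S_PL → S_KK → S_EA0

/-- case (I), type `A` -/
def S_EA : Prop :=
  ∀ (d k : ℕ) (Γ : Type) [Group Γ] (X : Type) [MulAction Γ X] (G : AGeo d k Γ X)
    (u q j1 j2 : ℕ), Sub G u q j1 j2 → ∀ g (e : E d) (n : ℕ)
    (v : Fin (n + 1) → E d), Module.finrank ℝ (G.Y g j1) = n → (∀ i, v i ∈ G.Y g j1) →
    (∀ i j, ⟪v i, v j⟫ = if i = j then (1 : ℝ) else -1 / n) → PermA (GG G j1 g) v →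
    e ∈ G.D g j1 → (∃ i, e = v i ∨ e = -v i) → RootsFrom G j2 (j1 + 1) g

def M_EA : Prop := S_PL → S_EA

/-- case (I), type `D` and frames -/
def S_ED : Prop :=
  ∀ (d k : ℕ) (Γ : Type) [Group Γ] (X : Type) [MulAction Γ X] (G : AGeo d k Γ X)
    (u q j1 j2 : ℕ), Sub G u q j1 j2 → ∀ g (e : E d) (n : ℕ)
    (w : Fin n → E d), Module.finrank ℝ (G.Y g j1) = n → (∀ i, w i ∈ G.Y g j1) →
    Orthonormal ℝ w → PermD (GG G j1 g) w →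
    e ∈ G.D g j1 → ‖e‖ = 1 → (∀ i, ⟪e, w i⟫ ^ 2 = (1 / n : ℝ)) → RootsFrom G j2 (j1 + 1) g

def M_ED : Prop := S_PL → S_ED

/-- case (II) -/
def S_EX : Prop :=
  ∀ (d k : ℕ) (Γ : Type) [Group Γ] (X : Type) [MulAction Γ X] (G : AGeo d k Γ X)
    (u q j1 j2 : ℕ), Sub G u q j1 j2 → ∀ g (e : E d) (n : ℕ)
    (w : Fin n → E d), Module.finrank ℝ (G.Y g j1) = n → (∀ i, w i ∈ G.Y g j1) →
    Orthonormal ℝ w → PermD (GG G j1 g) w →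
    e ∈ G.D g j1 → (∃ i, e = w i ∨ e = -w i) → CaseII G j1 j2 g

def M_EX : Prop := S_PL → S_EX

/-- 7.5 of FOK/PAPER.md -/
def S_EP : Prop :=
  ∀ (d k : ℕ) (Γ : Type) [Group Γ] (X : Type) [MulAction Γ X] (G : AGeo d k Γ X)
    (u q j1 j2 : ℕ), Sub G u q j1 j2 → ∀ g, CaseII G j1 j2 g →
    RootsFrom G j2 (j1 + 2) g

def M_EP : Prop := S_PL → S_EP

/-- 7.1 -/
def S_RUN : Prop :=
  ∀ (d k : ℕ) (Γ : Type) [Group Γ] (X : Type) [MulAction Γ X] (G : AGeo d k Γ X)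
    (u q j1 j2 : ℕ), Sub G u q j1 j2 → ∀ g, RootsFrom G j2 (j1 + 2) g

def M_RUN : Prop := FOK.S_COMP → FOK.S_SL → FOK.S_AD → FOK.S_AUT → FOK.S_FR → FOK.S_VECA →
  FOK.S_VECD → S_KK → S_E0 → S_EA0 → S_EA → S_ED → S_EX → S_EP → S_RUN

/-- `(ρ_l ρ_{l+1})^3 = 1`: `R 1` of it is `1` by `⟪a, a'⟫ ^ 2 = 1 / 4` (see `FOI/N1.lean`), and
`AGeo.eq_one_of_R`. -/
def S_N1 : Prop :=
  ∀ (d k : ℕ) (Γ : Type) [Group Γ] (X : Type) [MulAction Γ X] (G : AGeo d k Γ X)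
    (u q j1 j2 : ℕ), Sub G u q j1 j2 → (∀ g, RootsFrom G j2 (j1 + 2) g) →
    ∀ l, j1 + 2 ≤ l → l + 3 ≤ j2 → (G.ρ l * G.ρ (l + 1)) ^ 3 = 1

/-! ### 7.2, 7.3 -/

def S_NINE : Prop :=
  ∀ (d k : ℕ) (Γ : Type) [Group Γ] (X : Type) [MulAction Γ X] (G : AGeo d k Γ X)
    (u q j1 j2 : ℕ), Sub G u q j1 j2 → (∀ g, RootsFrom G j2 (j1 + 2) g) →
    (∀ l, j1 + 2 ≤ l → l + 3 ≤ j2 → (G.ρ l * G.ρ (l + 1)) ^ 3 = 1) →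
    ∀ m, j1 + 3 ≤ m → m ≤ j1 + 5 → FOI.Nine G m

def M_NINE : Prop := FOK.S_COMP → FOK.S_SL → S_KK → S_PL → S_NINE

/-- what is known after section 9; `l = j1 + 5` -/
structure ATop {d k : ℕ} {Γ : Type} [Group Γ] {X : Type} [MulAction Γ X] (G : AGeo d k Γ X)
    (l : ℕ) : Prop where
  l5 : 5 ≤ l
  ld : l + 20 ≤ d
  lk : l + 20 ≤ bd (k - 1)
  up : G.up (l - 3) ≤ G.N
  nz : ∀ i, 1 ≤ i → i < d → G.NZ i
  /-- `ρ l` is a reflection in every frame -/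
  refl : ∀ g, ∃ a : E d, ‖a‖ = 1 ∧ ∀ v, G.R g (G.ρ l) v = sref a v
  irr : ∀ g, IrrRS (Ph G g l l)
  dim : ∀ g, d ≤ Module.finrank ℝ (Submodule.span ℝ (Ph G g l l)) + l
  dimV : ∀ g i, 1 ≤ i → i ≤ d → i ≤ Module.finrank ℝ (G.V g i) + 1 ∧ Module.finrank ℝ (G.V g i) ≤ i

/-- The top. `up (l - 3) ≤ N`: `up (j1 + 4) ≤ N` by FOI.S_FS for `m = j1 + 3`, and `ρ (j1 + 2)`,
`ρ (j1 + 3)` are in `N`. No zeros: second part of FOI.S_NZ. `dimV`: the dimensions of the `V_i`,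
`1 ≤ i ≤ d`, increase by at least `1` in each step, and `V_d` is the whole space. `dim`: the span is
`Y g l = U g l` (`Nine.span`, `Sub.Y`) and `dim V_l ≤ l`. See `FOI/TOP.lean`. -/
def S_TOP : Prop :=
  ∀ (d k : ℕ) (Γ : Type) [Group Γ] (X : Type) [MulAction Γ X] (G : AGeo d k Γ X)
    (u q j1 j2 : ℕ), Sub G u q j1 j2 → ATop G (j1 + 5)

def M_TOP : Prop := FOI.S_NZ → FOI.S_STEP → S_RUN → S_N1 → S_NINE → FOI.S_FS → S_TOP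

/-- sections 1 - 9 -/
def S_ATOP : Prop :=
  ∀ (d k : ℕ) (Γ : Type) [Group Γ] (X : Type) [MulAction Γ X] (G : AGeo d k Γ X),
    bd (k - 1) ≤ d → ∃ l, ATop G l

end

end FOL
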