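import Pool.Agent.FOK.Stmts3b
import Pool.Agent.FOK.Stmts4
import Pool.Agent.FOL.NStmts

/-!
# Statements of the modules, finite polytopes, section 10 of `Pool/Agent/FOK/PAPER.md`, for `l + 20 ≤ d`

Changed copy of `Pool/Agent/FOK/Stmts3.lean`, in the namespace `FOK.L`; the other definitions of `FOK` are used.
-/

namespace FOK.L

open Lib_helper64.FO FO2
open FOL (bd)
open scoped RealInnerProductSpace Nat

noncomputable section

/-! ## Section 10: the top -/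

/-- what is known after section 9 -/
structure Top {d k : ℕ} {Γ : Type} [Group Γ] {X : Type} [MulAction Γ X] (G : KGeo d k Γ X)
    (l : ℕ) : Prop where
  l5 : 5 ≤ l
  ld : l + 20 ≤ d
  lk : l + 20 ≤ bd k
  up : G.up (l - 3) ≤ G.N
  nz : ∀ i, i < d → G.NZ i
  dimV : ∀ g i, i ≤ d → Module.finrank ℝ (G.V g i) = i
  W : ∀ g i, i < d → G.W g i = G.V g (i + 1)
  /-- `ρ l` is a reflection in every frame -/
  refl : ∀ g, ∃ a : E d, ‖a‖ = 1 ∧ ∀ v, G.R g (G.ρ l) v = sref a v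
  irr : ∀ g, IrrRS (Ph G g l l)
  span : ∀ g, Submodule.span ℝ (Ph G g l l) = G.U g l

def S_TI : Prop :=
  ∀ (d k : ℕ) (Γ : Type) [Group Γ] [Finite Γ] (X : Type) [MulAction Γ X] (G : KGeo d k Γ X)
    (l : ℕ), Top G l → ∀ g i, i ≤ l → TopI G l g i

/-- 10.3, first part: the type of the root system (FO2.rga, rgb, rgc, rgd, rg3a, rg3b, rg3c) -/
def S_TAD : Prop :=
  ∀ (d k : ℕ) (Γ : Type) [Group Γ] [Finite Γ] (X : Type) [MulAction Γ X] (G : KGeo d k Γ X)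
    (l : ℕ), Top G l → SL (Ph G 1 0 l) ∧ ((∃ v, IsA (Ph G 1 0 l) v) ∨ ∃ u, IsD (Ph G 1 0 l) u)

def M_TAD : Prop := S_TI → S_TAD

/-- 10.3, existence (by FO2.rg2), uniqueness, products -/
def S_BE1 : Prop :=
  ∀ (d k : ℕ) (Γ : Type) [Group Γ] [Finite Γ] (X : Type) [MulAction Γ X] (G : KGeo d k Γ X)
    (l : ℕ), Top G l →
    (∀ γ, ∃ β, IsB G l γ β) ∧
    (∀ γ β β', IsB G l γ β → IsB G l γ β' → (∀ v, β' v = β v) ∨ ∀ v, β' v = -β v) ∧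
    (∀ γ γ' β β', IsB G l γ β → IsB G l γ' β' → IsB G l (γ * γ') (β * β')) ∧
    ∀ n ∈ G.N, IsB G l n (G.R 1 n)

def M_BE1 : Prop := S_TI → S_TAD → S_BE1

/-- 10.3, properties of `β_γ` -/
def S_BE2 : Prop :=
  ∀ (d k : ℕ) (Γ : Type) [Group Γ] [Finite Γ] (X : Type) [MulAction Γ X] (G : KGeo d k Γ X)
    (l : ℕ), Top G l → ∀ γ β, IsB G l γ β →
      (∀ x ∈ Subgroup.closure (TT G 0 l), ∀ v, β (G.R 1 x v) = G.R 1 (γ * x * γ⁻¹) (β v)) ∧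
      (∀ n ∈ G.N, (∀ v, β (G.R 1 n v) = G.R 1 (γ * n * γ⁻¹) (β v)) ∨
        ∀ v, β (G.R 1 n v) = -G.R 1 (γ * n * γ⁻¹) (β v)) ∧
      (∀ n ∈ G.Ni 1, ∀ v, β (G.R 1 n v) = G.R 1 (γ * n * γ⁻¹) (β v)) ∧
      (∀ i v, β v ∈ G.V γ i ↔ v ∈ G.V 1 i) ∧
      ∀ a, β a ∈ Ph G 1 0 l ↔ a ∈ Ph G 1 0 l

def M_BE2 : Prop := S_TI → S_BE1 → S_BE2

/-- 10.4 -/
def S_GN1 : Prop :=
  ∀ (d k : ℕ) (Γ : Type) [Group Γ] [Finite Γ] (X : Type) [MulAction Γ X] (G : KGeo d k Γ X)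
    (l : ℕ), Top G l → ∃ gg, Gens G l gg

def M_GN1 : Prop := S_STEP → S_TI → S_BE1 → S_BE2 → S_GN1

/-- the sign of `g_0` can be chosen -/
def S_GN2 : Prop :=
  ∀ (d k : ℕ) (Γ : Type) [Group Γ] [Finite Γ] (X : Type) [MulAction Γ X] (G : KGeo d k Γ X)
    (l : ℕ), Top G l → ∀ gg, Gens G l gg →
    Gens G l (fun j => if j = 0 then (gg 0).trans (LinearIsometryEquiv.neg ℝ) else gg j)

/-- 10.5 -/
def S_POS : Prop :=
  ∀ (d k : ℕ) (Γ : Type) [Group Γ] [Finite Γ] (X : Type) [MulAction Γ X] (G : KGeo d k Γ X)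
    (l : ℕ), Top G l → ∀ y0 ∈ G.V 1 1, ‖y0‖ = 1 →
    (∀ v, IsA (Ph G 1 0 l) v → ∃ i, y0 = v i ∨ y0 = -v i) ∧
    ∀ u, IsD (Ph G 1 0 l) u → (∃ i, y0 = u i ∨ y0 = -u i) ∨ ∀ i, ⟪y0, u i⟫ ^ 2 = (1 / d : ℝ)

def M_POS : Prop := S_TI → S_VECA → S_VECD → S_POS

/-- 10.6, first part. `B i = {p | v p ∈ V 1 i}`. -/
def S_MA1 : Prop :=
  ∀ (d k : ℕ) (Γ : Type) [Group Γ] [Finite Γ] (X : Type) [MulAction Γ X] (G : KGeo d k Γ X)
    (l : ℕ), Top G l → ∀ gg, Gens G l gg → ∀ v, IsA (Ph G 1 0 l) v → (∃ i, v i ∈ G.V 1 1) →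
    ∃ (gm : ℕ → (E d ≃ₗᵢ[ℝ] E d)) (τ : ℕ → Equiv.Perm (Fin (d + 1))) (B : ℕ → Finset (Fin (d + 1))),
      Gens G l gm ∧ (∀ j, j < d → ∀ i, gm j (v i) = v (τ j i)) ∧
      (∀ i, i + 1 ≤ d → ∀ p, p ∈ B i ↔ v p ∈ G.V 1 i) ∧ PrmH (d + 1) τ B

def M_MA1 : Prop := S_GN2 → S_MA1

/-- 10.6 -/
def S_MA : Prop :=
  ∀ (d k : ℕ) (Γ : Type) [Group Γ] [Finite Γ] (X : Type) [MulAction Γ X] (G : KGeo d k Γ X)
    (l : ℕ), Top G l → ∀ gg, Gens G l gg → ∀ v, IsA (Ph G 1 0 l) v → (∃ i, v i ∈ G.V 1 1) →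
    ∃ v' gm, Gens G l gm ∧ IsA (Ph G 1 0 l) v' ∧ v' 0 ∈ G.V 1 1 ∧
      ∀ (j : Fin d) (i : Fin (d + 1)), gm j (v' i) = v' (Equiv.swap j.castSucc j.succ i)

def M_MA : Prop := S_PRM → S_MA1 → S_MA

/-- 10.7 -/
def S_MD : Prop :=
  ∀ (d k : ℕ) (Γ : Type) [Group Γ] [Finite Γ] (X : Type) [MulAction Γ X] (G : KGeo d k Γ X)
    (l : ℕ), Top G l → ∀ gg, Gens G l gg → ∀ u, IsD (Ph G 1 0 l) u → ∀ y0 ∈ G.V 1 1,
    (∀ i, ⟪y0, u i⟫ ^ 2 = (1 / d : ℝ)) →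
    ∃ (u' : OrthonormalBasis (Fin d) ℝ (E d)) (gm : ℕ → (E d ≃ₗᵢ[ℝ] E d)), Gens G l gm ∧
      IsD (Ph G 1 0 l) u' ∧ ∑ i, u' i ∈ G.V 1 1 ∧
      ∀ j i : Fin d, gm j (u' i) =
        if j.val = 0 then (if i = j then - u' i else u' i) else u' (Equiv.swap (prd j) j i)

/-- 10.8 -/
def S_MC : Prop :=
  ∀ (d k : ℕ) (Γ : Type) [Group Γ] [Finite Γ] (X : Type) [MulAction Γ X] (G : KGeo d k Γ X)
    (l : ℕ), Top G l → ∀ gg, Gens G l gg → ∀ u, IsD (Ph G 1 0 l) u → (∃ i, u i ∈ G.V 1 1) →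
    ∃ (u' : OrthonormalBasis (Fin d) ℝ (E d)) (gm : ℕ → (E d ≃ₗᵢ[ℝ] E d)), Gens G l gm ∧
      IsD (Ph G 1 0 l) u' ∧ (∀ h : 0 < d, u' ⟨0, h⟩ ∈ G.V 1 1) ∧
      ∀ j i : Fin d, gm j (u' i) =
        if h : j.val + 1 < d then u' (Equiv.swap j ⟨j.val + 1, h⟩ i)
        else (if i = j then - u' i else u' i)

/-! ### 10.9: the mixing datum -/

/-- 10.9: two words with the same sign whose points `g_w y0` are conjugate under the group
generated by the reflections -/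
def S_MIXG : Prop :=
  ∀ (d k : ℕ) (Γ : Type) [Group Γ] [Finite Γ] (X : Type) [MulAction Γ X] (G : KGeo d k Γ X)
    (l : ℕ), Top G l → ∀ gm, Gens G l gm → ∀ y0 ∈ G.V 1 1, y0 ≠ 0 →
    ∀ s : Fin d → ℤˣ, (∀ j, 1 ≤ j.val → s j = 1) →
    (∀ w w' : List (Fin d), (w.map s).prod = (w'.map s).prod →
      ∃ x ∈ Subgroup.closure (TT G 0 l),
        G.R 1 x ((w.map (fun j => gm j)).prod y0) = (w'.map (fun j => gm j)).prod y0) →
    ∃ (A : Type) (M : Mix d A) (p : A → ℤˣ), Finite A ∧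
      (∀ j : Fin d, bd k ≤ j.val + 20 → M.π j = 1) ∧
      (∀ j a, p (M.π j a) = s j * p a) ∧ (∀ a b, p a = p b → M.r a = M.r b → a = b) ∧
      ∀ w : List (Fin d), G.f ((w.map (fun j => G.ρ j)).prod • G.x0) =
        M.r ((w.map M.π).prod M.a0) • ((w.map (fun j => gm j)).prod y0)

def M_MIXG : Prop := S_BE2 → S_MIXG

/-- the hypothesis of S_MIXG, simplex -/
def S_TRA : Prop :=
  ∀ (d k : ℕ) (Γ : Type) [Group Γ] [Finite Γ] (X : Type) [MulAction Γ X] (G : KGeo d k Γ X)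
    (l : ℕ), Top G l → ∀ (gm : ℕ → (E d ≃ₗᵢ[ℝ] E d)) (v : Fin (d + 1) → E d),
    IsA (Ph G 1 0 l) v →
    (∀ (j : Fin d) (i : Fin (d + 1)), gm j (v i) = v (Equiv.swap j.castSucc j.succ i)) →
    ∀ w w' : List (Fin d), ∃ x ∈ Subgroup.closure (TT G 0 l),
      G.R 1 x ((w.map (fun j => gm j)).prod (v 0)) = (w'.map (fun j => gm j)).prod (v 0)

/-- the hypothesis of S_MIXG, cross-polytope -/
def S_TRC : Prop :=
  ∀ (d k : ℕ) (Γ : Type) [Group Γ] [Finite Γ] (X : Type) [MulAction Γ X] (G : KGeo d k Γ X)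
    (l : ℕ), Top G l → ∀ (gm : ℕ → (E d ≃ₗᵢ[ℝ] E d)) (u : OrthonormalBasis (Fin d) ℝ (E d)),
    IsD (Ph G 1 0 l) u →
    (∀ j i : Fin d, gm j (u i) = if h : j.val + 1 < d then u (Equiv.swap j ⟨j.val + 1, h⟩ i)
        else (if i = j then - u i else u i)) →
    ∀ (h : 0 < d) (w w' : List (Fin d)), ∃ x ∈ Subgroup.closure (TT G 0 l),
      G.R 1 x ((w.map (fun j => gm j)).prod (u ⟨0, h⟩)) =
        (w'.map (fun j => gm j)).prod (u ⟨0, h⟩)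

/-- the hypothesis of S_MIXG, cube -/
def S_TRD : Prop :=
  ∀ (d k : ℕ) (Γ : Type) [Group Γ] [Finite Γ] (X : Type) [MulAction Γ X] (G : KGeo d k Γ X)
    (l : ℕ), Top G l → ∀ (gm : ℕ → (E d ≃ₗᵢ[ℝ] E d)) (u : OrthonormalBasis (Fin d) ℝ (E d)),
    IsD (Ph G 1 0 l) u →
    (∀ j i : Fin d, gm j (u i) =
        if j.val = 0 then (if i = j then - u i else u i) else u (Equiv.swap (prd j) j i)) →
    ∀ w w' : List (Fin d),
      (w.map (fun j : Fin d => if j.val = 0 then (-1 : ℤˣ) else 1)).prod =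
        (w'.map (fun j : Fin d => if j.val = 0 then (-1 : ℤˣ) else 1)).prod →
      ∃ x ∈ Subgroup.closure (TT G 0 l),
        G.R 1 x ((w.map (fun j => gm j)).prod (∑ i, u i)) =
          (w'.map (fun j => gm j)).prod (∑ i, u i)

/-- The conclusion of sections 1 - 10. -/
def Concl {d k : ℕ} {Γ : Type} [Group Γ] {X : Type} [MulAction Γ X] (G : KGeo d k Γ X) : Prop :=
  ∃ (y0 : E d) (g : Fin d → (E d ≃ₗᵢ[ℝ] E d)) (A : Type) (M : Mix d A),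
    Finite A ∧ (∀ j : Fin d, bd k ≤ j.val + 20 → M.π j = 1) ∧
    ((SimplexModel y0 g ∧ Function.Injective M.r) ∨ (CrossModel y0 g ∧ Function.Injective M.r) ∨
      (CubeModel y0 g ∧ ∃ p : A → ℤˣ, (∀ j a, p (M.π j a) = if j.val = 0 then - p a else p a) ∧
        ∀ a b, p a = p b → M.r a = M.r b → a = b)) ∧
    ∀ w : List (Fin d), G.f ((w.map (fun j => G.ρ j)).prod • G.x0) =
      M.r ((w.map M.π).prod M.a0) • ((w.map g).prod y0)

def S_CONCL : Prop :=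
  ∀ (d k : ℕ) (Γ : Type) [Group Γ] [Finite Γ] (X : Type) [MulAction Γ X] (G : KGeo d k Γ X)
    (l : ℕ), 1 ≤ k → Top G l → Concl G

def M_CONCL : Prop := S_TAD → S_GN1 → S_POS → S_MA → S_MD → S_MC →
  S_MIXG → S_TRA → S_TRC → S_TRD → S_CONCL

/-! ## 7.5 of `Pool/Agent/FOL/PAPER.md`: from `AGeo` to `KGeo` -/

/-- the same realization, as `AGeo` and as `KGeo` -/
structure Same {d k k' : ℕ} {Γ : Type} [Group Γ] {X : Type} [MulAction Γ X] (G : KGeo d k Γ X)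
    (A : FOI.AGeo d k' Γ X) : Prop where
  ρ : A.ρ = G.ρ
  x0 : A.x0 = G.x0
  H : A.H = G.H
  f : A.f = G.f
  T : A.T = G.T

/-- For `v` orthogonal to all `f x - f y`: let `w` be the component of `f x` orthogonal to all
differences (it does not depend on `x`); `T h w = w`, since `T h` preserves the span of the
differences and its orthogonal complement and `T h (f x) = f (h x)`; and `v = t w + v'` with `v'`
orthogonal to `w`, so to all `f x`, so `T h v' = v'`. `noiso`: if `g (f x - f y) = f (γ x) - f (γ y)` then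
there is an isometry of `E d` that maps `f x` to `f (γ x)`, so `γ ∈ symGroup rk f`. -/
def S_KA : Prop :=
  ∀ (d k : ℕ), 1 ≤ d → 1 ≤ k → ∀ (P : Type) [PartialOrder P] [Finite P] (rk : P → ℤ),
    IsRegularPolytope d rk → ∀ f : P → E d, IsOrbitRealization rk f k →
    ∀ (C : Flag P) (ρ : ℕ → (P ≃o P)) (X : Type) [MulAction (P ≃o P) X] [Finite X]
      (G : KGeo d k (P ≃o P) X) (ι : X → P) (c : E d), KGeoOf rk f C ρ G ι c →
      ∃ A : FOI.AGeo d (k + 1) (P ≃o P) X, Same G A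

/-- `N`, `up i`, `V g i` (for `i ≥ 1`), `TT`, `Ph` are the same for `G` and `A`. Also `nz` for `i = 0`
(if `N ≤ up 1` then `N = 1` by `KGeo.L1`, but `ρ (l - 3) ∈ N`). `dimV`: `V g i < V g (i + 1)` for all
`i < d` (FOK.S_STEP or its proof), `V g d = ⊤`. `W`: by dimensions, see `FOK/TOP.lean`. `span`:
`span (Ph g l l) ≤ U g l`, and the dimensions are equal by `ATop.dim`. -/
def S_TOP : Prop :=
  ∀ (d k : ℕ) (Γ : Type) [Group Γ] [Finite Γ] (X : Type) [MulAction Γ X] (G : KGeo d k Γ X)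
    (A : FOI.AGeo d (k + 1) Γ X), Same G A → ∀ l, FOL.ATop A l → Top G l

def M_TOP : Prop := S_STEP → S_TOP

end

end FOK.L
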