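import Pool.Agent.FOL.FStmts

/-!
# Statements of the modules, part b

Changed copy of `Pool/Agent/FOK/Stmts3b.lean`, in the namespace `FOK.L`.
-/

namespace FOK.L

open Lib_helper64.FO FO2
open FOL (bd)
open scoped RealInnerProductSpace Nat

noncomputable section

/-! ## 10.8: the cross-polytope -/

/-- `g_j` is a signed permutation of the axes (FO2.autD), `V_i` is spanned by axes by induction:
`g_j u_j` is an axis in the plane `D_j + D_{j+1}`, not in `V_{j+1}`. `hi`: `g_j` commutes with `g_i`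
for `i ≥ j + 2`. `last`: `g_{d-1} = R 1 (ρ (d - 1)) ≠ 1`. -/
def S_MC1 : Prop :=
  ∀ (d k : ℕ) (Γ : Type) [Group Γ] [Finite Γ] (X : Type) [MulAction Γ X] (G : KGeo d k Γ X)
    (l : ℕ), Top G l → ∀ gg, Gens G l gg → ∀ u, IsD (Ph G 1 0 l) u → (∃ i, u i ∈ G.V 1 1) →
    ∃ (u' : OrthonormalBasis (Fin d) ℝ (E d)) (ε : ℕ → ℝ), IsD (Ph G 1 0 l) u' ∧ Axes G gg u' ε

/-- `ε_l = 1` since `ρ l` is a reflection in `N`. For `1 ≤ j < l` and `ε_j = -1`: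
`w = ρ_{j-1} ρ_j ... ρ_{l-1}`, `x = w ρ_l w⁻¹`, `x' = ρ_j x ρ_j`, `n = w⁻¹ x x' w` is in
`up l ∩ mid (j - 1) (l + 1)`, so it is `1` or `ρ l`, but `R 1 n` is `-1` on `u_l`, `u_{l+1}` and `1`
on the other axes. (For products: `IsB G l w (gg_w)` by S_BE1; S_BE2.) -/
def S_MC2 : Prop :=
  ∀ (d k : ℕ) (Γ : Type) [Group Γ] [Finite Γ] (X : Type) [MulAction Γ X] (G : KGeo d k Γ X)
    (l : ℕ), Top G l → ∀ gg, Gens G l gg → ∀ u ε, Axes G gg u ε → ∀ j, 1 ≤ j → j ≤ l → ε j = 1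

def M_MC2 : Prop := S_BE1 → S_BE2 → S_MC2

/-- For the smallest `j > l` with `ε_j = -1`: `(ρ_{j-1} ρ_j)^3` is in
`up (j + 2) ∩ mid (j - 1) (j + 1) = 1`, but it is `-1` on `u_{j+2}`. -/
def S_MC3 : Prop :=
  ∀ (d k : ℕ) (Γ : Type) [Group Γ] [Finite Γ] (X : Type) [MulAction Γ X] (G : KGeo d k Γ X)
    (l : ℕ), Top G l → ∀ gg, Gens G l gg → ∀ u ε, Axes G gg u ε →
    (∀ j, 1 ≤ j → j ≤ l → ε j = 1) → ∀ j, 1 ≤ j → j + 2 < d → ε j = 1

/-- If `ε_0 = -1` change `g_0` (S_GN2) and the signs of all `u i` with `i ≥ 1`. -/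
def M_MC' : Prop := S_GN2 → S_MC1 → S_MC2 → S_MC3 → S_MC

/-! ## 10.7: the cube -/

/-- 10.7, first part. The signs of the axes are chosen so that `∑ u' i ∈ V_1`; `g_j` with `j ≥ 1`
fixes it, so it is a pure permutation. The sign of `g_0` is chosen so that it is `1` on `U_2`
(`Gens.scal0`); then `g_0` is a reflection with root in `V_2`, an axis or `(u_p + u_q)/√2` or
`(u_p - u_q)/√2`; the last one fixes `V_1`; in the second case all roots of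
`Ph G 1 2 l`, which are orthogonal to `∑ u i` and `u_p + u_q`, are multiples of `u_p - u_q` or
orthogonal to it: contradiction to `IrrRS` and the dimension of `U_2`. -/
def S_MD1 : Prop :=
  ∀ (d k : ℕ) (Γ : Type) [Group Γ] [Finite Γ] (X : Type) [MulAction Γ X] (G : KGeo d k Γ X)
    (l : ℕ), Top G l → ∀ gg, Gens G l gg → ∀ u, IsD (Ph G 1 0 l) u → ∀ y0 ∈ G.V 1 1,
    (∀ i, ⟪y0, u i⟫ ^ 2 = (1 / d : ℝ)) →
    ∃ (u' : OrthonormalBasis (Fin d) ℝ (E d)) (gm : ℕ → (E d ≃ₗᵢ[ℝ] E d)), Gens G l gm ∧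
      IsD (Ph G 1 0 l) u' ∧ ∑ i, u' i ∈ G.V 1 1 ∧
      (∀ j, 1 ≤ j → j < d → ∃ τ : Equiv.Perm (Fin d), ∀ i, gm j (u' i) = u' (τ i)) ∧
      ∃ p, ∀ v, gm 0 v = sref (u' p) v

def M_MD1 : Prop := S_TI → S_GN2 → S_MD1

/-- 10.7, second part: `V_{i+1}` is spanned by `∑ u i` and the `u p`, `p ∈ B i`; S_PRM for
`n = d`, `τ j = g_{j+1}`. -/
def M_MD' : Prop := S_PRM → S_MD1 → S_MD

end

end FOK.L
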