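import Pool.Agent.FOL.FStmts
import Pool.Agent.FO2.RGA
import Pool.Agent.FO2.RGB
import Pool.Agent.FO2.RGC
import Pool.Agent.FO2.RGD
import Pool.Agent.FO2.R3A
import Pool.Agent.FO2.R3B
import Pool.Agent.FO2.R3C

/-!
# 10.3, first part: the root system has type `A_d` or `D_d`
-/

namespace FOK.L

open Lib_helper64.FO FO2
open scoped RealInnerProductSpace

noncomputable section

/-- 10.3, first part. -/
theorem t_TAD : M_TAD := by
  intro hTI d k Γ _ _ X _ G l hT
  have hd : 25 ≤ d := by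
    have h1 := hT.l5
    have h2 := hT.ld
    omega
  have h := hTI d k Γ X G l hT 1 0 (Nat.zero_le _)
  have hV : G.V 1 0 = ⊥ := by
    have h1 := hT.dimV 1 0 (Nat.zero_le _)
    exact Submodule.finrank_eq_zero.1 h1
  have hspan : Submodule.span ℝ (Ph G 1 0 l) = ⊤ := by
    rw [h.span, KGeo.U, hV, Submodule.bot_orthogonal_eq_top]
  have hhom : HomRS (Ph G 1 0 l) := by
    intro a ha b hb
    obtain ⟨n, hn, h1⟩ := h.trans a ha b hb
    exact ⟨G.R 1 n, fun c hc => h.inv n hn c hc, h1⟩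
  have ha := rga d (Ph G 1 0 l) (by omega) h.rs h.irr hspan
  have hb := rgb d (Ph G 1 0 l) h.rs ha
  have hsl : SL (Ph G 1 0 l) := rgd d (Ph G 1 0 l) (by omega) h.rs h.irr hspan hb
    (rgc d (Ph G 1 0 l) (by omega) h.rs h.irr hspan hhom hb)
  refine ⟨hsl, ?_⟩
  by_cases h4 : HasD4 (Ph G 1 0 l)
  · right
    obtain ⟨n, u, hn, hu, hc⟩ := rg3b d (Ph G 1 0 l) h.rs hsl h4
    exact rg3c d (Ph G 1 0 l) (by omega) h.rs h.irr hspan hsl n u hn hu hc
  · left
    exact rg3a d (Ph G 1 0 l) (by omega) h.rs h.irr hspan hsl h4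

end

end FOK.L
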