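import Pool.Agent.FOL.FStmts
import Pool.Agent.FO2.ST
import Pool.Agent.FO2.FR2

/-!
# Module TI: the root systems of the conjugates of `ρ l` under `up i`
-/

set_option autoImplicit false

namespace FOK.L

open Lib_helper64.FO FO2
open scoped RealInnerProductSpace Nat

namespace TI

variable {d k : ℕ} {Γ : Type} [Group Γ] {X : Type} [MulAction Γ X] {G : KGeo d k Γ X} {l : ℕ}

theorem fin_E : Module.finrank ℝ (E d) = d := finrank_euclideanSpace_fin

theorem rho_mem_N (hT : Top G l) : G.ρ l ∈ G.N := hT.up (G.ρ_mem_up (by omega))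

theorem TN (hT : Top G l) {i : ℕ} (hi : i ≤ l) : TT G i l ⊆ G.Ni i := by
  rintro x ⟨γ, hγ, rfl⟩
  exact ⟨G.conj_mem_N γ (rho_mem_N hT),
    (G.up i).mul_mem ((G.up i).mul_mem hγ (G.ρ_mem_up hi)) ((G.up i).inv_mem hγ)⟩

theorem TT_conj {i : ℕ} {γ : Γ} (hγ : γ ∈ G.up i) {x : Γ} (hx : x ∈ TT G i l) :
    γ * x * γ⁻¹ ∈ TT G i l := by
  obtain ⟨δ, hδ, rfl⟩ := hx
  exact ⟨γ * δ, mul_mem hγ hδ, by group⟩

theorem TT_mono {i j : ℕ} (h : i ≤ j) : TT G j l ⊆ TT G i l := by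
  rintro x ⟨γ, hγ, rfl⟩
  exact ⟨γ, G.up_anti h hγ, rfl⟩

theorem Ph_mono {i j : ℕ} (h : i ≤ j) (g : Γ) : Ph G g j l ⊆ Ph G g i l := by
  rintro a ⟨h1, x, hx, h2⟩
  exact ⟨h1, x, TT_mono h hx, h2⟩

theorem root (hT : Top G l) (g : Γ) {i : ℕ} {x : Γ} (hx : x ∈ TT G i l) :
    ∃ a ∈ Ph G g i l, ∀ v, G.R g x v = sref a v := by
  obtain ⟨γ, hγ, rfl⟩ := hx
  obtain ⟨a, ha, h⟩ := hT.refl (g * γ)
  have h2 : ∀ v, G.R g (γ * G.ρ l * γ⁻¹) v = sref a v := by
    intro v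
    rw [← G.R_mul_right]
    exact h v
  exact ⟨a, ⟨ha, _, ⟨γ, hγ, rfl⟩, h2⟩, h2⟩

/-- conjugation of roots -/
theorem conj_root (g : Γ) {n x : Γ} (hn : n ∈ G.N) (hx : x ∈ G.N) {a : E d}
    (h : ∀ v, G.R g x v = sref a v) (v : E d) :
    G.R g (n * x * n⁻¹) v = sref (G.R g n a) v := by
  rw [G.R_mul_apply g (mul_mem hn hx) (inv_mem hn), G.R_mul_apply g hn hx, h, map_sref,
    G.R_inv_apply g hn]

theorem inv (hT : Top G l) (g : Γ) {i : ℕ} (hi : i ≤ l) {n : Γ} (hn : n ∈ G.Ni i) {a : E d}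
    (ha : a ∈ Ph G g i l) : G.R g n a ∈ Ph G g i l := by
  obtain ⟨h1, x, hx, h2⟩ := ha
  refine ⟨by rw [LinearIsometryEquiv.norm_map, h1], n * x * n⁻¹, TT_conj hn.2 hx, ?_⟩
  exact conj_root g hn.1 (TN hT hi hx).1 h2

theorem rs [Finite Γ] (hT : Top G l) (g : Γ) {i : ℕ} (hi : i ≤ l) : IsRS (Ph G g i l) := by
  refine ⟨?_, ?_, fun a ha => ha.1, ?_⟩
  · have hsub : Ph G g i l ⊆ ⋃ x : Γ, {a : E d | ‖a‖ = 1 ∧ ∀ v, G.R g x v = sref a v} := by
      rintro a ⟨h1, x, _, h2⟩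
      exact Set.mem_iUnion.2 ⟨x, h1, h2⟩
    refine (Set.finite_iUnion fun x => ?_).subset hsub
    by_cases hne : ∃ a : E d, ‖a‖ = 1 ∧ ∀ v, G.R g x v = sref a v
    · obtain ⟨a, ha, h⟩ := hne
      refine (Set.toFinite ({a, -a} : Set (E d))).subset ?_
      rintro b ⟨hb, h'⟩
      rcases ST.eq_of_sref hb ha (fun v => by rw [← h, ← h']) with e | e
      · exact Or.inl e
      · exact Or.inr e
    · have : {a : E d | ‖a‖ = 1 ∧ ∀ v, G.R g x v = sref a v} = ∅ := by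
        rw [Set.eq_empty_iff_forall_notMem]
        exact fun a ha => hne ⟨a, ha⟩
      rw [this]
      exact Set.finite_empty
  · obtain ⟨a, ha, -⟩ := root hT g (i := i) (x := G.ρ l) ⟨1, one_mem _, by group⟩
    exact ⟨a, ha⟩
  · intro a ha b hb
    obtain ⟨-, x, hx, h2⟩ := ha
    rw [← h2]
    exact inv hT g hi (TN hT hi hx) hb

/-- every element of `up i` is a product of an element of `N_i` and one of `mid i (l - 3)` -/
theorem decomp (hT : Top G l) {i : ℕ} {γ : Γ} (hγ : γ ∈ G.up i) :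
    ∃ n ∈ G.Ni i, ∃ m ∈ G.mid i (l - 3), γ = n * m := by
  have hγ' : γ ∈ Subgroup.closure (G.ρ '' {j | i ≤ j}) := hγ
  refine Subgroup.closure_induction (p := fun γ _ => ∃ n ∈ G.Ni i, ∃ m ∈ G.mid i (l - 3),
    γ = n * m) ?_ ?_ ?_ ?_ hγ'
  · rintro _ ⟨j, hj, rfl⟩
    have hj' : i ≤ j := hj
    rcases Nat.lt_or_ge j (l - 3) with h | h
    · exact ⟨1, one_mem _, G.ρ j, G.ρ_mem_mid hj' h, (one_mul _).symm⟩
    · exact ⟨G.ρ j, ⟨hT.up (G.ρ_mem_up h), G.ρ_mem_up hj'⟩, 1, one_mem _, (mul_one _).symm⟩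
  · exact ⟨1, one_mem _, 1, one_mem _, (mul_one _).symm⟩
  · rintro _ _ _ _ ⟨n, hn, m, hm, rfl⟩ ⟨n', hn', m', hm', rfl⟩
    refine ⟨n * (m * n' * m⁻¹), mul_mem hn (G.conj_up (G.mid_le_up _ _ hm) hn'), m * m',
      mul_mem hm hm', ?_⟩
    group
  · rintro _ _ ⟨n, hn, m, hm, rfl⟩
    have h1 := G.conj_up (inv_mem (G.mid_le_up _ _ hm)) (inv_mem hn)
    rw [inv_inv] at h1
    refine ⟨m⁻¹ * n⁻¹ * m, h1, m⁻¹, inv_mem hm, ?_⟩
    group

theorem conj_N (hT : Top G l) {i : ℕ} {x : Γ} (hx : x ∈ TT G i l) :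
    ∃ n ∈ G.Ni i, x = n * G.ρ l * n⁻¹ := by
  obtain ⟨γ, hγ, rfl⟩ := hx
  obtain ⟨n, hn, m, hm, rfl⟩ := decomp hT hγ
  have h5 := hT.l5
  have h1 : m * G.ρ l = G.ρ l * m :=
    G.comm_dn_up (i := l - 3) (j := l) (by omega) (G.mid_le_dn _ _ hm) (G.ρ_mem_up le_rfl)
  refine ⟨n, hn, ?_⟩
  have h2 : n * m * G.ρ l * (n * m)⁻¹ = n * (m * G.ρ l) * m⁻¹ * n⁻¹ := by group
  rw [h2, h1]
  group

theorem trans0 (hT : Top G l) (g : Γ) {i : ℕ} {a0 : E d} (ha0 : ‖a0‖ = 1)
    (h0 : ∀ v, G.R g (G.ρ l) v = sref a0 v) {b : E d} (hb : b ∈ Ph G g i l) :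
    ∃ n ∈ G.Ni i, G.R g n a0 = b ∨ G.R g n a0 = -b := by
  obtain ⟨h1, x, hx, h2⟩ := hb
  obtain ⟨n, hn, rfl⟩ := conj_N hT hx
  have h3 := conj_root g hn.1 (rho_mem_N hT) h0
  exact ⟨n, hn, ST.eq_of_sref (by rw [LinearIsometryEquiv.norm_map, ha0]) h1
    (fun v => by rw [← h3, h2])⟩

theorem trans (hT : Top G l) (g : Γ) {i : ℕ} {a b : E d} (ha : a ∈ Ph G g i l)
    (hb : b ∈ Ph G g i l) : ∃ n ∈ G.Ni i, G.R g n a = b ∨ G.R g n a = -b := by
  obtain ⟨a0, ha0, h0⟩ := hT.refl g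
  obtain ⟨n, hn, h1⟩ := trans0 hT g ha0 h0 ha
  obtain ⟨m, hm, h2⟩ := trans0 hT g ha0 h0 hb
  have h3 : G.R g (m * n⁻¹) a = G.R g m a0 ∨ G.R g (m * n⁻¹) a = -G.R g m a0 := by
    rw [G.R_mul_apply g hm.1 (inv_mem hn.1)]
    rcases h1 with h1 | h1
    · left
      rw [← h1, G.R_inv_apply' g hn.1]
    · right
      have : a = -G.R g n a0 := by rw [h1, neg_neg]
      rw [this, map_neg, G.R_inv_apply' g hn.1, map_neg]
  refine ⟨m * n⁻¹, mul_mem hm (inv_mem hn), ?_⟩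
  rcases h2 with h2 | h2 <;> rcases h3 with h3 | h3
  · left; rw [h3, h2]
  · right; rw [h3, h2]
  · right; rw [h3, h2]
  · left; rw [h3, h2, neg_neg]

theorem span_le (hT : Top G l) (g : Γ) {i : ℕ} (hi : i ≤ l) :
    Submodule.span ℝ (Ph G g i l) ≤ G.U g i := by
  rw [Submodule.span_le]
  rintro a ⟨h1, x, hx, h2⟩
  change a ∈ (G.V g i)ᗮ
  rw [Submodule.mem_orthogonal]
  intro v hv
  have h3 := hv x (TN hT hi hx)
  rw [h2] at h3
  rw [real_inner_comm]
  exact FR2.perp_of_sref h1 h3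

theorem finrank_U (hT : Top G l) (g : Γ) {i : ℕ} (hi : i ≤ l) :
    Module.finrank ℝ (G.U g i) + i = d := by
  have h := Submodule.finrank_add_finrank_orthogonal (G.V g i)
  have hld := hT.ld
  rw [hT.dimV g i (by omega), fin_E] at h
  have e : Module.finrank ℝ (G.U g i) = Module.finrank ℝ (G.V g i)ᗮ := rfl
  omega

/-- the spans are strictly decreasing in `i` -/
theorem strict (hT : Top G l) (g : Γ) {i : ℕ} (hi : i < l) :
    ¬ Submodule.span ℝ (Ph G g i l) ≤ G.U g (i + 1) := by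
  intro hcon
  have hld := hT.ld
  have h1 : ∀ x ∈ TT G i l, x ∈ G.up (i + 1) := by
    intro x hx
    obtain ⟨a, ha, h2⟩ := root hT g hx
    refine G.mem_up_of_R' (g := g) (TN hT hi.le hx).1 fun v hv => ?_
    have h3 : a ∈ G.U g (i + 1) := hcon (Submodule.subset_span ha)
    have h4 : ⟪v, a⟫ = 0 := (Submodule.mem_orthogonal _ _).1 h3 v hv
    rw [real_inner_comm] at h4
    rw [h2, FR2.sref_eq_self h4]
  have h2 : Subgroup.closure (TT G i l) = ⊥ := by
    refine G.L1 (i := i) ?_ ?_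
    · rw [Subgroup.closure_le]
      exact h1
    · intro γ hγ m hm
      refine Subgroup.closure_induction (p := fun m _ => γ * m * γ⁻¹ ∈ Subgroup.closure (TT G i l))
        ?_ ?_ ?_ ?_ hm
      · intro x hx
        exact Subgroup.subset_closure (TT_conj hγ hx)
      · rw [mul_one, mul_inv_cancel]
        exact one_mem _
      · intro a b _ _ ha hb
        have e : γ * (a * b) * γ⁻¹ = (γ * a * γ⁻¹) * (γ * b * γ⁻¹) := by group
        rw [e]
        exact mul_mem ha hb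
      · intro a _ ha
        have e : γ * a⁻¹ * γ⁻¹ = (γ * a * γ⁻¹)⁻¹ := by group
        rw [e]
        exact inv_mem ha
  have h3 : G.ρ l ∈ Subgroup.closure (TT G i l) :=
    Subgroup.subset_closure ⟨1, one_mem _, by group⟩
  rw [h2, Subgroup.mem_bot] at h3
  exact G.ne_one l (by omega) h3

theorem span_aux (hT : Top G l) (g : Γ) : ∀ m i, i + m = l →
    d ≤ Module.finrank ℝ (Submodule.span ℝ (Ph G g i l)) + i := by
  intro m
  induction m with
  | zero =>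
    intro i hi
    have hi' : i = l := by omega
    subst hi'
    have := finrank_U hT g (le_refl i)
    rw [hT.span g]
    omega
  | succ m ih =>
    intro i hi
    have h1 := ih (i + 1) (by omega)
    have h2 : Submodule.span ℝ (Ph G g (i + 1) l) < Submodule.span ℝ (Ph G g i l) := by
      refine lt_of_le_not_ge (Submodule.span_mono (Ph_mono (by omega) g)) fun hle => ?_
      exact strict hT g (by omega) (hle.trans (span_le hT g (by omega)))
    have h3 := Submodule.finrank_lt_finrank_of_lt h2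
    omega

theorem span (hT : Top G l) (g : Γ) {i : ℕ} (hi : i ≤ l) :
    Submodule.span ℝ (Ph G g i l) = G.U g i := by
  refine Submodule.eq_of_le_of_finrank_le (span_le hT g hi) ?_
  have h1 := span_aux hT g (l - i) i (by omega)
  have h2 := finrank_U hT g hi
  omega

/-- if `Ph (i + 1)` is irreducible and in `L` then `Ph i` is in `L` -/
theorem irr_aux (hT : Top G l) (g : Γ) {i : ℕ} (hi : i + 1 ≤ l) (hirr : IrrRS (Ph G g (i + 1) l))
    (L : Submodule ℝ (E d)) (hL : ∀ a ∈ Ph G g i l, a ∈ L ∨ a ∈ Lᗮ)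
    (hl : ∀ a ∈ Ph G g (i + 1) l, a ∈ L) : ∀ a ∈ Ph G g i l, a ∈ L := by
  intro c hc
  by_contra hcL
  have hc' : c ∈ Lᗮ := (hL c hc).resolve_left hcL
  have hi' : i ≤ l := by omega
  obtain ⟨a0, ha0, h0⟩ := hT.refl g
  obtain ⟨n, hn, h1⟩ := trans0 hT g ha0 h0 hc
  have hnc : G.R g n a0 ∈ Lᗮ := by
    rcases h1 with h1 | h1
    · rw [h1]; exact hc'
    · rw [h1]; exact neg_mem hc'
  have ha0P : a0 ∈ Ph G g (i + 1) l := ⟨ha0, G.ρ l, ⟨1, one_mem _, by group⟩, h0⟩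
  -- the image of the roots is in one part
  have h2 := hirr (L.comap (G.R g n).toLinearEquiv.toLinearMap)
  have hmem : ∀ b, b ∈ L.comap (G.R g n).toLinearEquiv.toLinearMap ↔ G.R g n b ∈ L := fun b =>
    Iff.rfl
  have hperp : ∀ b, G.R g n b ∈ Lᗮ → b ∈ (L.comap (G.R g n).toLinearEquiv.toLinearMap)ᗮ := by
    intro b hb
    rw [Submodule.mem_orthogonal]
    intro u hu
    rw [← LinearIsometryEquiv.inner_map_map (G.R g n)]
    exact (Submodule.mem_orthogonal _ _).1 hb _ ((hmem u).1 hu)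
  have hperp' : ∀ b, b ∈ (L.comap (G.R g n).toLinearEquiv.toLinearMap)ᗮ → G.R g n b ∈ Lᗮ := by
    intro b hb
    rw [Submodule.mem_orthogonal]
    intro u hu
    have h3 : G.R g n (G.R g n⁻¹ u) = u := G.R_inv_apply g hn.1 u
    have h4 : G.R g n⁻¹ u ∈ L.comap (G.R g n).toLinearEquiv.toLinearMap := by
      rw [hmem, h3]; exact hu
    have h5 := (Submodule.mem_orthogonal _ _).1 hb _ h4
    rw [← h3, LinearIsometryEquiv.inner_map_map]
    exact h5
  have h3 := h2 fun b hb => by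
    rcases hL _ (inv hT g hi' hn (Ph_mono (Nat.le_succ i) g hb)) with h | h
    · exact Or.inl ((hmem b).2 h)
    · exact Or.inr (hperp b h)
  have hall : ∀ b ∈ Ph G g (i + 1) l, G.R g n b ∈ Lᗮ := by
    rcases h3 with h3 | h3
    · exfalso
      have h4 : G.R g n a0 ∈ L := (hmem a0).1 (h3 a0 ha0P)
      have h5 : ⟪G.R g n a0, G.R g n a0⟫ = 0 := (Submodule.mem_orthogonal _ _).1 hnc _ h4
      rw [LinearIsometryEquiv.inner_map_map, real_inner_self_eq_norm_sq, ha0] at h5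
      norm_num at h5
    · exact fun b hb => hperp' b (h3 b hb)
  -- dimensions
  have hU1 : G.U g (i + 1) ≤ L := by
    rw [← span hT g hi, Submodule.span_le]
    exact hl
  have hU1' : G.U g (i + 1) ≤ G.U g i := by
    rw [← span hT g hi, ← span hT g hi']
    exact Submodule.span_mono (Ph_mono (Nat.le_succ i) g)
  have hU2 : (G.U g (i + 1)).map (G.R g n).toLinearEquiv.toLinearMap ≤ Lᗮ := by
    rw [← span hT g hi, Submodule.map_span, Submodule.span_le]
    rintro _ ⟨b, hb, rfl⟩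
    exact hall b hb
  have hU2' : (G.U g (i + 1)).map (G.R g n).toLinearEquiv.toLinearMap ≤ G.U g i := by
    rw [← span hT g hi, ← span hT g hi', Submodule.map_span, Submodule.span_le]
    rintro _ ⟨b, hb, rfl⟩
    exact Submodule.subset_span (inv hT g hi' hn (Ph_mono (Nat.le_succ i) g hb))
  have hd1 := Submodule.finrank_sup_add_finrank_inf_eq (G.U g (i + 1))
    ((G.U g (i + 1)).map (G.R g n).toLinearEquiv.toLinearMap)
  have hinf : G.U g (i + 1) ⊓ (G.U g (i + 1)).map (G.R g n).toLinearEquiv.toLinearMap = ⊥ := by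
    rw [eq_bot_iff]
    rintro v ⟨hv1, hv2⟩
    have h4 : ⟪v, v⟫ = 0 := (Submodule.mem_orthogonal _ _).1 (hU2 hv2) _ (hU1 hv1)
    exact inner_self_eq_zero.1 h4
  rw [hinf, finrank_bot] at hd1
  have hd2 := Submodule.finrank_mono (sup_le hU1' hU2')
  have hd3 : Module.finrank ℝ ((G.U g (i + 1)).map (G.R g n).toLinearEquiv.toLinearMap)
      = Module.finrank ℝ (G.U g (i + 1)) :=
    LinearEquiv.finrank_map_eq (G.R g n).toLinearEquiv (G.U g (i + 1))
  have hd4 := finrank_U hT g hi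
  have hd5 := finrank_U hT g hi'
  have hd6 := hT.ld
  omega

theorem irr_ind (hT : Top G l) (g : Γ) : ∀ m i, i + m = l → IrrRS (Ph G g i l) := by
  intro m
  induction m with
  | zero =>
    intro i hi
    have hi' : i = l := by omega
    rw [hi']
    exact hT.irr g
  | succ m ih =>
    intro i hi
    have hirr := ih (i + 1) (by omega)
    intro L hL
    rcases hirr L (fun a ha => hL a (Ph_mono (Nat.le_succ i) g ha)) with h | h
    · exact Or.inl (irr_aux hT g (by omega) hirr L hL h)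
    · refine Or.inr (irr_aux hT g (by omega) hirr Lᗮ (fun a ha => ?_) h)
      rcases hL a ha with h1 | h1
      · right
        rw [Submodule.orthogonal_orthogonal]
        exact h1
      · exact Or.inl h1

theorem irr (hT : Top G l) (g : Γ) {i : ℕ} (hi : i ≤ l) : IrrRS (Ph G g i l) :=
  irr_ind hT g (l - i) i (by omega)

end TI

open TI in
/-- The root systems of the conjugates of `ρ l` under `up i`. -/
theorem t_TI : S_TI := by
  intro d k Γ _ _ X _ G l hT g i hi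
  exact ⟨TN hT hi, rs hT g hi, irr hT g hi, TI.span hT g hi, fun x hx => root hT g hx,
    fun n hn a ha => TI.inv hT g hi hn ha, fun a ha b hb => TI.trans hT g ha hb⟩

end FOK.L
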