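import Pool.Agent.FOL.FStmts

/-!
# Module FTOP: from `FOL.ATop` for an `AGeo` to `FOK.L.Top` for a `KGeo` with the same data
-/

namespace FOK.L

open Lib_helper64.FO FO2
open FOL (bd)
open scoped RealInnerProductSpace Nat

namespace FTOP

variable {d k k' : ℕ} {Γ : Type} [Group Γ] {X : Type} [MulAction Γ X]

theorem fin_E : Module.finrank ℝ (E d) = d := finrank_euclideanSpace_fin

/-- a strictly increasing chain of `d + 1` subspaces has the dimensions `0, …, d` -/
theorem dims (V : ℕ → Submodule ℝ (E d)) (h : ∀ i, i < d → V i < V (i + 1)) :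
    ∀ i, i ≤ d → Module.finrank ℝ (V i) = i := by
  have hs : ∀ i, i < d → Module.finrank ℝ (V i) + 1 ≤ Module.finrank ℝ (V (i + 1)) := fun i hi =>
    Submodule.finrank_lt_finrank_of_lt (h i hi)
  have h1 : ∀ i, i ≤ d → i ≤ Module.finrank ℝ (V i) := by
    intro i
    induction i with
    | zero => intro _; exact Nat.zero_le _
    | succ i ih =>
      intro hi
      have := ih (by omega)
      have := hs i (by omega)
      omega
  have h2 : ∀ m i, i + m = d → Module.finrank ℝ (V i) + m ≤ d := by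
    intro m
    induction m with
    | zero =>
      intro i _
      have := Submodule.finrank_le (V i)
      rw [fin_E] at this
      omega
    | succ m ih =>
      intro i hi
      have h3 := ih (i + 1) (by omega)
      have h4 := hs i (by omega)
      omega
  intro i hi
  have h5 := h1 i hi
  have h6 := h2 (d - i) i (by omega)
  omega

variable {G : KGeo d k Γ X} {A : FOI.AGeo d k' Γ X}

theorem up_eq (h : Same G A) (i : ℕ) : A.up i = G.up i := by
  show gpar A.ρ {j | i ≤ j} = gpar G.ρ {j | i ≤ j}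
  rw [h.ρ]

theorem N_eq (h : Same G A) : A.N = G.N := by
  show A.H.normalCore = G.H.normalCore
  rw [h.H]

theorem Ni_eq (h : Same G A) (i : ℕ) : A.Ni i = G.Ni i := by
  show A.N ⊓ A.up i = G.N ⊓ G.up i
  rw [N_eq h, up_eq h]

theorem R_eq (h : Same G A) (g n : Γ) : A.R g n = G.R g n := by
  show A.T (g * n * g⁻¹) = G.T (g * n * g⁻¹)
  rw [h.T]

theorem NZ_iff (h : Same G A) (i : ℕ) : A.NZ i ↔ G.NZ i := by
  show ¬ A.Ni i ≤ A.up (i + 1) ↔ ¬ G.Ni i ≤ G.up (i + 1)
  rw [Ni_eq h, up_eq h]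

theorem TT_eq (h : Same G A) (i l : ℕ) : FOI.TT A i l = TT G i l := by
  show {x | ∃ γ ∈ A.up i, x = γ * A.ρ l * γ⁻¹} = {x | ∃ γ ∈ G.up i, x = γ * G.ρ l * γ⁻¹}
  rw [up_eq h, h.ρ]

theorem Ph_eq (h : Same G A) (g : Γ) (i l : ℕ) : FOI.Ph A g i l = Ph G g i l := by
  ext a
  constructor
  · rintro ⟨h1, x, hx, h2⟩
    rw [TT_eq h] at hx
    refine ⟨h1, x, hx, fun v => ?_⟩
    rw [← R_eq h]
    exact h2 v
  · rintro ⟨h1, x, hx, h2⟩
    rw [← TT_eq h] at hx
    refine ⟨h1, x, hx, fun v => ?_⟩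
    rw [R_eq h]
    exact h2 v

/-- a root is orthogonal to the fixed vectors of its reflection -/
theorem perp_of_fix {a v : E d} (ha : ‖a‖ = 1) (h : sref a v = v) : ⟪a, v⟫ = 0 := by
  have h1 : (2 * ⟪a, v⟫) • a = 0 := by
    have h2 : v - (2 * ⟪a, v⟫) • a = v := h
    exact sub_eq_self.1 h2
  rcases smul_eq_zero.1 h1 with h3 | h3
  · linarith
  · rw [h3, norm_zero] at ha
    exact absurd ha zero_ne_one

/-- the roots of the conjugates of `ρ l` under `up l` are orthogonal to `V_l` -/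
theorem Ph_le_U (G : KGeo d k Γ X) (l : ℕ) (hN : G.ρ l ∈ G.N) (g : Γ) {a : E d}
    (ha : a ∈ Ph G g l l) : a ∈ G.U g l := by
  obtain ⟨h1, x, ⟨γ, hγ, rfl⟩, h2⟩ := ha
  have hx : γ * G.ρ l * γ⁻¹ ∈ G.Ni l := by
    refine ⟨G.conj_mem_N γ hN, ?_⟩
    exact (G.up l).mul_mem ((G.up l).mul_mem hγ (G.ρ_mem_up le_rfl)) ((G.up l).inv_mem hγ)
  refine (Submodule.mem_orthogonal _ _).2 fun v hv => ?_
  have h3 : G.R g (γ * G.ρ l * γ⁻¹) v = v := hv _ hx
  have h4 : ⟪a, v⟫ = 0 := perp_of_fix h1 ((h2 v).symm.trans h3)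
  rw [real_inner_comm]
  exact h4

end FTOP

open FTOP in
theorem t_TOP : M_TOP := by
  intro hSTEP d k Γ _ _ X _ G A hS l hT
  have e5 := hT.l5
  have eld := hT.ld
  have hup : G.up (l - 3) ≤ G.N := by
    have h1 := hT.up
    rw [up_eq hS, N_eq hS] at h1
    exact h1
  have hρl : G.ρ l ∈ G.N := hup (G.ρ_mem_up (by omega))
  have hnz : ∀ i, i < d → G.NZ i := by
    intro i hi
    rcases Nat.eq_zero_or_pos i with h0 | h0
    · subst h0
      intro h1
      have h2 : G.N ≤ G.up (0 + 1) := by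
        intro x hx
        exact h1 ⟨hx, G.mem_up_zero x⟩
      have h3 : G.N = ⊥ := G.L1 (i := 0) h2 fun γ _ m hm => G.conj_mem_N γ hm
      have h4 : G.ρ (l - 3) ∈ G.N := hup (G.ρ_mem_up le_rfl)
      rw [h3, Subgroup.mem_bot] at h4
      exact G.ne_one (l - 3) (by omega) h4
    · exact (NZ_iff hS i).1 (hT.nz i h0 hi)
  have hdim : ∀ g i, i ≤ d → Module.finrank ℝ (G.V g i) = i := fun g =>
    dims (fun i => G.V g i) fun i hi => (hSTEP d k Γ X G g).2.1 i (hnz i hi)
  refine ⟨e5, eld, ?_, hup, hnz, hdim, ?_, ?_, ?_, ?_⟩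
  · have h1 := hT.lk
    rw [Nat.add_sub_cancel] at h1
    exact h1
  · intro g i hi
    refine Submodule.eq_of_le_of_finrank_le (G.W_le_V g i) ?_
    rw [hdim g (i + 1) (by omega)]
    exact (hSTEP d k Γ X G g).2.2.2 i fun m hm => hnz m (by omega)
  · intro g
    obtain ⟨a, h1, h2⟩ := hT.refl g
    refine ⟨a, h1, fun v => ?_⟩
    have h3 := h2 v
    rw [R_eq hS, hS.ρ] at h3
    exact h3
  · intro g
    rw [← Ph_eq hS]
    exact hT.irr g
  · intro g
    have hle : Submodule.span ℝ (Ph G g l l) ≤ G.U g l :=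
      Submodule.span_le.2 fun a ha => Ph_le_U G l hρl g ha
    refine Submodule.eq_of_le_of_finrank_le hle ?_
    have h1 := hT.dim g
    rw [Ph_eq hS] at h1
    have h2 : Module.finrank ℝ (G.V g l) + Module.finrank ℝ (G.U g l) = d := by
      have h3 := Submodule.finrank_add_finrank_orthogonal (G.V g l)
      rw [fin_E] at h3
      exact h3
    have h4 := hdim g l (by omega)
    omega

end FOK.L
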