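import Pool.Agent.FOL.FStmts

/-!
# TRA: transitivity on the vertices of the simplex (type A)
-/

namespace FOK.L

open Lib_helper64.FO FO2
open scoped RealInnerProductSpace Nat

namespace TRA

theorem word {d : ℕ} {gm : ℕ → (E d ≃ₗᵢ[ℝ] E d)} {v : Fin (d + 1) → E d}
    (hg : ∀ (j : Fin d) (i : Fin (d + 1)), gm j (v i) = v (Equiv.swap j.castSucc j.succ i))
    (w : List (Fin d)) :
    ∃ i, ((w.map (fun j : Fin d => j.val)).map (fun j => gm j)).prod (v 0) = v i := by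
  induction w with
  | nil => exact ⟨0, rfl⟩
  | cons j w ih =>
    obtain ⟨i, hi⟩ := ih
    refine ⟨Equiv.swap j.castSucc j.succ i, ?_⟩
    rw [List.map_cons, List.map_cons, List.prod_cons, ← hg j i, ← hi]
    rfl

theorem lst {d : ℕ} (w : List (Fin d)) :
    (do let a ← w; pure (a : ℕ) : List ℕ) = w.map (fun j : Fin d => j.val) := by
  induction w with
  | nil => rfl
  | cons j w ih =>
    rw [List.map_cons, ← ih]
    rfl

theorem refl {d : ℕ} {v : Fin (d + 1) → E d}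
    (hv : ∀ i j, ⟪v i, v j⟫ = if i = j then (1 : ℝ) else -1 / d) {i j : Fin (d + 1)}
    (hij : i ≠ j) : 0 < ‖v i - v j‖⁻¹ ∧ ‖‖v i - v j‖⁻¹ • (v i - v j)‖ = 1 ∧
      sref (‖v i - v j‖⁻¹ • (v i - v j)) (v i) = v j := by
  have hii : ⟪v i, v i⟫ = (1 : ℝ) := by rw [hv, if_pos rfl]
  have hjj : ⟪v j, v j⟫ = (1 : ℝ) := by rw [hv, if_pos rfl]
  have hij1 : ⟪v i, v j⟫ = (-1 / d : ℝ) := by rw [hv, if_neg hij]
  have hji1 : ⟪v j, v i⟫ = (-1 / d : ℝ) := by rw [hv, if_neg hij.symm]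
  have h0 : 0 ≤ (1 / d : ℝ) := by positivity
  have h1 : ‖v i - v j‖ ^ 2 = 2 * (1 + 1 / d) := by
    rw [← real_inner_self_eq_norm_sq, inner_sub_left, inner_sub_right, inner_sub_right, hii, hjj,
      hij1, hji1]
    ring
  have h2 : 0 < ‖v i - v j‖ := by
    have h3 : 0 < ‖v i - v j‖ ^ 2 := by
      rw [h1]
      linarith
    rcases (norm_nonneg (v i - v j)).lt_or_eq with h4 | h4
    · exact h4
    · rw [← h4] at h3
      norm_num at h3
  have h4 : ⟪v i - v j, v i⟫ = (1 + 1 / d : ℝ) := by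
    rw [inner_sub_left, hii, hji1]
    ring
  refine ⟨inv_pos.2 h2, ?_, ?_⟩
  · rw [norm_smul, norm_inv, norm_norm, inv_mul_cancel₀ h2.ne']
  · have h5 : 2 * ⟪‖v i - v j‖⁻¹ • (v i - v j), v i⟫ * ‖v i - v j‖⁻¹ = 1 := by
      rw [real_inner_smul_left, h4]
      have h6 : 2 * (‖v i - v j‖⁻¹ * (1 + 1 / (d : ℝ))) * ‖v i - v j‖⁻¹ =
          (2 * (1 + 1 / d)) * (‖v i - v j‖ ^ 2)⁻¹ := by
        rw [← inv_pow]
        ring
      rw [h6, h1]
      exact mul_inv_cancel₀ (by linarith)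
    rw [sref, smul_smul, h5, one_smul, sub_sub_cancel]

end TRA

open TRA in
theorem t_TRA : S_TRA := by
  intro d k Γ _ _ X _ G l _ gm v hv hg w w'
  obtain ⟨i, hi⟩ := word hg w
  obtain ⟨j, hj⟩ := word hg w'
  rw [lst, lst, hi, hj]
  by_cases hij : i = j
  · subst hij
    refine ⟨1, one_mem _, ?_⟩
    rw [G.R_one]
    rfl
  · obtain ⟨h1, h2, h3⟩ := refl hv.1 hij
    obtain ⟨-, x, hx, hxr⟩ := (hv.2 (‖v i - v j‖⁻¹ • (v i - v j))).2
      ⟨i, j, hij, ‖v i - v j‖⁻¹, h1, h2, rfl⟩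
    exact ⟨x, Subgroup.subset_closure hx, by rw [hxr, h3]⟩

end FOK.L
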