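import Pool.Agent.FOL.NStmts

/-!
# Module KK: the group `KK` and its irreducibility on `Y_p` (section 7.1)
-/

namespace FOL

open Lib_helper64.FO FO2 FOK FOI
open scoped RealInnerProductSpace Nat

noncomputable section

namespace KK

variable {d k : ℕ} {Γ : Type} [Group Γ] {X : Type} [MulAction Γ X] (G : AGeo d k Γ X)

theorem mem_iff (g : Γ) (p : ℕ) (h : E d ≃ₗᵢ[ℝ] E d) :
    h ∈ FOI.KK G g p ↔ ∃ n ∈ G.Ni p, G.R g n = h := by
  constructor
  · intro hh
    refine Subgroup.closure_induction (p := fun h _ => ∃ n ∈ G.Ni p, G.R g n = h) ?_ ?_ ?_ ?_ hh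
    · rintro x ⟨n, hn, rfl⟩
      exact ⟨n, hn, rfl⟩
    · exact ⟨1, one_mem _, G.R_one g⟩
    · rintro _ _ _ _ ⟨m, hm, rfl⟩ ⟨n, hn, rfl⟩
      exact ⟨m * n, mul_mem hm hn, G.R_mul g hm.1 hn.1⟩
    · rintro _ _ ⟨n, hn, rfl⟩
      exact ⟨n⁻¹, inv_mem hn, G.R_inv g hn.1⟩
  · rintro ⟨n, hn, rfl⟩
    exact Subgroup.subset_closure ⟨n, hn, rfl⟩

theorem pres (g : Γ) (p : ℕ) : ∀ h ∈ FOI.KK G g p, ∀ w ∈ G.Y g p, h w ∈ G.Y g p := by
  intro h hh w hw
  obtain ⟨n, hn, rfl⟩ := (mem_iff G g p h).1 hh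
  exact G.R_mem_Y hn hw

theorem V_succ (g : Γ) (p : ℕ) : G.V g (p + 1) = G.V g p ⊔ G.D g p := by
  have h1 := Submodule.sup_orthogonal_inf_of_hasOrthogonalProjection
    (G.V_mono g (Nat.le_succ p))
  rw [← h1, AGeo.D, AGeo.U, inf_comm]

theorem U_succ (g : Γ) (p : ℕ) : G.U g (p + 1) = G.U g p ⊓ (G.D g p)ᗮ := by
  rw [AGeo.U, V_succ, ← Submodule.inf_orthogonal]
  rfl

theorem D_eq {g : Γ} {p : ℕ} (h1 : Module.finrank ℝ (G.D g p) = 1) {e : E d}
    (he : e ∈ G.D g p) (hn : ‖e‖ = 1) : G.D g p = Submodule.span ℝ {e} := by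
  have hne : e ≠ 0 := by
    intro h0
    rw [h0, norm_zero] at hn
    exact zero_ne_one hn
  refine (Submodule.eq_of_le_of_finrank_eq ?_ ?_).symm
  · rw [Submodule.span_singleton_le_iff_mem]
    exact he
  · rw [h1, finrank_span_singleton hne]

end KK

open KK in
theorem t_KK : M_KK := by
  intro hY d k Γ _ X _ G u q j1 j2 hS g p hp1 hp2
  have hirr : ∀ p, j1 ≤ p → p ≤ j2 → Irred (FOI.KK G g p) (G.Y g p) := by
    intro p hp1 hp2
    have hu := hS.huj
    have hq := hS.hjq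
    intro B hB hinv
    exact (hY d k Γ X G u q hS.win g p (by omega) (by omega)).1 B hB
      fun n hn w hw => hinv _ ((mem_iff G g p _).2 ⟨n, hn, rfl⟩) w hw
  refine ⟨mem_iff G g p, pres G g p, hirr p hp1 hp2, fun hlt e he hn => ?_⟩
  have hu := hS.huj
  have hq := hS.hjq
  have hD : G.D g p = Submodule.span ℝ {e} :=
    D_eq G (hS.win.line g p (by omega) (by omega)) he hn
  have hEq : G.Y g p ⊓ (Submodule.span ℝ {e})ᗮ = G.Y g (p + 1) := by
    rw [← hS.Y g p hp1 hp2, ← hS.Y g (p + 1) (by omega) hlt, U_succ, ← hD]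
  refine ⟨?_, hEq⟩
  exact
    { mem := G.D_le_Y g p he
      norm := hn
      fix := by
        intro h hh
        obtain ⟨n, hn', rfl⟩ := (mem_iff G g (p + 1) h).1 hh
        exact G.D_le_V g p he n hn'
      pres := by
        intro h hh w hw
        obtain ⟨n, hn', rfl⟩ := (mem_iff G g (p + 1) h).1 hh
        exact G.R_mem_Y (G.Ni_anti (Nat.le_succ p) hn') hw
      irr := by
        rw [hEq]
        exact hirr (p + 1) (by omega) hlt }

end

end FOL
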