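import Pool.Agent.FOL.BStmts

/-!
# LAT: the lattice (II.9)
-/

namespace FOI.L

open Lib_helper64.FO FO2 FOK
open scoped RealInnerProductSpace

noncomputable section

namespace LAT

variable {d k : ℕ} {Γ : Type} [Group Γ] {X : Type} [MulAction Γ X] {G : AGeo d k Γ X}

theorem one_R {n : Γ} : G.R 1 n = G.T n := by
  show G.T (1 * n * 1⁻¹) = G.T n
  rw [inv_one, one_mul, mul_one]

theorem lt_kr {n : Γ} (hn : n ∈ Lt G) : n ∈ G.N ∧ G.R 1 n = 1 :=
  Subgroup.normalCore_le _ hn

theorem act {n : Γ} (hn : n ∈ Lt G) (y : X) : G.f (n • y) = G.f y + tau G n := by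
  have h1 := lt_kr hn
  have h2 := G.equiv n (G.N_le h1.1) y G.x0
  rw [← one_R, h1.2] at h2
  have h3 : G.f y - G.f G.x0 = G.f (n • y) - G.f (n • G.x0) := h2
  have h4 : G.f (n • y) = G.f y - G.f G.x0 + G.f (n • G.x0) := by
    rw [h3, sub_add_cancel]
  rw [tau, h4]
  abel

theorem eq_of_tau {m n : Γ} (hm : m ∈ Lt G) (hn : n ∈ Lt G) (h : tau G m = tau G n) : m = n := by
  have h1 : n⁻¹ * m = 1 := by
    apply G.eq_one_of_fix
    intro y
    have h2 : m • y = n • y := G.inj (by rw [act hm, act hn, h])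
    rw [mul_smul, h2, inv_smul_smul]
  exact (inv_mul_eq_one.1 h1).symm

theorem add {m n : Γ} (hm : m ∈ Lt G) : tau G (m * n) = tau G m + tau G n := by
  rw [tau, mul_smul, act hm]
  rw [tau, tau]
  abel

/-- the homomorphism `n ↦ R 1 n` of the core -/
def hom (G : AGeo d k Γ X) : G.N →* (E d ≃ₗᵢ[ℝ] E d) where
  toFun n := G.R 1 n.1
  map_one' := G.R_one 1
  map_mul' m n := G.R_mul 1 m.2 n.2

theorem index_ne (h : {h | ∃ n ∈ G.N, G.R 1 n = h}.Finite) : (Lt G).index ≠ 0 := by
  have h0 : (Kr G).index ≠ 0 := by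
    have h1 : Finite (hom G).range := by
      refine Set.Finite.subset h ?_
      rintro _ ⟨n, rfl⟩
      exact ⟨n.1, n.2, rfl⟩
    have h2 : (hom G).ker.index ≠ 0 := by
      have := Subgroup.finiteIndex_ker (hom G)
      exact this.index_ne_zero
    have h3 : (Kr G).relIndex G.N ≠ 0 := by
      have e : (Kr G).subgroupOf G.N = (hom G).ker := by
        ext n
        rw [Subgroup.mem_subgroupOf, MonoidHom.mem_ker]
        constructor
        · intro h
          exact h.2
        · intro h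
          exact ⟨n.2, h⟩
      rw [Subgroup.relIndex, e]
      exact h2
    have h4 : Kr G ≤ G.N := fun n hn => hn.1
    have h5 : G.N.index ≠ 0 := by
      have : G.H.FiniteIndex := ⟨G.idx0⟩
      have h6 : G.H.normalCore.FiniteIndex := inferInstance
      exact h6.index_ne_zero
    rw [← Subgroup.relIndex_mul_index h4]
    exact mul_ne_zero h3 h5
  have : (Kr G).FiniteIndex := ⟨h0⟩
  have h6 : (Kr G).normalCore.FiniteIndex := inferInstance
  exact h6.index_ne_zero

end LAT

open LAT in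
theorem t_LAT : M_LAT := by
  intro hF d k Γ _ X _ G l hA
  have hnrm : ∀ γ : Γ, ∀ n ∈ Lt G, γ * n * γ⁻¹ ∈ Lt G := fun γ n hn =>
    (Subgroup.normalCore_normal (Kr G)).conj_mem n hn γ
  refine ⟨index_ne (hF d k Γ X G l hA).2, hnrm, fun n hn => ⟨(lt_kr hn).1, fun g => ?_⟩,
    fun n hn y => act hn y, fun m hm n _ => add hm, fun n hn h => ?_, fun m hm n hn => ?_,
    fun r => ?_, fun h hh n hn => ?_⟩
  · have h1 := (lt_kr (hnrm g n hn)).2
    rw [one_R] at h1
    exact h1
  · refine eq_of_tau hn (one_mem _) ?_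
    rw [h, tau, one_smul, sub_self]
  · refine eq_of_tau (mul_mem hm hn) (mul_mem hn hm) ?_
    rw [add hm, add hn, add_comm]
  · refine Set.Finite.of_injOn (f := fun n : Γ => n • G.x0) (t := {x : X | ‖G.f x - G.f G.x0‖ ≤ r})
      ?_ ?_ (G.locfin r)
    · rintro n ⟨_, h2⟩
      exact h2
    · rintro m ⟨hm, _⟩ n ⟨hn, _⟩ h
      refine eq_of_tau hm hn ?_
      have h' : m • G.x0 = n • G.x0 := h
      rw [tau, tau, h']
  · have h1 := act (hnrm h n hn) (h • G.x0)
    have h2 := G.equiv h hh (n • G.x0) G.x0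
    have e : (h * n * h⁻¹) • h • G.x0 = h • n • G.x0 := by
      rw [← mul_smul, ← mul_smul]
      congr 1
      group
    rw [e] at h1
    have h3 : G.T h (tau G n) = G.f (h • n • G.x0) - G.f (h • G.x0) := h2
    rw [h3, h1]
    abel

end

end FOI.L
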