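import Pool.Agent.FOL.CStmts

/-!
# Module LI1: the case (irr), the structure `LinB`
-/

namespace FOI.L

open Lib_helper64.FO FO2 FOK
open scoped RealInnerProductSpace Nat

noncomputable section

namespace LI1

variable {d k : ℕ} {Γ : Type} [Group Γ] {X : Type} [MulAction Γ X]

theorem RI_one {G : AGeo d k Γ X} {l : ℕ} {RI : Γ → (E d ≃ₗᵢ[ℝ] E d)} (hE : IsExt G l RI) :
    RI 1 = 1 := by
  have h := hE.mul 1 1
  rw [one_mul] at h
  exact mul_eq_left.1 h.symm

theorem RI_sq {G : AGeo d k Γ X} {l : ℕ} {RI : Γ → (E d ≃ₗᵢ[ℝ] E d)} (hE : IsExt G l RI) (j : ℕ)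
    (v : E d) : RI (G.ρ j) (RI (G.ρ j) v) = v := by
  have h : RI (G.ρ j) * RI (G.ρ j) = 1 := by rw [← hE.mul, G.sq, RI_one hE]
  exact congrArg (fun e : E d ≃ₗᵢ[ℝ] E d => e v) h

theorem gg_one {G : AGeo d k Γ X} {RI : Γ → (E d ≃ₗᵢ[ℝ] E d)} (v : E d) :
    ggI G RI 1 v = -RI (G.ρ 1) v := by
  simp [ggI]

theorem gg_ne {G : AGeo d k Γ X} {RI : Γ → (E d ≃ₗᵢ[ℝ] E d)} {j : ℕ} (hj : j ≠ 1) (v : E d) :
    ggI G RI j v = RI (G.ρ j) v := by
  rw [ggI, if_neg hj]

/-- up to sign -/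
theorem gg_sgn {G : AGeo d k Γ X} {RI : Γ → (E d ≃ₗᵢ[ℝ] E d)} (j : ℕ) :
    (∀ v, ggI G RI j v = RI (G.ρ j) v) ∨ ∀ v, ggI G RI j v = -RI (G.ρ j) v := by
  by_cases hj : j = 1
  · subst hj
    exact Or.inr gg_one
  · exact Or.inl (gg_ne hj)

theorem neg_mem_Ph {G : AGeo d k Γ X} {g : Γ} {i l : ℕ} {a : E d} (h : a ∈ Ph G g i l) :
    -a ∈ Ph G g i l := by
  obtain ⟨h1, x, hx, h2⟩ := h
  exact ⟨by rw [norm_neg, h1], x, hx, fun v => by rw [h2, sref_neg]⟩

theorem Ph_sub {G : AGeo d k Γ X} {g : Γ} (i l : ℕ) : Ph G g i l ⊆ Ph G g 0 l := by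
  rintro a ⟨h1, x, ⟨γ, hγ, hx⟩, h2⟩
  exact ⟨h1, x, ⟨γ, G.up_anti (Nat.zero_le i) hγ, hx⟩, h2⟩

end LI1

theorem t_LI1 : M_LI1 := by
  intro hTI _ hDIR d k Γ _ X _ _ G l hT hTop RI hE b s z0 e0 hD hG hfix he0
  have hd := hDIR d k Γ X G l hT
  have hl5 := hT.l5
  have hld := hT.ld
  have hfin : Module.finrank ℝ (Sp G 0 l) = d := by rw [hTop]; simp
  have hdim : ∀ i, i ≤ d → Module.finrank ℝ (G.V 1 i) = i := by
    intro i hi
    rcases Nat.eq_zero_or_pos i with rfl | h
    · rw [hG.V0]; simp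
    · exact hD.dimV i h hi
  have hpres : ∀ j i v, i ≠ j + 1 → v ∈ G.V 1 i → ggI G RI j v ∈ G.V 1 i := by
    intro j i v hij hv
    have h1 := hG.pres j i v hij hv
    rcases LI1.gg_sgn (G := G) (RI := RI) j with h | h
    · rw [h]; exact h1
    · rw [h]; exact neg_mem h1
  have hsq : ∀ j v, ggI G RI j (ggI G RI j v) = v := by
    intro j v
    rcases LI1.gg_sgn (G := G) (RI := RI) j with h | h
    · rw [h, h, LI1.RI_sq hE]
    · rw [h, h, map_neg, neg_neg, LI1.RI_sq hE]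
  have hroot1 : ∀ j a, a ∈ Ph G 1 0 l → ggI G RI j a ∈ Ph G 1 0 l := by
    intro j a ha
    have h1 := hE.root (G.ρ j) a ha
    rcases LI1.gg_sgn (G := G) (RI := RI) j with h | h
    · rw [h]; exact h1
    · rw [h]; exact LI1.neg_mem_Ph h1
  refine
    { l4 := by omega
      ln := by omega
      j01 := Or.inr rfl
      rs := hd.rs
      irr := hd.irr
      span := hTop
      typ := ?_
      mono := fun i _ => G.V_mono 1 (Nat.le_succ i)
      dimV := hdim
      pres := fun j i v _ _ hij hv => hpres j i v hij hv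
      moves := ?_
      sq := fun j _ v => hsq j v
      comm := ?_
      fix := ?_
      root := fun j _ a => ⟨fun h => by
        have := hroot1 j _ h
        rwa [hsq] at this, hroot1 j a⟩
      scal0 := ?_
      sub := ?_
      refl := ?_ }
  · have htyp := hd.typ
    rw [hfin] at htyp
    rcases htyp with ⟨v, hv⟩ | ⟨u, hu⟩
    · exact Or.inl ⟨v, hv.gram, hv.iff⟩
    · right
      have hcard : Fintype.card (Fin d) = Module.finrank ℝ (E d) := by simp
      rcases Nat.eq_zero_or_pos d with h0 | hpos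
      · omega
      have : Nonempty (Fin d) := ⟨⟨0, hpos⟩⟩
      have hco := coe_basisOfOrthonormalOfCardEqFinrank hu.orth hcard
      refine ⟨(basisOfOrthonormalOfCardEqFinrank hu.orth hcard).toOrthonormalBasis
        (by rw [hco]; exact hu.orth), ?_⟩
      intro a
      rw [hu.iff a]
      simp only [Module.Basis.coe_toOrthonormalBasis, hco]
  · intro j hj e he he0' hcon
    obtain ⟨v, hv, hv'⟩ := hG.moves j (by omega)
    apply hv'
    -- `V (j + 1)` is the sum of `V j` and the line of `e`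
    have h1 : G.V 1 j ⊔ (ℝ ∙ e) = G.V 1 (j + 1) := by
      apply Submodule.eq_of_le_of_finrank_le
      · exact sup_le (G.V_mono 1 (Nat.le_succ j)) ((Submodule.span_singleton_le_iff_mem _ _).2 he.1)
      · have h2 : Disjoint (G.V 1 j) (ℝ ∙ e) := by
          rw [Submodule.disjoint_def]
          intro x hx hx'
          obtain ⟨c, rfl⟩ := Submodule.mem_span_singleton.1 hx'
          have h3 := (Submodule.mem_orthogonal _ _).1 he.2 _ hx
          rw [inner_smul_left] at h3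
          have h4 : ⟪e, e⟫ ≠ 0 := inner_self_ne_zero.2 he0'
          have h5 : c = 0 := by
            rcases mul_eq_zero.1 h3 with h | h
            · simpa using h
            · exact absurd h h4
          rw [h5, zero_smul]
        have h3 := Submodule.finrank_add_finrank_le_of_disjoint h2
        have h6 := Submodule.finrank_sup_add_finrank_inf_eq (G.V 1 j) (ℝ ∙ e)
        rw [disjoint_iff.1 h2, finrank_bot, finrank_span_singleton he0', hdim j (by omega)] at h6
        rw [hdim (j + 1) (by omega)]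
        omega
    rw [← h1] at hv
    obtain ⟨a, ha, w, hw, rfl⟩ := Submodule.mem_sup.1 hv
    obtain ⟨c, rfl⟩ := Submodule.mem_span_singleton.1 hw
    have h2 : ggI G RI j (a + c • e) ∈ G.V 1 (j + 1) := by
      rw [map_add, map_smul]
      exact add_mem (G.V_mono 1 (Nat.le_succ j) (hpres j j a (by omega) ha))
        (Submodule.smul_mem _ c hcon)
    rcases LI1.gg_sgn (G := G) (RI := RI) j with h | h
    · rw [← h]; exact h2
    · rw [h] at h2
      exact neg_mem_iff.1 h2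
  · intro i j hij _ v
    have hc : RI (G.ρ i) (RI (G.ρ j) v) = RI (G.ρ j) (RI (G.ρ i) v) := by
      have h1 : RI (G.ρ i) * RI (G.ρ j) = RI (G.ρ j) * RI (G.ρ i) := by
        rw [← hE.mul, ← hE.mul, G.comm i j hij]
      exact congrArg (fun e : E d ≃ₗᵢ[ℝ] E d => e v) h1
    rw [LI1.gg_ne (G := G) (RI := RI) (j := j) (by omega),
      LI1.gg_ne (G := G) (RI := RI) (j := j) (by omega)]
    rcases LI1.gg_sgn (G := G) (RI := RI) i with h | h
    · rw [h, h, hc]
    · rw [h, h, map_neg, hc]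
  · intro j hj1 hj v hv
    by_cases hj' : j = 1
    · subst hj'
      have hv1 : v ∈ G.V 1 1 := hv
      rw [hD.V1] at hv1
      obtain ⟨c, rfl⟩ := Submodule.mem_span_singleton.1 hv1
      rw [LI1.gg_one, map_smul, he0, smul_neg, neg_neg]
    · rw [LI1.gg_ne hj']
      exact hfix j (by omega) hj v hv
  · obtain ⟨δ, h1, h2⟩ := hG.scal0
    exact ⟨δ, h1, fun v hv => by rw [LI1.gg_ne (by omega)]; exact h2 v hv⟩
  · intro i hi1 hi2
    exact ⟨Ph G 1 i l, LI1.Ph_sub i l, (hTI d k Γ X G l hT 1 i hi1 (by omega)).irr,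
      hG.Sp i hi1 (by omega)⟩
  · obtain ⟨a, ha, h1⟩ := hT.refl 1
    refine ⟨a, ⟨ha, G.ρ l, ⟨1, one_mem _, by group⟩, h1⟩, fun v => ?_⟩
    have hN : G.ρ l ∈ G.N := hT.up (G.ρ_mem_up (by omega))
    rw [LI1.gg_ne (by omega), hE.H _ (G.N_le hN) v (by rw [hTop]; trivial), ← h1]
    rw [AGeo.R]
    simp

end

end FOI.L
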