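import Pool.Agent.FOL.CStmts
import Pool.Agent.FOK.PRM

/-!
# FOI, module LMA: the model of type A (`FOK/PAPER.md`, 10.6)

The abstract form of `Pool/Agent/FOK/MA.lean`.
-/

set_option autoImplicit false

namespace FOI.L

open Lib_helper64.FO FO2 FOK
open scoped RealInnerProductSpace Nat

noncomputable section

namespace LMA

theorem renum {n : ℕ} {Φ : Set (E n)} {v : Fin (n + 1) → E n} (h : IsA Φ v)
    (π : Equiv.Perm (Fin (n + 1))) : IsA Φ (fun i => v (π i)) := by
  refine ⟨fun i j => ?_, fun a => ?_⟩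
  · rw [h.1]
    simp [π.injective.eq_iff]
  · rw [h.2]
    constructor
    · rintro ⟨i, j, hij, t, ht, ha, rfl⟩
      exact ⟨π.symm i, π.symm j, fun e => hij (π.symm.injective e), t, ht, ha, by simp⟩
    · rintro ⟨i, j, hij, t, ht, ha, rfl⟩
      exact ⟨π i, π j, fun e => hij (π.injective e), t, ht, ha, rfl⟩

end LMA

theorem t_LMA : M_LMA := by
  intro hMA1 n l j0 Φ V gg hG v hv hi
  obtain ⟨gm, τ, B, hS, hgm, hB, hP⟩ := hMA1 n l j0 Φ V gg hG v hv hi
  have hl := hG.l4
  have hln := hG.ln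
  obtain ⟨e, einj, eB, eτ⟩ := FOK.t_PRM (n + 1) τ B (by omega) hP
  have hinj : Function.Injective (fun i : Fin (n + 1) => e i.val) := fun i j h =>
    Fin.ext (einj i.val j.val i.isLt j.isLt h)
  let π : Equiv.Perm (Fin (n + 1)) :=
    Equiv.ofBijective (fun i : Fin (n + 1) => e i.val) (Finite.injective_iff_bijective.1 hinj)
  refine ⟨fun i => v (π i), gm, hS, LMA.renum hv π, ?_, ?_⟩
  · have h1 : e 0 ∈ B 1 := (eB 1 (by omega) (e 0)).2 ⟨0, one_pos, rfl⟩
    exact (hB 1 (by omega) (e 0)).1 h1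
  · intro j i
    have h1 : gm j (v (e i.val)) = v (τ j (e i.val)) := hgm j j.isLt (e i.val)
    have h2 := eτ j (by omega)
    have h3 : Equiv.swap (e j.val) (e (j.val + 1)) (e i.val) =
        e (Equiv.swap j.castSucc j.succ i).val :=
      hinj.swap_apply j.castSucc j.succ i
    rw [h2, h3] at h1
    exact h1

end

end FOI.L
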