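import Pool.Agent.FOL.CStmts
import Pool.Agent.FOK.MA1

/-!
# FOI, module LMA1: type A, first part (`FOK/PAPER.md`, 10.6)

`t_LMA1 : M_LMA1`, the abstract form of `Pool/Agent/FOK/MA1.lean`.
-/

set_option autoImplicit false

namespace FOI.L

open Lib_helper64.FO FO2 FOK
open scoped RealInnerProductSpace Nat

namespace LMA1

variable {n l j0 : ℕ} {Φ : Set (E n)} {V : ℕ → Submodule ℝ (E n)} {gg : ℕ → (E n ≃ₗᵢ[ℝ] E n)}

lemma V_mono (h : Lin n l j0 Φ V gg) {i j : ℕ} (hij : i ≤ j) (hj : j ≤ n) : V i ≤ V j := by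
  induction hij with
  | refl => exact le_rfl
  | step hm ih => exact (ih (by omega)).trans (h.mono _ (by omega))

/-- at most `m` of the vectors are in `V m` -/
lemma card_le (h : Lin n l j0 Φ V gg) {v : Fin (n + 1) → E n}
    (hv : ∀ i j, ⟪v i, v j⟫ = if i = j then (1 : ℝ) else -1 / n) {m : ℕ} (hm : m + 1 ≤ n)
    (s : Finset (Fin (n + 1))) (hs : ∀ p ∈ s, v p ∈ V m) : s.card ≤ m := by
  by_contra hcon
  push Not at hcon
  obtain ⟨t, hts, ht⟩ := Finset.exists_subset_card_eq (s := s) (n := m + 1) (by omega)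
  have h1 := MA1.finrank_span (by omega) hv t (by omega)
  have h2 : Submodule.span ℝ (v '' (t : Set (Fin (n + 1)))) ≤ V m := by
    rw [Submodule.span_le]
    rintro _ ⟨p, hp, rfl⟩
    exact hs p (hts hp)
  have h3 := Submodule.finrank_mono h2
  rw [h1, h.dimV m (by omega), ht] at h3
  omega

/-- `V m` is spanned by `m` of the vectors -/
lemma span_V (h : Lin n l j0 Φ V gg) {v : Fin (n + 1) → E n}
    (hv : ∀ i j, ⟪v i, v j⟫ = if i = j then (1 : ℝ) else -1 / n) {m : ℕ} (hm : m + 1 ≤ n)
    (s : Finset (Fin (n + 1))) (hs : ∀ p ∈ s, v p ∈ V m) (hc : s.card = m) :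
    Submodule.span ℝ (v '' (s : Set (Fin (n + 1)))) = V m := by
  have h1 := MA1.finrank_span (by omega) hv s (by omega)
  apply Submodule.eq_of_le_of_finrank_le
  · rw [Submodule.span_le]
    rintro _ ⟨p, hp, rfl⟩
    exact hs p hp
  · rw [h1, h.dimV m (by omega), hc]

/-- the complement of `V j` in `V (j + 1)` is not zero -/
lemma exists_D (h : Lin n l j0 Φ V gg) {j : ℕ} (hj : j < n) :
    ∃ e ∈ V (j + 1) ⊓ (V j)ᗮ, e ≠ 0 := by
  by_contra hcon
  push Not at hcon
  have h1 : V (j + 1) ≤ V j := by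
    intro w hw
    have h2 := Submodule.starProjection_add_starProjection_orthogonal (K := V j) w
    have h3 : (V j)ᗮ.starProjection w = w - (V j).starProjection w := by
      rw [eq_sub_iff_add_eq, add_comm]
      exact h2
    have h4 : (V j)ᗮ.starProjection w = 0 := by
      apply hcon
      refine ⟨?_, ?_⟩
      · rw [h3]
        exact sub_mem hw (h.mono j hj (Submodule.starProjection_apply_mem _ _))
      · exact Submodule.starProjection_apply_mem _ _
    rw [h4, add_zero] at h2
    rw [← h2]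
    exact Submodule.starProjection_apply_mem _ _
  have h5 := Submodule.finrank_mono h1
  rw [h.dimV _ (by omega), h.dimV _ (by omega)] at h5
  omega

end LMA1

open LMA1 in
theorem t_LMA1 : M_LMA1 := by
  intro hLSG n l j0 Φ V gg hG v hA hi0
  classical
  obtain ⟨i0, h0⟩ := hi0
  have hl4 := hG.l4
  have hln := hG.ln
  have hv := hA.1
  have hd0 : 0 < n := by omega
  -- `±` permutations
  have hpm : ∀ (gm : ℕ → (E n ≃ₗᵢ[ℝ] E n)), Lin n l j0 Φ V gm → ∀ j, j < n →
      ∃ π : Equiv.Perm (Fin (n + 1)), (∀ i, gm j (v i) = v (π i)) ∨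
        (∀ i, gm j (v i) = -v (π i)) := by
    intro gm hgm j hj
    exact autA n Φ v (by omega) hA (gm j) (fun a ha => (hgm.root j hj a).2 ha)
  have hpure : ∀ (gm : ℕ → (E n ≃ₗᵢ[ℝ] E n)), Lin n l j0 Φ V gm → ∀ j, 1 ≤ j → j < n →
      ∃ π : Equiv.Perm (Fin (n + 1)), ∀ i, gm j (v i) = v (π i) := by
    intro gm hgm j hj1 hj
    obtain ⟨π, h | h⟩ := hpm gm hgm j hj
    · exact ⟨π, h⟩
    · exfalso
      have h1 := hgm.fix j hj1 hj (v i0) (V_mono hgm hj1 hj.le h0)
      rw [h i0] at h1
      exact MA1.ne_neg_v (by omega) hv h1.symm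
  have hex : ∃ gm : ℕ → (E n ≃ₗᵢ[ℝ] E n), SgEq gg gm ∧ Lin n l j0 Φ V gm ∧ ∀ j, j < n →
      ∃ π : Equiv.Perm (Fin (n + 1)), ∀ i, gm j (v i) = v (π i) := by
    obtain ⟨π, h | h⟩ := hpm gg hG 0 hd0
    · refine ⟨gg, ⟨fun _ _ => rfl, Or.inl fun _ => rfl⟩, hG, ?_⟩
      intro j hj
      rcases Nat.eq_zero_or_pos j with rfl | hj1
      · exact ⟨π, h⟩
      · exact hpure gg hG j hj1 hj
    · have hS : SgEq gg (fun j => if j = 0 then (gg 0).trans (LinearIsometryEquiv.neg ℝ)
          else gg j) := by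
        refine ⟨?_, Or.inr ?_⟩
        · intro j hj
          have hj0 : j ≠ 0 := by omega
          simp only [if_neg hj0]
        · intro w
          simp
      have hG' := hLSG n l j0 Φ V gg _ hG hS
      refine ⟨_, hS, hG', ?_⟩
      intro j hj
      rcases Nat.eq_zero_or_pos j with rfl | hj1
      · refine ⟨π, fun i => ?_⟩
        simp only [if_true, LinearIsometryEquiv.trans_apply]
        rw [h i]
        simp
      · exact hpure _ hG' j hj1 hj
  obtain ⟨gm, hSg, hgm, hπ⟩ := hex
  have hπ' : ∀ j, ∃ π : Equiv.Perm (Fin (n + 1)), j < n → ∀ i, gm j (v i) = v (π i) := by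
    intro j
    by_cases hj : j < n
    · obtain ⟨π, h⟩ := hπ j hj
      exact ⟨π, fun _ => h⟩
    · exact ⟨1, fun h => absurd h hj⟩
  choose τ hτ using hπ'
  have hBm : ∀ i p, p ∈ Finset.univ.filter (fun p => v p ∈ V i) ↔ v p ∈ V i := by
    intro i p
    simp
  obtain ⟨B, hB⟩ : ∃ B : ℕ → Finset (Fin (n + 1)), ∀ i p, p ∈ B i ↔ v p ∈ V i :=
    ⟨_, hBm⟩
  have hinj : ∀ {i j : Fin (n + 1)}, v i = v j → i = j := fun h => MA1.inj_v hd0 hv h
  have hsubB : ∀ i j, i ≤ j → j ≤ n → B i ⊆ B j := by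
    intro i j hij hj p hp
    rw [hB] at hp ⊢
    exact V_mono hgm hij hj hp
  have hpres : ∀ j i, j < n → i ≤ n → i ≠ j + 1 → ∀ p ∈ B i, τ j p ∈ B i := by
    intro j i hj hi hne p hp
    rw [hB] at hp ⊢
    rw [← hτ j hj]
    exact hgm.pres j i _ hj hi hne hp
  -- the crucial point
  have hmoves : ∀ j, j + 2 ≤ n → (B (j + 1)).card = j + 1 →
      ∃ p ∈ B (j + 1), τ j p ∉ B (j + 1) := by
    intro j hj hc
    by_contra hcon
    push Not at hcon
    have h1 := span_V hgm hv (m := j + 1) (by omega) (B (j + 1)) (fun p hp => (hB _ p).1 hp) hc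
    obtain ⟨e, he, he0⟩ := exists_D hgm (j := j) (by omega)
    apply hgm.moves j (by omega) e he he0
    have h2 : e ∈ Submodule.span ℝ (v '' (B (j + 1) : Set (Fin (n + 1)))) := by
      rw [h1]
      exact he.1
    clear he he0
    induction h2 using Submodule.span_induction with
    | mem x hx =>
      obtain ⟨p, hp, rfl⟩ := hx
      rw [hτ j (by omega)]
      exact (hB _ _).1 (hcon p hp)
    | zero => rw [map_zero]; exact zero_mem _
    | add x y _ _ hx hy => rw [map_add]; exact add_mem hx hy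
    | smul a x _ hx => rw [map_smul]; exact Submodule.smul_mem _ a hx
  have hcle : ∀ i, i + 1 ≤ n → (B i).card ≤ i := fun i hi =>
    card_le hgm hv hi (B i) (fun p hp => (hB _ p).1 hp)
  have hcard : ∀ i, i + 1 ≤ n → (B i).card = i := by
    intro i
    induction i with
    | zero =>
      intro h
      have := hcle 0 h
      omega
    | succ i ih =>
      intro h
      apply le_antisymm (hcle _ h)
      rcases i with _ | i
      · exact Finset.card_pos.2 ⟨i0, (hB _ _).2 h0⟩
      · have h1 := ih (by omega)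
        obtain ⟨p, hp, hp'⟩ := hmoves i (by omega) h1
        have h2 : τ i p ∈ B (i + 1 + 1) :=
          hpres i (i + 1 + 1) (by omega) (by omega) (by omega) p
            (hsubB _ _ (Nat.le_succ _) (by omega) hp)
        have h3 : insert (τ i p) (B (i + 1)) ⊆ B (i + 1 + 1) := by
          intro q hq
          rw [Finset.mem_insert] at hq
          rcases hq with rfl | hq
          · exact h2
          · exact hsubB _ _ (Nat.le_succ _) (by omega) hq
        have h4 := Finset.card_le_card h3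
        rw [Finset.card_insert_of_notMem hp', h1] at h4
        exact h4
  refine ⟨gm, τ, B, hSg, hτ, fun i _ p => hB i p, ?_⟩
  refine ⟨?_, ?_, ?_, ?_, ?_, ?_, ?_, ?_, ?_⟩
  · intro i hi
    exact hcard i (by omega)
  · intro i hi
    exact hsubB _ _ (Nat.le_succ i) (by omega)
  · intro j i hj hi hne p hp
    exact hpres j i (by omega) (by omega) hne p hp
  · intro j hj p hp
    apply hinj
    rw [← hτ j (by omega)]
    rcases Nat.eq_zero_or_pos j with rfl | hj1
    · exfalso
      have h1 := hcard 0 (by omega)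
      rw [Finset.card_eq_zero] at h1
      rw [h1] at hp
      exact absurd hp (Finset.notMem_empty p)
    · exact hgm.fix j hj1 (by omega) _ ((hB _ _).1 hp)
  · intro j hj
    exact hmoves j (by omega) (hcard _ (by omega))
  · intro j hj
    ext1 i
    apply hinj
    rw [Equiv.Perm.mul_apply, ← hτ j (by omega), ← hτ j (by omega), hgm.sq j (by omega)]
    rfl
  · intro i j hij hj
    ext1 p
    apply hinj
    rw [Equiv.Perm.mul_apply, Equiv.Perm.mul_apply, ← hτ i (by omega), ← hτ j (by omega),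
      ← hτ j (by omega), ← hτ i (by omega), hgm.comm i j hij (by omega)]
  · intro h
    have e : n + 1 - 2 = n - 1 := by omega
    rw [e] at h
    obtain ⟨w, hw⟩ := hgm.ne
    apply hw
    have h1 := MA1.ext_v hd0 hv (g := gm (n - 1)) (h := 1)
      (fun i => by rw [hτ (n - 1) (by omega), h]; rfl) w
    exact h1
  · intro h
    have e1 : n + 1 - 2 = n - 1 := by omega
    have e2 : n + 1 - 5 = n - 4 := by omega
    have e3 : n + 1 - 4 = n - 3 := by omega
    rw [e1, e2, e3] at h
    obtain ⟨w, hw⟩ := hgm.nc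
    apply hw
    have hmul : ∀ (a b : E n ≃ₗᵢ[ℝ] E n) (z : E n), (a * b) z = a (b z) := fun _ _ _ => rfl
    have hx : ∀ i, (gm (n - 4) * gm (n - 3)) (v i) = v ((τ (n - 4) * τ (n - 3)) i) := by
      intro i
      rw [hmul, hτ (n - 3) (by omega), hτ (n - 4) (by omega),
        Equiv.Perm.mul_apply]
    have hx3 : ∀ i, ((gm (n - 4) * gm (n - 3)) ^ 3) (v i) =
        v (((τ (n - 4) * τ (n - 3)) ^ 3) i) := by
      intro i
      rw [pow_succ, pow_two, hmul, hmul, hx, hx, hx, pow_succ, pow_two]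
      rfl
    apply MA1.ext_v hd0 hv
    intro i
    rw [hx3, h, hτ (n - 1) (by omega)]

end FOI.L
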