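import Pool.Agent.FOL.CStmts

/-!
# FOI, section III.6 (FOK 10.8): the signs `ε j` with `j0 ≤ j ≤ l`
-/

namespace FOI.L

open Lib_helper64.FO FO2 FOK
open scoped RealInnerProductSpace Nat

noncomputable section

namespace LMC2

variable {n l j0 : ℕ} {Φ : Set (E n)} {V : ℕ → Submodule ℝ (E n)} {gg : ℕ → (E n ≃ₗᵢ[ℝ] E n)}

theorem eq_zero_of {v : E n} (h : v = -v) : v = 0 := by
  have h1 : (2 : ℝ) • v = 0 := by
    rw [two_smul]
    nth_rewrite 1 [h]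
    exact neg_add_cancel v
  exact (smul_eq_zero.1 h1).resolve_left two_ne_zero

theorem u_ne {u : OrthonormalBasis (Fin n) ℝ (E n)} {i j : Fin n} (h : i ≠ j) :
    ⟪u i, u j⟫ = 0 := u.orthonormal.2 h

theorem u_unit (u : OrthonormalBasis (Fin n) ℝ (E n)) (i : Fin n) : u i ≠ 0 := fun h => by
  have := u.orthonormal.1 i
  rw [h, norm_zero] at this
  norm_num at this

/-- `g_l` fixes the orthogonal complement of `u_l` and `u_{l+1}` -/
theorem fixl (hL : Lin n l j0 Φ V gg) {u : OrthonormalBasis (Fin n) ℝ (E n)} {ε : ℕ → ℝ}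
    (hA : LAxes V gg u ε) (h0 : l < n) (h1 : l + 1 < n) (v : E n) (hv0 : ⟪u ⟨l, h0⟩, v⟫ = 0)
    (hv1 : ⟪u ⟨l + 1, h1⟩, v⟫ = 0) : gg l v = v := by
  obtain ⟨a, ha, hR⟩ := hL.refl
  have hsw : gg l (u ⟨l, h0⟩) = u ⟨l + 1, h1⟩ := hA.sw1 ⟨l, h0⟩ ⟨l + 1, h1⟩ rfl
  rw [hR, sref] at hsw
  have hne : u ⟨l, h0⟩ ≠ u ⟨l + 1, h1⟩ := by
    intro h
    have h2 := u.toBasis.injective
      (show u.toBasis ⟨l, h0⟩ = u.toBasis ⟨l + 1, h1⟩ by
        rw [OrthonormalBasis.coe_toBasis]; exact h)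
    rw [Fin.mk.injEq] at h2
    omega
  have hav : ⟪a, v⟫ = 0 := by
    have h3 : ⟪u ⟨l, h0⟩ - (2 * ⟪a, u ⟨l, h0⟩⟫) • a, v⟫ = ⟪u ⟨l + 1, h1⟩, v⟫ := by rw [hsw]
    rw [inner_sub_left, real_inner_smul_left, hv0, hv1, zero_sub, neg_eq_zero] at h3
    rcases mul_eq_zero.1 h3 with h4 | h4
    · exfalso
      apply hne
      rw [h4, zero_smul, sub_zero] at hsw
      exact hsw
    · exact h4
  rw [hR, sref, hav, mul_zero, zero_smul, sub_zero]

/-- the product `P = g_i … g_{l-1}` on `u_l` and `u_{l+1}` -/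
theorem chain {u : OrthonormalBasis (Fin n) ℝ (E n)} {ε : ℕ → ℝ}
    (hA : LAxes V gg u ε) (h0 : l < n) (h1 : l + 1 < n) (k : ℕ) : ∀ (i : ℕ) (hi : i < n), i + k = l →
    ((List.range' i k).map gg).prod (u ⟨l, h0⟩) = u ⟨i, hi⟩ ∧
    ∃ e : ℝ, (e = 1 ∨ e = -1) ∧
      ((List.range' i k).map gg).prod (u ⟨l + 1, h1⟩) = e • u ⟨l + 1, h1⟩ := by
  induction k with
  | zero =>
    intro i hi hil
    have e : i = l := by omega
    subst e
    refine ⟨rfl, 1, Or.inl rfl, ?_⟩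
    rw [one_smul]
    rfl
  | succ k ih =>
    intro i hi hil
    obtain ⟨hBl, e, he, hB1⟩ := ih (i + 1) (by omega) (by omega)
    have hP : ∀ v, ((List.range' i (k + 1)).map gg).prod v =
        gg i (((List.range' (i + 1) k).map gg).prod v) := by
      intro v
      rw [List.range'_succ, List.map_cons, List.prod_cons]
      rfl
    refine ⟨?_, e * ε i, ?_, ?_⟩
    · rw [hP, hBl]
      exact hA.sw2 ⟨i, hi⟩ ⟨i + 1, by omega⟩ rfl
    · rcases he with rfl | rfl <;> rcases hA.sgn i with h | h <;> rw [h] <;> norm_num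
    · rw [hP, hB1, map_smul, mul_smul]
      congr 1
      exact hA.hi ⟨i, hi⟩ ⟨l + 1, h1⟩ (by change i + 2 ≤ l + 1; omega)

theorem main (hL : Lin n l j0 Φ V gg) {u : OrthonormalBasis (Fin n) ℝ (E n)} {ε : ℕ → ℝ}
    (hA : LAxes V gg u ε) {j : ℕ} (hj0 : j0 ≤ j) (hjl : j < l) (hε : ε j = -1) : False := by
  have hl4 := hL.l4
  have hln := hL.ln
  have hj : 1 ≤ j := by
    rcases hL.j01 with h | h <;> omega
  have h0 : l < n := by omega
  have h1 : l + 1 < n := by omega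
  have hjn : j < n := by omega
  obtain ⟨hPl, e, he, hP1⟩ := chain hA h0 h1 (l + 1 - j) (j - 1) (by omega) (by omega)
  change PP gg j l (u ⟨l, h0⟩) = _ at hPl
  change PP gg j l (u ⟨l + 1, h1⟩) = _ at hP1
  obtain ⟨P, hP⟩ : ∃ P, P = PP gg j l := ⟨_, rfl⟩
  rw [← hP] at hPl hP1
  obtain ⟨Q, hQ⟩ : ∃ Q : E n ≃ₗᵢ[ℝ] E n, Q = P⁻¹ * gg j * P := ⟨_, rfl⟩
  have hPQ : ∀ v, P (Q v) = gg j (P v) := by
    intro v
    have h : P * Q = gg j * P := by rw [hQ]; group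
    have h2 : (P * Q) v = (gg j * P) v := by rw [h]
    exact h2
  have hY : ∀ v, YY gg j l v = gg l (Q (gg l (Q v))) := by
    intro v
    have h : YY gg j l = (gg l * Q) * (gg l * Q) := by rw [YY, hQ, hP, pow_two]
    rw [h]
    rfl
  have glow : gg j (u ⟨j - 1, by omega⟩) = u ⟨j - 1, by omega⟩ :=
    hA.low ⟨j, hjn⟩ ⟨j - 1, by omega⟩ hj (by change j - 1 < j; omega)
  have ghi : gg j (u ⟨l + 1, h1⟩) = -u ⟨l + 1, h1⟩ := by
    have := hA.hi ⟨j, hjn⟩ ⟨l + 1, h1⟩ (by change j + 2 ≤ l + 1; omega)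
    rw [this, hε, neg_one_smul]
  have gsw1 : gg l (u ⟨l, h0⟩) = u ⟨l + 1, h1⟩ := hA.sw1 ⟨l, h0⟩ ⟨l + 1, h1⟩ rfl
  have gsw2 : gg l (u ⟨l + 1, h1⟩) = u ⟨l, h0⟩ := hA.sw2 ⟨l, h0⟩ ⟨l + 1, h1⟩ rfl
  have Ql : Q (u ⟨l, h0⟩) = u ⟨l, h0⟩ := by
    apply P.injective
    rw [hPQ, hPl, glow]
  have Q1 : Q (u ⟨l + 1, h1⟩) = -u ⟨l + 1, h1⟩ := by
    apply P.injective
    rw [hPQ, hP1, map_smul, ghi, map_neg, hP1, smul_neg]
  have QQ : ∀ v, Q (Q v) = v := by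
    intro v
    apply P.injective
    rw [hPQ, hPQ, hL.sq j hjn]
  have Yl : YY gg j l (u ⟨l, h0⟩) = -u ⟨l, h0⟩ := by
    rw [hY, Ql, gsw1, Q1, map_neg, gsw2]
  have Yv : ∀ v, ⟪u ⟨l, h0⟩, v⟫ = 0 → ⟪u ⟨l + 1, h1⟩, v⟫ = 0 → YY gg j l v = v := by
    intro v hv0 hv1
    have o0 : ⟪u ⟨l, h0⟩, Q v⟫ = 0 := by
      rw [← Ql, Q.inner_map_map, hv0]
    have o1 : ⟪u ⟨l + 1, h1⟩, Q v⟫ = 0 := by
      have h3 : ⟪Q (u ⟨l + 1, h1⟩), Q v⟫ = 0 := by rw [Q.inner_map_map, hv1]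
      rw [Q1, inner_neg_left, neg_eq_zero] at h3
      exact h3
    rw [hY, fixl hL hA h0 h1 (Q v) o0 o1, QQ, fixl hL hA h0 h1 v hv0 hv1]
  have hV : ∀ v ∈ V l, YY gg j l v = v := by
    intro v hv
    rw [hA.V l (by omega)] at hv
    have o : ∀ m : Fin n, l ≤ m.val → ⟪u m, v⟫ = 0 := by
      intro m hm
      refine Submodule.span_induction (p := fun v _ => ⟪u m, v⟫ = 0) ?_ ?_ ?_ ?_ hv
      · rintro _ ⟨m', hm', rfl⟩
        apply u_ne
        intro h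
        have h2 : m'.val < l := hm'
        rw [← h] at h2
        omega
      · exact inner_zero_right _
      · intro a b _ _ ha hb
        rw [inner_add_right, ha, hb, add_zero]
      · intro c a _ ha
        rw [real_inner_smul_right, ha, mul_zero]
    exact Yv v (o ⟨l, h0⟩ le_rfl) (o ⟨l + 1, h1⟩ (by change l ≤ l + 1; omega))
  rcases hL.x2 j hj0 hjl hV with h2 | h2
  · have h3 := h2 (u ⟨l, h0⟩)
    rw [Yl] at h3
    exact u_unit u _ (eq_zero_of h3.symm)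
  · have h3 := h2 (u ⟨l, h0⟩)
    rw [Yl, gsw1] at h3
    have h4 : ⟪u ⟨l, h0⟩, u ⟨l + 1, h1⟩⟫ = 0 := by
      apply u_ne
      intro h
      rw [Fin.mk.injEq] at h
      omega
    rw [← h3, inner_neg_right, neg_eq_zero, inner_self_eq_zero] at h4
    exact u_unit u _ h4

end LMC2

open LMC2 in
/-- 10.8: the signs `ε j` with `j0 ≤ j ≤ l` are `1` -/
theorem t_LMC2 : S_LMC2 := by
  intro n l j0 Φ V gg hL u ε hA j hj hjl
  have hl4 := hL.l4
  have hln := hL.ln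
  rcases Nat.lt_or_ge j l with h | h
  · rcases hA.sgn j with h2 | h2
    · exact h2
    · exact (main hL hA hj h h2).elim
  · have e : j = l := by omega
    subst e
    have h0 : j < n := by omega
    have h1 : j + 1 < n := by omega
    have h2 : j + 2 < n := by omega
    have h3 := fixl hL hA h0 h1 (u ⟨j + 2, h2⟩)
      (u_ne (fun h => by rw [Fin.mk.injEq] at h; omega))
      (u_ne (fun h => by rw [Fin.mk.injEq] at h; omega))
    have h4 := hA.hi ⟨j, h0⟩ ⟨j + 2, h2⟩ le_rfl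
    rcases hA.sgn j with h5 | h5
    · exact h5
    · exfalso
      have h6 : gg j (u ⟨j + 2, h2⟩) = ε j • u ⟨j + 2, h2⟩ := h4
      rw [h3, h5, neg_one_smul] at h6
      exact u_unit u _ (eq_zero_of h6)

end

end FOI.L
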