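import Pool.Agent.FOL.CStmts
import Pool.Agent.FO2.AUD
import Pool.Agent.FO2.PD

/-!
# FOI, module LMD1: III.6, the cube, first part (a variant of `FOK/MD1.lean`)
-/

set_option autoImplicit false

namespace FOI.L

open Lib_helper64.FO FO2 FOK
open scoped RealInnerProductSpace

namespace LMD1

variable {d : ℕ}

lemma inner_u (u : OrthonormalBasis (Fin d) ℝ (E d)) (i j : Fin d) :
    ⟪u i, u j⟫ = if i = j then (1 : ℝ) else 0 :=
  orthonormal_iff_ite.1 u.orthonormal i j

lemma inner_u_sum (u : OrthonormalBasis (Fin d) ℝ (E d)) (i : Fin d) :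
    ⟪u i, ∑ j, u j⟫ = (1 : ℝ) := by
  rw [inner_sum]
  simp only [inner_u]
  simp

lemma sum_ne (hd : 0 < d) (u : OrthonormalBasis (Fin d) ℝ (E d)) : ∑ j, u j ≠ 0 := by
  intro h
  have := inner_u_sum u ⟨0, hd⟩
  rw [h, inner_zero_right] at this
  exact zero_ne_one this

/-- signs such that the base vertex is a multiple of the sum of the axes -/
lemma signs (hd : 0 < d) {Φ : Set (E d)} {u : OrthonormalBasis (Fin d) ℝ (E d)} (hu : IsD Φ u)
    {y0 : E d} (hy : ∀ i, ⟪y0, u i⟫ ^ 2 = (1 / d : ℝ)) :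
    ∃ (u' : OrthonormalBasis (Fin d) ℝ (E d)) (c : ℝ), IsD Φ u' ∧ ∑ i, u' i = c • y0 := by
  have hd' : (0 : ℝ) < d := by exact_mod_cast hd
  obtain ⟨u', hD, hu'⟩ := PD.isD_signs hd hu (fun i => if 0 ≤ ⟪y0, u i⟫ then 1 else -1)
  have h1 : ∀ i, ⟪u' i, y0⟫ = √(1 / d : ℝ) := by
    intro i
    rw [hu' i, inner_smul_left, real_inner_comm y0 (u i)]
    simp only [conj_trivial]
    by_cases h : 0 ≤ ⟪y0, u i⟫
    · rw [if_pos h, ← hy i, Real.sqrt_sq h]
      simp [sg]
    · rw [if_neg h, ← hy i, Real.sqrt_sq_eq_abs, abs_of_neg (not_le.1 h)]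
      simp [sg]
  have hs : √(1 / d : ℝ) ≠ 0 := (Real.sqrt_pos.2 (by positivity)).ne'
  refine ⟨u', (√(1 / d : ℝ))⁻¹, hD, ?_⟩
  have h2 := u'.sum_repr' y0
  rw [← h2, Finset.smul_sum]
  refine Finset.sum_congr rfl fun i _ => ?_
  rw [h1, smul_smul, inv_mul_cancel₀ hs, one_smul]

section

variable {l j0 : ℕ} {Φ : Set (E d)} {V : ℕ → Submodule ℝ (E d)} {gg : ℕ → (E d ≃ₗᵢ[ℝ] E d)}

lemma V_mono (hT : Lin d l j0 Φ V gg) {i j : ℕ} (hij : i ≤ j) (hj : j ≤ d) : V i ≤ V j := by
  induction j, hij using Nat.le_induction with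
  | base => exact le_rfl
  | succ j _ ih => exact (ih (by omega)).trans (hT.mono j (by omega))

/-- a family of unit vectors in `V n` that are pairwise orthogonal spans `V n` -/
lemma span_eq (hT : Lin d l j0 Φ V gg) {n : ℕ} (hn : n ≤ d) {b : ℕ → E d} (hm : ∀ i, i < n → b i ∈ V n)
    (h1 : ∀ i, i < n → ‖b i‖ = 1) (h2 : ∀ i j, i < j → j < n → ⟪b i, b j⟫ = (0 : ℝ)) :
    V n = Submodule.span ℝ (b '' {m | m < n}) := by
  have ho : Orthonormal ℝ (fun i : Fin n => b i) := by
    refine ⟨fun i => h1 i i.2, ?_⟩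
    intro i j hij
    rcases lt_or_gt_of_ne hij with h | h
    · exact h2 i j h j.2
    · show ⟪b i, b j⟫ = (0 : ℝ)
      rw [real_inner_comm]
      exact h2 j i h i.2
  have hr : Set.range (fun i : Fin n => b i) = b '' {m | m < n} := by
    ext w
    constructor
    · rintro ⟨i, rfl⟩
      exact ⟨i, i.2, rfl⟩
    · rintro ⟨m, hm, rfl⟩
      exact ⟨⟨m, hm⟩, rfl⟩
  rw [← hr]
  symm
  refine Submodule.eq_of_le_of_finrank_le ?_ ?_
  · rw [Submodule.span_le]
    rintro _ ⟨i, rfl⟩
    exact hm i i.2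
  · rw [hT.dimV n hn, finrank_span_eq_card ho.linearIndependent, Fintype.card_fin]

/-- two orthogonal unit vectors in `V 2` span it -/
lemma span_two (hT : Lin d l j0 Φ V gg) {a b : E d} (ha : a ∈ V 2) (hb : b ∈ V 2) (ha1 : ‖a‖ = 1)
    (hb1 : ‖b‖ = 1) (hab : ⟪a, b⟫ = (0 : ℝ)) {p : E d → Prop} (pa : p a) (pb : p b) (p0 : p 0)
    (padd : ∀ x y, p x → p y → p (x + y)) (psmul : ∀ (c : ℝ) x, p x → p (c • x)) :
    ∀ v ∈ V 2, p v := by
  intro v hv
  have hd : 2 ≤ d := by have := hT.ln; omega
  rw [span_eq hT hd (b := fun i => if i = 0 then a else b)] at hv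
  · induction hv using Submodule.span_induction with
    | mem x hx =>
      obtain ⟨m, _, rfl⟩ := hx
      dsimp only
      split_ifs
      · exact pa
      · exact pb
    | zero => exact p0
    | add x y _ _ hx hy => exact padd x y hx hy
    | smul c x _ hx => exact psmul c x hx
  · intro i _
    split_ifs
    · exact ha
    · exact hb
  · intro i _
    split_ifs
    · exact ha1
    · exact hb1
  · intro i j hij hj
    rw [if_pos (by omega), if_neg (by omega)]
    exact hab

/-- `g_0` is a reflection with root in `V_2` -/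
lemma refl0 (hT : Lin d l j0 Φ V gg)
    (h2 : ∀ v ∈ (V 2)ᗮ, gg 0 v = v) {e : E d} (he : e ∈ V 1) (hne : e ≠ 0) :
    gg 0 e ∉ V 1 ∧ ∃ a ∈ V 2, ‖a‖ = 1 ∧ ∀ v, gg 0 v = sref a v := by
  have hd : l + 18 ≤ d := hT.ln
  have hV0 : V 0 = ⊥ := by
    have := hT.dimV 0 (Nat.zero_le _)
    exact Submodule.finrank_eq_zero.1 this
  have heD : e ∈ V (0 + 1) ⊓ (V 0)ᗮ := by
    refine ⟨he, ?_⟩
    rw [hV0, Submodule.bot_orthogonal_eq_top]
    trivial
  have hmv : gg 0 e ∉ V 1 := hT.moves 0 (by omega) e heD hne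
  refine ⟨hmv, ?_⟩
  have hsq := hT.sq 0 (by omega)
  have he2 : e ∈ V 2 := V_mono hT (by omega) (by omega) he
  have hge2 : gg 0 e ∈ V 2 := hT.pres 0 2 e (by omega) (by omega) (by omega) he2
  have hw : e - gg 0 e ≠ 0 := by
    intro h
    apply hmv
    rw [← sub_eq_zero.1 h]
    exact he
  have hz : e + gg 0 e ≠ 0 := by
    intro h
    apply hmv
    have : gg 0 e = -e := (eq_neg_of_add_eq_zero_right h)
    rw [this]
    exact neg_mem he
  have hwz : ⟪e - gg 0 e, e + gg 0 e⟫ = (0 : ℝ) := by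
    rw [inner_sub_left, inner_add_right, inner_add_right, LinearIsometryEquiv.inner_map_map,
      real_inner_comm e (gg 0 e)]
    ring
  have hwn : ‖e - gg 0 e‖ ≠ 0 := norm_ne_zero_iff.2 hw
  have hzn : ‖e + gg 0 e‖ ≠ 0 := norm_ne_zero_iff.2 hz
  have ha2 : ‖e - gg 0 e‖⁻¹ • (e - gg 0 e) ∈ V 2 := Submodule.smul_mem _ _ (sub_mem he2 hge2)
  have ha1 : ‖‖e - gg 0 e‖⁻¹ • (e - gg 0 e)‖ = 1 := by
    rw [norm_smul, norm_inv, norm_norm, inv_mul_cancel₀ hwn]
  have hb1 : ‖‖e + gg 0 e‖⁻¹ • (e + gg 0 e)‖ = 1 := by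
    rw [norm_smul, norm_inv, norm_norm, inv_mul_cancel₀ hzn]
  refine ⟨‖e - gg 0 e‖⁻¹ • (e - gg 0 e), ha2, ha1, ?_⟩
  have hab : ⟪‖e - gg 0 e‖⁻¹ • (e - gg 0 e), ‖e + gg 0 e‖⁻¹ • (e + gg 0 e)⟫ = (0 : ℝ) := by
    rw [inner_smul_left, inner_smul_right, hwz, mul_zero, mul_zero]
  have hV : ∀ v ∈ V 2, gg 0 v = sref (‖e - gg 0 e‖⁻¹ • (e - gg 0 e)) v := by
    refine span_two hT ha2 (Submodule.smul_mem _ _ (add_mem he2 hge2)) ha1 hb1 hab ?_ ?_ ?_ ?_ ?_
    · rw [sref_self ha1, map_smul, map_sub, hsq, ← smul_neg, neg_sub]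
    · rw [sref, hab, mul_zero, zero_smul, sub_zero, map_smul, map_add, hsq, add_comm]
    · rw [map_zero, sref, inner_zero_right, mul_zero, zero_smul, sub_zero]
    · intro x y hx hy
      rw [map_add, hx, hy, sref_add]
    · intro c x hx
      rw [map_smul, hx, sref_smul]
  intro v
  obtain ⟨y, hy, z, hz, rfl⟩ := (V 2).exists_add_mem_mem_orthogonal v
  rw [map_add, sref_add, hV y hy, h2 z hz]
  congr 1
  have : ⟪‖e - gg 0 e‖⁻¹ • (e - gg 0 e), z⟫ = (0 : ℝ) :=
    (Submodule.mem_orthogonal _ _).1 hz _ ha2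
  rw [sref, this, mul_zero, zero_smul, sub_zero]

/-- the second possibility is excluded -/
lemma excl (hT : Lin d l j0 Φ V gg) {u : OrthonormalBasis (Fin d) ℝ (E d)}
    (hu : IsD Φ u) (he : ∑ i, u i ∈ V 1) {p q : Fin d} (hpq : p ≠ q)
    (hc : u p + u q ∈ V 2) : False := by
  have hd : l + 18 ≤ d := hT.ln
  obtain ⟨Ψ, hsub, hirr, hspan⟩ := hT.sub 2 (by omega) (by omega)
  have he2 : ∑ i, u i ∈ V 2 := V_mono hT (by omega) (by omega) he
  -- elements of the root system
  have hU : ∀ b ∈ Ψ, b ∈ (V 2)ᗮ := by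
    intro b hb
    rw [← hspan]
    exact Submodule.subset_span hb
  have hs2 : (1 / √2 : ℝ) ≠ 0 := by positivity
  have key : ∀ b ∈ Ψ, b ∈ Submodule.span ℝ {u p - u q} ∨
      b ∈ (Submodule.span ℝ {u p - u q})ᗮ := by
    intro b hb
    have hbe : ⟪∑ i, u i, b⟫ = (0 : ℝ) := (Submodule.mem_orthogonal _ _).1 (hU b hb) _ he2
    have hbc : ⟪u p + u q, b⟫ = (0 : ℝ) := (Submodule.mem_orthogonal _ _).1 (hU b hb) _ hc
    obtain ⟨i, j, hij, s, t, rfl⟩ := (hu b).1 (hsub hb)
    rw [inner_smul_right, inner_add_right, inner_smul_right, inner_smul_right,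
      real_inner_comm, inner_u_sum, real_inner_comm, inner_u_sum] at hbe
    have hst : sg s + sg t = 0 := by
      rcases mul_eq_zero.1 hbe with h | h
      · exact absurd h hs2
      · simpa using h
    have ht : sg t = - sg s := by linarith
    rw [ht] at hbc ⊢
    rw [inner_smul_right, inner_add_right, inner_smul_right, inner_smul_right,
      inner_add_left, inner_add_left, inner_u, inner_u, inner_u, inner_u] at hbc
    have hbc' : (if p = i then (1 : ℝ) else 0) + (if q = i then 1 else 0)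
        = (if p = j then 1 else 0) + (if q = j then 1 else 0) := by
      rcases mul_eq_zero.1 hbc with h | h
      · exact absurd h hs2
      · have := PD.sg_ne s
        have h' : sg s * (((if p = i then (1 : ℝ) else 0) + (if q = i then 1 else 0))
          - ((if p = j then 1 else 0) + (if q = j then 1 else 0))) = 0 := by linarith
        rcases mul_eq_zero.1 h' with h'' | h''
        · exact absurd h'' this
        · linarith
    by_cases hpi : p = i
    · subst hpi
      have hqj : q = j := by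
        by_contra hqj
        rw [if_pos rfl, if_neg hpq.symm, if_neg hij, if_neg hqj] at hbc'
        norm_num at hbc'
      subst hqj
      left
      rw [Submodule.mem_span_singleton]
      exact ⟨(1 / √2 : ℝ) * sg s, by module⟩
    · by_cases hqi : q = i
      · subst hqi
        have hpj : p = j := by
          by_contra hpj
          rw [if_neg hpi, if_pos rfl, if_neg hpj, if_neg hij] at hbc'
          norm_num at hbc'
        subst hpj
        left
        rw [Submodule.mem_span_singleton]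
        exact ⟨-((1 / √2 : ℝ) * sg s), by module⟩
      · rw [if_neg hpi, if_neg hqi] at hbc'
        have hpj : p ≠ j := by
          intro h
          rw [if_pos h] at hbc'
          split_ifs at hbc' <;> norm_num at hbc'
        have hqj : q ≠ j := by
          intro h
          rw [if_neg hpj, if_pos h] at hbc'
          norm_num at hbc'
        right
        rw [Submodule.mem_orthogonal_singleton_iff_inner_right, inner_smul_right, inner_add_right,
          inner_smul_right, inner_smul_right, inner_sub_left, inner_sub_left, inner_u, inner_u,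
          inner_u, inner_u, if_neg hpi, if_neg hqi, if_neg hpj, if_neg hqj]
        ring
  -- a third index
  obtain ⟨r, hrp, hrq⟩ : ∃ r : Fin d, r ≠ p ∧ r ≠ q := by
    have h3 : ({p, q} : Finset (Fin d)).card < Fintype.card (Fin d) := by
      rw [Fintype.card_fin]
      have := Finset.card_le_two (a := p) (b := q)
      omega
    obtain ⟨r, hr⟩ := Finset.exists_mem_notMem_of_card_lt_card
      (s := ({p, q} : Finset (Fin d))) (t := Finset.univ) (by rwa [Finset.card_univ])
    refine ⟨r, ?_, ?_⟩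
    · intro h; exact hr.2 (by simp [h])
    · intro h; exact hr.2 (by simp [h])
  rcases hirr _ key with h | h
  · -- dimension
    have h1 : (V 2)ᗮ ≤ Submodule.span ℝ {u p - u q} := by
      rw [← hspan, Submodule.span_le]
      exact h
    have h2 : Module.finrank ℝ ((V 2)ᗮ) ≤ 1 :=
      (Submodule.finrank_mono h1).trans ((finrank_span_le_card _).trans (by simp))
    have h3 : Module.finrank ℝ (V 2) + Module.finrank ℝ ((V 2)ᗮ) = d := by
      have := (V 2).finrank_add_finrank_orthogonal
      rw [this]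
      simp
    rw [hT.dimV 2 (by omega)] at h3
    omega
  · have h1 : (V 2)ᗮ ≤ (Submodule.span ℝ {u p - u q})ᗮ := by
      rw [← hspan, Submodule.span_le]
      exact h
    have h2 : u p - u q ∈ V 2 := by
      have h3 : u p - u q ∈ (V 2)ᗮᗮ :=
        (Submodule.le_orthogonal_orthogonal _).trans (Submodule.orthogonal_le h1)
          (Submodule.mem_span_singleton_self _)
      rwa [Submodule.orthogonal_orthogonal] at h3
    have hp : u p ∈ V 2 := by
      have : u p = (1 / 2 : ℝ) • ((u p + u q) + (u p - u q)) := by module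
      rw [this]
      exact Submodule.smul_mem _ _ (add_mem hc h2)
    have hq : u q ∈ V 2 := by
      have : u q = (1 / 2 : ℝ) • ((u p + u q) - (u p - u q)) := by module
      rw [this]
      exact Submodule.smul_mem _ _ (sub_mem hc h2)
    have hall : ∀ v ∈ V 2, ⟪u r, v⟫ = (0 : ℝ) := by
      refine span_two hT hp hq (u.orthonormal.1 p) (u.orthonormal.1 q) ?_ ?_ ?_ ?_ ?_ ?_
      · rw [inner_u, if_neg hpq]
      · rw [inner_u, if_neg hrp]
      · rw [inner_u, if_neg hrq]
      · rw [inner_zero_right]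
      · intro x y hx hy
        rw [inner_add_right, hx, hy, add_zero]
      · intro c x hx
        rw [inner_smul_right, hx, mul_zero]
    have := hall _ he2
    rw [inner_u_sum] at this
    exact one_ne_zero this

end

end LMD1

open LMD1 in
theorem t_LMD1 : M_LMD1 := by
  intro hSG d l j0 Φ V gg hT u hu y0 hy0 hy
  have hd : l + 18 ≤ d := hT.ln
  obtain ⟨u', c, hD, hc⟩ := signs (by omega) hu hy
  have he : ∑ i, u' i ∈ V 1 := by
    rw [hc]
    exact Submodule.smul_mem _ _ hy0
  have hne : ∑ i, u' i ≠ 0 := sum_ne (by omega) u'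
  -- the choice of the sign
  obtain ⟨gm, hgm, h2⟩ : ∃ gm : ℕ → (E d ≃ₗᵢ[ℝ] E d), SgEq gg gm ∧
      ∀ v ∈ (V 2)ᗮ, gm 0 v = v := by
    obtain ⟨ε, hε, hs⟩ := hT.scal0
    rcases hε with rfl | rfl
    · exact ⟨gg, ⟨fun _ _ => rfl, Or.inl fun _ => rfl⟩, fun v hv => by rw [hs v hv, one_smul]⟩
    · refine ⟨fun j => if j = 0 then (gg 0).trans (LinearIsometryEquiv.neg ℝ) else gg j,
        ⟨fun j hj => if_neg (by omega), Or.inr fun v => ?_⟩, fun v hv => ?_⟩
      · rfl
      · show -(gg 0 v) = v
        rw [hs v hv, neg_smul, one_smul, neg_neg]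
  have hM : Lin d l j0 Φ V gm := hSG d l j0 Φ V gg gm hT hgm
  refine ⟨u', gm, hgm, hD, he, ?_, ?_⟩
  · intro j hj1 hjd
    obtain ⟨π, s, hπ⟩ := autD d Φ u' (by omega) hD (gm j)
      (fun a ha => (hM.root j hjd a).2 ha)
    refine ⟨π, fun i => ?_⟩
    have hfix : gm j (∑ i, u' i) = ∑ i, u' i := hM.fix j hj1 hjd _ (V_mono hT hj1 (by omega) he)
    have h3 : ⟪u' (π i), gm j (∑ i, u' i)⟫ = sg (s i) := by
      rw [map_sum, inner_sum, Finset.sum_eq_single i]
      · rw [hπ i, inner_smul_right, inner_u, if_pos rfl, mul_one]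
      · intro m _ hm
        rw [hπ m, inner_smul_right, inner_u, if_neg, mul_zero]
        intro h
        exact hm (π.injective h).symm
      · intro h
        exact absurd (Finset.mem_univ i) h
    rw [hfix, inner_u_sum] at h3
    rw [hπ i, ← h3, one_smul]
  · obtain ⟨hmv, a, ha2, ha1, ha⟩ := refl0 hM h2 he hne
    obtain ⟨π, s, hπ⟩ := autD d Φ u' (by omega) hD (gm 0)
      (fun a ha => (hM.root 0 (by omega) a).2 ha)
    by_cases hA : ∃ p, π p = p ∧ sg (s p) = -1
    · obtain ⟨p, hp, hsp⟩ := hA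
      refine ⟨p, fun v => ?_⟩
      rw [ha v]
      have h3 := hπ p
      rw [hp, hsp, ha, neg_smul, one_smul, sref] at h3
      -- `u' p` is a multiple of `a`
      have h4 : u' p = ⟪a, u' p⟫ • a := by
        have h5 : (2 : ℝ) • u' p = (2 : ℝ) • (⟪a, u' p⟫ • a) := by
          have : (2 * ⟪a, u' p⟫) • a = u' p + u' p := by
            have h6 := h3
            rw [sub_eq_iff_eq_add] at h6
            calc (2 * ⟪a, u' p⟫) • a = u' p + (-u' p + (2 * ⟪a, u' p⟫) • a) := by abel
              _ = u' p + u' p := by rw [← h6]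
          rw [smul_smul, this, two_smul]
        exact smul_right_injective (E d) (two_ne_zero (α := ℝ)) h5
      have h5 : ⟪a, u' p⟫ ^ 2 = (1 : ℝ) := by
        have h6 : ‖u' p‖ = 1 := u'.orthonormal.1 p
        rw [h4, norm_smul, ha1, mul_one, Real.norm_eq_abs] at h6
        rw [← sq_abs, h6]
        norm_num
      rw [sref, sref]
      congr 1
      conv_rhs => rw [h4]
      rw [inner_smul_left, smul_smul]
      simp only [conj_trivial]
      rw [show 2 * (⟪a, u' p⟫ * ⟪a, v⟫) * ⟪a, u' p⟫ = 2 * ⟪a, v⟫ * ⟪a, u' p⟫ ^ 2 by ring, h5,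
        mul_one]
    · exfalso
      by_cases hB : ∃ p, π p ≠ p
      · obtain ⟨p, hp⟩ := hB
        have h3 := hπ p
        rw [ha, sref] at h3
        -- `u' p - t u' q` is a multiple of `a`
        have h4 : u' p - sg (s p) • u' (π p) = (2 * ⟪a, u' p⟫) • a := by
          rw [← h3]; abel
        have h5 : u' p - sg (s p) • u' (π p) ∈ V 2 := by
          rw [h4]
          exact Submodule.smul_mem _ _ ha2
        rcases PD.sg_cases (s p) with ht | ht
        · -- the root is orthogonal to the sum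
          rw [ht, one_smul] at h4
          have h6 : ⟪u' p - u' (π p), ∑ i, u' i⟫ = (0 : ℝ) := by
            rw [inner_sub_left, inner_u_sum, inner_u_sum, sub_self]
          rw [h4, inner_smul_left] at h6
          rcases mul_eq_zero.1 h6 with h7 | h7
          · simp only [conj_trivial] at h7
            rw [h7, zero_smul, sub_eq_zero] at h4
            have := inner_u u' p (π p)
            rw [if_neg (Ne.symm hp), ← h4, inner_u, if_pos rfl] at this
            exact one_ne_zero this
          · apply hmv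
            rw [ha, sref, h7, mul_zero, zero_smul, sub_zero]
            exact he
        · rw [ht, neg_smul, one_smul, sub_neg_eq_add] at h5
          exact excl hT hD he (Ne.symm hp) h5
      · push Not at hA hB
        apply hmv
        rw [map_sum]
        have : ∀ i, gm 0 (u' i) = u' i := by
          intro i
          rw [hπ i, hB i]
          rcases PD.sg_cases (s i) with h | h
          · rw [h, one_smul]
          · exact absurd h (hA i (hB i))
        rw [Finset.sum_congr rfl fun i _ => this i]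
        exact he

end FOI.L
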