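import Pool.Agent.FOL.CStmts
import Pool.Agent.FOK.POS
import Pool.Agent.FOK.VECA
import Pool.Agent.FOK.VECD

/-!
# Position of the base vertex (III.6, FOK 10.5)
-/

namespace FOI.L

open Lib_helper64.FO FO2 FOK
open scoped RealInnerProductSpace

namespace LPOS

/-- the reflection in a unit vector, as an isometry -/
noncomputable def srefI {d : ℕ} (a : E d) (h : ‖a‖ = 1) : E d ≃ₗᵢ[ℝ] E d :=
  LinearIsometryEquiv.mk
    { toFun := sref a
      map_add' := sref_add a
      map_smul' := fun c v => sref_smul a v c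
      invFun := sref a
      left_inv := sref_sref h
      right_inv := sref_sref h }
    (fun v => by
      have h1 : ⟪sref a v, sref a v⟫ = ⟪v, v⟫ := inner_sref h v v
      rw [real_inner_self_eq_norm_sq, real_inner_self_eq_norm_sq] at h1
      exact (pow_left_inj₀ (norm_nonneg _) (norm_nonneg _) two_ne_zero).1 h1)

theorem srefI_apply {d : ℕ} (a : E d) (h : ‖a‖ = 1) (v : E d) : srefI a h v = sref a v := rfl

/-- the reflections in the elements of `Ψ` -/
def Gen {d : ℕ} (Ψ : Set (E d)) : Set (E d ≃ₗᵢ[ℝ] E d) := {h | ∃ a ∈ Ψ, ∀ v, h v = sref a v}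

theorem fix_perp {d : ℕ} {a y : E d} (h : ⟪a, y⟫ = 0) : sref a y = y := by
  rw [sref, h, mul_zero, zero_smul, sub_zero]

end LPOS

open LPOS in
theorem t_LPOS : S_LPOS := by
  intro n l j0 Φ V gg hT y0 hy hn
  have hd5 : 5 ≤ n := by have := hT.ln; omega
  have hy0 : y0 ≠ 0 := by
    rintro rfl
    rw [norm_zero] at hn
    exact zero_ne_one hn
  have hV : V 1 = ℝ ∙ y0 := by
    symm
    apply Submodule.eq_of_le_of_finrank_eq
    · rw [Submodule.span_singleton_le_iff_mem]
      exact hy
    · rw [hT.dimV 1 (by omega), finrank_span_singleton hy0]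
  obtain ⟨Ψ, hsub, hirr, hspan⟩ := hT.sub 1 le_rfl (by norm_num)
  rw [hV] at hspan
  have hperp : ∀ a ∈ Ψ, ⟪a, y0⟫ = 0 := by
    intro a ha
    have h1 : a ∈ (ℝ ∙ y0)ᗮ := by
      rw [← hspan]
      exact Submodule.subset_span ha
    exact (Submodule.mem_orthogonal_singleton_iff_inner_left).1 h1
  let K : Subgroup (E n ≃ₗᵢ[ℝ] E n) := Subgroup.closure (Gen Ψ)
  have hfix : ∀ h ∈ K, h y0 = y0 := by
    refine POS.fix_of_gen ?_
    rintro g ⟨a, ha, hg⟩
    rw [hg, fix_perp (hperp a ha)]
  have hpres : ∀ h ∈ K, ∀ a ∈ Φ, h a ∈ Φ := by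
    intro h hh
    refine (POS.pres_of_gen (S := Gen Ψ) ?_ h hh).1
    rintro g ⟨a, ha, hg⟩
    refine ⟨fun b hb => ?_, fun b hb => ?_⟩
    · rw [hg]
      exact hT.rs.refl a (hsub ha) b hb
    · have h1 : g⁻¹ b = sref a b := by
        have h2 : g (sref a b) = b := by
          rw [hg, sref_sref (hT.rs.norm a (hsub ha))]
        have h3 : g⁻¹ (g (sref a b)) = sref a b := by
          change (g⁻¹ * g) (sref a b) = sref a b
          rw [inv_mul_cancel]
          rfl
        rwa [h2] at h3
      rw [h1]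
      exact hT.rs.refl a (hsub ha) b hb
  have hstb : Stb n ⊤ K y0 := by
    refine ⟨trivial, hn, hfix, fun _ _ _ _ => trivial, ?_⟩
    intro L hL hinv
    rw [top_inf_eq] at hL ⊢
    have h1 : ∀ a ∈ Ψ, a ∈ L ∨ a ∈ Lᗮ := by
      intro a ha
      apply POS.mem_or_perp
      intro w hw
      have h2 : srefI a (hT.rs.norm a (hsub ha)) ∈ K :=
        Subgroup.subset_closure ⟨a, ha, fun v => srefI_apply a _ v⟩
      have h3 := hinv _ h2 w hw
      rwa [srefI_apply] at h3
    rcases hirr L h1 with h | h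
    · right
      apply le_antisymm hL
      rw [← hspan]
      exact Submodule.span_le.2 h
    · left
      rw [Submodule.eq_bot_iff]
      intro w hw
      have h2 : w ∈ Lᗮ := by
        have h3 : w ∈ (ℝ ∙ y0)ᗮ := hL hw
        rw [← hspan] at h3
        exact (Submodule.span_le.2 h) h3
      exact inner_self_eq_zero.1 ((Submodule.mem_orthogonal _ _).1 h2 w hw)
  have hfr : Module.finrank ℝ (⊤ : Submodule ℝ (E n)) = n := by
    rw [finrank_top, finrank_euclideanSpace_fin]
  constructor
  · intro v hv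
    have hP : PermA K v := fun h hh => autA n _ v hd5 hv h (hpres h hh)
    rcases FOK.t_VECA n n ⊤ K v y0 (by omega) hfr (fun _ => trivial) hv.1 hP hstb with
      h | ⟨B, c, hB, hc⟩
    · exact h
    · exfalso
      refine POS.no_half hd5 hv.1 (fun a ha => ?_) hn hirr hspan B c hB hc
      obtain ⟨i, j, hij, t, ht, -, h⟩ := (hv.2 a).1 (hsub ha)
      exact ⟨i, j, hij, t, ht, h⟩
  · intro u hu
    have hP : PermD K (fun i => u i) := fun h hh => autD n _ u hd5 hu h (hpres h hh)
    exact FOK.t_VECD n n ⊤ K (fun i => u i) y0 (by omega) hfr (fun _ => trivial) u.orthonormal hP hstb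

end FOI.L
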