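import Pool.Agent.FOL.CStmts

/-!
# Module LR1: the case (red), the structure `LinB`
-/

namespace FOI.L

open Lib_helper64.FO FO2 FOK
open scoped RealInnerProductSpace Nat

noncomputable section

namespace LR1

/-! ### transport along `ι` -/

section transport

variable {n d : ℕ} (ι : E n →ₗᵢ[ℝ] E d)

theorem ι_sref (a b : E n) : ι (sref a b) = sref (ι a) (ι b) := by
  simp only [sref, map_sub, map_smul, ι.inner_map_map]

theorem map_span {Φ : Set (E d)} {S : Submodule ℝ (E d)} (hι : ∀ v, v ∈ S ↔ ∃ z, ι z = v)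
    (hΦ : ∀ a ∈ Φ, a ∈ S) :
    (Submodule.span ℝ {z | ι z ∈ Φ}).map ι.toLinearMap = Submodule.span ℝ Φ := by
  rw [Submodule.map_span]
  congr 1
  ext a
  constructor
  · rintro ⟨z, hz, rfl⟩
    exact hz
  · intro ha
    obtain ⟨z, rfl⟩ := (hι a).1 (hΦ a ha)
    exact ⟨z, ha, rfl⟩

theorem isRS {Φ : Set (E d)} {S : Submodule ℝ (E d)} (hι : ∀ v, v ∈ S ↔ ∃ z, ι z = v)
    (hΦ : ∀ a ∈ Φ, a ∈ S) (h : IsRS Φ) : IsRS {z | ι z ∈ Φ} where
  fin := h.fin.preimage ι.injective.injOn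
  ne := by
    obtain ⟨a, ha⟩ := h.ne
    obtain ⟨z, rfl⟩ := (hι a).1 (hΦ a ha)
    exact ⟨z, ha⟩
  norm := fun a ha => by rw [← ι.norm_map]; exact h.norm _ ha
  refl := fun a ha b hb => by
    have h1 := h.refl _ ha _ hb
    rw [← ι_sref] at h1
    exact h1

theorem irr {Φ : Set (E d)} {S : Submodule ℝ (E d)} (hι : ∀ v, v ∈ S ↔ ∃ z, ι z = v)
    (hΦ : ∀ a ∈ Φ, a ∈ S) (h : IrrRS Φ) : IrrRS {z | ι z ∈ Φ} := by
  intro L hL
  have hperp : ∀ z, ι z ∈ (L.map ι.toLinearMap)ᗮ ↔ z ∈ Lᗮ := by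
    intro z
    simp only [Submodule.mem_orthogonal]
    constructor
    · intro h1 w hw
      have h2 := h1 (ι w) ⟨w, hw, rfl⟩
      rwa [ι.inner_map_map] at h2
    · rintro h1 _ ⟨w, hw, rfl⟩
      have h2 : ⟪ι w, ι z⟫ = 0 := by
        rw [ι.inner_map_map]
        exact h1 w hw
      exact h2
  have hmem : ∀ z, ι z ∈ L.map ι.toLinearMap ↔ z ∈ L := by
    intro z
    constructor
    · rintro ⟨w, hw, h2⟩
      have h3 : w = z := ι.injective h2
      rwa [← h3]
    · intro hz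
      exact ⟨z, hz, rfl⟩
  rcases h (L.map ι.toLinearMap) (fun a ha => by
    obtain ⟨z, rfl⟩ := (hι a).1 (hΦ a ha)
    rcases hL z ha with h1 | h1
    · exact Or.inl ((hmem z).2 h1)
    · exact Or.inr ((hperp z).2 h1)) with h1 | h1
  · exact Or.inl fun z hz => (hmem z).1 (h1 _ hz)
  · exact Or.inr fun z hz => (hperp z).1 (h1 _ hz)

/-- the preimage of a complement -/
theorem mem_perp {V S : Submodule ℝ (E d)} (hι : ∀ v, v ∈ S ↔ ∃ z, ι z = v) (z : E n) :
    z ∈ (V.comap ι.toLinearMap)ᗮ ↔ ι z ∈ (V ⊓ S : Submodule ℝ (E d))ᗮ := by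
  simp only [Submodule.mem_orthogonal]
  constructor
  · rintro h1 w ⟨hw, hw'⟩
    obtain ⟨y, rfl⟩ := (hι w).1 hw'
    rw [ι.inner_map_map]
    exact h1 y hw
  · intro h1 y hy
    rw [← ι.inner_map_map]
    exact h1 (ι y) ⟨hy, (hι _).2 ⟨y, rfl⟩⟩

theorem finrank_comap {V S : Submodule ℝ (E d)} (hι : ∀ v, v ∈ S ↔ ∃ z, ι z = v) :
    Module.finrank ℝ (V.comap ι.toLinearMap) = Module.finrank ℝ (V ⊓ S : Submodule ℝ (E d)) := by
  have h1 : (V.comap ι.toLinearMap).map ι.toLinearMap = V ⊓ S := by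
    ext v
    constructor
    · rintro ⟨z, hz, rfl⟩
      exact ⟨hz, (hι _).2 ⟨z, rfl⟩⟩
    · rintro ⟨hv, hv'⟩
      obtain ⟨z, rfl⟩ := (hι v).1 hv'
      exact ⟨z, hv, rfl⟩
  rw [← h1]
  exact (Submodule.equivMapOfInjective ι.toLinearMap ι.injective _).finrank_eq

end transport

variable {d k : ℕ} {Γ : Type} [Group Γ] {X : Type} [MulAction Γ X]

theorem RI_one {G : AGeo d k Γ X} {l : ℕ} {RI : Γ → (E d ≃ₗᵢ[ℝ] E d)} (hE : IsExt G l RI) :
    RI 1 = 1 := by
  have h := hE.mul 1 1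
  rw [one_mul] at h
  exact mul_eq_left.1 h.symm

theorem RI_sq {G : AGeo d k Γ X} {l : ℕ} {RI : Γ → (E d ≃ₗᵢ[ℝ] E d)} (hE : IsExt G l RI) (j : ℕ)
    (v : E d) : RI (G.ρ j) (RI (G.ρ j) v) = v := by
  have h : RI (G.ρ j) * RI (G.ρ j) = 1 := by rw [← hE.mul, G.sq, RI_one hE]
  exact congrArg (fun e : E d ≃ₗᵢ[ℝ] E d => e v) h

theorem Ph_sub {G : AGeo d k Γ X} {g : Γ} (i l : ℕ) : Ph G g i l ⊆ Ph G g 0 l := by
  rintro a ⟨h1, x, ⟨γ, hγ, hx⟩, h2⟩
  exact ⟨h1, x, ⟨γ, G.up_anti (Nat.zero_le i) hγ, hx⟩, h2⟩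

end LR1

theorem t_LR1 : M_LR1 := by
  intro hTI _ hDIR d k Γ _ X _ _ G l hT e0 _ hV RI hE b _ hG hfix n hn ι hι gg hgg
  have hd := hDIR d k Γ X G l hT
  have hl5 := hT.l5
  have hld := hT.ld
  have hmem : ∀ z, ι z ∈ Sp G 0 l := fun z => (hι _).2 ⟨z, rfl⟩
  have hΦ : ∀ a ∈ Ph G 1 0 l, a ∈ Sp G 0 l := fun a ha => Submodule.subset_span ha
  have hinj := ι.injective
  have hS : (⊤ : Submodule ℝ (E n)).map ι.toLinearMap = Sp G 0 l := by
    ext v
    constructor
    · rintro ⟨z, _, rfl⟩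
      exact hmem z
    · intro hv
      obtain ⟨z, rfl⟩ := (hι v).1 hv
      exact ⟨z, trivial, rfl⟩
  have hfin : Module.finrank ℝ (Sp G 0 l) = n := by
    rw [← hS, ← (Submodule.equivMapOfInjective ι.toLinearMap hinj ⊤).finrank_eq]
    simp
  have hdim : ∀ i, i ≤ n →
      Module.finrank ℝ ((G.V 1 (i + 1)).comap ι.toLinearMap : Submodule ℝ (E n)) = i := by
    intro i hi
    rw [LR1.finrank_comap ι hι]
    have := hV.dimV (i + 1) (by omega) (by omega)
    omega
  have hpres : ∀ j i v, i ≠ j + 1 → v ∈ (G.V 1 (i + 1)).comap ι.toLinearMap →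
      gg j v ∈ (G.V 1 (i + 1)).comap ι.toLinearMap := by
    intro j i v hij hv
    change ι (gg j v) ∈ G.V 1 (i + 1)
    rw [hgg]
    exact hG.pres (j + 1) (i + 1) _ (by omega) (hmem v) hv
  have hsq : ∀ j v, gg j (gg j v) = v := by
    intro j v
    apply hinj
    rw [hgg, hgg, LR1.RI_sq hE]
  have hroot1 : ∀ j a, ι a ∈ Ph G 1 0 l → ι (gg j a) ∈ Ph G 1 0 l := by
    intro j a ha
    rw [hgg]
    exact hE.root _ _ ha
  refine
    { l4 := by omega
      ln := by omega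
      j01 := Or.inl rfl
      rs := LR1.isRS ι hι hΦ hd.rs
      irr := LR1.irr ι hι hΦ hd.irr
      span := ?_
      typ := ?_
      mono := fun i _ => Submodule.comap_mono (G.V_mono 1 (Nat.le_succ _))
      dimV := hdim
      pres := fun j i v _ _ hij hv => hpres j i v hij hv
      moves := ?_
      sq := fun j _ v => hsq j v
      comm := ?_
      fix := ?_
      root := fun j _ a => ⟨fun h => by
        have h1 := hroot1 j _ h
        rw [hsq] at h1
        exact h1, hroot1 j a⟩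
      scal0 := ?_
      sub := ?_
      refl := ?_ }
  · apply Submodule.map_injective_of_injective (f := ι.toLinearMap) hinj
    rw [LR1.map_span ι hι hΦ, hS]
    rfl
  · have htyp := hd.typ
    rw [hfin] at htyp
    rcases htyp with ⟨v, hv⟩ | ⟨u, hu⟩
    · left
      choose v' hv' using fun i => (hι (v i)).1 (hv.mem i)
      refine ⟨v', fun i j => ?_, fun a => ?_⟩
      · rw [← ι.inner_map_map, hv', hv']
        exact hv.gram i j
      · change ι a ∈ Ph G 1 0 l ↔ _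
        rw [hv.iff]
        constructor
        · rintro ⟨i, j, hij, t, ht, h1, h2⟩
          refine ⟨i, j, hij, t, ht, by rw [← ι.norm_map]; exact h1, hinj ?_⟩
          rw [map_smul, map_sub, hv', hv', h2]
        · rintro ⟨i, j, hij, t, ht, h1, h2⟩
          refine ⟨i, j, hij, t, ht, by rw [ι.norm_map]; exact h1, ?_⟩
          rw [h2, map_smul, map_sub, hv', hv']
    · right
      choose u' hu' using fun i => (hι (u i)).1 (hu.mem i)
      have horth : Orthonormal ℝ u' := by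
        rw [← ι.orthonormal_comp_iff]
        have : (ι ∘ u') = u := funext hu'
        rw [this]
        exact hu.orth
      have hcard : Fintype.card (Fin n) = Module.finrank ℝ (E n) := by simp
      have : Nonempty (Fin n) := ⟨⟨0, by omega⟩⟩
      have hco := coe_basisOfOrthonormalOfCardEqFinrank horth hcard
      refine ⟨(basisOfOrthonormalOfCardEqFinrank horth hcard).toOrthonormalBasis
        (by rw [hco]; exact horth), ?_⟩
      intro a
      change ι a ∈ Ph G 1 0 l ↔ _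
      rw [hu.iff]
      simp only [Module.Basis.coe_toOrthonormalBasis, hco]
      constructor
      · rintro ⟨i, j, hij, s, t, h1⟩
        refine ⟨i, j, hij, s, t, hinj ?_⟩
        rw [h1, map_smul, map_add, map_smul, map_smul, hu', hu']
      · rintro ⟨i, j, hij, s, t, h1⟩
        refine ⟨i, j, hij, s, t, ?_⟩
        rw [h1, map_smul, map_add, map_smul, map_smul, hu', hu']
  · intro j hj e he he0' hcon
    obtain ⟨v, hvS, hv, hv'⟩ := hG.moves (j + 1) (by omega) (by omega)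
    obtain ⟨z, rfl⟩ := (hι v).1 hvS
    apply hv'
    rw [← hgg]
    -- `V (j + 1)` is the sum of `V j` and the line of `e`
    have h1 : ((G.V 1 (j + 1)).comap ι.toLinearMap ⊔ (ℝ ∙ e) : Submodule ℝ (E n)) =
        (G.V 1 (j + 1 + 1)).comap ι.toLinearMap := by
      apply Submodule.eq_of_le_of_finrank_le
      · exact sup_le (Submodule.comap_mono (G.V_mono 1 (Nat.le_succ _)))
          ((Submodule.span_singleton_le_iff_mem _ _).2 he.1)
      · have h2 : Disjoint ((G.V 1 (j + 1)).comap ι.toLinearMap : Submodule ℝ (E n)) (ℝ ∙ e) := by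
          rw [Submodule.disjoint_def]
          intro x hx hx'
          obtain ⟨c, rfl⟩ := Submodule.mem_span_singleton.1 hx'
          have h3 := (Submodule.mem_orthogonal _ _).1 he.2 _ hx
          rw [inner_smul_left] at h3
          have h4 : ⟪e, e⟫ ≠ 0 := inner_self_ne_zero.2 he0'
          have h5 : c = 0 := by
            rcases mul_eq_zero.1 h3 with h | h
            · simpa using h
            · exact absurd h h4
          rw [h5, zero_smul]
        have h6 := Submodule.finrank_sup_add_finrank_inf_eq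
          ((G.V 1 (j + 1)).comap ι.toLinearMap : Submodule ℝ (E n)) (ℝ ∙ e)
        rw [disjoint_iff.1 h2, finrank_bot, finrank_span_singleton he0', hdim j (by omega)] at h6
        rw [hdim (j + 1) (by omega)]
        omega
    have hz : z ∈ ((G.V 1 (j + 1)).comap ι.toLinearMap ⊔ (ℝ ∙ e) : Submodule ℝ (E n)) := by
      rw [h1]
      exact hv
    obtain ⟨a, ha, w, hw, rfl⟩ := Submodule.mem_sup.1 hz
    obtain ⟨c, rfl⟩ := Submodule.mem_span_singleton.1 hw
    have h2 : gg j (a + c • e) ∈ (G.V 1 (j + 1 + 1)).comap ι.toLinearMap := by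
      rw [map_add, map_smul]
      exact add_mem (Submodule.comap_mono (G.V_mono 1 (Nat.le_succ _))
        (hpres j j a (by omega) ha)) (Submodule.smul_mem _ c hcon)
    exact h2
  · intro i j hij _ v
    have hc : RI (G.ρ (i + 1)) (RI (G.ρ (j + 1)) (ι v)) =
        RI (G.ρ (j + 1)) (RI (G.ρ (i + 1)) (ι v)) := by
      have h1 : RI (G.ρ (i + 1)) * RI (G.ρ (j + 1)) = RI (G.ρ (j + 1)) * RI (G.ρ (i + 1)) := by
        rw [← hE.mul, ← hE.mul, G.comm (i + 1) (j + 1) (by omega)]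
      exact congrArg (fun e : E d ≃ₗᵢ[ℝ] E d => e (ι v)) h1
    apply hinj
    rw [hgg, hgg, hgg, hgg, hc]
  · intro j hj1 hj v hv
    apply hinj
    rw [hgg]
    exact hfix (j + 1) (by omega) (by omega) _ (hmem v) hv
  · obtain ⟨δ, h1, h2⟩ := hG.ρ1
    refine ⟨δ, h1, fun v hv => hinj ?_⟩
    rw [hgg, map_smul]
    exact h2 _ (hmem v) ((LR1.mem_perp ι hι v).1 hv)
  · intro i hi1 hi2
    have hsub : ∀ a ∈ Ph G 1 (i + 1) l, a ∈ Sp G 0 l := fun a ha => hΦ a (LR1.Ph_sub _ l ha)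
    refine ⟨{z | ι z ∈ Ph G 1 (i + 1) l}, fun z hz => LR1.Ph_sub (i + 1) l hz,
      LR1.irr ι hι hsub (hTI d k Γ X G l hT 1 (i + 1) (by omega) (by omega)).irr, ?_⟩
    apply Submodule.map_injective_of_injective (f := ι.toLinearMap) hinj
    rw [LR1.map_span ι hι hsub]
    have h1 := hV.Sp (i + 1) (by omega) (by omega)
    change Sp G (i + 1) l = _
    rw [h1]
    ext v
    constructor
    · rintro ⟨hv, hv'⟩
      obtain ⟨z, rfl⟩ := (hι v).1 hv'
      exact ⟨z, (LR1.mem_perp ι hι z).2 hv, rfl⟩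
    · rintro ⟨z, hz, rfl⟩
      exact ⟨(LR1.mem_perp ι hι z).1 hz, hmem z⟩
  · obtain ⟨a, ha, h1⟩ := hT.refl 1
    have haΦ : a ∈ Ph G 1 0 l := ⟨ha, G.ρ l, ⟨1, one_mem _, by group⟩, h1⟩
    obtain ⟨z, rfl⟩ := (hι a).1 (hΦ a haΦ)
    refine ⟨z, haΦ, fun v => hinj ?_⟩
    have hN : G.ρ l ∈ G.N := hT.up (G.ρ_mem_up (by omega))
    have hl : l - 1 + 1 = l := by omega
    rw [hgg, hl, hE.H _ (G.N_le hN) _ (hmem v), LR1.ι_sref, ← h1]
    rw [AGeo.R]
    simp

end

end FOI.L
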