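import Pool.Agent.FOL.CStmts

/-!
# III.5 (red), second half: the structure `LinX`
-/

namespace FOI.L

open Lib_helper64.FO FO2 FOK
open scoped RealInnerProductSpace

noncomputable section

namespace LR2

variable {d k : ℕ} {Γ : Type} [Group Γ] {X : Type} [MulAction Γ X] (G : AGeo d k Γ X)

/-- the extension as a homomorphism -/
def hom {l : ℕ} {RI : Γ → (E d ≃ₗᵢ[ℝ] E d)} (h : IsExt G l RI) : Γ →* (E d ≃ₗᵢ[ℝ] E d) :=
  MonoidHom.mk' RI h.mul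

theorem RI_one {l : ℕ} {RI : Γ → (E d ≃ₗᵢ[ℝ] E d)} (h : IsExt G l RI) : RI 1 = 1 :=
  map_one (hom G h)

/-- `A` corresponds to `γ` -/
def Rel {n : ℕ} (ι : E n →ₗᵢ[ℝ] E d) (RI : Γ → (E d ≃ₗᵢ[ℝ] E d)) (A : E n ≃ₗᵢ[ℝ] E n)
    (γ : Γ) : Prop := ∀ z, ι (A z) = RI γ (ι z)

section rel

variable {n : ℕ} {ι : E n →ₗᵢ[ℝ] E d} {l : ℕ} {RI : Γ → (E d ≃ₗᵢ[ℝ] E d)}

theorem Rel.one (h : IsExt G l RI) : Rel ι RI (1 : E n ≃ₗᵢ[ℝ] E n) (1 : Γ) := by
  intro z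
  rw [RI_one G h]
  rfl

theorem Rel.mul (h : IsExt G l RI) {A B : E n ≃ₗᵢ[ℝ] E n} {γ δ : Γ} (hA : Rel ι RI A γ)
    (hB : Rel ι RI B δ) : Rel ι RI (A * B) (γ * δ) := by
  intro z
  rw [h.mul]
  change ι (A (B z)) = RI γ (RI δ (ι z))
  rw [hA, hB]

theorem Rel.inv (h : IsExt G l RI) {A : E n ≃ₗᵢ[ℝ] E n} {γ : Γ} (hA : Rel ι RI A γ) :
    Rel ι RI A⁻¹ γ⁻¹ := by
  intro z
  have h1 : A (A⁻¹ z) = z := A.apply_symm_apply z
  have h2 : RI γ⁻¹ (RI γ (ι (A⁻¹ z))) = ι (A⁻¹ z) := by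
    have e : RI γ⁻¹ * RI γ = 1 := by rw [← h.mul, inv_mul_cancel, RI_one G h]
    exact congrArg (fun e : E d ≃ₗᵢ[ℝ] E d => e (ι (A⁻¹ z))) e
  rw [← h2, ← hA, h1]

theorem Rel.pow (h : IsExt G l RI) {A : E n ≃ₗᵢ[ℝ] E n} {γ : Γ} (hA : Rel ι RI A γ) (m : ℕ) :
    Rel ι RI (A ^ m) (γ ^ m) := by
  induction m with
  | zero =>
    rw [pow_zero, pow_zero]
    exact Rel.one G h
  | succ m ih =>
    rw [pow_succ, pow_succ]
    exact Rel.mul G h ih hA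

theorem Rel.prod (h : IsExt G l RI) {gg : ℕ → (E n ≃ₗᵢ[ℝ] E n)} {r : ℕ → Γ}
    (hg : ∀ j, Rel ι RI (gg j) (r j)) (L : List ℕ) :
    Rel ι RI (L.map gg).prod (L.map r).prod := by
  induction L with
  | nil =>
    rw [List.map_nil, List.map_nil, List.prod_nil, List.prod_nil]
    exact Rel.one G h
  | cons a L ih =>
    rw [List.map_cons, List.map_cons, List.prod_cons, List.prod_cons]
    exact Rel.mul G h (hg a) ih

end rel

theorem lprod_mem (r : ℕ → Γ) (L : List ℕ) (S : Subgroup Γ) (h : ∀ a ∈ L, r a ∈ S) :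
    (L.map r).prod ∈ S := by
  apply Subgroup.list_prod_mem
  intro x hx
  obtain ⟨a, ha, rfl⟩ := List.mem_map.1 hx
  exact h a ha

/-- `RI n = R 1 n` on the space `I` -/
theorem RI_eq {l : ℕ} {RI : Γ → (E d ≃ₗᵢ[ℝ] E d)} (h : IsExt G l RI)
    {n : Γ} (hn : n ∈ G.N) {v : E d} (hv : v ∈ Sp G 0 l) : RI n v = G.R 1 n v := by
  rw [h.H n (G.N_le hn) v hv, AGeo.R, one_mul, inv_one, mul_one]

/-- decomposition along `e0` -/
theorem dec {l : ℕ} {e0 : E d} (hE : RedE G l e0) (v : E d) :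
    ∃ (c : ℝ) (w : E d), w ∈ Sp G 0 l ∧ v = c • e0 + w := by
  refine ⟨⟪e0, v⟫, v - ⟪e0, v⟫ • e0, ?_, by abel⟩
  rw [hE.I, Submodule.mem_orthogonal_singleton_iff_inner_right, inner_sub_right, inner_smul_right,
    real_inner_self_eq_norm_sq, hE.norm]
  ring

/-- an element of `N` that fixes `e0` and the space `V_i ∩ I` fixes `V_i` -/
theorem fixV {l : ℕ} {RI : Γ → (E d ≃ₗᵢ[ℝ] E d)} (h : IsExt G l RI) {e0 : E d}
    (hE : RedE G l e0) {n : Γ} (hn : n ∈ G.N) (h0 : G.R 1 n e0 = e0) {i : ℕ} (hi : l - 2 ≤ i)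
    (h1 : ∀ v ∈ Sp G 0 l, v ∈ G.V 1 i → RI n v = v) : ∀ v ∈ G.V 1 i, G.R 1 n v = v := by
  intro v hv
  obtain ⟨c, w, hw, rfl⟩ := dec G hE v
  have he : e0 ∈ G.V 1 i := by
    intro m hm
    exact hE.up m (G.up_anti hi hm.2)
  have hwV : w ∈ G.V 1 i := by
    have := (G.V 1 i).sub_mem hv ((G.V 1 i).smul_mem c he)
    rwa [add_sub_cancel_left] at this
  rw [map_add, map_smul, h0, ← RI_eq G h hn hw, h1 w hw hwV]

theorem eq_one {l : ℕ} {RI : Γ → (E d ≃ₗᵢ[ℝ] E d)} (h : IsExt G l RI) {e0 : E d}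
    (hE : RedE G l e0) {n : Γ} (hn : n ∈ G.N) (h0 : G.R 1 n e0 = e0) (hu : n ∈ G.up 1)
    (h1 : ∀ v ∈ Sp G 0 l, RI n v = v) : n = 1 := by
  apply G.eq_one_of_R (g := 1) hn (G.up_fix_x0 hu)
  intro y
  obtain ⟨c, w, hw, h2⟩ := dec G hE (G.F 1 y)
  rw [h2, map_add, map_smul, h0, ← RI_eq G h hn hw, h1 w hw]

/-- an element of `N` in `mid a b` that fixes `V_i` is in `mid i b` -/
theorem mem_mid {l : ℕ} {RI : Γ → (E d ≃ₗᵢ[ℝ] E d)} (h : IsExt G l RI) {e0 : E d}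
    (hE : RedE G l e0) {n : Γ} (hn : n ∈ G.N) (h0 : G.R 1 n e0 = e0) {a b i : ℕ} (ha : 1 ≤ a)
    (hi : a ≤ i) (hl : l - 2 ≤ i) (hm : n ∈ G.mid a b)
    (h1 : ∀ v ∈ Sp G 0 l, v ∈ G.V 1 i → RI n v = v) : n ∈ G.mid i b := by
  refine G.mid_inf_up hm ?_ hi
  obtain ⟨i', rfl⟩ : ∃ i', i = i' + 1 := ⟨i - 1, by omega⟩
  exact G.mem_up_of_R' (g := 1) hn (G.up_fix_x0 (G.up_anti ha (G.mid_le_up a b hm)))
    (fixV G h hE hn h0 hl h1)

/-- the group generated by one generator -/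
theorem mid_one {i : ℕ} {γ : Γ} (h : γ ∈ G.mid i (i + 1)) : γ = 1 ∨ γ = G.ρ i := by
  have hle : G.mid i (i + 1) ≤ Subgroup.zpowers (G.ρ i) := by
    rw [AGeo.mid, gpar, Subgroup.closure_le]
    rintro _ ⟨j, hj, rfl⟩
    have hj' : j = i := by
      have h1 : i ≤ j ∧ j < i + 1 := hj
      omega
    rw [hj']
    exact Subgroup.mem_zpowers _
  obtain ⟨m, rfl⟩ := Subgroup.mem_zpowers_iff.1 (hle h)
  have h2 : G.ρ i ^ (2 : ℤ) = 1 := by
    rw [zpow_two, G.sq]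
  rcases Int.even_or_odd' m with ⟨c, rfl | rfl⟩
  · left
    rw [zpow_mul, h2, one_zpow]
  · right
    rw [zpow_add, zpow_mul, h2, one_zpow, one_mul, zpow_one]

end LR2

open LR2 in
theorem t_LR2 : M_LR2 := by
  intro hMIR _ d k Γ _ X _ _ G l hT e0 hE hV RI h n hn ι hι gg hgg
  have hl5 := hT.l5
  have hld := hT.ld
  have hN : ∀ j, l - 3 ≤ j → G.ρ j ∈ G.N := fun j hj => hT.up (G.ρ_mem_up hj)
  have hrel : ∀ j, Rel ι RI (gg j) (G.ρ (j + 1)) := fun j z => hgg j z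
  have hιS : ∀ z, ι z ∈ Sp G 0 l := fun z => (hι (ι z)).2 ⟨z, rfl⟩
  -- transfer of `A z = z`
  have htr : ∀ (A : E n ≃ₗᵢ[ℝ] E n) (γ : Γ), Rel ι RI A γ → (∀ z, A z = z) →
      ∀ v ∈ Sp G 0 l, RI γ v = v := by
    intro A γ hA h1 v hv
    obtain ⟨z, rfl⟩ := (hι v).1 hv
    rw [← hA z, h1]
  have htrV : ∀ (A : E n ≃ₗᵢ[ℝ] E n) (γ : Γ) (i : ℕ), Rel ι RI A γ →
      (∀ z, ι z ∈ G.V 1 i → A z = z) → ∀ v ∈ Sp G 0 l, v ∈ G.V 1 i → RI γ v = v := by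
    intro A γ i hA h1 v hv hvV
    obtain ⟨z, rfl⟩ := (hι v).1 hv
    rw [← hA z, h1 z hvV]
  have hback : ∀ (A B : E n ≃ₗᵢ[ℝ] E n) (γ : Γ), Rel ι RI A γ → Rel ι RI B γ →
      ∀ z, A z = B z := by
    intro A B γ hA hB z
    apply ι.injective
    rw [hA z, hB z]
  have hback1 : ∀ (A : E n ≃ₗᵢ[ℝ] E n), Rel ι RI A (1 : Γ) → ∀ z, A z = z := by
    intro A hA z
    exact hback A 1 1 hA (Rel.one G h) z
  have hpow : ∀ a b : ℕ, Rel ι RI ((gg a * gg b) ^ 3) ((G.ρ (a + 1) * G.ρ (b + 1)) ^ 3) :=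
    fun a b => Rel.pow G h (Rel.mul G h (hrel a) (hrel b)) 3
  refine ⟨?_, ?_, ?_, ?_⟩
  · by_contra hcon
    push Not at hcon
    have e : n - 1 + 1 = d - 1 := by omega
    have h1 := hrel (n - 1)
    rw [e] at h1
    have h2 := htr _ _ h1 hcon
    have hu : G.ρ (d - 1) ∈ G.up (l - 2) := G.ρ_mem_up (by omega)
    exact G.ne_one (d - 1) (by omega)
      (eq_one G h hE (hN _ (by omega)) (hE.up _ hu) (G.ρ_mem_up (by omega)) h2)
  · by_contra hcon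
    push Not at hcon
    have e1 : n - 1 + 1 = d - 1 := by omega
    have e2 : n - 4 + 1 = d - 4 := by omega
    have e3 : n - 3 + 1 = d - 3 := by omega
    have h1 := hrel (n - 1)
    have h2 := hpow (n - 4) (n - 3)
    rw [e1] at h1
    rw [e2, e3] at h2
    have hmN : (G.ρ (d - 4) * G.ρ (d - 3)) ^ 3 ∈ G.N :=
      pow_mem (mul_mem (hN _ (by omega)) (hN _ (by omega))) 3
    have hmM : (G.ρ (d - 4) * G.ρ (d - 3)) ^ 3 ∈ G.mid (d - 4) (d - 2) :=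
      pow_mem (mul_mem (G.ρ_mem_mid (by omega) (by omega)) (G.ρ_mem_mid (by omega) (by omega))) 3
    have hmU : (G.ρ (d - 4) * G.ρ (d - 3)) ^ 3 * G.ρ (d - 1) ∈ G.up (l - 2) :=
      mul_mem (G.up_anti (by omega) (G.mid_le_up _ _ hmM)) (G.ρ_mem_up (by omega))
    have hrl : Rel ι RI ((gg (n - 4) * gg (n - 3)) ^ 3 * gg (n - 1))
        ((G.ρ (d - 4) * G.ρ (d - 3)) ^ 3 * G.ρ (d - 1)) := Rel.mul G h h2 h1
    have hsq : ∀ z, gg (n - 1) (gg (n - 1) z) = z := by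
      have h3 := Rel.mul G h h1 h1
      rw [G.sq] at h3
      exact hback1 _ h3
    have h3 : (G.ρ (d - 4) * G.ρ (d - 3)) ^ 3 * G.ρ (d - 1) = 1 := by
      apply eq_one G h hE (mul_mem hmN (hN _ (by omega))) (hE.up _ hmU)
        (mul_mem (G.up_anti (by omega) (G.mid_le_up _ _ hmM)) (G.ρ_mem_up (by omega)))
      apply htr _ _ hrl
      intro z
      change ((gg (n - 4) * gg (n - 3)) ^ 3) (gg (n - 1) z) = z
      rw [hcon, hsq]
    have h4 : (G.ρ (d - 4) * G.ρ (d - 3)) ^ 3 = G.ρ (d - 1) := by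
      rw [← G.inv_ρ (d - 1)]
      exact eq_inv_of_mul_eq_one_left h3
    rw [h4] at hmM
    have h5 := G.mid_inf_up hmM (G.ρ_mem_up (le_refl (d - 1))) (by omega)
    exact G.ne_one (d - 1) (by omega) (G.mid_eq_bot (by omega) h5)
  · intro j hj hjl hV1
    -- the element of `Γ`
    set W : Γ := ((List.range' (j - 1) (l - 1 + 1 - j)).map fun i => G.ρ (i + 1)).prod with hW
    have hWm : W ∈ G.mid j (l + 1) := by
      apply lprod_mem
      intro a ha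
      rw [List.mem_range'_1] at ha
      exact G.ρ_mem_mid (by omega) (by omega)
    set q : Γ := W⁻¹ * G.ρ (j + 1) * W with hq
    have hPP : Rel ι RI (PP gg j (l - 1)) W := Rel.prod G h hrel _
    have hQ : Rel ι RI ((PP gg j (l - 1))⁻¹ * gg j * PP gg j (l - 1)) q :=
      Rel.mul G h (Rel.mul G h (Rel.inv G h hPP) (hrel j)) hPP
    have hl1 : Rel ι RI (gg (l - 1)) (G.ρ l) := by
      have := hrel (l - 1)
      rwa [show l - 1 + 1 = l by omega] at this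
    have hYY : Rel ι RI (YY gg j (l - 1)) ((G.ρ l * q) ^ 2) :=
      Rel.pow G h (Rel.mul G h hl1 hQ) 2
    have hqq : q * q = 1 := by
      rw [hq]
      have e : W⁻¹ * G.ρ (j + 1) * W * (W⁻¹ * G.ρ (j + 1) * W) =
          W⁻¹ * (G.ρ (j + 1) * G.ρ (j + 1)) * W := by group
      rw [e, G.sq, mul_one, inv_mul_cancel]
    have hqi : q⁻¹ = q := by
      rw [inv_eq_iff_mul_eq_one]
      exact hqq
    have hqm : q ∈ G.mid j (l + 1) :=
      mul_mem (mul_mem (inv_mem hWm) (G.ρ_mem_mid (by omega) (by omega))) hWm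
    have he : (G.ρ l * q) ^ 2 = G.ρ l * (q * G.ρ l * q⁻¹) := by
      rw [hqi, pow_two]
      simp only [mul_assoc]
    have hy1 : G.ρ l ∈ G.N := hN l (by omega)
    have hy2 : q * G.ρ l * q⁻¹ ∈ G.N := G.conj_mem_N q hy1
    have hyN : (G.ρ l * q) ^ 2 ∈ G.N := by
      rw [he]
      exact mul_mem hy1 hy2
    have hye : G.R 1 ((G.ρ l * q) ^ 2) e0 = e0 := by
      rw [he, G.R_mul_apply 1 hy1 hy2, hE.T _ ⟨q, G.mem_up_zero q, rfl⟩,
        hE.T _ ⟨1, one_mem _, by rw [one_mul, inv_one, mul_one]⟩]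
    have hym : (G.ρ l * q) ^ 2 ∈ G.mid j (l + 1) :=
      pow_mem (mul_mem (G.ρ_mem_mid (by omega) (by omega)) hqm) 2
    have hVl : ∀ z, ι z ∈ G.V 1 l → YY gg j (l - 1) z = z := by
      intro z hz
      apply hV1 z
      change ι z ∈ G.V 1 (l - 1 + 1)
      rwa [show l - 1 + 1 = l by omega]
    have h1 := mem_mid G h hE hyN hye hj (by omega : j ≤ l) (by omega) hym
      (htrV _ _ l hYY hVl)
    rcases mid_one G h1 with h2 | h2
    · left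
      rw [h2] at hYY
      exact hback1 _ hYY
    · right
      rw [h2] at hYY
      exact hback _ _ _ hYY hl1
  · intro j hlj hjd hV1
    have h2 := hpow (j - 1) j
    rw [show j - 1 + 1 = j by omega] at h2
    have hmN : (G.ρ j * G.ρ (j + 1)) ^ 3 ∈ G.N :=
      pow_mem (mul_mem (hN _ (by omega)) (hN _ (by omega))) 3
    have hmM : (G.ρ j * G.ρ (j + 1)) ^ 3 ∈ G.mid j (j + 2) :=
      pow_mem (mul_mem (G.ρ_mem_mid (by omega) (by omega)) (G.ρ_mem_mid (by omega) (by omega))) 3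
    have hme : G.R 1 ((G.ρ j * G.ρ (j + 1)) ^ 3) e0 = e0 :=
      hE.up _ (G.up_anti (by omega) (G.mid_le_up _ _ hmM))
    have h1 := mem_mid G h hE hmN hme (by omega) (by omega : j ≤ j + 3) (by omega) hmM
      (htrV _ _ (j + 3) h2 (fun z hz => hV1 z hz))
    have h3 := G.mid_eq_bot (by omega) h1
    rw [h3] at h2
    exact hback1 _ h2

end

end FOI.L
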