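import Pool.Agent.FOI.AGeo

/-!
# The groups `M_i` and the spaces `V_i` of `Pool/Agent/FOL/PAPER.md`, section 1

Let `G : AGeo d k Γ X`. For a frame `g : Γ`:
* `G.Hc g` is the conjugate `g⁻¹ H g`, `G.M g i = G.Hc g ⊓ G.up i`;
* `G.VV g i` is the fixed space of the isometries `G.R g m`, `m ∈ G.M g i`;
* `G.UU`, `G.DD`, `G.YY` are as `G.U`, `G.D`, `G.Y`, and `G.WW` is the span of all differences.
Here `G.R g m = G.T (g * m * g⁻¹)` for `m ∈ G.Hc g`.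
-/

namespace FOI

open Lib_helper64.FO FO2
open scoped RealInnerProductSpace

noncomputable section

namespace AGeo

variable {d k : ℕ} {Γ : Type} [Group Γ] {X : Type} [MulAction Γ X] (G : AGeo d k Γ X)

/-- the conjugate `g⁻¹ H g` -/
def Hc (g : Γ) : Subgroup Γ := G.H.comap (MulAut.conj g).toMonoidHom

/-- `M_i` in the frame `g` -/
def M (g : Γ) (i : ℕ) : Subgroup Γ := G.Hc g ⊓ G.up i

/-- `V_i` in the frame `g`: the fixed space of `M_i` -/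
def VV (g : Γ) (i : ℕ) : Submodule ℝ (E d) where
  carrier := {v | ∀ n ∈ G.M g i, G.R g n v = v}
  add_mem' := by
    intro a b ha hb h hh
    rw [map_add, ha h hh, hb h hh]
  zero_mem' := by
    intro h _
    exact map_zero _
  smul_mem' := by
    intro c a ha h hh
    rw [map_smul, ha h hh]

/-- the orthogonal complement of `V_i` -/
def UU (g : Γ) (i : ℕ) : Submodule ℝ (E d) := (G.VV g i)ᗮ

/-- the orthogonal complement of `V_i` in `V_{i+1}` -/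
def DD (g : Γ) (i : ℕ) : Submodule ℝ (E d) := G.VV g (i + 1) ⊓ G.UU g i

/-- the `M_p`-module generated by `D_p` -/
def YY (g : Γ) (p : ℕ) : Submodule ℝ (E d) :=
  Submodule.span ℝ {w | ∃ n ∈ G.M g p, ∃ e ∈ G.DD g p, G.R g n e = w}

/-- the span of the differences of the points of the realization -/
def WW : Submodule ℝ (E d) := Submodule.span ℝ {w | ∃ x y, G.f x - G.f y = w}

/-- `s_i(g) = [up i : M_i]` -/
def sM (g : Γ) (i : ℕ) : ℕ := (G.Hc g).relIndex (G.up i)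

/-- `c_j`, the number of orbits of `up j` on the cosets of `H` -/
def cM (j : ℕ) : ℕ := Nat.card (MulAction.orbitRel.Quotient (G.up j) (Γ ⧸ G.H))

/-- the frame `g` has a zero at `i` -/
def Z (g : Γ) (i : ℕ) : Prop := G.M g i ≤ G.up (i + 1)

theorem mem_VV {g : Γ} {i : ℕ} {v : E d} : v ∈ G.VV g i ↔ ∀ n ∈ G.M g i, G.R g n v = v := Iff.rfl

theorem mem_Hc {g m : Γ} : m ∈ G.Hc g ↔ g * m * g⁻¹ ∈ G.H := Iff.rfl

theorem mem_M {g m : Γ} {i : ℕ} : m ∈ G.M g i ↔ g * m * g⁻¹ ∈ G.H ∧ m ∈ G.up i := Iff.rfl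

theorem M_le_Hc (g : Γ) (i : ℕ) : G.M g i ≤ G.Hc g := inf_le_left

theorem M_le_up (g : Γ) (i : ℕ) : G.M g i ≤ G.up i := inf_le_right

theorem M_anti (g : Γ) {i j : ℕ} (h : i ≤ j) : G.M g j ≤ G.M g i := inf_le_inf le_rfl (G.up_anti h)

theorem N_le_Hc (g : Γ) : G.N ≤ G.Hc g := fun _ hn => G.N_le (G.conj_mem_N g hn)

theorem Ni_le_M (g : Γ) (i : ℕ) : G.Ni i ≤ G.M g i := inf_le_inf (G.N_le_Hc g) le_rfl

/-- an element which is in all `g⁻¹ H g` is in `N` -/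
theorem mem_N_of_Hc {n : Γ} (h : ∀ g, n ∈ G.Hc g) : n ∈ G.N := G.mem_N h

/-! ### the isometries `R g m` -/

theorem RM_mul (g : Γ) {m n : Γ} (hm : m ∈ G.Hc g) (hn : n ∈ G.Hc g) :
    G.R g (m * n) = G.R g m * G.R g n := by
  rw [R, R, R, ← G.T_mul _ (G.mem_Hc.1 hm) _ (G.mem_Hc.1 hn)]
  congr 1
  group

theorem RM_mul_apply (g : Γ) {m n : Γ} (hm : m ∈ G.Hc g) (hn : n ∈ G.Hc g) (v : E d) :
    G.R g (m * n) v = G.R g m (G.R g n v) := by
  rw [G.RM_mul g hm hn]; rfl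

theorem RM_inv (g : Γ) {n : Γ} (hn : n ∈ G.Hc g) : G.R g n⁻¹ = (G.R g n)⁻¹ := by
  have := G.RM_mul g (inv_mem hn) hn
  rw [inv_mul_cancel, G.R_one] at this
  exact (eq_inv_of_mul_eq_one_left this.symm)

theorem RM_inv_apply (g : Γ) {n : Γ} (hn : n ∈ G.Hc g) (v : E d) :
    G.R g n (G.R g n⁻¹ v) = v := by
  rw [← G.RM_mul_apply g hn (inv_mem hn), mul_inv_cancel, G.R_one]; rfl

theorem RM_inv_apply' (g : Γ) {n : Γ} (hn : n ∈ G.Hc g) (v : E d) :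
    G.R g n⁻¹ (G.R g n v) = v := by
  rw [← G.RM_mul_apply g (inv_mem hn) hn, inv_mul_cancel, G.R_one]; rfl

/-- equivariance, general form -/
theorem RM_F0 (g : Γ) {n : Γ} (hn : n ∈ G.Hc g) (y : X) :
    G.R g n (G.F g y) = G.F g (n • y) - G.F g (n • G.x0) := by
  have e : ∀ z : X, (g * n * g⁻¹) • g • z = g • n • z := by
    intro z
    rw [← mul_smul, ← mul_smul]
    congr 1
    group
  rw [R, F, G.equiv _ (G.mem_Hc.1 hn), e, e, F, F]
  abel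

/-- equivariance -/
theorem RM_F (g : Γ) {n : Γ} (hn : n ∈ G.Hc g) (h : n • G.x0 = G.x0) (y : X) :
    G.R g n (G.F g y) = G.F g (n • y) := by
  rw [G.RM_F0 g hn, h, G.F_x0, sub_zero]

theorem M_fix {g : Γ} {i : ℕ} (hi : 1 ≤ i) {n : Γ} (hn : n ∈ G.M g i) : n • G.x0 = G.x0 :=
  G.up_fix_x0 (G.up_anti hi hn.2)

theorem RM_Fi (g : Γ) {i : ℕ} (hi : 1 ≤ i) {n : Γ} (hn : n ∈ G.M g i) (y : X) :
    G.R g n (G.F g y) = G.F g (n • y) := G.RM_F g hn.1 (G.M_fix hi hn) y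

/-! ### change of the frame -/

theorem Hc_left {h : Γ} (hh : h ∈ G.H) (g : Γ) : G.Hc (h * g) = G.Hc g := by
  ext m
  rw [mem_Hc, mem_Hc]
  have e : h * g * m * (h * g)⁻¹ = h * (g * m * g⁻¹) * h⁻¹ := by group
  rw [e]
  constructor
  · intro h1
    have h2 := G.H.mul_mem (G.H.mul_mem (G.H.inv_mem hh) h1) hh
    have e2 : h⁻¹ * (h * (g * m * g⁻¹) * h⁻¹) * h = g * m * g⁻¹ := by group
    rwa [e2] at h2
  · intro h1
    exact G.H.mul_mem (G.H.mul_mem hh h1) (G.H.inv_mem hh)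

theorem M_left {h : Γ} (hh : h ∈ G.H) (g : Γ) (i : ℕ) : G.M (h * g) i = G.M g i := by
  rw [M, M, G.Hc_left hh]

theorem RM_left {h : Γ} (hh : h ∈ G.H) (g : Γ) {n : Γ} (hn : n ∈ G.Hc g) (v : E d) :
    G.R (h * g) n (G.T h v) = G.T h (G.R g n v) := by
  have hn' : h * g * n * (h * g)⁻¹ ∈ G.H := by
    have : n ∈ G.Hc (h * g) := by rw [G.Hc_left hh]; exact hn
    exact this
  have h1 : G.R (h * g) n * G.T h = G.T h * G.R g n := by
    rw [R, R, ← G.T_mul _ hn' _ hh, ← G.T_mul _ hh _ (G.mem_Hc.1 hn)]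
    congr 1
    group
  exact congrArg (fun e : E d ≃ₗᵢ[ℝ] E d => e v) h1

theorem VV_left {h : Γ} (hh : h ∈ G.H) (g : Γ) (i : ℕ) {v : E d} :
    G.T h v ∈ G.VV (h * g) i ↔ v ∈ G.VV g i := by
  rw [mem_VV, mem_VV, G.M_left hh]
  constructor
  · intro h1 m hm
    have := h1 m hm
    rw [G.RM_left hh g hm.1] at this
    exact (G.T h).injective this
  · intro h1 m hm
    rw [G.RM_left hh g hm.1, h1 m hm]

theorem mem_Hc_mul {g γ x : Γ} : x ∈ G.Hc (g * γ) ↔ γ * x * γ⁻¹ ∈ G.Hc g := by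
  rw [mem_Hc, mem_Hc]
  have e : g * γ * x * (g * γ)⁻¹ = g * (γ * x * γ⁻¹) * g⁻¹ := by group
  rw [e]

/-- the frame `g * γ` for `γ` normalising `M_i` -/
theorem VV_frame {g γ : Γ} {i : ℕ} (h : ∀ n, n ∈ G.M (g * γ) i ↔ γ * n * γ⁻¹ ∈ G.M g i) :
    G.VV (g * γ) i = G.VV g i := by
  ext v
  rw [mem_VV, mem_VV]
  constructor
  · intro hv n hn
    have e : γ * (γ⁻¹ * n * γ) * γ⁻¹ = n := by group
    have := hv (γ⁻¹ * n * γ) ((h _).2 (by rw [e]; exact hn))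
    rwa [G.R_mul_right, e] at this
  · intro hv n hn
    rw [G.R_mul_right]
    exact hv _ ((h n).1 hn)

theorem VV_frame_up {g γ : Γ} {i : ℕ} (hγ : γ ∈ G.up i) : G.VV (g * γ) i = G.VV g i := by
  apply G.VV_frame
  intro n
  rw [M, M, Subgroup.mem_inf, Subgroup.mem_inf, G.mem_Hc_mul]
  have e : γ⁻¹ * (γ * n * γ⁻¹) * γ = n := by group
  constructor
  · rintro ⟨h1, h2⟩
    exact ⟨h1, mul_mem (mul_mem hγ h2) (inv_mem hγ)⟩
  · rintro ⟨h1, h2⟩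
    refine ⟨h1, ?_⟩
    rw [← e]
    exact mul_mem (mul_mem (inv_mem hγ) h2) hγ

theorem M_frame_dn {g γ : Γ} {i j : ℕ} (hγ : γ ∈ G.dn j) (h : j < i) : G.M (g * γ) i = G.M g i := by
  ext n
  rw [M, M, Subgroup.mem_inf, Subgroup.mem_inf, G.mem_Hc_mul]
  constructor
  · rintro ⟨h1, h2⟩
    rw [G.comm_dn_up h hγ h2, mul_inv_cancel_right] at h1
    exact ⟨h1, h2⟩
  · rintro ⟨h1, h2⟩
    refine ⟨?_, h2⟩
    rw [G.comm_dn_up h hγ h2, mul_inv_cancel_right]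
    exact h1

theorem RM_frame_dn {g γ : Γ} {i j : ℕ} (hγ : γ ∈ G.dn j) (h : j < i) {n : Γ} (hn : n ∈ G.up i) :
    G.R (g * γ) n = G.R g n := by
  rw [G.R_mul_right, G.comm_dn_up h hγ hn, mul_inv_cancel_right]

theorem VV_frame_dn {g γ : Γ} {i j : ℕ} (hγ : γ ∈ G.dn j) (h : j < i) :
    G.VV (g * γ) i = G.VV g i := by
  ext v
  rw [mem_VV, mem_VV, G.M_frame_dn hγ h]
  constructor
  · intro hv n hn
    have := hv n hn
    rwa [G.RM_frame_dn hγ h hn.2] at this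
  · intro hv n hn
    rw [G.RM_frame_dn hγ h hn.2]
    exact hv n hn

/-- `ρ j` changes only `V_{j+1}`. -/
theorem VV_frame_ρ {g : Γ} {i j : ℕ} (h : i ≠ j + 1) : G.VV (g * G.ρ j) i = G.VV g i := by
  rcases Nat.lt_or_ge j i with h1 | h1
  · exact G.VV_frame_dn (j := j + 1) (G.ρ_mem_dn (Nat.lt_succ_self j)) (by omega)
  · exact G.VV_frame_up (G.ρ_mem_up h1)

theorem UU_frame_ρ {g : Γ} {i j : ℕ} (h : i ≠ j + 1) : G.UU (g * G.ρ j) i = G.UU g i := by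
  rw [UU, UU, G.VV_frame_ρ h]

theorem DD_frame_ρ {g : Γ} {i j : ℕ} (h : i ≠ j + 1) (h' : i ≠ j) :
    G.DD (g * G.ρ j) i = G.DD g i := by
  rw [DD, DD, G.UU_frame_ρ h, G.VV_frame_ρ (by omega)]

/-- `g * m = (g * m * g⁻¹) * g` -/
theorem mul_eq_conj_mul (g m a : Γ) : g * (m * a) = g * m * g⁻¹ * (g * a) := by group

/-- the frame `g * (m * a)` with `m ∈ Hc g`, `a ∈ up i` -/
theorem VV_frame_M {g m a : Γ} (hm : m ∈ G.Hc g) {i : ℕ} (ha : a ∈ G.up i) {v : E d} :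
    G.R g m v ∈ G.VV (g * (m * a)) i ↔ v ∈ G.VV g i := by
  rw [mul_eq_conj_mul g m a, R, G.VV_left (G.mem_Hc.1 hm), G.VV_frame_up ha]

theorem VV_frame_M_map {g m a : Γ} (hm : m ∈ G.Hc g) {i : ℕ} (ha : a ∈ G.up i) :
    G.VV (g * (m * a)) i = (G.VV g i).map (G.R g m).toLinearEquiv.toLinearMap := by
  ext v
  rw [Submodule.mem_map]
  constructor
  · intro hv
    refine ⟨(G.R g m).symm v, ?_, (G.R g m).apply_symm_apply v⟩
    rw [← G.VV_frame_M hm ha, LinearIsometryEquiv.apply_symm_apply]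
    exact hv
  · rintro ⟨w, hw, rfl⟩
    exact (G.VV_frame_M hm ha).2 hw

/-- the map `F` in the frame `g * (m * a)`, `m ∈ Hc g` -/
theorem F_frame_M {g m a : Γ} (hm : m ∈ G.Hc g) (y : X) :
    G.F (g * (m * a)) y = G.R g m (G.F (g * a) y) := by
  rw [mul_eq_conj_mul g m a, R]
  exact G.F_left (G.mem_Hc.1 hm) _ _

/-! ### the spaces -/

theorem VV_mono (g : Γ) {i j : ℕ} (h : i ≤ j) : G.VV g i ≤ G.VV g j :=
  fun _ hv n hn => hv n (G.M_anti g h hn)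

theorem UU_anti (g : Γ) {i j : ℕ} (h : i ≤ j) : G.UU g j ≤ G.UU g i :=
  Submodule.orthogonal_le (G.VV_mono g h)

theorem VV_le_V (g : Γ) (i : ℕ) : G.VV g i ≤ G.V g i := fun _ hv n hn => hv n (G.Ni_le_M g i hn)

theorem F_mem_VV (g : Γ) {i : ℕ} {a : Γ} (ha : a ∈ G.dn i) :
    G.F g (a • G.x0) ∈ G.VV g (i + 1) := by
  intro n hn
  rw [G.RM_F g hn.1 (G.M_fix (by omega) hn), G.up_fix hn.2 ha]

theorem W_le_VV (g : Γ) (i : ℕ) : G.W g i ≤ G.VV g (i + 1) := by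
  rw [W, Submodule.span_le]
  rintro _ ⟨a, ha, rfl⟩
  exact G.F_mem_VV g ha

theorem mem_up_of_RM {g n : Γ} {i : ℕ} (hn : n ∈ G.Hc g) (h0 : n • G.x0 = G.x0)
    (h : ∀ a ∈ G.dn i, G.R g n (G.F g (a • G.x0)) = G.F g (a • G.x0)) : n ∈ G.up (i + 1) := by
  apply G.mem_up_of_fix
  intro a ha
  have := h a ha
  rw [G.RM_F g hn h0] at this
  exact G.F_inj g this

/-- `M_d` is trivial -/
theorem VV_top {g : Γ} {i : ℕ} (h : d ≤ i) : G.VV g i = ⊤ := by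
  rw [eq_top_iff]
  intro v _ n hn
  rw [G.one_mem_up_d (G.up_anti h hn.2), G.R_one]
  rfl

theorem F_mem_WW (g : Γ) (y : X) : G.F g y ∈ G.WW := Submodule.subset_span ⟨_, _, rfl⟩

theorem WW_orth_le_VV (g : Γ) (i : ℕ) : G.WWᗮ ≤ G.VV g i := by
  intro v hv n hn
  apply G.perp _ hn.1
  intro x y
  exact (Submodule.mem_orthogonal _ _).1 hv _ (Submodule.subset_span ⟨x, y, rfl⟩)

theorem UU_le_WW (g : Γ) (i : ℕ) : G.UU g i ≤ G.WW := by
  have h := Submodule.orthogonal_le (G.WW_orth_le_VV g i)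
  rwa [Submodule.orthogonal_orthogonal] at h

theorem S_le_WW (q : ℕ) (g : Γ) (j : ℕ) : G.S q g j ≤ G.WW := by
  rw [S, Submodule.span_le]
  rintro _ ⟨y, _, rfl⟩
  exact G.F_mem_WW g y

theorem RM_mem_UU {g n : Γ} {i : ℕ} (hn : n ∈ G.M g i) {w : E d} (hw : w ∈ G.UU g i) :
    G.R g n w ∈ G.UU g i := by
  rw [UU, Submodule.mem_orthogonal] at hw ⊢
  intro v hv
  have h1 := hv n hn
  rw [← h1, LinearIsometryEquiv.inner_map_map]
  exact hw v hv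

theorem DD_le_VV (g : Γ) (i : ℕ) : G.DD g i ≤ G.VV g (i + 1) := inf_le_left

theorem DD_le_UU (g : Γ) (i : ℕ) : G.DD g i ≤ G.UU g i := inf_le_right

theorem DD_le_YY (g : Γ) (p : ℕ) : G.DD g p ≤ G.YY g p := by
  intro e he
  exact Submodule.subset_span ⟨1, one_mem _, e, he, by rw [G.R_one]; rfl⟩

theorem YY_le_UU (g : Γ) (p : ℕ) : G.YY g p ≤ G.UU g p := by
  rw [YY, Submodule.span_le]
  rintro _ ⟨n, hn, e, he, rfl⟩
  exact G.RM_mem_UU hn (G.DD_le_UU g p he)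

theorem RM_mem_YY {g n : Γ} {p : ℕ} (hn : n ∈ G.M g p) {w : E d} (hw : w ∈ G.YY g p) :
    G.R g n w ∈ G.YY g p := by
  rw [YY] at hw
  induction hw using Submodule.span_induction with
  | mem x hx =>
    obtain ⟨m, hm, e, he, rfl⟩ := hx
    rw [← G.RM_mul_apply g hn.1 hm.1]
    exact Submodule.subset_span ⟨n * m, mul_mem hn hm, e, he, rfl⟩
  | zero => rw [map_zero]; exact zero_mem _
  | add x y _ _ hx hy => rw [map_add]; exact add_mem hx hy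
  | smul c x _ hx => rw [map_smul]; exact Submodule.smul_mem _ c hx

theorem RM_mem_S {q : ℕ} {g n : Γ} {j : ℕ} (hj : 1 ≤ j) (hn : n ∈ G.M g j) {w : E d}
    (hw : w ∈ G.S q g j) :
    G.R g n w ∈ G.S q g j := by
  rw [S] at hw
  induction hw using Submodule.span_induction with
  | mem x hx =>
    obtain ⟨y, hy, rfl⟩ := hx
    rw [G.RM_Fi g hj hn]
    exact G.F_mem_S g (G.smul_mem_XX hn.2 hy)
  | zero => rw [map_zero]; exact zero_mem _
  | add x y _ _ hx hy => rw [map_add]; exact add_mem hx hy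
  | smul c x _ hx => rw [map_smul]; exact Submodule.smul_mem _ c hx

/-! ### the sets `XX` -/

theorem ρ_smul_mem_XX {q j i : ℕ} (hi : i + 1 ≠ j) (hj : j ≤ q) {y : X} (hy : y ∈ G.XX q j) :
    G.ρ i • y ∈ G.XX q j := by
  rcases Nat.lt_or_ge i j with h | h
  · obtain ⟨γ, hγ, a, ha, rfl⟩ := hy
    refine ⟨γ, hγ, G.ρ i * a, mul_mem (G.ρ_mem_dn (by omega)) ha, ?_⟩
    rw [← mul_smul, ← mul_smul, ← mul_smul, ← mul_assoc, G.comm_up (by omega) hγ, mul_assoc]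
  · exact G.smul_mem_XX (G.ρ_mem_up h) hy

theorem x0_mem_XX {q j : ℕ} : G.x0 ∈ G.XX q j :=
  ⟨1, one_mem _, 1, one_mem _, by rw [one_smul, one_smul]⟩

theorem ρ_x0_mem_XX {q j : ℕ} (i : ℕ) (hq : 1 ≤ q) : G.ρ i • G.x0 ∈ G.XX q j := by
  rcases Nat.eq_zero_or_pos i with rfl | h
  · exact G.dn_mem_XX (G.ρ_mem_dn (by omega))
  · rw [G.stab i h]
    exact G.x0_mem_XX

/-- `ρ i` preserves `XX q j` for `i ≠ j - 1`, so that it does not change the space `S_j`. -/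
theorem S_frame_ρ {q j i : ℕ} (hi : i + 1 ≠ j) (hj : j ≤ q) (hq : 1 ≤ q) (g : Γ) :
    G.S q (g * G.ρ i) j = G.S q g j := by
  have key : ∀ g : Γ, G.S q (g * G.ρ i) j ≤ G.S q g j := by
    intro g
    rw [S, Submodule.span_le]
    rintro _ ⟨y, hy, rfl⟩
    rw [G.F_mul0]
    exact sub_mem (G.F_mem_S g (G.ρ_smul_mem_XX hi hj hy)) (G.F_mem_S g (G.ρ_x0_mem_XX i hq))
  refine le_antisymm (key g) ?_
  have h := key (g * G.ρ i)
  rwa [mul_assoc, G.sq, mul_one] at h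

end AGeo

end

end FOI
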