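import Pool.Agent.FOL.BStmts

/-!
# The affine reflections
-/

namespace FOI.L

open Lib_helper64.FO FO2 FOK
open scoped RealInnerProductSpace Nat

noncomputable section

namespace MIR

variable {d k : ℕ} {Γ : Type} [Group Γ] {X : Type} [MulAction Γ X] (G : AGeo d k Γ X)

/-- every element is a product of an element of `N` and an element of `dn i`, if `up i ≤ N` -/
theorem split {i : ℕ} (hi : G.up i ≤ G.N) (γ : Γ) :
    ∃ n ∈ G.N, ∃ w ∈ G.dn i, γ = n * w := by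
  have hN := G.N_normal
  have h : γ ∈ gpar G.ρ Set.univ := by rw [G.gen]; trivial
  refine Subgroup.closure_induction (p := fun γ _ => ∃ n ∈ G.N, ∃ w ∈ G.dn i, γ = n * w)
    ?_ ?_ ?_ ?_ h
  · rintro _ ⟨j, -, rfl⟩
    rcases Nat.lt_or_ge j i with hj | hj
    · exact ⟨1, one_mem _, G.ρ j, G.ρ_mem_dn hj, by rw [one_mul]⟩
    · exact ⟨G.ρ j, hi (G.ρ_mem_up hj), 1, one_mem _, by rw [mul_one]⟩
  · exact ⟨1, one_mem _, 1, one_mem _, by rw [one_mul]⟩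
  · rintro a b - - ⟨n, hn, w, hw, rfl⟩ ⟨n', hn', w', hw', rfl⟩
    exact ⟨n * (w * n' * w⁻¹), mul_mem hn (G.conj_mem_N w hn'), w * w', mul_mem hw hw', by group⟩
  · rintro a - ⟨n, hn, w, hw, rfl⟩
    exact ⟨w⁻¹ * n⁻¹ * w, by
      have := G.conj_mem_N' w (inv_mem hn)
      exact this, w⁻¹, inv_mem hw, by group⟩

/-- the affine map of an involution with linear part a reflection -/
theorem mir_of_lin {x : Γ} (hx : x ∈ G.N) (hxx : x * x = 1) {a : E d} (ha : ‖a‖ = 1)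
    (hlin : ∀ v, G.R 1 x v = sref a v) : ∃ h, Mir G x a h := by
  have haa : ⟪a, a⟫ = (1 : ℝ) := by rw [real_inner_self_eq_norm_sq, ha]; norm_num
  set c : E d := G.f (x • G.x0) - G.f G.x0 with hc
  have hF : c = G.F 1 (x • G.x0) := by rw [AGeo.F, one_smul, one_smul]
  have h1 : sref a c = -c := by
    rw [← hlin, hF, G.R_F0 1 hx, ← mul_smul, hxx, one_smul, G.F_x0, zero_sub]
  have h2 : c = ⟪a, c⟫ • a := by
    rw [sref, sub_eq_iff_eq_add] at h1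
    have h3 : (2 : ℝ) • c = (2 : ℝ) • (⟪a, c⟫ • a) := by
      rw [smul_smul, two_smul]
      nth_rw 1 [h1]
      abel
    exact smul_right_injective (E d) (two_ne_zero (α := ℝ)) h3
  refine ⟨⟪a, G.f G.x0⟫ + ⟪a, c⟫ / 2, ha, hlin, fun z => ?_⟩
  rw [aff, hlin, sref]
  have e : G.f (x • G.x0) = c + G.f G.x0 := by rw [hc]; abel
  rw [e, inner_sub_right]
  have e2 : (2 * (⟪a, z⟫ - (⟪a, G.f G.x0⟫ + ⟪a, c⟫ / 2))) • a
      = (2 * (⟪a, z⟫ - ⟪a, G.f G.x0⟫)) • a - ⟪a, c⟫ • a := by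
    rw [← sub_smul]
    congr 1
    ring
  rw [e2, ← h2]
  abel

theorem fix_h {x : Γ} (hx : x • G.x0 = G.x0) {a : E d} {h : ℝ} (hm : Mir G x a h) :
    h = ⟪a, G.f G.x0⟫ := by
  have h1 := hm.aff (G.f G.x0)
  rw [FOI.aff, sub_self, map_zero, zero_add, hx] at h1
  have h2 : (2 * (⟪a, G.f G.x0⟫ - h)) • a = 0 := by
    have h3 := h1.symm
    rwa [sub_eq_self] at h3
  have ha : a ≠ 0 := by
    intro h0
    have := hm.norm
    rw [h0, norm_zero] at this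
    exact zero_ne_one this
  rcases smul_eq_zero.1 h2 with h3 | h3
  · linarith
  · exact absurd h3 ha

end MIR

open MIR

theorem t_MIR : M_MIR := by
  intro _ d k Γ _ X _ G l hl
  have hup : G.ρ l ∈ G.N := hl.up (G.ρ_mem_up (by omega))
  have hTN : ∀ x ∈ TT G 0 l, x ∈ G.N := by
    rintro _ ⟨γ, -, rfl⟩
    exact G.conj_mem_N γ hup
  have hxx : ∀ x ∈ TT G 0 l, x * x = 1 := by
    rintro _ ⟨γ, -, rfl⟩
    have e : γ * G.ρ l * γ⁻¹ * (γ * G.ρ l * γ⁻¹) = γ * (G.ρ l * G.ρ l) * γ⁻¹ := by group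
    rw [e, G.sq]
    group
  have h4 : ∀ x ∈ TT G 0 l, ∀ a, ‖a‖ = 1 → (∀ v, G.R 1 x v = sref a v) → ∃ h, Mir G x a h :=
    fun x hx a ha hlin => mir_of_lin G (hTN x hx) (hxx x hx) ha hlin
  refine ⟨split G hl.up, ?_, ?_, h4, ?_, ?_⟩
  · intro x hx
    refine ⟨hTN x hx, ?_⟩
    obtain ⟨γ, -, rfl⟩ := hx
    obtain ⟨n, hn, w, hw, rfl⟩ := split G hl.up γ
    refine ⟨n, hn, ?_⟩
    have h1 : w * G.ρ l = G.ρ l * w :=
      G.comm_dn_up (i := l - 3) (j := l) (by have := hl.l5; omega) hw (G.ρ_mem_up le_rfl)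
    have e : n * w * G.ρ l * (n * w)⁻¹ = n * (w * G.ρ l) * w⁻¹ * n⁻¹ := by group
    rw [e, h1]
    group
  · intro x hx
    have hx' := hx
    obtain ⟨γ, -, hγ⟩ := hx'
    obtain ⟨a, ha, hlin⟩ := hl.refl γ
    have h1 : ∀ v, G.R 1 x v = sref a v := by
      intro v
      rw [← hlin v, AGeo.R, AGeo.R, hγ, one_mul, inv_one, mul_one]
    obtain ⟨h, hh⟩ := h4 x hx a ha h1
    exact ⟨a, h, hh⟩
  · rintro x ⟨γ, hγ, rfl⟩ a h hm
    apply fix_h G _ hm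
    exact G.up_fix_x0 (mul_mem (mul_mem hγ (G.ρ_mem_up (by have := hl.l5; omega))) (inv_mem hγ))
  · intro a
    constructor
    · rintro ⟨ha, x, hx, hlin⟩
      obtain ⟨h, hh⟩ := h4 x hx a ha hlin
      exact ⟨x, hx, h, hh⟩
    · rintro ⟨x, hx, h, hm⟩
      exact ⟨hm.norm, x, hx, hm.lin⟩

end

end FOI.L
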