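import Pool.Agent.FOL.MGeo
import Pool.Agent.FOL.Bd

/-!
# Statements of the modules, part 1: sections 1 - 6.3 of `Pool/Agent/FOL/PAPER.md`

`S_X` is the statement of module `X`; the module proves `theorem t_X : M_X`, where `M_X` is `S_X` with
the statements of other modules as hypotheses (`theorem t_X : S_X` if there is no `M_X`). Paper proofs:
`Pool/Agent/FOL/PAPER.md`. The basic lemmas are in `Pool/Agent/FOL/MGeo.lean` and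
`Pool/Agent/FOI/AGeo.lean`; similar proofs (with `N_i` instead of `M_i`) are in the files
`Pool/Agent/FOI/X.lean`.
-/

namespace FOL

open Lib_helper64.FO FO2 FOI
open scoped RealInnerProductSpace

noncomputable section

/-- `L = ⌊log2 (index of H)⌋` -/
def LG {d k : ℕ} {Γ : Type} [Group Γ] {X : Type} [MulAction Γ X] (G : AGeo d k Γ X) : ℕ :=
  Nat.log 2 G.H.index

/-! ## Section 1 -/

/-- 1.5. Zeros. (`G.H.index ≠ 0`, and `G.Hc g` has the same index as `G.H`. For a zero at `i < d`: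
`G.Hc g ⊓ G.up i = G.Hc g ⊓ G.up (i + 1)`, and `ρ i ∉ up (i + 1)` by `inter` and `ne_one`.) -/
def S_Z : Prop :=
  ∀ (d k : ℕ) (Γ : Type) [Group Γ] (X : Type) [MulAction Γ X] (G : AGeo d k Γ X) (g : Γ),
    (∀ i j, i ≤ j → G.sM g j ≤ G.sM g i) ∧
    (∀ i, 1 ≤ G.sM g i ∧ G.sM g i ≤ G.H.index) ∧
    (∀ i, i < d → G.Z g i → 2 * G.sM g (i + 1) ≤ G.sM g i) ∧
    ∀ s : Finset ℕ, (∀ i ∈ s, i < d ∧ G.Z g i) → s.card ≤ LG G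

/-- 1.6 -/
def S_ST : Prop :=
  ∀ (d k : ℕ) (Γ : Type) [Group Γ] (X : Type) [MulAction Γ X] (G : AGeo d k Γ X) (g : Γ),
    (∀ i, 1 ≤ i → ¬ G.Z g i → ¬ G.W g i ≤ G.VV g i) ∧
    (∀ i, 1 ≤ i → ¬ G.Z g i → G.VV g i < G.VV g (i + 1)) ∧
    ∀ i, 1 ≤ i → ¬ G.Z g (i + 1) → G.VV (g * G.ρ i) (i + 1) ≠ G.VV g (i + 1)

/-- 1.7. Dimensions. -/
def S_DM : Prop :=
  ∀ (d k : ℕ) (Γ : Type) [Group Γ] (X : Type) [MulAction Γ X] (G : AGeo d k Γ X) (g : Γ),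
    (∀ i, 1 ≤ i → i ≤ d → i ≤ Module.finrank ℝ (G.VV g i) + 1 + LG G ∧
      Module.finrank ℝ (G.VV g i) ≤ i + LG G) ∧
    (∀ i, i < d → i ≤ Module.finrank ℝ (G.W g i) + LG G) ∧
    ∑ i ∈ Finset.Ico 1 d,
      (Module.finrank ℝ (G.VV g (i + 1)) - Module.finrank ℝ (G.VV g i) - 1) ≤ LG G + 1

def M_DM : Prop := S_Z → S_ST → S_DM

/-! ## Section 2 -/

/-- 2, beginning, and 2.1 without the last sentence. -/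
def S_C : Prop :=
  ∀ (d k : ℕ) (Γ : Type) [Group Γ] (X : Type) [MulAction Γ X] (G : AGeo d k Γ X),
    (∀ i j, i ≤ j → G.cM i ≤ G.cM j) ∧
    (∀ j, 1 ≤ G.cM j ∧ G.cM j ≤ G.H.index) ∧
    ∀ u v, u ≤ v → G.cM u = G.cM v → ∀ g, ∀ γ ∈ G.up u, ∃ m ∈ G.M g u, ∃ a ∈ G.up v, γ = m * a

/-- 2.2, 2.3 -/
def S_C2 : Prop :=
  ∀ (d k : ℕ) (Γ : Type) [Group Γ] (X : Type) [MulAction Γ X] (G : AGeo d k Γ X),
    (∀ j, G.cM j = G.cM (j + 1) → ∀ g, G.sM g j * G.cM j = G.H.index) ∧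
    ∀ j j', j < j' → G.cM j = G.cM (j + 1) → G.cM j' = G.cM (j' + 1) → G.cM j < G.cM j' →
      2 * G.sM 1 j' ≤ G.sM 1 j

def M_C2 : Prop := S_C → S_C2

/-- 2.4, the pigeonhole argument -/
def S_PIG : Prop :=
  ∀ (c ψ : ℕ → ℕ) (κ m Λ J : ℕ), (∀ j, 1 ≤ j → j < J → c j ≤ c (j + 1)) →
    (∀ j, 1 ≤ j → j ≤ J → 1 ≤ c j ∧ c j ≤ κ) → (∀ j, 1 ≤ j → j < J → ψ j ≤ ψ (j + 1)) →
    (∀ j, 1 ≤ j → j ≤ J → ψ j ≤ m) →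
    (∀ i j, 1 ≤ i → i < j → j < J → c i = c (i + 1) → c j = c (j + 1) → ψ i = ψ j → c i = c j) →
    κ + (m + 1) * Λ + 1 ≤ J →
    ∃ u, 1 ≤ u ∧ u + Λ ≤ J ∧ c u = c (u + Λ) ∧ ψ u = ψ (u + Λ)

/-- The window `[u, q + 1]`. -/
structure MWin {d k : ℕ} {Γ : Type} [Group Γ] {X : Type} [MulAction Γ X] (G : AGeo d k Γ X)
    (u q : ℕ) : Prop where
  hu : 1 ≤ u
  hq : q = u + (2 * LG G + 13)
  hb : q + 36 ≤ bd G.H.index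
  hd : bd G.H.index ≤ d
  plat : ∀ g, ∀ γ ∈ G.up u, ∃ m ∈ G.M g u, ∃ a ∈ G.up (q + 1), γ = m * a
  nz : ∀ g i, u ≤ i → i ≤ q → ¬ G.Z g i
  line : ∀ g i, u + 1 ≤ i → i ≤ q → Module.finrank ℝ (G.DD g i) = 1

/-- 2.4, 2.5 -/
def S_WIN : Prop :=
  ∀ (d k : ℕ) (Γ : Type) [Group Γ] (X : Type) [MulAction Γ X] (G : AGeo d k Γ X),
    bd G.H.index ≤ d → ∃ u q, MWin G u q

def M_WIN : Prop := S_Z → S_ST → S_DM → S_C → S_C2 → S_PIG → S_WIN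

/-! ## Section 3 -/

/-- The plateau at `i`; the lines `D_i` are orthogonal; `V_j` is the sum of `V_i` and the lines. -/
def S_P1 : Prop :=
  ∀ (d k : ℕ) (Γ : Type) [Group Γ] (X : Type) [MulAction Γ X] (G : AGeo d k Γ X)
    (u q : ℕ), MWin G u q → ∀ g,
    (∀ i, u ≤ i → i ≤ q + 1 → ∀ γ ∈ G.up i, ∃ m ∈ G.M g i, ∃ a ∈ G.up (q + 1), γ = m * a) ∧
    (∀ i j, u + 1 ≤ i → i < j → j ≤ q → G.DD g i ≤ (G.DD g j)ᗮ ∧ G.DD g j ≤ (G.DD g i)ᗮ) ∧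
    ∀ i j, u + 1 ≤ i → i ≤ j → j ≤ q + 1 → G.VV g j = G.VV g i ⊔ ⨆ m ∈ Finset.Ico i j, G.DD g m

/-- The decomposition `ρ l = m a`, and the action of `R g m` on the `V_i` and the `D_i` (6.1, and
3.2). `V_i^{g ρ_l} = R_g(m) V_i^g` by `VV_frame_M`, for `i ≤ q + 1`. -/
def S_P2 : Prop :=
  ∀ (d k : ℕ) (Γ : Type) [Group Γ] (X : Type) [MulAction Γ X] (G : AGeo d k Γ X)
    (u q : ℕ), MWin G u q → ∀ (g m a : Γ) (l : ℕ), u + 1 ≤ l → l < q → m ∈ G.M g l →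
    a ∈ G.up (q + 1) → G.ρ l = m * a →
    (∀ i v, i ≤ q + 1 → i ≠ l + 1 → (G.R g m v ∈ G.VV g i ↔ v ∈ G.VV g i)) ∧
    (∀ i, l + 2 ≤ i → i ≤ q → ∀ v ∈ G.DD g i, G.R g m v ∈ G.DD g i) ∧
    (∀ v ∈ G.DD g l ⊔ G.DD g (l + 1), G.R g m v ∈ G.DD g l ⊔ G.DD g (l + 1)) ∧
    (∀ e ∈ G.DD g l, e ≠ 0 → G.R g m e ∉ G.DD g l) ∧
    ∀ b ∈ G.dn q, G.R g m (G.F g (b • G.x0)) = G.F g (G.ρ l • b • G.x0)

def M_P2 : Prop := S_ST → S_P1 → S_P2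

/-- 3.1, 3.2, 3.3 -/
def S_MY : Prop :=
  ∀ (d k : ℕ) (Γ : Type) [Group Γ] (X : Type) [MulAction Γ X] (G : AGeo d k Γ X)
    (u q : ℕ), MWin G u q → ∀ (g : Γ) (p : ℕ), u + 1 ≤ p → p ≤ q →
    (∀ B ≤ G.YY g p, (∀ n ∈ G.M g p, ∀ w ∈ B, G.R g n w ∈ B) → B = ⊥ ∨ B = G.YY g p) ∧
    (∀ i, p ≤ i → i ≤ q → G.DD g i ≤ G.YY g p) ∧
    G.S q g p ≤ G.VV g p ⊔ G.YY g p

def M_MY : Prop := S_P1 → S_P2 → S_MY

/-! ## Section 4 -/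

/-- 4.1 -/
def S_MS : Prop :=
  ∀ (d k : ℕ) (Γ : Type) [Group Γ] (X : Type) [MulAction Γ X] (G : AGeo d k Γ X)
    (q : ℕ), 1 ≤ q → q < d → ∀ g, d ≤ Module.finrank ℝ (G.S q g q) + 1 + LG G

def M_MS : Prop := S_Z → S_ST → S_DM → S_MS

/-- 4.2 -/
def S_SE : Prop :=
  ∀ (d k : ℕ) (Γ : Type) [Group Γ] (X : Type) [MulAction Γ X] (G : AGeo d k Γ X)
    (u q : ℕ), MWin G u q → ∀ j, u + 1 ≤ j → j < q → ∀ g, G.S q g j = G.S q g (j + 1) →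
    ∀ g', G.S q g' j = G.WW

def M_SE : Prop := S_P1 → S_SE

/-- 4.3, 4.4 -/
def S_SW : Prop :=
  ∀ (d k : ℕ) (Γ : Type) [Group Γ] (X : Type) [MulAction Γ X] (G : AGeo d k Γ X)
    (u q : ℕ), MWin G u q → ∀ (g : Γ) (p : ℕ), u + 1 ≤ p → p + (LG G + 1) ≤ q →
    G.S q g p = G.WW ∧ G.YY g p = G.UU g p

def M_SW : Prop := S_MY → S_MS → S_SE → S_SW

/-! ## Section 5 -/

/-- `E_j(g, g')` -/
def EqJ {d k : ℕ} {Γ : Type} [Group Γ] {X : Type} [MulAction Γ X] (G : AGeo d k Γ X) (q j : ℕ)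
    (g g' : Γ) : Prop :=
  ∀ y ∈ G.XX q j, ∀ z ∈ G.XX q j, ⟪G.F g y, G.F g z⟫ = ⟪G.F g' y, G.F g' z⟫

/-- 5.3 -/
def S_E1 : Prop :=
  ∀ (d k : ℕ) (Γ : Type) [Group Γ] (X : Type) [MulAction Γ X] (G : AGeo d k Γ X)
    (u q : ℕ), MWin G u q → ∀ j, u + 1 ≤ j → j + 1 + (LG G + 1) ≤ q →
    (∀ g g', EqJ G q (j + 1) g g' → EqJ G q j g g') →
    ∀ g g', EqJ G q j g g' → g' * g⁻¹ ∈ G.H

def M_E1 : Prop := S_SW → S_E1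

/-- 5.1, 5.2, 5.4. (The class of `g`: `{x : Γ ⧸ H | E_j(g, x.out⁻¹)}`; `E_j(g, h g)` for `h ∈ H`.) -/
def S_E2 : Prop :=
  ∀ (d k : ℕ) (Γ : Type) [Group Γ] (X : Type) [MulAction Γ X] (G : AGeo d k Γ X)
    (u q : ℕ), MWin G u q → ∀ j, u + 1 ≤ j → j + (2 * LG G + 1) ≤ q →
    ∀ g g', EqJ G q j g g' → g' * g⁻¹ ∈ G.H

def M_E2 : Prop := S_P1 → S_E1 → S_E2

/-! ## Section 6 -/

/-- 6.2 -/
def S_EP1 : Prop :=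
  ∀ (d k : ℕ) (Γ : Type) [Group Γ] (X : Type) [MulAction Γ X] (G : AGeo d k Γ X)
    (u q : ℕ), MWin G u q → ∀ (g m a : Γ) (l : ℕ), u + 1 ≤ l → l < q → m ∈ G.M g l →
    a ∈ G.up (q + 1) → G.ρ l = m * a →
    ∃ ε : ℝ, (ε = 1 ∨ ε = -1) ∧ ∀ i, l + 2 ≤ i → i ≤ q → ∀ e ∈ G.DD g i, G.R g m e = ε • e

def M_EP1 : Prop := S_P1 → S_P2 → S_EP1

/-- 6.3 -/
def S_RN : Prop :=
  ∀ (d k : ℕ) (Γ : Type) [Group Γ] (X : Type) [MulAction Γ X] (G : AGeo d k Γ X)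
    (u q : ℕ), MWin G u q → ∀ l, u + 1 ≤ l → l + (2 * LG G + 3) ≤ q → G.ρ l ∈ G.N ∧
      ∀ g, ∃ ε : ℝ, (ε = 1 ∨ ε = -1) ∧ ∀ w ∈ G.UU g (l + 2), G.R g (G.ρ l) w = ε • w

def M_RN : Prop := S_P1 → S_P2 → S_SW → S_E2 → S_EP1 → S_RN

/-- 6.4 -/
def S_VN : Prop :=
  ∀ (d k : ℕ) (Γ : Type) [Group Γ] (X : Type) [MulAction Γ X] (G : AGeo d k Γ X)
    (u q : ℕ), MWin G u q → ∀ g,
    (∀ p, u + 1 ≤ p → p + (2 * LG G + 3) ≤ q → G.V g p = G.VV g p) ∧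
    ∀ p, u + 1 ≤ p → p + (2 * LG G + 4) ≤ q → G.Y g p = G.U g p

def M_VN : Prop := S_MY → S_SW → S_RN → S_VN

end

end FOL
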