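import Pool.Agent.FOL.CStmts

/-!
# III.2, III.3: `RI (ρ j)` is the identity on `V'_j` for `j ≥ 2`
-/

namespace FOI.L

open Lib_helper64.FO FO2 FOK
open scoped RealInnerProductSpace Nat

noncomputable section

theorem t_RED5 : M_RED5 := by
  intro hE d k Γ _ X _ G l _ e0 _ hV RI hRI b hb hG j hj hjd
  have h1 : RI 1 = 1 := by
    have h2 : RI 1 * RI 1 = RI 1 := by rw [← hRI.mul, one_mul]
    exact mul_eq_left.1 h2
  obtain ⟨m, rfl⟩ : ∃ m, j = m + 1 := ⟨j - 1, by omega⟩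
  obtain ⟨ε, hε, hA⟩ := hE d m (fun i => (G.V 1 (i + 1) ⊓ Sp G 0 l : Submodule ℝ (E d)))
    (RI (G.ρ (m + 1))) (fun i => RI (G.ρ (i + 1)))
    (fun i _ => inf_le_inf (G.V_mono 1 (Nat.le_succ _)) le_rfl)
    (by
      intro i hi
      have := hV.dimV (i + 1) (by omega) (by omega)
      simpa using this)
    (by
      intro i hi v hv
      exact ⟨hG.pres (m + 1) (i + 1) v (by omega) hv.2 hv.1, hRI.pres _ v hv.2⟩)
    (by
      intro v _
      have h2 : RI (G.ρ (m + 1)) * RI (G.ρ (m + 1)) = 1 := by rw [← hRI.mul, G.sq, h1]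
      exact DFunLike.congr_fun h2 v)
    (by
      intro i hi
      refine ⟨fun v _ => ?_, fun p hp hpi v hv => ?_, ?_⟩
      · have h2 : RI (G.ρ (m + 1)) * RI (G.ρ (i + 1)) = RI (G.ρ (i + 1)) * RI (G.ρ (m + 1)) := by
          rw [← hRI.mul, ← hRI.mul, G.comm (i + 1) (m + 1) (by omega)]
        exact DFunLike.congr_fun h2 v
      · exact ⟨hG.pres (i + 1) (p + 1) v (by omega) hv.2 hv.1, hRI.pres _ v hv.2⟩
      · obtain ⟨v, hv1, hv2, hv3⟩ := hG.moves (i + 1) (by omega) (by omega)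
        exact ⟨v, ⟨hv2, hv1⟩, fun h => hv3 h.1⟩)
  have ht : b (G.ρ 0) ∈ (G.V 1 (m + 1) ⊓ Sp G 0 l : Submodule ℝ (E d)) :=
    ⟨G.V_mono 1 (by omega) hb.V, hb.mem _⟩
  have h3 := hA _ ht
  rw [hb.ρj (m + 1) hj] at h3
  have h4 : ε = 1 := by
    have h5 : (ε - 1) • b (G.ρ 0) = 0 := by rw [sub_smul, one_smul, ← h3, sub_self]
    rcases smul_eq_zero.1 h5 with h6 | h6
    · linarith
    · exact absurd h6 hb.ne
  intro v hv1 hv2
  rw [hA v ⟨hv2, hv1⟩, h4, one_smul]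

end

end FOI.L
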