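import Pool.Agent.FOL.BStmts
import Pool.Agent.FO2.ST
import Pool.Agent.FO2.FR2

/-!
# Module TI: the root systems of the conjugates of `ρ l` under `up i`, `1 ≤ i ≤ l`
-/

set_option autoImplicit false

namespace FOI.L

open Lib_helper64.FO FO2 FOK
open scoped RealInnerProductSpace Nat

namespace TI

variable {d k : ℕ} {Γ : Type} [Group Γ] {X : Type} [MulAction Γ X] {G : AGeo d k Γ X} {l : ℕ}

theorem fin_E : Module.finrank ℝ (E d) = d := finrank_euclideanSpace_fin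

theorem rho_mem_N (hT : ATop G l) : G.ρ l ∈ G.N := hT.up (G.ρ_mem_up (by omega))

theorem TN (hT : ATop G l) {i : ℕ} (hi : i ≤ l) : TT G i l ⊆ G.Ni i := by
  rintro x ⟨γ, hγ, rfl⟩
  exact ⟨G.conj_mem_N γ (rho_mem_N hT),
    (G.up i).mul_mem ((G.up i).mul_mem hγ (G.ρ_mem_up hi)) ((G.up i).inv_mem hγ)⟩

theorem TT_conj {i : ℕ} {γ : Γ} (hγ : γ ∈ G.up i) {x : Γ} (hx : x ∈ TT G i l) :
    γ * x * γ⁻¹ ∈ TT G i l := by
  obtain ⟨δ, hδ, rfl⟩ := hx
  exact ⟨γ * δ, mul_mem hγ hδ, by group⟩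

theorem TT_mono {i j : ℕ} (h : i ≤ j) : TT G j l ⊆ TT G i l := by
  rintro x ⟨γ, hγ, rfl⟩
  exact ⟨γ, G.up_anti h hγ, rfl⟩

theorem Ph_mono {i j : ℕ} (h : i ≤ j) (g : Γ) : Ph G g j l ⊆ Ph G g i l := by
  rintro a ⟨h1, x, hx, h2⟩
  exact ⟨h1, x, TT_mono h hx, h2⟩

theorem root (hT : ATop G l) (g : Γ) {i : ℕ} {x : Γ} (hx : x ∈ TT G i l) :
    ∃ a ∈ Ph G g i l, ∀ v, G.R g x v = sref a v := by
  obtain ⟨γ, hγ, rfl⟩ := hx
  obtain ⟨a, ha, h⟩ := hT.refl (g * γ)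
  have h2 : ∀ v, G.R g (γ * G.ρ l * γ⁻¹) v = sref a v := by
    intro v
    rw [← G.R_mul_right]
    exact h v
  exact ⟨a, ⟨ha, _, ⟨γ, hγ, rfl⟩, h2⟩, h2⟩

/-- conjugation of roots -/
theorem conj_root (g : Γ) {n x : Γ} (hn : n ∈ G.N) (hx : x ∈ G.N) {a : E d}
    (h : ∀ v, G.R g x v = sref a v) (v : E d) :
    G.R g (n * x * n⁻¹) v = sref (G.R g n a) v := by
  rw [G.R_mul_apply g (mul_mem hn hx) (inv_mem hn), G.R_mul_apply g hn hx, h, map_sref,
    G.R_inv_apply g hn]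

theorem inv (hT : ATop G l) (g : Γ) {i : ℕ} (hi : i ≤ l) {n : Γ} (hn : n ∈ G.Ni i) {a : E d}
    (ha : a ∈ Ph G g i l) : G.R g n a ∈ Ph G g i l := by
  obtain ⟨h1, x, hx, h2⟩ := ha
  refine ⟨by rw [LinearIsometryEquiv.norm_map, h1], n * x * n⁻¹, TT_conj hn.2 hx, ?_⟩
  exact conj_root g hn.1 (TN hT hi hx).1 h2

theorem rs (hT : ATop G l) (g : Γ) {i : ℕ} (h1i : 1 ≤ i) (hi : i ≤ l) : IsRS (Ph G g i l) := by
  have hfin : Finite (G.up i) := G.finite_up h1i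
  refine ⟨?_, ?_, fun a ha => ha.1, ?_⟩
  · have hsub : Ph G g i l ⊆
        ⋃ x : G.up i, {a : E d | ‖a‖ = 1 ∧ ∀ v, G.R g x.1 v = sref a v} := by
      rintro a ⟨h1, x, hx, h2⟩
      exact Set.mem_iUnion.2 ⟨⟨x, (TN hT hi hx).2⟩, h1, h2⟩
    refine (Set.finite_iUnion fun x => ?_).subset hsub
    by_cases hne : ∃ a : E d, ‖a‖ = 1 ∧ ∀ v, G.R g x.1 v = sref a v
    · obtain ⟨a, ha, h⟩ := hne
      refine (Set.toFinite ({a, -a} : Set (E d))).subset ?_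
      rintro b ⟨hb, h'⟩
      rcases ST.eq_of_sref hb ha (fun v => by rw [← h, ← h']) with e | e
      · exact Or.inl e
      · exact Or.inr e
    · have : {a : E d | ‖a‖ = 1 ∧ ∀ v, G.R g x.1 v = sref a v} = ∅ := by
        rw [Set.eq_empty_iff_forall_notMem]
        exact fun a ha => hne ⟨a, ha⟩
      rw [this]
      exact Set.finite_empty
  · obtain ⟨a, ha, -⟩ := root hT g (i := i) (x := G.ρ l) ⟨1, one_mem _, by group⟩
    exact ⟨a, ha⟩
  · intro a ha b hb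
    obtain ⟨-, x, hx, h2⟩ := ha
    rw [← h2]
    exact inv hT g hi (TN hT hi hx) hb

/-- every element of `up i` is a product of an element of `N_i` and one of `mid i (l - 3)` -/
theorem decomp (hT : ATop G l) {i : ℕ} {γ : Γ} (hγ : γ ∈ G.up i) :
    ∃ n ∈ G.Ni i, ∃ m ∈ G.mid i (l - 3), γ = n * m := by
  have hγ' : γ ∈ Subgroup.closure (G.ρ '' {j | i ≤ j}) := hγ
  refine Subgroup.closure_induction (p := fun γ _ => ∃ n ∈ G.Ni i, ∃ m ∈ G.mid i (l - 3),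
    γ = n * m) ?_ ?_ ?_ ?_ hγ'
  · rintro _ ⟨j, hj, rfl⟩
    have hj' : i ≤ j := hj
    rcases Nat.lt_or_ge j (l - 3) with h | h
    · exact ⟨1, one_mem _, G.ρ j, G.ρ_mem_mid hj' h, (one_mul _).symm⟩
    · exact ⟨G.ρ j, ⟨hT.up (G.ρ_mem_up h), G.ρ_mem_up hj'⟩, 1, one_mem _, (mul_one _).symm⟩
  · exact ⟨1, one_mem _, 1, one_mem _, (mul_one _).symm⟩
  · rintro _ _ _ _ ⟨n, hn, m, hm, rfl⟩ ⟨n', hn', m', hm', rfl⟩
    refine ⟨n * (m * n' * m⁻¹), mul_mem hn (G.conj_up (G.mid_le_up _ _ hm) hn'), m * m',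
      mul_mem hm hm', ?_⟩
    group
  · rintro _ _ ⟨n, hn, m, hm, rfl⟩
    have h1 := G.conj_up (inv_mem (G.mid_le_up _ _ hm)) (inv_mem hn)
    rw [inv_inv] at h1
    refine ⟨m⁻¹ * n⁻¹ * m, h1, m⁻¹, inv_mem hm, ?_⟩
    group

theorem conj_N (hT : ATop G l) {i : ℕ} {x : Γ} (hx : x ∈ TT G i l) :
    ∃ n ∈ G.Ni i, x = n * G.ρ l * n⁻¹ := by
  obtain ⟨γ, hγ, rfl⟩ := hx
  obtain ⟨n, hn, m, hm, rfl⟩ := decomp hT hγ
  have h5 := hT.l5
  have h1 : m * G.ρ l = G.ρ l * m :=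
    G.comm_dn_up (i := l - 3) (j := l) (by omega) (G.mid_le_dn _ _ hm) (G.ρ_mem_up le_rfl)
  refine ⟨n, hn, ?_⟩
  have h2 : n * m * G.ρ l * (n * m)⁻¹ = n * (m * G.ρ l) * m⁻¹ * n⁻¹ := by group
  rw [h2, h1]
  group

theorem trans0 (hT : ATop G l) (g : Γ) {i : ℕ} {a0 : E d} (ha0 : ‖a0‖ = 1)
    (h0 : ∀ v, G.R g (G.ρ l) v = sref a0 v) {b : E d} (hb : b ∈ Ph G g i l) :
    ∃ n ∈ G.Ni i, G.R g n a0 = b ∨ G.R g n a0 = -b := by
  obtain ⟨h1, x, hx, h2⟩ := hb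
  obtain ⟨n, hn, rfl⟩ := conj_N hT hx
  have h3 := conj_root g hn.1 (rho_mem_N hT) h0
  exact ⟨n, hn, ST.eq_of_sref (by rw [LinearIsometryEquiv.norm_map, ha0]) h1
    (fun v => by rw [← h3, h2])⟩

theorem trans (hT : ATop G l) (g : Γ) {i : ℕ} {a b : E d} (ha : a ∈ Ph G g i l)
    (hb : b ∈ Ph G g i l) : ∃ n ∈ G.Ni i, G.R g n a = b ∨ G.R g n a = -b := by
  obtain ⟨a0, ha0, h0⟩ := hT.refl g
  obtain ⟨n, hn, h1⟩ := trans0 hT g ha0 h0 ha
  obtain ⟨m, hm, h2⟩ := trans0 hT g ha0 h0 hb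
  have h3 : G.R g (m * n⁻¹) a = G.R g m a0 ∨ G.R g (m * n⁻¹) a = -G.R g m a0 := by
    rw [G.R_mul_apply g hm.1 (inv_mem hn.1)]
    rcases h1 with h1 | h1
    · left
      rw [← h1, G.R_inv_apply' g hn.1]
    · right
      have : a = -G.R g n a0 := by rw [h1, neg_neg]
      rw [this, map_neg, G.R_inv_apply' g hn.1, map_neg]
  refine ⟨m * n⁻¹, mul_mem hm (inv_mem hn), ?_⟩
  rcases h2 with h2 | h2 <;> rcases h3 with h3 | h3
  · left; rw [h3, h2]
  · right; rw [h3, h2]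
  · right; rw [h3, h2]
  · left; rw [h3, h2, neg_neg]

theorem span_le (hT : ATop G l) (g : Γ) {i : ℕ} (hi : i ≤ l) :
    Submodule.span ℝ (Ph G g i l) ≤ G.U g i := by
  rw [Submodule.span_le]
  rintro a ⟨h1, x, hx, h2⟩
  change a ∈ (G.V g i)ᗮ
  rw [Submodule.mem_orthogonal]
  intro v hv
  have h3 := hv x (TN hT hi hx)
  rw [h2] at h3
  rw [real_inner_comm]
  exact FR2.perp_of_sref h1 h3

/-- the spans are strictly decreasing in `i` -/
theorem strict (hT : ATop G l) (g : Γ) {i : ℕ} (h1i : 1 ≤ i) (hi : i < l) :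
    ¬ Submodule.span ℝ (Ph G g i l) ≤ G.U g (i + 1) := by
  intro hcon
  have hld := hT.ld
  have h1 : ∀ x ∈ TT G i l, x ∈ G.up (i + 1) := by
    intro x hx
    obtain ⟨a, ha, h2⟩ := root hT g hx
    refine G.mem_up_of_R' (g := g) (TN hT hi.le hx).1 (G.Ni_fix h1i (TN hT hi.le hx))
      fun v hv => ?_
    have h3 : a ∈ G.U g (i + 1) := hcon (Submodule.subset_span ha)
    have h4 : ⟪v, a⟫ = 0 := (Submodule.mem_orthogonal _ _).1 h3 v hv
    rw [real_inner_comm] at h4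
    rw [h2, FR2.sref_eq_self h4]
  have h2 : Subgroup.closure (TT G i l) = ⊥ := by
    refine G.L1 (i := i) ?_ ?_
    · rw [Subgroup.closure_le]
      exact h1
    · intro γ hγ m hm
      refine Subgroup.closure_induction (p := fun m _ => γ * m * γ⁻¹ ∈ Subgroup.closure (TT G i l))
        ?_ ?_ ?_ ?_ hm
      · intro x hx
        exact Subgroup.subset_closure (TT_conj hγ hx)
      · rw [mul_one, mul_inv_cancel]
        exact one_mem _
      · intro a b _ _ ha hb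
        have e : γ * (a * b) * γ⁻¹ = (γ * a * γ⁻¹) * (γ * b * γ⁻¹) := by group
        rw [e]
        exact mul_mem ha hb
      · intro a _ ha
        have e : γ * a⁻¹ * γ⁻¹ = (γ * a * γ⁻¹)⁻¹ := by group
        rw [e]
        exact inv_mem ha
  have h3 : G.ρ l ∈ Subgroup.closure (TT G i l) :=
    Subgroup.subset_closure ⟨1, one_mem _, by group⟩
  rw [h2, Subgroup.mem_bot] at h3
  exact G.ne_one l (by omega) h3

theorem span_aux (hT : ATop G l) (g : Γ) : ∀ m i, 1 ≤ i → i + m = l →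
    d ≤ Module.finrank ℝ (Submodule.span ℝ (Ph G g i l)) + i := by
  intro m
  induction m with
  | zero =>
    intro i _ hi
    have hi' : i = l := by omega
    subst hi'
    exact hT.dim g
  | succ m ih =>
    intro i h1i hi
    have h1 := ih (i + 1) (by omega) (by omega)
    have h2 : Submodule.span ℝ (Ph G g (i + 1) l) < Submodule.span ℝ (Ph G g i l) := by
      refine lt_of_le_not_ge (Submodule.span_mono (Ph_mono (by omega) g)) fun hle => ?_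
      exact strict hT g h1i (by omega) (hle.trans (span_le hT g (by omega)))
    have h3 := Submodule.finrank_lt_finrank_of_lt h2
    omega

theorem span_inv (hT : ATop G l) (h : Γ) {n : Γ} (hn : n ∈ G.Ni (l + 1)) {v : E d}
    (hv : v ∈ Submodule.span ℝ (Ph G h l l)) :
    G.R h n v ∈ Submodule.span ℝ (Ph G h l l) := by
  refine Submodule.span_induction (p := fun v _ => G.R h n v ∈ Submodule.span ℝ (Ph G h l l))
    ?_ ?_ ?_ ?_ hv
  · intro a ha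
    exact Submodule.subset_span (inv hT h le_rfl (G.Ni_anti (by omega) hn) ha)
  · rw [map_zero]
    exact zero_mem _
  · intro x y _ _ hx hy
    rw [map_add]
    exact add_mem hx hy
  · intro c x _ hx
    rw [map_smul]
    exact Submodule.smul_mem _ _ hx

theorem inf_le_two (hT : ATop G l) (h : Γ) :
    Module.finrank ℝ (Submodule.span ℝ (Ph G h l l) ⊓ G.V h (l + 1) : Submodule ℝ (E d)) ≤ 2 := by
  have h5 := hT.l5
  have hd := hT.ld
  have h1 := (hT.dimV h l (by omega) (by omega)).1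
  have h2 := (hT.dimV h (l + 1) (by omega) (by omega)).2
  have h3 : (Submodule.span ℝ (Ph G h l l) ⊓ G.V h (l + 1)) ⊓ G.V h l = ⊥ := by
    rw [eq_bot_iff]
    rintro v ⟨⟨hv1, -⟩, hv2⟩
    have h4 : v ∈ (G.V h l)ᗮ := span_le hT h le_rfl hv1
    have h6 : ⟪v, v⟫ = 0 := (Submodule.mem_orthogonal _ _).1 h4 v hv2
    rw [Submodule.mem_bot]
    exact inner_self_eq_zero.1 h6
  have h4 : (Submodule.span ℝ (Ph G h l l) ⊓ G.V h (l + 1)) ⊔ G.V h l ≤ G.V h (l + 1) :=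
    sup_le inf_le_right (G.V_mono h (by omega))
  have h6 := Submodule.finrank_mono h4
  have h7 := Submodule.finrank_sup_add_finrank_inf_eq
    (Submodule.span ℝ (Ph G h l l) ⊓ G.V h (l + 1)) (G.V h l)
  rw [h3, finrank_bot] at h7
  omega

/-- the roots of `up l` in the frames `h` and `h ρ_j` are not orthogonal -/
theorem no_swap (hT : ATop G l) (h : Γ) {j : ℕ} (hj : j < l) (L : Submodule ℝ (E d))
    (h1 : ∀ a ∈ Ph G h l l, a ∈ L) (h2 : ∀ a ∈ Ph G (h * G.ρ j) l l, a ∈ Lᗮ) : False := by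
  have h5 := hT.l5
  have hd := hT.ld
  set U1 := Submodule.span ℝ (Ph G h l l) with hU1
  set U2 := Submodule.span ℝ (Ph G (h * G.ρ j) l l) with hU2
  have hF : G.V (h * G.ρ j) (l + 1) = G.V h (l + 1) := G.V_frame_ρ (by omega)
  have hL1 : U1 ≤ L := Submodule.span_le.2 h1
  have hL2 : U2 ≤ Lᗮ := Submodule.span_le.2 h2
  have hdis : ∀ v, v ∈ U1 → v ∈ U2 → v = 0 := by
    intro v hv1 hv2
    have h6 : ⟪v, v⟫ = 0 := (Submodule.mem_orthogonal _ _).1 (hL2 hv2) v (hL1 hv1)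
    exact inner_self_eq_zero.1 h6
  have h12 : U1 ⊓ U2 = ⊥ := by
    rw [eq_bot_iff]
    rintro v ⟨hv1, hv2⟩
    rw [Submodule.mem_bot]
    exact hdis v hv1 hv2
  have hR : ∀ n ∈ G.Ni (l + 1), G.R (h * G.ρ j) n = G.R h n := by
    intro n hn
    rw [G.R_mul_right]
    have hc : G.ρ j * n = n * G.ρ j := G.comm_up (by omega) hn.2
    rw [hc, mul_inv_cancel_right]
  have hW : (U1 ⊔ U2) ⊓ G.V h (l + 1) ≤ (U1 ⊓ G.V h (l + 1)) ⊔ (U2 ⊓ G.V h (l + 1)) := by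
    rintro w ⟨hw, hwF⟩
    obtain ⟨u1, hu1, u2, hu2, rfl⟩ := Submodule.mem_sup.1 hw
    have key : ∀ n ∈ G.Ni (l + 1), G.R h n u1 = u1 ∧ G.R h n u2 = u2 := by
      intro n hn
      have e1 : G.R h n (u1 + u2) = u1 + u2 := hwF n hn
      rw [map_add] at e1
      have e2 : G.R h n u1 ∈ U1 := span_inv hT h hn hu1
      have e3 : G.R h n u2 ∈ U2 := by
        have e4 := span_inv hT (h * G.ρ j) hn hu2
        rw [hR n hn] at e4
        exact e4
      have e5 : G.R h n u1 - u1 = u2 - G.R h n u2 := by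
        rw [sub_eq_sub_iff_add_eq_add, e1, add_comm]
      have e6 : G.R h n u1 - u1 = 0 := by
        refine hdis _ (sub_mem e2 hu1) ?_
        rw [e5]
        exact sub_mem hu2 e3
      refine ⟨sub_eq_zero.1 e6, ?_⟩
      rw [e6] at e5
      exact (sub_eq_zero.1 e5.symm).symm
    exact Submodule.add_mem_sup ⟨hu1, fun n hn => (key n hn).1⟩ ⟨hu2, fun n hn => (key n hn).2⟩
  have d1 := Submodule.finrank_mono hW
  have d2 := Submodule.finrank_add_le_finrank_add_finrank (U1 ⊓ G.V h (l + 1))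
    (U2 ⊓ G.V h (l + 1))
  have d3 : Module.finrank ℝ (U1 ⊓ G.V h (l + 1) : Submodule ℝ (E d)) ≤ 2 := inf_le_two hT h
  have d4 : Module.finrank ℝ (U2 ⊓ G.V h (l + 1) : Submodule ℝ (E d)) ≤ 2 := by
    have := inf_le_two hT (h * G.ρ j)
    rw [hF] at this
    exact this
  have d5 := Submodule.finrank_sup_add_finrank_inf_eq (U1 ⊔ U2) (G.V h (l + 1))
  have d6 := Submodule.finrank_sup_add_finrank_inf_eq U1 U2
  rw [h12, finrank_bot] at d6
  have d7 := Submodule.finrank_le ((U1 ⊔ U2) ⊔ G.V h (l + 1))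
  rw [fin_E] at d7
  have d8 : d ≤ Module.finrank ℝ U1 + l := hT.dim h
  have d9 : d ≤ Module.finrank ℝ U2 + l := hT.dim (h * G.ρ j)
  have d10 := (hT.dimV h (l + 1) (by omega) (by omega)).1
  omega

theorem Ph_frame (g : Γ) {i : ℕ} (hi : i ≤ l) {γ : Γ} (hγ : γ ∈ G.up i) :
    Ph G (g * γ) l l ⊆ Ph G g i l := by
  rintro a ⟨h1, x, hx, h2⟩
  refine ⟨h1, γ * x * γ⁻¹, TT_conj hγ (TT_mono hi hx), fun v => ?_⟩
  rw [← G.R_mul_right]
  exact h2 v

/-- if `Ph l` is in `L` then `Ph l` is in `L` in all frames `g γ` -/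
theorem irr_frame (hT : ATop G l) (g : Γ) {i : ℕ} (hi : i ≤ l) (L : Submodule ℝ (E d))
    (hL : ∀ a ∈ Ph G g i l, a ∈ L ∨ a ∈ Lᗮ) (hl : ∀ a ∈ Ph G g l l, a ∈ L) {γ : Γ}
    (hγ : γ ∈ G.up i) : ∀ a ∈ Ph G (g * γ) l l, a ∈ L := by
  have hγ' : γ ∈ Subgroup.closure (G.ρ '' {j | i ≤ j}) := hγ
  have step : ∀ x ∈ G.up i, ∀ j, i ≤ j → (∀ a ∈ Ph G (g * x) l l, a ∈ L) →
      ∀ a ∈ Ph G (g * (x * G.ρ j)) l l, a ∈ L := by
    intro x hx j hj ih
    rcases Nat.lt_or_ge j l with h | h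
    · have h1 := hT.irr (g * (x * G.ρ j)) L fun a ha =>
        hL a (Ph_frame g hi (mul_mem hx (G.ρ_mem_up hj)) ha)
      rcases h1 with h1 | h1
      · exact h1
      · exfalso
        rw [← mul_assoc] at h1
        exact no_swap hT (g * x) h L ih h1
    · intro a ha
      rw [← mul_assoc] at ha
      exact ih a (Ph_frame (g * x) le_rfl (G.ρ_mem_up h) ha)
  refine Subgroup.closure_induction_right
    (p := fun γ _ => ∀ a ∈ Ph G (g * γ) l l, a ∈ L) ?_ ?_ ?_ hγ'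
  · rw [mul_one]
    exact hl
  · rintro x hx _ ⟨j, hj, rfl⟩ ih
    exact step x hx j hj ih
  · rintro x hx _ ⟨j, hj, rfl⟩ ih
    rw [G.inv_ρ]
    exact step x hx j hj ih

/-- if `Ph l` is in `L` then `Ph i` is in `L` -/
theorem irr_aux (hT : ATop G l) (g : Γ) {i : ℕ} (hi : i ≤ l) (L : Submodule ℝ (E d))
    (hL : ∀ a ∈ Ph G g i l, a ∈ L ∨ a ∈ Lᗮ) (hl : ∀ a ∈ Ph G g l l, a ∈ L) :
    ∀ a ∈ Ph G g i l, a ∈ L := by
  rintro c ⟨hc, x, ⟨γ, hγ, rfl⟩, h2⟩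
  refine irr_frame hT g hi L hL hl hγ c ⟨hc, G.ρ l, ⟨1, one_mem _, by group⟩, fun v => ?_⟩
  rw [G.R_mul_right]
  exact h2 v

theorem irr (hT : ATop G l) (g : Γ) {i : ℕ} (hi : i ≤ l) : IrrRS (Ph G g i l) := by
  intro L hL
  rcases hT.irr g L (fun a ha => hL a (Ph_mono hi g ha)) with h | h
  · exact Or.inl (irr_aux hT g hi L hL h)
  · refine Or.inr (irr_aux hT g hi Lᗮ (fun a ha => ?_) h)
    rcases hL a ha with h1 | h1
    · right
      rw [Submodule.orthogonal_orthogonal]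
      exact h1
    · exact Or.inl h1

end TI

open TI in
/-- The root systems of the conjugates of `ρ l` under `up i`, `1 ≤ i ≤ l`. -/
theorem t_TI : S_TI := by
  intro d k Γ _ X _ G l hT g i h1i hi
  exact ⟨TN hT hi, rs hT g h1i hi, irr hT g hi, TI.span_aux hT g (l - i) i h1i (by omega),
    TI.span_le hT g hi, fun x hx => root hT g hx,
    fun n hn a ha => TI.inv hT g hi hn ha, fun a ha b hb => TI.trans hT g ha hb⟩

end FOI.L
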