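import Pool.Agent.FOL.BStmts

/-!
# Module TW: the argument with (L1) and (L2) for strict inclusions
-/

namespace FOI.L

open Lib_helper64.FO FO2 FOK
open scoped RealInnerProductSpace

namespace TW

variable {d k : ℕ} {Γ : Type} [Group Γ] {X : Type} [MulAction Γ X] (G : AGeo d k Γ X)

/-- the conjugates of `ρ l` under `up i` are not all in `up (i + 1)` -/
theorem not_up {l i : ℕ} (hl : l < d) (h : ∀ x ∈ TT G i l, x ∈ G.up (i + 1)) : False := by
  have h1 : Subgroup.closure (TT G i l) ≤ G.up (i + 1) := (Subgroup.closure_le _).2 h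
  have h2 : ∀ γ ∈ G.up i, ∀ m ∈ Subgroup.closure (TT G i l),
      γ * m * γ⁻¹ ∈ Subgroup.closure (TT G i l) := by
    intro γ hγ m hm
    induction hm using Subgroup.closure_induction with
    | mem x hx =>
      obtain ⟨δ, hδ, rfl⟩ := hx
      refine Subgroup.subset_closure ⟨γ * δ, mul_mem hγ hδ, ?_⟩
      group
    | one => rw [mul_one, mul_inv_cancel]; exact one_mem _
    | mul a b _ _ ha hb =>
      have e : γ * (a * b) * γ⁻¹ = (γ * a * γ⁻¹) * (γ * b * γ⁻¹) := by group
      rw [e]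
      exact mul_mem ha hb
    | inv a _ ha =>
      have e : γ * a⁻¹ * γ⁻¹ = (γ * a * γ⁻¹)⁻¹ := by group
      rw [e]
      exact inv_mem ha
  have h3 := G.L1 h1 h2
  have h4 : G.ρ l ∈ Subgroup.closure (TT G i l) :=
    Subgroup.subset_closure ⟨1, one_mem _, by rw [one_mul, inv_one, mul_one]⟩
  rw [h3, Subgroup.mem_bot] at h4
  exact G.ne_one l hl h4

end TW

open TW in
theorem t_TW : M_TW := by
  intro hTI d k Γ _ X _ G l hl i hi hil
  have hld : l < d := by have := hl.ld; omega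
  have hTN : TT G i l ⊆ G.Ni i := (hTI d k Γ X G l hl 1 i hi hil).TN
  refine ⟨fun h => ?_, fun h2i h => ?_⟩
  · refine not_up G hld (l := l) (i := i) fun x hx => ?_
    have hxN := hTN hx
    exact G.mem_up_of_R (g := 1) hxN.1 (G.Ni_fix hi hxN) (h x hx)
  · refine not_up G hld (l := l) (i := i) fun x hx => ?_
    have hxN := hTN hx
    obtain ⟨j, rfl⟩ : ∃ j, i = j + 1 := ⟨i - 1, by omega⟩
    have hj : 1 ≤ j := by omega
    have e : j + 1 - 1 = j := by omega
    rw [e] at h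
    have h3 : G.ρ j * x * G.ρ j ∈ G.N := by
      have := G.conj_mem_N (G.ρ j) hxN.1
      rwa [G.inv_ρ] at this
    have hρ : G.ρ j ∈ G.up 1 := G.ρ_mem_up hj
    have h4 : (G.ρ j * x * G.ρ j) • G.x0 = G.x0 :=
      G.up_fix_x0 (mul_mem (mul_mem hρ (G.up_anti (by omega) hxN.2)) hρ)
    have h5 : G.ρ j * x * G.ρ j ∈ G.up (j + 1) := G.mem_up_of_R (g := 1) h3 h4 (h x hx)
    exact G.L2 (i := j) hxN.2 h5

end FOI.L
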