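import Pool.Agent.FOI.UDefs
import Pool.Agent.FOL.Bd

/-!
# The three kinds of k-orbit realizations, with the bound `bd k = k + 4 (⌊log2 k⌋ + 4) ^ 2`

As `Pool/Agent/FOI/UDefs.lean`, with `bd k` instead of `100 (k + 1) ^ 5`; `wa`, `abt`, `bI`, `bR`,
`Datum.HF` are the definitions there.
-/

namespace FOI.L

open Lib_helper64.FO FO2
open FOL (bd)
open scoped RealInnerProductSpace

noncomputable section

/-- The realizations of finite polytopes: for every word `w` in `0, …, d - 1` the vertex `ρ_w F0`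
goes to `c + r (π_w a0) g_w y`. -/
def KindF {d : ℕ} {P : Type} [PartialOrder P] (k : ℕ) (rk : P → ℤ) (f : P → E d) (C : Flag P)
    (ρ : Fin d → (P ≃o P)) : Prop :=
  ∃ F0 ∈ C, rk F0 = 0 ∧ ∃ (c y : E d) (g : ℕ → (E d ≃ₗᵢ[ℝ] E d)) (A : Type) (M : Datum d A),
    Finite A ∧ (∀ j : Fin d, bd k ≤ j.val + 20 → M.π j = 1) ∧
    LinModel d 1 ⊤ y g ∧ (∀ a, M.r a ≠ 0) ∧ M.HF.relIndex M.C = k ∧
    ∀ w : List (Fin d), f (wa (fun j => ρ j) w F0) =
      c + M.r (wa (fun j => M.π j) w M.a0) • wa (fun j => g j) w y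

/-- The first kind of realizations of infinite polytopes: for every word `w` the vertex `ρ_w F0` goes
to `c + β_w(0) + r (π_w a0) g_w y`; `β j = s j g j`, about the point `l y` with `l ≠ 0` for
`j = 0`. -/
def KindI {d : ℕ} {P : Type} [PartialOrder P] (k : ℕ) (rk : P → ℤ) (f : P → E d) (C : Flag P)
    (ρ : Fin d → (P ≃o P)) : Prop :=
  ∃ F0 ∈ C, rk F0 = 0 ∧ ∃ (c y : E d) (l : ℝ) (s0 : ℤˣ) (ε : ℝ) (g : ℕ → (E d ≃ₗᵢ[ℝ] E d))
    (A : Type) (M : Datum d A),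
    Finite A ∧ (∀ j : Fin d, bd k ≤ j.val + 20 → M.π j = 1) ∧
    (ε = 1 ∨ ε = -1) ∧ LinModel d ε ⊤ y g ∧ l ≠ 0 ∧ M.HI.relIndex (M.CI s0) = k ∧
    ∀ w : List (Fin d), f (wa (fun j => ρ j) w F0) =
      c + wa (bI s0 g (l • y)) w 0 + M.r (wa (fun j => M.π j) w M.a0) • wa (fun j => g j) w y

/-- The second kind of realizations of infinite polytopes: for every word `w` the vertex `ρ_w F0` goes
to `c + β_w(0) + r (π_w a0) e0`; the model is in the orthogonal complement of the unit vector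
`e0`. -/
def KindR {d : ℕ} {P : Type} [PartialOrder P] (k : ℕ) (rk : P → ℤ) (f : P → E d) (C : Flag P)
    (ρ : Fin d → (P ≃o P)) : Prop :=
  ∃ F0 ∈ C, rk F0 = 0 ∧ ∃ (c e0 y : E d) (l : ℝ) (b : Bool) (s1 : ℤˣ)
    (g : ℕ → (E d ≃ₗᵢ[ℝ] E d)) (A : Type) (M : Datum d A),
    (∀ j : Fin d, bd k ≤ j.val + 20 → M.π j = 1) ∧
    ‖e0‖ = 1 ∧ LinModel (d - 1) 1 (ℝ ∙ e0)ᗮ y g ∧ (b = true → CroM (d - 1) 1 (ℝ ∙ e0)ᗮ y g) ∧
    l ≠ 0 ∧ M.HR.relIndex M.C = k ∧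
    ∀ w : List (Fin d), f (wa (fun j => ρ j) w F0) =
      c + wa (bR b s1 g y (l • y)) w 0 + M.r (wa (fun j => M.π j) w M.a0) • e0

/-- All `k`-orbit realizations of regular `d`-polytopes, finite or infinite, for `k ≥ 2` and
`d ≥ k + 4 (⌊log2 k⌋ + 4) ^ 2`; and the numbers `k` that occur. -/
def AllStatement : Prop :=
  ∀ k d : ℕ, 2 ≤ k → bd k ≤ d →
    (∀ (P : Type) [PartialOrder P] (rk : P → ℤ), IsRegularPolytope d rk →
      ∀ (f : P → E d) (C : Flag P) (ρ : Fin d → (P ≃o P)), FOK.IsGens rk C ρ →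
        (Discr rk f ∧ IsOrbitRealization rk f k ↔
          Discr rk f ∧ Faithful rk f ∧
            (KindF k rk f C ρ ∨ KindI k rk f C ρ ∨ KindR k rk f C ρ))) ∧
    ((∃ (P : Type) (_ : PartialOrder P) (_ : Finite P) (rk : P → ℤ) (f : P → E d),
      IsRegularPolytope d rk ∧ Discr rk f ∧ IsOrbitRealization rk f k) ↔ Even k) ∧
    (∃ (P : Type) (_ : PartialOrder P) (_ : Infinite P) (rk : P → ℤ) (f : P → E d),
      IsRegularPolytope d rk ∧ Discr rk f ∧ IsOrbitRealization rk f k)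

end

end FOI.L
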