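import Pool.Agent.FOI.UI
import Pool.Agent.FOL.UDefs
import Pool.Agent.FOL.FStmts

/-!
# The unified statement: the finite kind, for the bound `bd k`
-/

namespace FOI.L

open Lib_helper64.FO FO2 FOK
open FOL (bd)
open scoped RealInnerProductSpace

noncomputable section

theorem bd_ge (k : ℕ) : k + 64 ≤ bd k := by
  have h : 4 ^ 2 ≤ (Nat.log 2 k + 4) ^ 2 := Nat.pow_le_pow_left (by omega) 2
  unfold bd
  omega

/-- an index `l` with `π l = 1` -/
theorem exists_one {d k : ℕ} (hd : bd k ≤ d) {A : Type} (M : Fin d → Equiv.Perm A)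
    (h : ∀ j : Fin d, bd k ≤ j.val + 20 → M j = 1) :
    ∃ l : Fin d, 3 ≤ l.val ∧ l.val + 2 ≤ d ∧ M l = 1 := by
  have := bd_ge k
  refine ⟨⟨bd k - 20, by omega⟩, ?_, ?_, h _ ?_⟩
  · show 3 ≤ bd k - 20
    omega
  · show bd k - 20 + 2 ≤ d
    omega
  · show bd k ≤ bd k - 20 + 20
    omega

theorem index_of_kindF {d k : ℕ} (hd : bd k ≤ d) {P : Type}
    [PartialOrder P] {rk : P → ℤ} (hP : IsRegularPolytope d rk) {f : P → E d} {C : Flag P}
    {ρ : Fin d → (P ≃o P)} (hρ : IsGens rk C ρ) (hRS : StmtQRS) (hRX : StmtQRX) (hRC : StmtQRC)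
    (hCT : StmtQCT) (h : KindF k rk f C ρ) : (symGroup rk f).index = k := by
  obtain ⟨F0, hF0, hr, c, y, g, A, M, hA, hπ, hmod, hne, hidx, hw⟩ := h
  have hb := bd_ge k
  have hl : ∃ l : Fin d, 1 ≤ l.val ∧ l.val + 2 ≤ d ∧ M.π l = 1 := by
    obtain ⟨l, h1, h2, h3⟩ := exists_one hd M.π hπ
    exact ⟨l, by omega, h2, h3⟩
  have hrich : Rich y (fun j : Fin d => g j) (toMix M hne) := by
    rcases mod_of_lin hmod with h | h | h
    · exact hRS d (by omega) _ _ A _ h hl
    · exact hRX d (by omega) _ _ A _ h hl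
    · exact hRC d (by omega) _ _ A _ h hl
  have hsq : ∀ j : Fin d, g j * g j = 1 := by
    rcases mod_of_lin hmod with h | h | h
    · exact QAS.sq_simplex h
    · exact QAS.sq_cross h
    · exact QAS.sq_cube h
  have h1 := countF hCT (by omega) hP f C ρ hρ hF0 hr c y (fun j : Fin d => g j) A (toMix M hne)
    hrich hsq (fun w => by
      have := hw w
      rw [wa_rho, wa_g, wa_pi] at this
      exact this)
  rw [← card_eq M hne, hidx] at h1
  exact Nat.eq_of_mul_eq_mul_right (QAS.card_HC_pos _) h1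

/-- The coercion of lists in the statements. -/
theorem map_coe {d : ℕ} {α : Type} (g : ℕ → α) (w : List (Fin d)) :
    List.map (fun j : ℕ => g j) (do let a ← w; pure (a : ℕ)) = w.map (fun j : Fin d => g j) := by
  induction w with
  | nil => rfl
  | cons a w ih =>
    rw [List.map_cons, ← ih]
    rfl

/-- a realization of a finite polytope is of the finite kind, and `k = 1` or `k` is even -/
theorem kindF_of_real (hFl : StmtFlag) (hPo : StmtPoly) (hGE : StmtQGE) (hKG : StmtQKG)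
    (hKA : FOK.L.S_KA) (hAT : FOL.S_ATOP) (hTO : FOK.L.S_TOP) (hCO : FOK.L.S_CONCL)
    (hRS : StmtQRS) (hRX : StmtQRX) (hRC : StmtQRC) (hCT : StmtQCT) (hOD : StmtQOD) {d k : ℕ}
    (hk : 1 ≤ k) (hd : bd k ≤ d) {P : Type} [PartialOrder P] [Finite P] {rk : P → ℤ}
    (hP : IsRegularPolytope d rk) {f : P → E d} {C : Flag P} {ρ : Fin d → (P ≃o P)}
    (hρ : IsGens rk C ρ) (hO : IsOrbitRealization rk f k) :
    KindF k rk f C ρ ∧ (k = 1 ∨ Even k) := by
  have hb := bd_ge k
  have hPG := hGE d P rk hP C ρ hρ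
  obtain ⟨X, _, hX, G, ι, c, hG⟩ := hKG d k (by omega) hk P rk hP f hO C (exG ρ) hPG
  obtain ⟨B, hB⟩ := hKA d k (by omega) hk P rk hP f hO C (exG ρ) X G ι c hG
  have hfin : Finite (P ≃o P) := Finite.of_injective (fun g : P ≃o P => (g : P → P))
    DFunLike.coe_injective
  obtain ⟨l, hl⟩ := hAT d (k + 1) (P ≃o P) X B (by simpa using hd)
  obtain ⟨y0, g, A, M, hA, hπ, hM, hw⟩ :=
    hCO d k (P ≃o P) X G l hk (hTO d k (P ≃o P) X G B hB l hl)
  have hww : ∀ w : List (Fin d), f ((w.map ρ).prod (ι G.x0)) =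
      c + M.r ((w.map M.π).prod M.a0) • ((w.map g).prod y0) := by
    intro w
    have h1 := hw w
    rw [map_coe] at h1
    have h2 : (w.map (fun j : Fin d => G.ρ j)) = w.map ρ := by
      refine List.map_congr_left fun j _ => ?_
      rw [hG.gens, exG, dif_pos j.isLt]
    rw [h2, hG.fval, hG.equiv] at h1
    rw [← h1]
    abel
  have hl' : ∃ l : Fin d, 1 ≤ l.val ∧ l.val + 2 ≤ d ∧ M.π l = 1 := by
    obtain ⟨l, h1, h2, h3⟩ := exists_one hd M.π hπ
    exact ⟨l, by omega, h2, h3⟩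
  have hmod : LinModel d 1 ⊤ y0 (toN g) := by
    rcases hM with h | h | h
    · exact lin_of_sim h.1
    · exact lin_of_cro h.1
    · exact lin_of_cub h.1
  have hc := QAS.count hFl hCT (by omega) hP f C ρ hPG hG.base (hG.rank _) c y0 g A M
    (QAS.rich hRS hRX hRC (by omega) hM hl') (QAS.sq_model hM) hww
  rw [← idxI d P rk hP f, hO.2] at hc
  refine ⟨⟨ι G.x0, hG.base, hG.rank _, c, y0, toN g, A, toDatum M, hA, fun j hj => hπ j hj,
    hmod, M.ne, ?_, fun w => ?_⟩, hOD d k y0 g A M hM hc⟩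
  · have h1 := card_eq (toDatum M) M.ne
    have h2 : Nat.card (toMix (toDatum M) M.ne).C = k * Nat.card (toMix (toDatum M) M.ne).HC := by
      exact hc.symm
    rw [h2] at h1
    exact Nat.eq_of_mul_eq_mul_right (QAS.card_HC_pos _) h1
  · rw [wa_rho, wa_g, wa_pi, hww]
    have h1 : (w.map fun j : Fin d => toN g j) = w.map g :=
      List.map_congr_left fun j _ => toN_val g j
    rw [h1]
    rfl

end

end FOI.L
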