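import Pool.Agent.FOL.UF
import Pool.Agent.FOL.DStmts

/-!
# The unified statement: the infinite kinds, assembly
-/

namespace FOI.L

open Lib_helper64.FO FO2 FOK
open FOL (bd)
open scoped RealInnerProductSpace

noncomputable section

/-! ### the index -/

theorem index_of_kindI (hCT : S_CTI) {d k : ℕ} (hd : bd k ≤ d)
    {P : Type} [PartialOrder P] {rk : P → ℤ} (hP : IsRegularPolytope d rk) {f : P → E d}
    {C : Flag P} {ρ : Fin d → (P ≃o P)} (hρ : IsGens rk C ρ) (h : KindI k rk f C ρ) :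
    (symGroup rk f).index = k := by
  obtain ⟨F0, hF0, hr, c, y, l, s0, ε, g, A, M, hA, hπ, hε, hmod, hl, hidx, hw⟩ := h
  have hbk := bd_ge k
  have hl' : ∃ l : Fin d, 2 ≤ l.val ∧ l.val + 2 ≤ d ∧ M.π l = 1 := by
    obtain ⟨l, h1, h2, h3⟩ := exists_one hd M.π hπ
    exact ⟨l, by omega, h2, h3⟩
  have hs : sg s0 * sg s0 = 1 := by
    rcases Int.units_eq_one_or s0 with rfl | rfl <;> simp [sg]
  rw [← hidx]
  refine countI hCT (by omega) hP f C ρ hρ hF0 hr c y (l • (y - sg s0 • g 0 y)) s0 ε g A M hε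
    hmod (smul_ne_zero hl (mod_ne (by omega) hmod s0)) ?_ hl' fun w => ?_
  · rw [map_smul, map_sub, map_smul, mod_gg (by omega) hmod]
    have : sg s0 • l • (g 0 y - sg s0 • y) = l • (sg s0 • g 0 y - (sg s0 * sg s0) • y) := by
      module
    rw [this, hs, one_smul]
    module
  · have := hw w
    rw [wa_rho, wa_g, wa_pi, wa_bI] at this
    exact this

theorem index_of_kindR (hCT : S_CTR) {d k : ℕ} (hd : bd k ≤ d)
    {P : Type} [PartialOrder P] {rk : P → ℤ} (hP : IsRegularPolytope d rk) {f : P → E d}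
    {C : Flag P} {ρ : Fin d → (P ≃o P)} (hρ : IsGens rk C ρ) (h : KindR k rk f C ρ) :
    (symGroup rk f).index = k := by
  obtain ⟨F0, hF0, hr, c, e0, y, l, b, s1, g, A, M, hπ, he, hmod, hb, hl, hidx, hw⟩ := h
  have hbk := bd_ge k
  have hl' : ∃ l : Fin d, 3 ≤ l.val ∧ l.val + 2 ≤ d ∧ M.π l = 1 := exists_one hd M.π hπ
  rw [← hidx]
  refine countR hCT (by omega) hP f C ρ hρ hF0 hr c e0 y ((2 * l) • y) b s1 g A M he hmod hb
    (smul_ne_zero (mul_ne_zero two_ne_zero hl) (mod_y_ne (by omega) hmod))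
    (Submodule.smul_mem _ _ (Submodule.mem_span_singleton_self y)) hl' fun w => ?_
  have := hw w
  rw [wa_rho, wa_pi, wa_bR b s1 g l y fun h => cro_norm (by omega) (hb h)] at this
  exact this

/-! ### from a realization to its kind -/

theorem word_exG {d : ℕ} {Γ : Type} [Group Γ] (ρ : Fin d → Γ) (w : List (Fin d)) :
    (w.map fun j : Fin d => exG ρ j) = w.map ρ :=
  List.map_congr_left fun j _ => by rw [exG, dif_pos j.isLt]

theorem kind_of_real (hA : S_ACON) (hCI : S_CTI) (hCR : S_CTR) {d k : ℕ} (hk : 2 ≤ k)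
    (hd : bd k ≤ d) {P : Type} [PartialOrder P] [Infinite P] {rk : P → ℤ}
    (hP : IsRegularPolytope d rk) {f : P → E d} {C : Flag P} {ρ : Fin d → (P ≃o P)}
    (hρ : IsGens rk C ρ) (hDi : Discr rk f) (hf : IsOrbitRealization rk f k) :
    KindI k rk f C ρ ∨ KindR k rk f C ρ := by
  have hPG := gens d P rk hP C ρ hρ
  obtain ⟨X, _, _, G, ι, hG, hGi⟩ := ageoOf (by omega) hP hDi hf hPG
  have hbk := bd_ge k
  have hidx : (symGroup rk f).index = k := by rw [← hG.sym, hGi]
  have hH : G.H ≠ ⊤ := by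
    intro e
    rw [e, Subgroup.index_top] at hGi
    omega
  rcases hA d (k + 1) (P ≃o P) X G hd hH with h | h
  · left
    obtain ⟨c, y0, t, s0, ε, g, A, M, hA, hπ, hε, hmod, ht, hsp, hgt, hw⟩ := h
    obtain ⟨l, hl, rfl⟩ := exists_l (by omega) hmod ht hsp hgt
    have hw' : ∀ w : List (Fin d), f ((w.map ρ).prod (ι G.x0)) =
        c + wI s0 g (l • (y0 - sg s0 • g 0 y0)) w +
          M.r ((w.map M.π).prod M.a0) • ((w.map fun j : Fin d => g j).prod y0) := by
      intro w
      have h1 := hw w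
      rw [hG.gens, word_exG, hG.fval, hG.equiv] at h1
      exact h1
    have hl' : ∃ l : Fin d, 2 ≤ l.val ∧ l.val + 2 ≤ d ∧ M.π l = 1 := by
      obtain ⟨l, h1, h2, h3⟩ := exists_one hd M.π hπ
      exact ⟨l, by omega, h2, h3⟩
    refine ⟨ι G.x0, hG.base, hG.rank _, c, y0, l, s0, ε, g, A, M, hA, hπ, hε, hmod, hl, ?_,
      fun w => ?_⟩
    · rw [← countI hCI (by omega) hP f C ρ hρ hG.base (hG.rank _) c y0 _ s0 ε g A M hε hmod ht
        hgt hl' hw', hidx]
    · rw [wa_rho, wa_g, wa_pi, wa_bI]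
      exact hw' w
  · right
    obtain ⟨c, e0, y0, t, b, s1, g, A, M, hπ, he, hmod, hb, ht, hsp, hw⟩ := h
    obtain ⟨α, rfl⟩ := Submodule.mem_span_singleton.1 hsp
    have hα : α ≠ 0 := by
      rintro rfl
      exact ht (zero_smul _ _)
    have hw' : ∀ w : List (Fin d), f ((w.map ρ).prod (ι G.x0)) =
        c + wR b s1 g y0 (α • y0) w + M.r ((w.map M.π).prod M.a0) • e0 := by
      intro w
      have h1 := hw w
      rw [hG.gens, word_exG, hG.fval, hG.equiv] at h1
      exact h1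
    have hl' : ∃ l : Fin d, 3 ≤ l.val ∧ l.val + 2 ≤ d ∧ M.π l = 1 := exists_one hd M.π hπ
    refine ⟨ι G.x0, hG.base, hG.rank _, c, e0, y0, α / 2, b, s1, g, A, M, hπ, he, hmod, hb,
      div_ne_zero hα two_ne_zero, ?_, fun w => ?_⟩
    · rw [← countR hCR (by omega) hP f C ρ hρ hG.base (hG.rank _) c e0 y0 _ b s1 g A M he hmod
        hb ht hsp hl' hw', hidx]
    · rw [wa_rho, wa_pi, wa_bR b s1 g _ y0 fun h => cro_norm (by omega) (hb h)]
      have e : 2 * (α / 2) = α := by ring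
      rw [e]
      exact hw' w

/-! ### the final statement -/

theorem all_of (hA : S_ACON) (hCI : S_CTI) (hCR : S_CTR) (hRS : StmtQRS) (hRX : StmtQRX)
    (hRC : StmtQRC) (hCT : StmtQCT)
    (hfin : ∀ k d : ℕ, 1 ≤ k → bd k ≤ d →
      ∀ (P : Type) [PartialOrder P] [Finite P] (rk : P → ℤ), IsRegularPolytope d rk →
        ∀ (f : P → E d) (C : Flag P) (ρ : Fin d → (P ≃o P)), IsGens rk C ρ →
          IsOrbitRealization rk f k → KindF k rk f C ρ ∧ (k = 1 ∨ Even k))
    (hfl : StmtFlag) (hpo : StmtPoly) (hef : ExistStatement)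
    (hex : ExInf) : AllStatement := by
  intro k d hk hd
  have hbk := bd_ge k
  refine ⟨?_, ?_, hex k d hk (by omega)⟩
  · intro P _ rk hP f C ρ hρ
    constructor
    · rintro ⟨hDi, hf⟩
      refine ⟨hDi, hf.1, ?_⟩
      rcases finite_or_infinite P with h | h
      · left
        exact (hfin k d (by omega) hd P rk hP f C ρ hρ hf).1
      · right
        exact kind_of_real hA hCI hCR hk hd hP hρ hDi hf
    · rintro ⟨hDi, hfa, h⟩
      refine ⟨hDi, hfa, ?_⟩
      rw [idxI d P rk hP f]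
      rcases h with h | h | h
      · exact index_of_kindF hd hP hρ hRS hRX hRC hCT h
      · exact index_of_kindI hCI hd hP hρ h
      · exact index_of_kindR hCR hd hP hρ h
  · constructor
    · rintro ⟨P, _, _, rk, f, hP, -, hf⟩
      obtain ⟨-, -, -, hF4, -⟩ := hfl d P rk hP
      obtain ⟨C, -⟩ := hF4 ∅ (by simp)
      obtain ⟨ρ, hρ⟩ := hpo d P rk hP C
      have h := (hfin k d (by omega) hd P rk hP f C (fun j => ρ j.val) (fun j =>
        ⟨fun e => hρ.ne_one j.val j.isLt (hρ.free _ e), fun x hx hr => hρ.moves _ x hx hr⟩) hf).2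
      rcases h with h | h
      · omega
      · exact h
    · intro h
      obtain ⟨P, _, _, rk, f, hP, hf⟩ := hef k d (by omega) (Or.inr h) (by omega)
      exact ⟨P, _, ‹_›, rk, f, hP, discr_of_finite rk f, hf⟩

end

end FOI.L
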