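import Pool.Agent.FOL.CStmts

/-!
# Module WRI: the formula for the vertices in the case (irr) (section III.8)
-/

namespace FOI.L

open Lib_helper64.FO FO2 FOK
open scoped RealInnerProductSpace Nat

noncomputable section

namespace WRI

variable {d k : ℕ} {Γ : Type} [Group Γ] {X : Type} [MulAction Γ X] (G : AGeo d k Γ X)

theorem sg_sq (s : ℤˣ) : sg s * sg s = 1 := by
  rcases Int.units_eq_one_or s with rfl | rfl <;> simp [sg]

theorem sg_mul (s t : ℤˣ) : sg (s * t) = sg s * sg t := by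
  simp [sg]

theorem sg_one : sg 1 = 1 := by simp [sg]

theorem RI_eq (RI : Γ → (E d ≃ₗᵢ[ℝ] E d)) (gm : ℕ → (E d ≃ₗᵢ[ℝ] E d))
    (h : SgEq (ggI G RI) gm) :
    ∃ s0 : ℤˣ, ∀ j v, RI (G.ρ j) v = sg (sgI s0 j) • gm j v := by
  obtain ⟨h1, h0⟩ := h
  have hj : ∀ s0 : ℤˣ, ∀ j, 1 ≤ j → ∀ v, RI (G.ρ j) v = sg (sgI s0 j) • gm j v := by
    intro s0 j hj v
    rw [h1 j hj]
    by_cases hj1 : j = 1
    · subst hj1
      simp [ggI, sgI, sg]
    · have hj0 : j ≠ 0 := by omega
      simp [ggI, sgI, sg, hj1, hj0]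
  rcases h0 with h0 | h0
  · refine ⟨1, fun j v => ?_⟩
    rcases Nat.eq_zero_or_pos j with rfl | hp
    · have := h0 v
      simp only [ggI] at this
      simp [sgI, sg, this]
    · exact hj 1 j hp v
  · refine ⟨-1, fun j v => ?_⟩
    rcases Nat.eq_zero_or_pos j with rfl | hp
    · have := h0 v
      simp only [ggI] at this
      simp [sgI, sg, this]
    · exact hj (-1) j hp v

theorem main {l : ℕ} (hA : ATop G l) (hSp : Sp G 0 l = ⊤) (RI : Γ → (E d ≃ₗᵢ[ℝ] E d))
    (hE : IsExt G l RI) (b : Γ → E d) (s : Γ → ℝ) (z0 e0 : E d)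
    (hI : IrrD G l RI b s z0 e0) (hG : IrrG G l RI) (hT : IrrT G RI (b (G.ρ 0)))
    (hfix : ∀ j, 2 ≤ j → j < d → ∀ v ∈ G.V 1 j, RI (G.ρ j) v = v)
    (h1 : RI (G.ρ 1) e0 = -e0) (y0 : E d) (hy : y0 ∈ G.V 1 1) (hy0 : y0 ≠ 0) (ε : ℝ)
    (hε : ε = 1 ∨ ε = -1) (gm : ℕ → (E d ≃ₗᵢ[ℝ] E d)) (hSg : SgEq (ggI G RI) gm)
    (hmod : SimM d ⊤ y0 gm ∨ CubM d ⊤ y0 gm ∨ CroM d ε ⊤ y0 gm) :
    ∃ c y0 t s0 ε g q, WI G c y0 t s0 ε g q := by
  obtain ⟨s0, hRI⟩ := RI_eq G RI gm hSg
  have hd : 20 ≤ d := by have := hA.ld; omega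
  have hRI1 : RI 1 = 1 := by
    have := hE.mul 1 1
    rw [one_mul] at this
    exact mul_eq_left.1 this.symm
  have he0 : e0 ≠ 0 := by
    intro h
    have := hI.norm
    rw [h, norm_zero] at this
    exact zero_ne_one this
  obtain ⟨a, ha⟩ : ∃ a : ℝ, a • e0 = y0 := by
    rw [hI.V1] at hy
    exact Submodule.mem_span_singleton.1 hy
  have ha0 : a ≠ 0 := by
    intro h
    rw [h, zero_smul] at ha
    exact hy0 ha.symm
  have he : e0 = a⁻¹ • y0 := by
    rw [← ha, smul_smul, inv_mul_cancel₀ ha0, one_smul]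
  have hb1 : b 1 = 0 := hI.up 1 (one_mem _)
  have hbj : ∀ j, 1 ≤ j → b (G.ρ j) = 0 := fun j hj => hI.up _ (G.ρ_mem_up hj)
  have hRe : ∀ γ, RI γ e0 ≠ 0 := by
    intro γ h
    exact he0 ((RI γ).map_eq_zero_iff.1 h)
  have hej : ∀ j, 1 ≤ j → j < d → RI (G.ρ j) e0 = sg (sgI s0 j) • e0 := by
    intro j hj hjd
    by_cases hj1 : j = 1
    · subst hj1
      rw [h1]
      simp [sgI, sg]
    · have hj0 : j ≠ 0 := by omega
      rw [hfix j (by omega) hjd e0 ?_]
      · simp [sgI, sg, hj1, hj0]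
      · apply G.V_mono 1 hj
        rw [hI.V1]
        exact Submodule.mem_span_singleton_self e0
  -- the formulas for words
  have hprod : ∀ w : List (Fin d), ∀ v, RI ((w.map fun j : Fin d => G.ρ j).prod) v =
      sg ((w.map fun j : Fin d => sgI s0 j).prod) • ((w.map fun j : Fin d => gm j).prod v) := by
    intro w
    induction w with
    | nil => intro v; simp [hRI1, sg]
    | cons j w ih =>
      intro v
      rw [List.map_cons, List.prod_cons, List.map_cons, List.prod_cons, List.map_cons,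
        List.prod_cons, hE.mul, sg_mul]
      change RI (G.ρ j) (RI _ v) = _
      rw [ih, map_smul, hRI, smul_smul, mul_comm]
      rfl
  have hb : ∀ w : List (Fin d), b ((w.map fun j : Fin d => G.ρ j).prod) =
      wI s0 gm (b (G.ρ 0)) w := by
    intro w
    induction w with
    | nil => simpa [wI] using hb1
    | cons j w ih =>
      rw [List.map_cons, List.prod_cons, hI.mul, ih, hRI, wI, add_comm]
      congr 1
      by_cases hj : j.val = 0
      · rw [if_pos hj, hj]
      · rw [if_neg hj, hbj _ (by omega)]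
  -- the span
  have hy2 : y0 ∈ G.V 1 2 := G.V_mono 1 (by omega) hy
  have hR0 : gm 0 y0 ∈ G.V 1 2 := by
    have h3 := hG.pres 0 2 y0 (by omega) hy2
    rw [hRI] at h3
    have h4 := Submodule.smul_mem _ (sg (sgI s0 0)) h3
    rwa [smul_smul, sg_sq, one_smul] at h4
  have hnot : gm 0 y0 ∉ G.V 1 1 := by
    intro hcon
    obtain ⟨v, hv, hv'⟩ := hG.moves 0 (by omega)
    apply hv'
    rw [hI.V1] at hv
    obtain ⟨c, hc⟩ := Submodule.mem_span_singleton.1 hv
    rw [← hc, map_smul, he, map_smul, hRI]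
    exact Submodule.smul_mem _ _ (Submodule.smul_mem _ _ (Submodule.smul_mem _ _ hcon))
  have hli : LinearIndependent ℝ ![y0, gm 0 y0] := by
    rw [LinearIndependent.pair_iff' hy0]
    intro c hc
    apply hnot
    rw [← hc]
    exact Submodule.smul_mem _ _ hy
  have hspan : Submodule.span ℝ {y0, gm 0 y0} = G.V 1 2 := by
    apply Submodule.eq_of_le_of_finrank_eq
    · rw [Submodule.span_le]
      rintro x (rfl | rfl)
      · exact hy2
      · exact hR0
    · rw [hI.dimV 2 (by omega) (by omega)]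
      have h5 := finrank_span_eq_card hli
      rw [Matrix.range_cons, Matrix.range_cons, Matrix.range_empty, Set.union_empty] at h5
      rw [Fintype.card_fin] at h5
      exact h5
  refine ⟨z0, y0, b (G.ρ 0), s0, ε, gm, fun γ => a⁻¹ * s γ, ?_⟩
  exact
    { eps := hε
      mod := ⟨by rw [finrank_top]; exact finrank_euclideanSpace_fin, hmod⟩
      tne := hT.ne
      tsp := by rw [hspan]; exact hT.V
      tg := by
        have := hT.ρ0
        rw [hRI] at this
        exact this
      qN := by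
        intro n hn γ
        have h2 := hI.H n (G.N_le hn) (γ • G.x0)
        rw [hI.f γ, ← mul_smul, hI.f (n * γ)] at h2
        have h3 : z0 + b γ + s γ • RI γ e0 - z0 = b γ + s γ • RI γ e0 := by abel
        rw [h3, map_add, map_smul, hI.mul, hE.mul] at h2
        have h4 : (s (n * γ) - s γ) • RI n (RI γ e0) = 0 := by
          rw [sub_smul, sub_eq_zero]
          have h5 : (RI n * RI γ) e0 = RI n (RI γ e0) := rfl
          rw [h5] at h2
          have h6 := h2
          simp only [add_assoc] at h6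
          exact add_left_cancel (add_left_cancel (add_left_cancel h6))
        have h5 : RI n (RI γ e0) ≠ 0 := by
          intro h
          exact hRe γ ((RI n).map_eq_zero_iff.1 h)
        have h6 : s (n * γ) = s γ := by
          rcases smul_eq_zero.1 h4 with h | h
          · exact sub_eq_zero.1 h
          · exact absurd h h5
        change a⁻¹ * s (n * γ) = a⁻¹ * s γ
        rw [h6]
      qj := by
        intro γ j hj hjd
        have h2 := hI.f (γ * G.ρ j)
        rw [mul_smul, G.stab j hj, hI.f γ, hI.mul, hbj j hj, map_zero, add_zero, hE.mul] at h2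
        have h3 : (RI γ * RI (G.ρ j)) e0 = sg (sgI s0 j) • RI γ e0 := by
          change RI γ (RI (G.ρ j) e0) = _
          rw [hej j hj hjd, map_smul]
        rw [h3, smul_smul] at h2
        have h4 : (s γ - s (γ * G.ρ j) * sg (sgI s0 j)) • RI γ e0 = 0 := by
          rw [sub_smul, sub_eq_zero]
          exact add_left_cancel h2
        have h5 : s γ = s (γ * G.ρ j) * sg (sgI s0 j) := by
          rcases smul_eq_zero.1 h4 with h | h
          · exact sub_eq_zero.1 h
          · exact absurd h (hRe γ)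
        change a⁻¹ * s (γ * G.ρ j) = sg (sgI s0 j) * (a⁻¹ * s γ)
        rw [h5]
        have h6 := sg_sq (sgI s0 j)
        linear_combination (-(a⁻¹ * s (γ * G.ρ j))) * h6
      f := by
        intro w
        rw [hI.f, hb, hprod, he, map_smul, smul_smul, smul_smul]
        congr 2
        ring }

end WRI

open WRI in
theorem t_WRI : S_WRI := by
  intro d k Γ _ X _ _ G l hA hSp RI hE b s z0 e0 hI hG hT hfix h1 hC
  have hd : 0 < d := by have := hA.ld; omega
  obtain ⟨gm, hSg, hc⟩ := hC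
  rcases hc with ⟨v, hv, hv0, hact⟩ | ⟨u, hu, hu0, hact⟩ | ⟨u, ε, hu, hu0, hε, -, hact⟩
  · refine main G hA hSp RI hE b s z0 e0 hI hG hT hfix h1 (v 0) hv0 ?_ 1 (Or.inl rfl) gm hSg
      (Or.inl ⟨v, fun _ => Submodule.mem_top, hv.1, rfl, hact⟩)
    intro h
    have := hv.1 0 0
    rw [h, inner_zero_left, if_pos rfl] at this
    exact zero_ne_one this
  · refine main G hA hSp RI hE b s z0 e0 hI hG hT hfix h1 (∑ i, u i) hu0 ?_ 1 (Or.inl rfl) gm hSg
      (Or.inr (Or.inl ⟨fun i => u i, fun _ => Submodule.mem_top, u.orthonormal, rfl, hact⟩))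
    intro h
    have h2 : ⟪u ⟨0, hd⟩, ∑ i, u i⟫ = 1 := by
      rw [inner_sum]
      have h3 : ∀ i, ⟪u ⟨0, hd⟩, u i⟫ = if (⟨0, hd⟩ : Fin d) = i then (1 : ℝ) else 0 :=
        fun i => orthonormal_iff_ite.1 u.orthonormal _ _
      simp only [h3]
      simp
    rw [h, inner_zero_right] at h2
    exact zero_ne_one h2
  · refine main G hA hSp RI hE b s z0 e0 hI hG hT hfix h1 (u ⟨0, hd⟩) (hu0 hd) ?_ ε hε gm hSg
      (Or.inr (Or.inr ⟨fun i => u i, fun _ => Submodule.mem_top, u.orthonormal, fun _ => rfl,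
        hact⟩))
    intro h
    have := u.orthonormal.1 ⟨0, hd⟩
    rw [h, norm_zero] at this
    exact zero_ne_one this

end

end FOI.L
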