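import Pool.Agent.FOL.AFinal
import Pool.Agent.FOL.UI
import Pool.Agent.FOL.TI
import Pool.Agent.FOL.TW
import Pool.Agent.FOI.AFF
import Pool.Agent.FOL.MIR
import Pool.Agent.FOI.PROP
import Pool.Agent.FOL.CH
import Pool.Agent.FOI.CMP
import Pool.Agent.FOL.ASV
import Pool.Agent.FOL.FIN
import Pool.Agent.FOL.DIR
import Pool.Agent.FOL.LAT
import Pool.Agent.FOL.CMM
import Pool.Agent.FOL.INF
import Pool.Agent.FOL.SPAN
import Pool.Agent.FOI.LEX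
import Pool.Agent.FOI.ORT
import Pool.Agent.FOL.EXT
import Pool.Agent.FOL.AFX
import Pool.Agent.FOL.PSI
import Pool.Agent.FOL.LSG
import Pool.Agent.FOL.LMA1
import Pool.Agent.FOL.LMA
import Pool.Agent.FOL.LMD1
import Pool.Agent.FOL.LMD
import Pool.Agent.FOL.LMC1
import Pool.Agent.FOL.LMC2
import Pool.Agent.FOL.LMC3
import Pool.Agent.FOL.LMC
import Pool.Agent.FOL.LPOS
import Pool.Agent.FOL.LCLS
import Pool.Agent.FOL.RED1
import Pool.Agent.FOL.RED2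
import Pool.Agent.FOL.RED3
import Pool.Agent.FOL.RED4
import Pool.Agent.FOL.RED5
import Pool.Agent.FOI.EIG
import Pool.Agent.FOL.LR1
import Pool.Agent.FOL.LR2
import Pool.Agent.FOL.IRR1
import Pool.Agent.FOL.IRR2
import Pool.Agent.FOL.IRR3
import Pool.Agent.FOL.IRR4
import Pool.Agent.FOL.LI1
import Pool.Agent.FOL.LI2
import Pool.Agent.FOL.WRI
import Pool.Agent.FOI.NOS
import Pool.Agent.FOL.WRR
import Pool.Agent.FOI.NER
import Pool.Agent.FOL.ACI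
import Pool.Agent.FOL.ACR
import Pool.Agent.FOL.ACON
import Pool.Agent.FOI.TRN
import Pool.Agent.FOI.MOS
import Pool.Agent.FOI.MOC
import Pool.Agent.FOI.MOX
import Pool.Agent.FOI.IXW
import Pool.Agent.FOI.CTI
import Pool.Agent.FOI.CTR
import Pool.Agent.FOI.COA
import Pool.Agent.FOI.COB
import Pool.Agent.FOI.XF
import Pool.Agent.FOI.XG
import Pool.Agent.FOI.EC6
import Pool.Agent.FOI.ER6
import Pool.Agent.FOI.EN6
import Pool.Agent.FOI.EM6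
import Pool.Agent.FOI.ED6
import Pool.Agent.FOI.EXI
import Pool.Agent.FOK.AsmQ
import Pool.Agent.FOK.STEP
import Pool.Agent.FOK.PRM
import Pool.Agent.FOK.QRX
import Pool.Agent.FOL.FTI
import Pool.Agent.FOL.FTAD
import Pool.Agent.FOL.FBE1
import Pool.Agent.FOL.FBE2
import Pool.Agent.FOL.FGN1
import Pool.Agent.FOL.FGN2
import Pool.Agent.FOL.FPOS
import Pool.Agent.FOL.FMA1
import Pool.Agent.FOL.FMA
import Pool.Agent.FOL.FMD1
import Pool.Agent.FOL.FMD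
import Pool.Agent.FOL.FMC1
import Pool.Agent.FOL.FMC2
import Pool.Agent.FOL.FMC3
import Pool.Agent.FOL.FMC
import Pool.Agent.FOL.FMIXG
import Pool.Agent.FOL.FTRA
import Pool.Agent.FOL.FTRC
import Pool.Agent.FOL.FTRD
import Pool.Agent.FOL.FCONCL
import Pool.Agent.FOL.FKA
import Pool.Agent.FOL.FTOP

/-!
# The unified theorem for the bound `bd k`, from the modules
-/

namespace FOI.L

theorem f_ATOP : S_ATOP := FOL.f_ATOP
theorem f_STEP : FOI.S_STEP := FOI.t_STEP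

/-! ### block II -/

theorem f_TW : S_TW := t_TW t_TI
theorem f_MIR : S_MIR := t_MIR t_AFF
theorem f_PROP : S_PROP := t_PROP t_AFF
theorem f_CH : S_CH := t_CH t_TI
theorem f_ASV : S_ASV := t_ASV t_TI t_AFF f_MIR f_PROP f_CH t_CMP
theorem f_FIN : S_FIN := t_FIN t_TI f_MIR f_ASV
theorem f_DIR : S_DIR := t_DIR t_TI f_MIR f_FIN
theorem f_LAT : S_LAT := t_LAT f_FIN
theorem f_CMM : S_CMM := t_CMM t_AFF f_MIR f_LAT
theorem f_INF : S_INF := t_INF t_TI t_AFF f_MIR f_DIR f_LAT f_CMM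
theorem f_SPAN : S_SPAN := t_SPAN f_MIR f_DIR f_LAT f_CMM f_INF
theorem f_EXT : S_EXT := t_EXT f_MIR f_DIR f_LAT f_CMM f_SPAN t_LEX t_ORT
theorem f_AFX : S_AFX := t_AFX f_MIR f_DIR f_LAT f_CMM
theorem f_PSI : S_PSI := t_PSI f_DIR

/-! ### the linear systems -/

theorem f_LMA1 : S_LMA1 := t_LMA1 t_LSG
theorem f_LMA : S_LMA := t_LMA f_LMA1
theorem f_LMD1 : S_LMD1 := t_LMD1 t_LSG
theorem f_LMD : S_LMD := t_LMD t_LSG f_LMD1
theorem f_LMC : S_LMC := t_LMC t_LSG t_LMC1 t_LMC2 t_LMC3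
theorem f_LCLS : S_LCLS := t_LCLS t_LPOS f_LMA f_LMD f_LMC

/-! ### reducible and irreducible -/

theorem f_RED1 : S_RED1 := t_RED1 f_MIR f_DIR
theorem f_RED2 : S_RED2 := t_RED2 f_STEP t_TI f_TW f_MIR f_DIR
theorem f_RED3 : S_RED3 := t_RED3 f_MIR f_DIR f_PSI
theorem f_RED4 : S_RED4 := t_RED4 f_STEP t_TI f_TW f_MIR f_DIR f_PSI
theorem f_RED5 : S_RED5 := t_RED5 t_EIG
theorem f_LR1 : S_LR1 := t_LR1 t_TI f_MIR f_DIR
theorem f_LR2 : S_LR2 := t_LR2 f_MIR f_DIR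
theorem f_IRR1 : S_IRR1 := t_IRR1 f_STEP t_TI f_DIR f_PSI
theorem f_IRR2 : S_IRR2 := t_IRR2 f_STEP t_TI f_DIR f_PSI
theorem f_IRR4 : S_IRR4 := t_IRR4 t_EIG
theorem f_LI1 : S_LI1 := t_LI1 t_TI f_MIR f_DIR
theorem f_LI2 : S_LI2 := t_LI2 f_MIR
theorem f_WRR : S_WRR := t_WRR f_MIR f_DIR t_NOS
theorem f_ACI : S_ACI := t_ACI t_NER
theorem f_ACR : S_ACR := t_ACR t_NER
theorem f_ACON : S_ACON :=
  t_ACON f_ATOP f_EXT f_AFX f_IRR1 f_IRR2 t_IRR3 f_IRR4 f_LI1 f_LI2 f_LCLS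
    t_WRI f_ACI f_RED1 f_RED2 f_RED3 f_RED4 f_RED5 f_LR1 f_LR2 f_WRR f_ACR

/-! ### the count and existence -/

theorem f_CTI : S_CTI := t_CTI t_TRN t_MOS t_MOC t_MOX t_IXW
theorem f_CTR : S_CTR := t_CTR t_TRN t_MOS t_MOC t_MOX t_IXW
theorem f_EXI : ExistI := t_EXI (t_COB t_COA) t_XF t_XG t_EC6 t_ER6 t_EN6 t_EM6 t_ED6 f_CTR

end FOI.L

/-! ### finite polytopes -/

namespace FOK.L

theorem f_TAD : S_TAD := t_TAD t_TI
theorem f_BE1 : S_BE1 := t_BE1 t_TI f_TAD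
theorem f_BE2 : S_BE2 := t_BE2 t_TI f_BE1
theorem f_GN1 : S_GN1 := t_GN1 FOK.t_STEP t_TI f_BE1 f_BE2
theorem f_POS : S_POS := t_POS t_TI t_VECA t_VECD
theorem f_MA : S_MA := t_MA t_PRM (t_MA1 t_GN2)
theorem f_MD : S_MD := t_MD t_PRM (t_MD1 t_TI t_GN2)
theorem f_MC : S_MC := t_MC t_GN2 t_MC1 (t_MC2 f_BE1 f_BE2) t_MC3
theorem f_MIXG : S_MIXG := t_MIXG f_BE2
theorem f_CONCL : S_CONCL := t_CONCL f_TAD f_GN1 f_POS f_MA f_MD f_MC f_MIXG t_TRA t_TRC t_TRD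
theorem f_TOP : S_TOP := t_TOP FOK.t_STEP

end FOK.L

namespace FOI.L

open FOK

theorem allThm : AllStatement :=
  all_of f_ACON f_CTI f_CTR t_QRS t_QRX t_QRC t_QCT
    (fun _ _ hk hd _ _ _ _ hP _ _ _ hρ hO =>
      kindF_of_real FO2.flg poly' (t_QGE FO2.flg poly') (t_QKG FO2.flg poly' t_QLI (t_QIX poly'))
        FOK.L.t_KA FOL.f_ATOP FOK.L.f_TOP FOK.L.f_CONCL t_QRS t_QRX t_QRC t_QCT t_QOD hk hd hP hρ hO)
    FO2.flg poly' FOK.exist f_EXI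

end FOI.L
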